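import Pool.Agent.W_7d29a1_q.NuR
import Pool.Agent.W_7d29a1_v.Final

/-!
The final statement of THEOREM (Q) from `hyp_false`, together with THEOREM (V).
-/

namespace Pool.Agent.W_7d29a1_q

open MeasureTheory ProbabilityTheory Filter Topology Pool.Agent.W_MP_7d29a1_pr
  Pool.Agent.W_7d29a1_h46

private theorem NuS_mgf {d : ℕ} (hd : 0 < d) (β : ℝ) (h : Vec d) (η : ℕ × Site d → ℝ) (n : ℕ) :
    Real.log (polMGF β h η n) = W_7d29a1_h46u.X β h η n - W_7d29a1_h46u.X β (0 : Vec d) η n := by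
  have h1 : polMGF β h η n = W_7d29a1_h46u.Z β h η n / W_7d29a1_h46u.Z β (0 : Vec d) η n := by
    unfold polMGF W_7d29a1_h46u.Z ZT
    congr 1
    · refine Finset.sum_congr rfl fun s _ => ?_
      simp [wgt, Real.exp_add]
    · refine Finset.sum_congr rfl fun s _ => ?_
      simp [wgt]
  rw [h1, Real.log_div (W_7d29a1_h46u.Z_pos hd β h η n).ne' (W_7d29a1_h46u.Z_pos hd β 0 η n).ne']
  rfl

theorem final_all_of {d : ℕ} (hd : 1 ≤ d)
    (hyp : ∃ c : ℝ, 0 < c ∧ c ≤ 1 / (400 * ((d : ℝ) + 2)) ∧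
      ∀ (ρ : Measure ℝ) [IsProbabilityMeasure ρ] (β : ℝ), W_7d29a1_h46u.EM ρ →
        (∀ c : ℝ, ρ {c} ≠ 1) → 0 < β → ∀ᶠ N : ℕ in atTop, ¬ Hy d ρ β c N) :
    ∃ κ : ℝ, 0 < κ ∧ ∀ {Ω : Type*} [MeasurableSpace Ω] (μ : Measure Ω) [IsProbabilityMeasure μ]
      (ω : ℕ × Site d → Ω → ℝ), (∀ p, Measurable (ω p)) → iIndepFun ω μ →
      (∀ p q, IdentDistrib (ω p) (ω q) μ μ) → (∀ p, ¬ ∃ c : ℝ, ∀ᵐ x ∂μ, ω p x = c) →
      (∀ (b : ℝ) p, Integrable (fun x => Real.exp (b * ω p x)) μ) → ∀ {β : ℝ}, 0 < β →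
      1 / ((d : ℝ) + 2) + κ ≤ nu μ β ω ∧
      (∃ L : Vec d → ℝ,
        (∀ h, ∀ᵐ x ∂μ, Tendsto (fun n : ℕ => Real.log (polMGF β h (fun p => ω p x) n) / n) atTop
          (𝓝 (L h))) ∧
        ConvexOn ℝ Set.univ L ∧
        (∃ c : ℝ, 0 < c ∧ ∀ h, ‖h‖ ≤ 1 → c * ‖h‖ ^ (1 / κ) ≤ L h) ∧
        (∀ U : Set (Vec d), IsOpen U → U.Nonempty → ∀ (v : Vec d) (c : ℝ),
          ∃ h ∈ U, L h ≠ c + inner ℝ h v) ∧
        (∀ h, ∀ c < L h, ∀ᵐ x ∂μ, Tendsto (fun n : ℕ => PolT β h (fun p => ω p x)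
          {s : Fin n → Step d | c * n ≤ inner ℝ h (emb (pos s n))}) atTop (𝓝 1)) ∧
        (∃ C δ0 : ℝ, 0 < C ∧ 0 < δ0 ∧ ∀ δ > 0, δ ≤ δ0 → ∀ᵐ x ∂μ, ∀ᶠ n : ℕ in atTop, ∀ y : Site d,
          near n (δ * n) y → Real.exp (-(C * δ ^ (1 + κ) * n)) ≤
            Pol β (fun p => ω p x) n {s : Fin n → Step d | pos s n = y})) ∧
      ∀ (h v : Vec d) (K : ℝ), ∫ x, liminf (fun n : ℕ => PolT β h (fun p => ω p x)
        (tube d n v (K * (n : ℝ) ^ (1 / ((d : ℝ) + 2))))) atTop ∂μ < 1 := by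
  obtain ⟨κ, hκ, H⟩ := final_of hd hyp
  refine ⟨κ, hκ, ?_⟩
  intro Ω _ μ _ ω hmeas hindep hident hnc hexp β hβ
  obtain ⟨h1, L, h2, h3, h4, h5, h6⟩ := H μ ω hmeas hindep hident hnc hexp hβ
  set p0 : ℕ × Site d := (0, 0) with hp0
  set ρ : Measure ℝ := μ.map (ω p0) with hρ
  have : IsProbabilityMeasure ρ := Measure.isProbabilityMeasure_map (hmeas p0).aemeasurable
  have hω : IID μ ρ ω := ⟨hmeas, hindep, fun p => (hident p p0).map_eq⟩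
  have hnc' : ∀ c : ℝ, ρ {c} ≠ 1 := by
    intro c hc
    apply hnc p0
    refine ⟨c, ?_⟩
    rw [hρ, Measure.map_apply (hmeas p0) (measurableSet_singleton c)] at hc
    have h1 : MeasurableSet (ω p0 ⁻¹' {c}) := hmeas p0 (measurableSet_singleton c)
    exact (prob_compl_eq_zero_iff h1).2 hc
  have hexp' : W_7d29a1_h46u.EM ρ := by
    intro b
    rw [hρ, integrable_map_measure (by fun_prop) (hmeas p0).aemeasurable]
    exact hexp b p0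
  have hmp := W_7d29a1_h46u.mp_env hω
  have tr : ∀ {P : (ℕ × Site d → ℝ) → Prop}, (∀ᵐ η ∂(W_7d29a1_h46u.law d ρ), P η) →
      ∀ᵐ x ∂μ, P (fun p => ω p x) := fun hP => hmp.quasiMeasurePreserving.ae hP
  have hL : ∀ h, L h = W_7d29a1_h46u.lam ρ β h - W_7d29a1_h46u.lam ρ β (0 : Vec d) := by
    intro h
    obtain ⟨x, hx1, hx2, hx3⟩ := ((tr (W_7d29a1_h3.ae_X hd hexp' β h)).and
      ((tr (W_7d29a1_h3.ae_X hd hexp' β (0 : Vec d))).and (h2 h))).exists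
    refine tendsto_nhds_unique hx3 ((hx1.sub hx2).congr fun n => ?_)
    rw [NuS_mgf hd, sub_div]
  refine ⟨h1, ⟨L, h2, h3, h4, fun U hU hne v c => ?_, h5, h6⟩, fun h v K => ?_⟩
  · obtain ⟨h, hh, hne⟩ := W_7d29a1_v.not_affine hexp' hnc' hβ hd hU hne v
      (c + W_7d29a1_h46u.lam ρ β (0 : Vec d))
    refine ⟨h, hh, fun heq => hne ?_⟩
    rw [hL h] at heq
    linarith
  · have h1 := W_7d29a1_v.tube_all hexp' hnc' hβ hd h v K
    have h2 : ∫ x, liminf (fun n : ℕ => PolT β h (fun p => ω p x)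
        (tube d n v (K * (n : ℝ) ^ (1 / ((d : ℝ) + 2))))) atTop ∂μ =
        ∫ η, liminf (fun n : ℕ => PolT β h η
          (tube d n v (K * (n : ℝ) ^ (1 / ((d : ℝ) + 2))))) atTop ∂(W_7d29a1_h46u.law d ρ) := by
      rw [← hmp.map_eq, integral_map hmp.measurable.aemeasurable]
      exact (Measurable.liminf fun n => measurable_PolT β h _).aestronglyMeasurable
    rw [h2]
    exact h1

end Pool.Agent.W_7d29a1_q
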