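import Pool.Agent.W_7d29a1_h3.CheapB

/-!
Section 12 of row 601: a cheap end point, quantitative.
-/

namespace Pool.Agent.W_7d29a1_q

open MeasureTheory ProbabilityTheory Filter Topology Pool.Agent.W_MP_7d29a1_pr
  Pool.Agent.W_7d29a1_h46 Pool.Agent.W_7d29a1_h46u Pool.Agent.W_7d29a1_h3

variable {d : ℕ} {ρ : Measure ℝ} [IsProbabilityMeasure ρ]

/-- Power lower bound for `lam` on the coordinate axes. -/
def PL (d : ℕ) (ρ : Measure ℝ) (β K c : ℝ) : Prop :=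
  ∀ (j : Fin d) (t : ℝ), 0 < t → t ≤ 1 → lam ρ β (0 : Vec d) + c * t ^ K ≤ lam ρ β (t • ej j)

private theorem NuA_inner (j0 : Fin d) (t : ℝ) (y : Site d) :
    inner ℝ (t • ej j0 : Vec d) (emb y) = t * y j0 := by
  have h := inner_tl (d := d) t j0 true y
  simpa [tl] using h

private theorem NuA_norm (j0 : Fin d) {t : ℝ} (ht : 0 < t) : ‖(t • ej j0 : Vec d)‖ = t := by
  unfold ej
  rw [norm_smul, Real.norm_of_nonneg ht.le, PiLp.norm_single, norm_one, mul_one]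

/-- The reflection in the coordinates other than `j0`. -/
private theorem NuA_refl (j0 : Fin d) (y : Site d) :
    y + sAct 1 (fun j => decide (j = j0)) y = (2 * y j0) • es j0 := by
  funext j
  by_cases hj : j = j0
  · subst hj
    simp [sAct, es]
    ring
  · simp [sAct, es, hj]

private theorem NuA_le_ln (j0 : Fin d) (y : Site d) : (y j0).natAbs ≤ ln y :=
  Finset.single_le_sum (f := fun j => (y j).natAbs) (fun _ _ => Nat.zero_le _)
    (Finset.mem_univ j0)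

/-- TASK NuA. Quantitative version of `cheap` (`W_7d29a1_h3/CheapB.lean`, copy its proof with `κ = 0`, `h = t • ej j0`):
`rateU` at `0` with `Fl_half`, `ε = 1/100` (as in the proof of `g_zero_le`, `MeanC.lean`; uniform in `‖h‖ < t0`) and
`exists_y` give `y`, `adm l y`, with `t y_j0 - g l y ≥ c t^K l - C' l^0.52 ≥ c/2 t^K l`; reflect the other coordinates. -/
theorem cheapQ (j0 : Fin d) (hρ : EM ρ) {β K c : ℝ} (hc : 0 < c) (hp : PL d ρ β K c) :
    ∃ t0 C : ℝ, 0 < t0 ∧ t0 ≤ 1 ∧ 0 < C ∧ ∀ (t : ℝ) (l : ℕ), 0 < t → t ≤ t0 → 1 ≤ l →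
      C * (l : ℝ) ^ (0.52 : ℝ) ≤ t ^ K * l → ∃ m : ℕ, 0 < m ∧ m ≤ l ∧ c / 2 * t ^ (K - 1) * l ≤ m ∧
        g ρ β (2 * l) (((2 * m : ℕ) : ℤ) • es j0) ≤ 2 * t * m := by
  have hd : 0 < d := Fin.pos j0
  obtain ⟨δ, hδ, C1, hC1, hrate⟩ := rateU hd hρ (β := β) (h := (0 : Vec d)) (x := 1 / 2)
    (by norm_num) (Fl_half hd hρ β 0) (ε := 1 / 100) (by norm_num) (by norm_num)
  obtain ⟨C2, hC2, hy⟩ := exists_y (d := d) j0 hρ β 1
  obtain ⟨B, hB⟩ : ∃ B : ℝ, B = lam ρ β ((1 : ℝ) • ej j0) - lam ρ β (0 : Vec d) := ⟨_, rfl⟩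
  have hB0 : 0 ≤ B := by
    have := hp j0 1 one_pos le_rfl
    rw [Real.one_rpow] at this
    linarith
  refine ⟨min 1 (δ / 2), max ((B + 1) / c) (2 / c * (C1 + 50 * C2 + 1)), by positivity,
    min_le_left _ _, by positivity, ?_⟩
  intro t l ht htt hl hlt
  have ht1 : t ≤ 1 := htt.trans (min_le_left _ _)
  have htδ : t < δ := by
    have := htt.trans (min_le_right _ _)
    linarith
  have hl1 : (1 : ℝ) ≤ l := by exact_mod_cast hl
  have hl0 : (0 : ℝ) < l := by linarith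
  have hp1 : (1 : ℝ) ≤ (l : ℝ) ^ (0.52 : ℝ) := Real.one_le_rpow hl1 (by norm_num)
  have hl2 : 2 ≤ l := by
    by_contra hcon
    have h3 : l = 1 := by omega
    subst h3
    rw [Nat.cast_one, Real.one_rpow, mul_one, mul_one] at hlt
    have e1 : (B + 1) / c ≤ t ^ K := (le_max_left _ _).trans hlt
    rw [div_le_iff₀ hc] at e1
    have e2 := hp j0 t ht ht1
    have e3 := (lam_convex (ρ := ρ) hd hρ β).2 (Set.mem_univ (0 : Vec d))
      (Set.mem_univ ((1 : ℝ) • ej j0)) (show (0 : ℝ) ≤ 1 - t by linarith) ht.le (by ring)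
    simp only [smul_zero, zero_add, smul_smul, mul_one, smul_eq_mul] at e3
    have e4 : lam ρ β (ej j0 : Vec d) = B + lam ρ β (0 : Vec d) := by
      rw [hB, one_smul]
      ring
    rw [one_smul] at e3
    rw [e4] at e3
    nlinarith
  obtain ⟨y, hyl, hyi⟩ := hy (t • ej j0) (by rw [NuA_norm j0 ht]; exact ht1) l hl2
  rw [NuA_inner] at hyi
  have hH : ∫ η, HH ρ β (t • ej j0) η l ∂(law d ρ) =
      l * lam ρ β (0 : Vec d) - A ρ β (t • ej j0) l := by
    unfold HH A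
    rw [integral_sub (integrable_const _) (concU hd hρ β (t • ej j0) l).1]
    simp
  have h5 := hrate (t • ej j0) (by rw [sub_zero, NuA_norm j0 ht]; exact htδ) l hl
  have h6 : (l : ℝ) ^ ((1 : ℝ) / 2 + 1 / 100) ≤ (l : ℝ) ^ (0.52 : ℝ) :=
    Real.rpow_le_rpow_of_exponent_le hl1 (by norm_num)
  have h7 : Real.sqrt l * Real.log l ≤ 50 * (l : ℝ) ^ (0.52 : ℝ) := by
    have e1 : Real.log l ≤ (l : ℝ) ^ (0.02 : ℝ) / 0.02 := Real.log_le_rpow_div hl0.le (by norm_num)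
    have e2 : (l : ℝ) ^ (0.52 : ℝ) = Real.sqrt l * (l : ℝ) ^ (0.02 : ℝ) := by
      rw [Real.sqrt_eq_rpow, ← Real.rpow_add hl0]
      norm_num
    rw [e2]
    have e3 := mul_le_mul_of_nonneg_left e1 (Real.sqrt_nonneg (l : ℝ))
    have e4 : Real.sqrt l * ((l : ℝ) ^ (0.02 : ℝ) / 0.02) = 50 * (Real.sqrt l * (l : ℝ) ^ (0.02 : ℝ)) := by
      ring
    linarith
  have hpt := hp j0 t ht ht1
  have hg := g_nonneg j0 hρ β hyl
  have hP : (C1 + 50 * C2 + 1) * (l : ℝ) ^ (0.52 : ℝ) ≤ c / 2 * (t ^ K * l) := by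
    have e1 : 2 / c * (C1 + 50 * C2 + 1) * (l : ℝ) ^ (0.52 : ℝ) ≤ t ^ K * l :=
      (mul_le_mul_of_nonneg_right (le_max_right _ _) (by positivity)).trans hlt
    have e2 := mul_le_mul_of_nonneg_left e1 (show 0 ≤ c / 2 by positivity)
    have e3 : c / 2 * (2 / c * (C1 + 50 * C2 + 1) * (l : ℝ) ^ (0.52 : ℝ)) =
        (C1 + 50 * C2 + 1) * (l : ℝ) ^ (0.52 : ℝ) := by
      field_simp
    linarith
  have hkey : c / 2 * (t ^ K * l) ≤ t * y j0 - g ρ β l y := by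
    rw [hH] at hyi
    have e1 := mul_le_mul_of_nonneg_left h6 hC1
    have e2 := mul_le_mul_of_nonneg_left h7 hC2.le
    have e3 := mul_le_mul_of_nonneg_left hpt hl0.le
    nlinarith
  have htK : 0 < t ^ K := Real.rpow_pos_of_pos ht _
  have hvl : 0 < c / 2 * (t ^ K * l) := by positivity
  have hty : c / 2 * (t ^ K * l) ≤ t * (y j0 : ℝ) := by linarith
  have htK1 : t ^ K = t * t ^ (K - 1) := by
    rw [Real.rpow_sub_one ht.ne']
    field_simp
  have hyr : c / 2 * t ^ (K - 1) * l ≤ (y j0 : ℝ) := by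
    rw [htK1] at hty
    have e1 : t * (c / 2 * t ^ (K - 1) * l) ≤ t * (y j0 : ℝ) := by linarith
    exact le_of_mul_le_mul_left e1 ht
  have hypos : (0 : ℝ) < y j0 := by
    by_contra hneg
    have := mul_nonpos_of_nonneg_of_nonpos ht.le (not_lt.1 hneg)
    linarith
  have hyZ : 0 < y j0 := by exact_mod_cast hypos
  obtain ⟨m, hm⟩ : ∃ m : ℕ, y j0 = m := ⟨(y j0).toNat, (Int.toNat_of_nonneg hyZ.le).symm⟩
  have hm0 : 0 < m := by
    rw [hm] at hyZ
    exact_mod_cast hyZ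
  have hml : m ≤ l := by
    have h1 := NuA_le_ln j0 y
    rw [hm, Int.natAbs_natCast] at h1
    exact h1.trans hyl.1
  have hyl' : adm l (sAct 1 (fun j => decide (j = j0)) y) := by
    unfold adm
    rw [sAct_ln]
    exact hyl
  have hmR : (y j0 : ℝ) = m := by rw [hm]; simp
  refine ⟨m, hm0, hml, by rw [← hmR]; exact hyr, ?_⟩
  have h1 := g_add j0 hρ β hyl hyl'
  rw [g_act, NuA_refl, ← two_mul l, hm] at h1
  have h2 : ((2 * m : ℕ) : ℤ) = 2 * (m : ℤ) := by push_cast; ring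
  rw [h2]
  rw [hmR] at hkey
  linarith

end Pool.Agent.W_7d29a1_q
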