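import Pool.Agent.W_7d29a1_q.Defs
import Pool.Agent.W_7d29a1_q.NuA

/-!
From the axes to all tilts: `lam_pow` from `hyp_false`.
-/

namespace Pool.Agent.W_7d29a1_q

open MeasureTheory ProbabilityTheory Filter Topology Pool.Agent.W_MP_7d29a1_pr
  Pool.Agent.W_7d29a1_h46 Pool.Agent.W_7d29a1_h46u Pool.Agent.W_7d29a1_h3

variable {d : ℕ} {ρ : Measure ℝ} [IsProbabilityMeasure ρ]

/-- Averaging over the sign changes of the coordinates outside a set. -/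
private theorem NuM_avg (j0 : Fin d) (hρ : EM ρ) (β : ℝ) (h : Vec d) (e : Fin d → Bool) :
    lam ρ β ((1 / 2 : ℝ) • h + (1 / 2 : ℝ) • vAct (Equiv.refl _) e h) ≤ lam ρ β h := by
  have h1 := (lam_convex (ρ := ρ) (Fin.pos j0) hρ β).2 (Set.mem_univ h)
    (Set.mem_univ (vAct (Equiv.refl _) e h)) (by norm_num : (0 : ℝ) ≤ 1 / 2)
    (by norm_num : (0 : ℝ) ≤ 1 / 2) (by norm_num)
  simp only [lam_act, smul_eq_mul] at h1
  linarith

private theorem NuM_one (j0 : Fin d) (hρ : EM ρ) (β : ℝ) (h : Vec d) (i : Fin d) :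
    lam ρ β ((h i) • ej i) ≤ lam ρ β h := by
  have h1 := NuM_avg j0 hρ β h (fun j => decide (j = i))
  have h2 : (1 / 2 : ℝ) • h + (1 / 2 : ℝ) • vAct (Equiv.refl _) (fun j => decide (j = i)) h =
      (h i) • ej i := by
    ext k
    by_cases hk : k = i
    · subst hk
      simp [vAct, ej]
      ring
    · simp [vAct, ej, hk]
  rwa [h2] at h1

private theorem NuM_axis (β t : ℝ) (j j' : Fin d) :
    lam ρ β (t • ej j) = lam ρ β (t • ej j') := by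
  obtain ⟨τ, e, h⟩ := tl_act t j j' true true
  have h1 := lam_act (ρ := ρ) (β := β) τ e (tl t j true)
  rw [h] at h1
  simp only [tl, if_true] at h1
  exact h1.symm

private theorem NuM_neg (β t : ℝ) (j : Fin d) :
    lam ρ β ((-t) • ej j) = lam ρ β (t • ej j) := by
  obtain ⟨τ, e, h⟩ := tl_act t j j true false
  have h1 := lam_act (ρ := ρ) (β := β) τ e (tl t j true)
  rw [h] at h1
  simp only [tl, if_true, Bool.false_eq_true, if_false] at h1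
  exact h1

private theorem NuM_mono (hρ : EM ρ) (β : ℝ) {s t : ℝ} (hs : 0 ≤ s) (hst : s ≤ t) (ht : 0 < t)
    (j : Fin d) : lam ρ β (s • ej j) ≤ lam ρ β (t • ej j) := by
  have h1 := (lam_convex (ρ := ρ) (Fin.pos j) hρ β).2 (Set.mem_univ (0 : Vec d))
    (Set.mem_univ (t • ej j)) (show (0 : ℝ) ≤ 1 - s / t by
      rw [sub_nonneg, div_le_one ht]
      exact hst) (show (0 : ℝ) ≤ s / t by positivity) (by ring)
  simp only [smul_zero, zero_add, smul_smul, smul_eq_mul] at h1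
  rw [div_mul_cancel₀ s ht.ne'] at h1
  have h2 := lam_ge j hρ β (t • ej j)
  have h3 : s / t ≤ 1 := (div_le_one ht).2 hst
  have h4 : 0 ≤ s / t := by positivity
  nlinarith

/-- From `¬ Hy` to the power bound on the axes. -/
private theorem NuM_PL (hρ : EM ρ) (β : ℝ) {c : ℝ} (hc : 0 < c)
    (hc1 : c ≤ 1 / (400 * ((d : ℝ) + 2))) (hN : ∀ᶠ N : ℕ in atTop, ¬ Hy d ρ β c N) :
    ∃ c' : ℝ, 0 < c' ∧ PL d ρ β (1 / c) c' := by
  obtain ⟨N0, hN0⟩ := Filter.eventually_atTop.1 hN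
  obtain ⟨N1, hN1⟩ : ∃ N1 : ℕ, N1 = max N0 1 := ⟨_, rfl⟩
  have hN11 : (1 : ℝ) ≤ N1 := by
    rw [hN1]
    exact_mod_cast le_max_right N0 1
  refine ⟨1 / (2 * N1), by positivity, fun j t ht ht1 => ?_⟩
  obtain ⟨x, hx⟩ : ∃ x : ℝ, x = t ^ (-(1 / c)) := ⟨_, rfl⟩
  have hx1 : 1 ≤ x := by
    rw [hx, Real.rpow_neg ht.le]
    refine (one_le_inv₀ (Real.rpow_pos_of_pos ht _)).2 ?_
    exact Real.rpow_le_one ht.le ht1 (by positivity)
  obtain ⟨N, hNdef⟩ : ∃ N : ℕ, N = max N1 ⌈x⌉₊ := ⟨_, rfl⟩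
  have hxN : x ≤ N := by
    rw [hNdef]
    exact (Nat.le_ceil x).trans (by exact_mod_cast le_max_right _ _)
  have hNpos : (0 : ℝ) < N := by linarith
  have hNle : (N : ℝ) ≤ 2 * N1 * x := by
    have e1 : (⌈x⌉₊ : ℝ) < x + 1 := Nat.ceil_lt_add_one (by linarith)
    rw [hNdef, Nat.cast_max]
    refine max_le ?_ ?_ <;> nlinarith
  have hNt : (N : ℝ) ^ (-c) ≤ t := by
    have e1 : x ^ (-c) = t := by
      rw [hx, ← Real.rpow_mul ht.le]
      have : -(1 / c) * -c = 1 := by field_simp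
      rw [this, Real.rpow_one]
    rw [← e1]
    exact Real.rpow_le_rpow_of_nonpos (by linarith) hxN (by linarith)
  have h0 := hN0 N (by rw [hNdef, hN1]; exact (le_max_left N0 1).trans (le_max_left _ _))
  have h1 : ∃ j : Fin d, lam ρ β (0 : Vec d) + 1 / N < lam ρ β (t • ej j) := by
    by_contra hcon
    push Not at hcon
    exact h0 ⟨hc, hc1, t, hNt, ht1, hcon⟩
  obtain ⟨j', hj'⟩ := h1
  rw [NuM_axis β t j' j] at hj'
  refine le_trans ?_ hj'.le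
  have h2 : 1 / (2 * (N1 : ℝ)) * t ^ (1 / c) ≤ 1 / N := by
    have e1 : t ^ (1 / c) = 1 / x := by
      rw [hx, Real.rpow_neg ht.le, one_div (t ^ (1 / c))⁻¹, inv_inv]
    rw [e1, div_mul_div_comm, one_mul]
    exact one_div_le_one_div_of_le hNpos hNle
  linarith

/-- The largest coordinate. -/
private theorem NuM_coord (j0 : Fin d) (h : Vec d) : ∃ i : Fin d, ‖h‖ ≤ d * |h i| := by
  obtain ⟨i, -, hi⟩ := Finset.exists_max_image (Finset.univ : Finset (Fin d)) (fun i => |h i|)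
    ⟨j0, Finset.mem_univ _⟩
  refine ⟨i, ?_⟩
  have hd : (1 : ℝ) ≤ d := by exact_mod_cast Fin.pos j0
  rw [EuclideanSpace.norm_eq]
  refine Real.sqrt_le_iff.2 ⟨by positivity, ?_⟩
  have h1 : ∑ k : Fin d, ‖h k‖ ^ 2 ≤ ∑ _k : Fin d, |h i| ^ 2 := by
    refine Finset.sum_le_sum fun k _ => ?_
    rw [Real.norm_eq_abs]
    exact pow_le_pow_left₀ (abs_nonneg _) (hi k (Finset.mem_univ _)) 2
  refine h1.trans ?_
  rw [Finset.sum_const, Finset.card_univ, Fintype.card_fin, nsmul_eq_mul, mul_pow]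
  refine mul_le_mul_of_nonneg_right ?_ (sq_nonneg _)
  nlinarith

/-- From the axes to all tilts. -/
theorem pow_of_PL (j0 : Fin d) (hρ : EM ρ) (β : ℝ) {K c : ℝ} (hK : 0 < K) (hc : 0 < c)
    (hp : PL d ρ β K c) : ∃ c' : ℝ, 0 < c' ∧ ∀ h : Vec d, ‖h‖ ≤ 1 →
      lam ρ β (0 : Vec d) + c' * ‖h‖ ^ K ≤ lam ρ β h := by
  have hd : (1 : ℝ) ≤ d := by exact_mod_cast Fin.pos j0
  refine ⟨c / (d : ℝ) ^ K, by positivity, fun h hh => ?_⟩
  by_cases h0 : h = 0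
  · subst h0
    rw [norm_zero, Real.zero_rpow hK.ne', mul_zero, add_zero]
  obtain ⟨i, hi⟩ := NuM_coord j0 h
  have hn : 0 < ‖h‖ := norm_pos_iff.2 h0
  have hi0 : 0 < |h i| := by
    by_contra hcon
    have : |h i| = 0 := le_antisymm (not_lt.1 hcon) (abs_nonneg _)
    rw [this, mul_zero] at hi
    linarith
  have hi1 : |h i| ≤ 1 := by
    refine le_trans ?_ hh
    have := PiLp.norm_apply_le h i
    rwa [Real.norm_eq_abs] at this
  have h1 := hp i |h i| hi0 hi1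
  have h2 : lam ρ β (|h i| • ej i) ≤ lam ρ β h := by
    have h3 := NuM_one j0 hρ β h i
    rcases abs_cases (h i) with ⟨h4, -⟩ | ⟨h4, -⟩
    · rw [h4]
      exact h3
    · rw [h4, NuM_neg]
      exact h3
  have h3 : ‖h‖ ^ K ≤ (d : ℝ) ^ K * |h i| ^ K := by
    rw [← Real.mul_rpow (by linarith) hi0.le]
    exact Real.rpow_le_rpow hn.le hi hK.le
  have h4 : c / (d : ℝ) ^ K * ‖h‖ ^ K ≤ c * |h i| ^ K := by
    have hdK : 0 < (d : ℝ) ^ K := Real.rpow_pos_of_pos (by linarith) _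
    rw [div_mul_eq_mul_div, div_le_iff₀ hdK]
    calc c * ‖h‖ ^ K ≤ c * ((d : ℝ) ^ K * |h i| ^ K) := mul_le_mul_of_nonneg_left h3 hc.le
      _ = c * |h i| ^ K * (d : ℝ) ^ K := by ring
  linarith

/-- The axes form of (Q1). -/
theorem PL_of (_j0 : Fin d)
    (hyp : ∃ c : ℝ, 0 < c ∧ c ≤ 1 / (400 * ((d : ℝ) + 2)) ∧
      ∀ (ρ : Measure ℝ) [IsProbabilityMeasure ρ] (β : ℝ), EM ρ → (∀ c : ℝ, ρ {c} ≠ 1) → 0 < β →
        ∀ᶠ N : ℕ in atTop, ¬ Hy d ρ β c N) :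
    ∃ K : ℝ, 3 ≤ K ∧
      ∀ (ρ : Measure ℝ) [IsProbabilityMeasure ρ] (β : ℝ), EM ρ → (∀ c : ℝ, ρ {c} ≠ 1) → 0 < β →
        ∃ c : ℝ, 0 < c ∧ PL d ρ β K c := by
  obtain ⟨c, hc, hc1, H⟩ := hyp
  refine ⟨1 / c, ?_, fun ρ _ β hρ hnc hβ => NuM_PL hρ β hc hc1 (H ρ β hρ hnc hβ)⟩
  rw [le_div_iff₀ hc]
  have hd : (0 : ℝ) ≤ d := Nat.cast_nonneg d
  have h1 : 1 / (400 * ((d : ℝ) + 2)) ≤ 1 / 3 :=
    one_div_le_one_div_of_le (by norm_num) (by linarith)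
  linarith

/-- THEOREM (Q1) from `hyp_false`. -/
theorem lam_pow_of (j0 : Fin d)
    (hyp : ∃ c : ℝ, 0 < c ∧ c ≤ 1 / (400 * ((d : ℝ) + 2)) ∧
      ∀ (ρ : Measure ℝ) [IsProbabilityMeasure ρ] (β : ℝ), EM ρ → (∀ c : ℝ, ρ {c} ≠ 1) → 0 < β →
        ∀ᶠ N : ℕ in atTop, ¬ Hy d ρ β c N) :
    ∃ K : ℝ, 1 ≤ K ∧
      ∀ (ρ : Measure ℝ) [IsProbabilityMeasure ρ] (β : ℝ), EM ρ → (∀ c : ℝ, ρ {c} ≠ 1) → 0 < β →
        ∃ c : ℝ, 0 < c ∧ ∀ h : Vec d, ‖h‖ ≤ 1 →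
          lam ρ β (0 : Vec d) + c * ‖h‖ ^ K ≤ lam ρ β h := by
  obtain ⟨K, hK, H⟩ := PL_of j0 hyp
  refine ⟨K, by linarith, fun ρ _ β hρ hnc hβ => ?_⟩
  obtain ⟨c, hc, hp⟩ := H ρ β hρ hnc hβ
  exact pow_of_PL j0 hρ β (by linarith) hc hp

end Pool.Agent.W_7d29a1_q
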