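import Pool.Agent.W_7d29a1_q.BasA

/-!
Row 601, basic facts: moments of `T`. TASK BasB.
-/

namespace Pool.Agent.W_7d29a1_q

open MeasureTheory ProbabilityTheory Filter Topology Pool.Agent.W_MP_7d29a1_pr
  Pool.Agent.W_7d29a1_h46 Pool.Agent.W_7d29a1_h46u Pool.Agent.W_7d29a1_h3

variable {d : ℕ} {ρ : Measure ℝ} [IsProbabilityMeasure ρ] {β : ℝ}

private theorem BasB_four (x y : ℝ) : (x + y) ^ 4 ≤ 8 * (x ^ 4 + y ^ 4) := by
  nlinarith [sq_nonneg (x - y), sq_nonneg (x ^ 2 - y ^ 2), sq_nonneg (x + y), sq_nonneg (x * y),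
    mul_nonneg (sq_nonneg (x - y)) (sq_nonneg (x + y)), mul_nonneg (sq_nonneg (x - y)) (sq_nonneg (x - y)),
    mul_nonneg (sq_nonneg (x - y)) (sq_nonneg x), mul_nonneg (sq_nonneg (x - y)) (sq_nonneg y)]

/-- `x ^ 4 ≤ 24 (exp x + exp (- x))`. -/
private theorem BasB_exp (x : ℝ) : x ^ 4 ≤ 24 * (Real.exp x + Real.exp (-x)) := by
  have h1 := Real.pow_div_factorial_le_exp |x| (abs_nonneg x) 4
  have h2 : ((Nat.factorial 4 : ℕ) : ℝ) = 24 := by norm_num [Nat.factorial]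
  rw [h2] at h1
  have h3 : |x| ^ 4 = x ^ 4 := by
    rw [← abs_pow, abs_of_nonneg (by positivity)]
  rw [h3, div_le_iff₀ (by norm_num)] at h1
  have h4 : Real.exp |x| ≤ Real.exp x + Real.exp (-x) := by
    rcases abs_choice x with h | h
    · rw [h]
      linarith [Real.exp_pos (-x)]
    · rw [h]
      linarith [Real.exp_pos x]
  linarith

omit [IsProbabilityMeasure ρ] in
private theorem BasB_zero (η : Env d) : Vp ρ β η (2 * 0) (0 : Site d) = 1 := by
  have h1 : (toP (2 * 0) (0 : Site d)) = Set.univ := by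
    refine Set.eq_univ_of_forall fun s => ?_
    have h2 := pos_mem_box s (2 * 0)
    show pos s (2 * 0) = 0
    have h3 := (adm_pos s (le_refl (2 * 0))).1
    funext j
    unfold ln at h3
    have h4 : (pos s (2 * 0) j).natAbs ≤ ∑ i, (pos s (2 * 0) i).natAbs :=
      Finset.single_le_sum (f := fun i => (pos s (2 * 0) i).natAbs) (fun _ _ => Nat.zero_le _)
        (Finset.mem_univ j)
    have h5 : (pos s (2 * 0) j).natAbs = 0 := by omega
    rw [Int.natAbs_eq_zero] at h5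
    rw [h5]
    rfl
  have h6 : ZT β 0 η (Set.univ : Set (Fin (2 * 0) → Step d)) = 1 := Z_zero β 0 η
  unfold Vp V
  rw [h1, h6]
  simp

/-- The fourth moment of the centred variable. -/
private theorem BasB_cent (j0 : Fin d) (hρ : EM ρ) (β : ℝ) {n : ℕ} (hn : 1 ≤ n) {z : Site d}
    (hz : adm n z) : Integrable (fun η : Env d => (-Real.log (Vp ρ β η n z) - g ρ β n z) ^ 4) (law d ρ) ∧
      ∫ η : Env d, (-Real.log (Vp ρ β η n z) - g ρ β n z) ^ 4 ∂(law d ρ) ≤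
        48 * Real.exp (Kc β ρ ^ 2) * (n : ℝ) ^ 2 := by
  have hn0 : (0 : ℝ) < n := by exact_mod_cast hn
  have hs : 0 < Real.sqrt n := Real.sqrt_pos.2 hn0
  have hs1 : 1 ≤ Real.sqrt n := by
    rw [Real.one_le_sqrt]
    exact_mod_cast hn
  obtain ⟨t, ht⟩ : ∃ t : ℝ, t = 1 / Real.sqrt n := ⟨_, rfl⟩
  have ht0 : 0 < t := by
    rw [ht]
    positivity
  have ht1 : t ≤ 1 := by
    rw [ht, div_le_one hs]
    exact hs1
  have htt : t ^ 2 * n = 1 := by
    rw [ht, div_pow, Real.sq_sqrt hn0.le]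
    field_simp
  have hc := (concE (d := d) hρ β ((adm_iff j0).1 hz)).2
  obtain ⟨i1, b1⟩ := hc t (by rw [abs_of_pos ht0]; exact ht1)
  obtain ⟨i2, b2⟩ := hc (-t) (by rw [abs_neg, abs_of_pos ht0]; exact ht1)
  have e1 : Kc β ρ ^ 2 * t ^ 2 * n = Kc β ρ ^ 2 := by rw [mul_assoc, htt, mul_one]
  have e2 : Kc β ρ ^ 2 * (-t) ^ 2 * n = Kc β ρ ^ 2 := by rw [neg_sq, mul_assoc, htt, mul_one]
  rw [e1] at b1
  rw [e2] at b2
  obtain ⟨x, hx⟩ : ∃ x : Env d → ℝ, x = fun η => -Real.log (V ρ β η (toP n z)) - gE ρ β (toP n z) := ⟨_, rfl⟩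
  have i1' : Integrable (fun η => Real.exp (t * x η)) (law d ρ) := by rw [hx]; exact i1
  have i2' : Integrable (fun η => Real.exp (-t * x η)) (law d ρ) := by rw [hx]; exact i2
  have b1' : ∫ η, Real.exp (t * x η) ∂(law d ρ) ≤ Real.exp (Kc β ρ ^ 2) := by rw [hx]; exact b1
  have b2' : ∫ η, Real.exp (-t * x η) ∂(law d ρ) ≤ Real.exp (Kc β ρ ^ 2) := by rw [hx]; exact b2
  have hxm : Measurable x := by
    rw [hx]
    exact (((measurable_V (ρ := ρ) (β := β) (toP n z)).log).neg).sub_const _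
  have hpt : ∀ η : Env d, x η ^ 4 ≤ 24 * (n : ℝ) ^ 2 * (Real.exp (t * x η) + Real.exp (-t * x η)) := by
    intro η
    have h1 := BasB_exp (t * x η)
    have h2 : (t * x η) ^ 4 * (n : ℝ) ^ 2 = x η ^ 4 := by
      have : (t * x η) ^ 4 * (n : ℝ) ^ 2 = (t ^ 2 * n) ^ 2 * x η ^ 4 := by ring
      rw [this, htt]
      ring
    have h3 : -(t * x η) = -t * x η := by ring
    rw [h3] at h1
    rw [← h2]
    calc (t * x η) ^ 4 * (n : ℝ) ^ 2 ≤ 24 * (Real.exp (t * x η) + Real.exp (-t * x η)) * (n : ℝ) ^ 2 :=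
          mul_le_mul_of_nonneg_right h1 (by positivity)
      _ = _ := by ring
  have hI : Integrable (fun η => 24 * (n : ℝ) ^ 2 * (Real.exp (t * x η) + Real.exp (-t * x η)))
      (law d ρ) := (i1'.add i2').const_mul _
  have h4 : Integrable (fun η => x η ^ 4) (law d ρ) := by
    refine Integrable.mono' hI (hxm.pow_const 4).aestronglyMeasurable
      (Filter.Eventually.of_forall fun η => ?_)
    rw [Real.norm_eq_abs, abs_of_nonneg (by positivity)]
    exact hpt η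
  have h5 : ∫ η, x η ^ 4 ∂(law d ρ) ≤ 48 * Real.exp (Kc β ρ ^ 2) * (n : ℝ) ^ 2 := by
    refine (integral_mono h4 hI hpt).trans ?_
    rw [integral_const_mul, integral_add i1' i2']
    have h6 : 0 ≤ 24 * (n : ℝ) ^ 2 := by positivity
    have h7 := mul_le_mul_of_nonneg_left (add_le_add b1' b2') h6
    refine h7.trans (le_of_eq ?_)
    ring
  rw [hx] at h4 h5
  exact ⟨h4, h5⟩

/-- Fourth moments: `E T(2t,z)_+^4 ≤ C t^4`. -/
theorem T_four (j0 : Fin d) (hρ : EM ρ) (β : ℝ) : ∃ C : ℝ, 0 < C ∧ ∀ (t : ℕ) (z : Site d),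
    adm (2 * t) z → Integrable (fun η : Env d => Real.log (Vp ρ β η (2 * t) z) ^ 4) (law d ρ) ∧
      ∫ η : Env d, Real.log (Vp ρ β η (2 * t) z) ^ 4 ∂(law d ρ) ≤ C * (t : ℝ) ^ 4 := by
  obtain ⟨C1, hC1, hg⟩ := g_le (d := d) j0 hρ β
  obtain ⟨K, hK⟩ : ∃ K : ℝ, K = Real.exp (Kc β ρ ^ 2) := ⟨_, rfl⟩
  have hK0 : 0 < K := by
    rw [hK]
    exact Real.exp_pos _
  refine ⟨8 * (192 * K + 16 * C1 ^ 4), by positivity, fun t z hz => ?_⟩
  rcases Nat.eq_zero_or_pos t with rfl | ht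
  · have hz0 : z = 0 := by
      have h3 := hz.1
      funext j
      unfold ln at h3
      have h4 : (z j).natAbs ≤ ∑ i, (z i).natAbs :=
        Finset.single_le_sum (f := fun i => (z i).natAbs) (fun _ _ => Nat.zero_le _)
          (Finset.mem_univ j)
      have h5 : (z j).natAbs = 0 := by omega
      rw [Int.natAbs_eq_zero] at h5
      rw [h5]
      rfl
    subst hz0
    have h1 : ∀ η : Env d, Real.log (Vp ρ β η (2 * 0) (0 : Site d)) ^ 4 = 0 := by
      intro η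
      rw [BasB_zero, Real.log_one]
      norm_num
    constructor
    · simp only [h1]
      exact integrable_const _
    · simp only [h1]
      simp
  have ht1 : (1 : ℝ) ≤ t := by exact_mod_cast ht
  obtain ⟨h4, h5⟩ := BasB_cent j0 hρ β (by omega : 1 ≤ 2 * t) hz
  have hg1 := hg (2 * t) z hz
  have hg0 := g_nonneg j0 hρ β hz
  rw [← hK] at h5
  have hpt : ∀ η : Env d, Real.log (Vp ρ β η (2 * t) z) ^ 4 ≤
      8 * ((-Real.log (Vp ρ β η (2 * t) z) - g ρ β (2 * t) z) ^ 4 + g ρ β (2 * t) z ^ 4) := by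
    intro η
    have h1 := BasB_four (-Real.log (Vp ρ β η (2 * t) z) - g ρ β (2 * t) z) (g ρ β (2 * t) z)
    have h2 : (-Real.log (Vp ρ β η (2 * t) z) - g ρ β (2 * t) z + g ρ β (2 * t) z) ^ 4 =
        Real.log (Vp ρ β η (2 * t) z) ^ 4 := by ring
    rw [h2] at h1
    exact h1
  have hI : Integrable (fun η : Env d =>
      8 * ((-Real.log (Vp ρ β η (2 * t) z) - g ρ β (2 * t) z) ^ 4 + g ρ β (2 * t) z ^ 4)) (law d ρ) :=
    (h4.add (integrable_const _)).const_mul 8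
  have hm : Measurable fun η : Env d => Real.log (Vp ρ β η (2 * t) z) ^ 4 :=
    ((measurable_V (ρ := ρ) (β := β) (toP (2 * t) z)).log).pow_const 4
  have h6 : Integrable (fun η : Env d => Real.log (Vp ρ β η (2 * t) z) ^ 4) (law d ρ) := by
    refine Integrable.mono' hI hm.aestronglyMeasurable (Filter.Eventually.of_forall fun η => ?_)
    rw [Real.norm_eq_abs, abs_of_nonneg (by positivity)]
    exact hpt η
  refine ⟨h6, (integral_mono h6 hI hpt).trans ?_⟩
  rw [integral_const_mul, integral_add h4 (integrable_const _), integral_const, probReal_univ,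
    one_smul]
  have h7 : g ρ β (2 * t) z ^ 4 ≤ (C1 * (2 * t : ℕ)) ^ 4 := pow_le_pow_left₀ hg0 hg1 4
  have h8 : (C1 * ((2 * t : ℕ) : ℝ)) ^ 4 = 16 * C1 ^ 4 * (t : ℝ) ^ 4 := by
    push_cast
    ring
  have h9 : 48 * K * ((2 * t : ℕ) : ℝ) ^ 2 ≤ 192 * K * (t : ℝ) ^ 4 := by
    have h10 : (t : ℝ) ^ 2 ≤ (t : ℝ) ^ 4 := pow_le_pow_right₀ ht1 (by norm_num)
    have h11 : 48 * K * ((2 * t : ℕ) : ℝ) ^ 2 = 192 * K * (t : ℝ) ^ 2 := by
      push_cast
      ring
    rw [h11]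
    exact mul_le_mul_of_nonneg_left h10 (by positivity)
  rw [h8] at h7
  linarith

/-- `T(2t,0) = o(t)` in probability. -/
theorem T_small (j0 : Fin d) (hρ : EM ρ) {ε : ℝ} (hε : 0 < ε) :
    Tendsto (fun t : ℕ => (law d ρ).real {η : Env d | ¬ Tle ρ β η t 0 (ε * t)}) atTop (𝓝 0) := by
  obtain ⟨C, hC, hg⟩ := g_zero_le (d := d) j0 hρ β
  obtain ⟨K, hK⟩ : ∃ K : ℝ, K = Kc β ρ ^ 2 := ⟨_, rfl⟩
  have hK0 : 0 ≤ K := by
    rw [hK]
    exact sq_nonneg _
  -- the exponent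
  obtain ⟨s, hs⟩ : ∃ s : ℝ, s = min 1 (ε / (8 * (K + 1))) := ⟨_, rfl⟩
  have hs0 : 0 < s := by
    rw [hs]
    exact lt_min one_pos (by positivity)
  have hs1 : s ≤ 1 := by
    rw [hs]
    exact min_le_left _ _
  have hs2 : 2 * K * s ≤ ε / 4 := by
    have h1 : s ≤ ε / (8 * (K + 1)) := by
      rw [hs]
      exact min_le_right _ _
    have h2 : 2 * K * s ≤ 2 * K * (ε / (8 * (K + 1))) := mul_le_mul_of_nonneg_left h1 (by positivity)
    refine h2.trans ?_
    rw [mul_div_assoc', div_le_div_iff₀ (by positivity) (by norm_num)]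
    nlinarith
  -- the mean is small
  have hmean : ∀ᶠ t : ℕ in atTop, C * (t : ℝ) ^ (0.52 : ℝ) ≤ ε / 4 * t := by
    have h1 : Tendsto (fun t : ℝ => t ^ (0.48 : ℝ)) atTop atTop := tendsto_rpow_atTop (by norm_num)
    have h2 := (h1.comp tendsto_natCast_atTop_atTop).eventually_ge_atTop (4 * C / ε)
    filter_upwards [h2, eventually_ge_atTop 1] with t ht ht1
    have ht0 : (0 : ℝ) < t := by exact_mod_cast ht1
    simp only [Function.comp_apply] at ht
    have h3 : (t : ℝ) = (t : ℝ) ^ (0.48 : ℝ) * (t : ℝ) ^ (0.52 : ℝ) := by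
      rw [← Real.rpow_add ht0]
      norm_num
    have h4 : 4 * C ≤ ε * (t : ℝ) ^ (0.48 : ℝ) := by
      rw [div_le_iff₀ hε] at ht
      linarith
    have h5 : 0 ≤ (t : ℝ) ^ (0.52 : ℝ) := by positivity
    calc C * (t : ℝ) ^ (0.52 : ℝ) ≤ (ε / 4 * (t : ℝ) ^ (0.48 : ℝ)) * (t : ℝ) ^ (0.52 : ℝ) :=
          mul_le_mul_of_nonneg_right (by linarith) h5
      _ = ε / 4 * ((t : ℝ) ^ (0.48 : ℝ) * (t : ℝ) ^ (0.52 : ℝ)) := by ring
      _ = ε / 4 * t := by rw [← h3]
  have hlim : Tendsto (fun t : ℕ => Real.exp (-(s * ε / 2 * t))) atTop (𝓝 0) := by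
    have h1 : Tendsto (fun t : ℕ => s * ε / 2 * (t : ℝ)) atTop atTop :=
      Tendsto.const_mul_atTop (by positivity) tendsto_natCast_atTop_atTop
    exact Real.tendsto_exp_neg_atTop_nhds_zero.comp h1
  refine squeeze_zero' (Filter.Eventually.of_forall fun t => measureReal_nonneg) ?_ hlim
  filter_upwards [hmean, eventually_ge_atTop 1] with t ht ht1
  have h1 := concE_up (d := d) hρ β ((adm_iff j0).1 (adm_zero (d := d) t))
    (z := ε * t - g ρ β (2 * t) (0 : Site d)) hs0.le hs1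
  have h2 : gE ρ β (toP (2 * t) (0 : Site d)) + (ε * t - g ρ β (2 * t) (0 : Site d)) = ε * t := by
    show g ρ β (2 * t) (0 : Site d) + (ε * t - g ρ β (2 * t) (0 : Site d)) = ε * t
    ring
  rw [h2] at h1
  refine h1.trans ?_
  rw [Real.exp_le_exp, ← hK]
  have h3 := (hg t ht1).trans ht
  have ht0 : (0 : ℝ) ≤ t := Nat.cast_nonneg t
  have h4 : s * (3 / 4 * ε * t) ≤ s * (ε * t - g ρ β (2 * t) (0 : Site d)) :=
    mul_le_mul_of_nonneg_left (by linarith) hs0.le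
  have h5 : K * s ^ 2 * ((2 * t : ℕ) : ℝ) ≤ s * (ε / 4 * t) := by
    have h6 : K * s ^ 2 * ((2 * t : ℕ) : ℝ) = s * (2 * K * s * t) := by
      push_cast
      ring
    rw [h6]
    exact mul_le_mul_of_nonneg_left (mul_le_mul_of_nonneg_right hs2 ht0) hs0.le
  linarith

end Pool.Agent.W_7d29a1_q
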