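import Pool.Agent.W_7d29a1_q.BasA

/-!
Row 601, basic facts: the function `S` (1.1). TASK BasC.
-/

namespace Pool.Agent.W_7d29a1_q

open MeasureTheory ProbabilityTheory Filter Topology Pool.Agent.W_MP_7d29a1_pr
  Pool.Agent.W_7d29a1_h46 Pool.Agent.W_7d29a1_h46u Pool.Agent.W_7d29a1_h3

variable {d : ℕ} {ρ : Measure ℝ} [IsProbabilityMeasure ρ] {β : ℝ}

/-! ### The function `S` -/

private theorem BasC_AA (t : ℕ) : 0 ≤ AA d ρ β t := Real.sqrt_nonneg _

private theorem BasC_SS {n : ℕ} (hn : 1 ≤ n) : SS d ρ β n =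
    1 + (Finset.range (n + 1)).sup' ⟨0, by simp⟩ fun t => AA d ρ β t := by
  unfold SS
  rw [if_neg (by omega)]

private theorem BasC_zero (η : Env d) : Vp ρ β η (2 * 0) 0 = 1 := by
  classical
  have h1 : ZT β (0 : Vec d) η (toP 0 (0 : Site d)) = 1 := by
    unfold ZT
    have h2 : ∀ s : Fin 0 → Step d, (if s ∈ toP 0 (0 : Site d) then wgt β 0 η s else 0) = 1 := by
      intro s
      have h3 : s ∈ toP 0 (0 : Site d) := by
        show pos s 0 = 0
        simp [pos]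
      rw [if_pos h3]
      unfold wgt energy
      simp
    simp only [h2]
    simp
  show V ρ β η (toP 0 (0 : Site d)) = 1
  unfold V
  rw [h1]
  simp

private theorem BasC_sq (x : ℝ) : x ^ 2 ≤ 2 * (Real.exp x + Real.exp (-x)) := by
  have h1 := Real.quadratic_le_exp_of_nonneg (abs_nonneg x)
  have h2 : Real.exp |x| ≤ Real.exp x + Real.exp (-x) := by
    rcases le_total 0 x with h | h
    · rw [abs_of_nonneg h]
      linarith [Real.exp_pos (-x)]
    · rw [abs_of_nonpos h]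
      linarith [Real.exp_pos x]
  have h3 : |x| ^ 2 = x ^ 2 := sq_abs x
  have h4 := abs_nonneg x
  linarith

private theorem BasC_meas (t : ℕ) :
    Measurable fun η : Env d => -Real.log (Vp ρ β η (2 * t) 0) :=
  (Real.measurable_log.comp (measurable_V (toP (2 * t) (0 : Site d)))).neg

private theorem BasC_int1 (j0 : Fin d) (hρ : EM ρ) (t : ℕ) :
    Integrable (fun η : Env d => -Real.log (Vp ρ β η (2 * t) 0)) (law d ρ) :=
  (concE hρ β ((adm_iff j0).1 (adm_zero t))).1.neg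

private theorem BasC_int2 (j0 : Fin d) (hρ : EM ρ) (t : ℕ) :
    Integrable (fun η : Env d => (-Real.log (Vp ρ β η (2 * t) 0)) ^ 2) (law d ρ) := by
  obtain ⟨-, h2⟩ := concE hρ β ((adm_iff j0).1 (adm_zero t))
  obtain ⟨i1, -⟩ := h2 1 (by norm_num)
  obtain ⟨i2, -⟩ := h2 (-1) (by norm_num)
  obtain ⟨g0, hg⟩ : ∃ g0 : ℝ, g0 = gE ρ β (toP (2 * t) (0 : Site d)) := ⟨_, rfl⟩
  rw [← hg] at i1 i2
  have hdom : Integrable (fun η : Env d =>
      4 * (Real.exp (1 * (-Real.log (V ρ β η (toP (2 * t) (0 : Site d))) - g0)) +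
        Real.exp (-1 * (-Real.log (V ρ β η (toP (2 * t) (0 : Site d))) - g0))) + 2 * g0 ^ 2)
      (law d ρ) := ((i1.add i2).const_mul 4).add (integrable_const _)
  refine hdom.mono' ((BasC_meas t).pow_const 2).aestronglyMeasurable
    (Filter.Eventually.of_forall fun η => ?_)
  rw [Real.norm_eq_abs, abs_of_nonneg (sq_nonneg _)]
  show (-Real.log (V ρ β η (toP (2 * t) (0 : Site d)))) ^ 2 ≤ _
  obtain ⟨x, hx⟩ : ∃ x : ℝ, x = -Real.log (V ρ β η (toP (2 * t) (0 : Site d))) - g0 := ⟨_, rfl⟩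
  have h3 : -Real.log (V ρ β η (toP (2 * t) (0 : Site d))) = x + g0 := by rw [hx]; ring
  rw [← hx, h3, one_mul, neg_one_mul]
  have h4 := BasC_sq x
  have h5 : (x + g0) ^ 2 ≤ 2 * x ^ 2 + 2 * g0 ^ 2 := by
    have := sq_nonneg (x - g0)
    linarith [this, (by ring : (x - g0) ^ 2 + (x + g0) ^ 2 = 2 * x ^ 2 + 2 * g0 ^ 2)]
  linarith

private theorem BasC_max (x : ℝ) : max x 0 ^ 2 ≤ x ^ 2 := by
  rcases le_total x 0 with h | h
  · rw [max_eq_right h]
    simpa using sq_nonneg x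
  · rw [max_eq_left h]

private theorem BasC_int3 (j0 : Fin d) (hρ : EM ρ) (t : ℕ) :
    Integrable (fun η : Env d => max (-Real.log (Vp ρ β η (2 * t) 0)) 0 ^ 2) (law d ρ) := by
  refine (BasC_int2 (β := β) j0 hρ t).mono'
    (((BasC_meas t).max measurable_const).pow_const 2).aestronglyMeasurable
    (Filter.Eventually.of_forall fun η => ?_)
  rw [Real.norm_eq_abs, abs_of_nonneg (sq_nonneg _)]
  exact BasC_max _

private theorem BasC_int4 (j0 : Fin d) (hρ : EM ρ) (t : ℕ) :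
    Integrable (fun η : Env d => max (-Real.log (Vp ρ β η (2 * t) 0)) 0) (law d ρ) :=
  (BasC_int1 j0 hρ t).pos_part

private theorem BasC_AAsq (t : ℕ) :
    ∫ η : Env d, max (-Real.log (Vp ρ β η (2 * t) 0)) 0 ^ 2 ∂(law d ρ) = AA d ρ β t ^ 2 := by
  unfold AA
  rw [Real.sq_sqrt (integral_nonneg fun η => sq_nonneg _)]

private theorem BasC_alg {L A B : ℝ} (hA : 0 ≤ A) (hB : 0 ≤ B)
    (h : ∀ t : ℝ, 0 < t → L ≤ (1 + t) * A ^ 2 + (1 + 1 / t) * B ^ 2) : Real.sqrt L ≤ A + B := by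
  rw [Real.sqrt_le_left (by linarith)]
  have key : ∀ δ : ℝ, 0 < δ → L ≤ (A + B + 2 * δ) * (A + B) := by
    intro δ hδ
    have hxd : 0 < A + δ := by linarith
    have hyd : 0 < B + δ := by linarith
    have h1 := h ((B + δ) / (A + δ)) (div_pos hyd hxd)
    have e1 : 1 + (B + δ) / (A + δ) = (A + B + 2 * δ) / (A + δ) := by
      field_simp
      ring
    have e2 : 1 + 1 / ((B + δ) / (A + δ)) = (A + B + 2 * δ) / (B + δ) := by
      field_simp
      ring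
    rw [e1, e2] at h1
    have e3 : (A + B + 2 * δ) / (A + δ) * A ^ 2 ≤ (A + B + 2 * δ) * A := by
      rw [div_mul_eq_mul_div, div_le_iff₀ hxd]
      have : 0 ≤ (A + B + 2 * δ) * A * δ := by positivity
      nlinarith
    have e4 : (A + B + 2 * δ) / (B + δ) * B ^ 2 ≤ (A + B + 2 * δ) * B := by
      rw [div_mul_eq_mul_div, div_le_iff₀ hyd]
      have : 0 ≤ (A + B + 2 * δ) * B * δ := by positivity
      nlinarith
    nlinarith
  by_contra hcon
  push Not at hcon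
  set D := L - (A + B) ^ 2 with hD
  have hDpos : 0 < D := by linarith
  have hs : 0 < 2 * (A + B) + 1 := by positivity
  have h2 := key (D / (2 * (A + B) + 1)) (by positivity)
  have h3 : 2 * (D / (2 * (A + B) + 1)) * (A + B) < D := by
    have e5 : 2 * (D / (2 * (A + B) + 1)) * (A + B) = D * (2 * (A + B)) / (2 * (A + B) + 1) := by ring
    rw [e5, div_lt_iff₀ hs]
    nlinarith
  nlinarith

theorem SS_zero : SS d ρ β 0 = 0 := by simp [SS]

theorem one_le_SS {n : ℕ} (hn : 1 ≤ n) : 1 ≤ SS d ρ β n := by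
  rw [BasC_SS hn]
  have h1 := Finset.le_sup' (fun t => AA d ρ β t) (Finset.mem_range.2 (Nat.succ_pos n))
  have h2 : 0 ≤ AA d ρ β 0 := BasC_AA 0
  have h3 := h2.trans h1
  linarith

theorem SS_nonneg (n : ℕ) : 0 ≤ SS d ρ β n := by
  rcases Nat.eq_zero_or_pos n with h | h
  · rw [h, SS_zero]
  · exact zero_le_one.trans (one_le_SS h)

theorem SS_mono {m n : ℕ} (h : m ≤ n) : SS d ρ β m ≤ SS d ρ β n := by
  rcases Nat.eq_zero_or_pos m with h0 | h0
  · rw [h0, SS_zero]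
    exact SS_nonneg n
  · rw [BasC_SS h0, BasC_SS (h0.trans_le h)]
    have h1 : (Finset.range (m + 1)).sup' ⟨0, by simp⟩ (fun t => AA d ρ β t) ≤
        (Finset.range (n + 1)).sup' ⟨0, by simp⟩ fun t => AA d ρ β t :=
      Finset.sup'_mono _ (Finset.range_mono (by omega)) _
    linarith

theorem AA_le_SS {t n : ℕ} (h : t ≤ n) (hn : 1 ≤ n) : AA d ρ β t ≤ SS d ρ β n - 1 := by
  rw [BasC_SS hn]
  have h1 := Finset.le_sup' (fun t => AA d ρ β t) (Finset.mem_range.2 (Nat.lt_succ_of_le h))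
  have h2 : AA d ρ β t ≤ (Finset.range (n + 1)).sup' ⟨0, by simp⟩ fun t => AA d ρ β t := h1
  linarith

/-- The maximum is attained. -/
theorem exists_AA {n : ℕ} (hn : 1 ≤ n) : ∃ t ≤ n, SS d ρ β n = 1 + AA d ρ β t := by
  obtain ⟨t, ht, h1⟩ := Finset.exists_mem_eq_sup' (s := Finset.range (n + 1)) ⟨0, by simp⟩
    fun t => AA d ρ β t
  refine ⟨t, Nat.lt_succ_iff.1 (Finset.mem_range.1 ht), ?_⟩
  rw [BasC_SS hn, h1]

/-- Minkowski. -/
theorem AA_add (j0 : Fin d) (hρ : EM ρ) (s t : ℕ) : AA d ρ β (s + t) ≤ AA d ρ β s + AA d ρ β t := by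
  refine BasC_alg (BasC_AA s) (BasC_AA t) fun r hr => ?_
  have hm : Measurable fun η : Env d => max (-Real.log (Vp ρ β η (2 * t) 0)) 0 ^ 2 :=
    ((BasC_meas t).max measurable_const).pow_const 2
  have i1 : Integrable (fun η : Env d => max (-Real.log (Vp ρ β (sh (2 * s) 0 η) (2 * t) 0)) 0 ^ 2)
      (law d ρ) := (mp_sh (2 * s) (0 : Site d)).integrable_comp_of_integrable (BasC_int3 j0 hρ t)
  have e1 : ∫ η : Env d, max (-Real.log (Vp ρ β (sh (2 * s) 0 η) (2 * t) 0)) 0 ^ 2 ∂(law d ρ) =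
      AA d ρ β t ^ 2 := by
    rw [← BasC_AAsq]
    exact integral_sh (2 * s) (0 : Site d) hm
  rw [← BasC_AAsq s, ← e1, ← integral_const_mul, ← integral_const_mul,
    ← integral_add ((BasC_int3 j0 hρ s).const_mul _) (i1.const_mul _)]
  refine integral_mono (BasC_int3 j0 hρ (s + t))
    (((BasC_int3 j0 hρ s).const_mul _).add (i1.const_mul _)) fun η => ?_
  show max (-Real.log (Vp ρ β η (2 * (s + t)) 0)) 0 ^ 2 ≤
    (1 + r) * max (-Real.log (Vp ρ β η (2 * s) 0)) 0 ^ 2 +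
      (1 + 1 / r) * max (-Real.log (Vp ρ β (sh (2 * s) 0 η) (2 * t) 0)) 0 ^ 2
  have p1 : 0 < Vp ρ β η (2 * s) 0 := Vp_pos j0 η (adm_zero s)
  have p2 : 0 < Vp ρ β (sh (2 * s) 0 η) (2 * t) 0 := Vp_pos j0 _ (adm_zero t)
  have h2 := Vp_add (ρ := ρ) (β := β) η (2 * s) (2 * t) (0 : Site d) 0
  rw [← mul_add, add_zero] at h2
  have h3 := Real.log_le_log (mul_pos p1 p2) h2
  rw [Real.log_mul p1.ne' p2.ne'] at h3
  obtain ⟨a, ha⟩ : ∃ a : ℝ, a = -Real.log (Vp ρ β η (2 * s) 0) := ⟨_, rfl⟩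
  obtain ⟨b, hb⟩ : ∃ b : ℝ, b = -Real.log (Vp ρ β (sh (2 * s) 0 η) (2 * t) 0) := ⟨_, rfl⟩
  obtain ⟨c, hc⟩ : ∃ c : ℝ, c = -Real.log (Vp ρ β η (2 * (s + t)) 0) := ⟨_, rfl⟩
  rw [← ha, ← hb, ← hc]
  have h4 : c ≤ a + b := by rw [ha, hb, hc]; linarith
  have h5 : max c 0 ≤ max a 0 + max b 0 :=
    max_le (h4.trans (add_le_add (le_max_left _ _) (le_max_left _ _)))
      (add_nonneg (le_max_right _ _) (le_max_right _ _))
  have h6 : max c 0 ^ 2 ≤ (max a 0 + max b 0) ^ 2 := pow_le_pow_left₀ (le_max_right _ _) h5 2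
  refine h6.trans ?_
  obtain ⟨x, hx⟩ : ∃ x : ℝ, x = max a 0 := ⟨_, rfl⟩
  obtain ⟨y, hy⟩ : ∃ y : ℝ, y = max b 0 := ⟨_, rfl⟩
  rw [← hx, ← hy]
  have h7 : (1 + r) * x ^ 2 + (1 + 1 / r) * y ^ 2 - (x + y) ^ 2 = (r * x - y) ^ 2 / r := by
    field_simp
    ring
  have h8 : 0 ≤ (r * x - y) ^ 2 / r := div_nonneg (sq_nonneg _) hr.le
  linarith

theorem SS_add (j0 : Fin d) (hρ : EM ρ) (m n : ℕ) : SS d ρ β (m + n) ≤ SS d ρ β m + SS d ρ β n := by
  rcases Nat.eq_zero_or_pos m with hm | hm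
  · rw [hm, SS_zero, zero_add, zero_add]
  rcases Nat.eq_zero_or_pos n with hn | hn
  · rw [hn, SS_zero, add_zero, add_zero]
  obtain ⟨t, ht, h1⟩ := exists_AA (d := d) (ρ := ρ) (β := β) (n := m + n) (by omega)
  rw [h1]
  have hn1 : 1 ≤ SS d ρ β n := one_le_SS hn
  rcases Nat.lt_or_ge m t with h2 | h2
  · have h3 := AA_add (β := β) j0 hρ m (t - m)
    rw [show m + (t - m) = t by omega] at h3
    have h4 : AA d ρ β m ≤ SS d ρ β m - 1 := AA_le_SS le_rfl hm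
    have h5 : AA d ρ β (t - m) ≤ SS d ρ β n - 1 := AA_le_SS (by omega) hn
    linarith
  · have h4 : AA d ρ β t ≤ SS d ρ β m - 1 := AA_le_SS h2 hm
    linarith

theorem SS_mul (j0 : Fin d) (hρ : EM ρ) (m n : ℕ) : SS d ρ β (m * n) ≤ m * SS d ρ β n := by
  induction m with
  | zero =>
    rw [zero_mul, SS_zero]
    simp
  | succ m ih =>
    rw [Nat.succ_mul]
    have h1 := SS_add (β := β) j0 hρ (m * n) n
    push_cast
    linarith

/-- The mean of the cost of waiting. -/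
theorem wait_mean (j0 : Fin d) (hρ : EM ρ) {t n : ℕ} (h : t ≤ n) :
    Integrable (fun η : Env d => max (-Real.log (Vp ρ β η (2 * t) 0)) 0) (law d ρ) ∧
    ∫ η : Env d, max (-Real.log (Vp ρ β η (2 * t) 0)) 0 ∂(law d ρ) ≤ SS d ρ β n := by
  refine ⟨BasC_int4 j0 hρ t, ?_⟩
  rcases Nat.eq_zero_or_pos n with hn | hn
  · have ht : t = 0 := by omega
    subst ht
    rw [hn, SS_zero]
    simp only [BasC_zero]
    simp
  obtain ⟨m, hm⟩ : ∃ m : ℝ, m = ∫ η : Env d, max (-Real.log (Vp ρ β η (2 * t) 0)) 0 ∂(law d ρ) :=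
    ⟨_, rfl⟩
  rw [← hm]
  have h1 : 0 ≤ ∫ η : Env d, (max (-Real.log (Vp ρ β η (2 * t) 0)) 0 - m) ^ 2 ∂(law d ρ) :=
    integral_nonneg fun η => sq_nonneg _
  have h2 : ∫ η : Env d, (max (-Real.log (Vp ρ β η (2 * t) 0)) 0 - m) ^ 2 ∂(law d ρ) =
      AA d ρ β t ^ 2 - m ^ 2 := by
    have e : ∀ η : Env d, (max (-Real.log (Vp ρ β η (2 * t) 0)) 0 - m) ^ 2 =
        (max (-Real.log (Vp ρ β η (2 * t) 0)) 0 ^ 2 +
          (-(2 * m)) * max (-Real.log (Vp ρ β η (2 * t) 0)) 0) + m ^ 2 := fun η => by ring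
    have j1 : Integrable (fun η : Env d => -(2 * m) * max (-Real.log (Vp ρ β η (2 * t) 0)) 0)
        (law d ρ) := (BasC_int4 j0 hρ t).const_mul _
    have j2 : Integrable (fun η : Env d => max (-Real.log (Vp ρ β η (2 * t) 0)) 0 ^ 2 +
        -(2 * m) * max (-Real.log (Vp ρ β η (2 * t) 0)) 0) (law d ρ) := (BasC_int3 j0 hρ t).add j1
    simp only [e]
    rw [integral_add j2 (integrable_const _), integral_add (BasC_int3 j0 hρ t) j1,
      integral_const_mul, ← hm, BasC_AAsq, integral_const]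
    simp only [probReal_univ, one_smul]
    ring
  rw [h2] at h1
  have h3 : m ^ 2 ≤ AA d ρ β t ^ 2 := by linarith
  have h4 : AA d ρ β t ≤ SS d ρ β n - 1 := AA_le_SS h hn
  have h5 := abs_le_of_sq_le_sq' h3 (BasC_AA t)
  linarith [h5.2]

theorem wait_sq (j0 : Fin d) (hρ : EM ρ) {t n : ℕ} (h : t ≤ n) :
    Integrable (fun η : Env d => max (-Real.log (Vp ρ β η (2 * t) 0)) 0 ^ 2) (law d ρ) ∧
    ∫ η : Env d, max (-Real.log (Vp ρ β η (2 * t) 0)) 0 ^ 2 ∂(law d ρ) ≤ SS d ρ β n ^ 2 := by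
  refine ⟨BasC_int3 j0 hρ t, ?_⟩
  rcases Nat.eq_zero_or_pos n with hn | hn
  · have ht : t = 0 := by omega
    subst ht
    rw [hn, SS_zero]
    simp only [BasC_zero]
    simp
  · rw [BasC_AAsq]
    have h4 : AA d ρ β t ≤ SS d ρ β n - 1 := AA_le_SS h hn
    exact pow_le_pow_left₀ (BasC_AA t) (by linarith) 2

/-- Markov. -/
theorem wait_prob (j0 : Fin d) (hρ : EM ρ) {t n : ℕ} (h : t ≤ n) {w : ℝ} (hw : 0 < w) :
    (law d ρ).real {η : Env d | ¬ Tle ρ β η t 0 w} ≤ SS d ρ β n / w := by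
  obtain ⟨hi, hb⟩ := wait_mean (β := β) j0 hρ h
  have hm := mul_meas_ge_le_integral_of_nonneg
    (Filter.Eventually.of_forall fun η => le_max_right _ _) hi w
  have hsub : {η : Env d | ¬ Tle ρ β η t 0 w} ⊆
      {η | w ≤ max (-Real.log (Vp ρ β η (2 * t) 0)) 0} := by
    intro η hη
    have h1 : Vp ρ β η (2 * t) 0 < Real.exp (-w) := not_le.1 hη
    have p1 : 0 < Vp ρ β η (2 * t) 0 := Vp_pos j0 η (adm_zero t)
    have h2 := (Real.log_lt_iff_lt_exp p1).2 h1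
    show w ≤ max (-Real.log (Vp ρ β η (2 * t) 0)) 0
    exact le_trans (by linarith) (le_max_left _ _)
  have h4 := measureReal_mono (μ := law d ρ) hsub
  rw [le_div_iff₀ hw, mul_comm]
  exact (mul_le_mul_of_nonneg_left h4 hw.le).trans (hm.trans hb)

/-- Chebyshev. -/
theorem wait_cheb (j0 : Fin d) (hρ : EM ρ) {t n : ℕ} (h : t ≤ n) {w : ℝ} (hw : 0 < w) :
    (law d ρ).real {η : Env d | ¬ Tle ρ β η t 0 w} ≤ (SS d ρ β n / w) ^ 2 := by
  obtain ⟨hi, hb⟩ := wait_sq (β := β) j0 hρ h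
  have hm := mul_meas_ge_le_integral_of_nonneg
    (Filter.Eventually.of_forall fun η => sq_nonneg _) hi (w ^ 2)
  have hsub : {η : Env d | ¬ Tle ρ β η t 0 w} ⊆
      {η | w ^ 2 ≤ max (-Real.log (Vp ρ β η (2 * t) 0)) 0 ^ 2} := by
    intro η hη
    have h1 : Vp ρ β η (2 * t) 0 < Real.exp (-w) := not_le.1 hη
    have p1 : 0 < Vp ρ β η (2 * t) 0 := Vp_pos j0 η (adm_zero t)
    have h2 := (Real.log_lt_iff_lt_exp p1).2 h1
    show w ^ 2 ≤ max (-Real.log (Vp ρ β η (2 * t) 0)) 0 ^ 2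
    exact pow_le_pow_left₀ hw.le (le_trans (by linarith) (le_max_left _ _)) 2
  have h4 := measureReal_mono (μ := law d ρ) hsub
  rw [div_pow, le_div_iff₀ (pow_pos hw 2), mul_comm]
  exact (mul_le_mul_of_nonneg_left h4 (sq_nonneg w)).trans (hm.trans hb)

end Pool.Agent.W_7d29a1_q
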