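import Pool.Agent.W_7d29a1_q.Defs

/-!
Row 601, basic facts: strong Markov. TASK BasD.
-/

namespace Pool.Agent.W_7d29a1_q

open MeasureTheory ProbabilityTheory Filter Topology Pool.Agent.W_MP_7d29a1_pr
  Pool.Agent.W_7d29a1_h46 Pool.Agent.W_7d29a1_h46u Pool.Agent.W_7d29a1_h3

variable {d : ℕ} {ρ : Measure ℝ} [IsProbabilityMeasure ρ] {β : ℝ}

/-! ### Strong Markov: events on disjoint sets of rows -/

private theorem BasD_int {A : Set (Env d)} {F : Env d → ℝ} {U : Set (ℕ × Site d)}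
    (hAm : MeasurableSet A) (hFm : Measurable F)
    (hA : ∀ η η' : Env d, (∀ p ∈ U, η p = η' p) → (η ∈ A ↔ η' ∈ A))
    (hF : DependsOn F Uᶜ) :
    ∫ η in A, F η ∂(law d ρ) = (law d ρ).real A * ∫ η, F η ∂(law d ρ) := by
  classical
  have h1 : ∫ η in A, F η ∂(law d ρ) =
      ∫ η, A.indicator (fun _ => (1 : ℝ)) η * F η ∂(law d ρ) := by
    rw [← integral_indicator hAm]
    congr 1
    funext η
    by_cases h : η ∈ A
    · simp [Set.indicator_of_mem h]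
    · simp [Set.indicator_of_notMem h]
  have h2 : ∫ η, A.indicator (fun _ => (1 : ℝ)) η ∂(law d ρ) = (law d ρ).real A := by
    rw [integral_indicator hAm]
    simp
  rw [h1, ← h2]
  refine integral_indep U (measurable_const.indicator hAm) hFm ?_ hF
  intro η η' h
  have h3 := hA η η' h
  by_cases h4 : η ∈ A
  · rw [Set.indicator_of_mem h4, Set.indicator_of_mem (h3.1 h4)]
  · rw [Set.indicator_of_notMem h4, Set.indicator_of_notMem fun h5 => h4 (h3.2 h5)]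

private theorem BasD_inter {A B : Set (Env d)} {U : Set (ℕ × Site d)}
    (hAm : MeasurableSet A) (hBm : MeasurableSet B)
    (hA : ∀ η η' : Env d, (∀ p ∈ U, η p = η' p) → (η ∈ A ↔ η' ∈ A))
    (hB : ∀ η η' : Env d, (∀ p ∉ U, η p = η' p) → (η ∈ B ↔ η' ∈ B)) :
    (law d ρ).real (A ∩ B) = (law d ρ).real A * (law d ρ).real B := by
  classical
  have h1 := BasD_int (ρ := ρ) (F := B.indicator fun _ => (1 : ℝ)) hAm
    (measurable_const.indicator hBm) hA (by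
      intro η η' h
      have h3 := hB η η' h
      by_cases h4 : η ∈ B
      · rw [Set.indicator_of_mem h4, Set.indicator_of_mem (h3.1 h4)]
      · rw [Set.indicator_of_notMem h4, Set.indicator_of_notMem fun h5 => h4 (h3.2 h5)])
  have h2 : ∫ η, B.indicator (fun _ => (1 : ℝ)) η ∂(law d ρ) = (law d ρ).real B := by
    rw [integral_indicator hBm]
    simp
  have h3 : ∫ η in A, B.indicator (fun _ => (1 : ℝ)) η ∂(law d ρ) =
      (law d ρ).real (A ∩ B) := by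
    rw [setIntegral_indicator hBm]
    simp
  rw [← h3, h1, h2]

private theorem BasD_union {ι : Type*} (I : Finset ι) (A : ι → Set (Env d))
    (hAm : ∀ i ∈ I, MeasurableSet (A i))
    (hdis : ∀ i ∈ I, ∀ j ∈ I, i ≠ j → Disjoint (A i) (A j)) :
    (law d ρ).real {η | ∃ i ∈ I, η ∈ A i} = ∑ i ∈ I, (law d ρ).real (A i) := by
  have h : {η : Env d | ∃ i ∈ I, η ∈ A i} = ⋃ i ∈ I, A i := by
    ext η
    simp
  rw [h]
  exact measureReal_biUnion_finset (fun i hi j hj hij => hdis i hi j hj hij) hAm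

private theorem BasD_both {ι : Type*} (I : Finset ι) (A B : ι → Set (Env d))
    (U : ι → Set (ℕ × Site d))
    (hAm : ∀ i ∈ I, MeasurableSet (A i)) (hBm : ∀ i ∈ I, MeasurableSet (B i))
    (hA : ∀ i ∈ I, ∀ η η' : Env d, (∀ p ∈ U i, η p = η' p) → (η ∈ A i ↔ η' ∈ A i))
    (hB : ∀ i ∈ I, ∀ η η' : Env d, (∀ p ∉ U i, η p = η' p) → (η ∈ B i ↔ η' ∈ B i))
    (hdis : ∀ i ∈ I, ∀ j ∈ I, i ≠ j → Disjoint (A i) (A j)) :
    (law d ρ).real {η | ∃ i ∈ I, η ∈ A i ∧ η ∈ B i} =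
      ∑ i ∈ I, (law d ρ).real (A i) * (law d ρ).real (B i) := by
  have h1 := BasD_union (ρ := ρ) I (fun i => A i ∩ B i) (fun i hi => (hAm i hi).inter (hBm i hi))
    (fun i hi j hj hij => (hdis i hi j hj hij).mono Set.inter_subset_left Set.inter_subset_left)
  have h2 : {η : Env d | ∃ i ∈ I, η ∈ A i ∧ η ∈ B i} = {η : Env d | ∃ i ∈ I, η ∈ A i ∩ B i} := rfl
  rw [h2, h1]
  exact Finset.sum_congr rfl fun i hi => BasD_inter (hAm i hi) (hBm i hi) (hA i hi) (hB i hi)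

/-- `A i` uses `U i`, `B i` uses the complement; the `A i` are disjoint and `P (B i) ≤ q`. -/
theorem sm_le {ι : Type*} (I : Finset ι) (A B : ι → Set (Env d)) (U : ι → Set (ℕ × Site d))
    (hAm : ∀ i ∈ I, MeasurableSet (A i)) (hBm : ∀ i ∈ I, MeasurableSet (B i))
    (hA : ∀ i ∈ I, ∀ η η' : Env d, (∀ p ∈ U i, η p = η' p) → (η ∈ A i ↔ η' ∈ A i))
    (hB : ∀ i ∈ I, ∀ η η' : Env d, (∀ p ∉ U i, η p = η' p) → (η ∈ B i ↔ η' ∈ B i))
    (hdis : ∀ i ∈ I, ∀ j ∈ I, i ≠ j → Disjoint (A i) (A j)) {q : ℝ}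
    (hq : ∀ i ∈ I, (law d ρ).real (B i) ≤ q) :
    (law d ρ).real {η | ∃ i ∈ I, η ∈ A i ∧ η ∈ B i} ≤ q * (law d ρ).real {η | ∃ i ∈ I, η ∈ A i} := by
  rw [BasD_both I A B U hAm hBm hA hB hdis, BasD_union I A hAm hdis, Finset.mul_sum]
  refine Finset.sum_le_sum fun i hi => ?_
  rw [mul_comm]
  exact mul_le_mul_of_nonneg_right (hq i hi) measureReal_nonneg

theorem sm_ge {ι : Type*} (I : Finset ι) (A B : ι → Set (Env d)) (U : ι → Set (ℕ × Site d))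
    (hAm : ∀ i ∈ I, MeasurableSet (A i)) (hBm : ∀ i ∈ I, MeasurableSet (B i))
    (hA : ∀ i ∈ I, ∀ η η' : Env d, (∀ p ∈ U i, η p = η' p) → (η ∈ A i ↔ η' ∈ A i))
    (hB : ∀ i ∈ I, ∀ η η' : Env d, (∀ p ∉ U i, η p = η' p) → (η ∈ B i ↔ η' ∈ B i))
    (hdis : ∀ i ∈ I, ∀ j ∈ I, i ≠ j → Disjoint (A i) (A j)) {q : ℝ}
    (hq : ∀ i ∈ I, q ≤ (law d ρ).real (B i)) :
    q * (law d ρ).real {η | ∃ i ∈ I, η ∈ A i} ≤ (law d ρ).real {η | ∃ i ∈ I, η ∈ A i ∧ η ∈ B i} := by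
  rw [BasD_both I A B U hAm hBm hA hB hdis, BasD_union I A hAm hdis, Finset.mul_sum]
  refine Finset.sum_le_sum fun i hi => ?_
  rw [mul_comm ((law d ρ).real (A i))]
  exact mul_le_mul_of_nonneg_right (hq i hi) measureReal_nonneg

/-- The same for a function `F i ≥ 0` of the complement. -/
theorem sm_int {ι : Type*} (I : Finset ι) (A : ι → Set (Env d)) (F : ι → Env d → ℝ)
    (U : ι → Set (ℕ × Site d)) (hAm : ∀ i ∈ I, MeasurableSet (A i)) (hFm : ∀ i ∈ I, Measurable (F i))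
    (hFi : ∀ i ∈ I, Integrable (F i) (law d ρ))
    (hA : ∀ i ∈ I, ∀ η η' : Env d, (∀ p ∈ U i, η p = η' p) → (η ∈ A i ↔ η' ∈ A i))
    (hF : ∀ i ∈ I, DependsOn (F i) (U i)ᶜ)
    (hdis : ∀ i ∈ I, ∀ j ∈ I, i ≠ j → Disjoint (A i) (A j)) {m : ℝ}
    (hm : ∀ i ∈ I, ∫ η, F i η ∂(law d ρ) ≤ m) :
    ∑ i ∈ I, ∫ η in A i, F i η ∂(law d ρ) ≤ m * (law d ρ).real {η | ∃ i ∈ I, η ∈ A i} := by
  rw [BasD_union I A hAm hdis, Finset.mul_sum]
  refine Finset.sum_le_sum fun i hi => ?_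
  rw [BasD_int (hAm i hi) (hFm i hi) (hA i hi) (hF i hi), mul_comm]
  exact mul_le_mul_of_nonneg_right (hm i hi) measureReal_nonneg

end Pool.Agent.W_7d29a1_q
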