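import Pool.Agent.W_7d29a1_q.BasC

/-!
Row 601, basic facts: budgets and price (2.1), (2.2), tails. TASK BasE.
-/

namespace Pool.Agent.W_7d29a1_q

open MeasureTheory ProbabilityTheory Filter Topology Pool.Agent.W_MP_7d29a1_pr
  Pool.Agent.W_7d29a1_h46 Pool.Agent.W_7d29a1_h46u Pool.Agent.W_7d29a1_h3

variable {d : ℕ} {ρ : Measure ℝ} [IsProbabilityMeasure ρ] {β : ℝ}

/-! ### Budgets and price -/

variable {c a0 : ℝ} {N : ℕ}

theorem le_nn (S : Sc d ρ β c a0 N) {a : ℝ} (ha : a ≤ am d N) {n : ℕ} :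
    n ≤ nn d ρ β a ↔ n = 0 ∨ SS d ρ β n ≤ a := by
  have hb : BddAbove {n : ℕ | SS d ρ β n ≤ a} := ⟨N, fun m hm => by
    have h1 := S.big m (le_trans hm ha)
    omega⟩
  constructor
  · intro h
    rcases Nat.eq_zero_or_pos n with h0 | h0
    · exact Or.inl h0
    · right
      rcases Set.eq_empty_or_nonempty {n : ℕ | SS d ρ β n ≤ a} with h1 | h1
      · exfalso
        unfold nn at h
        rw [h1, csSup_empty] at h
        simp only [bot_eq_zero', nonpos_iff_eq_zero] at h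
        omega
      · have h2 : nn d ρ β a ∈ {n : ℕ | SS d ρ β n ≤ a} := Nat.sSup_mem h1 hb
        exact (SS_mono h).trans h2
  · rintro (h | h)
    · omega
    · exact le_csSup hb h

theorem SS_nn (S : Sc d ρ β c a0 N) {a : ℝ} (h0 : 0 ≤ a) (ha : a ≤ am d N) :
    SS d ρ β (nn d ρ β a) ≤ a := by
  rcases (le_nn S ha (n := nn d ρ β a)).1 le_rfl with h | h
  · rw [h, SS_zero]
    exact h0
  · exact h

/-- (2.1): `a - C_w ≤ S(n(a))` with `C_w = a0`. -/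
theorem le_SS_nn (j0 : Fin d) (hρ : EM ρ) (S : Sc d ρ β c a0 N) {a : ℝ} (h0 : 0 ≤ a)
    (ha : a ≤ am d N) : a - a0 ≤ SS d ρ β (nn d ρ β a) := by
  have h1 : ¬ (nn d ρ β a + 1 ≤ nn d ρ β a) := by omega
  rw [le_nn S ha, not_or, not_le] at h1
  have h2 := SS_add (β := β) j0 hρ (nn d ρ β a) 1
  have h3 := S.S1
  linarith [h1.2]

theorem nn_mono (S : Sc d ρ β c a0 N) {a b : ℝ} (h0 : 0 ≤ a) (hab : a ≤ b) (hb : b ≤ am d N) :
    nn d ρ β a ≤ nn d ρ β b :=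
  (le_nn S hb).2 (Or.inr ((SS_nn S h0 (hab.trans hb)).trans hab))

theorem nn_lt (S : Sc d ρ β c a0 N) {a : ℝ} (h0 : 0 ≤ a) (ha : a ≤ am d N) : 4 * nn d ρ β a < N :=
  S.big _ ((SS_nn S h0 ha).trans ha)

/-- (2.1): `n(m a) ≥ m n(a)`. -/
theorem nn_mul (j0 : Fin d) (hρ : EM ρ) (S : Sc d ρ β c a0 N) {a : ℝ} (h0 : 0 ≤ a) (m : ℕ)
    (ha : m * a ≤ am d N) : m * nn d ρ β a ≤ nn d ρ β (m * a) := by
  rcases Nat.eq_zero_or_pos m with hm | hm
  · subst hm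
    simp
  · have h1 : (1 : ℝ) ≤ m := by exact_mod_cast hm
    have h2 : a ≤ am d N := (le_mul_of_one_le_left h0 h1).trans ha
    refine (le_nn S ha).2 (Or.inr ((SS_mul j0 hρ m (nn d ρ β a)).trans ?_))
    exact mul_le_mul_of_nonneg_left (SS_nn S h0 h2) (by positivity)

/-- (2.1): `ψ(b) ≤ 2 ψ(a)` for `b ≤ a`. -/
theorem ps_le (j0 : Fin d) (hρ : EM ρ) (S : Sc d ρ β c a0 N) {a b : ℝ} (hb : 0 < b) (hab : b ≤ a)
    (ha : a ≤ am d N) : ps d ρ β b ≤ 2 * ps d ρ β a := by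
  have ha0 : 0 < a := hb.trans_le hab
  have hq : 1 ≤ a / b := (one_le_div hb).2 hab
  have h1 : ((⌊a / b⌋₊ : ℕ) : ℝ) ≤ a / b := Nat.floor_le (by positivity)
  have h2 : a / b < (⌊a / b⌋₊ : ℝ) + 1 := Nat.lt_floor_add_one _
  have h3 : 1 ≤ ⌊a / b⌋₊ := by
    rw [Nat.one_le_floor_iff]
    exact hq
  have h3' : (1 : ℝ) ≤ (⌊a / b⌋₊ : ℝ) := by exact_mod_cast h3
  set m : ℕ := ⌊a / b⌋₊ with hm
  have h4 : (m : ℝ) * b ≤ a := by
    rwa [le_div_iff₀ hb] at h1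
  have h5 := nn_mul j0 hρ S hb.le m (h4.trans ha)
  have h6 := nn_mono S (by positivity) h4 ha
  have h7 : (m : ℝ) * nn d ρ β b ≤ nn d ρ β a := by exact_mod_cast h5.trans h6
  have h8 : a ≤ 2 * m * b := by
    rw [div_lt_iff₀ hb] at h2
    nlinarith
  unfold ps
  rw [← mul_div_assoc, div_le_div_iff₀ hb ha0]
  have h9 : (0 : ℝ) ≤ nn d ρ β b := by positivity
  calc (nn d ρ β b : ℝ) * a ≤ nn d ρ β b * (2 * m * b) := mul_le_mul_of_nonneg_left h8 h9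
    _ = 2 * (m * nn d ρ β b) * b := by ring
    _ ≤ 2 * nn d ρ β a * b := by
      apply mul_le_mul_of_nonneg_right _ hb.le
      linarith

omit [IsProbabilityMeasure ρ] in
private theorem basE_sn_pos {z : Site d} (hz : z ≠ 0) : (0 : ℝ) < sn z := by
  have h1 : sn z ≠ 0 := by
    intro h0
    apply hz
    funext j
    have h2 := (sn_le_iff (x := z) (k := 0)).1 h0.le j
    simpa using h2
  exact_mod_cast Nat.pos_of_ne_zero h1

theorem pr_pos (S : Sc d ρ β c a0 N) (hN : 1 ≤ N) {a : ℝ} (h0 : a0 ≤ a) (ha : a ≤ am d N) :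
    0 < pr d ρ β a :=
  lt_of_lt_of_le (Real.rpow_pos_of_pos (by exact_mod_cast hN) _) (S.lo a h0 ha)

/-- (2.2), first form. -/
theorem pr_le {a : ℝ} {t : ℕ} {z : Site d} {x : ℝ} (ht : 1 ≤ t) (hz : z ≠ 0) (he : Even (ln z))
    (h : Ch ρ β t z x) (hx : x + 2 * SS d ρ β t ≤ a) :
    pr d ρ β a * sn z ≤ x + 2 * SS d ρ β t := by
  have hs := basE_sn_pos hz
  have hle : pr d ρ β a ≤ (x + 2 * SS d ρ β t) / sn z := by
    apply csInf_le
    · refine ⟨0, ?_⟩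
      rintro r ⟨t', z', x', -, hz', -, hc, -, hr⟩
      have h3 : (0 : ℝ) ≤ x' + 2 * SS d ρ β t' :=
        add_nonneg hc.1 (mul_nonneg (by norm_num) (SS_nonneg t'))
      rw [← hr] at h3
      exact nonneg_of_mul_nonneg_left h3 (basE_sn_pos hz')
    · exact ⟨t, z, x, ht, hz, he, h, hx, div_mul_cancel₀ _ hs.ne'⟩
  rwa [le_div_iff₀ hs] at hle

/-- (2.2). -/
theorem price {a : ℝ} {t : ℕ} {z : Site d} {x : ℝ} (ht : 1 ≤ t) (hz : z ≠ 0) (he : Even (ln z))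
    (h : Ch ρ β t z x) : min (pr d ρ β a * sn z) a ≤ x + 2 * SS d ρ β t := by
  rcases le_or_gt (x + 2 * SS d ρ β t) a with h1 | h1
  · exact (min_le_left _ _).trans (pr_le ht hz he h h1)
  · exact (min_le_right _ _).trans h1.le

theorem pr_anti (S : Sc d ρ β c a0 N) {a b : ℝ} (h0 : a0 ≤ a) (hab : a ≤ b) (hb : b ≤ am d N) :
    pr d ρ β b ≤ pr d ρ β a := by
  obtain ⟨t, z, x, ht, hz, he, hc, hx, hr⟩ := S.att a h0 (hab.trans hb)
  have h1 := pr_le ht hz he hc (hx.trans hab)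
  rw [hr] at h1
  exact le_of_mul_le_mul_right h1 (basE_sn_pos hz)

theorem Rg_mono {δ δ' a : ℝ} (S : Sc d ρ β c a0 N) (hN : 1 ≤ N) (ha : a ≤ am d N) (hδ : δ ≤ δ')
    (h : Rg d ρ β a0 δ a) : Rg d ρ β a0 δ' a := by
  intro b hb hba
  have hb0 : 0 < b := lt_of_lt_of_le one_pos (S.one.trans hb)
  have h1 : 1 ≤ a / b := (one_le_div hb0).2 hba
  have h2 : (a / b) ^ δ ≤ (a / b) ^ δ' := Real.rpow_le_rpow_of_exponent_le h1 hδ
  have h3 := pr_pos S hN (hb.trans hba) ha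
  refine (h b hb hba).trans (mul_le_mul_of_nonneg_right ?_ h3.le)
  linarith

/-- Lemma 6 as a tail bound. -/
theorem Tail_prob {θ γ C r : ℝ} {h : ℕ} (hT : Tail d ρ β θ γ C r h) (hγ : 0 < γ) (v : ℝ) :
    (law d ρ).real {η : Env d | ∃ (s t : ℕ) (x p : Site d), s ≤ t ∧ t ≤ h ∧ (sn x : ℝ) ≤ r ∧
      Even (ln x) ∧ Even (ln p) ∧ Tle ρ β (sh (2 * s) x η) (t - s) (p - x) (θ * sn (p - x) - v)} ≤
      C * Real.exp (-(γ * v)) := by
  obtain ⟨L, hLm, -, hL1, hLi, hLC, hL⟩ := hT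
  have hsub : {η : Env d | ∃ (s t : ℕ) (x p : Site d), s ≤ t ∧ t ≤ h ∧ (sn x : ℝ) ≤ r ∧
      Even (ln x) ∧ Even (ln p) ∧ Tle ρ β (sh (2 * s) x η) (t - s) (p - x) (θ * sn (p - x) - v)} ⊆
      {η : Env d | Real.exp (γ * v) ≤ L η} := by
    rintro η ⟨s, t, x, p, hst, hth, hx, hex, hep, hT⟩
    have h1 := hL η s t x p hst hth hx hex hep
    unfold Tle at hT
    refine le_trans ?_ h1
    have h2 : Real.exp v ≤ Real.exp (θ * sn (p - x)) *
        Vp ρ β (sh (2 * s) x η) (2 * (t - s)) (p - x) := by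
      refine le_trans (le_of_eq ?_) (mul_le_mul_of_nonneg_left hT (Real.exp_pos _).le)
      rw [← Real.exp_add]
      congr 1
      ring
    calc Real.exp (γ * v) = Real.exp v ^ γ := by
          rw [← Real.exp_mul, mul_comm]
      _ ≤ _ := Real.rpow_le_rpow (Real.exp_pos _).le h2 hγ.le
  have h1 : (law d ρ).real {η : Env d | ∃ (s t : ℕ) (x p : Site d), s ≤ t ∧ t ≤ h ∧ (sn x : ℝ) ≤ r ∧
      Even (ln x) ∧ Even (ln p) ∧ Tle ρ β (sh (2 * s) x η) (t - s) (p - x) (θ * sn (p - x) - v)} ≤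
      (law d ρ).real {η : Env d | Real.exp (γ * v) ≤ L η} :=
    measureReal_mono hsub (measure_ne_top _ _)
  have h2 := mul_meas_ge_le_integral_of_nonneg (μ := law d ρ) (f := L)
    (Filter.Eventually.of_forall fun η => zero_le_one.trans (hL1 η)) hLi (Real.exp (γ * v))
  refine h1.trans ?_
  have h3 : Real.exp (γ * v) * (law d ρ).real {η : Env d | Real.exp (γ * v) ≤ L η} ≤ C :=
    h2.trans hLC
  rw [Real.exp_neg, ← div_eq_mul_inv, le_div_iff₀ (Real.exp_pos _), mul_comm]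
  exact h3

end Pool.Agent.W_7d29a1_q
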