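import Pool.Agent.W_7d29a1_q.BasA
import Pool.Agent.W_7d29a1_q.BasB
import Pool.Agent.W_7d29a1_q.BasC
import Pool.Agent.W_7d29a1_q.BasD
import Pool.Agent.W_7d29a1_q.BasE

/-!
Row 601: basic facts which are used in all sections (`Tle`, moments, `S`, strong Markov, budgets and price).
-/
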