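import Pool.Agent.W_7d29a1_q.Defs

/-!
Row 601, basic facts: the events `T ≤ u`. TASK BasA.
-/

namespace Pool.Agent.W_7d29a1_q

open MeasureTheory ProbabilityTheory Filter Topology Pool.Agent.W_MP_7d29a1_pr
  Pool.Agent.W_7d29a1_h46 Pool.Agent.W_7d29a1_h46u Pool.Agent.W_7d29a1_h3

variable {d : ℕ} {ρ : Measure ℝ} [IsProbabilityMeasure ρ] {β : ℝ}

/-! ### The events `T ≤ u` -/

theorem Tle_mono {η : Env d} {t : ℕ} {z : Site d} {u v : ℝ} (h : Tle ρ β η t z u) (huv : u ≤ v) :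
    Tle ρ β η t z v :=
  (Real.exp_le_exp.2 (neg_le_neg huv)).trans h

theorem Tle_add {η : Env d} {s t : ℕ} {x y : Site d} {u v : ℝ} (h : Tle ρ β η s x u)
    (h' : Tle ρ β (sh (2 * s) x η) t y v) : Tle ρ β η (s + t) (x + y) (u + v) := by
  unfold Tle at *
  have h1 := Vp_add (ρ := ρ) (β := β) η (2 * s) (2 * t) x y
  rw [← mul_add] at h1
  refine le_trans ?_ h1
  rw [neg_add, Real.exp_add]
  exact mul_le_mul h h' (Real.exp_pos _).le ((Real.exp_pos _).le.trans h)

omit [IsProbabilityMeasure ρ] in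
private theorem BasA_Vp0 (η : Env d) : Vp ρ β η 0 (0 : Site d) = 1 := by
  unfold Vp V toP ZT
  have hp : ∀ s : Fin 0 → Step d, pos s 0 = (0 : Site d) := by
    intro s
    unfold pos
    simp
  have he : emb (0 : Site d) = 0 := by
    unfold emb
    ext j
    simp
  simp [hp, wgt, energy, he]

theorem Tle_zero (η : Env d) {u : ℝ} (hu : 0 ≤ u) : Tle ρ β η 0 0 u := by
  unfold Tle
  rw [Nat.mul_zero, BasA_Vp0]
  exact Real.exp_le_one_iff.2 (neg_nonpos.2 hu)

theorem measurableSet_Tle (t : ℕ) (z : Site d) (u : ℝ) : MeasurableSet {η : Env d | Tle ρ β η t z u} := by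
  unfold Tle Vp
  exact measurableSet_le measurable_const (measurable_V _)

/-- `T(sh (2 s) x η)` uses the rows `2 s + 1, ..., 2 s + 2 t`. -/
theorem dep_Tle {s t : ℕ} {x z : Site d} {u : ℝ} {η η' : Env d}
    (h : ∀ p : ℕ × Site d, 2 * s < p.1 → p.1 ≤ 2 * s + 2 * t → η p = η' p) :
    Tle ρ β (sh (2 * s) x η) t z u ↔ Tle ρ β (sh (2 * s) x η') t z u := by
  have h1 : V ρ β (sh (2 * s) x η) (toP (2 * t) z) = V ρ β (sh (2 * s) x η') (toP (2 * t) z) :=
    dep_V_sh (ρ := ρ) (β := β) (2 * s) x (toP (2 * t) z) fun p hp => h p hp.1 hp.2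
  unfold Tle Vp
  rw [h1]

omit [IsProbabilityMeasure ρ] in
private theorem BasA_adm (j0 : Fin d) {η : Env d} {t : ℕ} {z : Site d} (h : 0 < Vp ρ β η (2 * t) z) :
    adm (2 * t) z ∧ Even (ln z) := by
  have h1 : adm (2 * t) z := by
    by_contra hc
    rw [Vp_zero j0 η hc] at h
    exact lt_irrefl _ h
  refine ⟨h1, ?_⟩
  have h2 := h1.2
  rw [Nat.even_iff]
  omega

omit [IsProbabilityMeasure ρ] in
private theorem BasA_sum (η : Env d) (m n : ℕ) (z : Site d) :
    Vp ρ β η (m + n) z ≤ ∑ x ∈ boxF d m, Vp ρ β η m x * Vp ρ β (sh m x η) n (z - x) := by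
  classical
  obtain ⟨F, hF⟩ : ∃ F : Site d → Set (Fin (m + n) → Step d),
      ∀ x, F x = {s : Fin (m + n) → Step d | pos s m = x ∧ pos s (m + n) = z} := ⟨_, fun _ => rfl⟩
  have h1 : ∀ x : Site d, Vp ρ β η m x * Vp ρ β (sh m x η) n (z - x) = V ρ β η (F x) := by
    intro x
    rw [hF, V_through η (Nat.le_add_right m n) x z, Nat.add_sub_cancel_left]
  rw [Finset.sum_congr rfl fun x _ => h1 x]
  unfold Vp V
  rw [← Finset.mul_sum]
  refine mul_le_mul_of_nonneg_left ?_ (Real.exp_pos _).le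
  unfold ZT
  rw [Finset.sum_comm]
  refine Finset.sum_le_sum fun s _ => ?_
  have hnn : ∀ x : Site d, (0 : ℝ) ≤ (if s ∈ F x then wgt β 0 η s else 0) := by
    intro x
    split_ifs
    · exact (wgt_pos _ _ _ _).le
    · exact le_rfl
  by_cases hs : s ∈ toP (m + n) z
  · rw [if_pos hs]
    have hx : pos s m ∈ boxF d m := by
      rw [mem_boxF_iff]
      exact (sn_le_ln _).trans (adm_pos s (Nat.le_add_right m n)).1
    have h2 := Finset.single_le_sum (f := fun x : Site d => if s ∈ F x then wgt β 0 η s else 0)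
      (fun x _ => hnn x) hx
    have h3 : s ∈ F (pos s m) := by
      rw [hF]
      exact ⟨rfl, hs⟩
    simp only [if_pos h3] at h2
    exact h2
  · rw [if_neg hs]
    exact Finset.sum_nonneg fun x _ => hnn x

/-- An admissible end point. -/
theorem Tle_adm (j0 : Fin d) {η : Env d} {t : ℕ} {z : Site d} {u : ℝ} (h : Tle ρ β η t z u) :
    adm (2 * t) z ∧ Even (ln z) :=
  BasA_adm j0 ((Real.exp_pos _).trans_le h)

/-- The position at an intermediate time: some site carries the largest product. -/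
theorem Tle_split (j0 : Fin d) {η : Env d} {s t : ℕ} {z : Site d} {u : ℝ}
    (h : Tle ρ β η (s + t) z u) : ∃ (x : Site d) (v w : ℝ), Even (ln x) ∧ sn x ≤ 2 * s ∧
      v + w ≤ u + d * Real.log (4 * s + 1) ∧ Tle ρ β η s x v ∧ Tle ρ β (sh (2 * s) x η) t (z - x) w ∧
      Real.exp (-v) = Vp ρ β η (2 * s) x ∧ Real.exp (-w) = Vp ρ β (sh (2 * s) x η) (2 * t) (z - x) := by
  unfold Tle at h
  have h0 := BasA_sum (ρ := ρ) (β := β) η (2 * s) (2 * t) z
  rw [← mul_add] at h0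
  have hne : (boxF d (2 * s)).Nonempty := by
    refine ⟨0, ?_⟩
    rw [mem_boxF_iff]
    simp [sn]
  obtain ⟨x, hx, hmax⟩ := Finset.exists_max_image (boxF d (2 * s))
    (fun x => Vp ρ β η (2 * s) x * Vp ρ β (sh (2 * s) x η) (2 * t) (z - x)) hne
  have h2 := Finset.sum_le_card_nsmul (boxF d (2 * s))
    (fun x => Vp ρ β η (2 * s) x * Vp ρ β (sh (2 * s) x η) (2 * t) (z - x)) _ hmax
  rw [card_boxF, nsmul_eq_mul] at h2
  set a := Vp ρ β η (2 * s) x with ha
  set b := Vp ρ β (sh (2 * s) x η) (2 * t) (z - x) with hb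
  have hK : (0 : ℝ) < (4 * (s : ℝ) + 1) ^ d := by positivity
  have hK' : (((2 * (2 * s) + 1) ^ d : ℕ) : ℝ) = (4 * (s : ℝ) + 1) ^ d := by
    push_cast
    ring
  rw [hK'] at h2
  have h3 : Real.exp (-u) ≤ (4 * (s : ℝ) + 1) ^ d * (a * b) := h.trans (h0.trans h2)
  have hab : 0 < a * b := by
    by_contra hc
    have h4 := (Real.exp_pos (-u)).trans_le h3
    exact absurd (pos_of_mul_pos_right h4 hK.le) hc
  have ha0 : 0 ≤ a := V_nonneg _ _
  have hb0 : 0 ≤ b := V_nonneg _ _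
  have ha1 : 0 < a := lt_of_le_of_ne ha0 fun h' => by
    rw [← h', zero_mul] at hab
    exact lt_irrefl _ hab
  have hb1 : 0 < b := lt_of_le_of_ne hb0 fun h' => by
    rw [← h', mul_zero] at hab
    exact lt_irrefl _ hab
  have e1 : Real.exp (-(-Real.log a)) = a := by rw [neg_neg, Real.exp_log ha1]
  have e2 : Real.exp (-(-Real.log b)) = b := by rw [neg_neg, Real.exp_log hb1]
  refine ⟨x, -Real.log a, -Real.log b, (BasA_adm j0 ha1).2, mem_boxF_iff.1 hx, ?_, e1.le, e2.le, e1, e2⟩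
  have h5 := Real.log_le_log (Real.exp_pos _) h3
  rw [Real.log_exp, Real.log_mul hK.ne' hab.ne', Real.log_mul ha1.ne' hb1.ne', Real.log_pow] at h5
  linarith

/-- Translations. -/
theorem real_Tle_sh (s t : ℕ) (x z : Site d) (u : ℝ) :
    (law d ρ).real {η : Env d | Tle ρ β (sh s x η) t z u} =
      (law d ρ).real {η : Env d | Tle ρ β η t z u} :=
  real_sh s x (measurableSet_Tle t z u)

/-- Signed permutations of the coordinates. -/
theorem real_Tle_act (τ : Equiv.Perm (Fin d)) (e : Fin d → Bool) (t : ℕ) (z : Site d) (u : ℝ) :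
    (law d ρ).real {η : Env d | Tle ρ β η t (sAct τ e z) u} =
      (law d ρ).real {η : Env d | Tle ρ β η t z u} := by
  have h1 := (mp_eAct (ρ := ρ) τ e).measureReal_preimage
    (measurableSet_Tle (ρ := ρ) (β := β) t z u).nullMeasurableSet
  rw [← h1]
  congr 1
  ext η
  change Real.exp (-u) ≤ Vp ρ β η (2 * t) (sAct τ e z) ↔ Real.exp (-u) ≤ Vp ρ β (eAct τ e η) (2 * t) z
  rw [V_act]

/-- `E T(2t,0) ≥ 0`. -/
theorem mean_nonneg (j0 : Fin d) (hρ : EM ρ) (t : ℕ) :
    0 ≤ ∫ η : Env d, -Real.log (Vp ρ β η (2 * t) 0) ∂(law d ρ) :=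
  g_nonneg j0 hρ β (adm_zero t)

end Pool.Agent.W_7d29a1_q
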