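import Pool.Agent.W_7d29a1_q.CoB
import Pool.Agent.W_7d29a1_h3.Ind

/-!
Row 601, section 11: one sequence of centres ((11.5), probability).
-/

namespace Pool.Agent.W_7d29a1_q

open MeasureTheory ProbabilityTheory Filter Topology Pool.Agent.W_MP_7d29a1_pr
  Pool.Agent.W_7d29a1_h46 Pool.Agent.W_7d29a1_h46u Pool.Agent.W_7d29a1_h3

variable {d : ℕ} {ρ : Measure ℝ} [IsProbabilityMeasure ρ] {β : ℝ}

theorem measurableSet_Cr (r b : ℝ) (h : ℕ) : MeasurableSet (Cr d ρ β r b h) := by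
  have h1 : Cr d ρ β r b h = ⋂ x : Site d, ⋂ x' : Site d,
      {η : Env d | Even (ln x) → Even (ln x') → (sn x : ℝ) ≤ r → (sn x' : ℝ) ≤ r →
        Vp ρ β (sh 0 x η) (2 * h) (x' - x) ≤ Real.exp (-b)} := by
    ext η
    simp only [Cr, Set.mem_ofPred_eq, Set.mem_iInter]
  rw [h1]
  refine MeasurableSet.iInter fun x => MeasurableSet.iInter fun x' => ?_
  have h2 : MeasurableSet {η : Env d | Vp ρ β (sh 0 x η) (2 * h) (x' - x) ≤ Real.exp (-b)} :=
    measurableSet_le ((measurable_V (toP (2 * h) (x' - x))).comp (measurable_sh 0 x))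
      measurable_const
  by_cases hc : Even (ln x) ∧ Even (ln x') ∧ (sn x : ℝ) ≤ r ∧ (sn x' : ℝ) ≤ r
  · have h3 : {η : Env d | Even (ln x) → Even (ln x') → (sn x : ℝ) ≤ r → (sn x' : ℝ) ≤ r →
        Vp ρ β (sh 0 x η) (2 * h) (x' - x) ≤ Real.exp (-b)} =
        {η : Env d | Vp ρ β (sh 0 x η) (2 * h) (x' - x) ≤ Real.exp (-b)} := by
      ext η
      simp only [Set.mem_ofPred_eq]
      exact ⟨fun H => H hc.1 hc.2.1 hc.2.2.1 hc.2.2.2, fun H _ _ _ _ => H⟩
    rw [h3]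
    exact h2
  · have h3 : {η : Env d | Even (ln x) → Even (ln x') → (sn x : ℝ) ≤ r → (sn x' : ℝ) ≤ r →
        Vp ρ β (sh 0 x η) (2 * h) (x' - x) ≤ Real.exp (-b)} = Set.univ := by
      ext η
      simp only [Set.mem_ofPred_eq, Set.mem_univ, iff_true]
      exact fun a1 a2 a3 a4 => absurd ⟨a1, a2, a3, a4⟩ hc
    rw [h3]
    exact MeasurableSet.univ

private theorem CoC_dep {r b : ℝ} {h t : ℕ} {c : Site d} {η η' : Env d}
    (hη : ∀ p : ℕ × Site d, t < p.1 ∧ p.1 ≤ t + 2 * h → η p = η' p)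
    (hC : sh t c η ∈ Cr d ρ β r b h) : sh t c η' ∈ Cr d ρ β r b h := by
  intro x x' hx hx' h1 h2
  have h3 := hC x x' hx hx' h1 h2
  rw [sh_sh, Nat.zero_add] at h3 ⊢
  have h4 : Vp ρ β (sh t (x + c) η) (2 * h) (x' - x) = Vp ρ β (sh t (x + c) η') (2 * h) (x' - x) :=
    dep_V_sh (ρ := ρ) (β := β) t (x + c) (toP (2 * h) (x' - x)) fun p hp => hη p hp
  rw [← h4]
  exact h3

/-- TASK CoC. `few_events` with `A i = {η | sh (2 (i h)) (c i) η ∈ Cr r b h}`,
`S i = {p | 2 (i h) < p.1 ∧ p.1 ≤ 2 ((i+1) h)}` (disjoint), probabilities by `real_sh`. Model: `seq_prob`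
(file `W_7d29a1_h3/ContraA.lean`). -/
theorem co_seq_prob {q r b : ℝ} (h0 : 0 ≤ q) {m h : ℕ} (hq : q ≤ (law d ρ).real (Cr d ρ β r b h))
    (c : ℕ → Site d) :
    (law d ρ).real {η : Env d | (Set.ncard {i | i ∈ Finset.range m ∧
      sh (2 * (i * h)) (c i) η ∈ Cr d ρ β r b h} : ℝ) < q / 8 * m} ≤ Real.exp (-(q * m / 2)) := by
  have key := few_events (ρ := ρ) (Finset.range m)
    (fun i => {η : Env d | sh (2 * (i * h)) (c i) η ∈ Cr d ρ β r b h})
    (fun i => {p | 2 * (i * h) < p.1 ∧ p.1 ≤ 2 * (i * h) + 2 * h}) ?_ ?_ ?_ h0 ?_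
  · rw [Finset.card_range] at key
    exact key
  · intro i _
    exact (measurable_sh (2 * (i * h)) (c i)) (measurableSet_Cr r b h)
  · intro i _ η η' hη
    exact ⟨fun H => CoC_dep (fun p hp => hη p hp) H,
      fun H => CoC_dep (fun p hp => (hη p hp).symm) H⟩
  · have hk : ∀ i j : ℕ, i < j → 2 * (i * h) + 2 * h ≤ 2 * (j * h) := by
      intro i j hij
      have e1 : (i + 1) * h ≤ j * h := Nat.mul_le_mul_right _ hij
      have e2 : (i + 1) * h = i * h + h := by ring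
      omega
    intro i _ j _ hij
    rw [Set.disjoint_left]
    rintro p ⟨h1, h2⟩ ⟨h3, h4⟩
    rcases Nat.lt_or_gt_of_ne hij with h5 | h5
    · have := hk i j h5
      omega
    · have := hk j i h5
      omega
  · intro i _
    have h1 := real_sh (ρ := ρ) (2 * (i * h)) (c i) (measurableSet_Cr (ρ := ρ) (β := β) (d := d) r b h)
    exact hq.trans h1.ge

/-- The union over the blocks of the thin tail event (11.3); model: `contra_range_union`, `contra_Win_sh` (file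
`W_7d29a1_h3/Contra.lean`). -/
theorem co_thin_prob {K W δ a p p0 : ℝ} {m h : ℕ}
    (hth : (law d ρ).real {η' : Env d | ∃ x y : Site d, Even (ln x) ∧ Even (ln y) ∧
      (sn x : ℝ) ≤ K * W ∧ (sn y : ℝ) ≤ K * W ∧
      Tle ρ β (sh 0 x η') h (y - x) (p / 2 * sn (y - x) - δ * a)} ≤ p0) :
    (law d ρ).real {η : Env d | ¬ ∀ i < m, ∀ x y : Site d, (sn x : ℝ) ≤ K * W → (sn y : ℝ) ≤ K * W →
      Even (ln x) → Even (ln y) →
      Vp ρ β (sh (2 * (i * h)) x η) (2 * h) (y - x) < Real.exp (δ * a - p / 2 * sn (y - x))} ≤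
      m * p0 := by
  obtain ⟨E, hE⟩ : ∃ E : Set (Env d), E = {η' : Env d | ∃ x y : Site d, Even (ln x) ∧ Even (ln y) ∧
      (sn x : ℝ) ≤ K * W ∧ (sn y : ℝ) ≤ K * W ∧
      Tle ρ β (sh 0 x η') h (y - x) (p / 2 * sn (y - x) - δ * a)} := ⟨_, rfl⟩
  rw [← hE] at hth
  have hEm : MeasurableSet E := by
    have h1 : E = ⋃ x : Site d, ⋃ y : Site d,
        {η' : Env d | Even (ln x) ∧ Even (ln y) ∧ (sn x : ℝ) ≤ K * W ∧ (sn y : ℝ) ≤ K * W ∧
          Tle ρ β (sh 0 x η') h (y - x) (p / 2 * sn (y - x) - δ * a)} := by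
      rw [hE]
      ext η
      simp only [Set.mem_ofPred_eq, Set.mem_iUnion]
    rw [h1]
    refine MeasurableSet.iUnion fun x => MeasurableSet.iUnion fun y => ?_
    have h2 : MeasurableSet {η' : Env d |
        Tle ρ β (sh 0 x η') h (y - x) (p / 2 * sn (y - x) - δ * a)} :=
      (measurable_sh 0 x) (measurableSet_Tle (ρ := ρ) (β := β) h (y - x) _)
    exact (MeasurableSet.const _).inter ((MeasurableSet.const _).inter
      ((MeasurableSet.const _).inter ((MeasurableSet.const _).inter h2)))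
  have hsub : {η : Env d | ¬ ∀ i < m, ∀ x y : Site d, (sn x : ℝ) ≤ K * W → (sn y : ℝ) ≤ K * W →
      Even (ln x) → Even (ln y) →
      Vp ρ β (sh (2 * (i * h)) x η) (2 * h) (y - x) < Real.exp (δ * a - p / 2 * sn (y - x))} ⊆
      ⋃ i ∈ Finset.range m, {η : Env d | sh (2 * (i * h)) 0 η ∈ E} := by
    intro η hη
    simp only [Set.mem_ofPred_eq] at hη
    push Not at hη
    obtain ⟨i, hi, x, y, hx, hy, hxe, hye, hV⟩ := hη
    simp only [Set.mem_iUnion, Finset.mem_range, exists_prop]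
    refine ⟨i, hi, ?_⟩
    rw [hE]
    refine ⟨x, y, hxe, hye, hx, hy, ?_⟩
    unfold Tle
    rw [sh_sh, Nat.zero_add, add_zero]
    have h1 : -(p / 2 * sn (y - x) - δ * a) = δ * a - p / 2 * sn (y - x) := by ring
    rw [h1]
    exact hV
  refine (measureReal_mono hsub (measure_ne_top _ _)).trans ?_
  refine (measureReal_biUnion_finset_le _ _).trans ?_
  have h3 : ∀ i ∈ Finset.range m, (law d ρ).real {η : Env d | sh (2 * (i * h)) 0 η ∈ E} ≤ p0 := by
    intro i _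
    rw [real_sh (2 * (i * h)) 0 hEm]
    exact hth
  refine (Finset.sum_le_sum h3).trans (le_of_eq ?_)
  simp

end Pool.Agent.W_7d29a1_q
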