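import Pool.Agent.W_7d29a1_h3.Luck
import Pool.Agent.W_7d29a1_q.Bas

/-!
Row 601, section 11: no far positions ((11.2), probability).
-/

namespace Pool.Agent.W_7d29a1_q

open MeasureTheory ProbabilityTheory Filter Topology Pool.Agent.W_MP_7d29a1_pr
  Pool.Agent.W_7d29a1_h46 Pool.Agent.W_7d29a1_h46u Pool.Agent.W_7d29a1_h3

variable {d : ℕ} {ρ : Measure ℝ} [IsProbabilityMeasure ρ] {β : ℝ}

omit [IsProbabilityMeasure ρ] in
private theorem CoD_sn_neg (y : Site d) : sn (-y) = sn y := by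
  unfold sn
  refine Finset.sup_congr rfl fun j _ => ?_
  rw [Pi.neg_apply, Int.natAbs_neg]

omit [IsProbabilityMeasure ρ] in
private theorem CoD_ln_neg (y : Site d) : ln (-y) = ln y := by
  unfold ln
  refine Finset.sum_congr rfl fun j _ => ?_
  rw [Pi.neg_apply, Int.natAbs_neg]

omit [IsProbabilityMeasure ρ] in
private theorem CoD_sn_zero : sn (0 : Site d) = 0 := by
  unfold sn
  refine Nat.le_zero.1 (Finset.sup_le fun j _ => ?_)
  simp

omit [IsProbabilityMeasure ρ] in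
private theorem CoD_ln_zero : Even (ln (0 : Site d)) := by
  have h : ln (0 : Site d) = 0 := by
    unfold ln
    simp
  rw [h]
  exact Even.zero

omit [IsProbabilityMeasure ρ] in
private theorem CoD_dim {y : Site d} (h : 0 < sn y) : Nonempty (Fin d) := by
  by_contra hne
  rw [not_nonempty_iff] at hne
  have h1 : sn y = 0 := by
    unfold sn
    rw [Finset.univ_eq_empty]
    rfl
  omega

/-- TASK CoD. Forward: `Tail_prob` with `s = 0`, `x = 0` and `v = κ Y`. -/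
theorem co_far_f {θ γ C r κ Y : ℝ} {h : ℕ} (hT : Tail d ρ β θ γ C r h) (hγ : 0 < γ) (hr : 0 ≤ r)
    (hκ : 0 < κ) :
    (law d ρ).real {η : Env d | ∃ t ≤ h, ∃ y : Site d, Even (ln y) ∧ Y < sn y ∧
      Real.exp (-((θ - κ) * sn y)) ≤ Vp ρ β η (2 * t) y} ≤ C * Real.exp (-(γ * (κ * Y))) := by
  refine le_trans (measureReal_mono ?_) (Tail_prob hT hγ (κ * Y))
  rintro η ⟨t, ht, y, hy, hY, h1⟩
  refine ⟨0, t, 0, y, Nat.zero_le t, ht, ?_, CoD_ln_zero, hy, ?_⟩
  · rw [CoD_sn_zero]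
    simpa using hr
  · unfold Tle
    rw [Nat.mul_zero, sh_zero, Nat.sub_zero, sub_zero]
    refine le_trans (Real.exp_le_exp.2 ?_) h1
    have h2 := mul_le_mul_of_nonneg_left hY.le hκ.le
    linarith

/-- Backward: time reversal as in `luck_back` (file `W_7d29a1_h3/Luck.lean`: copy its proof): `Vp_rev`, `mp_rev`,
`Tail_prob` with `v = κ Y / 2`, `bdry` with `κ Y / 2` (for `sn y > Y`: `κ sn y / 2 ≥ κ Y / 2`). -/
theorem co_far_b (hρ : EM ρ) (β : ℝ) : ∃ C5 : ℝ, 0 < C5 ∧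
    ∀ {θ γ C r κ Y : ℝ} {h N1 : ℕ}, Tail d ρ β θ γ C r h → 0 < γ → 0 ≤ r → 0 < κ → 0 < Y → N1 ≤ h →
    (law d ρ).real {η : Env d | ∃ s ≤ N1, ∃ y : Site d, Even (ln y) ∧ Y < sn y ∧
      Real.exp (-((θ - κ) * sn y)) ≤ Vp ρ β (sh (2 * s) y η) (2 * (N1 - s)) (-y)} ≤
      C * Real.exp (-(γ * (κ * Y / 2))) +
        C5 * (2 * (N1 : ℝ) + 1) ^ (d + 1) * Real.exp (-(κ * Y / 4)) := by
  obtain ⟨C5, hC5, hb⟩ := bdry (d := d) hρ β
  refine ⟨C5, hC5, ?_⟩
  intro θ γ C r κ Y h N1 hT hγ hr hκ hY hN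
  have hκY : 0 < κ * Y / 2 := by positivity
  set A : Set (Env d) := {η : Env d | ∃ (s t : ℕ) (x p : Site d), s ≤ t ∧ t ≤ h ∧ (sn x : ℝ) ≤ r ∧
      Even (ln x) ∧ Even (ln p) ∧
      Tle ρ β (sh (2 * s) x η) (t - s) (p - x) (θ * sn (p - x) - κ * Y / 2)} with hA
  set B : Set (Env d) := {η | ∃ l ≤ 2 * N1, ∃ y : Site d, sn y ≤ 2 * N1 ∧
    κ * Y / 2 < |β * (η (0, 0) - η (l, y))|} with hB
  have h1 : {η : Env d | ∃ s ≤ N1, ∃ y : Site d, Even (ln y) ∧ Y < sn y ∧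
      Real.exp (-((θ - κ) * sn y)) ≤ Vp ρ β (sh (2 * s) y η) (2 * (N1 - s)) (-y)} ⊆
      rev (2 * N1) 0 ⁻¹' (A ∪ B) := by
    rintro η ⟨s, hs, y, hy, hYy, h2⟩
    have e1 : 2 * N1 - 2 * (N1 - s) = 2 * s := by omega
    have e2 : (0 : Site d) - -y = y := by rw [zero_sub, neg_neg]
    have h3 := Vp_rev (ρ := ρ) (β := β) (by omega : 2 * (N1 - s) ≤ 2 * N1) 0 (-y) η
    rw [e1, e2] at h3
    rw [h3] at h2
    rw [Set.mem_preimage, Set.mem_union]
    set η' : Env d := rev (2 * N1) 0 η with hη'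
    by_cases hbig : κ * Y / 2 < |β * (η' (0, 0) - η' (2 * (N1 - s), -y))|
    · right
      refine ⟨2 * (N1 - s), by omega, -y, ?_, hbig⟩
      by_contra hsn
      have hy0 : 0 < sn y := by
        have h4 : (0 : ℝ) < sn y := hY.trans hYy
        exact_mod_cast h4
      obtain ⟨j0⟩ := CoD_dim hy0
      have hna : ¬ adm (2 * (N1 - s)) (-y) := by
        intro hadm
        have h4 := sn_le_ln (-y)
        have h5 := hadm.1
        omega
      rw [Vp_zero j0 η' hna, mul_zero] at h2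
      exact absurd h2 (not_le.2 (Real.exp_pos _))
    · left
      push Not at hbig
      refine ⟨0, N1 - s, 0, -y, Nat.zero_le _, (Nat.sub_le _ _).trans hN, ?_, CoD_ln_zero, ?_, ?_⟩
      · rw [CoD_sn_zero]
        simpa using hr
      · rw [CoD_ln_neg]
        exact hy
      · unfold Tle
        rw [Nat.mul_zero, sh_zero, Nat.sub_zero, sub_zero, CoD_sn_neg]
        have h4 : Real.exp (β * (η' (0, 0) - η' (2 * (N1 - s), -y))) ≤ Real.exp (κ * Y / 2) :=
          Real.exp_le_exp.2 ((le_abs_self _).trans hbig)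
        have h5 : Real.exp (-((θ - κ) * sn y)) ≤
            Real.exp (κ * Y / 2) * Vp ρ β η' (2 * (N1 - s)) (-y) :=
          h2.trans (mul_le_mul_of_nonneg_right h4 (V_nonneg η' _))
        have h6 : Real.exp (κ * Y / 2) * Real.exp (-(θ * sn y - κ * Y / 2)) ≤
            Real.exp (-((θ - κ) * sn y)) := by
          rw [← Real.exp_add, Real.exp_le_exp]
          have h7 := mul_le_mul_of_nonneg_left hYy.le hκ.le
          linarith
        exact le_of_mul_le_mul_left (h6.trans h5) (Real.exp_pos _)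
  have hmp := mp_rev (ρ := ρ) (d := d) (2 * N1) 0
  have h2 : (law d ρ).real (rev (2 * N1) 0 ⁻¹' (A ∪ B)) ≤ (law d ρ).real (A ∪ B) := by
    rw [measureReal_def, measureReal_def]
    exact ENNReal.toReal_mono (measure_ne_top _ _) (hmp.measure_preimage_le _)
  have hA' := Tail_prob hT hγ (κ * Y / 2)
  have hB' := hb (2 * N1) (κ * Y / 2) hκY.le
  have e3 : -(κ * Y / 2 / 2) = -(κ * Y / 4) := by ring
  have e4 : ((2 * N1 : ℕ) : ℝ) = 2 * (N1 : ℝ) := by push_cast; ring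
  rw [e3, e4] at hB'
  calc (law d ρ).real {η : Env d | ∃ s ≤ N1, ∃ y : Site d, Even (ln y) ∧ Y < sn y ∧
      Real.exp (-((θ - κ) * sn y)) ≤ Vp ρ β (sh (2 * s) y η) (2 * (N1 - s)) (-y)}
      ≤ (law d ρ).real (rev (2 * N1) 0 ⁻¹' (A ∪ B)) := measureReal_mono h1
    _ ≤ (law d ρ).real (A ∪ B) := h2
    _ ≤ (law d ρ).real A + (law d ρ).real B := measureReal_union_le _ _
    _ ≤ _ := add_le_add hA' hB'

end Pool.Agent.W_7d29a1_q
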