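import Pool.Agent.W_7d29a1_h3.Contra
import Pool.Agent.W_7d29a1_q.Bas

/-!
Row 601, section 11: constants.
-/

namespace Pool.Agent.W_7d29a1_q

open MeasureTheory ProbabilityTheory Filter Topology Pool.Agent.W_MP_7d29a1_pr
  Pool.Agent.W_7d29a1_h46 Pool.Agent.W_7d29a1_h46u Pool.Agent.W_7d29a1_h3

private theorem co_pick_base {s x : ℝ} (hs : 0 ≤ s) (hx : 1 ≤ x) (d : ℕ) :
    1 ≤ x * (s * x + 3) ^ d + 1 ∧
      Real.log (x * (s * x + 3) ^ d + 1) ≤ (d + 1 : ℝ) * (Real.log (s + 4) + Real.log x) := by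
  have hx0 : 0 < x := by linarith
  have h0 : 0 ≤ s * x + 3 := by positivity
  have hbase : 1 ≤ x * (s * x + 3) ^ d + 1 := by
    have : 0 ≤ x * (s * x + 3) ^ d := by positivity
    linarith
  have e1 : s * x + 3 ≤ (s + 3) * x := by
    have h2 : (s + 3) * x - (s * x + 3) = 3 * (x - 1) := by ring
    linarith
  have e2 : (s * x + 3) ^ d ≤ ((s + 3) * x) ^ d := pow_le_pow_left₀ h0 e1 d
  have e1' : 1 ≤ (s + 3) * x := by
    have : (1 : ℝ) * 1 ≤ (s + 3) * x := mul_le_mul (by linarith) hx zero_le_one (by linarith)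
    linarith
  have e4 : 1 ≤ ((s + 3) * x) ^ d := one_le_pow₀ e1'
  have e5 : x * (s * x + 3) ^ d + 1 ≤ ((s + 3) * x) ^ d * ((s + 4) * x) := by
    have f1 : x * (s * x + 3) ^ d ≤ x * ((s + 3) * x) ^ d := mul_le_mul_of_nonneg_left e2 hx0.le
    have f2 : (1 : ℝ) ≤ (s + 3) * x * ((s + 3) * x) ^ d := by
      have := mul_le_mul e1' e4 zero_le_one (by linarith)
      linarith
    have f3 : ((s + 3) * x) ^ d * ((s + 4) * x) =
        x * ((s + 3) * x) ^ d + (s + 3) * x * ((s + 3) * x) ^ d := by ring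
    linarith
  have e3 : ((s + 3) * x) ^ d ≤ ((s + 4) * x) ^ d := by
    refine pow_le_pow_left₀ (by linarith) ?_ d
    exact mul_le_mul_of_nonneg_right (by linarith) hx0.le
  have e6 : 0 ≤ (s + 4) * x := by positivity
  have hle : x * (s * x + 3) ^ d + 1 ≤ ((s + 4) * x) ^ (d + 1) := by
    rw [pow_succ]
    exact e5.trans (mul_le_mul_of_nonneg_right e3 e6)
  refine ⟨hbase, ?_⟩
  calc Real.log (x * (s * x + 3) ^ d + 1) ≤ Real.log (((s + 4) * x) ^ (d + 1)) :=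
        Real.log_le_log (by linarith) hle
    _ = (d + 1 : ℝ) * (Real.log (s + 4) + Real.log x) := by
        rw [Real.log_pow, Real.log_mul (by linarith) hx0.ne']
        push_cast
        ring

/-- TASK CoE. Pure analysis: `M = A ^ i = m ^ (1 - ε)` with `m = (A+1) ^ i`, `ε = eA A > 0`: for large `i` the
number of sequences is `≤ exp (C m ^ (1 - ε) log m)`. Model: `contra_ev_real`, `contra_pick` in the file
`W_7d29a1_h3/Contra.lean`. -/
theorem co_pick {A : ℕ} (hA : 2 ≤ A) {q s b L : ℝ} (hq : 0 < q) (hs : 0 ≤ s) (hb : 0 ≤ b) (d : ℕ) :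
    ∃ i : ℕ, 1 ≤ i ∧ L ≤ (A : ℝ) ^ i ∧
      ((((A + 1) ^ i : ℕ) : ℝ) * (s * (((A + 1) ^ i : ℕ) : ℝ) + 3) ^ d + 1) ^
        ⌊b * (A : ℝ) ^ i⌋₊ * Real.exp (-(q * (((A + 1) ^ i : ℕ) : ℝ) / 2)) ≤ 1 / 16 ∧
      7 * (A : ℝ) ^ i < (q / 8 * (((A + 1) ^ i : ℕ) : ℝ) - b * (A : ℝ) ^ i) / 32 := by
  have hA' : (2 : ℝ) ≤ A := by exact_mod_cast hA
  have hA1 : (0 : ℝ) < (A : ℝ) + 1 := by linarith
  have hr0 : 0 ≤ (A : ℝ) / (A + 1) := by positivity
  have hr1 : (A : ℝ) / (A + 1) < 1 := by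
    rw [div_lt_one hA1]
    linarith
  have t1 : Tendsto (fun i : ℕ => ((A : ℝ) / (A + 1)) ^ i) atTop (𝓝 0) :=
    tendsto_pow_atTop_nhds_zero_of_lt_one hr0 hr1
  have t2 : Tendsto (fun i : ℕ => (i : ℝ) * ((A : ℝ) / (A + 1)) ^ i) atTop (𝓝 0) :=
    tendsto_self_mul_const_pow_of_lt_one hr0 hr1
  have t3 : Tendsto (fun i : ℕ => ((A : ℝ) + 1) ^ i) atTop atTop :=
    tendsto_pow_atTop_atTop_of_one_lt (by linarith)
  have t4 : Tendsto (fun i : ℕ => (A : ℝ) ^ i) atTop atTop :=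
    tendsto_pow_atTop_atTop_of_one_lt (by linarith)
  have t5 : Tendsto (fun i : ℕ => b * (d + 1) * (Real.log (s + 4) * ((A : ℝ) / (A + 1)) ^ i +
      Real.log ((A : ℝ) + 1) * ((i : ℝ) * ((A : ℝ) / (A + 1)) ^ i)) +
        Real.log 16 / ((A : ℝ) + 1) ^ i) atTop (𝓝 0) := by
    have := (((t1.const_mul (Real.log (s + 4))).add
      (t2.const_mul (Real.log ((A : ℝ) + 1)))).const_mul (b * (d + 1))).add
        (t3.const_div_atTop (Real.log 16))
    simpa using this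
  have t6 : Tendsto (fun i : ℕ => (224 + b) * ((A : ℝ) / (A + 1)) ^ i) atTop (𝓝 0) := by
    simpa using t1.const_mul (224 + b)
  obtain ⟨i, h1, h2, h3, h4⟩ := ((eventually_ge_atTop 1).and ((t4.eventually_ge_atTop L).and
    ((t5.eventually_le_const (show (0 : ℝ) < q / 2 by positivity)).and
      (t6.eventually_lt_const (show (0 : ℝ) < q / 8 by positivity))))).exists
  have hx : (((A + 1) ^ i : ℕ) : ℝ) = ((A : ℝ) + 1) ^ i := by push_cast; ring
  refine ⟨i, h1, h2, ?_⟩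
  rw [hx]
  have hM : (A : ℝ) ^ i = ((A : ℝ) / (A + 1)) ^ i * ((A : ℝ) + 1) ^ i := by
    rw [← mul_pow, div_mul_cancel₀ _ hA1.ne']
  have hx1 : 1 ≤ ((A : ℝ) + 1) ^ i := one_le_pow₀ (by linarith)
  have hlx : Real.log (((A : ℝ) + 1) ^ i) = i * Real.log ((A : ℝ) + 1) := Real.log_pow _ _
  have hRi : 0 ≤ ((A : ℝ) / (A + 1)) ^ i := pow_nonneg hr0 i
  have hMi : 0 ≤ (A : ℝ) ^ i := by positivity
  generalize ((A : ℝ) + 1) ^ i = x at hM hx1 hlx h3 ⊢
  generalize ((A : ℝ) / (A + 1)) ^ i = R at hM hRi h3 h4 ⊢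
  have hx0 : 0 < x := by linarith
  refine ⟨?_, ?_⟩
  · obtain ⟨hbase, hlog⟩ := co_pick_base hs hx1 d
    have hfl : ((⌊b * (A : ℝ) ^ i⌋₊ : ℕ) : ℝ) ≤ b * (A : ℝ) ^ i :=
      Nat.floor_le (mul_nonneg hb hMi)
    have hl0 : 0 ≤ Real.log (x * (s * x + 3) ^ d + 1) := Real.log_nonneg hbase
    have h5 : (⌊b * (A : ℝ) ^ i⌋₊ : ℝ) * Real.log (x * (s * x + 3) ^ d + 1) ≤
        (b * (A : ℝ) ^ i) * ((d + 1 : ℝ) * (Real.log (s + 4) + Real.log x)) :=
      mul_le_mul hfl hlog hl0 (mul_nonneg hb hMi)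
    have h6 : (b * (d + 1) * (Real.log (s + 4) * R + Real.log ((A : ℝ) + 1) * (i * R)) +
        Real.log 16 / x) * x ≤ q / 2 * x := mul_le_mul_of_nonneg_right h3 hx0.le
    have h7 : (b * (d + 1) * (Real.log (s + 4) * R + Real.log ((A : ℝ) + 1) * (i * R)) +
        Real.log 16 / x) * x =
        (b * (R * x)) * ((d + 1 : ℝ) * (Real.log (s + 4) + i * Real.log ((A : ℝ) + 1))) +
          Real.log 16 := by
      have : Real.log 16 / x * x = Real.log 16 := div_mul_cancel₀ _ hx0.ne'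
      rw [add_mul, this]
      ring
    rw [h7, ← hM, ← hlx] at h6
    rw [← Real.exp_log (show 0 < x * (s * x + 3) ^ d + 1 by linarith), ← Real.exp_nat_mul,
      ← Real.exp_add]
    have h8 : (⌊b * (A : ℝ) ^ i⌋₊ : ℝ) * Real.log (x * (s * x + 3) ^ d + 1) +
        -(q * x / 2) ≤ -Real.log 16 := by
      have h9 : q / 2 * x = q * x / 2 := by ring
      linarith
    refine (Real.exp_le_exp.2 h8).trans (le_of_eq ?_)
    rw [Real.exp_neg, Real.exp_log (by norm_num), one_div]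
  · have h6 : (224 + b) * R * x < q / 8 * x := mul_lt_mul_of_pos_right h4 hx0
    have h7 : (224 + b) * R * x = 224 * (R * x) + b * (R * x) := by ring
    rw [h7, ← hM] at h6
    linarith

end Pool.Agent.W_7d29a1_q
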