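import Pool.Agent.W_7d29a1_q.Bas

/-!
Row 601, section 11: constants.
-/

namespace Pool.Agent.W_7d29a1_q

open MeasureTheory ProbabilityTheory Filter Topology Pool.Agent.W_MP_7d29a1_pr
  Pool.Agent.W_7d29a1_h46 Pool.Agent.W_7d29a1_h46u Pool.Agent.W_7d29a1_h3

/-- TASK CoF. The conditions on `N`: `a ≥ as d N ^ 4 = N ^ (1 / (10 (d+2)))` and `a ≤ am d N` against logarithms and
constants. -/
theorem co_ev (d m : ℕ) (L C5 κ : ℝ) (hκ : 0 < κ) (hC : 0 ≤ C5) (hm : 1 ≤ m) :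
    ∀ᶠ N : ℕ in atTop, 1 ≤ N ∧ ∀ (a : ℝ) (h : ℕ), as d N ^ 4 ≤ a → h ≤ N →
      1 ≤ a ∧ L ≤ a ∧ (m : ℝ) * d * Real.log (2 * ((m * (2 * h) : ℕ) : ℝ) + 1) ≤ a ∧
      C5 * (2 * ((m * h : ℕ) : ℝ) + 1) ^ (d + 1) * Real.exp (-(κ * a)) ≤ 1 / 32 := by
  have hm1 : (1 : ℝ) ≤ m := by exact_mod_cast hm
  have hm0 : (0 : ℝ) < m := by linarith
  have hd0 : (0 : ℝ) ≤ d := Nat.cast_nonneg d
  obtain ⟨e, he, has⟩ : ∃ e : ℝ, 0 < e ∧ ∀ N : ℕ, as d N ^ 4 = (N : ℝ) ^ e := by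
    refine ⟨1 / (40 * ((d : ℝ) + 2)) * 4, by positivity, fun N => ?_⟩
    rw [as, ← Real.rpow_natCast ((N : ℝ) ^ (1 / (40 * ((d : ℝ) + 2)))) 4, ← Real.rpow_mul (Nat.cast_nonneg N)]
    norm_num
  have hN : Tendsto (fun N : ℕ => (N : ℝ)) atTop atTop := tendsto_natCast_atTop_atTop
  have hNe : Tendsto (fun N : ℕ => (N : ℝ) ^ e) atTop atTop := (tendsto_rpow_atTop he).comp hN
  -- the logarithm
  have hε : (0 : ℝ) < 1 / (2 * (m * d) + 1) := by positivity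
  have e1 : ∀ᶠ N : ℕ in atTop, Real.log N ≤ 1 / (2 * (m * d) + 1) * (N : ℝ) ^ e := by
    have h := hN.eventually ((isLittleO_log_rpow_atTop he).def hε)
    filter_upwards [h, eventually_ge_atTop 1] with N h1 h2
    have h3 : (0 : ℝ) ≤ (N : ℝ) ^ e := by positivity
    rw [Real.norm_eq_abs, Real.norm_eq_abs, abs_of_nonneg h3] at h1
    exact (le_abs_self _).trans h1
  -- the exponential
  have e2 : ∀ᶠ N : ℕ in atTop,
      C5 * (3 * (m : ℝ)) ^ (d + 1) * ((N : ℝ) ^ (d + 1) * Real.exp (-(κ * (N : ℝ) ^ e))) ≤ 1 / 32 := by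
    have h := (tendsto_rpow_mul_exp_neg_mul_atTop_nhds_zero (((d : ℝ) + 1) / e) κ hκ).comp hNe
    have h1 : Tendsto (fun N : ℕ => C5 * (3 * (m : ℝ)) ^ (d + 1) *
        ((N : ℝ) ^ (d + 1) * Real.exp (-(κ * (N : ℝ) ^ e)))) atTop (𝓝 0) := by
      have h2 := h.const_mul (C5 * (3 * (m : ℝ)) ^ (d + 1))
      rw [mul_zero] at h2
      refine h2.congr fun N => ?_
      have h3 : ((N : ℝ) ^ e) ^ (((d : ℝ) + 1) / e) = (N : ℝ) ^ (d + 1) := by
        rw [← Real.rpow_mul (Nat.cast_nonneg N), mul_div_cancel₀ _ he.ne', ← Real.rpow_natCast]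
        push_cast
        rfl
      simp only [Function.comp_apply]
      rw [h3, neg_mul]
    exact h1.eventually (ge_mem_nhds (by norm_num))
  filter_upwards [eventually_ge_atTop 1, hNe.eventually_ge_atTop L, e1, e2,
    hNe.eventually_ge_atTop (2 * (m * d * Real.log (5 * m)))] with N hN1 hL he1 he2 hlog
  refine ⟨hN1, fun a h ha hh => ?_⟩
  rw [has N] at ha
  have hNr : (1 : ℝ) ≤ N := by exact_mod_cast hN1
  have hN0 : (0 : ℝ) < N := by linarith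
  have hhr : (h : ℝ) ≤ N := by exact_mod_cast hh
  have hh0 : (0 : ℝ) ≤ h := Nat.cast_nonneg h
  have hmN : (1 : ℝ) ≤ m * N := by nlinarith
  have hmh : (m : ℝ) * h ≤ m * N := mul_le_mul_of_nonneg_left hhr hm0.le
  have hmh0 : (0 : ℝ) ≤ m * h := by positivity
  have hNe1 : (1 : ℝ) ≤ (N : ℝ) ^ e := Real.one_le_rpow hNr he.le
  refine ⟨hNe1.trans ha, hL.trans ha, ?_, ?_⟩
  · refine le_trans ?_ ha
    have h1 : Real.log (2 * ((m * (2 * h) : ℕ) : ℝ) + 1) ≤ Real.log (5 * m) + Real.log N := by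
      rw [← Real.log_mul (by positivity) hN0.ne']
      refine Real.log_le_log (by positivity) ?_
      push_cast
      nlinarith
    have h2 : (m : ℝ) * d * Real.log (2 * ((m * (2 * h) : ℕ) : ℝ) + 1) ≤
        m * d * (Real.log (5 * m) + 1 / (2 * (m * d) + 1) * (N : ℝ) ^ e) :=
      mul_le_mul_of_nonneg_left (h1.trans (by linarith)) (by positivity)
    have h3 : (m : ℝ) * d * (1 / (2 * (m * d) + 1) * (N : ℝ) ^ e) ≤ 1 / 2 * (N : ℝ) ^ e := by
      rw [← mul_assoc]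
      refine mul_le_mul_of_nonneg_right ?_ (by linarith)
      rw [mul_one_div, div_le_iff₀ (by positivity)]
      nlinarith [mul_nonneg hm0.le hd0]
    linarith
  · have h1 : (2 * ((m * h : ℕ) : ℝ) + 1) ^ (d + 1) ≤ (3 * (m : ℝ)) ^ (d + 1) * (N : ℝ) ^ (d + 1) := by
      rw [← mul_pow]
      refine pow_le_pow_left₀ (by positivity) ?_ _
      push_cast
      nlinarith
    have h2 : Real.exp (-(κ * a)) ≤ Real.exp (-(κ * (N : ℝ) ^ e)) :=
      Real.exp_le_exp.2 (by nlinarith [mul_le_mul_of_nonneg_left ha hκ.le])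
    refine le_trans ?_ he2
    calc C5 * (2 * ((m * h : ℕ) : ℝ) + 1) ^ (d + 1) * Real.exp (-(κ * a))
        ≤ C5 * ((3 * (m : ℝ)) ^ (d + 1) * (N : ℝ) ^ (d + 1)) * Real.exp (-(κ * (N : ℝ) ^ e)) :=
          mul_le_mul (mul_le_mul_of_nonneg_left h1 hC) h2 (Real.exp_pos _).le (by positivity)
      _ = _ := by ring

end Pool.Agent.W_7d29a1_q
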