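import Pool.Agent.W_7d29a1_h3.CentreB
import Pool.Agent.W_7d29a1_q.Bas

/-!
Row 601, section 11: constants.
-/

namespace Pool.Agent.W_7d29a1_q

open MeasureTheory ProbabilityTheory Filter Topology Pool.Agent.W_MP_7d29a1_pr
  Pool.Agent.W_7d29a1_h46 Pool.Agent.W_7d29a1_h46u Pool.Agent.W_7d29a1_h3

/-- TASK CoG. The number of sequences of centres: `card_grid` and `count_seq` (files `W_7d29a1_h3/CentreB.lean`); model:
`contra_grid` in `W_7d29a1_h3/Contra.lean`. `W` = `K` times the unit, `R ≥ e W / 2`. -/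
theorem co_grid {d m R k : ℕ} {e K W s : ℝ} (he : 0 < e) (hW : 0 < W) (hK : 1 ≤ K) (hKm : K ≤ s / 8 * e * m)
    (hR : 0 < R) (hR1 : e * W / 2 ≤ R) (hR2 : (R : ℝ) ≤ W) (hm : 1 ≤ m) :
    ∃ F : Finset (ℕ → Site d), (F.card : ℝ) ≤ ((m : ℝ) * (s * m + 3) ^ d + 1) ^ k ∧
      ∀ c : ℕ → Site d, c 0 = 0 → (∀ i ≤ m, ∀ j, (R : ℤ) ∣ c i j) →
        (∀ i ≤ m, (sn (c i) : ℝ) ≤ K * W + R) → chg m c ≤ k → ∃ c' ∈ F, ∀ i ≤ m, c' i = c i := by
  classical
  have hRr : (0 : ℝ) < R := by exact_mod_cast hR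
  have hmr : (1 : ℝ) ≤ m := by exact_mod_cast hm
  set T : ℕ := ⌊K * W + R⌋₊ with hT
  have hT0 : (T : ℝ) ≤ K * W + R := Nat.floor_le (by positivity)
  obtain ⟨G, hG, hGc⟩ := card_grid (d := d) (R := R) (K := T) hR
  obtain ⟨F, hF, hFc⟩ := count_seq G (0 : Site d) m k
  refine ⟨F, ?_, ?_⟩
  · have h1 : (((2 * T / R + 1 : ℕ)) : ℝ) ≤ s * m + 3 := by
      have h2 : (((2 * T / R : ℕ)) : ℝ) ≤ (2 * T : ℝ) / R := by
        have := Nat.cast_div_le (α := ℝ) (m := 2 * T) (n := R)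
        push_cast at this
        exact this
      have h3 : (2 * T : ℝ) / R ≤ s * m + 2 := by
        rw [div_le_iff₀ hRr]
        have h4 : K * (e * W) ≤ (s / 8 * e * m) * (2 * R) :=
          mul_le_mul hKm (by linarith) (by positivity) (by linarith)
        have h5 : K * W ≤ s * m * R / 4 := by
          have h6 : e * (K * W) ≤ e * (s * m * R / 4) := by nlinarith
          exact le_of_mul_le_mul_left h6 he
        have h7 : 0 ≤ s * m * R := by
          have : 0 < K * W := by positivity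
          linarith
        nlinarith
      push_cast
      linarith
    have h8 : (G.card : ℝ) ≤ (s * m + 3) ^ d := by
      calc (G.card : ℝ) ≤ (((2 * T / R + 1) ^ d : ℕ) : ℝ) := by exact_mod_cast hG
        _ = (((2 * T / R + 1 : ℕ)) : ℝ) ^ d := by push_cast; rfl
        _ ≤ _ := pow_le_pow_left₀ (by positivity) h1 d
    calc (F.card : ℝ) ≤ (((m * G.card + 1) ^ k : ℕ) : ℝ) := by exact_mod_cast hF
      _ = ((m : ℝ) * G.card + 1) ^ k := by push_cast; rfl
      _ ≤ _ := by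
        refine pow_le_pow_left₀ (by positivity) ?_ k
        have := mul_le_mul_of_nonneg_left h8 (show (0 : ℝ) ≤ m by positivity)
        linarith
  · intro c h0 hd hs hk
    refine hFc c h0 (fun i hi => hGc _ (hd i hi) ?_) hk
    rw [hT]
    exact Nat.le_floor (hs i hi)

end Pool.Agent.W_7d29a1_q
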