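import Pool.Agent.W_7d29a1_q.Defs

/-!
Row 601: the statements of (9.2) and of Lemma 10 as properties of the constants.
-/

namespace Pool.Agent.W_7d29a1_q

open MeasureTheory ProbabilityTheory Filter Topology Pool.Agent.W_MP_7d29a1_pr
  Pool.Agent.W_7d29a1_h46 Pool.Agent.W_7d29a1_h46u Pool.Agent.W_7d29a1_h3

/-- (9.2) with the constants `q1, ε3, i00`: `blocks : ∃ q1 ε3 i00, BlkProp d Λ A q1 ε3 i00`. -/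
def BlkProp (d : ℕ) (Λ : ℝ) (A : ℕ) (q1 ε3 : ℝ) (i00 : ℕ) : Prop :=
  0 < q1 ∧ q1 ≤ 1 / 16 ∧ 0 < ε3 ∧ ε3 ≤ 1 / 16 ∧
    ∀ (ρ : Measure ℝ) [IsProbabilityMeasure ρ] (β c a0 : ℝ), EM ρ → ∀ᶠ N : ℕ in atTop,
      Sc d ρ β c a0 N → ∀ (i0 i1 : ℕ) (η : ℝ) (k : ℕ), i00 ≤ i0 → i00 ≤ i1 → 0 < η → η ≤ 1 / 16 →
      Gd d ρ β a0 Λ A N i0 i1 η k → ∃ h : ℕ, 1 ≤ h ∧ h ≤ nn d ρ β ((A : ℝ) ^ k) ∧
        q1 / 2 ≤ (law d ρ).real {η' : Env d | ∀ x x' : Site d, Even (ln x) → Even (ln x') →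
          (sn x : ℝ) ≤ 2 * ε3 * ((A : ℝ) ^ k / pr d ρ β (Λ * (A : ℝ) ^ (k + i1))) →
          (sn x' : ℝ) ≤ 2 * ε3 * ((A : ℝ) ^ k / pr d ρ β (Λ * (A : ℝ) ^ (k + i1))) →
          Vp ρ β (sh 0 x η') (2 * h) (x' - x) ≤ Real.exp (-((A : ℝ) ^ k / 32))}

/-- Lemma 10 with the constants `i00, η0`: `thinq : ∃ i00 η0, 0 < η0 ∧ ThinProp d Λ A δ p0 K i00 η0`. -/
def ThinProp (d : ℕ) (Λ : ℝ) (A : ℕ) (δ p0 K : ℝ) (i00 : ℕ) (η0 : ℝ) : Prop :=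
    ∀ (ρ : Measure ℝ) [IsProbabilityMeasure ρ] (β c a0 : ℝ), EM ρ → ∀ᶠ N : ℕ in atTop,
      Sc d ρ β c a0 N → ∀ (i0 i1 : ℕ) (η : ℝ) (k : ℕ), i00 ≤ i0 → i00 ≤ i1 → 0 < η → η ≤ η0 →
      Gd d ρ β a0 Λ A N i0 i1 η k → ∀ h : ℕ, 1 ≤ h → h ≤ nn d ρ β ((A : ℝ) ^ k) →
        (law d ρ).real {η' : Env d | ∃ x p : Site d, Even (ln x) ∧ Even (ln p) ∧
          (sn x : ℝ) ≤ K * ((A : ℝ) ^ k / pr d ρ β (Λ * (A : ℝ) ^ (k + i1))) ∧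
          (sn p : ℝ) ≤ K * ((A : ℝ) ^ k / pr d ρ β (Λ * (A : ℝ) ^ (k + i1))) ∧
          Tle ρ β (sh 0 x η') h (p - x)
            (pr d ρ β (Λ * (A : ℝ) ^ (k + i1)) / 2 * sn (p - x) - δ * (A : ℝ) ^ k)} ≤ p0

end Pool.Agent.W_7d29a1_q
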