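import Pool.Agent.W_7d29a1_q.CoA
import Pool.Agent.W_7d29a1_q.CoC
import Pool.Agent.W_7d29a1_q.CoD
import Pool.Agent.W_7d29a1_q.CoE
import Pool.Agent.W_7d29a1_q.CoF
import Pool.Agent.W_7d29a1_q.CoG
import Pool.Agent.W_7d29a1_q.CoP

/-!
Row 601, section 11: the contradiction.
-/

namespace Pool.Agent.W_7d29a1_q

open MeasureTheory ProbabilityTheory Filter Topology Pool.Agent.W_MP_7d29a1_pr
  Pool.Agent.W_7d29a1_h46 Pool.Agent.W_7d29a1_h46u Pool.Agent.W_7d29a1_h3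

variable {d : ℕ}

/-- The probabilistic part: some environment avoids all bad events. -/
private theorem Co_avoid {ρ : Measure ℝ} [IsProbabilityMeasure ρ] {b1 b2 b3 b4 b5 : Set (Env d)}
    (h1 : (law d ρ).real b1 ≤ 1 / 16) (h2 : (law d ρ).real b2 ≤ 1 / 32)
    (h3 : (law d ρ).real b3 ≤ 1 / 16) (h4 : (law d ρ).real b4 ≤ 1 / 16)
    (h5 : (law d ρ).real b5 ≤ 1 / 16) :
    ∃ η : Env d, η ∉ b1 ∧ η ∉ b2 ∧ η ∉ b3 ∧ η ∉ b4 ∧ η ∉ b5 := by
  by_contra hcon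
  push Not at hcon
  have hU : (b1 ∪ (b2 ∪ (b3 ∪ (b4 ∪ b5)))) = Set.univ := by
    ext η
    simp only [Set.mem_union, Set.mem_univ, iff_true]
    by_contra hn
    simp only [not_or] at hn
    obtain ⟨e1, e2, e3, e4, e5⟩ := hn
    exact e5 (hcon η e1 e2 e3 e4)
  have hle : (law d ρ).real (b1 ∪ (b2 ∪ (b3 ∪ (b4 ∪ b5)))) ≤
      (law d ρ).real b1 + ((law d ρ).real b2 + ((law d ρ).real b3 + ((law d ρ).real b4 +
        (law d ρ).real b5))) := by
    refine (measureReal_union_le _ _).trans (add_le_add le_rfl ?_)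
    refine (measureReal_union_le _ _).trans (add_le_add le_rfl ?_)
    refine (measureReal_union_le _ _).trans (add_le_add le_rfl ?_)
    exact measureReal_union_le _ _
  rw [hU, probReal_univ] at hle
  linarith

/-- `C11`. -/
private theorem Co_C11 {Λ g C3 : ℝ} (hΛ : 1 ≤ Λ) (hg : 0 < g) (hC3 : 1 ≤ C3) : ∃ C11 : ℝ, 5 ≤ C11 ∧
    ∀ x : ℝ, g / Λ * (C11 / 8) ≤ x → C3 * Real.exp (-x) ≤ 1 / 32 := by
  refine ⟨max 5 (8 * Λ / g * Real.log (32 * C3)), le_max_left _ _, fun x hx => ?_⟩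
  have h1 : Real.log (32 * C3) ≤ x := by
    refine le_trans ?_ hx
    have h2 := le_max_right (5 : ℝ) (8 * Λ / g * Real.log (32 * C3))
    have hΛ0 : 0 < Λ := by linarith
    calc Real.log (32 * C3) = g / Λ * ((8 * Λ / g * Real.log (32 * C3)) / 8) := by
          field_simp
      _ ≤ _ := by gcongr
  have h3 : Real.exp (-x) ≤ (32 * C3)⁻¹ := by
    rw [Real.exp_neg]
    refine inv_anti₀ (by positivity) ?_
    rw [← Real.exp_log (show 0 < 32 * C3 by positivity)]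
    exact Real.exp_le_exp.2 h1
  calc C3 * Real.exp (-x) ≤ C3 * (32 * C3)⁻¹ := by gcongr
    _ = 1 / 32 := by field_simp

/-- The lattice spacing. -/
private theorem Co_R {x : ℝ} (hx : 4 ≤ x) : ∃ R : ℕ, 0 < R ∧ Even R ∧ (R : ℝ) ≤ x ∧ x / 2 ≤ R := by
  refine ⟨2 * ⌊x / 2⌋₊, ?_, even_two_mul _, ?_, ?_⟩
  · have h1 : 2 ≤ ⌊x / 2⌋₊ := Nat.le_floor (by push_cast; linarith)
    omega
  · have h1 : ((⌊x / 2⌋₊ : ℕ) : ℝ) ≤ x / 2 := Nat.floor_le (by linarith)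
    push_cast
    linarith
  · have h1 := Nat.lt_floor_add_one (x / 2)
    push_cast
    linarith

/-- Section 11 from (9.2) and Lemma 10. -/
theorem contraq_of (j0 : Fin d) {Λ g C3 ε1 : ℝ} {A : ℕ} (hT : TailProp d Λ g C3 ε1)
    (hA : NLProp d Λ A) {q1 ε3 : ℝ} {i0b : ℕ} (hB : BlkProp d Λ A q1 ε3 i0b)
    (hTh : ∀ δ p0 K : ℝ, 0 < δ → δ < 1 → 0 < p0 → p0 < 1 → 1 ≤ K →
      ∃ (i00 : ℕ) (η0 : ℝ), 0 < η0 ∧ ThinProp d Λ A δ p0 K i00 η0) :
    ∃ (i0 i1 : ℕ) (η : ℝ), 0 < η ∧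
    ∀ (ρ : Measure ℝ) [IsProbabilityMeasure ρ] (β c a0 : ℝ), EM ρ → ∀ᶠ N : ℕ in atTop,
      Sc d ρ β c a0 N → ∀ k : ℕ, ¬ Gd d ρ β a0 Λ A N i0 i1 η k := by
  obtain ⟨hΛ, hg, hC3, hε1, hε1', hTail⟩ := hT
  obtain ⟨hA2, -⟩ := hA
  obtain ⟨hq1, hq1', hε3, hε3', hBlk⟩ := hB
  have hΛ0 : 0 < Λ := by linarith
  have hA1 : (1 : ℝ) ≤ A := by exact_mod_cast (show 1 ≤ A by omega)
  have hA0 : (0 : ℝ) < A := by linarith
  obtain ⟨C11, hC11, hexp⟩ := Co_C11 hΛ hg hC3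
  obtain ⟨s, hs⟩ : ∃ s : ℝ, s = 8 * C11 / ε3 := ⟨_, rfl⟩
  obtain ⟨b, hb⟩ : ∃ b : ℝ, b = 24 / ε3 := ⟨_, rfl⟩
  have hs0 : 0 ≤ s := by rw [hs]; positivity
  have hb0 : 0 ≤ b := by rw [hb]; positivity
  obtain ⟨im, him, -, hpick1, hpick2⟩ := co_pick hA2 (q := q1 / 2) (s := s) (b := b) (L := 1)
    (by positivity) hs0 hb0 d
  obtain ⟨m, hm⟩ : ∃ m : ℕ, m = (A + 1) ^ im := ⟨_, rfl⟩
  obtain ⟨M, hM⟩ : ∃ M : ℝ, M = (A : ℝ) ^ im := ⟨_, rfl⟩
  rw [← hm, ← hM] at hpick1 hpick2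
  have hm1n : 1 ≤ m := by rw [hm]; exact Nat.one_le_pow _ _ (by omega)
  have hm1 : (1 : ℝ) ≤ m := by exact_mod_cast hm1n
  have hm0 : (0 : ℝ) < m := by linarith
  have hM1 : 1 ≤ M := by rw [hM]; exact one_le_pow₀ hA1
  have hM0 : 0 < M := by linarith
  have hMm : M < m := by
    rw [hM, hm]
    push_cast
    exact pow_lt_pow_left₀ (by linarith) hA0.le (by omega)
  obtain ⟨K, hK⟩ : ∃ K : ℝ, K = C11 * m := ⟨_, rfl⟩
  have hK5 : 5 * M ≤ K := by rw [hK]; nlinarith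
  have hK1 : 1 ≤ K := by linarith
  obtain ⟨δ, hδ⟩ : ∃ δ : ℝ, δ = M / m := ⟨_, rfl⟩
  have hδ0 : 0 < δ := by rw [hδ]; positivity
  have hδ1 : δ < 1 := by rw [hδ, div_lt_one hm0]; exact hMm
  have hmδ : m * δ = M := by rw [hδ]; field_simp
  obtain ⟨i0t, η0, hη0, hthin⟩ := hTh δ (1 / (16 * m)) K hδ0 hδ1 (by positivity)
    (by rw [div_lt_one (by positivity)]; linarith) hK1
  obtain ⟨i0, hi0⟩ : ∃ i0 : ℕ, i0 = max i0b i0t := ⟨_, rfl⟩
  obtain ⟨i1, hi1⟩ : ∃ i1 : ℕ, i1 = max (max i0b i0t) (2 * im) := ⟨_, rfl⟩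
  obtain ⟨η, hη⟩ : ∃ η : ℝ, η = min (1 / 16) η0 := ⟨_, rfl⟩
  have hη1 : 0 < η := by rw [hη]; exact lt_min (by norm_num) hη0
  refine ⟨i0, i1, η, hη1, ?_⟩
  intro ρ _ β c a0 hρ
  obtain ⟨C5, hC5, hfar⟩ := co_far_b (d := d) hρ β
  filter_upwards [hTail ρ β c a0 hρ, hBlk ρ β c a0 hρ, hthin ρ β c a0 hρ,
    co_ev d m (max a0 (4 * a0 / ε3)) C5 (K / 16) (by positivity) hC5.le hm1n]
    with N e1 e2 e3 e4 S k G
  obtain ⟨hN1, e4⟩ := e4
  obtain ⟨a, ha⟩ : ∃ a : ℝ, a = (A : ℝ) ^ k := ⟨_, rfl⟩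
  obtain ⟨p, hp⟩ : ∃ p : ℝ, p = pr d ρ β (Λ * (A : ℝ) ^ (k + i1)) := ⟨_, rfl⟩
  obtain ⟨h, hh1, hhn, hprob⟩ := e2 S i0 i1 η k (by rw [hi0]; exact le_max_left _ _)
    (by rw [hi1]; exact (le_max_left _ _).trans (le_max_left _ _)) hη1
    (by rw [hη]; exact min_le_left _ _) G
  have e3' := e3 S i0 i1 η k (by rw [hi0]; exact le_max_right _ _)
    (by rw [hi1]; exact (le_max_right _ _).trans (le_max_left _ _)) hη1
    (by rw [hη]; exact min_le_right _ _) G h hh1 hhn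
  rw [← ha, ← hp] at hprob e3'
  rw [← ha] at hhn
  -- the budgets
  have hpow : ∀ {i j : ℕ}, i ≤ j → (A : ℝ) ^ i ≤ (A : ℝ) ^ j := fun hij =>
    pow_le_pow_right₀ hA1 hij
  have hmA : (m : ℝ) ≤ (A : ℝ) ^ i1 := by
    calc (m : ℝ) = ((A : ℝ) + 1) ^ im := by rw [hm]; push_cast; ring
      _ ≤ ((A : ℝ) ^ 2) ^ im := by
          gcongr
          have : (2 : ℝ) ≤ A := by exact_mod_cast hA2
          nlinarith
      _ = (A : ℝ) ^ (2 * im) := by rw [pow_mul]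
      _ ≤ (A : ℝ) ^ i1 := hpow (by rw [hi1]; exact le_max_right _ _)
  have ha1 : 1 ≤ a := by rw [ha]; exact one_le_pow₀ hA1
  have ha0' : 0 < a := by linarith
  have hmaA : (m : ℝ) * a ≤ (A : ℝ) ^ (k + i1) := by
    rw [pow_add, mul_comm, ← ha]
    gcongr
  have hΛA : Λ * (A : ℝ) ^ (k + i1) ≤ am d N := by
    refine le_trans ?_ G.hi
    exact mul_le_mul_of_nonneg_left (hpow (by omega)) hΛ0.le
  have hΛma : Λ * (m * a) ≤ Λ * (A : ℝ) ^ (k + i1) := by gcongr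
  have hΛma' : Λ * (m * a) ≤ am d N := hΛma.trans hΛA
  have hma_am : m * a ≤ am d N := by
    refine le_trans ?_ hΛma'
    have : 0 < m * a := by positivity
    nlinarith
  have ha_ma : a ≤ m * a := le_mul_of_one_le_left ha0'.le hm1
  have ha_am : a ≤ am d N := ha_ma.trans hma_am
  have has : as d N ^ 4 ≤ a := by
    refine G.lo.trans ?_
    rw [ha]
    exact hpow (by omega)
  have hnnN := nn_lt S ha0'.le ha_am
  obtain ⟨-, hL, hlogN, hexpN⟩ := e4 a h has (by omega)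
  have ha0 : a0 ≤ a := (le_max_left _ _).trans hL
  have hLa : 4 * a0 / ε3 ≤ a := (le_max_right _ _).trans hL
  have hA_a : a ≤ (A : ℝ) ^ (k + i1) := ha_ma.trans hmaA
  have ha0Λ : a0 ≤ Λ * (A : ℝ) ^ (k + i1) := by
    refine ha0.trans (hA_a.trans ?_)
    have : (0 : ℝ) < (A : ℝ) ^ (k + i1) := by positivity
    nlinarith
  have ha0ma : a0 ≤ Λ * (m * a) := by
    refine ha0.trans (ha_ma.trans ?_)
    have : 0 < m * a := by positivity
    nlinarith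
  have hp0 : 0 < p := by rw [hp]; exact pr_pos S hN1 ha0Λ hΛA
  have hpa0 : p ≤ a0 := by rw [hp]; exact S.hi _ ha0Λ hΛA
  obtain ⟨W, hW⟩ : ∃ W : ℝ, W = a / p := ⟨_, rfl⟩
  rw [← hW] at hprob e3'
  have hW0 : 0 < W := by rw [hW]; positivity
  have hpW : p * W = a := by rw [hW]; field_simp
  have hεW : 4 ≤ ε3 * W := by
    rw [hW, mul_div_assoc', le_div_iff₀ hp0]
    rw [div_le_iff₀ hε3] at hLa
    linarith
  obtain ⟨R, hR0, hRe, hR1, hR2⟩ := Co_R hεW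
  -- the tails at the budget `m a`
  have hRg : Rg d ρ β a0 (1 / 4) (Λ * (m * a)) := by
    refine Rg_mono S hN1 hΛma' ?_ (G.reg _ ?_ hΛma)
    · unfold dl
      exact min_le_left _ _
    · calc (A : ℝ) ^ (k - i0) ≤ (A : ℝ) ^ k := hpow (by omega)
        _ ≤ m * a := by rw [← ha]; exact ha_ma
        _ ≤ Λ * (m * a) := by
            have : 0 < m * a := by positivity
            nlinarith
  have has1 : 1 ≤ as d N := by
    unfold as
    exact Real.one_le_rpow (by exact_mod_cast hN1) (by positivity)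
  have has' : as d N ≤ m * a := by
    calc as d N ≤ as d N ^ 4 := le_self_pow₀ has1 (by norm_num)
      _ ≤ a := has
      _ ≤ m * a := ha_ma
  have hTl := e1 S (m * a) has' hΛma' hRg
  have hθ : 3 / 4 * p ≤ 3 / 4 * pr d ρ β (Λ * (m * a)) := by
    have := pr_anti S ha0ma hΛma hΛA
    rw [← hp] at this
    linarith
  have hγ : 0 < g / (Λ * (m * a)) := by positivity
  have hr : 0 ≤ ε1 * WW d ρ β (Λ * (m * a)) := by
    have := pr_pos S hN1 ha0ma hΛma'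
    unfold WW
    positivity
  have hmh : m * h ≤ nn d ρ β (m * a) :=
    (Nat.mul_le_mul_left m hhn).trans (nn_mul j0 hρ S ha0'.le m hma_am)
  have hκ : 0 < p / 4 := by positivity
  have hKW : 0 < K * W := by positivity
  have hval : g / (Λ * (m * a)) * (p / 4 * (K * W)) = g / Λ * (C11 / 4) := by
    have : p / 4 * (K * W) = C11 * m * a / 4 := by
      rw [hK, ← hpW]
      ring
    rw [this]
    field_simp
  -- bad events
  have b1 : (law d ρ).real {η : Env d | ¬ Tle ρ β η (m * h) 0 (4 * (M * a))} ≤ 1 / 16 := by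
    have h1 : m * h ≤ (A + 1) ^ im * nn d ρ β ((A : ℝ) ^ k) := by
      rw [← hm, ← ha]
      exact Nat.mul_le_mul_left m hhn
    have h2 := wait_cheb (ρ := ρ) (β := β) j0 hρ h1 (w := 4 * (M * a)) (by positivity)
    refine h2.trans ?_
    have h3 := G.nl im (by rw [hi1]; exact le_trans (by omega) (le_max_right _ _))
    have h4 : SS d ρ β ((A + 1) ^ im * nn d ρ β ((A : ℝ) ^ k)) ≤ M * a := by
      rw [hM, ha, ← pow_add, add_comm im k]
      exact h3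
    have h5 : 0 ≤ SS d ρ β ((A + 1) ^ im * nn d ρ β ((A : ℝ) ^ k)) :=
      SS_nonneg (d := d) (ρ := ρ) (β := β) _
    have h6 : SS d ρ β ((A + 1) ^ im * nn d ρ β ((A : ℝ) ^ k)) / (4 * (M * a)) ≤ 1 / 4 := by
      rw [div_le_iff₀ (by positivity)]
      linarith
    calc (SS d ρ β ((A + 1) ^ im * nn d ρ β ((A : ℝ) ^ k)) / (4 * (M * a))) ^ 2 ≤ (1 / 4) ^ 2 := by
          gcongr
      _ = 1 / 16 := by norm_num
  have b2 := co_far_f hTl hγ hr hκ (Y := K * W)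
  have b3 := hfar hTl hγ hr hκ hKW hmh
  have b4 := co_thin_prob (m := m) e3'
  have hb2 : C3 * Real.exp (-(g / (Λ * (m * a)) * (p / 4 * (K * W)))) ≤ 1 / 32 := by
    refine hexp _ ?_
    rw [hval]
    have : 0 < g / Λ := by positivity
    nlinarith
  have hb3 : C3 * Real.exp (-(g / (Λ * (m * a)) * (p / 4 * (K * W) / 2))) +
      C5 * (2 * ((m * h : ℕ) : ℝ) + 1) ^ (d + 1) * Real.exp (-(p / 4 * (K * W) / 4)) ≤ 1 / 16 := by
    have h1 : C3 * Real.exp (-(g / (Λ * (m * a)) * (p / 4 * (K * W) / 2))) ≤ 1 / 32 := by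
      refine hexp _ (le_of_eq ?_)
      have : g / (Λ * (m * a)) * (p / 4 * (K * W) / 2) =
        g / (Λ * (m * a)) * (p / 4 * (K * W)) / 2 := by ring
      rw [this, hval]
      ring
    have h2 : p / 4 * (K * W) / 4 = K / 16 * a := by
      rw [← hpW]
      ring
    rw [h2]
    linarith
  have hb4 : (m : ℝ) * (1 / (16 * m)) = 1 / 16 := by field_simp
  obtain ⟨F, hF1, hF2⟩ := co_grid (d := d) (k := ⌊b * M⌋₊) (s := s) hε3 hW0 hK1
    (by rw [hK, hs]; field_simp; exact le_rfl) hR0 (by linarith) (by nlinarith) hm1n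
  have hq : q1 / 2 ≤ (law d ρ).real (Cr d ρ β (2 * ε3 * W) (a / 32) h) := hprob
  have b5 : (law d ρ).real {η : Env d | ∃ c ∈ F, (Set.ncard {i | i ∈ Finset.range m ∧
      sh (2 * (i * h)) (c i) η ∈ Cr d ρ β (2 * ε3 * W) (a / 32) h} : ℝ) < q1 / 2 / 8 * m} ≤
      1 / 16 := by
    have h1 : {η : Env d | ∃ c ∈ F, (Set.ncard {i | i ∈ Finset.range m ∧
      sh (2 * (i * h)) (c i) η ∈ Cr d ρ β (2 * ε3 * W) (a / 32) h} : ℝ) < q1 / 2 / 8 * m} =
        ⋃ c ∈ F, {η : Env d | (Set.ncard {i | i ∈ Finset.range m ∧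
      sh (2 * (i * h)) (c i) η ∈ Cr d ρ β (2 * ε3 * W) (a / 32) h} : ℝ) < q1 / 2 / 8 * m} := by
      ext η
      simp only [Set.mem_ofPred_eq, Set.mem_iUnion, exists_prop]
    rw [h1]
    refine (measureReal_biUnion_finset_le _ _).trans ?_
    refine (Finset.sum_le_sum fun c _ => co_seq_prob (by positivity) hq c).trans ?_
    rw [Finset.sum_const, nsmul_eq_mul]
    exact (mul_le_mul_of_nonneg_right hF1 (Real.exp_pos _).le).trans hpick1
  obtain ⟨ω, g1, g2, g3, g4, g5⟩ := Co_avoid b1 (b2.trans hb2) (b3.trans hb3)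
    (b4.trans (le_of_eq hb4)) b5
  -- the deterministic part
  have hexpθ : ∀ y : Site d, Real.exp (-((3 / 4 * pr d ρ β (Λ * (m * a)) - p / 4) * sn y)) ≤
      Real.exp (-(p / 2 * sn y)) := by
    intro y
    refine Real.exp_le_exp.2 (neg_le_neg ?_)
    refine mul_le_mul_of_nonneg_right ?_ (Nat.cast_nonneg _)
    linarith
  have d1 : Real.exp (-(4 * (M * a))) ≤ Vp ρ β ω (2 * (m * h)) 0 := not_not.1 g1
  have d2 : ∀ i ≤ m, ∀ y : Site d, Even (ln y) → K * W < sn y →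
      Vp ρ β ω (2 * (i * h)) y < Real.exp (-(p / 2 * sn y)) := by
    intro i hi y hye hy
    by_contra hcon
    refine g2 ⟨i * h, (Nat.mul_le_mul_right h hi).trans hmh, y, hye, hy, ?_⟩
    exact (hexpθ y).trans (not_lt.1 hcon)
  have d3 : ∀ i ≤ m, ∀ y : Site d, Even (ln y) → K * W < sn y →
      Vp ρ β (sh (2 * (i * h)) y ω) (2 * ((m - i) * h)) (-y) < Real.exp (-(p / 2 * sn y)) := by
    intro i hi y hye hy
    by_contra hcon
    refine g3 ⟨i * h, Nat.mul_le_mul_right h hi, y, hye, hy, ?_⟩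
    have h1 : m * h - i * h = (m - i) * h := (Nat.sub_mul m i h).symm
    rw [h1]
    exact (hexpθ y).trans (not_lt.1 hcon)
  have d4 := not_not.1 g4
  have hk1 : 5 * (M * a) ≤ p * (K * W) := by
    calc 5 * (M * a) = 5 * M * a := by ring
      _ ≤ K * a := by gcongr
      _ = p * (K * W) := by rw [← hpW]; ring
  have hk2 : 4 * (M * a) + m * d * Real.log (2 * ((m * (2 * h) : ℕ) : ℝ) + 1) ≤ 5 * (M * a) := by
    have : a ≤ M * a := le_mul_of_one_le_left ha0'.le hM1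
    linarith
  obtain ⟨x, hx0, hx1, hx2, hx3, hx4⟩ := co_path j0 hp0 ω (u := 4 * (M * a)) (u' := 5 * (M * a))
    hW0.le (by linarith) hk1 hk2 d1 d2 d3 d4
  have hmδa : (m : ℝ) * (δ * a) = M * a := by rw [← mul_assoc, hmδ]
  obtain ⟨c', hc0, hc1, hc2, hc3, hc4⟩ := co_seq j0 hp0 ω (r := 2 * ε3 * W) (b := a / 32) hKW.le
    (by positivity) (by positivity) hR0 hRe (by linarith) x hx0 hx1 hx2 hx3 hx4
  have hchg : chg m c' ≤ ⌊b * M⌋₊ := by
    refine Nat.le_floor ?_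
    rw [hmδa] at hc3
    have h1 : p / 2 * ((chg m c' : ℝ) * (ε3 * W / 2)) ≤ 6 * (M * a) := by
      refine le_trans ?_ (hc3.trans (le_of_eq (by ring)))
      gcongr
    have h2 : p / 2 * ((chg m c' : ℝ) * (ε3 * W / 2)) = (chg m c' : ℝ) * ε3 / 4 * a := by
      rw [← hpW]
      ring
    rw [h2] at h1
    have h3 : (chg m c' : ℝ) * ε3 / 4 ≤ 6 * M := by
      refine le_of_mul_le_mul_right ?_ ha0'
      linarith
    rw [hb, div_mul_eq_mul_div, le_div_iff₀ hε3]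
    linarith
  obtain ⟨c'', hc''F, hc''⟩ := hF2 c' hc0 hc1 hc2 hchg
  have hmany : q1 / 2 / 8 * m ≤ (Set.ncard {i | i ∈ Finset.range m ∧
      sh (2 * (i * h)) (c' i) ω ∈ Cr d ρ β (2 * ε3 * W) (a / 32) h} : ℝ) := by
    have h1 : ¬ ((Set.ncard {i | i ∈ Finset.range m ∧
      sh (2 * (i * h)) (c'' i) ω ∈ Cr d ρ β (2 * ε3 * W) (a / 32) h} : ℝ) < q1 / 2 / 8 * m) :=
      fun h => g5 ⟨c'', hc''F, h⟩
    have h2 : {i | i ∈ Finset.range m ∧
        sh (2 * (i * h)) (c'' i) ω ∈ Cr d ρ β (2 * ε3 * W) (a / 32) h} =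
        {i | i ∈ Finset.range m ∧
        sh (2 * (i * h)) (c' i) ω ∈ Cr d ρ β (2 * ε3 * W) (a / 32) h} := by
      ext i
      simp only [Set.mem_ofPred_eq, and_congr_right_iff]
      intro hi
      rw [hc'' i (Finset.mem_range.1 hi).le]
    rw [h2] at h1
    exact not_lt.1 h1
  have hfin := hc4 (q1 / 2) ⌊b * M⌋₊ hchg hmany
  rw [hmδa] at hfin
  have hkM : ((⌊b * M⌋₊ : ℕ) : ℝ) ≤ b * M := Nat.floor_le (by positivity)
  have h1 : (q1 / 2 / 8 * m - b * M) * (a / 32) ≤ 6 * (M * a) := by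
    have h2 : (q1 / 2 / 8 * m - b * M) * (a / 32) ≤
        (q1 / 2 / 8 * m - (⌊b * M⌋₊ : ℕ)) * (a / 32) := by gcongr
    linarith
  have h2 : (q1 / 2 / 8 * m - b * M) / 32 ≤ 6 * M := by
    refine le_of_mul_le_mul_right ?_ ha0'
    linarith
  linarith

end Pool.Agent.W_7d29a1_q
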