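import Pool.Agent.W_7d29a1_h3.DetA
import Pool.Agent.W_7d29a1_q.Bas

/-!
Row 601, section 11: the positions at the block times ((11.1) - (11.3), deterministic part).
-/

namespace Pool.Agent.W_7d29a1_q

open MeasureTheory ProbabilityTheory Filter Topology Pool.Agent.W_MP_7d29a1_pr
  Pool.Agent.W_7d29a1_h46 Pool.Agent.W_7d29a1_h46u Pool.Agent.W_7d29a1_h3

variable {d : ℕ} {ρ : Measure ℝ} {β : ℝ}

/-- The product of consecutive blocks is at most the weight of the joined block. -/
private theorem CoA_chain (η : Env d) (N1 : ℕ) (x : ℕ → Site d) (i : ℕ) {k : ℕ} (hk : 1 ≤ k) :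
    ∏ j ∈ Finset.range k,
        Vp ρ β (sh ((i + j) * N1) (x (i + j)) η) N1 (x (i + j + 1) - x (i + j)) ≤
      Vp ρ β (sh (i * N1) (x i) η) (k * N1) (x (i + k) - x i) := by
  induction k, hk using Nat.le_induction with
  | base => simp
  | succ k hk ih =>
    rw [Finset.prod_range_succ]
    have h1 : 0 ≤ Vp ρ β (sh ((i + k) * N1) (x (i + k)) η) N1 (x (i + k + 1) - x (i + k)) :=
      V_nonneg _ _
    refine (mul_le_mul_of_nonneg_right ih h1).trans ?_
    have h2 := Vp_add (ρ := ρ) (β := β) (sh (i * N1) (x i) η) (k * N1) N1 (x (i + k) - x i)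
      (x (i + k + 1) - x (i + k))
    rw [sh_sh] at h2
    have e1 : k * N1 + i * N1 = (i + k) * N1 := by ring
    have e2 : x (i + k) - x i + x i = x (i + k) := by abel
    have e3 : k * N1 + N1 = (k + 1) * N1 := by ring
    have e4 : x (i + k) - x i + (x (i + k + 1) - x (i + k)) = x (i + (k + 1)) - x i := by
      rw [show i + (k + 1) = i + k + 1 by ring]
      abel
    rw [e1, e2, e3, e4] at h2
    exact h2

private theorem CoA_adm {N1 : ℕ} {x : ℕ → Site d} {m : ℕ} (h0 : x 0 = 0)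
    (ha : ∀ i < m, adm N1 (x (i + 1) - x i)) : ∀ i ≤ m, adm (i * N1) (x i) := by
  intro i
  induction i with
  | zero =>
    intro _
    rw [h0]
    constructor
    · simp [ln]
    · simp [ln]
  | succ i ih =>
    intro hi
    have h1 := adm_add (ih (by omega)) (ha i (by omega))
    have e1 : i * N1 + N1 = (i + 1) * N1 := by ring
    have e2 : x i + (x (i + 1) - x i) = x (i + 1) := by abel
    rw [e1, e2] at h1
    exact h1

/-- TASK CoA. Adaptation of `det_path` (file `W_7d29a1_h3/DetA.lean`: copy its proof). `W = a / π`. `block_exists` for the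
blocks of length `2 h`; `T i = -log Vp (block i)`, `∑ T i ≤ u + m d log (...) ≤ u'`. For `i ≤ m` the products of
the first `i` and of the last `m - i` blocks are at most `Vp η (2 (i h)) (x i)` and
`Vp (sh (2 (i h)) (x i) η) (2 ((m - i) h)) (- x i)` (`Vp_add`), so `sn (x i) > K W` gives with `hf, hb`
`π K W < π sn (x i) < u'`, a contradiction to `hK`. Then `h3`. -/
theorem co_path (j0 : Fin d) {p : ℝ} (hp : 0 < p) (η : Env d) {m h : ℕ} {K W δ a u u' : ℝ}
    (hW : 0 ≤ W) (hK0 : 0 ≤ K) (hK : u' ≤ p * (K * W))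
    (hlog : u + (m : ℝ) * d * Real.log (2 * ((m * (2 * h) : ℕ) : ℝ) + 1) ≤ u')
    (h1 : Real.exp (-u) ≤ Vp ρ β η (2 * (m * h)) 0)
    (hf : ∀ i ≤ m, ∀ y : Site d, Even (ln y) → K * W < sn y →
      Vp ρ β η (2 * (i * h)) y < Real.exp (-(p / 2 * sn y)))
    (hb : ∀ i ≤ m, ∀ y : Site d, Even (ln y) → K * W < sn y →
      Vp ρ β (sh (2 * (i * h)) y η) (2 * ((m - i) * h)) (-y) < Real.exp (-(p / 2 * sn y)))
    (h3 : ∀ i < m, ∀ x y : Site d, (sn x : ℝ) ≤ K * W → (sn y : ℝ) ≤ K * W → Even (ln x) →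
      Even (ln y) →
      Vp ρ β (sh (2 * (i * h)) x η) (2 * h) (y - x) < Real.exp (δ * a - p / 2 * sn (y - x))) :
    ∃ x : ℕ → Site d, x 0 = 0 ∧ (∀ i ≤ m, (sn (x i) : ℝ) ≤ K * W ∧ Even (ln (x i))) ∧
      (∀ i < m, adm (2 * h) (x (i + 1) - x i)) ∧
      (∀ i < m, p / 2 * sn (x (i + 1) - x i) - δ * a ≤
        -Real.log (Vp ρ β (sh (2 * (i * h)) (x i) η) (2 * h) (x (i + 1) - x i))) ∧
      ∑ i ∈ Finset.range m,
        -Real.log (Vp ρ β (sh (2 * (i * h)) (x i) η) (2 * h) (x (i + 1) - x i)) ≤ u' := by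
  have e2h : ∀ i : ℕ, 2 * (i * h) = i * (2 * h) := fun i => by ring
  simp only [e2h] at h1 hf hb h3 ⊢
  have hKW : 0 ≤ K * W := mul_nonneg hK0 hW
  have hadm0 : adm (m * (2 * h)) (0 : Site d) := by
    rw [← e2h]
    exact adm_zero _
  obtain ⟨x, hx0, hxm, hadm, hprod⟩ := block_exists (ρ := ρ) (β := β) j0 η (2 * h) m hadm0
  set f : ℕ → ℝ := fun i => Vp ρ β (sh (i * (2 * h)) (x i) η) (2 * h) (x (i + 1) - x i) with hfd
  have hfpos : ∀ i < m, 0 < f i := fun i hi => Vp_pos j0 _ (hadm i hi)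
  have hP : 0 < ∏ i ∈ Finset.range m, f i :=
    Finset.prod_pos fun i hi => hfpos i (Finset.mem_range.1 hi)
  have hlogP : Real.log (∏ i ∈ Finset.range m, f i) = ∑ i ∈ Finset.range m, Real.log (f i) :=
    Real.log_prod fun i hi => (hfpos i (Finset.mem_range.1 hi)).ne'
  have hsum : -u' ≤ ∑ i ∈ Finset.range m, Real.log (f i) := by
    have h2 := h1.trans hprod
    have hAp : 0 < ((2 * ((m * (2 * h) : ℕ) : ℝ) + 1) ^ d) ^ m := by positivity
    have h5 := Real.log_le_log (Real.exp_pos _) h2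
    rw [Real.log_exp, Real.log_mul hAp.ne' hP.ne', Real.log_pow, Real.log_pow, hlogP] at h5
    have h4 : u + (m : ℝ) * ((d : ℝ) * Real.log (2 * ((m * (2 * h) : ℕ) : ℝ) + 1)) ≤ u' := by
      rw [← mul_assoc]
      exact hlog
    linarith only [h5, h4]
  have hAdm := CoA_adm hx0 hadm
  have heven : ∀ i ≤ m, Even (ln (x i)) := by
    intro i hi
    have h5 := (hAdm i hi).2
    have h6 : Even (i * (2 * h)) := ⟨i * h, by ring⟩
    have h7 : Even (ln (x i) + i * (2 * h)) := Nat.even_iff.2 h5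
    exact (Nat.even_add.1 h7).2 h6
  have hpos : ∀ i ≤ m, (sn (x i) : ℝ) ≤ K * W := by
    intro i hi
    have hzero : (sn (0 : Site d) : ℝ) ≤ K * W := by
      have : sn (0 : Site d) = 0 := by
        have h5 : sn (0 : Site d) ≤ 0 := sn_le_iff.2 fun j => by simp
        omega
      rw [this]
      simpa using hKW
    rcases Nat.eq_zero_or_pos i with h0 | h0
    · rw [h0, hx0]
      exact hzero
    rcases Nat.eq_or_lt_of_le hi with hm | hm
    · rw [hm, hxm]
      exact hzero
    by_contra hcon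
    have hlt : K * W < sn (x i) := not_le.1 hcon
    have hP1 : ∏ j ∈ Finset.range i, f j < Real.exp (-(p / 2 * sn (x i))) := by
      have h5 := CoA_chain (ρ := ρ) (β := β) η (2 * h) x 0 (k := i) h0
      simp only [zero_add, zero_mul] at h5
      rw [hx0, sh_zero, sub_zero] at h5
      exact h5.trans_lt (hf i hi (x i) (heven i hi) hlt)
    have hP2 : ∏ j ∈ Finset.range (m - i), f (i + j) < Real.exp (-(p / 2 * sn (x i))) := by
      have h5 := CoA_chain (ρ := ρ) (β := β) η (2 * h) x i (k := m - i) (by omega)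
      have h6 := hb i hi (x i) (heven i hi) hlt
      have e2 : i + (m - i) = m := by omega
      rw [e2, hxm, zero_sub] at h5
      exact h5.trans_lt h6
    have hsplit : (∏ j ∈ Finset.range i, f j) * ∏ j ∈ Finset.range (m - i), f (i + j) =
        ∏ j ∈ Finset.range m, f j := by
      have h7 := Finset.prod_range_add f i (m - i)
      rw [show i + (m - i) = m by omega] at h7
      exact h7.symm
    have hPp2 : 0 < ∏ j ∈ Finset.range (m - i), f (i + j) :=
      Finset.prod_pos fun j hj => hfpos _ (by have := Finset.mem_range.1 hj; omega)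
    have h8 : ∏ j ∈ Finset.range m, f j < Real.exp (-(p * sn (x i))) := by
      rw [← hsplit]
      calc (∏ j ∈ Finset.range i, f j) * ∏ j ∈ Finset.range (m - i), f (i + j)
          < Real.exp (-(p / 2 * sn (x i))) *
              ∏ j ∈ Finset.range (m - i), f (i + j) := mul_lt_mul_of_pos_right hP1 hPp2
        _ ≤ Real.exp (-(p / 2 * sn (x i))) * Real.exp (-(p / 2 * sn (x i))) :=
            mul_le_mul_of_nonneg_left hP2.le (Real.exp_pos _).le
        _ = Real.exp (-(p * sn (x i))) := by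
            rw [← Real.exp_add]
            congr 1
            ring
    have h9 := (Real.log_lt_iff_lt_exp hP).2 h8
    rw [hlogP] at h9
    have h10 : p * (K * W) < p * (sn (x i) : ℝ) := mul_lt_mul_of_pos_left hlt hp
    linarith only [h9, h10, hsum, hK]
  refine ⟨x, hx0, fun i hi => ⟨hpos i hi, heven i hi⟩, hadm, ?_, ?_⟩
  · intro i hi
    have h5 := h3 i hi (x i) (x (i + 1)) (hpos i hi.le) (hpos (i + 1) hi) (heven i hi.le)
      (heven (i + 1) hi)
    have h6 := (Real.log_lt_iff_lt_exp (hfpos i hi)).2 h5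
    have h7 : Real.log (Vp ρ β (sh (i * (2 * h)) (x i) η) (2 * h) (x (i + 1) - x i)) <
      δ * a - p / 2 * sn (x (i + 1) - x i) := h6
    linarith only [h7]
  · have h5 : ∑ i ∈ Finset.range m,
        -Real.log (Vp ρ β (sh (i * (2 * h)) (x i) η) (2 * h) (x (i + 1) - x i)) =
        -∑ i ∈ Finset.range m, Real.log (f i) := by
      rw [← Finset.sum_neg_distrib]
    rw [h5]
    linarith only [hsum]

end Pool.Agent.W_7d29a1_q
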