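import Pool.Agent.W_7d29a1_h3.DetB
import Pool.Agent.W_7d29a1_h3.CentreB
import Pool.Agent.W_7d29a1_q.Bas

/-!
Row 601, section 11: centres and the sum over the blocks ((11.4), (11.5), deterministic part).
-/

namespace Pool.Agent.W_7d29a1_q

open MeasureTheory ProbabilityTheory Filter Topology Pool.Agent.W_MP_7d29a1_pr
  Pool.Agent.W_7d29a1_h46 Pool.Agent.W_7d29a1_h46u Pool.Agent.W_7d29a1_h3

variable {d : ℕ} {ρ : Measure ℝ} {β : ℝ}

/-- The event of (9.2): every crossing of the cell of radius `r` costs at least `b`. -/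
def Cr (d : ℕ) (ρ : Measure ℝ) (β r b : ℝ) (h : ℕ) : Set (Env d) :=
  {η | ∀ x x' : Site d, Even (ln x) → Even (ln x') → (sn x : ℝ) ≤ r → (sn x' : ℝ) ≤ r →
    Vp ρ β (sh 0 x η) (2 * h) (x' - x) ≤ Real.exp (-b)}

/-- TASK CoB. `centres` (file `W_7d29a1_h3/CentreA.lean`) with `K' = ⌊K W⌋`; `p/2 ∑ sn (x (i+1) - x i) ≤ u' + m δ a`. If
`c (i+1) = c i` and `sh (2 (i h)) (c i) η ∈ Cr r b h` then `sn (x i - c i), sn (x (i+1) - c i) ≤ 2 R ≤ r`, so the
cost of the block `i` is `≥ b`; the costs of all blocks are `≥ - δ a`. At least `q/8 m - k` blocks `i` have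
`c (i+1) = c i` and the event `Cr`. Model: `det_seq` and `contra_num` (files `DetB.lean`, `ContraC.lean`). -/
theorem co_seq (j0 : Fin d) {p : ℝ} (hp : 0 < p) (η : Env d) {m h R : ℕ} {K W δ a u' r b : ℝ}
    (hK : 0 ≤ K * W) (hδ : 0 ≤ δ * a) (hb : 0 ≤ b) (hR : 0 < R) (hRe : Even R) (hRr : 2 * (R : ℝ) ≤ r)
    (x : ℕ → Site d) (hx0 : x 0 = 0)
    (hx : ∀ i ≤ m, (sn (x i) : ℝ) ≤ K * W ∧ Even (ln (x i)))
    (hadm : ∀ i < m, adm (2 * h) (x (i + 1) - x i))
    (hlow : ∀ i < m, p / 2 * sn (x (i + 1) - x i) - δ * a ≤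
        -Real.log (Vp ρ β (sh (2 * (i * h)) (x i) η) (2 * h) (x (i + 1) - x i)))
    (hsum : ∑ i ∈ Finset.range m,
        -Real.log (Vp ρ β (sh (2 * (i * h)) (x i) η) (2 * h) (x (i + 1) - x i)) ≤ u') :
    ∃ c : ℕ → Site d, c 0 = 0 ∧ (∀ i ≤ m, ∀ j, (R : ℤ) ∣ c i j) ∧
      (∀ i ≤ m, (sn (c i) : ℝ) ≤ K * W + R) ∧ p / 2 * (chg m c * R) ≤ u' + m * (δ * a) ∧
      ∀ (q : ℝ) (k : ℕ), chg m c ≤ k →
        q / 8 * m ≤ (Set.ncard {i | i ∈ Finset.range m ∧
          sh (2 * (i * h)) (c i) η ∈ Cr d ρ β r b h} : ℝ) →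
        (q / 8 * m - k) * b - m * (δ * a) ≤ u' := by
  classical
  obtain ⟨c, hc0, hc1, hc2, hc3, hc4⟩ := centres x m hR hx0 (K := ⌊K * W⌋₊)
    (fun i hi => Nat.le_floor (hx i hi).1)
  obtain ⟨τ, hτ⟩ : ∃ τ : ℕ → ℝ, ∀ i, τ i =
    -Real.log (Vp ρ β (sh (2 * (i * h)) (x i) η) (2 * h) (x (i + 1) - x i)) := ⟨_, fun i => rfl⟩
  simp only [← hτ] at hlow hsum
  have hfl : ((⌊K * W⌋₊ : ℕ) : ℝ) ≤ K * W := Nat.floor_le hK
  have hcn : ∀ i ≤ m, (sn (c i) : ℝ) ≤ K * W + R := fun i hi => by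
    have h2 : (sn (c i) : ℝ) ≤ ((⌊K * W⌋₊ : ℕ) : ℝ) + R := by exact_mod_cast hc3 i hi
    linarith
  refine ⟨c, hc0, hc2, hcn, ?_, ?_⟩
  · have h1 : ((chg m c * R : ℕ) : ℝ) ≤
        ((∑ i ∈ Finset.range m, sn (x (i + 1) - x i) : ℕ) : ℝ) := by exact_mod_cast hc4
    have h2 : ∑ i ∈ Finset.range m, (p / 2 * sn (x (i + 1) - x i) - δ * a) ≤
        ∑ i ∈ Finset.range m, τ i :=
      Finset.sum_le_sum fun i hi => hlow i (Finset.mem_range.mp hi)
    rw [Finset.sum_sub_distrib, ← Finset.mul_sum, Finset.sum_const, Finset.card_range,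
      nsmul_eq_mul] at h2
    push_cast at h1
    have h3 := mul_le_mul_of_nonneg_left h1 (half_pos hp).le
    linarith
  · intro q k hchg hmany
    set G : Finset ℕ := (Finset.range m).filter
      (fun i => sh (2 * (i * h)) (c i) η ∈ Cr d ρ β r b h) with hG
    set F : Finset ℕ := (Finset.range m).filter (fun i => c (i + 1) = c i) with hF
    have hGn : Set.ncard {i | i ∈ Finset.range m ∧
        sh (2 * (i * h)) (c i) η ∈ Cr d ρ β r b h} = G.card := by
      have : {i | i ∈ Finset.range m ∧ sh (2 * (i * h)) (c i) η ∈ Cr d ρ β r b h} =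
          (G : Set ℕ) := by
        ext i
        simp only [hG, Set.mem_ofPred_eq, Finset.coe_filter]
      rw [this, Set.ncard_coe_finset]
    rw [hGn] at hmany
    have hsub : G ⊆ (G ∩ F) ∪ ((Finset.range m).filter fun i => c (i + 1) ≠ c i) := by
      intro i hi
      have him : i ∈ Finset.range m := (Finset.mem_filter.1 hi).1
      by_cases hci : c (i + 1) = c i
      · exact Finset.mem_union_left _ (Finset.mem_inter.2 ⟨hi, Finset.mem_filter.2 ⟨him, hci⟩⟩)
      · exact Finset.mem_union_right _ (Finset.mem_filter.2 ⟨him, hci⟩)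
    have hchg2 : ((Finset.range m).filter fun i => c (i + 1) ≠ c i).card = chg m c := by
      unfold chg
      congr 1
      ext i
      simp only [Finset.mem_filter]
    have hcard : G.card ≤ (G ∩ F).card + k := by
      calc G.card ≤ _ := Finset.card_le_card hsub
        _ ≤ (G ∩ F).card + ((Finset.range m).filter fun i => c (i + 1) ≠ c i).card :=
            Finset.card_union_le _ _
        _ ≤ _ := Nat.add_le_add_left (hchg2.le.trans hchg) _
    have hcardR : (G.card : ℝ) ≤ ((G ∩ F).card : ℝ) + k := by exact_mod_cast hcard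
    have hGF : G ∩ F ⊆ Finset.range m := fun i hi =>
      (Finset.mem_filter.1 (Finset.mem_inter.1 hi).1).1
    have hrest : (((Finset.range m) \ (G ∩ F)).card : ℝ) ≤ m := by
      have h1 : ((Finset.range m) \ (G ∩ F)).card ≤ (Finset.range m).card :=
        Finset.card_le_card Finset.sdiff_subset
      rw [Finset.card_range] at h1
      exact_mod_cast h1
    have hs1 : ((G ∩ F).card : ℝ) * b ≤ ∑ i ∈ G ∩ F, τ i := by
      rw [← nsmul_eq_mul]
      refine Finset.card_nsmul_le_sum _ _ _ fun i hi => ?_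
      obtain ⟨hiG, hiF⟩ := Finset.mem_inter.1 hi
      obtain ⟨him, hCr⟩ := Finset.mem_filter.1 hiG
      have hci : c (i + 1) = c i := (Finset.mem_filter.1 hiF).2
      have him' : i < m := Finset.mem_range.1 him
      have h1 := hCr (x i - c i) (x (i + 1) - c i)
        (det_even_ln_sub hRe (hc2 i him'.le) (hx i him'.le).2)
        (det_even_ln_sub hRe (hc2 i him'.le) (hx (i + 1) him').2)
        (by
          have h2 : (sn (x i - c i) : ℝ) ≤ 2 * (R : ℝ) := by exact_mod_cast hc1 i him'.le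
          linarith)
        (by
          have h2 : (sn (x (i + 1) - c i) : ℝ) ≤ 2 * (R : ℝ) := by
            rw [← hci]
            exact_mod_cast hc1 (i + 1) him'
          linarith)
      rw [sh_sh] at h1
      have e1 : 0 + 2 * (i * h) = 2 * (i * h) := by omega
      have e2 : x i - c i + c i = x i := by abel
      have e3 : x (i + 1) - c i - (x i - c i) = x (i + 1) - x i := by abel
      rw [e1, e2, e3] at h1
      have hpos : 0 < Vp ρ β (sh (2 * (i * h)) (x i) η) (2 * h) (x (i + 1) - x i) :=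
        Vp_pos j0 _ (hadm i him')
      have h3 := Real.log_le_log hpos h1
      rw [Real.log_exp] at h3
      rw [hτ i]
      linarith
    have hs2 : (((Finset.range m) \ (G ∩ F)).card : ℝ) * (-(δ * a)) ≤
        ∑ i ∈ (Finset.range m) \ (G ∩ F), τ i := by
      rw [← nsmul_eq_mul]
      refine Finset.card_nsmul_le_sum _ _ _ fun i hi => ?_
      have h4 := hlow i (Finset.mem_range.mp (Finset.mem_sdiff.1 hi).1)
      have h5 : 0 ≤ p / 2 * sn (x (i + 1) - x i) := mul_nonneg (half_pos hp).le (Nat.cast_nonneg _)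
      linarith
    have hs3 := Finset.sum_sdiff (f := τ) hGF
    have e1 : (q / 8 * m - k) * b ≤ ((G ∩ F).card : ℝ) * b :=
      mul_le_mul_of_nonneg_right (by linarith) hb
    have e2 : (((Finset.range m) \ (G ∩ F)).card : ℝ) * (δ * a) ≤ m * (δ * a) :=
      mul_le_mul_of_nonneg_right hrest hδ
    linarith [hs1, hs2, hs3, e1, e2, hsum]

end Pool.Agent.W_7d29a1_q
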