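import Pool.Agent.W_7d29a1_q.Bas

/-!
Row 601, (9.2): a waiting time as a move into the cell, a crossing of the cell, and a move out of the cell.
-/

namespace Pool.Agent.W_7d29a1_q

open MeasureTheory ProbabilityTheory Filter Topology Pool.Agent.W_MP_7d29a1_pr
  Pool.Agent.W_7d29a1_h46 Pool.Agent.W_7d29a1_h46u Pool.Agent.W_7d29a1_h3

variable {d : ℕ} {ρ : Measure ℝ} [IsProbabilityMeasure ρ] {β : ℝ}

omit [IsProbabilityMeasure ρ] in
theorem LbA_meas (s n : ℕ) (x y : Site d) : Measurable fun η : Env d => Vp ρ β (sh s x η) n y :=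
  (measurable_V (ρ := ρ) (β := β) (toP n y)).comp (measurable_sh s x)

/-- The shift to the row `s`. -/
theorem LbA_sh0 (s : ℕ) (x : Site d) (η : Env d) : sh 0 x (sh s 0 η) = sh s x η := by
  rw [sh_sh, zero_add, add_zero]

/-- The decomposition. -/
theorem LbA_split {τ h : ℕ} {R u v q : ℝ} (hmove : ∀ z : Site d, Even (ln z) → (sn z : ℝ) ≤ R →
      (law d ρ).real {η : Env d | ¬ Tle ρ β η τ z u} ≤ q) (hq : 0 ≤ q) :
    (law d ρ).real {η : Env d | Vp ρ β η (2 * (τ + h + τ)) 0 ≤ Real.exp (-(u + v + u))} ≤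
      (law d ρ).real {η : Env d | ∀ x x' : Site d, Even (ln x) → Even (ln x') → (sn x : ℝ) ≤ R →
        (sn x' : ℝ) ≤ R → Vp ρ β (sh 0 x η) (2 * h) (x' - x) ≤ Real.exp (-v)} + 2 * q := by
  classical
  obtain ⟨e, he⟩ := exists_injective_nat (Site d × Site d)
  obtain ⟨I, hI⟩ : ∃ I : Finset (Site d × Site d), ∀ i, i ∈ I ↔
      Even (ln i.1) ∧ Even (ln i.2) ∧ (sn i.1 : ℝ) ≤ R ∧ (sn i.2 : ℝ) ≤ R := by
    refine ⟨(boxF d ⌊R⌋₊ ×ˢ boxF d ⌊R⌋₊).filter fun i =>
      Even (ln i.1) ∧ Even (ln i.2) ∧ (sn i.1 : ℝ) ≤ R ∧ (sn i.2 : ℝ) ≤ R, fun i => ?_⟩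
    rw [Finset.mem_filter, Finset.mem_product, mem_boxF_iff, mem_boxF_iff]
    constructor
    · rintro ⟨-, h⟩
      exact h
    · intro h
      exact ⟨⟨Nat.le_floor h.2.2.1, Nat.le_floor h.2.2.2⟩, h⟩
  obtain ⟨bad, hbad⟩ : ∃ bad : Site d × Site d → Env d → Prop, bad = fun i η =>
      Real.exp (-v) < Vp ρ β (sh (2 * τ) i.1 η) (2 * h) (i.2 - i.1) := ⟨_, rfl⟩
  have hbm : ∀ i, MeasurableSet {η : Env d | bad i η} := by
    intro i
    rw [hbad]
    exact measurableSet_lt measurable_const (LbA_meas _ _ _ _)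
  obtain ⟨U, hU⟩ : ∃ U : Set (ℕ × Site d), U = {p | 2 * τ < p.1 ∧ p.1 ≤ 2 * τ + 2 * h} := ⟨_, rfl⟩
  have hbd : ∀ i, ∀ η η' : Env d, (∀ p ∈ U, η p = η' p) → (bad i η ↔ bad i η') := by
    intro i η η' hη
    rw [hbad]
    have h1 : Vp ρ β (sh (2 * τ) i.1 η) (2 * h) (i.2 - i.1) =
        Vp ρ β (sh (2 * τ) i.1 η') (2 * h) (i.2 - i.1) := by
      refine dep_V_sh (ρ := ρ) (β := β) (2 * τ) i.1 (toP (2 * h) (i.2 - i.1)) ?_
      rw [← hU]
      exact hη
    simp only [h1]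
  obtain ⟨A, hA⟩ : ∃ A : Site d × Site d → Set (Env d), A = fun i =>
      {η | bad i η ∧ ∀ j ∈ I.filter (fun j => e j < e i), ¬ bad j η} := ⟨_, rfl⟩
  obtain ⟨B, hB⟩ : ∃ B : Site d × Site d → Set (Env d), B = fun i =>
      {η | ¬ Tle ρ β η τ i.1 u ∨ ¬ Tle ρ β (sh (2 * (τ + h)) i.2 η) τ (-i.2) u} := ⟨_, rfl⟩
  have hAm : ∀ i ∈ I, MeasurableSet (A i) := by
    intro i _
    have h1 : A i = {η | bad i η} ∩ ⋂ j ∈ I.filter (fun j => e j < e i), {η | bad j η}ᶜ := by
      rw [hA]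
      ext η
      simp only [Set.mem_ofPred_eq, Set.mem_inter_iff, Set.mem_iInter, Set.mem_compl_iff]
    rw [h1]
    exact (hbm i).inter (Finset.measurableSet_biInter _ fun j _ => (hbm j).compl)
  have hBm : ∀ i ∈ I, MeasurableSet (B i) := by
    intro i _
    have h1 : B i = {η | Tle ρ β η τ i.1 u}ᶜ ∪
        (sh (2 * (τ + h)) i.2 : Env d → Env d) ⁻¹' {η | Tle ρ β η τ (-i.2) u}ᶜ := by
      rw [hB]
      rfl
    rw [h1]
    exact (measurableSet_Tle _ _ _).compl.union (measurable_sh _ _ (measurableSet_Tle _ _ _).compl)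
  have hBp : ∀ i ∈ I, (law d ρ).real (B i) ≤ 2 * q := by
    intro i hi
    obtain ⟨h1, h2, h3, h4⟩ := (hI i).1 hi
    have h5 : B i = {η | ¬ Tle ρ β η τ i.1 u} ∪
        {η | sh (2 * (τ + h)) i.2 η ∈ {η : Env d | ¬ Tle ρ β η τ (-i.2) u}} := by
      rw [hB]
      rfl
    rw [h5]
    refine (measureReal_union_le _ _).trans ?_
    have h6 := hmove i.1 h1 h3
    have hln : ln (-i.2) = ln i.2 := by
      unfold ln
      exact Finset.sum_congr rfl fun j _ => by simp
    have h7 := hmove (-i.2) (by rw [hln]; exact h2) (by rw [sn_neg]; exact h4)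
    have h8 := real_sh (ρ := ρ) (2 * (τ + h)) i.2 (A := {η : Env d | ¬ Tle ρ β η τ (-i.2) u})
      (measurableSet_Tle _ _ _).compl
    rw [h8]
    linarith
  have key := sm_le (ρ := ρ) I A B (fun _ => U) hAm hBm ?_ ?_ ?_ hBp
  · -- conclusion
    have hG : (law d ρ).real {η : Env d | ∀ x x' : Site d, Even (ln x) → Even (ln x') → (sn x : ℝ) ≤ R →
        (sn x' : ℝ) ≤ R → Vp ρ β (sh (2 * τ) x η) (2 * h) (x' - x) ≤ Real.exp (-v)} =
        (law d ρ).real {η : Env d | ∀ x x' : Site d, Even (ln x) → Even (ln x') → (sn x : ℝ) ≤ R →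
        (sn x' : ℝ) ≤ R → Vp ρ β (sh 0 x η) (2 * h) (x' - x) ≤ Real.exp (-v)} := by
      have hm : MeasurableSet {η : Env d | ∀ x x' : Site d, Even (ln x) → Even (ln x') → (sn x : ℝ) ≤ R →
          (sn x' : ℝ) ≤ R → Vp ρ β (sh 0 x η) (2 * h) (x' - x) ≤ Real.exp (-v)} := by
        have h1 : {η : Env d | ∀ x x' : Site d, Even (ln x) → Even (ln x') → (sn x : ℝ) ≤ R →
            (sn x' : ℝ) ≤ R → Vp ρ β (sh 0 x η) (2 * h) (x' - x) ≤ Real.exp (-v)} =
            ⋂ i ∈ I, {η : Env d | Vp ρ β (sh 0 i.1 η) (2 * h) (i.2 - i.1) ≤ Real.exp (-v)} := by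
          ext η
          simp only [Set.mem_ofPred_eq, Set.mem_iInter]
          constructor
          · intro h1 i hi
            obtain ⟨h2, h3, h4, h5⟩ := (hI i).1 hi
            exact h1 _ _ h2 h3 h4 h5
          · intro h1 x x' h2 h3 h4 h5
            exact h1 (x, x') ((hI _).2 ⟨h2, h3, h4, h5⟩)
        rw [h1]
        exact Finset.measurableSet_biInter _ fun i _ => measurableSet_le (LbA_meas _ _ _ _) measurable_const
      have h2 := real_sh (ρ := ρ) (2 * τ) (0 : Site d) hm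
      simp only [Set.mem_ofPred_eq, LbA_sh0] at h2
      exact h2
    rw [← hG]
    have h1 : (law d ρ).real {η | ∃ i ∈ I, η ∈ A i ∧ η ∈ B i} ≤ 2 * q := by
      refine key.trans ?_
      have := measureReal_le_one (μ := law d ρ) (s := {η | ∃ i ∈ I, η ∈ A i})
      nlinarith
    refine le_trans (le_trans (measureReal_mono ?_) (measureReal_union_le _ _)) (add_le_add le_rfl h1)
    intro η hη
    rw [Set.mem_union]
    by_contra hcon
    push Not at hcon
    obtain ⟨hc1, hc2⟩ := hcon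
    simp only [Set.mem_ofPred_eq, not_forall] at hc1
    obtain ⟨x, x', g1, g2, g3, g4, g5⟩ := hc1
    have hne : (I.filter fun i => bad i η).Nonempty := by
      refine ⟨(x, x'), Finset.mem_filter.2 ⟨(hI _).2 ⟨g1, g2, g3, g4⟩, ?_⟩⟩
      rw [hbad]
      exact not_le.1 g5
    obtain ⟨i, hi, hmin⟩ := Finset.exists_min_image (I.filter fun i => bad i η) e hne
    obtain ⟨hiI, hib⟩ := Finset.mem_filter.1 hi
    apply hc2
    refine ⟨i, hiI, ?_, ?_⟩
    · rw [hA]
      refine ⟨hib, fun j hj hjb => ?_⟩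
      obtain ⟨hj1, hj2⟩ := Finset.mem_filter.1 hj
      have := hmin j (Finset.mem_filter.2 ⟨hj1, hjb⟩)
      omega
    · rw [hB]
      by_contra hnB
      simp only [Set.mem_ofPred_eq, not_or, not_not] at hnB
      obtain ⟨m1, m3⟩ := hnB
      have m2 : Real.exp (-v) < Vp ρ β (sh (2 * τ) i.1 η) (2 * h) (i.2 - i.1) := by
        rw [hbad] at hib
        exact hib
      unfold Tle at m1 m3
      have a1 := Vp_add (ρ := ρ) (β := β) η (2 * τ) (2 * h) i.1 (i.2 - i.1)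
      have a2 := Vp_add (ρ := ρ) (β := β) η (2 * τ + 2 * h) (2 * τ) (i.1 + (i.2 - i.1)) (-i.2)
      have e1 : i.1 + (i.2 - i.1) = i.2 := by abel
      rw [e1] at a1 a2
      have e2 : i.2 + -i.2 = 0 := by abel
      rw [e2] at a2
      have e3 : 2 * τ + 2 * h = 2 * (τ + h) := by ring
      rw [e3] at a1 a2
      have e4 : 2 * (τ + h) + 2 * τ = 2 * (τ + h + τ) := by ring
      rw [e4] at a2
      have hη' : Vp ρ β η (2 * (τ + h + τ)) 0 ≤ Real.exp (-(u + v + u)) := hη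
      have b1 : Real.exp (-u) * Real.exp (-v) < Vp ρ β η (2 * (τ + h)) i.2 := by
        refine lt_of_lt_of_le ?_ a1
        calc Real.exp (-u) * Real.exp (-v)
            < Real.exp (-u) * Vp ρ β (sh (2 * τ) i.1 η) (2 * h) (i.2 - i.1) :=
              mul_lt_mul_of_pos_left m2 (Real.exp_pos _)
          _ ≤ _ := mul_le_mul_of_nonneg_right m1 ((Real.exp_pos _).le.trans m2.le)
      have b2 : Real.exp (-u) * Real.exp (-v) * Real.exp (-u) < Vp ρ β η (2 * (τ + h + τ)) 0 := by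
        refine lt_of_lt_of_le ?_ a2
        calc Real.exp (-u) * Real.exp (-v) * Real.exp (-u)
            < Vp ρ β η (2 * (τ + h)) i.2 * Real.exp (-u) :=
              mul_lt_mul_of_pos_right b1 (Real.exp_pos _)
          _ ≤ _ := mul_le_mul_of_nonneg_left m3 (V_nonneg _ _)
      have b3 : Real.exp (-(u + v + u)) = Real.exp (-u) * Real.exp (-v) * Real.exp (-u) := by
        rw [← Real.exp_add, ← Real.exp_add]
        congr 1
        ring
      rw [b3] at hη'
      linarith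
  · -- A i uses U
    intro i _ η η' hη
    rw [hA]
    simp only [Set.mem_ofPred_eq, hbd _ η η' hη]
  · -- B i uses the complement
    intro i _ η η' hη
    rw [hB]
    have h1 : Vp ρ β η (2 * τ) i.1 = Vp ρ β η' (2 * τ) i.1 := by
      refine dep_V (ρ := ρ) (β := β) (toP (2 * τ) i.1) ?_
      intro p hp
      refine hη p ?_
      rw [hU]
      rintro ⟨h2, -⟩
      have := hp.2
      omega
    have h2 : Vp ρ β (sh (2 * (τ + h)) i.2 η) (2 * τ) (-i.2) =
        Vp ρ β (sh (2 * (τ + h)) i.2 η') (2 * τ) (-i.2) := by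
      refine dep_V_sh (ρ := ρ) (β := β) (2 * (τ + h)) i.2 (toP (2 * τ) (-i.2)) ?_
      intro p hp
      refine hη p ?_
      rw [hU]
      rintro ⟨-, h3⟩
      have := hp.1
      omega
    simp only [Set.mem_ofPred_eq, Tle, h1, h2]
  · -- disjointness
    intro i hi j hj hij
    rw [Set.disjoint_left]
    intro η h1 h2
    rw [hA] at h1 h2
    rcases lt_or_gt_of_ne (fun h => hij (he h) : e i ≠ e j) with h3 | h3
    · exact h2.2 i (Finset.mem_filter.2 ⟨hi, h3⟩) h1.1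
    · exact h1.2 j (Finset.mem_filter.2 ⟨hj, h3⟩) h2.1

end Pool.Agent.W_7d29a1_q
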