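import Pool.Agent.W_7d29a1_q.MvA

/-!
Row 601, section 3: arriving early and waiting. TASK MvG.
-/

namespace Pool.Agent.W_7d29a1_q

open MeasureTheory ProbabilityTheory Filter Topology Pool.Agent.W_MP_7d29a1_pr
  Pool.Agent.W_7d29a1_h46 Pool.Agent.W_7d29a1_h46u Pool.Agent.W_7d29a1_h3

variable {d : ℕ} {ρ : Measure ℝ} [IsProbabilityMeasure ρ] {β : ℝ}

private theorem MvG_dep {l : ℕ} {z : Site d} {u : ℝ} {η η' : Env d}
    (h : ∀ p : ℕ × Site d, p.1 ≤ 2 * l → η p = η' p) : Tle ρ β η l z u ↔ Tle ρ β η' l z u := by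
  have h1 := dep_Tle (ρ := ρ) (β := β) (s := 0) (t := l) (x := 0) (z := z) (u := u) (η := η)
    (η' := η') (fun p _ h2 => h p (by simpa using h2))
  rw [Nat.mul_zero, sh_zero, sh_zero] at h1
  exact h1

/-- First half time `l ≤ tc` with `Tle η l z u`, then wait: `sm_le` and `wait_prob`. -/
theorem hit_wait (j0 : Fin d) (hρ : EM ρ) (tc : ℕ) (z : Site d) (u : ℝ) {w : ℝ} (hw : 0 < w) :
    (law d ρ).real {η : Env d | (∃ l ≤ tc, Tle ρ β η l z u) ∧ ¬ Tle ρ β η tc z (u + w)} ≤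
      SS d ρ β tc / w := by
  classical
  have hq0 : 0 ≤ SS d ρ β tc / w := div_nonneg (SS_nonneg tc) hw.le
  obtain ⟨A, hA⟩ : ∃ A : ℕ → Set (Env d), A = fun l =>
      {η | Tle ρ β η l z u ∧ ∀ l' < l, ¬ Tle ρ β η l' z u} := ⟨_, rfl⟩
  obtain ⟨B, hB⟩ : ∃ B : ℕ → Set (Env d), B = fun l =>
      {η | ¬ Tle ρ β (sh (2 * l) z η) (tc - l) 0 w} := ⟨_, rfl⟩
  have hAm : ∀ l ∈ Finset.range (tc + 1), MeasurableSet (A l) := by
    intro l _
    have e : A l = {η | Tle ρ β η l z u} ∩ ⋂ l' ∈ Finset.range l, {η | Tle ρ β η l' z u}ᶜ := by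
      rw [hA]
      ext η
      simp
    rw [e]
    exact (measurableSet_Tle l z u).inter
      (Finset.measurableSet_biInter _ fun l' _ => (measurableSet_Tle l' z u).compl)
  have hBm0 : ∀ l, MeasurableSet {η : Env d | Tle ρ β (sh (2 * l) z η) (tc - l) 0 w} := fun l =>
    (mp_sh (ρ := ρ) (2 * l) z).measurable (measurableSet_Tle (tc - l) 0 w)
  have hBm : ∀ l ∈ Finset.range (tc + 1), MeasurableSet (B l) := by
    intro l _
    rw [hB]
    exact (hBm0 l).compl
  have hsub : {η : Env d | (∃ l ≤ tc, Tle ρ β η l z u) ∧ ¬ Tle ρ β η tc z (u + w)} ⊆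
      {η | ∃ l ∈ Finset.range (tc + 1), η ∈ A l ∧ η ∈ B l} := by
    rintro η ⟨⟨l0, hl0, hT0⟩, hn⟩
    have hex : ∃ l, Tle ρ β η l z u := ⟨l0, hT0⟩
    obtain ⟨l, hl⟩ : ∃ l, l = Nat.find hex := ⟨_, rfl⟩
    have hs := Nat.find_spec hex
    rw [← hl] at hs
    have hlt : l ≤ tc := by
      rw [hl]
      exact (Nat.find_min' hex hT0).trans hl0
    refine ⟨l, Finset.mem_range.2 (by omega), ?_, ?_⟩
    · rw [hA]
      exact ⟨hs, fun l' hl' => Nat.find_min hex (hl ▸ hl')⟩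
    · rw [hB]
      intro hT
      apply hn
      have := Tle_add hs hT
      rwa [add_zero, Nat.add_sub_cancel' hlt] at this
  refine (measureReal_mono hsub).trans ?_
  refine (sm_le (ρ := ρ) (Finset.range (tc + 1)) A B (fun l => {p | p.1 ≤ 2 * l}) hAm hBm
    (fun l _ η η' h => ?_) (fun l hl η η' h => ?_) (fun i _ j _ hij => ?_) (q := SS d ρ β tc / w)
    (fun l hl => ?_)).trans ?_
  · rw [hA]
    show (Tle ρ β η l z u ∧ ∀ l' < l, ¬ Tle ρ β η l' z u) ↔
      (Tle ρ β η' l z u ∧ ∀ l' < l, ¬ Tle ρ β η' l' z u)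
    refine and_congr (MvG_dep h) (forall_congr' fun l' => imp_congr_right fun hl' => not_congr ?_)
    exact MvG_dep fun p hp => h p (le_trans hp (by omega))
  · rw [hB]
    show (¬ Tle ρ β (sh (2 * l) z η) (tc - l) 0 w) ↔ ¬ Tle ρ β (sh (2 * l) z η') (tc - l) 0 w
    refine not_congr (dep_Tle fun p hp _ => h p ?_)
    show ¬ p.1 ≤ 2 * l
    omega
  · rw [Set.disjoint_left]
    intro η h1 h2
    rw [hA] at h1 h2
    rcases lt_or_gt_of_ne hij with h | h
    · exact h2.2 i h h1.1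
    · exact h1.2 j h h2.1
  · have e : (law d ρ).real (B l) = (law d ρ).real {η : Env d | ¬ Tle ρ β η (tc - l) 0 w} := by
      have e1 : B l = {η : Env d | sh (2 * l) z η ∈ {η : Env d | ¬ Tle ρ β η (tc - l) 0 w}} := by
        rw [hB]
        rfl
      rw [e1]
      exact real_sh (2 * l) z (measurableSet_Tle (tc - l) 0 w).compl
    rw [e]
    exact wait_prob j0 hρ (Nat.sub_le _ _) hw
  · exact (mul_le_mul_of_nonneg_left measureReal_le_one hq0).trans (by rw [mul_one])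

omit [IsProbabilityMeasure ρ] in
/-- Markov. -/
private theorem MvG_markov {f : Env d → ℝ} (h0 : ∀ η, 0 ≤ f η) (hi : Integrable f (law d ρ))
    {a m q : ℝ} (ha : 0 < a) (hm : ∫ η, f η ∂(law d ρ) ≤ m) (hmq : m ≤ q * a) :
    (law d ρ).real {η | a ≤ f η} ≤ q := by
  have h1 := mul_meas_ge_le_integral_of_nonneg (Filter.Eventually.of_forall h0) hi a
  have h2 : a * (law d ρ).real {η | a ≤ f η} ≤ a * q := by
    rw [mul_comm a q]
    exact h1.trans (hm.trans hmq)
  exact le_of_mul_le_mul_left h2 ha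

/-- (3.2). From a strategy to the fixed half time `tc`: outside of `B`, `{τ > tc}` (Markov), `{C > M + √(V/q)}` (Chebyshev) and the
event of `hit_wait` with `w = S(tc)/q` (if `tc = 0` this event is empty). -/
theorem exact (j0 : Fin d) (hρ : EM ρ) {z : Site d} {M V s θ ε q : ℝ} {tc : ℕ}
    (h : Mv d ρ β z M V s θ ε) (hq : 0 < q) (hV : 0 < V)
    (ht : θ ≤ q * tc ∨ ∃ x : ℝ, 0 < x ∧ s ≤ q * x ∧ ∀ n : ℕ, SS d ρ β n ≤ x → n ≤ tc) :
    (law d ρ).real {η : Env d | ¬ Tle ρ β η tc z (M + Real.sqrt (V / q) + SS d ρ β tc / q)} ≤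
      ε + 3 * q := by
  obtain ⟨C, τ, B, hCm, hτm, hBm, hCd, hτd, hBd, hC0, hCi, hCM, hVi, hVV, hSi, hSs, hτi, hτθ, hBε,
    hdet⟩ := h
  -- the time
  have hE2 : (law d ρ).real {η | tc < τ η} ≤ q := by
    rcases ht with ht | ⟨x, hx, hsx, hxt⟩
    · refine (measureReal_mono (s₂ := {η | ((tc : ℝ) + 1) ≤ (τ η : ℝ)}) ?_).trans
        (MvG_markov (fun η => Nat.cast_nonneg _) hτi (by positivity) hτθ ?_)
      · intro η hη
        have hη' : tc + 1 ≤ τ η := hη
        show ((tc : ℝ) + 1) ≤ (τ η : ℝ)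
        exact_mod_cast hη'
      · linarith
    · refine (measureReal_mono (s₂ := {η | x ≤ SS d ρ β (τ η)}) ?_).trans
        (MvG_markov (fun η => SS_nonneg _) hSi hx hSs hsx)
      intro η hη
      have hη' : tc < τ η := hη
      show x ≤ SS d ρ β (τ η)
      by_contra hcon
      push Not at hcon
      exact absurd (hxt _ hcon.le) (not_le.2 hη')
  -- the cost
  have hVq : 0 < V / q := by positivity
  have hE3 : (law d ρ).real {η | M + Real.sqrt (V / q) < C η} ≤ q := by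
    refine (measureReal_mono (s₂ := {η | V / q ≤ (C η - M) ^ 2}) ?_).trans
      (MvG_markov (fun η => sq_nonneg _) hVi hVq hVV ?_)
    · intro η hη
      have hη' : M + Real.sqrt (V / q) < C η := hη
      have h1 : Real.sqrt (V / q) ≤ C η - M := by linarith
      have h2 := pow_le_pow_left₀ (Real.sqrt_nonneg _) h1 2
      rw [Real.sq_sqrt hVq.le] at h2
      exact h2
    · rw [mul_div_cancel₀ _ hq.ne']
  -- waiting
  obtain ⟨u, hu⟩ : ∃ u : ℝ, u = M + Real.sqrt (V / q) := ⟨_, rfl⟩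
  rw [← hu] at hE3 ⊢
  obtain ⟨E4, hE4, hE4p⟩ : ∃ E4 : Set (Env d), (law d ρ).real E4 ≤ q ∧
      ∀ η ∉ E4, (∃ l ≤ tc, Tle ρ β η l z u) → Tle ρ β η tc z (u + SS d ρ β tc / q) := by
    rcases Nat.eq_zero_or_pos tc with h0 | h0
    · refine ⟨∅, by simpa using hq.le, fun η _ ⟨l, hl, hT⟩ => ?_⟩
      have hl0 : l = 0 := by omega
      rw [h0, SS_zero, zero_div, add_zero]
      rw [hl0] at hT
      exact hT
    · have hS : 0 < SS d ρ β tc := lt_of_lt_of_le one_pos (one_le_SS h0)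
      refine ⟨{η : Env d | (∃ l ≤ tc, Tle ρ β η l z u) ∧ ¬ Tle ρ β η tc z (u + SS d ρ β tc / q)},
        ?_, fun η hη hl => ?_⟩
      · refine (hit_wait j0 hρ tc z u (w := SS d ρ β tc / q) (by positivity)).trans (le_of_eq ?_)
        field_simp
      · by_contra hcon
        exact hη ⟨hl, hcon⟩
  have hsub : {η : Env d | ¬ Tle ρ β η tc z (u + SS d ρ β tc / q)} ⊆
      B ∪ ({η | tc < τ η} ∪ ({η | u < C η} ∪ E4)) := by
    intro η hη
    by_contra hcon
    simp only [Set.mem_union, not_or] at hcon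
    obtain ⟨h1, h2, h3, h4⟩ := hcon
    have h2' : τ η ≤ tc := not_lt.1 h2
    have h3' : C η ≤ u := not_lt.1 h3
    obtain ⟨l, hl, hT⟩ := hdet η h1
    exact hη (hE4p η h4 ⟨l, hl.trans h2', Tle_mono hT h3'⟩)
  refine (measureReal_mono hsub).trans ?_
  have e1 := measureReal_union_le (μ := law d ρ) B ({η | tc < τ η} ∪ ({η | u < C η} ∪ E4))
  have e2 := measureReal_union_le (μ := law d ρ) {η | tc < τ η} ({η | u < C η} ∪ E4)
  have e3 := measureReal_union_le (μ := law d ρ) {η | u < C η} E4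
  linarith

end Pool.Agent.W_7d29a1_q
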