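import Pool.Agent.W_7d29a1_q.MvF
import Pool.Agent.W_7d29a1_q.MvG

/-!
Row 601, section 3: (3.2) for the axes. TASK MvJ.
-/

namespace Pool.Agent.W_7d29a1_q

open MeasureTheory ProbabilityTheory Filter Topology Pool.Agent.W_MP_7d29a1_pr
  Pool.Agent.W_7d29a1_h46 Pool.Agent.W_7d29a1_h46u Pool.Agent.W_7d29a1_h3

variable {d : ℕ}

/-- `E_b(ζ e_1)`. -/
noncomputable def Eb (d : ℕ) (ρ : Measure ℝ) (β c : ℝ) (N : ℕ) (a b ζ : ℝ) : ℝ :=
  pr d ρ β b * ζ + 12 * a * (b / a) ^ (3 / 4 : ℝ) + (N : ℝ) ^ (5 * c)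

private lemma MvJ_ln (j : Fin d) (σ : ℤ) (ζ : ℕ) (hσ : σ = 1 ∨ σ = -1) : ln ((σ * (ζ : ℤ)) • es j) = ζ := by
  classical
  unfold ln es
  rw [Finset.sum_eq_single j]
  · rcases hσ with rfl | rfl <;> simp
  · intro i _ hi
    simp [Pi.single_eq_of_ne hi]
  · intro h
    exact absurd (Finset.mem_univ j) h

/-- (3.2) for the axis displacements `± ζ e_j`, `ζ` even, with `P(τ > t_c) ≤ q` by (3.1): `strat` with `J = {j}`, `exact` (first
alternative of `ht`), every `e > 0`. -/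
theorem climb (j0 : Fin d) : ∀ (ρ : Measure ℝ) [IsProbabilityMeasure ρ] (β c a0 : ℝ), EM ρ →
    ∀ᶠ N : ℕ in atTop, Sc d ρ β c a0 N → ∀ a b : ℝ, a ≤ am d N → Rg d ρ β a0 (1 / 4) a → a0 ≤ b →
      b ≤ a → ∀ (j : Fin d) (σ : ℤ) (ζ tc : ℕ) (q : ℝ), σ = 1 ∨ σ = -1 → Even ζ →
      0 < q → 4 * ps d ρ β b * Eb d ρ β c N a b ζ ≤ q * tc →
      (law d ρ).real {η : Env d | ¬ Tle ρ β η tc ((σ * ζ) • es j)
        (Eb d ρ β c N a b ζ + 2 * Real.sqrt ((b * Eb d ρ β c N a b ζ + (N : ℝ) ^ (5 * c)) / q) +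
          SS d ρ β tc / q)} ≤ 3 * q := by
  intro ρ _ β c a0 hρ
  filter_upwards [strat j0 hρ β c a0, eventually_ge_atTop 1] with N hN hN1
  intro S a b ha hr hb0 hb j σ ζ tc q hσ hζ hq hE
  classical
  have hln : ln ((σ * (ζ : ℤ)) • es j) = ζ := MvJ_ln j σ ζ hσ
  have hN0 : (0 : ℝ) < N := by exact_mod_cast hN1
  have hpow : 0 < (N : ℝ) ^ (5 * c) := Real.rpow_pos_of_pos hN0 _
  have hEb : Eb d ρ β c N a b ζ = pr d ρ β b * ln ((σ * (ζ : ℤ)) • es j) +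
      ({j} : Finset (Fin d)).card * (12 * a * (b / a) ^ (3 / 4 : ℝ)) + (N : ℝ) ^ (5 * c) := by
    rw [hln, Finset.card_singleton]
    unfold Eb
    push_cast
    ring
  have hb1 : 0 < b := by linarith [S.one]
  have ha1 : 0 < a := by linarith
  have hpr : 0 ≤ pr d ρ β b := by
    have h1 := S.lo b hb0 (hb.trans ha)
    exact (Real.rpow_nonneg hN0.le _).trans h1
  have hEb0 : 0 ≤ Eb d ρ β c N a b ζ := by
    unfold Eb
    have h1 : 0 ≤ (b / a) ^ (3 / 4 : ℝ) := Real.rpow_nonneg (by positivity) _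
    positivity
  have hV : 0 < 4 * (b * Eb d ρ β c N a b ζ + (N : ℝ) ^ (5 * c)) := by positivity
  have hmv : ∀ e : ℝ, 0 < e → Mv d ρ β ((σ * (ζ : ℤ)) • es j) (Eb d ρ β c N a b ζ)
      (4 * (b * Eb d ρ β c N a b ζ + (N : ℝ) ^ (5 * c))) (Eb d ρ β c N a b ζ)
      (4 * ps d ρ β b * Eb d ρ β c N a b ζ) e := by
    intro e he
    refine hN S a b ha hr hb0 hb {j} ((σ * (ζ : ℤ)) • es j) (by rw [hln]; exact hζ) ?_ e he _ hEb
    intro i hi
    have hij : i ≠ j := fun h => hi (Finset.mem_singleton.2 h)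
    simp [es, Pi.single_eq_of_ne hij]
  have hsq : Real.sqrt (4 * (b * Eb d ρ β c N a b ζ + (N : ℝ) ^ (5 * c)) / q) =
      2 * Real.sqrt ((b * Eb d ρ β c N a b ζ + (N : ℝ) ^ (5 * c)) / q) := by
    rw [mul_div_assoc, Real.sqrt_mul (by norm_num)]
    congr 1
    rw [show (4 : ℝ) = 2 ^ 2 by norm_num, Real.sqrt_sq (by norm_num)]
  refine le_of_forall_pos_le_add fun e he => ?_
  have h1 := exact j0 hρ (hmv e he) hq hV (tc := tc) (Or.inl hE)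
  rw [hsq] at h1
  linarith

end Pool.Agent.W_7d29a1_q
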