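import Pool.Agent.W_7d29a1_q.MvI
import Pool.Agent.W_7d29a1_q.MvJ

/-!
Row 601, section 3: moves. `cells` is (3.3) (file MvI), `Eb`, `climb` are (3.2) for the axes (file MvJ).
-/
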