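import Pool.Agent.W_7d29a1_q.LaM
import Pool.Agent.W_7d29a1_q.LbA
import Pool.Agent.W_7d29a1_q.Mv

/-!
Row 601, (9.2): blocks.
-/

namespace Pool.Agent.W_7d29a1_q

open MeasureTheory ProbabilityTheory Filter Topology Pool.Agent.W_MP_7d29a1_pr
  Pool.Agent.W_7d29a1_h46 Pool.Agent.W_7d29a1_h46u Pool.Agent.W_7d29a1_h3

variable {d : ℕ}

theorem LbM_as_tendsto (d : ℕ) : Tendsto (fun N : ℕ => as d N) atTop atTop := by
  unfold as
  exact (tendsto_rpow_atTop (by positivity)).comp tendsto_natCast_atTop_atTop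

theorem LbM_pow {d N : ℕ} {c : ℝ} (hc : c ≤ 1 / (400 * ((d : ℝ) + 2))) (hN : 1 ≤ N) :
    (N : ℝ) ^ (6 * c) ≤ as d N := by
  unfold as
  refine Real.rpow_le_rpow_of_exponent_le (by exact_mod_cast hN) ?_
  have h1 : (0 : ℝ) < (d : ℝ) + 2 := by positivity
  have h2 : (1 : ℝ) / (40 * ((d : ℝ) + 2)) = 10 * (1 / (400 * ((d : ℝ) + 2))) := by
    field_simp
    norm_num
  have h3 : (0 : ℝ) < 1 / (400 * ((d : ℝ) + 2)) := by positivity
  rw [h2]
  linarith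

/-- (9.2): blocks. `W = a / π`, `π` the smallest price of the window, `R = 2 ρ`. -/
theorem blocks (j0 : Fin d) {Λ g C3 ε1 : ℝ} {A : ℕ} (hT : TailProp d Λ g C3 ε1) (hA : NLProp d Λ A) :
    ∃ (q1 ε3 : ℝ) (i00 : ℕ), 0 < q1 ∧ q1 ≤ 1 / 16 ∧ 0 < ε3 ∧ ε3 ≤ 1 / 16 ∧
    ∀ (ρ : Measure ℝ) [IsProbabilityMeasure ρ] (β c a0 : ℝ), EM ρ → ∀ᶠ N : ℕ in atTop,
      Sc d ρ β c a0 N → ∀ (i0 i1 : ℕ) (η : ℝ) (k : ℕ), i00 ≤ i0 → i00 ≤ i1 → 0 < η → η ≤ 1 / 16 →
      Gd d ρ β a0 Λ A N i0 i1 η k → ∃ h : ℕ, 1 ≤ h ∧ h ≤ nn d ρ β ((A : ℝ) ^ k) ∧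
        q1 / 2 ≤ (law d ρ).real {η' : Env d | ∀ x x' : Site d, Even (ln x) → Even (ln x') →
          (sn x : ℝ) ≤ 2 * ε3 * ((A : ℝ) ^ k / pr d ρ β (Λ * (A : ℝ) ^ (k + i1))) →
          (sn x' : ℝ) ≤ 2 * ε3 * ((A : ℝ) ^ k / pr d ρ β (Λ * (A : ℝ) ^ (k + i1))) →
          Vp ρ β (sh 0 x η') (2 * h) (x' - x) ≤ Real.exp (-((A : ℝ) ^ k / 32))} := by
  obtain ⟨q1, i00, hq1, hq16, hL⟩ := lanes j0 hT hA
  obtain ⟨C, hC1, hC⟩ := cells (d := d) j0 (q := q1 / 4) (by linarith) (by linarith)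
  have hΛ : 1 ≤ Λ := hT.1
  have hA2 : 2 ≤ A := hA.1
  have hs0 : 0 < Real.sqrt q1 := Real.sqrt_pos.2 hq1
  have hs1 : Real.sqrt q1 ≤ 1 / 4 := by
    rw [Real.sqrt_le_left (by norm_num)]
    norm_num
    linarith
  obtain ⟨x, hx⟩ : ∃ x : ℝ, x = Real.sqrt q1 / (128 * C) := ⟨_, rfl⟩
  have hC0 : 0 < C := by linarith
  have hx0 : 0 < x := by rw [hx]; positivity
  have hCx : C * x = Real.sqrt q1 / 128 := by
    rw [hx]
    field_simp
  have hx1 : x ≤ 1 / 512 := by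
    have : 1 * x ≤ C * x := mul_le_mul_of_nonneg_right hC1 hx0.le
    linarith
  have hx34 : (x ^ 2) ^ (3 / 4 : ℝ) ≤ x := by
    have h1 : (x ^ 2) ^ (3 / 4 : ℝ) = x ^ (3 / 2 : ℝ) := by
      rw [← Real.rpow_natCast x 2, ← Real.rpow_mul hx0.le]
      norm_num
    rw [h1]
    calc x ^ (3 / 2 : ℝ) ≤ x ^ (1 : ℝ) :=
          Real.rpow_le_rpow_of_exponent_ge hx0 (by linarith) (by norm_num)
      _ = x := Real.rpow_one x
  refine ⟨q1, x ^ 2 / 3, i00, hq1, hq16, by positivity, by nlinarith, fun ρ _ β c a0 hρ => ?_⟩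
  filter_upwards [hL ρ β c a0 hρ, hC ρ β c a0 hρ, (LbM_as_tendsto d).eventually_ge_atTop (1 / x ^ 2),
    (LbM_as_tendsto d).eventually_ge_atTop a0, (LbM_as_tendsto d).eventually_ge_atTop 1,
    eventually_ge_atTop 1] with N hLN hCN hN1 hN2 hN3 hN4 S i0 i1 η k hi0 hi1 hη hη1 G
  have hA1 : (1 : ℝ) ≤ A := by
    have : (2 : ℝ) ≤ A := by exact_mod_cast hA2
    linarith
  obtain ⟨a, ha⟩ : ∃ a : ℝ, a = (A : ℝ) ^ k := ⟨_, rfl⟩
  obtain ⟨P, hP⟩ : ∃ P : ℝ, P = pr d ρ β (Λ * (A : ℝ) ^ (k + i1)) := ⟨_, rfl⟩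
  -- sizes
  have hs4 : as d N ≤ as d N ^ 4 := by
    calc as d N = as d N * 1 := (mul_one _).symm
      _ ≤ as d N * as d N ^ 3 := mul_le_mul_of_nonneg_left (one_le_pow₀ hN3) (by linarith)
      _ = as d N ^ 4 := by ring
  have hk1 : (A : ℝ) ^ (k - i0) ≤ a := by
    rw [ha]
    exact pow_le_pow_right₀ hA1 (Nat.sub_le _ _)
  have hb0 : a0 ≤ (A : ℝ) ^ (k - i0) := by linarith [G.lo]
  have ha4 : as d N ^ 4 ≤ a := G.lo.trans hk1
  have haA : a ≤ (A : ℝ) ^ (k + i1) := by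
    rw [ha]
    exact pow_le_pow_right₀ hA1 (Nat.le_add_right _ _)
  have hap : 0 < (A : ℝ) ^ (k + i1) := by positivity
  have haΛ : a ≤ Λ * (A : ℝ) ^ (k + i1) := by nlinarith
  have hΛm : Λ * (A : ℝ) ^ (k + i1) ≤ am d N := by
    refine le_trans ?_ G.hi
    refine mul_le_mul_of_nonneg_left ?_ (by linarith)
    exact pow_le_pow_right₀ hA1 (Nat.le_succ _)
  have ham : a ≤ am d N := haΛ.trans hΛm
  have ha1 : 1 ≤ a := by linarith
  have hapos : 0 < a := by linarith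
  have haa0 : a0 ≤ a := hb0.trans hk1
  have hPpos : 0 < P := by
    rw [hP]
    exact pr_pos S hN4 (haa0.trans haΛ) hΛm
  have hpra : 0 < pr d ρ β a := pr_pos S hN4 haa0 ham
  have hprP : pr d ρ β a ≤ 17 / 16 * P := by
    have h1 : pr d ρ β a ≤ pr d ρ β ((A : ℝ) ^ (k - i0)) := pr_anti S hb0 hk1 ham
    have h2 := G.slow
    rw [← hP] at h2
    have h3 : (1 + η) * P ≤ 17 / 16 * P := mul_le_mul_of_nonneg_right (by linarith) hPpos.le
    linarith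
  have hreg : Rg d ρ β a0 (1 / 4) a := Rg_mono S hN4 ham (min_le_left _ _) (G.reg a hk1 haΛ)
  have hCx34 : C * (x ^ 2) ^ (3 / 4 : ℝ) ≤ Real.sqrt q1 / 128 := by
    rw [← hCx]
    exact mul_le_mul_of_nonneg_left hx34 hC0.le
  have hx2 : x ^ 2 ≤ 1 := by nlinarith
  obtain ⟨τ, hτ, hmv⟩ := hCN S a (x ^ 2) ham hreg (by positivity) hx2
    (by
      refine (LbM_pow S.csm hN4).trans ?_
      have h1 : 1 ≤ x ^ 2 * as d N := by
        rw [div_le_iff₀ (by positivity)] at hN1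
        linarith
      have h2 : as d N ≤ x ^ 2 * as d N * as d N := by nlinarith
      have h3 : x ^ 2 * as d N * as d N ≤ x ^ 2 * a := by
        rw [mul_assoc]
        refine mul_le_mul_of_nonneg_left ?_ (by positivity)
        refine le_trans ?_ ha4
        calc as d N * as d N = as d N ^ 2 * 1 := by ring
          _ ≤ as d N ^ 2 * as d N ^ 2 := mul_le_mul_of_nonneg_left (one_le_pow₀ hN3) (by positivity)
          _ = as d N ^ 4 := by ring
      exact h2.trans h3)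
    (by
      refine le_trans ?_ ham
      calc C * (x ^ 2) ^ (3 / 4 : ℝ) * a ≤ 1 * a := mul_le_mul_of_nonneg_right (by linarith) hapos.le
        _ = a := one_mul a)
  obtain ⟨B, hB⟩ : ∃ B : ℝ, B = C * (x ^ 2) ^ (3 / 4 : ℝ) * a := ⟨_, rfl⟩
  rw [← hB] at hτ
  have hB1 : B ≤ Real.sqrt q1 / 128 * a := by
    rw [hB]
    exact mul_le_mul_of_nonneg_right hCx34 hapos.le
  obtain ⟨r, hr, hrP⟩ := hLN S i0 i1 η k hi0 hi1 hη hη1 G
  rw [← ha] at hr hrP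
  -- the second moment
  have hcheb : q1 ≤ (SS d ρ β r / (a / 32)) ^ 2 := by
    refine hrP.trans (le_trans (measureReal_mono ?_)
      (wait_cheb (ρ := ρ) (β := β) j0 hρ (le_refl r) (w := a / 32) (by positivity)))
    intro η' h1 h2
    have h1' : Vp ρ β η' (2 * r) 0 ≤ Real.exp (-(a / 16)) := h1
    have h2' : Real.exp (-(a / 32)) ≤ Vp ρ β η' (2 * r) 0 := h2
    have h3 := Real.exp_le_exp.1 (h2'.trans h1')
    linarith
  have hSr : Real.sqrt q1 * a / 32 ≤ SS d ρ β r := by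
    have h1 : Real.sqrt q1 ≤ SS d ρ β r / (a / 32) := by
      rw [Real.sqrt_le_left (div_nonneg (SS_nonneg r) (by positivity))]
      exact hcheb
    rw [le_div_iff₀ (by positivity)] at h1
    linarith
  have hsa : 0 < Real.sqrt q1 * a := by positivity
  have h2τ : 2 * τ < r := by
    by_contra hcon
    have h1 : SS d ρ β r ≤ SS d ρ β (2 * τ) := SS_mono (not_lt.1 hcon)
    have h2 := SS_mul (ρ := ρ) (β := β) j0 hρ 2 τ
    push_cast at h2
    nlinarith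
  obtain ⟨h, hh⟩ : ∃ h : ℕ, r = τ + h + τ := ⟨r - 2 * τ, by omega⟩
  refine ⟨h, by omega, ?_, ?_⟩
  · rw [← ha]
    omega
  have hmove : ∀ z : Site d, Even (ln z) → (sn z : ℝ) ≤ 2 * (x ^ 2 / 3) * (a / P) →
      (law d ρ).real {η : Env d | ¬ Tle ρ β η τ z B} ≤ q1 / 4 := by
    intro z h1 h2
    have h3 := hmv z h1 (h2.trans ?_)
    · rw [← hB] at h3
      exact h3
    · unfold WW
      have e1 : 2 * (x ^ 2 / 3) * (a / P) = x ^ 2 * (a * (2 / (3 * P))) := by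
        field_simp
      have e2 : a / pr d ρ β a = a * (1 / pr d ρ β a) := by ring
      rw [e1, e2]
      refine mul_le_mul_of_nonneg_left (mul_le_mul_of_nonneg_left ?_ hapos.le) (by positivity)
      rw [div_le_div_iff₀ (by positivity) hpra]
      linarith
  have hsplit := LbA_split (ρ := ρ) (β := β) (τ := τ) (h := h) (R := 2 * (x ^ 2 / 3) * (a / P)) (u := B)
    (v := a / 32) (q := q1 / 4) hmove (by linarith)
  rw [← ha, ← hP]
  have hfin : q1 ≤ (law d ρ).real {η : Env d | Vp ρ β η (2 * (τ + h + τ)) 0 ≤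
      Real.exp (-(B + a / 32 + B))} := by
    refine hrP.trans (measureReal_mono ?_)
    intro η' h1
    rw [hh] at h1
    refine le_trans h1 (Real.exp_le_exp.2 ?_)
    have : B ≤ 1 / 4 / 128 * a := hB1.trans (mul_le_mul_of_nonneg_right (by linarith) hapos.le)
    linarith
  linarith

end Pool.Agent.W_7d29a1_q
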