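import Pool.Agent.W_7d29a1_q.BasA

/-!
Row 601, section 4: a grid of even centres. TASK PtA.
-/

namespace Pool.Agent.W_7d29a1_q

open MeasureTheory ProbabilityTheory Filter Topology Pool.Agent.W_MP_7d29a1_pr
  Pool.Agent.W_7d29a1_h46 Pool.Agent.W_7d29a1_h46u Pool.Agent.W_7d29a1_h3

variable {d : ℕ}

/-- At most `K = K(d, ε)` even centres in `{sn ≤ W}` such that every even point of `{sn ≤ W}` is within `ε W` of one of
them. PROOF. `m = ⌊ε W⌋₊` (so `ε W / 2 ≤ m ≤ ε W`), classes `fun i => y i / m` (floor division in `ℤ`): two points `y, z` of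
the same class have `sn (y - z) < m`; the classes of the points with `sn y ≤ W` take at most `2 ⌈2 / ε⌉₊ + 3` values in
every coordinate; `Z` = one even representative with `sn ≤ W` of every class which has one. -/
theorem pt_grid (d : ℕ) {ε : ℝ} (hε : 0 < ε) (hε1 : ε ≤ 1) : ∃ K : ℕ, 1 ≤ K ∧
    ∀ W : ℝ, 4 / ε ≤ W → ∃ Z : Finset (Site d), Z.card ≤ K ∧
      (∀ z ∈ Z, Even (ln z) ∧ (sn z : ℝ) ≤ W) ∧
      ∀ y : Site d, Even (ln y) → (sn y : ℝ) ≤ W → ∃ z ∈ Z, (sn (y - z) : ℝ) ≤ ε * W := by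
  classical
  obtain ⟨Q, hQ⟩ : ∃ Q : ℕ, Q = ⌈2 / ε⌉₊ := ⟨_, rfl⟩
  refine ⟨(2 * Q + 1) ^ d, Nat.one_le_pow _ _ (by omega), fun W hW => ?_⟩
  have hεW : 4 ≤ ε * W := by
    rw [div_le_iff₀ hε] at hW
    linarith
  have hW0 : 0 < W := lt_of_lt_of_le (by positivity) hW
  obtain ⟨m, hm⟩ : ∃ m : ℕ, m = ⌊ε * W⌋₊ := ⟨_, rfl⟩
  have hm1 : (m : ℝ) ≤ ε * W := by
    rw [hm]
    exact Nat.floor_le (by linarith)
  have hm2 : ε * W < m + 1 := by
    rw [hm]
    exact Nat.lt_floor_add_one _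
  have hm0 : 0 < m := by
    rw [hm]
    exact Nat.floor_pos.2 (by linarith)
  have hmR : (1 : ℝ) ≤ m := by exact_mod_cast hm0
  have hWQ : W ≤ Q * m := by
    have h1 : 2 / ε ≤ Q := by
      rw [hQ]
      exact Nat.le_ceil _
    have h2 : ε * W / 2 ≤ m := by linarith
    have h3 : W = 2 / ε * (ε * W / 2) := by
      field_simp
    rw [h3]
    exact mul_le_mul h1 h2 (by positivity) (by positivity)
  obtain ⟨f, hf⟩ : ∃ f : Site d → Site d, f = fun y i => y i / (m : ℤ) := ⟨_, rfl⟩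
  obtain ⟨E, hE⟩ : ∃ E : Finset (Site d), E = (boxF d ⌊W⌋₊).filter fun y => Even (ln y) := ⟨_, rfl⟩
  have hmem : ∀ y : Site d, y ∈ E ↔ (sn y : ℝ) ≤ W ∧ Even (ln y) := by
    intro y
    rw [hE, Finset.mem_filter, mem_boxF_iff, Nat.le_floor_iff hW0.le]
  have hsub : E.image f ⊆ Fintype.piFinset fun _ : Fin d => Finset.Icc (-(Q : ℤ)) Q := by
    intro c hc
    rw [Finset.mem_image] at hc
    obtain ⟨y, hy, rfl⟩ := hc
    rw [hmem] at hy
    rw [Fintype.mem_piFinset]
    intro i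
    have h1 : ((y i).natAbs : ℝ) ≤ Q * m :=
      le_trans (by exact_mod_cast Cat_le_sn y i) (hy.1.trans hWQ)
    have h2 : (y i).natAbs ≤ Q * m := by exact_mod_cast h1
    have h3 : |y i| ≤ (Q : ℤ) * m := by
      rw [Int.abs_eq_natAbs]
      exact_mod_cast h2
    rw [abs_le] at h3
    have hmZ : (0 : ℤ) < m := by exact_mod_cast hm0
    rw [hf, Finset.mem_Icc]
    constructor
    · show -(Q : ℤ) ≤ y i / m
      rw [Int.le_ediv_iff_mul_le hmZ]
      linarith
    · show y i / m ≤ (Q : ℤ)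
      refine Int.ediv_le_of_le_mul hmZ ?_
      linarith
  have hcard : (E.image f).card ≤ (2 * Q + 1) ^ d := by
    refine (Finset.card_le_card hsub).trans (le_of_eq ?_)
    rw [Fintype.card_piFinset_const, Int.card_Icc]
    congr 1
    omega
  have hrep : ∀ c : Site d, ∃ z : Site d, c ∈ E.image f → z ∈ E ∧ f z = c := by
    intro c
    by_cases hc : c ∈ E.image f
    · obtain ⟨z, hz, hz2⟩ := Finset.mem_image.1 hc
      exact ⟨z, fun _ => ⟨hz, hz2⟩⟩
    · exact ⟨0, fun h => absurd h hc⟩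
  choose r hr using hrep
  refine ⟨(E.image f).image r, Finset.card_image_le.trans hcard, ?_, ?_⟩
  · intro z hz
    obtain ⟨c, hc, rfl⟩ := Finset.mem_image.1 hz
    have h1 := (hmem _).1 (hr c hc).1
    exact ⟨h1.2, h1.1⟩
  · intro y hy1 hy2
    have hyE : y ∈ E := (hmem y).2 ⟨hy2, hy1⟩
    have hc : f y ∈ E.image f := Finset.mem_image_of_mem f hyE
    obtain ⟨h1, h2⟩ := hr (f y) hc
    refine ⟨r (f y), Finset.mem_image_of_mem r hc, ?_⟩
    refine le_trans ?_ hm1
    have h3 : sn (y - r (f y)) ≤ m := by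
      rw [sn_le_iff]
      intro j
      have h4 := congrFun h2 j
      rw [hf] at h4
      have h5 : (r (fun i => y i / (m : ℤ)) j) / (m : ℤ) = y j / m := h4
      rw [hf]
      have h6 := Int.emod_add_mul_ediv (r (fun i => y i / (m : ℤ)) j) m
      have h7 := Int.emod_add_mul_ediv (y j) m
      have hmZ : (0 : ℤ) < m := by exact_mod_cast hm0
      have h8 := Int.emod_nonneg (r (fun i => y i / (m : ℤ)) j) hmZ.ne'
      have h9 := Int.emod_lt_of_pos (r (fun i => y i / (m : ℤ)) j) hmZ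
      have h10 := Int.emod_nonneg (y j) hmZ.ne'
      have h11 := Int.emod_lt_of_pos (y j) hmZ
      rw [h5] at h6
      show |y j - r (fun i => y i / (m : ℤ)) j| ≤ m
      rw [abs_le]
      constructor
      · linarith
      · linarith
    exact_mod_cast h3

private theorem PtA_two (x y : Site d) : 2 ∣ ln (x + y) + (ln x + ln y) := by
  have h2 : ln (x + y) + (ln x + ln y) =
      ∑ j, ((x j + y j).natAbs + ((x j).natAbs + (y j).natAbs)) := by
    unfold ln
    rw [Finset.sum_add_distrib, Finset.sum_add_distrib]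
    rfl
  rw [h2]
  refine Finset.dvd_sum fun j _ => ?_
  omega

theorem even_ln_add {x y : Site d} (hx : Even (ln x)) (hy : Even (ln y)) : Even (ln (x + y)) := by
  have h1 := PtA_two x y
  rw [even_iff_two_dvd] at *
  omega

theorem even_ln_neg {x : Site d} (hx : Even (ln x)) : Even (ln (-x)) := by
  have h1 : ln (-x) = ln x := by
    unfold ln
    exact Finset.sum_congr rfl fun j _ => by simp
  rwa [h1]

/-- `ln (x - y)` is even if `ln x` and `ln y` are. -/
theorem even_ln_sub {x y : Site d} (hx : Even (ln x)) (hy : Even (ln y)) : Even (ln (x - y)) := by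
  rw [sub_eq_add_neg]
  exact even_ln_add hx (even_ln_neg hy)

end Pool.Agent.W_7d29a1_q
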