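import Pool.Agent.W_7d29a1_q.Bas

/-!
Row 601, section 6 (tails): decomposition of the walks at the first exit, two rows.
-/

namespace Pool.Agent.W_7d29a1_q

open MeasureTheory ProbabilityTheory Filter Topology Pool.Agent.W_MP_7d29a1_pr
  Pool.Agent.W_7d29a1_h46 Pool.Agent.W_7d29a1_h46u Pool.Agent.W_7d29a1_h3

variable {d : ℕ} {ρ : Measure ℝ} {β : ℝ}

/-- A finite cover. -/
theorem V_cover {ι : Type*} (η : Env d) {n : ℕ} (E : Set (Fin n → Step d)) (I : Finset ι)
    (F : ι → Set (Fin n → Step d)) (h : ∀ s ∈ E, ∃ i ∈ I, s ∈ F i) :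
    V ρ β η E ≤ ∑ i ∈ I, V ρ β η (F i) := by
  classical
  unfold V
  rw [← Finset.mul_sum]
  refine mul_le_mul_of_nonneg_left ?_ (Real.exp_pos _).le
  unfold ZT
  rw [Finset.sum_comm]
  refine Finset.sum_le_sum fun s _ => ?_
  have hw : ∀ G : Set (Fin n → Step d), (0 : ℝ) ≤ if s ∈ G then wgt β 0 η s else 0 := by
    intro G
    split_ifs
    · unfold wgt
      exact (Real.exp_pos _).le
    · exact le_rfl
  by_cases hs : s ∈ E
  · obtain ⟨i, hi, hsi⟩ := h s hs
    rw [if_pos hs]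
    refine le_trans (le_of_eq ?_) (Finset.single_le_sum (f := fun i => if s ∈ F i then wgt β 0 η s else 0)
      (fun i _ => hw (F i)) hi)
    rw [if_pos hsi]
  · rw [if_neg hs]
    exact Finset.sum_nonneg fun i _ => hw (F i)

theorem tlA_sn_vec (e : Step d) : sn (vec e) ≤ 1 := by
  rw [sn_le_iff]
  intro j
  unfold vec
  rcases eq_or_ne j e.1 with rfl | h
  · rw [Pi.single_eq_same]
    split_ifs <;> simp
  · rw [Pi.single_eq_of_ne h]
    simp

theorem tlA_sn_step {n : ℕ} (s : Fin n → Step d) (i : ℕ) : sn (pos s (i + 1)) ≤ sn (pos s i) + 1 := by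
  by_cases hi : i < n
  · rw [Cat_pos_succ s hi]
    exact (sn_add _ _).trans (Nat.add_le_add_left (tlA_sn_vec _) _)
  · have h1 : pos s (i + 1) = pos s i := by
      unfold pos
      refine Finset.sum_congr rfl fun j _ => ?_
      have hj := j.2
      rw [if_pos (by omega), if_pos (by omega)]
    rw [h1]
    omega

/-- First exit at an even time, or the position at the time `2 u`: some class carries a large weight. -/
theorem exit_even (j0 : Fin d) (η : Env d) {n u R : ℕ} (hu : u ≤ n) (hR : 1 ≤ R) (z : Site d) :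
    ∃ (v : ℕ) (q : Site d), v ≤ u ∧ sn q ≤ R + 1 ∧ (R ≤ sn q ∨ v = u) ∧ Even (ln q) ∧
      Vp ρ β η (2 * n) z ≤ ((u : ℝ) + 1) * (4 * (n : ℝ) + 1) ^ d *
        (Vp ρ β η (2 * v) q * Vp ρ β (sh (2 * v) q η) (2 * (n - v)) (z - q)) := by
  classical
  set f : ℕ × Site d → ℝ := fun i =>
    Vp ρ β η (2 * i.1) i.2 * Vp ρ β (sh (2 * i.1) i.2 η) (2 * (n - i.1)) (z - i.2) with hf
  have hf0 : ∀ i, 0 ≤ f i := fun i => mul_nonneg (V_nonneg _ _) (V_nonneg _ _)
  set I : Finset (ℕ × Site d) := (Finset.range (u + 1) ×ˢ boxF d (2 * n)).filter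
    (fun i => sn i.2 ≤ R + 1 ∧ (R ≤ sn i.2 ∨ i.1 = u)) with hI
  have h0 : (u, (0 : Site d)) ∈ I := by
    rw [hI, Finset.mem_filter, Finset.mem_product]
    have h1 : sn (0 : Site d) = 0 := Nat.le_zero.1 (sn_le_iff.2 fun j => by simp)
    refine ⟨⟨by simp, mem_boxF_iff.2 (by rw [h1]; omega)⟩, by rw [h1]; omega, Or.inr rfl⟩
  have h1 : Vp ρ β η (2 * n) z ≤ ∑ i ∈ I, f i := by
    have h2 : ∀ i ∈ I, f i = V ρ β η
        {s : Fin (2 * n) → Step d | pos s (2 * i.1) = i.2 ∧ pos s (2 * n) = z} := by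
      intro i hi
      rw [hI, Finset.mem_filter, Finset.mem_product, Finset.mem_range] at hi
      rw [V_through η (by omega) i.2 z, hf, ← Nat.mul_sub]
    rw [Finset.sum_congr rfl h2]
    refine V_cover η _ I _ fun s hs => ?_
    have hs' : pos s (2 * n) = z := hs
    by_cases hex : ∃ v ≤ u, R ≤ sn (pos s (2 * v))
    · obtain ⟨hv1, hv2⟩ := Nat.find_spec hex
      set v := Nat.find hex with hv
      refine ⟨(v, pos s (2 * v)), ?_, rfl, hs'⟩
      rw [hI, Finset.mem_filter, Finset.mem_product, Finset.mem_range]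
      refine ⟨⟨by omega, ?_⟩, ?_, Or.inl hv2⟩
      · have h3 := mem_boxF_iff.1 (pos_mem_box s (2 * v))
        exact mem_boxF_iff.2 h3
      · show sn (pos s (2 * v)) ≤ R + 1
        rcases Nat.eq_zero_or_pos v with h3 | h3
        · rw [h3, Nat.mul_zero, Cat_pos_zero]
          have h4 : sn (0 : Site d) = 0 := Nat.le_zero.1 (sn_le_iff.2 fun j => by simp)
          rw [h4]
          omega
        · have h4 := Nat.find_min hex (m := v - 1) (by omega)
          have h5 : sn (pos s (2 * (v - 1))) < R := by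
            by_contra h6
            exact h4 ⟨by omega, by omega⟩
          have h6 := tlA_sn_step s (2 * (v - 1))
          have h7 := tlA_sn_step s (2 * (v - 1) + 1)
          rw [show 2 * (v - 1) + 1 + 1 = 2 * v by omega] at h7
          omega
    · push Not at hex
      refine ⟨(u, pos s (2 * u)), ?_, rfl, hs'⟩
      rw [hI, Finset.mem_filter, Finset.mem_product, Finset.mem_range]
      refine ⟨⟨by omega, ?_⟩, ?_, Or.inr rfl⟩
      · have h3 := mem_boxF_iff.1 (pos_mem_box s (2 * u))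
        exact mem_boxF_iff.2 h3
      · have := hex u le_rfl
        show sn (pos s (2 * u)) ≤ R + 1
        omega
  obtain ⟨i, hi, hmax⟩ := Finset.exists_max_image I f ⟨_, h0⟩
  have hcard : (I.card : ℝ) ≤ ((u : ℝ) + 1) * (4 * (n : ℝ) + 1) ^ d := by
    have h2 : I.card ≤ (u + 1) * (2 * (2 * n) + 1) ^ d := by
      refine (Finset.card_filter_le _ _).trans ?_
      rw [Finset.card_product, Finset.card_range, card_boxF]
    have h3 : (I.card : ℝ) ≤ (((u + 1) * (2 * (2 * n) + 1) ^ d : ℕ) : ℝ) := by exact_mod_cast h2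
    refine h3.trans (le_of_eq ?_)
    push_cast
    ring
  have h2 : Vp ρ β η (2 * n) z ≤ ((u : ℝ) + 1) * (4 * (n : ℝ) + 1) ^ d * f i := by
    refine h1.trans ?_
    calc ∑ j ∈ I, f j ≤ ∑ _j ∈ I, f i := Finset.sum_le_sum fun j hj => hmax j hj
      _ = (I.card : ℝ) * f i := by rw [Finset.sum_const, nsmul_eq_mul]
      _ ≤ _ := mul_le_mul_of_nonneg_right hcard (hf0 i)
  have hi' := hi
  rw [hI, Finset.mem_filter, Finset.mem_product, Finset.mem_range] at hi'
  rcases (hf0 i).eq_or_lt with h3 | h3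
  · refine ⟨u, 0, le_rfl, ?_, Or.inr rfl, by rw [Cat_ln_zero]; exact Even.zero, ?_⟩
    · have h4 : sn (0 : Site d) = 0 := Nat.le_zero.1 (sn_le_iff.2 fun j => by simp)
      rw [h4]
      omega
    · rw [← h3, mul_zero] at h2
      exact h2.trans (mul_nonneg (by positivity) (hf0 (u, 0)))
  · refine ⟨i.1, i.2, by omega, hi'.2.1, hi'.2.2, ?_, h2⟩
    have h4 : Vp ρ β η (2 * i.1) i.2 ≠ 0 := by
      intro h5
      rw [hf] at h3
      simp only [h5, zero_mul] at h3
      exact lt_irrefl _ h3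
    have h5 : adm (2 * i.1) i.2 := by
      by_contra h6
      exact h4 (Vp_zero j0 η h6)
    have h6 := h5.2
    rw [Nat.even_iff]
    omega

/-- The position after two steps. -/
theorem two_split (j0 : Fin d) (η : Env d) {n : ℕ} (hn : 1 ≤ n) (z : Site d) :
    ∃ q : Site d, sn q ≤ 2 ∧ Even (ln q) ∧
      Vp ρ β η (2 * n) z ≤ 5 ^ d *
        (Vp ρ β η 2 q * Vp ρ β (sh 2 q η) (2 * (n - 1)) (z - q)) := by
  classical
  set f : Site d → ℝ := fun q =>
    Vp ρ β η 2 q * Vp ρ β (sh 2 q η) (2 * (n - 1)) (z - q) with hf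
  have hf0 : ∀ i, 0 ≤ f i := fun i => mul_nonneg (V_nonneg _ _) (V_nonneg _ _)
  have hz : sn (0 : Site d) = 0 := Nat.le_zero.1 (sn_le_iff.2 fun j => by simp)
  have h0 : (0 : Site d) ∈ boxF d 2 := mem_boxF_iff.2 (by rw [hz]; omega)
  have h1 : Vp ρ β η (2 * n) z ≤ ∑ q ∈ boxF d 2, f q := by
    have h2 : ∀ q ∈ boxF d 2, f q = V ρ β η
        {s : Fin (2 * n) → Step d | pos s 2 = q ∧ pos s (2 * n) = z} := by
      intro q _
      rw [V_through η (by omega) q z, hf, show 2 * n - 2 = 2 * (n - 1) by omega]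
    rw [Finset.sum_congr rfl h2]
    refine V_cover η _ _ _ fun s hs => ⟨pos s 2, mem_boxF_iff.2 ?_, rfl, hs⟩
    have h3 := tlA_sn_step s 0
    have h4 := tlA_sn_step s 1
    rw [Cat_pos_zero, hz] at h3
    simp only [Nat.zero_add, Nat.reduceAdd] at h3 h4
    omega
  obtain ⟨q, hq, hmax⟩ := Finset.exists_max_image (boxF d 2) f ⟨_, h0⟩
  have h2 : Vp ρ β η (2 * n) z ≤ 5 ^ d * f q := by
    refine h1.trans ?_
    calc ∑ j ∈ boxF d 2, f j ≤ ∑ _j ∈ boxF d 2, f q := Finset.sum_le_sum fun j hj => hmax j hj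
      _ = ((boxF d 2).card : ℝ) * f q := by rw [Finset.sum_const, nsmul_eq_mul]
      _ = 5 ^ d * f q := by
        rw [card_boxF]
        norm_num
  rcases (hf0 q).eq_or_lt with h3 | h3
  · refine ⟨0, by rw [hz]; omega, by rw [Cat_ln_zero]; exact Even.zero, ?_⟩
    rw [← h3, mul_zero] at h2
    exact h2.trans (mul_nonneg (by positivity) (hf0 0))
  · refine ⟨q, mem_boxF_iff.1 hq, ?_, h2⟩
    have h4 : Vp ρ β η 2 q ≠ 0 := by
      intro h5
      rw [hf] at h3
      simp only [h5, zero_mul] at h3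
      exact lt_irrefl _ h3
    have h5 : adm 2 q := by
      by_contra h6
      exact h4 (Vp_zero j0 η h6)
    have h6 := h5.2
    rw [Nat.even_iff]
    omega

/-- The bound for two rows: a function of the rows `≤ 2 t`. -/
noncomputable def UU (d : ℕ) (β : ℝ) (M t : ℕ) (η : Env d) : ℝ :=
  ∑ i ∈ Finset.range (2 * t + 1), ∑ y ∈ boxF d M, Real.exp (2 * |β| * |η (i, y)|)

theorem UU_nonneg (M t : ℕ) (η : Env d) : 0 ≤ UU d β M t η :=
  Finset.sum_nonneg fun _ _ => Finset.sum_nonneg fun _ _ => (Real.exp_pos _).le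

theorem one_le_UU (M t : ℕ) (η : Env d) : 1 ≤ UU d β M t η := by
  have hz : sn (0 : Site d) = 0 := Nat.le_zero.1 (sn_le_iff.2 fun j => by simp)
  have h1 : Real.exp (2 * |β| * |η (0, 0)|) ≤ UU d β M t η := by
    unfold UU
    refine le_trans ?_ (Finset.single_le_sum
      (f := fun i => ∑ y ∈ boxF d M, Real.exp (2 * |β| * |η (i, y)|))
      (fun _ _ => Finset.sum_nonneg fun _ _ => (Real.exp_pos _).le)
      (Finset.mem_range.2 (Nat.succ_pos _)))
    exact Finset.single_le_sum (f := fun y => Real.exp (2 * |β| * |η (0, y)|))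
      (fun _ _ => (Real.exp_pos _).le) (mem_boxF_iff.2 (by rw [hz]; omega))
  exact (Real.one_le_exp (by positivity)).trans h1

theorem UU_mono {M t t' : ℕ} (h : t ≤ t') (η : Env d) : UU d β M t η ≤ UU d β M t' η := by
  unfold UU
  exact Finset.sum_le_sum_of_subset_of_nonneg (Finset.range_mono (by omega))
    fun _ _ _ => Finset.sum_nonneg fun _ _ => (Real.exp_pos _).le

theorem measurable_UU (M t : ℕ) : Measurable (UU d β M t) := by
  unfold UU
  refine Finset.measurable_fun_sum _ fun i _ => Finset.measurable_fun_sum _ fun y _ => ?_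
  exact Real.measurable_exp.comp ((measurable_pi_apply _).abs.const_mul _)

theorem dep_UU (M t : ℕ) : DependsOn (UU d β M t) {p : ℕ × Site d | p.1 ≤ 2 * t} := by
  intro η η' h
  unfold UU
  refine Finset.sum_congr rfl fun i hi => Finset.sum_congr rfl fun y _ => ?_
  rw [Finset.mem_range] at hi
  rw [h (i, y) (show i ≤ 2 * t by omega)]

/-- Two rows. -/
theorem two_rows (η : Env d) {M t : ℕ} (ht : 1 ≤ t) (x q : Site d) (hx : sn x + 2 ≤ M) :
    Vp ρ β (sh (2 * (t - 1)) x η) 2 q ≤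
      Real.exp (-(2 * lam ρ β (0 : Vec d))) * (2 * (d : ℝ)) ^ 2 * UU d β M t η := by
  classical
  unfold Vp V
  rw [mul_assoc]
  refine mul_le_mul (le_of_eq (by norm_num)) ?_ (ZT_nonneg _ _ _ _) (Real.exp_pos _).le
  have hc : ((2 * (d : ℝ)) ^ 2) = ((Finset.univ : Finset (Fin 2 → Step d)).card : ℝ) := by
    rw [Finset.card_univ]
    simp
    ring
  rw [hc, ← nsmul_eq_mul, ← Finset.sum_const]
  unfold ZT
  refine Finset.sum_le_sum fun s _ => ?_
  split_ifs
  swap
  · exact UU_nonneg _ _ _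
  set η' := sh (2 * (t - 1)) x η with hη'
  have hz : sn (0 : Site d) = 0 := Nat.le_zero.1 (sn_le_iff.2 fun j => by simp)
  have h1 : wgt β 0 η' s = Real.exp (β * (η' (1, pos s 1) + η' (2, pos s 2))) := by
    unfold wgt energy
    rw [inner_zero_left, zero_add, Fin.sum_univ_two]
    rfl
  have hp1 : sn (pos s 1) ≤ 1 := by
    have := tlA_sn_step s 0
    rw [Cat_pos_zero, hz] at this
    simpa using this
  have hp2 : sn (pos s 2) ≤ 2 := by
    have := tlA_sn_step s 1
    simp only [Nat.reduceAdd] at this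
    omega
  have hm : ∀ (i : ℕ) (y : Site d), 1 ≤ i → i ≤ 2 → sn y ≤ 2 →
      Real.exp (2 * |β| * |η' (i, y)|) ≤ UU d β M t η := by
    intro i y hi1 hi2 hy
    unfold UU
    have e1 : η' (i, y) = η (i + 2 * (t - 1), y + x) := rfl
    rw [e1]
    refine le_trans ?_ (Finset.single_le_sum
      (f := fun i => ∑ y ∈ boxF d M, Real.exp (2 * |β| * |η (i, y)|))
      (fun _ _ => Finset.sum_nonneg fun _ _ => (Real.exp_pos _).le)
      (Finset.mem_range.2 (show i + 2 * (t - 1) < 2 * t + 1 by omega)))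
    refine Finset.single_le_sum (f := fun y => Real.exp (2 * |β| * |η (i + 2 * (t - 1), y)|))
      (fun _ _ => (Real.exp_pos _).le) (mem_boxF_iff.2 ?_)
    have := sn_add y x
    omega
  have h2 := hm 1 (pos s 1) le_rfl (by norm_num) (by omega)
  have h3 := hm 2 (pos s 2) (by norm_num) le_rfl hp2
  rw [h1]
  have h4 : β * (η' (1, pos s 1) + η' (2, pos s 2)) ≤
      max (2 * |β| * |η' (1, pos s 1)|) (2 * |β| * |η' (2, pos s 2)|) := by
    have e1 : β * η' (1, pos s 1) ≤ |β| * |η' (1, pos s 1)| := by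
      rw [← abs_mul]
      exact le_abs_self _
    have e2 : β * η' (2, pos s 2) ≤ |β| * |η' (2, pos s 2)| := by
      rw [← abs_mul]
      exact le_abs_self _
    have e3 := le_max_left (2 * |β| * |η' (1, pos s 1)|) (2 * |β| * |η' (2, pos s 2)|)
    have e4 := le_max_right (2 * |β| * |η' (1, pos s 1)|) (2 * |β| * |η' (2, pos s 2)|)
    linarith
  refine (Real.exp_le_exp.2 h4).trans ?_
  rcases max_choice (2 * |β| * |η' (1, pos s 1)|) (2 * |β| * |η' (2, pos s 2)|) with h5 | h5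
  · rw [h5]
    exact h2
  · rw [h5]
    exact h3

end Pool.Agent.W_7d29a1_q
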