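import Pool.Agent.W_7d29a1_q.ThF
import Pool.Agent.W_7d29a1_q.TlA
import Pool.Agent.W_7d29a1_q.CoD

/-!
Row 601, section 10, step 2: the tube.
-/

namespace Pool.Agent.W_7d29a1_q

open MeasureTheory ProbabilityTheory Filter Topology Pool.Agent.W_MP_7d29a1_pr
  Pool.Agent.W_7d29a1_h46 Pool.Agent.W_7d29a1_h46u Pool.Agent.W_7d29a1_h3

variable {d : ℕ} {ρ : Measure ℝ} {β : ℝ}

/-- Exit at an even time. -/
theorem ThB_exit (j0 : Fin d) (η : Env d) {n S : ℕ} {z : Site d} (hV : 0 < Vp ρ β η (2 * n) z)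
    (h : V ρ β η (stP (2 * n) S z) ≤ 1 / 2 * Vp ρ β η (2 * n) z) :
    ∃ (v : ℕ) (q : Site d), v ≤ n ∧ S ≤ sn q ∧ Even (ln q) ∧
      Vp ρ β η (2 * n) z ≤ 2 * ((n : ℝ) + 1) * (4 * (n : ℝ) + 1) ^ d *
        (Vp ρ β η (2 * v) q * Vp ρ β (sh (2 * v) q η) (2 * (n - v)) (z - q)) := by
  classical
  obtain ⟨f, hf⟩ : ∃ f : ℕ × Site d → ℝ, f = fun i =>
    Vp ρ β η (2 * i.1) i.2 * Vp ρ β (sh (2 * i.1) i.2 η) (2 * (n - i.1)) (z - i.2) := ⟨_, rfl⟩
  obtain ⟨J, hJ⟩ : ∃ J : Finset (ℕ × Site d), J = (Finset.range (n + 1) ×ˢ boxF d (2 * n)).filter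
    (fun i => S ≤ sn i.2) := ⟨_, rfl⟩
  have h1 : Vp ρ β η (2 * n) z ≤ V ρ β η (stP (2 * n) S z) + ∑ i ∈ J, f i := by
    have h2 : ∀ i ∈ J, f i = V ρ β η
        {s : Fin (2 * n) → Step d | pos s (2 * i.1) = i.2 ∧ pos s (2 * n) = z} := by
      intro i hi
      rw [hJ, Finset.mem_filter, Finset.mem_product, Finset.mem_range] at hi
      rw [V_through η (by omega) i.2 z, hf, ← Nat.mul_sub]
    rw [Finset.sum_congr rfl h2]
    have h3 := V_cover (ρ := ρ) (β := β) η (toP (2 * n) z) (Finset.insertNone J)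
      (fun o => match o with
        | none => stP (2 * n) S z
        | some i => {s : Fin (2 * n) → Step d | pos s (2 * i.1) = i.2 ∧ pos s (2 * n) = z}) ?_
    · rw [Finset.sum_insertNone] at h3
      exact h3
    · intro s hs
      have hs' : pos s (2 * n) = z := hs
      by_cases hex : ∀ i ≤ 2 * n, sn (pos s i) ≤ S
      · exact ⟨none, by simp, hex, hs'⟩
      · push Not at hex
        obtain ⟨i, hi, hi'⟩ := hex
        refine ⟨some (i / 2, pos s (2 * (i / 2))), ?_, rfl, hs'⟩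
        rw [Finset.some_mem_insertNone, hJ, Finset.mem_filter, Finset.mem_product, Finset.mem_range]
        refine ⟨⟨by show i / 2 < n + 1; omega, ?_⟩, ?_⟩
        · exact mem_boxF_iff.2 (mem_boxF_iff.1 (pos_mem_box s (2 * (i / 2))))
        · show S ≤ sn (pos s (2 * (i / 2)))
          rcases Nat.even_or_odd' i with ⟨c, hc | hc⟩
          · have e1 : 2 * (i / 2) = i := by omega
            rw [e1]
            omega
          · have e1 : i = 2 * (i / 2) + 1 := by omega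
            have h4 := tlA_sn_step s (2 * (i / 2))
            rw [← e1] at h4
            omega
  have hf0 : ∀ i, 0 ≤ f i := fun i => by
    rw [hf]
    exact mul_nonneg (V_nonneg _ _) (V_nonneg _ _)
  have hsum : 1 / 2 * Vp ρ β η (2 * n) z ≤ ∑ i ∈ J, f i := by linarith
  have hne : J.Nonempty := by
    by_contra hc
    rw [Finset.not_nonempty_iff_eq_empty] at hc
    rw [hc, Finset.sum_empty] at hsum
    linarith
  obtain ⟨i, hi, hmax⟩ := Finset.exists_max_image J f hne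
  have hcard : (J.card : ℝ) ≤ ((n : ℝ) + 1) * (4 * (n : ℝ) + 1) ^ d := by
    have h2 : J.card ≤ (n + 1) * (2 * (2 * n) + 1) ^ d := by
      rw [hJ]
      refine (Finset.card_filter_le _ _).trans ?_
      rw [Finset.card_product, Finset.card_range, card_boxF]
    have h3 : (J.card : ℝ) ≤ (((n + 1) * (2 * (2 * n) + 1) ^ d : ℕ) : ℝ) := by exact_mod_cast h2
    refine h3.trans (le_of_eq ?_)
    push_cast
    ring
  have h2 : ∑ j ∈ J, f j ≤ ((n : ℝ) + 1) * (4 * (n : ℝ) + 1) ^ d * f i := by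
    calc ∑ j ∈ J, f j ≤ ∑ _j ∈ J, f i := Finset.sum_le_sum fun j hj => hmax j hj
      _ = (J.card : ℝ) * f i := by rw [Finset.sum_const, nsmul_eq_mul]
      _ ≤ _ := mul_le_mul_of_nonneg_right hcard (hf0 i)
  have hi' := hi
  rw [hJ, Finset.mem_filter, Finset.mem_product, Finset.mem_range] at hi'
  have h3 : 0 < f i := by
    rcases (hf0 i).eq_or_lt with h3 | h3
    · rw [← h3, mul_zero] at h2
      linarith
    · exact h3
  refine ⟨i.1, i.2, by omega, hi'.2, ?_, ?_⟩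
  · have h4 : Vp ρ β η (2 * i.1) i.2 ≠ 0 := by
      intro h5
      rw [hf] at h3
      simp only [h5, zero_mul] at h3
      exact lt_irrefl _ h3
    have h5 : adm (2 * i.1) i.2 := by
      by_contra h6
      exact h4 (Vp_zero j0 η h6)
    have h6 := h5.2
    rw [Nat.even_iff]
    omega
  · have h4 : f i = Vp ρ β η (2 * i.1) i.2 * Vp ρ β (sh (2 * i.1) i.2 η) (2 * (n - i.1)) (z - i.2) := by
      rw [hf]
    rw [← h4]
    linarith

/-- A polynomial of `N` against `exp (- κ as)`. -/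
theorem ThB_poly (d D : ℕ) {C κ e : ℝ} (hC : 0 ≤ C) (hκ : 0 < κ) (he : 0 < e) :
    ∀ᶠ N : ℕ in atTop, C * (4 * (N : ℝ) + 1) ^ D * Real.exp (-(κ * as d N)) ≤ e := by
  obtain ⟨s, hs⟩ : ∃ s : ℝ, s = 1 / (40 * ((d : ℝ) + 2)) := ⟨_, rfl⟩
  have hs0 : 0 < s := by rw [hs]; positivity
  have h1 := tendsto_rpow_mul_exp_neg_mul_atTop_nhds_zero ((D : ℝ) / s) κ hκ
  have h2 := (h1.const_mul (C * 5 ^ D)).comp (ThF_as_tendsto d)
  rw [mul_zero] at h2
  filter_upwards [h2.eventually (ge_mem_nhds he), eventually_ge_atTop 1] with N hN hN1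
  simp only [Function.comp_apply] at hN
  refine le_trans ?_ hN
  have hNr : (1 : ℝ) ≤ N := by exact_mod_cast hN1
  have h3 : as d N ^ ((D : ℝ) / s) = (N : ℝ) ^ D := by
    unfold as
    rw [← hs, ← Real.rpow_mul (by linarith), mul_div_cancel₀ _ hs0.ne', Real.rpow_natCast]
  rw [h3]
  have h4 : (4 * (N : ℝ) + 1) ^ D ≤ 5 ^ D * (N : ℝ) ^ D := by
    rw [← mul_pow]
    exact pow_le_pow_left₀ (by linarith) (by linarith) D
  calc C * (4 * (N : ℝ) + 1) ^ D * Real.exp (-(κ * as d N))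
      ≤ C * (5 ^ D * (N : ℝ) ^ D) * Real.exp (-(κ * as d N)) :=
        mul_le_mul_of_nonneg_right (mul_le_mul_of_nonneg_left h4 hC) (Real.exp_pos _).le
    _ = C * 5 ^ D * ((N : ℝ) ^ D * Real.exp (-κ * as d N)) := by
        rw [neg_mul]
        ring

theorem ThB_meas_b (N1 : ℕ) (Y : ℝ) (f : Site d → ℝ) : MeasurableSet {η : Env d | ∃ s ≤ N1, ∃ y : Site d,
    Even (ln y) ∧ Y < sn y ∧ Real.exp (-(f y)) ≤ Vp ρ β (sh (2 * s) y η) (2 * (N1 - s)) (-y)} := by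
  have h1 : {η : Env d | ∃ s ≤ N1, ∃ y : Site d, Even (ln y) ∧ Y < sn y ∧
      Real.exp (-(f y)) ≤ Vp ρ β (sh (2 * s) y η) (2 * (N1 - s)) (-y)} =
      ⋃ s : ℕ, ⋃ y : Site d, {η : Env d | (s ≤ N1 ∧ Even (ln y) ∧ Y < sn y) ∧
        Real.exp (-(f y)) ≤ Vp ρ β (sh (2 * s) y η) (2 * (N1 - s)) (-y)} := by
    ext η
    simp only [Set.mem_ofPred_eq, Set.mem_iUnion]
    constructor
    · rintro ⟨s, hs, y, h1, h2, h3⟩
      exact ⟨s, y, ⟨hs, h1, h2⟩, h3⟩
    · rintro ⟨s, y, ⟨hs, h1, h2⟩, h3⟩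
      exact ⟨s, hs, y, h1, h2, h3⟩
  rw [h1]
  refine MeasurableSet.iUnion fun s => MeasurableSet.iUnion fun y => ?_
  by_cases hQ : s ≤ N1 ∧ Even (ln y) ∧ Y < sn y
  · have h2 : {η : Env d | (s ≤ N1 ∧ Even (ln y) ∧ Y < sn y) ∧
        Real.exp (-(f y)) ≤ Vp ρ β (sh (2 * s) y η) (2 * (N1 - s)) (-y)} =
        {η : Env d | Real.exp (-(f y)) ≤ Vp ρ β (sh (2 * s) y η) (2 * (N1 - s)) (-y)} := by
      ext η
      simp only [Set.mem_ofPred_eq, hQ, and_self, true_and]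
    rw [h2]
    exact measurableSet_le measurable_const
      ((measurable_V (ρ := ρ) (β := β) (toP (2 * (N1 - s)) (-y))).comp (measurable_sh (2 * s) y))
  · have h2 : {η : Env d | (s ≤ N1 ∧ Even (ln y) ∧ Y < sn y) ∧
        Real.exp (-(f y)) ≤ Vp ρ β (sh (2 * s) y η) (2 * (N1 - s)) (-y)} = ∅ := by
      ext η
      simp only [Set.mem_ofPred_eq, hQ, false_and, Set.mem_empty_iff_false]
    rw [h2]
    exact MeasurableSet.empty

theorem ThB_even_sub {x y : Site d} (hx : Even (ln x)) (hy : Even (ln y)) : Even (ln (x - y)) := by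
  have h2 : 2 ∣ ln (x - y) + (ln x + ln y) := by
    unfold ln
    rw [← Finset.sum_add_distrib, ← Finset.sum_add_distrib]
    refine Finset.dvd_sum fun j _ => ?_
    rw [Pi.sub_apply]
    omega
  obtain ⟨m, hm⟩ := hx
  obtain ⟨m', hm'⟩ := hy
  rw [Nat.even_iff]
  omega

/-- STEP 2 (tube). -/
theorem th_tube (j0 : Fin d) {Λ g C3 ε1 : ℝ} {A : ℕ} (hT : TailProp d Λ g C3 ε1) (hA : NLProp d Λ A)
    {p1 K : ℝ} (hp : 0 < p1) (hK : 1 ≤ K) :
    ∃ K3 : ℝ, 1 ≤ K3 ∧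
    ∀ (ρ : Measure ℝ) [IsProbabilityMeasure ρ] (β c a0 : ℝ), EM ρ → ∀ᶠ N : ℕ in atTop,
      Sc d ρ β c a0 N → ∀ (i0 i1 : ℕ) (η : ℝ) (k : ℕ), 1 ≤ i1 → 0 < η → η ≤ 1 / 16 →
      Gd d ρ β a0 Λ A N i0 i1 η k → ∀ (h' : ℕ) (z : Site d) (u : ℝ), 1 ≤ h' →
      SS d ρ β h' ≤ 9 / 8 * (A : ℝ) ^ k → Even (ln z) →
      (sn z : ℝ) ≤ 3 * K * ((A : ℝ) ^ k / pr d ρ β (Λ * (A : ℝ) ^ (k + i1))) →
      u ≤ pr d ρ β (Λ * (A : ℝ) ^ (k + i1)) / 2 * sn z →
      p1 ≤ (law d ρ).real {η' : Env d | Tle ρ β η' h' z u} →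
      ∀ Y : ℕ, K3 * ((A : ℝ) ^ k / pr d ρ β (Λ * (A : ℝ) ^ (k + i1))) ≤ Y →
        p1 / 2 ≤ (law d ρ).real {η' : Env d | Real.exp (-(u + 1)) ≤ V ρ β η' (stP (2 * h') Y z)} := by
  obtain ⟨hΛ, hg, hC3, hε, hε1, hTail⟩ := hT
  have hA2 : 2 ≤ A := hA.1
  have hΛ0 : 0 < Λ := by linarith
  -- the constant
  obtain ⟨t, ht⟩ : ∃ t : ℝ, t = g / (64 * Λ) := ⟨_, rfl⟩
  have ht0 : 0 < t := by rw [ht]; positivity
  obtain ⟨K3, hK3, hK3'⟩ : ∃ K3 : ℝ, 12 * K ≤ K3 ∧ C3 * Real.exp (-(t * K3)) ≤ p1 / 8 := by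
    have h1 : Tendsto (fun x : ℝ => C3 * Real.exp (-(t * x))) atTop (𝓝 0) := by
      have h2 : Tendsto (fun x : ℝ => Real.exp (-(t * x))) atTop (𝓝 0) :=
        Real.tendsto_exp_neg_atTop_nhds_zero.comp (tendsto_id.const_mul_atTop ht0)
      simpa using h2.const_mul C3
    obtain ⟨x, hx1, hx2⟩ := ((eventually_ge_atTop (12 * K)).and
      (h1.eventually (ge_mem_nhds (show (0 : ℝ) < p1 / 8 by positivity)))).exists
    exact ⟨x, hx1, hx2⟩
  refine ⟨K3, by linarith, fun ρ _ β c a0 hρ => ?_⟩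
  obtain ⟨C5, hC5, hfarb⟩ := co_far_b (d := d) hρ β
  filter_upwards [hTail ρ β c a0 hρ, ThB_poly d (d + 1) (C := 1) (κ := 1 / 2) (e := 1) zero_le_one
      (by norm_num) one_pos, ThB_poly d (d + 1) (C := C5) (κ := 1 / 64) (e := p1 / 4) hC5.le
      (by norm_num) (by positivity), (ThF_as_tendsto d).eventually_ge_atTop a0,
    (ThF_as_tendsto d).eventually_ge_atTop 1, eventually_ge_atTop 1] with
    N hTN hE1 hE2 hN2 hN3 hN4 S i0 i1 η k hi1 hη hη1 G h' z u hh1 hSS hze hzs hu hPr Y hY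
  have F := Gd_facts S G hΛ hA2 hN4 hN3 hN2
  obtain ⟨a, ha⟩ : ∃ a : ℝ, a = (A : ℝ) ^ k := ⟨_, rfl⟩
  obtain ⟨P, hP⟩ : ∃ P : ℝ, P = pr d ρ β (Λ * (A : ℝ) ^ (k + i1)) := ⟨_, rfl⟩
  rw [← ha, ← hP] at F hzs hY
  rw [← ha] at hSS
  rw [← hP] at hu
  have hPp := F.Ppos
  have ha1 := F.one
  have hapos : 0 < a := by linarith
  have hPne : P ≠ 0 := hPp.ne'
  have hasa : as d N ≤ a := by
    refine le_trans ?_ (F.as4.trans F.b0a)
    calc as d N = as d N * 1 := (mul_one _).symm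
      _ ≤ as d N * as d N ^ 3 := mul_le_mul_of_nonneg_left (one_le_pow₀ hN3) (by linarith)
      _ = as d N ^ 4 := by ring
  have hAr : (2 : ℝ) ≤ A := by exact_mod_cast hA2
  have h2a : Λ * (2 * a) ≤ Λ * (A : ℝ) ^ (k + i1) := by
    refine le_trans ?_ (F.aA 1 hi1)
    rw [pow_one]
    exact mul_le_mul_of_nonneg_left (mul_le_mul_of_nonneg_right hAr hapos.le) hΛ0.le
  have h2a' : 2 * a ≤ Λ * (2 * a) := by nlinarith
  have h2m : Λ * (2 * a) ≤ am d N := h2a.trans F.b1m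
  have h2b : (A : ℝ) ^ (k - i0) ≤ Λ * (2 * a) := by
    have := F.b0a
    linarith
  have hTl := hTN S (2 * a) (by linarith) h2m (F.reg _ h2b h2a)
  obtain ⟨θ, hθ⟩ : ∃ θ : ℝ, θ = 3 / 4 * pr d ρ β (Λ * (2 * a)) := ⟨_, rfl⟩
  obtain ⟨γ, hγ⟩ : ∃ γ : ℝ, γ = g / (Λ * (2 * a)) := ⟨_, rfl⟩
  rw [← hθ, ← hγ] at hTl
  have hγ0 : 0 < γ := by rw [hγ]; positivity
  have hθP : 3 / 4 * P ≤ θ := by
    rw [hθ]
    exact mul_le_mul_of_nonneg_left (F.lo _ h2b h2a) (by norm_num)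
  have hr0 : 0 ≤ ε1 * WW d ρ β (Λ * (2 * a)) := by
    have h1 : 0 < pr d ρ β (Λ * (2 * a)) := lt_of_lt_of_le hPp (F.lo _ h2b h2a)
    unfold WW
    positivity
  have hhn : h' ≤ nn d ρ β (2 * a) := (le_nn S (h2a'.trans h2m)).2 (Or.inr (by linarith))
  have hhN : 4 * h' < N := by
    have := nn_lt S (a := 2 * a) (by linarith) (h2a'.trans h2m)
    omega
  have hhNr : 4 * (h' : ℝ) ≤ N := by exact_mod_cast hhN.le
  have hh0 : (0 : ℝ) ≤ h' := Nat.cast_nonneg _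
  -- sizes
  have hPY : K3 * a ≤ P * Y := by
    have h1 := mul_le_mul_of_nonneg_left hY hPp.le
    have e1 : P * (K3 * (a / P)) = K3 * a := by field_simp
    rw [e1] at h1
    exact h1
  have hPz : P * sn z ≤ 3 * K * a := by
    have h1 := mul_le_mul_of_nonneg_left hzs hPp.le
    have e1 : P * (3 * K * (a / P)) = 3 * K * a := by field_simp
    rw [e1] at h1
    exact h1
  have hKa : 12 * (K * a) ≤ K3 * a := by nlinarith
  have hKa0 : a ≤ K * a := by nlinarith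
  have hPY0 : 0 < P * Y := by linarith
  have hY0 : (0 : ℝ) < Y := (mul_pos_iff_of_pos_left hPp).1 hPY0
  have hzY : 4 * (sn z : ℝ) ≤ Y := by
    have h1 : P * (4 * sn z) ≤ P * Y := by linarith
    exact le_of_mul_le_mul_left h1 hPp
  obtain ⟨κ, hκ⟩ : ∃ κ : ℝ, κ = P / 8 := ⟨_, rfl⟩
  have hκ0 : 0 < κ := by rw [hκ]; positivity
  have hf1 := co_far_f (Y := (Y : ℝ) / 2) hTl hγ0 hr0 hκ0
  have hf2 := hfarb (Y := (Y : ℝ) / 2) hTl hγ0 hr0 hκ0 (by positivity) hhn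
  -- exponents
  have hx1 : t * K3 ≤ γ * (κ * (Y / 2) / 2) := by
    have e1 : γ * (κ * (Y / 2) / 2) = g / (64 * Λ) * (P * Y / a) := by
      rw [hγ, hκ]
      field_simp
      norm_num
    rw [e1, ← ht]
    refine mul_le_mul_of_nonneg_left ?_ ht0.le
    rw [le_div_iff₀ hapos]
    exact hPY
  have hx2 : t * K3 ≤ γ * (κ * (Y / 2)) := by
    have h1 : 0 < γ * (κ * (Y / 2)) := by positivity
    have e1 : γ * (κ * (Y / 2) / 2) = γ * (κ * (Y / 2)) / 2 := by ring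
    linarith
  have hx3 : 1 / 64 * as d N ≤ κ * (Y / 2) / 4 := by
    have e1 : κ * (Y / 2) / 4 = P * Y / 64 := by
      rw [hκ]
      ring
    rw [e1]
    linarith
  have b1 : C3 * Real.exp (-(γ * (κ * (Y / 2)))) ≤ p1 / 8 :=
    (mul_le_mul_of_nonneg_left (Real.exp_le_exp.2 (neg_le_neg hx2)) (by linarith)).trans hK3'
  have b2 : C3 * Real.exp (-(γ * (κ * (Y / 2) / 2))) ≤ p1 / 8 :=
    (mul_le_mul_of_nonneg_left (Real.exp_le_exp.2 (neg_le_neg hx1)) (by linarith)).trans hK3'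
  have b3 : C5 * (2 * (h' : ℝ) + 1) ^ (d + 1) * Real.exp (-(κ * (Y / 2) / 4)) ≤ p1 / 4 := by
    refine le_trans ?_ hE2
    refine mul_le_mul ?_ (Real.exp_le_exp.2 (neg_le_neg hx3)) (Real.exp_pos _).le (by positivity)
    refine mul_le_mul_of_nonneg_left ?_ hC5.le
    exact pow_le_pow_left₀ (by positivity) (by linarith) _
  have hCn : 2 * ((h' : ℝ) + 1) * (4 * (h' : ℝ) + 1) ^ d ≤ Real.exp (1 / 2 * a) := by
    have h1 : (4 * (N : ℝ) + 1) ^ (d + 1) ≤ Real.exp (1 / 2 * as d N) := by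
      have h2 : Real.exp (-(1 / 2 * as d N)) * Real.exp (1 / 2 * as d N) = 1 := by
        rw [← Real.exp_add, neg_add_cancel, Real.exp_zero]
      calc (4 * (N : ℝ) + 1) ^ (d + 1) = 1 * (4 * (N : ℝ) + 1) ^ (d + 1) *
            Real.exp (-(1 / 2 * as d N)) * Real.exp (1 / 2 * as d N) := by
            rw [mul_assoc, h2]
            ring
        _ ≤ 1 * Real.exp (1 / 2 * as d N) := mul_le_mul_of_nonneg_right hE1 (Real.exp_pos _).le
        _ = _ := one_mul _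
    have h2 : Real.exp (1 / 2 * as d N) ≤ Real.exp (1 / 2 * a) := Real.exp_le_exp.2 (by linarith)
    refine le_trans ?_ (h1.trans h2)
    rw [pow_succ, mul_comm]
    refine mul_le_mul (pow_le_pow_left₀ (by positivity) (by linarith) _) ?_ (by positivity) (by positivity)
    have : (1 : ℝ) ≤ N := by exact_mod_cast hN4
    linarith
  -- the events
  obtain ⟨Fb, hFb⟩ : ∃ Fb : Set (Env d), Fb = {η : Env d | ∃ s ≤ h', ∃ y : Site d, Even (ln y) ∧
      (Y : ℝ) / 2 < sn y ∧ Real.exp (-((θ - κ) * sn y)) ≤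
        Vp ρ β (sh (2 * s) y η) (2 * (h' - s)) (-y)} := ⟨_, rfl⟩
  have hFbm : MeasurableSet Fb := by
    rw [hFb]
    exact ThB_meas_b h' ((Y : ℝ) / 2) (fun y => (θ - κ) * sn y)
  have hsub : {η' : Env d | Tle ρ β η' h' z u} ⊆
      ({η' : Env d | Real.exp (-(u + 1)) ≤ V ρ β η' (stP (2 * h') Y z)} ∪
      {η : Env d | ∃ t ≤ nn d ρ β (2 * a), ∃ y : Site d, Even (ln y) ∧ (Y : ℝ) / 2 < sn y ∧
        Real.exp (-((θ - κ) * sn y)) ≤ Vp ρ β η (2 * t) y}) ∪ {η | sh 0 z η ∈ Fb} := by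
    intro η' hη'
    by_contra hcon
    simp only [Set.mem_union, not_or] at hcon
    obtain ⟨⟨c1, c2⟩, c3⟩ := hcon
    have c1' : ¬ Real.exp (-(u + 1)) ≤ V ρ β η' (stP (2 * h') Y z) := c1
    have hT' : Real.exp (-u) ≤ Vp ρ β η' (2 * h') z := hη'
    have hV0 : 0 < Vp ρ β η' (2 * h') z := lt_of_lt_of_le (Real.exp_pos _) hT'
    have hhalf : V ρ β η' (stP (2 * h') Y z) ≤ 1 / 2 * Vp ρ β η' (2 * h') z := by
      have h1 := (not_le.1 c1').le
      have h2 : Real.exp (-(u + 1)) = Real.exp (-u) * Real.exp (-1) := by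
        rw [← Real.exp_add]
        congr 1
        ring
      have h3 : Real.exp (-1) ≤ 1 / 2 := by
        rw [Real.exp_neg]
        have h1 := Real.exp_one_gt_d9
        rw [inv_le_comm₀ (Real.exp_pos _) (by norm_num)]
        norm_num
        linarith
      have h4 : Real.exp (-u) * Real.exp (-1) ≤ Real.exp (-u) * (1 / 2) :=
        mul_le_mul_of_nonneg_left h3 (Real.exp_pos _).le
      linarith
    obtain ⟨v, q, hv, hq, hqe, hexit⟩ := ThB_exit j0 η' hV0 hhalf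
    have hqr : (Y : ℝ) ≤ sn q := by exact_mod_cast hq
    have hqz : (sn q : ℝ) ≤ sn (q - z) + sn z := by
      have h1 := sn_add (q - z) z
      rw [sub_add_cancel] at h1
      exact_mod_cast h1
    -- forward
    have m1 : Vp ρ β η' (2 * v) q < Real.exp (-((θ - κ) * sn q)) := by
      by_contra h1
      exact c2 ⟨v, hv.trans hhn, q, hqe, by linarith, not_lt.1 h1⟩
    -- backward
    have m2 : Vp ρ β (sh (2 * v) q η') (2 * (h' - v)) (z - q) < Real.exp (-((θ - κ) * sn (q - z))) := by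
      by_contra h1
      apply c3
      show sh 0 z η' ∈ Fb
      rw [hFb]
      refine ⟨v, hv, q - z, ThB_even_sub hqe hze, by linarith, ?_⟩
      rw [sh_sh, add_zero, sub_add_cancel, neg_sub]
      exact not_lt.1 h1
    have hθκ : 5 / 8 * P ≤ θ - κ := by
      rw [hκ]
      linarith
    have m3 : Vp ρ β η' (2 * v) q * Vp ρ β (sh (2 * v) q η') (2 * (h' - v)) (z - q) ≤
        Real.exp (-(5 / 8 * P * sn q) + -(5 / 8 * P * sn (q - z))) := by
      rw [Real.exp_add]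
      refine mul_le_mul (m1.le.trans ?_) (m2.le.trans ?_) (V_nonneg _ _) (Real.exp_pos _).le
      · refine Real.exp_le_exp.2 (neg_le_neg ?_)
        exact mul_le_mul_of_nonneg_right hθκ (Nat.cast_nonneg _)
      · refine Real.exp_le_exp.2 (neg_le_neg ?_)
        exact mul_le_mul_of_nonneg_right hθκ (Nat.cast_nonneg _)
    have m4 : Real.exp (-u) ≤ Real.exp (1 / 2 * a) *
        Real.exp (-(5 / 8 * P * sn q) + -(5 / 8 * P * sn (q - z))) := by
      refine hT'.trans (hexit.trans ?_)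
      exact mul_le_mul hCn m3 (mul_nonneg (V_nonneg _ _) (V_nonneg _ _)) (Real.exp_pos _).le
    rw [← Real.exp_add] at m4
    have m5 := Real.exp_le_exp.1 m4
    have m6 : 5 / 8 * P * (Y : ℝ) ≤ 5 / 8 * P * sn q := mul_le_mul_of_nonneg_left hqr (by positivity)
    have m7 : 5 / 8 * P * ((Y : ℝ) - sn z) ≤ 5 / 8 * P * sn (q - z) :=
      mul_le_mul_of_nonneg_left (by linarith) (by positivity)
    nlinarith
  have hfin : (law d ρ).real {η' : Env d | Tle ρ β η' h' z u} ≤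
      (law d ρ).real {η' : Env d | Real.exp (-(u + 1)) ≤ V ρ β η' (stP (2 * h') Y z)} +
      (law d ρ).real {η : Env d | ∃ t ≤ nn d ρ β (2 * a), ∃ y : Site d, Even (ln y) ∧
        (Y : ℝ) / 2 < sn y ∧ Real.exp (-((θ - κ) * sn y)) ≤ Vp ρ β η (2 * t) y} +
      (law d ρ).real {η | sh 0 z η ∈ Fb} :=
    (measureReal_mono hsub (measure_ne_top _ _)).trans ((measureReal_union_le _ _).trans
      (add_le_add (measureReal_union_le _ _) le_rfl))
  rw [real_sh 0 z hFbm] at hfin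
  rw [← hFb] at hf2
  linarith

end Pool.Agent.W_7d29a1_q
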