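import Pool.Agent.W_7d29a1_q.Bas
import Pool.Agent.W_7d29a1_h3.LaneA

/-!
Row 601, section 10, step 3: lanes, first good lane.
-/

namespace Pool.Agent.W_7d29a1_q

open MeasureTheory ProbabilityTheory Filter Topology Pool.Agent.W_MP_7d29a1_pr
  Pool.Agent.W_7d29a1_h46 Pool.Agent.W_7d29a1_h46u Pool.Agent.W_7d29a1_h3

variable {d : ℕ} {ρ : Measure ℝ} [IsProbabilityMeasure ρ] {β : ℝ}

omit [IsProbabilityMeasure ρ] in
private lemma ThCB_es (j0 : Fin d) (z : ℤ) : (z • es j0 : Site d) j0 = z := by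
  simp [es]

private lemma ThCB_fail (j0 : Fin d) {p B : ℝ} {tc h Y J : ℕ} {z : Site d}
    (hp : p ≤ (law d ρ).real {η : Env d | Real.exp (-B) ≤ V ρ β η (stP (2 * h) Y z)}) :
    (law d ρ).real {η : Env d | ∀ j ∈ Finset.range J, ¬ Real.exp (-B) ≤
      V ρ β (sh (2 * tc) (((j * (2 * (Y + 1)) : ℕ) : ℤ) • es j0) η) (stP (2 * h) Y z)} ≤
      (1 - p) ^ J := by
  classical
  let A : ℕ → Set (Env d) := fun j => {η | ¬ Real.exp (-B) ≤
    V ρ β (sh (2 * tc) (((j * (2 * (Y + 1)) : ℕ) : ℤ) • es j0) η) (stP (2 * h) Y z)}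
  let T : ℕ → Set (ℕ × Site d) := fun j => {p | 2 * tc < p.1 ∧
    p.1 ≤ 2 * tc + 2 * h ∧ sn (p.2 - ((j * (2 * (Y + 1)) : ℕ) : ℤ) • es j0) ≤ Y}
  have hm0 : MeasurableSet {η : Env d | ¬ Real.exp (-B) ≤ V ρ β η (stP (2 * h) Y z)} :=
    (measurableSet_le measurable_const (measurable_V _)).compl
  have hm : ∀ j ∈ Finset.range J, MeasurableSet (A j) := by
    intro j _
    exact measurable_sh (2 * tc) (((j * (2 * (Y + 1)) : ℕ) : ℤ) • es j0) hm0
  have hdep : ∀ j ∈ Finset.range J, ∀ η η' : Env d, (∀ p ∈ T j, η p = η' p) →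
      (η ∈ A j ↔ η' ∈ A j) := by
    intro j _ η η' h'
    have h1 := dep_st_sh (ρ := ρ) (β := β) (2 * tc) (((j * (2 * (Y + 1)) : ℕ) : ℤ) • es j0)
      (2 * h) Y z h'
    show (¬ Real.exp (-B) ≤ V ρ β (sh (2 * tc) (((j * (2 * (Y + 1)) : ℕ) : ℤ) • es j0) η)
      (stP (2 * h) Y z)) ↔ (¬ Real.exp (-B) ≤ V ρ β (sh (2 * tc)
      (((j * (2 * (Y + 1)) : ℕ) : ℤ) • es j0) η') (stP (2 * h) Y z))
    simp only at h1
    rw [h1]
  have hdisj : ∀ i ∈ Finset.range J, ∀ j ∈ Finset.range J, i ≠ j → Disjoint (T i) (T j) := by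
    intro i _ j _ hij
    rw [Set.disjoint_left]
    rintro p ⟨-, -, hi⟩ ⟨-, -, hj⟩
    rw [sn_le_iff] at hi hj
    have h1 := hi j0
    have h2 := hj j0
    rw [Pi.sub_apply, ThCB_es] at h1 h2
    have h3 : |((i * (2 * (Y + 1)) : ℕ) : ℤ) - ((j * (2 * (Y + 1)) : ℕ) : ℤ)| ≤ 2 * Y := by
      rw [abs_le] at h1 h2 ⊢
      constructor <;> linarith
    have h4 : ∀ i j : ℕ, i < j → 2 * Y + 2 ≤ j * (2 * (Y + 1)) - i * (2 * (Y + 1)) := by
      intro i j h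
      have h5 : (i + 1) * (2 * (Y + 1)) ≤ j * (2 * (Y + 1)) := Nat.mul_le_mul_right _ h
      have h6 : (i + 1) * (2 * (Y + 1)) = i * (2 * (Y + 1)) + (2 * Y + 2) := by ring
      omega
    rcases lt_or_gt_of_ne hij with h | h
    · have h5 := h4 i j h
      rw [abs_le] at h3
      omega
    · have h5 := h4 j i h
      rw [abs_le] at h3
      omega
  have hset : {η : Env d | ∀ j ∈ Finset.range J, ¬ Real.exp (-B) ≤
      V ρ β (sh (2 * tc) (((j * (2 * (Y + 1)) : ℕ) : ℤ) • es j0) η) (stP (2 * h) Y z)} =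
      {η | ∀ j ∈ Finset.range J, η ∈ A j} := rfl
  rw [hset, indep_events (ρ := ρ) (Finset.range J) A T hm hdep hdisj]
  have hle : ∀ j ∈ Finset.range J, (law d ρ).real (A j) ≤ 1 - p := by
    intro j hj
    have h1 : (law d ρ).real (A j) =
        (law d ρ).real {η : Env d | ¬ Real.exp (-B) ≤ V ρ β η (stP (2 * h) Y z)} :=
      real_sh (ρ := ρ) (2 * tc) (((j * (2 * (Y + 1)) : ℕ) : ℤ) • es j0) hm0
    have h2 : {η : Env d | ¬ Real.exp (-B) ≤ V ρ β η (stP (2 * h) Y z)} =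
        {η : Env d | Real.exp (-B) ≤ V ρ β η (stP (2 * h) Y z)}ᶜ := rfl
    rw [h1, h2, probReal_compl_eq_one_sub (measurableSet_le measurable_const (measurable_V _))]
    linarith
  calc ∏ j ∈ Finset.range J, (law d ρ).real (A j) ≤ ∏ _j ∈ Finset.range J, (1 - p) :=
        Finset.prod_le_prod (fun j _ => measureReal_nonneg) hle
    _ = (1 - p) ^ J := by rw [Finset.prod_const, Finset.card_range]

/-- The first good lane. -/
theorem th_route (j0 : Fin d) {p q B κ w : ℝ} {tc h Y J : ℕ} {z : Site d} (hq : 0 ≤ q)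
    (hp : p ≤ (law d ρ).real {η : Env d | Real.exp (-B) ≤ V ρ β η (stP (2 * h) Y z)})
    (hcl : ∀ j ≤ J, (law d ρ).real {η : Env d | ¬ Tle ρ β η tc
      (((j * (2 * (Y + 1)) : ℕ) : ℤ) • es j0) (κ * (j * (2 * (Y + 1)) : ℕ) + w)} ≤ 3 * q) :
    (law d ρ).real {η : Env d | ¬ Tle ρ β η (tc + h + tc)
      (((J * (2 * (Y + 1)) : ℕ) : ℤ) • es j0 + z) (κ * (J * (2 * (Y + 1)) : ℕ) + B + 2 * w)} ≤
      (1 - p) ^ J + 6 * q := by
  classical
  obtain ⟨y, hy⟩ : ∃ y : ℕ → Site d, ∀ j, y j = ((j * (2 * (Y + 1)) : ℕ) : ℤ) • es j0 :=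
    ⟨_, fun _ => rfl⟩
  obtain ⟨Gs, hGs⟩ : ∃ Gs : ℕ → Set (Env d), ∀ j, Gs j = {η | Real.exp (-B) ≤
    V ρ β (sh (2 * tc) (y j) η) (stP (2 * h) Y z)} := ⟨_, fun _ => rfl⟩
  obtain ⟨A, hA⟩ : ∃ A : ℕ → Set (Env d), ∀ j, A j = {η | η ∈ Gs j ∧ ∀ i < j, η ∉ Gs i} :=
    ⟨_, fun _ => rfl⟩
  obtain ⟨Bd, hBd⟩ : ∃ Bd : ℕ → Set (Env d), ∀ j, Bd j =
      {η | ¬ Tle ρ β η tc (y j) (κ * (j * (2 * (Y + 1)) : ℕ) + w)} ∪
      {η | ¬ Tle ρ β (sh (2 * (tc + h)) (y j + z) η) tc (y (J - j))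
        (κ * ((J - j) * (2 * (Y + 1)) : ℕ) + w)} := ⟨_, fun _ => rfl⟩
  have hGm : ∀ j, MeasurableSet (Gs j) := by
    intro j
    rw [hGs]
    exact measurable_sh (2 * tc) (y j)
      (measurableSet_le measurable_const (measurable_V (ρ := ρ) (β := β) (stP (2 * h) Y z)))
  have hGdep : ∀ j, ∀ η η' : Env d, (∀ p : ℕ × Site d, 2 * tc < p.1 → p.1 ≤ 2 * tc + 2 * h →
      η p = η' p) → (η ∈ Gs j ↔ η' ∈ Gs j) := by
    intro j η η' h'
    have h1 : V ρ β (sh (2 * tc) (y j) η) (stP (2 * h) Y z) =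
        V ρ β (sh (2 * tc) (y j) η') (stP (2 * h) Y z) :=
      dep_V_sh (ρ := ρ) (β := β) (2 * tc) (y j) (stP (2 * h) Y z) fun p hp => h' p hp.1 hp.2
    rw [hGs]
    show (Real.exp (-B) ≤ V ρ β (sh (2 * tc) (y j) η) (stP (2 * h) Y z)) ↔
      (Real.exp (-B) ≤ V ρ β (sh (2 * tc) (y j) η') (stP (2 * h) Y z))
    rw [h1]
  have hAm : ∀ j ∈ Finset.range J, MeasurableSet (A j) := by
    intro j _
    rw [hA]
    have h1 : {η : Env d | η ∈ Gs j ∧ ∀ i < j, η ∉ Gs i} =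
        Gs j ∩ ⋂ i ∈ Finset.range j, (Gs i)ᶜ := by
      ext η
      simp
    rw [h1]
    exact (hGm j).inter (Finset.measurableSet_biInter _ fun i _ => (hGm i).compl)
  have hBm : ∀ j ∈ Finset.range J, MeasurableSet (Bd j) := by
    intro j _
    rw [hBd]
    exact ((measurableSet_Tle _ _ _).compl).union
      (measurable_sh (2 * (tc + h)) (y j + z) (measurableSet_Tle _ _ _).compl)
  obtain ⟨U, hU⟩ : ∃ U : Set (ℕ × Site d), U = {p | 2 * tc < p.1 ∧ p.1 ≤ 2 * tc + 2 * h} := ⟨_, rfl⟩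
  have hAdep : ∀ j ∈ Finset.range J, ∀ η η' : Env d, (∀ p ∈ U, η p = η' p) →
      (η ∈ A j ↔ η' ∈ A j) := by
    intro j _ η η' h'
    have h1 : ∀ i, (η ∈ Gs i ↔ η' ∈ Gs i) := fun i =>
      hGdep i η η' fun p h2 h3 => h' p (by rw [hU]; exact ⟨h2, h3⟩)
    rw [hA]
    show (η ∈ Gs j ∧ ∀ i < j, η ∉ Gs i) ↔ (η' ∈ Gs j ∧ ∀ i < j, η' ∉ Gs i)
    rw [h1 j]
    simp only [h1]
  have hBdep : ∀ j ∈ Finset.range J, ∀ η η' : Env d, (∀ p ∉ U, η p = η' p) →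
      (η ∈ Bd j ↔ η' ∈ Bd j) := by
    intro j _ η η' h'
    have h1 : Tle ρ β η tc (y j) (κ * (j * (2 * (Y + 1)) : ℕ) + w) ↔
        Tle ρ β η' tc (y j) (κ * (j * (2 * (Y + 1)) : ℕ) + w) := by
      have h2 := dep_Tle (ρ := ρ) (β := β) (s := 0) (t := tc) (x := 0) (z := y j)
        (u := κ * (j * (2 * (Y + 1)) : ℕ) + w) (η := η) (η' := η') fun p _ h4 => h' p (by
          rw [hU]
          rintro ⟨h5, -⟩
          omega)
      rwa [Nat.mul_zero, sh_zero, sh_zero] at h2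
    have h2 : Tle ρ β (sh (2 * (tc + h)) (y j + z) η) tc (y (J - j))
        (κ * ((J - j) * (2 * (Y + 1)) : ℕ) + w) ↔
        Tle ρ β (sh (2 * (tc + h)) (y j + z) η') tc (y (J - j))
        (κ * ((J - j) * (2 * (Y + 1)) : ℕ) + w) :=
      dep_Tle fun p h3 _ => h' p (by
          rw [hU]
          rintro ⟨-, h5⟩
          omega)
    rw [hBd]
    show (¬ _ ∨ ¬ _) ↔ (¬ _ ∨ ¬ _)
    exact or_congr (not_congr h1) (not_congr h2)
  have hAdis : ∀ i ∈ Finset.range J, ∀ j ∈ Finset.range J, i ≠ j → Disjoint (A i) (A j) := by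
    intro i _ j _ hij
    rw [Set.disjoint_left]
    intro η h1 h2
    rw [hA] at h1 h2
    rcases lt_or_gt_of_ne hij with h3 | h3
    · exact h2.2 i h3 h1.1
    · exact h1.2 j h3 h2.1
  have hBp : ∀ j ∈ Finset.range J, (law d ρ).real (Bd j) ≤ 6 * q := by
    intro j hj
    rw [hBd]
    have hj' : j < J := Finset.mem_range.1 hj
    refine (measureReal_union_le _ _).trans ?_
    have h1 := hcl j hj'.le
    rw [← hy j] at h1
    have h2 := hcl (J - j) (Nat.sub_le _ _)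
    rw [← hy (J - j)] at h2
    have h3 : (law d ρ).real {η : Env d | ¬ Tle ρ β (sh (2 * (tc + h)) (y j + z) η) tc (y (J - j))
        (κ * ((J - j) * (2 * (Y + 1)) : ℕ) + w)} =
        (law d ρ).real {η : Env d | ¬ Tle ρ β η tc (y (J - j))
        (κ * ((J - j) * (2 * (Y + 1)) : ℕ) + w)} :=
      real_sh (ρ := ρ) (2 * (tc + h)) (y j + z) (measurableSet_Tle _ _ _).compl
    rw [h3]
    linarith
  have hsm := sm_le (ρ := ρ) (Finset.range J) A Bd (fun _ => U) hAm hBm hAdep hBdep hAdis hBp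
  have hfail := ThCB_fail (ρ := ρ) (β := β) (tc := tc) (J := J) j0 hp
  have hsub : {η : Env d | ¬ Tle ρ β η (tc + h + tc)
      (((J * (2 * (Y + 1)) : ℕ) : ℤ) • es j0 + z) (κ * (J * (2 * (Y + 1)) : ℕ) + B + 2 * w)} ⊆
      {η : Env d | ∀ j ∈ Finset.range J, ¬ Real.exp (-B) ≤
      V ρ β (sh (2 * tc) (((j * (2 * (Y + 1)) : ℕ) : ℤ) • es j0) η) (stP (2 * h) Y z)} ∪
      {η | ∃ i ∈ Finset.range J, η ∈ A i ∧ η ∈ Bd i} := by
    intro η hη
    by_contra hc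
    rw [Set.mem_union, not_or] at hc
    obtain ⟨h1, h2⟩ := hc
    have h3 : ∃ j, j < J ∧ η ∈ Gs j := by
      by_contra h4
      apply h1
      intro j hj h5
      apply h4
      refine ⟨j, Finset.mem_range.1 hj, ?_⟩
      rw [hGs, hy]
      exact h5
    obtain ⟨hjJ, hjG⟩ := Nat.find_spec h3
    set j := Nat.find h3 with hjdef
    have hjA : η ∈ A j := by
      rw [hA]
      refine ⟨hjG, fun i hi hGi => ?_⟩
      exact Nat.find_min h3 hi ⟨by omega, hGi⟩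
    have hjB : η ∉ Bd j := fun h4 => h2 ⟨j, Finset.mem_range.2 hjJ, hjA, h4⟩
    rw [hBd, Set.mem_union, not_or] at hjB
    obtain ⟨h5, h6⟩ := hjB
    have h5' : Tle ρ β η tc (y j) (κ * (j * (2 * (Y + 1)) : ℕ) + w) := not_not.1 h5
    have h6' : Tle ρ β (sh (2 * (tc + h)) (y j + z) η) tc (y (J - j))
        (κ * ((J - j) * (2 * (Y + 1)) : ℕ) + w) := not_not.1 h6
    have h7 : Tle ρ β (sh (2 * tc) (y j) η) h z B := by
      rw [hGs] at hjG
      exact le_trans hjG (V_mono _ stP_sub)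
    have h8 := Tle_add (Tle_add h5' h7) h6'
    apply hη
    have h9 : y j + z + y (J - j) = ((J * (2 * (Y + 1)) : ℕ) : ℤ) • es j0 + z := by
      have h10 : y j + y (J - j) = ((J * (2 * (Y + 1)) : ℕ) : ℤ) • es j0 := by
        rw [hy, hy, ← add_smul]
        congr 1
        have h11 : j * (2 * (Y + 1)) + (J - j) * (2 * (Y + 1)) = J * (2 * (Y + 1)) := by
          rw [← Nat.add_mul]
          congr 1
          omega
        exact_mod_cast h11
      rw [← h10]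
      abel
    rw [h9] at h8
    refine Tle_mono h8 (le_of_eq ?_)
    have h12 : ((j * (2 * (Y + 1)) : ℕ) : ℝ) + ((J - j) * (2 * (Y + 1)) : ℕ) =
        ((J * (2 * (Y + 1)) : ℕ) : ℝ) := by
      have h11 : j * (2 * (Y + 1)) + (J - j) * (2 * (Y + 1)) = J * (2 * (Y + 1)) := by
        rw [← Nat.add_mul]
        congr 1
        omega
      exact_mod_cast h11
    rw [← h12]
    ring
  have h1 := (measureReal_mono (μ := law d ρ) hsub).trans (measureReal_union_le _ _)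
  have h2 : (law d ρ).real {η | ∃ i ∈ Finset.range J, η ∈ A i} ≤ 1 := measureReal_le_one
  have h3 : 6 * q * (law d ρ).real {η | ∃ i ∈ Finset.range J, η ∈ A i} ≤ 6 * q := by
    have := mul_le_mul_of_nonneg_left h2 (show 0 ≤ 6 * q by linarith)
    linarith
  linarith

end Pool.Agent.W_7d29a1_q
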