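import Pool.Agent.W_7d29a1_q.ThCA
import Pool.Agent.W_7d29a1_q.ThCB

/-!
Row 601, section 10, step 3: many lanes, (10.2).
-/

namespace Pool.Agent.W_7d29a1_q

open MeasureTheory ProbabilityTheory Filter Topology Pool.Agent.W_MP_7d29a1_pr
  Pool.Agent.W_7d29a1_h46 Pool.Agent.W_7d29a1_h46u Pool.Agent.W_7d29a1_h3

variable {d : ℕ}

/-- SECTION 10, STEP 3. From the tube event (probability at least `p`) to the exact displacement
`J * 2 (Y + 1) e_1 + z` with probability at least `1 - pf`. -/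
theorem th_lanes (j0 : Fin d) {Λ : ℝ} {A : ℕ} (hΛ : 1 ≤ Λ) (hA : 2 ≤ A) {δ p pf K4 : ℝ} (hδ : 0 < δ)
    (hδ1 : δ ≤ 1) (hp : 0 < p) (hp1 : p ≤ 1) (hpf : 0 < pf) (hpf1 : pf ≤ 1) (hK : 1 ≤ K4) :
    ∃ J i00 : ℕ, 1 ≤ J ∧
    ∀ (ρ : Measure ℝ) [IsProbabilityMeasure ρ] (β c a0 : ℝ), EM ρ → ∀ᶠ N : ℕ in atTop,
      Sc d ρ β c a0 N → ∀ (i0 i1 : ℕ) (η : ℝ) (k : ℕ), i00 ≤ i0 → 0 < η → η ≤ 1 / 16 →
      Gd d ρ β a0 Λ A N i0 i1 η k → ∀ (h Y : ℕ) (z : Site d) (u : ℝ), 1 ≤ h →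
      SS d ρ β h ≤ 9 / 8 * (A : ℝ) ^ k → 8 * h ≤ 9 * nn d ρ β ((A : ℝ) ^ k) →
      2 * ((Y : ℝ) + 1) ≤ K4 * ((A : ℝ) ^ k / pr d ρ β (Λ * (A : ℝ) ^ (k + i1))) →
      p ≤ (law d ρ).real {η' : Env d | Real.exp (-(u + 1)) ≤ V ρ β η' (stP (2 * h) Y z)} →
      ∃ h3 : ℕ, 1 ≤ h3 ∧ h3 ≤ 2 * nn d ρ β ((A : ℝ) ^ k) ∧ SS d ρ β h3 ≤ 2 * (A : ℝ) ^ k ∧
        1 - pf ≤ (law d ρ).real {η' : Env d | Tle ρ β η' h3
          (((J * (2 * (Y + 1)) : ℕ) : ℤ) • es j0 + z)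
          ((1 + η) * pr d ρ β (Λ * (A : ℝ) ^ (k + i1)) * (J * (2 * (Y + 1)) : ℕ) + u +
            δ / 4 * (A : ℝ) ^ k)} := by
  obtain ⟨J, hJ⟩ : ∃ J : ℕ, (1 - p) ^ J < pf / 2 := exists_pow_lt_of_lt_one (by positivity) (by linarith)
  obtain ⟨i2, i3, hi23, h64, hcl⟩ := th_climb j0 hΛ hA hδ hδ1 (q := pf / 12) (by positivity)
    (by linarith) hK (J + 1)
  refine ⟨J + 1, i3, by omega, ?_⟩
  intro ρ _ β c a0 hρ
  have hlim := ThF_as_tendsto d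
  filter_upwards [hcl ρ β c a0 hρ, eventually_ge_atTop 1, hlim.eventually_ge_atTop 1,
    hlim.eventually_ge_atTop a0, hlim.eventually_ge_atTop (8 / δ)] with N hcl hN has1 has0 hasδ
  intro S i0 i1 η k hi hη hη1 G h Y z u hh hSh h8 hY hV
  have F := Gd_facts S G hΛ hA hN has1 has0
  have hAR : (2 : ℝ) ≤ A := by exact_mod_cast hA
  have hA1 : (1 : ℝ) < A := by linarith
  obtain ⟨a, ha⟩ : ∃ a : ℝ, a = (A : ℝ) ^ k := ⟨_, rfl⟩
  obtain ⟨P, hP⟩ : ∃ P : ℝ, P = pr d ρ β (Λ * (A : ℝ) ^ (k + i1)) := ⟨_, rfl⟩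
  have hcl' := hcl S i0 i1 η k hi hη hη1 G
  rw [← ha, ← hP] at F hcl'
  rw [← ha] at hSh h8 ⊢
  rw [← ha, ← hP] at hY
  rw [← hP]
  have ham : a ≤ am d N := F.ab1.trans F.b1m
  have ha1 := F.one
  have ha0' : 0 < a := by linarith
  have hik : i0 ≤ k := G.ik
  obtain ⟨tc, htc⟩ : ∃ tc : ℕ, tc = nn d ρ β ((A : ℝ) ^ (k - i2)) := ⟨_, rfl⟩
  rw [← htc] at hcl'
  have hAi2 : (A : ℝ) ^ (k - i2) * (A : ℝ) ^ i2 = a := by
    rw [ha, ← pow_add]; congr 1; omega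
  have hAi2p : 0 < (A : ℝ) ^ (k - i2) := by positivity
  have hAi2le : (A : ℝ) ^ (k - i2) ≤ a := by
    rw [ha]
    exact pow_le_pow_right₀ hA1.le (Nat.sub_le _ _)
  have hStc : SS d ρ β tc ≤ a / 64 := by
    have h1 : SS d ρ β tc ≤ (A : ℝ) ^ (k - i2) := by
      rw [htc]
      exact SS_nn S hAi2p.le (hAi2le.trans ham)
    have h2 : (A : ℝ) ^ (k - i2) * 64 ≤ a := by
      calc (A : ℝ) ^ (k - i2) * 64 ≤ (A : ℝ) ^ (k - i2) * (A : ℝ) ^ i2 :=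
            mul_le_mul_of_nonneg_left h64 hAi2p.le
        _ = a := hAi2
    linarith
  have hntc : 64 * tc ≤ nn d ρ β a := by
    have h2 : (64 : ℕ) * (A : ℝ) ^ (k - i2) ≤ a := by
      push_cast
      calc 64 * (A : ℝ) ^ (k - i2) ≤ (A : ℝ) ^ i2 * (A : ℝ) ^ (k - i2) :=
            mul_le_mul_of_nonneg_right h64 hAi2p.le
        _ = a := by rw [mul_comm]; exact hAi2
    have h3 := nn_mul j0 hρ S (a := (A : ℝ) ^ (k - i2)) hAi2p.le 64 (h2.trans ham)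
    rw [← htc] at h3
    exact h3.trans (nn_mono S (by positivity) h2 ham)
  have hroute := th_route (ρ := ρ) (β := β) j0 (p := p) (q := pf / 12) (B := u + 1) (κ := (1 + η) * P)
    (w := δ / 16 * a) (tc := tc) (h := h) (Y := Y) (J := J + 1) (z := z) (by positivity) hV
    (fun j hj => hcl' j (2 * (Y + 1)) hj ⟨Y + 1, by ring⟩ (by push_cast; exact hY))
  refine ⟨tc + h + tc, by omega, by omega, ?_, ?_⟩
  · have h1 := SS_add (β := β) j0 hρ (tc + h) tc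
    have h2 := SS_add (β := β) j0 hρ tc h
    linarith
  · have hJ' : (1 - p) ^ (J + 1) ≤ pf / 2 := by
      rw [pow_succ]
      have h1 : 0 ≤ (1 - p) ^ J := pow_nonneg (by linarith) _
      nlinarith
    have hsub : {η' : Env d | Tle ρ β η' (tc + h + tc)
          ((((J + 1) * (2 * (Y + 1)) : ℕ) : ℤ) • es j0 + z)
          ((1 + η) * P * ((J + 1) * (2 * (Y + 1)) : ℕ) + u + δ / 4 * a)}ᶜ ⊆
        {η' : Env d | ¬ Tle ρ β η' (tc + h + tc)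
          ((((J + 1) * (2 * (Y + 1)) : ℕ) : ℤ) • es j0 + z)
          ((1 + η) * P * ((J + 1) * (2 * (Y + 1)) : ℕ) + (u + 1) + 2 * (δ / 16 * a))} := by
      intro η' h1 h2
      apply h1
      refine Tle_mono h2 ?_
      have h3 : 8 ≤ δ * a := by
        rw [div_le_iff₀ hδ] at hasδ
        have h4 : as d N ≤ a := by
          calc as d N = as d N * 1 := (mul_one _).symm
            _ ≤ as d N * as d N ^ 3 := mul_le_mul_of_nonneg_left (one_le_pow₀ has1) (by linarith)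
            _ = as d N ^ 4 := by ring
            _ ≤ a := F.as4.trans F.b0a
        calc 8 ≤ as d N * δ := hasδ
          _ ≤ a * δ := mul_le_mul_of_nonneg_right h4 hδ.le
          _ = δ * a := mul_comm _ _
      linarith
    have h1 := measureReal_mono (μ := law d ρ) hsub
    rw [probReal_compl_eq_one_sub (measurableSet_Tle _ _ _)] at h1
    linarith

end Pool.Agent.W_7d29a1_q
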