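import Pool.Agent.W_7d29a1_q.ThDA

/-!
Row 601, section 10, step 4: contradiction to the price.
-/

namespace Pool.Agent.W_7d29a1_q

open MeasureTheory ProbabilityTheory Filter Topology Pool.Agent.W_MP_7d29a1_pr
  Pool.Agent.W_7d29a1_h46 Pool.Agent.W_7d29a1_h46u Pool.Agent.W_7d29a1_h3

variable {d : ℕ}

/-- The reflection of all coordinates except `j0`. -/
def ThD_rf (j0 : Fin d) (x : Site d) : Site d := sAct (Equiv.refl _) (fun j => decide (j = j0)) x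

theorem ThD_sum (j0 : Fin d) (D : Site d) (m : ℕ) :
    ∑ i ∈ Finset.range (2 * m), (if i % 2 = 0 then D else ThD_rf j0 D) =
      Pi.single j0 (2 * (m : ℤ) * D j0) := by
  induction m with
  | zero => simp
  | succ m ih =>
    rw [show 2 * (m + 1) = 2 * m + 1 + 1 by ring, Finset.sum_range_succ, Finset.sum_range_succ, ih]
    rw [if_pos (by omega), if_neg (by omega)]
    funext j
    simp only [Pi.add_apply, ThD_rf, sAct, Equiv.refl_apply]
    by_cases hj : j = j0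
    · subst hj
      simp only [Pi.single_eq_same, decide_true, if_true]
      push_cast
      ring
    · simp only [Pi.single_eq_of_ne hj, decide_eq_true_eq, if_neg hj]
      ring

theorem ThD_sn (j0 : Fin d) (v : ℕ) : sn (Pi.single j0 (v : ℤ) : Site d) = v := by
  apply le_antisymm
  · rw [sn_le_iff]
    intro j
    by_cases hj : j = j0
    · subst hj
      rw [Pi.single_eq_same, Nat.abs_cast]
    · rw [Pi.single_eq_of_ne hj, abs_zero]
      exact Int.natCast_nonneg v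
  · have h1 := sn_le_iff.1 (le_refl (sn (Pi.single j0 (v : ℤ) : Site d))) j0
    rw [Pi.single_eq_same, Nat.abs_cast] at h1
    exact_mod_cast h1

theorem ThD_ln (j0 : Fin d) (v : ℕ) : ln (Pi.single j0 (v : ℤ) : Site d) = v := by
  classical
  unfold ln
  rw [Finset.sum_eq_single j0]
  · rw [Pi.single_eq_same, Int.natAbs_natCast]
  · intro i _ hi
    rw [Pi.single_eq_of_ne hi, Int.natAbs_zero]
  · intro h
    exact absurd (Finset.mem_univ j0) h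

/-- The numbers. -/
theorem ThD_num {δ B K m a P L η X S1 S2 : ℝ} (hδ : 0 < δ) (hδ1 : δ < 1) (hK : 0 < K)
    (hm : 9 / 10 * K ≤ m) (ha : 0 < a) (hPL : a ≤ P * L) (hη : η * B ≤ δ / 16) (hη0 : 0 ≤ η)
    (hB : P * L ≤ B * a) (hS1 : S1 ≤ 2 * a) (hS2 : S2 ≤ δ / 400 * (K * a))
    (hX : X = m * ((1 + η) * P * L - δ / 4 * a) + 8 * (K * (δ / 1000 * S1) + S2)) :
    max X 0 + 2 * S2 < P * (m * L) := by
  have hKa : 0 < K * a := by positivity
  have hm0 : 0 < m := by linarith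
  have hma : 0 < m * a := by positivity
  have h1 : η * (P * L) ≤ δ / 16 * a := by
    have e1 := mul_le_mul_of_nonneg_left hB hη0
    have e2 := mul_le_mul_of_nonneg_right hη ha.le
    linarith
  have h2 : m * (η * (P * L)) ≤ m * (δ / 16 * a) := mul_le_mul_of_nonneg_left h1 hm0.le
  have h3 : K * (δ / 1000 * S1) ≤ K * (δ / 1000 * (2 * a)) :=
    mul_le_mul_of_nonneg_left (mul_le_mul_of_nonneg_left hS1 (by positivity)) hK.le
  have h4 : δ * (K * a) ≤ δ * (10 / 9 * (m * a)) := by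
    refine mul_le_mul_of_nonneg_left ?_ hδ.le
    have := mul_le_mul_of_nonneg_right hm ha.le
    linarith
  have h5 : 0 < δ * (m * a) := by positivity
  have h6 : m * a ≤ m * (P * L) := mul_le_mul_of_nonneg_left hPL hm0.le
  have h7 : δ * (m * a) ≤ 1 * (m * a) := mul_le_mul_of_nonneg_right hδ1.le hma.le
  rcases le_total X 0 with h | h
  · rw [max_eq_right h]
    nlinarith
  · rw [max_eq_left h, hX]
    nlinarith

/-- The number of blocks. -/
theorem ThD_consts {A : ℕ} (hA : 2 ≤ A) {δ B : ℝ} (hδ : 0 < δ) (hδ1 : δ < 1) :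
    ∃ i K m i2 : ℕ, 2 * K ≤ (A + 1) ^ i ∧ (100 : ℝ) ≤ K ∧ (A : ℝ) ^ i ≤ δ / 400 * K ∧
      ((2 * m : ℕ) : ℝ) ≤ 19 / 20 * K ∧ 9 / 10 * (K : ℝ) ≤ ((2 * m : ℕ) : ℝ) ∧
      (K : ℝ) * B < (A : ℝ) ^ i2 := by
  have hA0 : (0 : ℝ) < A := by
    have : 0 < A := by omega
    exact_mod_cast this
  have hA1 : (1 : ℝ) ≤ A := by
    have : 1 ≤ A := by omega
    exact_mod_cast this
  obtain ⟨i, hi⟩ : ∃ i : ℕ, 1600 / δ < (((A : ℝ) + 1) / A) ^ i :=
    pow_unbounded_of_one_lt _ (by rw [one_lt_div hA0]; linarith)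
  rw [div_pow, lt_div_iff₀ (pow_pos hA0 i)] at hi
  obtain ⟨K, hKdef⟩ : ∃ K : ℕ, K = (A + 1) ^ i / 2 := ⟨_, rfl⟩
  have hKr : ((A : ℝ) + 1) ^ i ≤ 2 * K + 1 := by
    have h1 : (A + 1) ^ i ≤ 2 * K + 1 := by omega
    have h2 : (((A + 1) ^ i : ℕ) : ℝ) ≤ ((2 * K + 1 : ℕ) : ℝ) := by exact_mod_cast h1
    push_cast at h2
    exact h2
  have hAi : (1 : ℝ) ≤ (A : ℝ) ^ i := one_le_pow₀ hA1
  have h1600 : 1600 ≤ 1600 / δ * (A : ℝ) ^ i := by
    have h1 : 1600 ≤ 1600 / δ := by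
      rw [le_div_iff₀ hδ]
      linarith
    have h2 := mul_le_mul_of_nonneg_left hAi (by positivity : (0 : ℝ) ≤ 1600 / δ)
    linarith
  have hK100 : (100 : ℝ) ≤ K := by linarith
  have hKA : (A : ℝ) ^ i ≤ δ / 400 * K := by
    have h1 : 1600 / δ * (A : ℝ) ^ i ≤ 4 * K := by linarith
    have h2 := mul_le_mul_of_nonneg_left h1 (by positivity : (0 : ℝ) ≤ δ / 1600)
    have h3 : δ / 1600 * (1600 / δ * (A : ℝ) ^ i) = (A : ℝ) ^ i := by
      field_simp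
    rw [h3] at h2
    linarith
  obtain ⟨m, hmdef⟩ : ∃ m : ℕ, m = 19 * K / 40 := ⟨_, rfl⟩
  have hm1 : ((2 * m : ℕ) : ℝ) ≤ 19 / 20 * K := by
    have h1 : 40 * m ≤ 19 * K := by omega
    have h2 : ((40 * m : ℕ) : ℝ) ≤ ((19 * K : ℕ) : ℝ) := by exact_mod_cast h1
    push_cast at h2 ⊢
    linarith
  have hm2 : 9 / 10 * (K : ℝ) ≤ ((2 * m : ℕ) : ℝ) := by
    have h1 : 19 * K ≤ 40 * m + 39 := by omega
    have h2 : ((19 * K : ℕ) : ℝ) ≤ ((40 * m + 39 : ℕ) : ℝ) := by exact_mod_cast h1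
    push_cast at h2 ⊢
    linarith
  obtain ⟨i2, hi2⟩ : ∃ i2 : ℕ, (K : ℝ) * B < (A : ℝ) ^ i2 :=
    pow_unbounded_of_one_lt _ (by
      have : 1 < A := by omega
      exact_mod_cast this)
  exact ⟨i, K, m, i2, by omega, hK100, hKA, hm1, hm2, hi2⟩

/-- The successful windows give a price. -/
theorem ThD_Ch {ρ : Measure ℝ} [IsProbabilityMeasure ρ] {β : ℝ} (j0 : Fin d) (hρ : EM ρ) {h3 K m L : ℕ}
    {D : Site d} {x q : ℝ} (hh : 1 ≤ h3) (hq : 0 < q) (hK1 : 1 ≤ K) (hm : ((2 * m : ℕ) : ℝ) + 8 * (K * q ^ 2) ≤ K)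
    (hDL : D j0 = (L : ℤ)) (hprob : 1 - q ^ 2 ≤ (law d ρ).real {η' : Env d | Tle ρ β η' h3 D x}) :
    Ch ρ β (K * h3) (Pi.single j0 ((2 * m * L : ℕ) : ℤ) : Site d)
      (max (((2 * m : ℕ) : ℝ) * x + 8 * (K * (q * SS d ρ β h3) + SS d ρ β (K * h3))) 0) := by
  have hbad : (law d ρ).real {η' : Env d | ¬ Tle ρ β η' h3 D x} ≤ q ^ 2 := by
    have h1 := probReal_compl_eq_one_sub (μ := law d ρ) (measurableSet_Tle (ρ := ρ) (β := β) h3 D x)
    have h2 : (law d ρ).real {η' : Env d | ¬ Tle ρ β η' h3 D x} =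
        1 - (law d ρ).real {η' : Env d | Tle ρ β η' h3 D x} := h1
    rw [h2]
    linarith
  have hbad' : (law d ρ).real {η' : Env d | ¬ Tle ρ β η' h3 (ThD_rf j0 D) x} ≤ q ^ 2 := by
    have h1 := probReal_compl_eq_one_sub (μ := law d ρ)
      (measurableSet_Tle (ρ := ρ) (β := β) h3 (ThD_rf j0 D) x)
    have h2 : (law d ρ).real {η' : Env d | ¬ Tle ρ β η' h3 (ThD_rf j0 D) x} =
        1 - (law d ρ).real {η' : Env d | Tle ρ β η' h3 (ThD_rf j0 D) x} := h1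
    have h3' : (law d ρ).real {η' : Env d | Tle ρ β η' h3 (ThD_rf j0 D) x} =
        (law d ρ).real {η' : Env d | Tle ρ β η' h3 D x} := real_Tle_act _ _ _ _ _
    rw [h2, h3']
    linarith
  have hwin := th_windows (ρ := ρ) (β := β) j0 hρ hh (x := x)
    (D := fun i => if i % 2 = 0 then D else ThD_rf j0 D) hq (fun i => by
      by_cases hi : i % 2 = 0
      · simp only [if_pos hi]
        exact hbad
      · simp only [if_neg hi]
        exact hbad') (K := K) (m := 2 * m) hK1 hm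
  rw [ThD_sum, hDL] at hwin
  have hv : (2 * (m : ℤ) * (L : ℤ)) = ((2 * m * L : ℕ) : ℤ) := by
    push_cast
    ring
  rw [hv] at hwin
  obtain ⟨X, hXdef⟩ : ∃ X : ℝ, X = ((2 * m : ℕ) : ℝ) * x +
    8 * (K * (q * SS d ρ β h3) + SS d ρ β (K * h3)) := ⟨_, rfl⟩
  rw [← hXdef] at hwin ⊢
  obtain ⟨v, hvdef⟩ : ∃ v : Site d, v = Pi.single j0 ((2 * m * L : ℕ) : ℤ) := ⟨_, rfl⟩
  rw [← hvdef] at hwin ⊢
  refine ⟨le_max_right _ _, ?_⟩
  have h1 := probReal_compl_eq_one_sub (μ := law d ρ) (measurableSet_Tle (ρ := ρ) (β := β) (K * h3) v X)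
  have h2 : (law d ρ).real {η' : Env d | ¬ Tle ρ β η' (K * h3) v X} =
      1 - (law d ρ).real {η' : Env d | Tle ρ β η' (K * h3) v X} := h1
  have h3' : (law d ρ).real {η' : Env d | Tle ρ β η' (K * h3) v X} ≤
      (law d ρ).real {η' : Env d | Tle ρ β η' (K * h3) v (max X 0)} :=
    measureReal_mono fun η' h => Tle_mono h (le_max_left _ _)
  linarith

/-- STEP 4. -/
theorem th_blocks (j0 : Fin d) {Λ : ℝ} {A : ℕ} (hΛ : 1 ≤ Λ) (hA : 2 ≤ A) {δ B : ℝ} (hδ : 0 < δ)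
    (hδ1 : δ < 1) (hB : 1 ≤ B) :
    ∃ (i00 : ℕ) (η0 : ℝ), 0 < η0 ∧ η0 ≤ 1 / 16 ∧
    ∀ (ρ : Measure ℝ) [IsProbabilityMeasure ρ] (β c a0 : ℝ), EM ρ → ∀ᶠ N : ℕ in atTop,
      Sc d ρ β c a0 N → ∀ (i0 i1 : ℕ) (η : ℝ) (k : ℕ), i00 ≤ i1 → 0 < η → η ≤ η0 →
      Gd d ρ β a0 Λ A N i0 i1 η k → ∀ (h3 L : ℕ) (D : Site d), 1 ≤ h3 →
        h3 ≤ 2 * nn d ρ β ((A : ℝ) ^ k) → Even (ln D) → D j0 = (L : ℤ) →
        (A : ℝ) ^ k ≤ pr d ρ β (Λ * (A : ℝ) ^ (k + i1)) * L →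
        pr d ρ β (Λ * (A : ℝ) ^ (k + i1)) * L ≤ B * (A : ℝ) ^ k →
        1 - (δ / 1000) ^ 2 ≤ (law d ρ).real {η' : Env d | Tle ρ β η' h3 D
          ((1 + η) * pr d ρ β (Λ * (A : ℝ) ^ (k + i1)) * L - δ / 4 * (A : ℝ) ^ k)} → False := by
  classical
  have hA1 : (1 : ℝ) ≤ A := by
    have : 1 ≤ A := by omega
    exact_mod_cast this
  obtain ⟨i, K, m, i2, hK2, hK100, hKA, hm1, hm2, hi2⟩ := ThD_consts (B := B) hA hδ hδ1
  have hK0 : (0 : ℝ) < K := by linarith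
  refine ⟨max i i2, min (1 / 16) (δ / (16 * B)), lt_min (by norm_num) (by positivity), min_le_left _ _, ?_⟩
  intro ρ _ β c a0 hρ
  refine Filter.Eventually.of_forall fun N => ?_
  intro S i0 i1 η k hi1 hη hη0 G h3 L D hh3 hh3n _ hDL haL hLB hprob
  have hb1 : (A : ℝ) ^ i1 * (A : ℝ) ^ k ≤ Λ * (A : ℝ) ^ (k + i1) := by
    rw [← pow_add, add_comm i1 k]
    exact le_mul_of_one_le_left (by positivity) hΛ
  have hbig : Λ * (A : ℝ) ^ (k + i1) ≤ am d N :=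
    le_trans (mul_le_mul_of_nonneg_left (pow_le_pow_right₀ hA1 (Nat.le_succ _)) (by linarith)) G.hi
  have hnl := G.nl i ((le_max_left _ _).trans hi1)
  rw [pow_add, mul_comm ((A : ℝ) ^ k)] at hnl
  clear G
  obtain ⟨P, hPdef⟩ : ∃ P : ℝ, P = pr d ρ β (Λ * (A : ℝ) ^ (k + i1)) := ⟨_, rfl⟩
  obtain ⟨b1, hb1def⟩ : ∃ b1 : ℝ, b1 = Λ * (A : ℝ) ^ (k + i1) := ⟨_, rfl⟩
  have ha1 : 1 ≤ (A : ℝ) ^ k := one_le_pow₀ hA1
  rw [← hPdef] at haL hLB hprob
  rw [← hb1def] at hb1 hbig hPdef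
  obtain ⟨a, hadef⟩ : ∃ a : ℝ, a = (A : ℝ) ^ k := ⟨_, rfl⟩
  rw [← hadef] at hh3n haL hLB hprob hb1 hnl ha1
  have ha0 : 0 < a := by linarith
  have haam : a ≤ am d N := by
    refine le_trans ?_ (hb1.trans hbig)
    exact le_mul_of_one_le_left ha0.le (one_le_pow₀ hA1)
  have hL : 1 ≤ L := by
    by_contra hc
    have hL0 : L = 0 := by omega
    rw [hL0, Nat.cast_zero, mul_zero] at haL
    linarith
  have hS1 : SS d ρ β h3 ≤ 2 * a := by
    have h0 : SS d ρ β (nn d ρ β a) ≤ a := SS_nn S ha0.le haam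
    have h1 := SS_mul (β := β) j0 hρ 2 (nn d ρ β a)
    have h2 : SS d ρ β h3 ≤ SS d ρ β (2 * nn d ρ β a) := SS_mono hh3n
    push_cast at h1
    linarith
  have hS2 : SS d ρ β (K * h3) ≤ δ / 400 * (K * a) := by
    have h1 : K * h3 ≤ (A + 1) ^ i * nn d ρ β a := by
      calc K * h3 ≤ K * (2 * nn d ρ β a) := Nat.mul_le_mul_left K hh3n
        _ = 2 * K * nn d ρ β a := by ring
        _ ≤ (A + 1) ^ i * nn d ρ β a := Nat.mul_le_mul_right _ hK2
    have h3 := SS_mono (d := d) (ρ := ρ) (β := β) h1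
    have h4 := mul_le_mul_of_nonneg_right hKA ha0.le
    linarith
  have hq : 0 < δ / 1000 := by positivity
  have hq2 : (δ / 1000) ^ 2 ≤ 1 / 1000000 := by
    have h1 : δ / 1000 ≤ 1 / 1000 := by linarith
    calc (δ / 1000) ^ 2 ≤ (1 / 1000) ^ 2 := pow_le_pow_left₀ hq.le h1 2
      _ = 1 / 1000000 := by norm_num
  have hK1 : 1 ≤ K := by
    have : (1 : ℝ) ≤ K := by linarith
    exact_mod_cast this
  have hm0 : 1 ≤ m := by
    by_contra hc
    have hm0 : m = 0 := by omega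
    rw [hm0] at hm2
    norm_num at hm2
    linarith
  have hCh := ThD_Ch (ρ := ρ) (β := β) j0 hρ (m := m) hh3 hq hK1 (by
      have h1 : (K : ℝ) * (δ / 1000) ^ 2 ≤ K * (1 / 1000000) := mul_le_mul_of_nonneg_left hq2 hK0.le
      linarith) hDL hprob
  obtain ⟨v, hvdef⟩ : ∃ v : ℕ, v = 2 * m * L := ⟨_, rfl⟩
  rw [← hvdef] at hCh
  have hv0 : 0 < v := by
    rw [hvdef]
    positivity
  have hprice := price (ρ := ρ) (β := β) (a := b1) (Nat.mul_pos hK1 hh3)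
    (z := (Pi.single j0 (v : ℤ) : Site d)) (by
      intro h
      have h1 := congrFun h j0
      rw [Pi.single_eq_same] at h1
      have h2 : (v : ℤ) = 0 := h1
      omega) (by
      rw [ThD_ln, hvdef]
      exact ⟨m * L, by ring⟩) hCh
  rw [ThD_sn, ← hPdef] at hprice
  have hnum := ThD_num (K := (K : ℝ)) (m := ((2 * m : ℕ) : ℝ)) (L := (L : ℝ)) (P := P) (η := η) (B := B)
    (S1 := SS d ρ β h3) (S2 := SS d ρ β (K * h3)) hδ hδ1 hK0 hm2 ha0 haL (by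
      have h1 : η ≤ δ / (16 * B) := hη0.trans (min_le_right _ _)
      have h2 := mul_le_mul_of_nonneg_right h1 (by linarith : (0 : ℝ) ≤ B)
      refine h2.trans (le_of_eq ?_)
      field_simp) hη.le hLB hS1 hS2 rfl
  have hvr : (v : ℝ) = ((2 * m : ℕ) : ℝ) * L := by
    rw [hvdef]
    push_cast
    ring
  rw [← hvr] at hnum
  have hlast : P * (v : ℝ) ≤ b1 := by
    have h1 : P * (v : ℝ) = ((2 * m : ℕ) : ℝ) * (P * L) := by
      rw [hvr]
      ring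
    have h2 : ((2 * m : ℕ) : ℝ) * (P * L) ≤ K * (B * a) := by
      refine mul_le_mul ?_ hLB (ha0.le.trans haL) hK0.le
      linarith
    have h3' : (K : ℝ) * (B * a) ≤ (A : ℝ) ^ i1 * a := by
      rw [← mul_assoc]
      refine mul_le_mul_of_nonneg_right ?_ ha0.le
      exact hi2.le.trans (pow_le_pow_right₀ hA1 ((le_max_right _ _).trans hi1))
    rw [h1]
    exact h2.trans (h3'.trans hb1)
  rw [min_eq_left hlast] at hprice
  exact absurd (hprice.trans_lt hnum) (lt_irrefl _)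

end Pool.Agent.W_7d29a1_q
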