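import Pool.Agent.W_7d29a1_q.ThA
import Pool.Agent.W_7d29a1_q.ThB
import Pool.Agent.W_7d29a1_q.ThC
import Pool.Agent.W_7d29a1_q.ThD
import Pool.Agent.W_7d29a1_q.PtA

/-!
Row 601, section 10: the thin lower tail (Lemma 10).
-/

namespace Pool.Agent.W_7d29a1_q

open MeasureTheory ProbabilityTheory Filter Topology Pool.Agent.W_MP_7d29a1_pr
  Pool.Agent.W_7d29a1_h46 Pool.Agent.W_7d29a1_h46u Pool.Agent.W_7d29a1_h3

variable {d : ℕ}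

/-- SECTION 10, Lemma 10 (thin lower tail). -/
theorem thinq (j0 : Fin d) {Λ g C3 ε1 : ℝ} {A : ℕ} (hT : TailProp d Λ g C3 ε1) (hA : NLProp d Λ A)
    {δ p0 K : ℝ} (hδ : 0 < δ) (hδ1 : δ < 1) (hp : 0 < p0) (hp1 : p0 < 1) (hK : 1 ≤ K) :
    ∃ (i00 : ℕ) (η0 : ℝ), 0 < η0 ∧
    ∀ (ρ : Measure ℝ) [IsProbabilityMeasure ρ] (β c a0 : ℝ), EM ρ → ∀ᶠ N : ℕ in atTop,
      Sc d ρ β c a0 N → ∀ (i0 i1 : ℕ) (η : ℝ) (k : ℕ), i00 ≤ i0 → i00 ≤ i1 → 0 < η → η ≤ η0 →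
      Gd d ρ β a0 Λ A N i0 i1 η k → ∀ h : ℕ, 1 ≤ h → h ≤ nn d ρ β ((A : ℝ) ^ k) →
        (law d ρ).real {η' : Env d | ∃ x p : Site d, Even (ln x) ∧ Even (ln p) ∧
          (sn x : ℝ) ≤ K * ((A : ℝ) ^ k / pr d ρ β (Λ * (A : ℝ) ^ (k + i1))) ∧
          (sn p : ℝ) ≤ K * ((A : ℝ) ^ k / pr d ρ β (Λ * (A : ℝ) ^ (k + i1))) ∧
          Tle ρ β (sh 0 x η') h (p - x)
            (pr d ρ β (Λ * (A : ℝ) ^ (k + i1)) / 2 * sn (p - x) - δ * (A : ℝ) ^ k)} ≤ p0 := by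
  obtain ⟨p1, hp1', hp1'', h1⟩ := th_points j0 hT hA hδ hδ1 hp hp1 hK
  obtain ⟨K3, hK3, h2⟩ := th_tube j0 hT hA hp1' hK
  have hpf : 0 < (δ / 1000) ^ 2 := by positivity
  have hpf1 : (δ / 1000) ^ 2 < 1 := by
    have h0 : 0 ≤ δ / 1000 := by positivity
    have h1 : δ / 1000 < 1 := by linarith
    nlinarith
  obtain ⟨J, i2, hJ, h3⟩ := th_lanes j0 hT.1 hA.1 hδ hδ1.le (half_pos hp1') (by linarith) hpf hpf1.le
    (K4 := 2 * K3 + 4) (by linarith)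
  obtain ⟨B, hB⟩ : ∃ B : ℝ, B = 2 * J * K3 + 3 * K + 4 * J := ⟨_, rfl⟩
  have hJ1 : (1 : ℝ) ≤ J := by exact_mod_cast hJ
  have hB1 : 1 ≤ B := by
    rw [hB]
    have : 0 ≤ 2 * (J : ℝ) * K3 := by positivity
    linarith
  obtain ⟨i3, η1, hη1, -, h4⟩ := th_blocks j0 hT.1 hA.1 hδ hδ1 hB1
  refine ⟨max 1 (max i2 i3), min (1 / 16) η1, lt_min (by norm_num) hη1, ?_⟩
  intro ρ _ β c a0 hρ
  filter_upwards [h1 ρ β c a0 hρ, h2 ρ β c a0 hρ, h3 ρ β c a0 hρ, h4 ρ β c a0 hρ,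
    eventually_ge_atTop 1, (ThF_as_tendsto d).eventually_ge_atTop 1,
    (ThF_as_tendsto d).eventually_ge_atTop a0] with N g1 g2 g3 g4 hN hN1 hN2
  intro S i0 i1 η k hi0 hi1 hη hη' G h hh hh'
  have e0 : i2 ≤ i0 := le_trans (le_trans (le_max_left _ _) (le_max_right _ _)) hi0
  have e3 : i3 ≤ i1 := le_trans (le_trans (le_max_right _ _) (le_max_right _ _)) hi1
  have e4 : 1 ≤ i1 := le_trans (le_max_left _ _) hi1
  have e5 : η ≤ 1 / 16 := hη'.trans (min_le_left _ _)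
  have e6 : η ≤ η1 := hη'.trans (min_le_right _ _)
  have F := Gd_facts S G hT.1 hA.1 hN hN1 hN2
  by_contra hcon
  obtain ⟨h', z, b1, b2, b3, b4, b5, b6, b7⟩ := g1 S i0 i1 η k hη e5 G h hh hh' (not_le.1 hcon)
  have k2 := g2 S i0 i1 η k e4 hη e5 G h' z
    (pr d ρ β (Λ * (A : ℝ) ^ (k + i1)) / 2 * sn z - δ / 2 * (A : ℝ) ^ k) b1 b3 b4 b6
  have k3 := g3 S i0 i1 η k e0 hη e5 G h'
  have k4 := g4 S i0 i1 η k e3 hη e6 G
  clear g1 g2 g3 g4 hcon G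
  obtain ⟨a, ha⟩ : ∃ a : ℝ, a = (A : ℝ) ^ k := ⟨_, rfl⟩
  obtain ⟨P, hP⟩ : ∃ P : ℝ, P = pr d ρ β (Λ * (A : ℝ) ^ (k + i1)) := ⟨_, rfl⟩
  rw [← ha, ← hP] at F k2 k3 k4 b6 b7
  rw [← ha] at b2 b3
  have hPp := F.Ppos
  have ha1 := F.one
  have ha0 : 0 < a := by linarith
  have haa0 : a0 ≤ a := F.a0b0.trans F.b0a
  have hPa : P ≤ a :=
    ((F.lo a F.b0a F.ab1).trans (S.hi a haa0 (F.ab1.trans F.b1m))).trans haa0
  obtain ⟨W, hW⟩ : ∃ W : ℝ, W = a / P := ⟨_, rfl⟩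
  have hPW : P * W = a := by
    rw [hW]
    field_simp
  have hW0 : 0 < W := by
    rw [hW]
    positivity
  rw [← hW] at k2 k3 b6
  have hW1 : 1 ≤ W := by
    rw [hW, le_div_iff₀ hPp]
    linarith
  have hu : P / 2 * sn z - δ / 2 * a ≤ P / 2 * sn z := by
    have : 0 ≤ δ / 2 * a := by positivity
    linarith
  obtain ⟨Y, hY⟩ : ∃ Y : ℕ, Y = ⌈K3 * W⌉₊ := ⟨_, rfl⟩
  have hY1 : K3 * W ≤ Y := by
    rw [hY]
    exact Nat.le_ceil _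
  have hY2 : (Y : ℝ) ≤ K3 * W + 1 := by
    rw [hY]
    exact (Nat.ceil_lt_add_one (mul_nonneg (by linarith) hW0.le)).le
  obtain ⟨h3, c1, c2, -, c4⟩ := k3 Y z _ b1 b3 b2 (by linarith) (k2 hu b7 Y hY1)
  obtain ⟨m, hm⟩ : ∃ m : ℕ, m = J * (2 * (Y + 1)) := ⟨_, rfl⟩
  rw [← hm] at c4
  have hmR : (m : ℝ) = J * (2 * ((Y : ℝ) + 1)) := by
    rw [hm]
    push_cast
    ring
  have hmE : Even m := by
    rw [hm]
    exact (even_two_mul _).mul_left _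
  have hz0 : (0 : ℝ) ≤ sn z := Nat.cast_nonneg _
  have hL1 : W ≤ (m : ℝ) := by
    rw [hmR]
    have t1 : 1 * W ≤ K3 * W := mul_le_mul_of_nonneg_right hK3 hW0.le
    have t2 : 1 * (2 * ((Y : ℝ) + 1)) ≤ J * (2 * ((Y : ℝ) + 1)) :=
      mul_le_mul_of_nonneg_right hJ1 (by positivity)
    linarith
  have hL2 : (m : ℝ) + sn z ≤ (2 * J * K3 + 3 * K) * W + 4 * J := by
    rw [hmR]
    have t2 : (J : ℝ) * (2 * ((Y : ℝ) + 1)) ≤ J * (2 * (K3 * W + 1 + 1)) :=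
      mul_le_mul_of_nonneg_left (by linarith) (by linarith)
    nlinarith
  have hes : ((m : ℤ) • es j0 : Site d) j0 = m := by
    simp [es]
  refine k4 h3 (m + sn z) ((m : ℤ) • es j0 + z) c1 c2 ?_ ?_ ?_ ?_ ?_
  · refine even_ln_add ?_ b4
    have := ThA_even_smul (d := d) hmE (es j0)
    rwa [← natCast_zsmul] at this
  · rw [Pi.add_apply, hes, b5]
    push_cast
    ring
  · push_cast
    have t1 := mul_le_mul_of_nonneg_left hL1 hPp.le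
    have t2 : 0 ≤ P * (sn z : ℝ) := by positivity
    rw [hPW] at t1
    rw [mul_add]
    linarith
  · push_cast
    have t1 := mul_le_mul_of_nonneg_left hL2 hPp.le
    have t2 : P * ((2 * J * K3 + 3 * K) * W + 4 * J) = (2 * J * K3 + 3 * K) * a + 4 * J * P := by
      rw [← hPW]
      ring
    have t3 : 4 * (J : ℝ) * P ≤ 4 * J * a := mul_le_mul_of_nonneg_left hPa (by positivity)
    rw [hB]
    linarith
  · refine c4.trans (measureReal_mono fun η' hη' => Tle_mono hη' ?_)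
    push_cast
    have t2 : 0 ≤ P * (sn z : ℝ) := by positivity
    have t3 : 0 ≤ η * (P * (sn z : ℝ)) := by positivity
    nlinarith

end Pool.Agent.W_7d29a1_q
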