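import Pool.Agent.W_7d29a1_q.Co
import Pool.Agent.W_7d29a1_q.LbM
import Pool.Agent.W_7d29a1_q.ThM

/-!
Row 601, SECTION 11 (contradiction).
-/

namespace Pool.Agent.W_7d29a1_q

open MeasureTheory ProbabilityTheory Filter Topology Pool.Agent.W_MP_7d29a1_pr
  Pool.Agent.W_7d29a1_h46 Pool.Agent.W_7d29a1_h46u Pool.Agent.W_7d29a1_h3

variable {d : ℕ}

/-- SECTION 11 (contradiction). -/
theorem contraq (j0 : Fin d) {Λ g C3 ε1 : ℝ} {A : ℕ} (hT : TailProp d Λ g C3 ε1) (hA : NLProp d Λ A) :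
    ∃ (i0 i1 : ℕ) (η : ℝ), 0 < η ∧
    ∀ (ρ : Measure ℝ) [IsProbabilityMeasure ρ] (β c a0 : ℝ), EM ρ → ∀ᶠ N : ℕ in atTop,
      Sc d ρ β c a0 N → ∀ k : ℕ, ¬ Gd d ρ β a0 Λ A N i0 i1 η k := by
  obtain ⟨q1, ε3, i00, hB⟩ := blocks j0 hT hA
  exact contraq_of j0 hT hA hB fun δ p0 K hδ hδ1 hp hp1 hK => thinq j0 hT hA hδ hδ1 hp hp1 hK

end Pool.Agent.W_7d29a1_q
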