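import Pool.Agent.W_7d29a1_h3.Main
import Pool.Agent.W_7d29a1_h3.CritB

/-!
Directed polymers in all dimensions: power lower bound for `lam h - lam 0`. Definitions. The paper proof is
row 601 of the table `proofs` ('the page').

All times are even and `t, n, h` are half times: `Tle ρ β η t z u` says `T(2t, z) ≤ u`.
-/

namespace Pool.Agent.W_7d29a1_q

open MeasureTheory ProbabilityTheory Filter Topology Pool.Agent.W_MP_7d29a1_pr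
  Pool.Agent.W_7d29a1_h46 Pool.Agent.W_7d29a1_h46u Pool.Agent.W_7d29a1_h3

/-- `T(2t, z) ≤ u`. -/
def Tle {d : ℕ} (ρ : Measure ℝ) (β : ℝ) (η : Env d) (t : ℕ) (z : Site d) (u : ℝ) : Prop :=
  Real.exp (-u) ≤ Vp ρ β η (2 * t) z

/-- `‖T(2t,0)_+‖_2`. -/
noncomputable def AA (d : ℕ) (ρ : Measure ℝ) (β : ℝ) (t : ℕ) : ℝ :=
  Real.sqrt (∫ η : Env d, max (-Real.log (Vp ρ β η (2 * t) 0)) 0 ^ 2 ∂(law d ρ))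

/-- `S(0) = 0`, `S(n) = 1 + max_{t ≤ n} ‖T(2t,0)_+‖_2`. -/
noncomputable def SS (d : ℕ) (ρ : Measure ℝ) (β : ℝ) (n : ℕ) : ℝ :=
  if n = 0 then 0 else 1 + (Finset.range (n + 1)).sup' ⟨0, by simp⟩ fun t => AA d ρ β t

/-- `n(a) = max {n | S(n) ≤ a}`. -/
noncomputable def nn (d : ℕ) (ρ : Measure ℝ) (β : ℝ) (a : ℝ) : ℕ := sSup {n : ℕ | SS d ρ β n ≤ a}

/-- `ψ(a) = n(a) / a`. -/
noncomputable def ps (d : ℕ) (ρ : Measure ℝ) (β : ℝ) (a : ℝ) : ℝ := nn d ρ β a / a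

/-- The displacement `z` in the half time `t` costs at most `x` with probability at least `1/2`. -/
def Ch {d : ℕ} (ρ : Measure ℝ) (β : ℝ) (t : ℕ) (z : Site d) (x : ℝ) : Prop :=
  0 ≤ x ∧ 1 / 2 ≤ (law d ρ).real {η : Env d | Tle ρ β η t z x}

/-- The price `π(a)`. -/
noncomputable def pr (d : ℕ) (ρ : Measure ℝ) (β : ℝ) (a : ℝ) : ℝ :=
  sInf {r : ℝ | ∃ (t : ℕ) (z : Site d) (x : ℝ), 1 ≤ t ∧ z ≠ 0 ∧ Even (ln z) ∧ Ch ρ β t z x ∧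
    x + 2 * SS d ρ β t ≤ a ∧ r * sn z = x + 2 * SS d ρ β t}

/-- `W(a) = a / π(a)`. -/
noncomputable def WW (d : ℕ) (ρ : Measure ℝ) (β : ℝ) (a : ℝ) : ℝ := a / pr d ρ β a

/-- `a_* = N ^ (1 / (40 (d + 2)))`. -/
noncomputable def as (d N : ℕ) : ℝ := (N : ℝ) ^ (1 / (40 * ((d : ℝ) + 2)))

/-- `a_max = N ^ (1 / (2 (d + 2)))`. -/
noncomputable def am (d N : ℕ) : ℝ := (N : ℝ) ^ (1 / (2 * ((d : ℝ) + 2)))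

/-- Hypothesis (H). -/
structure Hy (d : ℕ) (ρ : Measure ℝ) (β c : ℝ) (N : ℕ) : Prop where
  cpos : 0 < c
  csm : c ≤ 1 / (400 * ((d : ℝ) + 2))
  flat : ∃ h0 : ℝ, (N : ℝ) ^ (-c) ≤ h0 ∧ h0 ≤ 1 ∧
    ∀ j : Fin d, lam ρ β (h0 • ej j) ≤ lam ρ β (0 : Vec d) + 1 / N

/-- What the sections 3 - 11 use about the sections 1 and 2. -/
structure Sc (d : ℕ) (ρ : Measure ℝ) (β c a0 : ℝ) (N : ℕ) : Prop where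
  cpos : 0 < c
  csm : c ≤ 1 / (400 * ((d : ℝ) + 2))
  one : 1 ≤ a0
  S1 : SS d ρ β 1 ≤ a0
  big : ∀ n : ℕ, SS d ρ β n ≤ am d N → 4 * n < N
  att : ∀ a : ℝ, a0 ≤ a → a ≤ am d N → ∃ (t : ℕ) (z : Site d) (x : ℝ), 1 ≤ t ∧ z ≠ 0 ∧
    Even (ln z) ∧ Ch ρ β t z x ∧ x + 2 * SS d ρ β t ≤ a ∧
    x + 2 * SS d ρ β t = pr d ρ β a * sn z
  lo : ∀ a : ℝ, a0 ≤ a → a ≤ am d N → (N : ℝ) ^ (-(2 * c)) ≤ pr d ρ β a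
  hi : ∀ a : ℝ, a0 ≤ a → a ≤ am d N → pr d ρ β a ≤ a0

/-- Regular budget: (R_δ) at `a`. -/
def Rg (d : ℕ) (ρ : Measure ℝ) (β a0 δ a : ℝ) : Prop :=
  ∀ b : ℝ, a0 ≤ b → b ≤ a → pr d ρ β b ≤ 2 * (a / b) ^ δ * pr d ρ β a

/-- Exponential moment of the luck at the tilt `θ`, for the starting points in `{sn x ≤ r}` and the half times
`≤ h`: `L` dominates `exp (γ * luck)`. -/
def Tail (d : ℕ) (ρ : Measure ℝ) (β θ γ C r : ℝ) (h : ℕ) : Prop :=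
  ∃ L : Env d → ℝ, Measurable L ∧ DependsOn L {p : ℕ × Site d | 1 ≤ p.1 ∧ p.1 ≤ 2 * h} ∧
    (∀ η, 1 ≤ L η) ∧ Integrable L (law d ρ) ∧ ∫ η, L η ∂(law d ρ) ≤ C ∧
    ∀ (η : Env d) (s t : ℕ) (x p : Site d), s ≤ t → t ≤ h → (sn x : ℝ) ≤ r → Even (ln x) →
      Even (ln p) →
      (Real.exp (θ * sn (p - x)) * Vp ρ β (sh (2 * s) x η) (2 * (t - s)) (p - x)) ^ γ ≤ L η

/-- Lemma 6 with the constants `Λ = Lam1`, `g`, `C3`, `ε1` (which depend on `d` only). -/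
def TailProp (d : ℕ) (Λ g C3 ε1 : ℝ) : Prop :=
  1 ≤ Λ ∧ 0 < g ∧ 1 ≤ C3 ∧ 0 < ε1 ∧ ε1 ≤ 1 ∧
  ∀ (ρ : Measure ℝ) [IsProbabilityMeasure ρ] (β c a0 : ℝ), EM ρ → ∀ᶠ N : ℕ in atTop,
    Sc d ρ β c a0 N → ∀ a : ℝ, as d N ≤ a → Λ * a ≤ am d N → Rg d ρ β a0 (1 / 4) (Λ * a) →
      Tail d ρ β (3 / 4 * pr d ρ β (Λ * a)) (g / (Λ * a)) C3 (ε1 * WW d ρ β (Λ * a)) (nn d ρ β a)

/-- Lemma 7 (no linear windows) with the constants `Λ` and `A`. -/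
def NLProp (d : ℕ) (Λ : ℝ) (A : ℕ) : Prop :=
  2 ≤ A ∧ ∀ (ρ : Measure ℝ) [IsProbabilityMeasure ρ] (β c a0 : ℝ), EM ρ → ∀ᶠ N : ℕ in atTop,
    Sc d ρ β c a0 N → ∀ a : ℝ, as d N ^ 2 ≤ a → Λ * a ≤ am d N → A * a ≤ am d N →
      Rg d ρ β a0 (1 / 4) (Λ * a) → SS d ρ β ((A + 1) * nn d ρ β a) ≤ A * a

/-- `ε'' = log (1 + 1/A) / (2 log A)`. -/
noncomputable def e2 (A : ℕ) : ℝ := Real.log (1 + 1 / (A : ℝ)) / (2 * Real.log A)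

/-- `δ`. -/
noncomputable def dl (A : ℕ) : ℝ := min (1 / 4) (min (e2 A / 2) (1 / (2 * Real.logb 2 A)))

/-- `ε_A = 1 - log A / log (A + 1)`. -/
noncomputable def eA (A : ℕ) : ℝ := 1 - Real.log A / Real.log ((A : ℝ) + 1)

/-- The scale of Lemma 8 (with Lemma 7 at the budgets of the window). -/
structure Gd (d : ℕ) (ρ : Measure ℝ) (β a0 Λ : ℝ) (A : ℕ) (N : ℕ) (i0 i1 : ℕ) (η : ℝ) (k : ℕ) : Prop where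
  ik : i0 ≤ k
  lo : as d N ^ 4 ≤ (A : ℝ) ^ (k - i0)
  hi : Λ * (A : ℝ) ^ (k + i1 + 1) ≤ am d N
  reg : ∀ a : ℝ, (A : ℝ) ^ (k - i0) ≤ a → a ≤ Λ * (A : ℝ) ^ (k + i1) → Rg d ρ β a0 (dl A) a
  slow : pr d ρ β ((A : ℝ) ^ (k - i0)) ≤ (1 + η) * pr d ρ β (Λ * (A : ℝ) ^ (k + i1))
  psi : ∀ k' : ℕ, k - i0 ≤ k' → k' ≤ k → ∀ M : ℝ, 1 ≤ M → M ≤ as d N →
    ps d ρ β ((A : ℝ) ^ k' / M) ≤ 3 * M ^ (-e2 A) * ps d ρ β ((A : ℝ) ^ k')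
  nl : ∀ i ≤ i1, SS d ρ β ((A + 1) ^ i * nn d ρ β ((A : ℝ) ^ k)) ≤ (A : ℝ) ^ (k + i)

end Pool.Agent.W_7d29a1_q
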