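import Pool.Agent.W_7d29a1_q.VV
import Pool.Agent.W_7d29a1_h3.Ind

/-!
Row 601, section 5: the slabs are independent.
-/

namespace Pool.Agent.W_7d29a1_q

open MeasureTheory ProbabilityTheory Filter Topology Pool.Agent.W_MP_7d29a1_pr
  Pool.Agent.W_7d29a1_h46 Pool.Agent.W_7d29a1_h46u Pool.Agent.W_7d29a1_h3

variable {d : ℕ} {ρ : Measure ℝ} [IsProbabilityMeasure ρ] {β : ℝ}

/-- Countable union of the events `Tle` (`measurableSet_Tle`, `measurable_sh`). -/
theorem VV_meas (θ ℓ R r : ℝ) (h : ℕ) : MeasurableSet (VV d ρ β θ ℓ R r h) := by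
  have e : VV d ρ β θ ℓ R r h = ⋃ (s : ℕ) (t : ℕ) (x : Site d) (y : Site d),
      {η | (s < t ∧ t ≤ h ∧ (sn x : ℝ) ≤ r ∧ Even (ln x) ∧ Even (ln y) ∧ (sn (y - x) : ℝ) ≤ R)} ∩
        {η | Tle ρ β (sh (2 * s) x η) (t - s) (y - x) (θ * sn (y - x) - ℓ)} := by
    ext η
    simp only [Set.mem_iUnion, Set.mem_inter_iff, Set.mem_ofPred_eq]
    constructor
    · rintro ⟨s, t, h1, h2, x, y, h3, h4, h5, h6, h7⟩
      exact ⟨s, t, x, y, ⟨h1, h2, h3, h4, h5, h6⟩, h7⟩
    · rintro ⟨s, t, x, y, ⟨h1, h2, h3, h4, h5, h6⟩, h7⟩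
      exact ⟨s, t, h1, h2, x, y, h3, h4, h5, h6, h7⟩
  rw [e]
  refine MeasurableSet.iUnion fun s => MeasurableSet.iUnion fun t => MeasurableSet.iUnion fun x =>
    MeasurableSet.iUnion fun y => (MeasurableSet.const _).inter ?_
  exact measurable_sh (2 * s) x (measurableSet_Tle (t - s) (y - x) (θ * sn (y - x) - ℓ))

/-- The event uses the rows `1, ..., 2 h` (`dep_Tle`). -/
theorem VV_dep {θ ℓ R r : ℝ} {h : ℕ} {η η' : Env d}
    (hη : ∀ p : ℕ × Site d, 1 ≤ p.1 → p.1 ≤ 2 * h → η p = η' p) :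
    η ∈ VV d ρ β θ ℓ R r h ↔ η' ∈ VV d ρ β θ ℓ R r h := by
  unfold VV
  refine exists_congr fun s => exists_congr fun t => and_congr_right fun h1 =>
    and_congr_right fun h2 => exists_congr fun x => exists_congr fun y =>
    and_congr_right fun _ => and_congr_right fun _ => and_congr_right fun _ =>
    and_congr_right fun _ => ?_
  exact dep_Tle fun p hp hp' => hη p (by omega) (by omega)

/-- TASK FrA. The slabs `2 τ + 2 h i < row ≤ 2 τ + 2 h (i + 1)` are disjoint: `indep_events` (`W_7d29a1_h3/Ind.lean`)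
for the complements, `real_sh` for the probabilities. -/
theorem fr_slabs (θ ℓ R r : ℝ) (h τ I : ℕ) :
    (law d ρ).real {η : Env d | ∀ i < I, sh (2 * τ + 2 * h * i) (0 : Site d) η ∉ VV d ρ β θ ℓ R r h} =
      (1 - (law d ρ).real (VV d ρ β θ ℓ R r h)) ^ I := by
  have hm : ∀ i : ℕ, MeasurableSet {η : Env d | sh (2 * τ + 2 * h * i) (0 : Site d) η ∉ VV d ρ β θ ℓ R r h} :=
    fun i => measurable_sh (2 * τ + 2 * h * i) (0 : Site d) (VV_meas (ρ := ρ) (β := β) θ ℓ R r h).compl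
  have h1 := indep_events (ρ := ρ) (Finset.range I)
    (fun i => {η : Env d | sh (2 * τ + 2 * h * i) (0 : Site d) η ∉ VV d ρ β θ ℓ R r h})
    (fun i => {p : ℕ × Site d | 2 * τ + 2 * h * i < p.1 ∧ p.1 ≤ 2 * τ + 2 * h * (i + 1)})
    (fun i _ => hm i) (fun i _ η η' hη => by
      refine not_congr (VV_dep fun p hp hp' => ?_)
      unfold sh
      refine hη _ ⟨?_, ?_⟩
      · simp only
        omega
      · simp only
        rw [mul_add]
        omega)
    (fun i _ j _ hij => by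
      rw [Set.disjoint_left]
      rintro p ⟨h1, h2⟩ ⟨h3, h4⟩
      rcases Nat.lt_or_gt_of_ne hij with h5 | h5
      · have h6 : 2 * h * (i + 1) ≤ 2 * h * j := Nat.mul_le_mul_left _ h5
        omega
      · have h6 : 2 * h * (j + 1) ≤ 2 * h * i := Nat.mul_le_mul_left _ h5
        omega)
  have h2 : {η : Env d | ∀ i < I, sh (2 * τ + 2 * h * i) (0 : Site d) η ∉ VV d ρ β θ ℓ R r h} =
      {η : Env d | ∀ i ∈ Finset.range I, η ∈
        {η : Env d | sh (2 * τ + 2 * h * i) (0 : Site d) η ∉ VV d ρ β θ ℓ R r h}} := by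
    ext η
    simp only [Set.mem_ofPred_eq, Finset.mem_range]
  rw [h2, h1]
  have h3 : ∀ i ∈ Finset.range I, (law d ρ).real
      {η : Env d | sh (2 * τ + 2 * h * i) (0 : Site d) η ∉ VV d ρ β θ ℓ R r h} =
      1 - (law d ρ).real (VV d ρ β θ ℓ R r h) := by
    intro i _
    have h4 := real_sh (ρ := ρ) (2 * τ + 2 * h * i) (0 : Site d) (VV_meas (ρ := ρ) (β := β) θ ℓ R r h).compl
    rw [← probReal_compl_eq_one_sub (VV_meas (ρ := ρ) (β := β) θ ℓ R r h), ← h4]
    rfl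
  rw [Finset.prod_congr rfl h3, Finset.prod_const, Finset.card_range]

end Pool.Agent.W_7d29a1_q
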