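import Pool.Agent.W_7d29a1_q.VV

/-!
Row 601, section 5: the last start of a lucky piece.
-/

namespace Pool.Agent.W_7d29a1_q

open MeasureTheory ProbabilityTheory Filter Topology Pool.Agent.W_MP_7d29a1_pr
  Pool.Agent.W_7d29a1_h46 Pool.Agent.W_7d29a1_h46u Pool.Agent.W_7d29a1_h3

variable {d : ℕ} {ρ : Measure ℝ} [IsProbabilityMeasure ρ]

/-- TASK FrB. Backward strong Markov. `L s x` uses the rows `> 2 τ + 2 s` and `G s x` the rows `≤ 2 τ + 2 s`. The event
that `(s, x)` is the last pair with `L` (largest `s < n`, then the smallest `x` in an enumeration of the finite set `B`,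
e.g. `B.equivFin` or `Finset.toList`) uses the rows `> 2 τ + 2 s`; these events are disjoint with union
`{∃ s x, L s x}`: `sm_ge` (`BasD.lean`) with `A = ` this event, `B = G`, `U = {p | 2 τ + 2 s < p.1}`. -/
theorem fr_last (τ n : ℕ) (B : Finset (Site d)) (L G : ℕ → Site d → Set (Env d))
    (hLm : ∀ s x, MeasurableSet (L s x)) (hGm : ∀ s x, MeasurableSet (G s x))
    (hL : ∀ (s : ℕ) (x : Site d) (η η' : Env d), (∀ p : ℕ × Site d, 2 * τ + 2 * s < p.1 → η p = η' p) →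
      (η ∈ L s x ↔ η' ∈ L s x))
    (hG : ∀ (s : ℕ) (x : Site d) (η η' : Env d), (∀ p : ℕ × Site d, p.1 ≤ 2 * τ + 2 * s → η p = η' p) →
      (η ∈ G s x ↔ η' ∈ G s x)) {q : ℝ}
    (hq : ∀ s < n, ∀ x ∈ B, q ≤ (law d ρ).real (G s x)) :
    q * (law d ρ).real {η | ∃ s < n, ∃ x ∈ B, η ∈ L s x} ≤
      (law d ρ).real {η | ∃ s < n, ∃ x ∈ B, η ∈ L s x ∧ η ∈ G s x} := by
  obtain ⟨e, he⟩ := exists_injective_nat (Site d)
  set M : ℕ := B.sup e with hM
  have heM : ∀ x ∈ B, e x ≤ M := fun x hx => Finset.le_sup (f := e) hx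
  set f : ℕ × Site d → ℕ := fun i => i.1 * (M + 1) + (M - e i.2) with hf
  set I : Finset (ℕ × Site d) := Finset.range n ×ˢ B with hI
  -- `f` orders the pairs by `s` first
  have hf1 : ∀ i ∈ I, ∀ j ∈ I, f i < f j → i.1 ≤ j.1 := by
    intro i hi j hj hij
    by_contra hc
    push Not at hc
    have h1 : (j.1 + 1) * (M + 1) ≤ i.1 * (M + 1) := Nat.mul_le_mul_right _ hc
    have h2 : (j.1 + 1) * (M + 1) = j.1 * (M + 1) + (M + 1) := by ring
    have h3 : i.1 * (M + 1) + (M - e i.2) < j.1 * (M + 1) + (M - e j.2) := hij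
    omega
  have hf2 : ∀ i ∈ I, ∀ j ∈ I, i ≠ j → f i ≠ f j := by
    intro i hi j hj hij h
    have hi2 : e i.2 ≤ M := heM _ (Finset.mem_product.1 hi).2
    have hj2 : e j.2 ≤ M := heM _ (Finset.mem_product.1 hj).2
    have h3 : i.1 * (M + 1) + (M - e i.2) = j.1 * (M + 1) + (M - e j.2) := h
    have h4 : i.1 = j.1 := by
      rcases lt_trichotomy i.1 j.1 with h5 | h5 | h5
      · exfalso
        have h6 : (i.1 + 1) * (M + 1) ≤ j.1 * (M + 1) := Nat.mul_le_mul_right _ h5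
        have h7 : (i.1 + 1) * (M + 1) = i.1 * (M + 1) + (M + 1) := by ring
        omega
      · exact h5
      · exfalso
        have h6 : (j.1 + 1) * (M + 1) ≤ i.1 * (M + 1) := Nat.mul_le_mul_right _ h5
        have h7 : (j.1 + 1) * (M + 1) = j.1 * (M + 1) + (M + 1) := by ring
        omega
    rw [h4] at h3
    have h5 : e i.2 = e j.2 := by omega
    exact hij (Prod.ext h4 (he h5))
  set A : ℕ × Site d → Set (Env d) := fun i =>
    L i.1 i.2 ∩ ⋂ j ∈ I.filter (fun j => f i < f j), (L j.1 j.2)ᶜ with hA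
  have hAmem : ∀ i η, η ∈ A i ↔ η ∈ L i.1 i.2 ∧ ∀ j ∈ I, f i < f j → η ∉ L j.1 j.2 := by
    intro i η
    simp only [hA, Set.mem_inter_iff, Set.mem_iInter, Finset.mem_filter, Set.mem_compl_iff, and_imp]
  have hAm : ∀ i ∈ I, MeasurableSet (A i) := by
    intro i _
    refine (hLm _ _).inter ?_
    exact Finset.measurableSet_biInter _ fun j _ => (hLm _ _).compl
  have key := sm_ge (ρ := ρ) I A (fun i => G i.1 i.2) (fun i => {p | 2 * τ + 2 * i.1 < p.1}) hAm
    (fun i _ => hGm _ _)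
    (fun i hi η η' h => by
      rw [hAmem, hAmem]
      have h1 : η ∈ L i.1 i.2 ↔ η' ∈ L i.1 i.2 := hL _ _ _ _ h
      have h2 : ∀ j ∈ I, f i < f j → (η ∈ L j.1 j.2 ↔ η' ∈ L j.1 j.2) := by
        intro j hj hij
        have h3 := hf1 i hi j hj hij
        exact hL _ _ _ _ fun p hp => h p (by
          show 2 * τ + 2 * i.1 < p.1
          omega)
      constructor
      · rintro ⟨h3, h4⟩
        exact ⟨h1.1 h3, fun j hj hij h5 => h4 j hj hij ((h2 j hj hij).2 h5)⟩
      · rintro ⟨h3, h4⟩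
        exact ⟨h1.2 h3, fun j hj hij h5 => h4 j hj hij ((h2 j hj hij).1 h5)⟩)
    (fun i _ η η' h => hG _ _ _ _ fun p hp => h p (by
      show ¬ 2 * τ + 2 * i.1 < p.1
      omega))
    (fun i hi j hj hij => by
      rw [Set.disjoint_left]
      intro η h1 h2
      rw [hAmem] at h1 h2
      rcases lt_or_gt_of_ne (hf2 i hi j hj hij) with h3 | h3
      · exact h1.2 j hj h3 h2.1
      · exact h2.2 i hi h3 h1.1)
    (q := q)
    (fun i hi => by
      obtain ⟨h1, h2⟩ := Finset.mem_product.1 hi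
      exact hq _ (Finset.mem_range.1 h1) _ h2)
  have e1 : {η : Env d | ∃ i ∈ I, η ∈ A i} = {η | ∃ s < n, ∃ x ∈ B, η ∈ L s x} := by
    ext η
    constructor
    · rintro ⟨i, hi, h1⟩
      obtain ⟨h2, h3⟩ := Finset.mem_product.1 hi
      exact ⟨i.1, Finset.mem_range.1 h2, i.2, h3, ((hAmem i η).1 h1).1⟩
    · rintro ⟨s, hs, x, hx, h1⟩
      classical
      have hne : (I.filter fun i => η ∈ L i.1 i.2).Nonempty :=
        ⟨(s, x), Finset.mem_filter.2 ⟨Finset.mem_product.2 ⟨Finset.mem_range.2 hs, hx⟩, h1⟩⟩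
      obtain ⟨i, hi, himax⟩ := Finset.exists_max_image _ f hne
      rw [Finset.mem_filter] at hi
      refine ⟨i, hi.1, (hAmem i η).2 ⟨hi.2, fun j hj hij h2 => ?_⟩⟩
      have h3 := himax j (Finset.mem_filter.2 ⟨hj, h2⟩)
      omega
  rw [e1] at key
  refine key.trans (measureReal_mono ?_)
  rintro η ⟨i, hi, h1, h2⟩
  obtain ⟨h3, h4⟩ := Finset.mem_product.1 hi
  exact ⟨i.1, Finset.mem_range.1 h3, i.2, h4, ((hAmem i η).1 h1).1, h2⟩

end Pool.Agent.W_7d29a1_q
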