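import Pool.Agent.W_7d29a1_q.FrA
import Pool.Agent.W_7d29a1_q.FrB

/-!
Row 601, section 5: from a lucky piece with a free start to luck from a point.
-/

namespace Pool.Agent.W_7d29a1_q

open MeasureTheory ProbabilityTheory Filter Topology Pool.Agent.W_MP_7d29a1_pr
  Pool.Agent.W_7d29a1_h46 Pool.Agent.W_7d29a1_h46u Pool.Agent.W_7d29a1_h3

variable {d : ℕ} {ρ : Measure ℝ} [IsProbabilityMeasure ρ] {β : ℝ}

/-- `(s, x)` is the start (half time `s` after `2 τ`) of a lucky piece which is completed in the same slab of length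
`2 h`. -/
def Lk (ρ : Measure ℝ) (β θ ℓ R : ℝ) (h τ s : ℕ) (x : Site d) : Set (Env d) :=
  {η | ∃ t : ℕ, s < t ∧ t ≤ h * (s / h + 1) ∧ ∃ y : Site d, Even (ln y) ∧ (sn (y - x) : ℝ) ≤ R ∧
    Tle ρ β (sh (2 * τ + 2 * s) x η) (t - s) (y - x) (θ * sn (y - x) - ℓ)}

theorem Lk_meas (θ ℓ R : ℝ) (h τ s : ℕ) (x : Site d) : MeasurableSet (Lk ρ β θ ℓ R h τ s x) := by
  have hsh : ∀ (t : ℕ) (x : Site d), Measurable (sh t x : Env d → Env d) := fun t x =>
    measurable_pi_lambda _ fun p => measurable_pi_apply _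
  unfold Lk
  simp only [Set.setOf_exists, Set.setOf_and]
  refine MeasurableSet.iUnion fun t => ?_
  refine (MeasurableSet.const _).inter ((MeasurableSet.const _).inter ?_)
  refine MeasurableSet.iUnion fun y => ?_
  refine (MeasurableSet.const _).inter ((MeasurableSet.const _).inter ?_)
  exact (hsh _ _) (measurableSet_Tle (ρ := ρ) (β := β) (t - s) (y - x) (θ * sn (y - x) - ℓ))

theorem Lk_dep {θ ℓ R : ℝ} {h τ s : ℕ} {x : Site d} {η η' : Env d}
    (hη : ∀ p : ℕ × Site d, 2 * τ + 2 * s < p.1 → η p = η' p) :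
    η ∈ Lk ρ β θ ℓ R h τ s x ↔ η' ∈ Lk ρ β θ ℓ R h τ s x := by
  have key : ∀ (t : ℕ) (y : Site d),
      (Tle ρ β (sh (2 * τ + 2 * s) x η) (t - s) (y - x) (θ * sn (y - x) - ℓ) ↔
        Tle ρ β (sh (2 * τ + 2 * s) x η') (t - s) (y - x) (θ * sn (y - x) - ℓ)) := by
    intro t y
    rw [← mul_add]
    refine dep_Tle fun p hp _ => hη p ?_
    rw [← mul_add]
    exact hp
  unfold Lk
  simp only [Set.mem_setOf_eq, key]

/-- TASK FrC. Slab `i` is `[2 τ + 2 h i, 2 τ + 2 h (i + 1)]`: `s = h i + s'` with `s' < h`, `s / h = i`. -/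
theorem Lk_of_VV {θ ℓ R r : ℝ} {h τ I i : ℕ} (hi : i < I) {η : Env d}
    (hη : sh (2 * τ + 2 * h * i) (0 : Site d) η ∈ VV d ρ β θ ℓ R r h) :
    ∃ s < I * h, ∃ x : Site d, (sn x : ℝ) ≤ r ∧ Even (ln x) ∧ η ∈ Lk ρ β θ ℓ R h τ s x := by
  obtain ⟨s, t, hst, hth, x, y, hx, hex, hey, hR, hT⟩ := hη
  have hsh : s < h := lt_of_lt_of_le hst hth
  have hh : 0 < h := by omega
  have hdiv : (h * i + s) / h = i := by
    rw [Nat.mul_add_div hh, Nat.div_eq_of_lt hsh, Nat.add_zero]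
  refine ⟨h * i + s, ?_, x, hx, hex, h * i + t, by omega, ?_, y, hey, hR, ?_⟩
  · have h1 : h * (i + 1) ≤ h * I := Nat.mul_le_mul_left h hi
    rw [mul_comm I h]
    rw [mul_add, mul_one] at h1
    omega
  · rw [hdiv, mul_add, mul_one]
    omega
  · rw [sh_sh] at hT
    have e1 : 2 * s + (2 * τ + 2 * h * i) = 2 * τ + 2 * (h * i + s) := by ring
    have e2 : h * i + t - (h * i + s) = t - s := by omega
    rw [e1, add_zero] at hT
    rw [e2]
    exact hT

/-- Move `0 → x` (cost `B`), wait at `x` (cost `w`), lucky piece `x → y`: `Tle_add` twice (`sh_sh`). -/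
theorem fr_det {θ ℓ R r B w : ℝ} {h τ I s : ℕ} {x : Site d} (hs : s < I * h) (hx : (sn x : ℝ) ≤ r)
    (hθ : 0 ≤ θ) {η : Env d} (hL : η ∈ Lk ρ β θ ℓ R h τ s x) (hB : Tle ρ β η τ x B)
    (hw : Tle ρ β (sh (2 * τ) x η) s 0 w) :
    ∃ t ≤ τ + I * h, ∃ y : Site d, Even (ln y) ∧ (sn y : ℝ) ≤ R + r ∧
      Tle ρ β η t y (θ * sn y - (ℓ - B - w - θ * r)) := by
  obtain ⟨t, hst, hth, y, hey, hR, hT⟩ := hL
  have hh : 0 < h := by
    rcases Nat.eq_zero_or_pos h with h0 | h0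
    · rw [h0] at hs
      simp at hs
    · exact h0
  have hdiv : s / h < I := (Nat.div_lt_iff_lt_mul hh).2 hs
  have htI : t ≤ I * h := by
    have h1 : h * (s / h + 1) ≤ h * I := Nat.mul_le_mul_left h hdiv
    rw [mul_comm I h]
    exact hth.trans h1
  have hyx : (sn (y - x) : ℝ) ≤ sn y + sn x := by
    have h1 := sn_add y (-x)
    rw [sn_neg, ← sub_eq_add_neg] at h1
    exact_mod_cast h1
  have hy : (sn y : ℝ) ≤ sn (y - x) + sn x := by
    have h1 := sn_add (y - x) x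
    rw [sub_add_cancel] at h1
    exact_mod_cast h1
  refine ⟨τ + t, by omega, y, hey, by linarith, ?_⟩
  have h1 : Tle ρ β η (τ + s) (x + 0) (B + w) := Tle_add hB hw
  have hT' : Tle ρ β (sh (2 * (τ + s)) (x + 0) η) (t - s) (y - x) (θ * sn (y - x) - ℓ) := by
    rw [add_zero, mul_add]
    exact hT
  have h2 := Tle_add h1 hT'
  have e1 : τ + s + (t - s) = τ + t := by omega
  have e2 : x + 0 + (y - x) = y := by rw [add_zero, add_sub_cancel]
  rw [e1, e2] at h2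
  refine Tle_mono h2 ?_
  have h3 : θ * (sn (y - x) : ℝ) ≤ θ * (sn y + r) :=
    mul_le_mul_of_nonneg_left (by linarith) hθ
  linarith

end Pool.Agent.W_7d29a1_q
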