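import Pool.Agent.W_7d29a1_q.FrC

/-!
Row 601, section 5: the probability of a lucky piece with a free start.
-/

namespace Pool.Agent.W_7d29a1_q

open MeasureTheory ProbabilityTheory Filter Topology Pool.Agent.W_MP_7d29a1_pr
  Pool.Agent.W_7d29a1_h46 Pool.Agent.W_7d29a1_h46u Pool.Agent.W_7d29a1_h3

variable {d : ℕ} {ρ : Measure ℝ} [IsProbabilityMeasure ρ] {β : ℝ}

/-- The move `0 → x` costs at most `B`, the waiting at `x` at most `w`. -/
private def FrD_G (ρ : Measure ℝ) (β B w : ℝ) (τ s : ℕ) (x : Site d) : Set (Env d) :=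
  {η | Tle ρ β η τ x B ∧ Tle ρ β (sh (2 * τ) x η) s 0 w}

private theorem FrD_G_meas (B w : ℝ) (τ s : ℕ) (x : Site d) :
    MeasurableSet (FrD_G ρ β B w τ s x) := by
  have hsh : ∀ (t : ℕ) (x : Site d), Measurable (sh t x : Env d → Env d) := fun t x =>
    measurable_pi_lambda _ fun p => measurable_pi_apply _
  unfold FrD_G
  exact (measurableSet_Tle τ x B).inter
    ((hsh _ _) (measurableSet_Tle (ρ := ρ) (β := β) s 0 w))

private theorem FrD_G_dep {B w : ℝ} {τ s : ℕ} {x : Site d} {η η' : Env d}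
    (hη : ∀ p : ℕ × Site d, p.1 ≤ 2 * τ + 2 * s → η p = η' p) :
    η ∈ FrD_G ρ β B w τ s x ↔ η' ∈ FrD_G ρ β B w τ s x := by
  have h1 : Tle ρ β η τ x B ↔ Tle ρ β η' τ x B := by
    have h2 : Tle ρ β (sh (2 * 0) (0 : Site d) η) τ x B ↔ Tle ρ β (sh (2 * 0) (0 : Site d) η') τ x B :=
      dep_Tle fun p _ hp => hη p (by omega)
    rw [mul_zero, sh_zero, sh_zero] at h2
    exact h2
  have h3 : Tle ρ β (sh (2 * τ) x η) s 0 w ↔ Tle ρ β (sh (2 * τ) x η') s 0 w :=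
    dep_Tle fun p _ hp => hη p hp
  unfold FrD_G
  exact and_congr h1 h3

private theorem FrD_G_prob {B w : ℝ} {τ s : ℕ} {x : Site d}
    (h1 : (law d ρ).real {η : Env d | ¬ Tle ρ β η τ x B} ≤ 1 / 8)
    (h2 : (law d ρ).real {η : Env d | ¬ Tle ρ β η s 0 w} ≤ 1 / 16) :
    3 / 4 ≤ (law d ρ).real (FrD_G ρ β B w τ s x) := by
  have h3 : (law d ρ).real {η : Env d | ¬ Tle ρ β (sh (2 * τ) x η) s 0 w} ≤ 1 / 16 := by
    have h4 := real_sh (ρ := ρ) (2 * τ) x (measurableSet_Tle (ρ := ρ) (β := β) s (0 : Site d) w).compl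
    have h5 : {η : Env d | ¬ Tle ρ β (sh (2 * τ) x η) s 0 w} =
        {η | sh (2 * τ) x η ∈ {η : Env d | Tle ρ β η s 0 w}ᶜ} := rfl
    rw [h5, h4]
    exact h2
  have h6 : (law d ρ).real (FrD_G ρ β B w τ s x)ᶜ ≤ 1 / 8 + 1 / 16 := by
    refine le_trans ?_ (add_le_add h1 h3)
    refine le_trans (measureReal_mono ?_) (measureReal_union_le _ _)
    intro η hη
    by_contra hc
    rw [Set.mem_union, not_or] at hc
    refine hη ⟨?_, ?_⟩
    · by_contra h7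
      exact hc.1 h7
    · by_contra h7
      exact hc.2 h7
  have h8 := probReal_compl_eq_one_sub (μ := law d ρ) (FrD_G_meas (ρ := ρ) (β := β) B w τ s x)
  rw [h8] at h6
  linarith

/-- TASK FrD. `fr_last` with `L s x = Lk`, `G s x = {move ≤ B} ∩ {wait ≤ w}` (different rows: probability
`≥ (1 - 1/8)(1 - 1/16) ≥ 3/4`, or `≥ 1 - 1/8 - 1/16`), the finite set of the even `x` with `sn x ≤ r`
(`boxF d ⌊r⌋₊` filtered), `Lk_of_VV`, `fr_det`, `fr_slabs`. -/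
theorem fr_main {θ ℓ R r B w : ℝ} (hθ : 0 ≤ θ) {h τ I : ℕ}
    (hmv : ∀ x : Site d, Even (ln x) → (sn x : ℝ) ≤ r →
      (law d ρ).real {η : Env d | ¬ Tle ρ β η τ x B} ≤ 1 / 8)
    (hwt : ∀ s ≤ I * h, (law d ρ).real {η : Env d | ¬ Tle ρ β η s 0 w} ≤ 1 / 16)
    (hpt : (law d ρ).real {η : Env d | ∃ t ≤ τ + I * h, ∃ y : Site d, Even (ln y) ∧ (sn y : ℝ) ≤ R + r ∧
      Tle ρ β η t y (θ * sn y - (ℓ - B - w - θ * r))} ≤ 1 / 4) :
    2 / 3 ≤ (1 - (law d ρ).real (VV d ρ β θ ℓ R r h)) ^ I := by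
  classical
  -- the finite set of the starts
  obtain ⟨Bs, hBs⟩ : ∃ Bs : Finset (Site d), ∀ x : Site d, x ∈ Bs ↔ ((sn x : ℝ) ≤ r ∧ Even (ln x)) := by
    refine ⟨(boxF d ⌊r⌋₊).filter fun x => (sn x : ℝ) ≤ r ∧ Even (ln x), fun x => ?_⟩
    rw [Finset.mem_filter]
    refine ⟨fun hx => hx.2, fun hx => ⟨?_, hx⟩⟩
    rw [mem_boxF_iff]
    exact Nat.le_floor hx.1
  have hlast := fr_last (ρ := ρ) τ (I * h) Bs (fun s x => Lk ρ β θ ℓ R h τ s x)
    (fun s x => FrD_G ρ β B w τ s x)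
    (fun s x => Lk_meas θ ℓ R h τ s x) (fun s x => FrD_G_meas B w τ s x)
    (fun s x η η' hη => Lk_dep hη) (fun s x η η' hη => FrD_G_dep hη) (q := 3 / 4)
    (fun s hs x hx => FrD_G_prob (hmv x ((hBs x).1 hx).2 ((hBs x).1 hx).1) (hwt s hs.le))
  -- the lucky piece from the point
  have hdet : (law d ρ).real {η : Env d | ∃ s < I * h, ∃ x ∈ Bs, η ∈ Lk ρ β θ ℓ R h τ s x ∧
      η ∈ FrD_G ρ β B w τ s x} ≤ 1 / 4 := by
    refine le_trans (measureReal_mono ?_) hpt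
    rintro η ⟨s, hs, x, hx, hL, hG⟩
    exact fr_det hs ((hBs x).1 hx).1 hθ hL hG.1 hG.2
  have hLk : (law d ρ).real {η : Env d | ∃ s < I * h, ∃ x ∈ Bs, η ∈ Lk ρ β θ ℓ R h τ s x} ≤ 1 / 3 := by
    have h1 := hlast.trans hdet
    linarith
  -- the slabs
  have hslab := fr_slabs (d := d) (ρ := ρ) (β := β) θ ℓ R r h τ I
  have hunion : (1 : ℝ) ≤ (law d ρ).real {η : Env d | ∀ i < I, sh (2 * τ + 2 * h * i) (0 : Site d) η ∉
      VV d ρ β θ ℓ R r h} + (law d ρ).real {η : Env d | ∃ s < I * h, ∃ x ∈ Bs, η ∈ Lk ρ β θ ℓ R h τ s x} := by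
    refine le_trans (le_of_eq ?_) (measureReal_union_le _ _)
    have h2 : {η : Env d | ∀ i < I, sh (2 * τ + 2 * h * i) (0 : Site d) η ∉ VV d ρ β θ ℓ R r h} ∪
        {η : Env d | ∃ s < I * h, ∃ x ∈ Bs, η ∈ Lk ρ β θ ℓ R h τ s x} = Set.univ := by
      rw [Set.eq_univ_iff_forall]
      intro η
      by_cases h3 : ∀ i < I, sh (2 * τ + 2 * h * i) (0 : Site d) η ∉ VV d ρ β θ ℓ R r h
      · exact Or.inl h3
      · right
        push Not at h3
        obtain ⟨i, hi, hV⟩ := h3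
        obtain ⟨s, hs, x, hx1, hx2, hx3⟩ := Lk_of_VV (ρ := ρ) (β := β) hi hV
        exact ⟨s, hs, x, (hBs x).2 ⟨hx1, hx2⟩, hx3⟩
    rw [h2, probReal_univ]
  rw [← hslab]
  linarith

end Pool.Agent.W_7d29a1_q
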