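import Pool.Agent.W_7d29a1_q.FrD

/-!
Row 601, section 5: Lemma 5 from Lemma 4 and the moves.
-/

namespace Pool.Agent.W_7d29a1_q

open MeasureTheory ProbabilityTheory Filter Topology Pool.Agent.W_MP_7d29a1_pr
  Pool.Agent.W_7d29a1_h46 Pool.Agent.W_7d29a1_h46u Pool.Agent.W_7d29a1_h3

variable {d : ℕ}

/-- `a_*` is large. -/
theorem Fr_as (d : ℕ) (K : ℝ) : ∀ᶠ N : ℕ in atTop, K ≤ as d N := by
  have h1 : (0 : ℝ) < 1 / (40 * ((d : ℝ) + 2)) := by positivity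
  exact ((tendsto_rpow_atTop h1).comp (tendsto_natCast_atTop_atTop (R := ℝ))).eventually_ge_atTop K

/-- `N ^ (6 c) ≤ ε a_*`. -/
theorem Fr_pow (d : ℕ) {ε : ℝ} (hε : 0 < ε) : ∀ᶠ N : ℕ in atTop, ∀ c : ℝ,
    c ≤ 1 / (400 * ((d : ℝ) + 2)) → (N : ℝ) ^ (6 * c) ≤ ε * as d N := by
  have h1 : (0 : ℝ) < 1 / (100 * ((d : ℝ) + 2)) := by positivity
  have h2 := ((tendsto_rpow_atTop h1).comp
    (tendsto_natCast_atTop_atTop (R := ℝ))).eventually_ge_atTop (1 / ε)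
  filter_upwards [h2, eventually_ge_atTop 1] with N hN hN1 c hc
  simp only [Function.comp_apply] at hN
  have hN0 : (1 : ℝ) ≤ N := by exact_mod_cast hN1
  have h3 : (N : ℝ) ^ (6 * c) ≤ (N : ℝ) ^ (3 / (200 * ((d : ℝ) + 2))) := by
    refine Real.rpow_le_rpow_of_exponent_le hN0 ?_
    have h4 : 3 / (200 * ((d : ℝ) + 2)) = 6 * (1 / (400 * ((d : ℝ) + 2))) := by
      field_simp
      norm_num
    rw [h4]
    linarith
  have h5 : as d N = (N : ℝ) ^ (3 / (200 * ((d : ℝ) + 2))) * (N : ℝ) ^ (1 / (100 * ((d : ℝ) + 2))) := by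
    unfold as
    rw [← Real.rpow_add (by linarith)]
    congr 1
    field_simp
    norm_num
  rw [h5]
  have h6 : 1 ≤ ε * (N : ℝ) ^ (1 / (100 * ((d : ℝ) + 2))) := by
    rw [div_le_iff₀ hε] at hN
    linarith
  have h7 : 0 ≤ (N : ℝ) ^ (3 / (200 * ((d : ℝ) + 2))) := by positivity
  calc (N : ℝ) ^ (6 * c) ≤ (N : ℝ) ^ (3 / (200 * ((d : ℝ) + 2))) * 1 := by rw [mul_one]; exact h3
    _ ≤ (N : ℝ) ^ (3 / (200 * ((d : ℝ) + 2))) * (ε * (N : ℝ) ^ (1 / (100 * ((d : ℝ) + 2)))) :=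
      mul_le_mul_of_nonneg_left h6 h7
    _ = _ := by ring

theorem Fr_bern {p : ℝ} (_hp : 0 ≤ p) (hp1 : p ≤ 1) {I : ℕ} (h : 2 / 3 ≤ (1 - p) ^ I) : I * p ≤ 1 / 2 := by
  have h1 : (1 - p) ^ I ≤ Real.exp (-(I * p)) := by
    have h2 : 1 - p ≤ Real.exp (-p) := by linarith [Real.add_one_le_exp (-p)]
    calc (1 - p) ^ I ≤ Real.exp (-p) ^ I := pow_le_pow_left₀ (by linarith) h2 I
      _ = Real.exp (-(I * p)) := by
        rw [← Real.exp_nat_mul]
        congr 1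
        ring
  have h3 := Real.add_one_le_exp (I * p)
  have h4 : Real.exp (-(I * p)) * Real.exp (I * p) = 1 := by
    rw [← Real.exp_add]
    simp
  have h5 := Real.exp_pos (I * p)
  have h6 : 2 / 3 * Real.exp (I * p) ≤ 1 := by
    rw [← h4]
    exact mul_le_mul_of_nonneg_right (h.trans h1) h5.le
  linarith

/-- SECTION 5, Lemma 5 (free start). -/
theorem free_of (j0 : Fin d) {ε' : ℝ} (hP : PointProp d ε') : ∃ C ε1 : ℝ, FreeProp d C ε1 := by
  obtain ⟨hε', hε'8, hpt⟩ := hP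
  obtain ⟨C8, hC8, hcell⟩ := cells j0 (q := 1 / 8) (by norm_num) (by norm_num)
  have hC0 : 0 < C8 := by linarith
  obtain ⟨ε1, hε1d⟩ : ∃ ε1 : ℝ, ε1 = min ε' ((ε' / (100 * C8)) ^ (4 / 3 : ℝ)) := ⟨_, rfl⟩
  have hb0 : 0 < ε' / (100 * C8) := by positivity
  have hε1 : 0 < ε1 := by
    rw [hε1d]
    exact lt_min hε' (Real.rpow_pos_of_pos hb0 _)
  have hε1' : ε1 ≤ ε' := by
    rw [hε1d]
    exact min_le_left _ _
  have hε1B : C8 * ε1 ^ (3 / 4 : ℝ) ≤ ε' / 100 := by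
    have h1 : ε1 ≤ (ε' / (100 * C8)) ^ (4 / 3 : ℝ) := by
      rw [hε1d]
      exact min_le_right _ _
    have h2 := Real.rpow_le_rpow hε1.le h1 (show (0 : ℝ) ≤ 3 / 4 by norm_num)
    rw [← Real.rpow_mul hb0.le] at h2
    norm_num at h2
    have h3 := mul_le_mul_of_nonneg_left h2 hC0.le
    refine h3.trans (le_of_eq ?_)
    field_simp
  refine ⟨4 / ε', ε1, ?_, hε1, by linarith, ?_⟩
  · rw [le_div_iff₀ hε']
    linarith
  intro Λ hΛ ρ _ β c a0 hρ
  filter_upwards [hpt ρ β c a0 hρ, hcell ρ β c a0 hρ, Fr_pow d hε1, Fr_as d 1,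
    Fr_as d (8 * a0), eventually_ge_atTop 1] with N hpt hcell hpow has1 hasa hN S a ha haΛ hR
  obtain ⟨ah, hah⟩ : ∃ ah : ℝ, ah = Λ * a := ⟨_, rfl⟩
  rw [← hah] at haΛ hR ⊢
  have ha0 : 1 ≤ a := has1.trans ha
  have haah : a ≤ ah := by
    rw [hah]
    nlinarith
  have hah1 : 1 ≤ ah := ha0.trans haah
  have hah0 : 0 < ah := by linarith
  have hasah : as d N ≤ ah := ha.trans haah
  have ha0ah : a0 ≤ ah := by
    have := S.one
    linarith
  have hπ := pr_pos S hN ha0ah haΛ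
  have hπa := S.hi ah ha0ah haΛ
  have hprob : ∀ E : Set (Env d), (law d ρ).real E ≤ 1 := fun E => measureReal_le_one
  obtain ⟨p, hp⟩ : ∃ p : ℝ, p = (law d ρ).real (VV d ρ β (7 / 8 * pr d ρ β ah) (ah / 64)
    (WW d ρ β ah / 2 + 2) (ε1 * WW d ρ β ah) (nn d ρ β a)) := ⟨_, rfl⟩
  rw [← hp]
  have hp0 : 0 ≤ p := by
    rw [hp]
    exact measureReal_nonneg
  have hp1 : p ≤ 1 := by
    rw [hp]
    exact hprob _
  have hΛ0 : 0 < Λ := by linarith
  rcases le_or_gt Λ (4 / ε') with hsm | hbig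
  · refine hp1.trans ?_
    rw [one_le_div hΛ0]
    exact hsm
  obtain ⟨I, hI⟩ : ∃ I : ℕ, I = ⌊ε' * Λ / 4⌋₊ := ⟨_, rfl⟩
  have hx : 1 ≤ ε' * Λ / 4 := by
    rw [div_lt_iff₀ hε'] at hbig
    linarith
  have hI1 : (I : ℝ) ≤ ε' * Λ / 4 := by
    rw [hI]
    exact Nat.floor_le (by linarith)
  have hI2 : ε' * Λ / 8 ≤ I := by
    have h1 := Nat.lt_floor_add_one (ε' * Λ / 4)
    rw [← hI] at h1
    have h2 : 1 ≤ I := by
      rw [hI]
      exact Nat.le_floor (by simpa using hx)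
    have h3 : (1 : ℝ) ≤ I := by exact_mod_cast h2
    linarith
  obtain ⟨h, hh⟩ : ∃ h : ℕ, h = nn d ρ β a := ⟨_, rfl⟩
  rw [← hh] at hp
  have haam : a ≤ am d N := haah.trans haΛ
  have hSI : SS d ρ β (I * h) ≤ ε' / 4 * ah := by
    have h1 := SS_mul j0 hρ (β := β) I h
    have h2 : SS d ρ β h ≤ a := by
      rw [hh]
      exact SS_nn S (by linarith) haam
    have h3 : (I : ℝ) * SS d ρ β h ≤ I * a := mul_le_mul_of_nonneg_left h2 (Nat.cast_nonneg I)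
    have h4 : (I : ℝ) * a ≤ ε' * Λ / 4 * a := mul_le_mul_of_nonneg_right hI1 (by linarith)
    rw [hah]
    linarith
  obtain ⟨τ, hτ, hmv⟩ := hcell S ah ε1 haΛ hR hε1 (by linarith)
    ((hpow c S.csm).trans (mul_le_mul_of_nonneg_left hasah hε1.le)) (by
      have h1 := mul_le_mul_of_nonneg_right hε1B hah0.le
      have h2 : ε' / 100 * ah ≤ ah := by nlinarith
      linarith)
  have hBle : C8 * ε1 ^ (3 / 4 : ℝ) * ah ≤ ε' / 100 * ah := mul_le_mul_of_nonneg_right hε1B hah0.le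
  have hτS : SS d ρ β (τ + I * h) ≤ ε' * ah := by
    have h1 := SS_add j0 hρ (β := β) τ (I * h)
    have h2 : ε' / 100 * ah + ε' / 4 * ah ≤ ε' * ah := by nlinarith
    linarith
  have hnn : τ + I * h ≤ nn d ρ β (ε' * ah) := by
    rw [le_nn S (by nlinarith : ε' * ah ≤ am d N)]
    exact Or.inr hτS
  have hWpos : 8 ≤ WW d ρ β ah := by
    unfold WW
    rw [le_div_iff₀ hπ]
    have : 8 * pr d ρ β ah ≤ 8 * a0 := by linarith
    linarith
  have hπW : pr d ρ β ah * WW d ρ β ah = ah := by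
    unfold WW
    field_simp
  have hmain := fr_main (ρ := ρ) (β := β) (θ := 7 / 8 * pr d ρ β ah) (ℓ := ah / 64)
    (R := WW d ρ β ah / 2 + 2) (r := ε1 * WW d ρ β ah) (B := C8 * ε1 ^ (3 / 4 : ℝ) * ah)
    (w := ε' * ah) (by positivity) (h := h) (τ := τ) (I := I)
    (fun x hx hxr => hmv x hx hxr) (fun s hs => by
      have h1 := wait_cheb j0 hρ (β := β) hs (w := ε' * ah) (by positivity)
      refine h1.trans ?_
      have h2 : SS d ρ β (I * h) / (ε' * ah) ≤ 1 / 4 := by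
        rw [div_le_iff₀ (by positivity)]
        linarith
      have h3 : 0 ≤ SS d ρ β (I * h) / (ε' * ah) :=
        div_nonneg (SS_nonneg _) (by positivity)
      calc (SS d ρ β (I * h) / (ε' * ah)) ^ 2 ≤ (1 / 4) ^ 2 := pow_le_pow_left₀ h3 h2 2
        _ = 1 / 16 := by norm_num)
    (by
      refine (measureReal_mono ?_).trans (hpt S ah hasah haΛ hR)
      rintro η ⟨t, ht, y, hy1, hy2, hy3⟩
      refine ⟨t, ht.trans hnn, y, hy1, ?_, Tle_mono hy3 ?_⟩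
      · have h1 : ε1 * WW d ρ β ah ≤ 1 / 4 * WW d ρ β ah :=
          mul_le_mul_of_nonneg_right (by linarith) (by linarith)
        linarith
      · have h1 : 7 / 8 * pr d ρ β ah * (ε1 * WW d ρ β ah) = 7 / 8 * ε1 * ah := by
          calc 7 / 8 * pr d ρ β ah * (ε1 * WW d ρ β ah) = 7 / 8 * ε1 * (pr d ρ β ah * WW d ρ β ah) := by
                ring
            _ = 7 / 8 * ε1 * ah := by rw [hπW]
        rw [h1]
        have h2 : ε1 * ah ≤ ε' * ah := mul_le_mul_of_nonneg_right hε1' hah0.le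
        have h3 : ε' * ah ≤ 1 / 800 * ah := mul_le_mul_of_nonneg_right hε'8 hah0.le
        linarith)
  rw [← hp] at hmain
  have hfin := Fr_bern hp0 hp1 hmain
  have h1 : ε' * Λ / 8 * p ≤ 1 / 2 := (mul_le_mul_of_nonneg_right hI2 hp0).trans hfin
  rw [div_div, le_div_iff₀ (by positivity)]
  linarith

end Pool.Agent.W_7d29a1_q
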