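import Pool.Agent.W_7d29a1_q.PtA
import Pool.Agent.W_7d29a1_h3.DecA

/-!
Row 601, section 9 (also used in other sections): exits at an even time, covering by even cells, luck in a large
cell. TASK LaA.
-/

namespace Pool.Agent.W_7d29a1_q

open MeasureTheory ProbabilityTheory Filter Topology Pool.Agent.W_MP_7d29a1_pr
  Pool.Agent.W_7d29a1_h46 Pool.Agent.W_7d29a1_h46u Pool.Agent.W_7d29a1_h3

variable {d : ℕ} {ρ : Measure ℝ} [IsProbabilityMeasure ρ] {β : ℝ}

omit [IsProbabilityMeasure ρ] in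
/-- Positions at the time `m`. -/
private theorem LaA_sum (η : Env d) (m n : ℕ) (z : Site d) :
    Vp ρ β η (m + n) z ≤ ∑ x ∈ boxF d m, Vp ρ β η m x * Vp ρ β (sh m x η) n (z - x) := by
  classical
  obtain ⟨F, hF⟩ : ∃ F : Site d → Set (Fin (m + n) → Step d),
      ∀ x, F x = {s : Fin (m + n) → Step d | pos s m = x ∧ pos s (m + n) = z} := ⟨_, fun _ => rfl⟩
  have h1 : ∀ x : Site d, Vp ρ β η m x * Vp ρ β (sh m x η) n (z - x) = V ρ β η (F x) := by
    intro x
    rw [hF, V_through η (Nat.le_add_right m n) x z, Nat.add_sub_cancel_left]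
  rw [Finset.sum_congr rfl fun x _ => h1 x]
  unfold Vp V
  rw [← Finset.mul_sum]
  refine mul_le_mul_of_nonneg_left ?_ (Real.exp_pos _).le
  unfold ZT
  rw [Finset.sum_comm]
  refine Finset.sum_le_sum fun s _ => ?_
  have hnn : ∀ x : Site d, (0 : ℝ) ≤ (if s ∈ F x then wgt β 0 η s else 0) := by
    intro x
    split_ifs
    · exact (wgt_pos _ _ _ _).le
    · exact le_rfl
  by_cases hs : s ∈ toP (m + n) z
  · rw [if_pos hs]
    have hx : pos s m ∈ boxF d m := by
      rw [mem_boxF_iff]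
      exact (sn_le_ln _).trans (adm_pos s (Nat.le_add_right m n)).1
    have h2 := Finset.single_le_sum (f := fun x : Site d => if s ∈ F x then wgt β 0 η s else 0)
      (fun x _ => hnn x) hx
    have h3 : s ∈ F (pos s m) := by
      rw [hF]
      exact ⟨rfl, hs⟩
    simp only [if_pos h3] at h2
    exact h2
  · rw [if_neg hs]
    exact Finset.sum_nonneg fun x _ => hnn x

private theorem LaA_even {s : ℕ} {p : Site d} (h : adm (2 * s) p) : Even (ln p) := by
  have h2 := h.2
  rw [Nat.even_iff]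
  omega

omit [IsProbabilityMeasure ρ] in
/-- Markov. -/
private theorem LaA_markov {L : Env d → ℝ} {C y : ℝ} (h1 : ∀ η, 1 ≤ L η)
    (hi : Integrable L (law d ρ)) (hC : ∫ η, L η ∂(law d ρ) ≤ C) :
    (law d ρ).real {η | Real.exp y ≤ L η} ≤ C * Real.exp (-y) := by
  have h2 := mul_meas_ge_le_integral_of_nonneg (μ := law d ρ) (f := L)
    (Filter.Eventually.of_forall fun η => zero_le_one.trans (h1 η)) hi (Real.exp y)
  have h3 : Real.exp y * (law d ρ).real {η | Real.exp y ≤ L η} ≤ C := h2.trans hC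
  rw [Real.exp_neg, ← div_eq_mul_inv, le_div_iff₀ (Real.exp_pos _), mul_comm]
  exact h3

/-- An exit point at an even time. `exit_exists` (with `2 * n`) gives `i ≤ 2 n` and `p`, `sn p = S + 1`, with constant
`2 (2 n + 1) (4 n + 1) ^ d`. If `i` is even take it (`Even (ln p)` from `adm i p`, which holds as the product is not
`0`, `Vp_zero`). If `i = i' + 1` is odd: `Vp η i p ≤ ∑_q Vp η i' q * Vp (sh i' q η) 1 (p - q)` (positions at the time `i'`:
as `DecB_sum`, which is private: prove it again from `V_through`), and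
`Vp (sh i' q η) 1 (p - q) * Vp (sh i p η) (2 n - i) (z - p) ≤ Vp (sh i' q η) (2 n - i') (z - q)` (`Vp_add`, `sh_sh`). Only
the `q` with `adm 1 (p - q)` count, so `S ≤ sn q ≤ S + 2`. One `q` in `boxF d i'` (at most `(4 n + 1) ^ d` points) has
at least the average. -/
theorem La_exit (j0 : Fin d) (η : Env d) {n S : ℕ} {z : Site d} (hz : adm (2 * n) z)
    (h : V ρ β η (stP (2 * n) S z) ≤ 1 / 2 * Vp ρ β η (2 * n) z) :
    ∃ s ≤ n, ∃ p : Site d, Even (ln p) ∧ S ≤ sn p ∧ sn p ≤ S + 2 ∧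
      Vp ρ β η (2 * n) z ≤ 2 * (4 * (n : ℝ) + 1) ^ (2 * d + 1) *
        (Vp ρ β η (2 * s) p * Vp ρ β (sh (2 * s) p η) (2 * (n - s)) (z - p)) := by
  obtain ⟨i, hi, p, hp, hV⟩ := exit_exists (ρ := ρ) (β := β) j0 η hz h
  have hpos := Vp_pos (ρ := ρ) (β := β) j0 η hz
  obtain ⟨B, hB⟩ : ∃ B : ℝ, B = 4 * (n : ℝ) + 1 := ⟨_, rfl⟩
  have hB1 : 1 ≤ B := by
    rw [hB]
    have : (0 : ℝ) ≤ n := Nat.cast_nonneg n
    linarith only [this]
  have hB0 : 0 < B := zero_lt_one.trans_le hB1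
  have hcst : 2 * (((2 * n : ℕ) : ℝ) + 1) * (2 * ((2 * n : ℕ) : ℝ) + 1) ^ d ≤ 2 * B * B ^ d := by
    have e1 : 2 * ((2 * n : ℕ) : ℝ) + 1 = B := by
      rw [hB]
      push_cast
      ring
    rw [e1]
    refine mul_le_mul_of_nonneg_right ?_ (by positivity)
    rw [hB]
    push_cast
    have : (0 : ℝ) ≤ n := Nat.cast_nonneg n
    linarith only [this]
  have hBd : B * B ^ d * B ^ d = B ^ (2 * d + 1) := by
    rw [pow_succ, two_mul, pow_add]
    ring
  rw [← hB, ← hBd]
  obtain ⟨a, ha⟩ : ∃ a : ℝ, a = Vp ρ β η i p := ⟨_, rfl⟩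
  obtain ⟨b, hb⟩ : ∃ b : ℝ, b = Vp ρ β (sh i p η) (2 * n - i) (z - p) := ⟨_, rfl⟩
  have ha0 : 0 ≤ a := by
    rw [ha]
    exact V_nonneg _ _
  have hb0 : 0 ≤ b := by
    rw [hb]
    exact V_nonneg _ _
  rw [← ha, ← hb] at hV
  have hV2 : Vp ρ β η (2 * n) z ≤ 2 * B * B ^ d * (a * b) :=
    hV.trans (mul_le_mul_of_nonneg_right hcst (mul_nonneg ha0 hb0))
  have hab : 0 < a * b := by
    rcases (mul_nonneg ha0 hb0).lt_or_eq with h1 | h1
    · exact h1
    · rw [← h1, mul_zero] at hV2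
      exact absurd (hpos.trans_le hV2) (lt_irrefl _)
  rcases Nat.even_or_odd' i with ⟨s, hs | hs⟩
  · refine ⟨s, by omega, p, ?_, by omega, by omega, ?_⟩
    · by_contra hodd
      have hna : ¬ adm i p := by
        intro hadm
        rw [hs] at hadm
        exact hodd (LaA_even hadm)
      rw [ha, Vp_zero j0 η hna, zero_mul] at hab
      exact lt_irrefl _ hab
    · have e1 : 2 * (n - s) = 2 * n - i := by omega
      rw [e1, ← hs, ← ha, ← hb]
      refine hV2.trans ?_
      have e2 : 2 * (B * B ^ d * B ^ d) * (a * b) = (2 * B * B ^ d * (a * b)) * B ^ d := by ring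
      rw [e2]
      have e3 : 1 ≤ B ^ d := one_le_pow₀ hB1
      exact le_mul_of_one_le_right (by positivity) e3
  · have hsn : s < n := by omega
    have h1 := LaA_sum (ρ := ρ) (β := β) η (2 * s) 1 p
    rw [← hs, ← ha] at h1
    obtain ⟨q, hq, hmax⟩ := Finset.exists_max_image (boxF d (2 * s))
      (fun x => Vp ρ β η (2 * s) x * Vp ρ β (sh (2 * s) x η) 1 (p - x)) ⟨0, zero_mem_boxF _⟩
    have h2 := Finset.sum_le_card_nsmul (boxF d (2 * s))
      (fun x => Vp ρ β η (2 * s) x * Vp ρ β (sh (2 * s) x η) 1 (p - x)) _ hmax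
    rw [card_boxF, nsmul_eq_mul] at h2
    obtain ⟨u, hu⟩ : ∃ u : ℝ, u = Vp ρ β η (2 * s) q := ⟨_, rfl⟩
    obtain ⟨w, hw⟩ : ∃ w : ℝ, w = Vp ρ β (sh (2 * s) q η) 1 (p - q) := ⟨_, rfl⟩
    have hu0 : 0 ≤ u := by
      rw [hu]
      exact V_nonneg _ _
    have hw0 : 0 ≤ w := by
      rw [hw]
      exact V_nonneg _ _
    simp only [← hu, ← hw] at h2
    have h3 : a ≤ B ^ d * (u * w) := by
      refine h1.trans (h2.trans (mul_le_mul_of_nonneg_right ?_ (mul_nonneg hu0 hw0)))
      push_cast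
      refine pow_le_pow_left₀ (by positivity) ?_ d
      rw [hB]
      have : (s : ℝ) ≤ n := by exact_mod_cast hsn.le
      linarith only [this]
    have ha1 : 0 < a := by
      rcases ha0.lt_or_eq with h4 | h4
      · exact h4
      · rw [← h4, zero_mul] at hab
        exact absurd hab (lt_irrefl _)
    have huw : 0 < u * w := by
      rcases (mul_nonneg hu0 hw0).lt_or_eq with h4 | h4
      · exact h4
      · rw [← h4, mul_zero] at h3
        exact absurd (ha1.trans_le h3) (lt_irrefl _)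
    have hadm1 : adm (2 * s) q := by
      by_contra hc
      rw [hu, Vp_zero j0 η hc, zero_mul] at huw
      exact lt_irrefl _ huw
    have hadm2 : adm 1 (p - q) := by
      by_contra hc
      rw [hw, Vp_zero j0 _ hc, mul_zero] at huw
      exact lt_irrefl _ huw
    have hsn1 : sn (p - q) ≤ 1 := (sn_le_ln _).trans hadm2.1
    have hsn2 : sn p ≤ sn (p - q) + sn q := by
      have := sn_add (p - q) q
      rwa [sub_add_cancel] at this
    have hsn3 : sn q ≤ sn (p - q) + sn p := by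
      have := sn_add (-(p - q)) p
      rw [sn_neg] at this
      have e1 : -(p - q) + p = q := by abel
      rwa [e1] at this
    refine ⟨s, hsn.le, q, LaA_even hadm1, by omega, by omega, ?_⟩
    have h5 := Vp_add (ρ := ρ) (β := β) (sh (2 * s) q η) 1 (2 * n - i) (p - q) (z - p)
    rw [sh_sh, sub_add_cancel, sub_add_sub_cancel', ← hw] at h5
    have e4 : 1 + 2 * s = i := by omega
    have e5 : 1 + (2 * n - i) = 2 * (n - s) := by omega
    have e6 : p - q + (z - p) = z - q := by abel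
    rw [e4, e5, ← hb] at h5
    rw [← hu]
    refine hV2.trans ?_
    have h6 : a * b ≤ B ^ d * (u * (w * b)) := by
      calc a * b ≤ B ^ d * (u * w) * b := mul_le_mul_of_nonneg_right h3 hb0
        _ = B ^ d * (u * (w * b)) := by ring
    have h7 : a * b ≤ B ^ d * (u * Vp ρ β (sh (2 * s) q η) (2 * (n - s)) (z - q)) :=
      h6.trans (mul_le_mul_of_nonneg_left (mul_le_mul_of_nonneg_left h5 hu0) (by positivity))
    calc 2 * B * B ^ d * (a * b) ≤ 2 * B * B ^ d *
          (B ^ d * (u * Vp ρ β (sh (2 * s) q η) (2 * (n - s)) (z - q))) :=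
          mul_le_mul_of_nonneg_left h7 (by positivity)
      _ = 2 * (B * B ^ d * B ^ d) * (u * Vp ρ β (sh (2 * s) q η) (2 * (n - s)) (z - q)) := by ring

/-- Covering by even cells: `m = 2 * ⌊r / 2⌋` (`r / 2 ≤ m ≤ r`), `c j = m * (x j / m)` (integer division), so
`0 ≤ x j - c j < m`; the `c` with `|c j| ≤ R + m`: at most `(2 * (R / m + 1) + 1) ^ d` (a `Fintype.piFinset` of images). All
coordinates of `c` are even. -/
theorem cover_even (d : ℕ) {R r : ℝ} (hr : 4 ≤ r) (hrR : r ≤ R) :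
    ∃ F : Finset (Site d), (∀ c ∈ F, Even (ln c)) ∧ (F.card : ℝ) ≤ (8 * R / r) ^ d ∧
      ∀ x : Site d, (sn x : ℝ) ≤ R → ∃ c ∈ F, (sn (x - c) : ℝ) ≤ r := by
  classical
  obtain ⟨k, hk⟩ : ∃ k : ℕ, k = ⌊r / 2⌋₊ := ⟨_, rfl⟩
  have hk1 : (k : ℝ) ≤ r / 2 := by
    rw [hk]
    exact Nat.floor_le (by linarith only [hr])
  have hk2 : r / 2 < k + 1 := by
    rw [hk]
    exact Nat.lt_floor_add_one _
  obtain ⟨m, hm⟩ : ∃ m : ℕ, m = 2 * k := ⟨_, rfl⟩
  have hmR : (m : ℝ) = 2 * k := by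
    rw [hm]
    push_cast
    ring
  have hm1 : (m : ℝ) ≤ r := by linarith only [hmR, hk1]
  have hm2 : r / 2 ≤ m := by linarith only [hmR, hk2, hr]
  have hmpos : (0 : ℝ) < m := by linarith only [hm2, hr]
  have hm0 : 0 < m := by exact_mod_cast hmpos
  have hmZ : (0 : ℤ) < m := by exact_mod_cast hm0
  have hr0 : 0 < r := by linarith only [hr]
  obtain ⟨Q, hQ⟩ : ∃ Q : ℕ, Q = ⌊R / m⌋₊ + 1 := ⟨_, rfl⟩
  have hRm : 0 ≤ R / m := div_nonneg (by linarith only [hr, hrR]) hmpos.le
  have hQ1 : (Q : ℝ) ≤ R / m + 1 := by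
    rw [hQ]
    push_cast
    have := Nat.floor_le hRm
    linarith only [this]
  have hQ2 : R < Q * m := by
    have h1 : R / m < Q := by
      rw [hQ]
      push_cast
      exact Nat.lt_floor_add_one _
    rwa [div_lt_iff₀ hmpos] at h1
  obtain ⟨f, hf⟩ : ∃ f : Site d → Site d, f = fun y i => (m : ℤ) * y i := ⟨_, rfl⟩
  obtain ⟨G, hG⟩ : ∃ G : Finset (Site d), G = Fintype.piFinset fun _ : Fin d => Finset.Icc (-(Q : ℤ)) Q :=
    ⟨_, rfl⟩
  refine ⟨G.image f, ?_, ?_, ?_⟩
  · intro c hc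
    obtain ⟨y, -, rfl⟩ := Finset.mem_image.1 hc
    rw [even_iff_two_dvd]
    unfold ln
    refine Finset.dvd_sum fun j _ => ?_
    rw [hf, hm]
    show 2 ∣ (((2 * k : ℕ) : ℤ) * y j).natAbs
    rw [Int.natAbs_mul, Int.natAbs_natCast]
    exact Dvd.dvd.mul_right (Dvd.intro k rfl) _
  · have h1 : ((G.image f).card : ℝ) ≤ G.card := by exact_mod_cast Finset.card_image_le
    have h2 : (G.card : ℝ) = (2 * (Q : ℝ) + 1) ^ d := by
      rw [hG, Fintype.card_piFinset_const, Int.card_Icc]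
      have e1 : ((Q : ℤ) + 1 - -(Q : ℤ)).toNat = 2 * Q + 1 := by omega
      rw [e1]
      push_cast
      rfl
    rw [h2] at h1
    refine h1.trans (pow_le_pow_left₀ (by positivity) ?_ d)
    have h3 : R / m ≤ 2 * R / r := by
      rw [div_le_div_iff₀ hmpos hr0]
      have := mul_le_mul_of_nonneg_left hm2 (show (0 : ℝ) ≤ R by linarith only [hr, hrR])
      linarith only [this]
    have h4 : 1 ≤ R / r := by
      rw [le_div_iff₀ hr0]
      linarith only [hrR]
    have h5 : 8 * R / r = 8 * (R / r) := by ring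
    have h6 : 2 * R / r = 2 * (R / r) := by ring
    rw [h5]
    rw [h6] at h3
    linarith only [hQ1, h3, h4]
  · intro x hx
    refine ⟨f fun i => x i / (m : ℤ), Finset.mem_image_of_mem f ?_, ?_⟩
    · rw [hG, Fintype.mem_piFinset]
      intro i
      have h1 : ((x i).natAbs : ℝ) < ((Q * m : ℕ) : ℝ) := by
        push_cast
        refine lt_of_le_of_lt (le_trans ?_ hx) hQ2
        exact_mod_cast Cat_le_sn x i
      have h2 : (x i).natAbs < Q * m := by exact_mod_cast h1
      have h3 : |x i| < (Q : ℤ) * m := by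
        rw [Int.abs_eq_natAbs]
        exact_mod_cast h2
      rw [abs_lt] at h3
      rw [Finset.mem_Icc]
      constructor
      · show -(Q : ℤ) ≤ x i / m
        rw [Int.le_ediv_iff_mul_le hmZ]
        linarith only [h3.1]
      · show x i / m ≤ (Q : ℤ)
        refine Int.ediv_le_of_le_mul hmZ ?_
        linarith only [h3.2]
    · refine le_trans ?_ hm1
      have h3 : sn (x - f fun i => x i / (m : ℤ)) ≤ m := by
        rw [sn_le_iff]
        intro j
        have h7 := Int.emod_add_mul_ediv (x j) m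
        have h10 := Int.emod_nonneg (x j) hmZ.ne'
        have h11 := Int.emod_lt_of_pos (x j) hmZ
        rw [hf]
        show |x j - (m : ℤ) * (x j / (m : ℤ))| ≤ m
        rw [abs_le]
        constructor
        · linarith only [h7, h10, hmZ]
        · linarith only [h7, h11]
      exact_mod_cast h3

/-- Luck from a large cell: `cover_even`, union bound over `c`; for one `c` the event (with `sn (x - c) ≤ r`) is
`{η | sh 0 c η ∈ E}`, `E` the event of `Tail_prob` (its measurability: `E` is contained in the measurable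
`{L ≥ exp (γ v)}`, `measureReal_mono` and Markov directly with the `L` of `Tail`; `sh (2 s) x η = sh (2 s) (x - c) (sh 0 c η)`,
`real_sh`). The parity: `even_ln_sub` (PtA). -/
theorem tail_ball {θ γ C r R : ℝ} {h : ℕ} (hT : Tail d ρ β θ γ C r h) (hγ : 0 < γ) (hr : 4 ≤ r)
    (hrR : r ≤ R) (v : ℝ) :
    (law d ρ).real {η : Env d | ∃ (s t : ℕ) (x p : Site d), s ≤ t ∧ t ≤ h ∧ (sn x : ℝ) ≤ R ∧
      Even (ln x) ∧ Even (ln p) ∧ Tle ρ β (sh (2 * s) x η) (t - s) (p - x) (θ * sn (p - x) - v)} ≤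
      (8 * R / r) ^ d * (C * Real.exp (-(γ * v))) := by
  classical
  obtain ⟨L, hLm, -, hL1, hLi, hLC, hL⟩ := hT
  obtain ⟨F, hF1, hF2, hF3⟩ := cover_even d hr hrR
  have hC0 : 0 ≤ C := (integral_nonneg fun η => zero_le_one.trans (hL1 η)).trans hLC
  have hsub : {η : Env d | ∃ (s t : ℕ) (x p : Site d), s ≤ t ∧ t ≤ h ∧ (sn x : ℝ) ≤ R ∧
      Even (ln x) ∧ Even (ln p) ∧ Tle ρ β (sh (2 * s) x η) (t - s) (p - x) (θ * sn (p - x) - v)} ⊆
      ⋃ c ∈ F, {η : Env d | sh 0 c η ∈ {η' : Env d | Real.exp (γ * v) ≤ L η'}} := by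
    rintro η ⟨s, t, x, p, hst, hth, hx, hex, hep, hle⟩
    obtain ⟨c, hc, hxc⟩ := hF3 x hx
    refine Set.mem_iUnion₂.2 ⟨c, hc, ?_⟩
    show Real.exp (γ * v) ≤ L (sh 0 c η)
    have h1 := hL (sh 0 c η) s t (x - c) (p - c) hst hth hxc (even_ln_sub hex (hF1 c hc))
      (even_ln_sub hep (hF1 c hc))
    rw [sh_sh, add_zero, sub_add_cancel, sub_sub_sub_cancel_right] at h1
    refine le_trans ?_ h1
    have h2 : Real.exp v ≤ Real.exp (θ * sn (p - x)) * Vp ρ β (sh (2 * s) x η) (2 * (t - s)) (p - x) := by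
      have h3 : Real.exp (-(θ * sn (p - x) - v)) ≤ Vp ρ β (sh (2 * s) x η) (2 * (t - s)) (p - x) := hle
      have h4 : Real.exp v = Real.exp (θ * sn (p - x)) * Real.exp (-(θ * sn (p - x) - v)) := by
        rw [← Real.exp_add]
        congr 1
        ring
      rw [h4]
      exact mul_le_mul_of_nonneg_left h3 (Real.exp_pos _).le
    have h5 : Real.exp (γ * v) = Real.exp v ^ γ := by
      rw [← Real.exp_mul, mul_comm]
    rw [h5]
    exact Real.rpow_le_rpow (Real.exp_pos _).le h2 hγ.le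
  have hmeas : MeasurableSet {η' : Env d | Real.exp (γ * v) ≤ L η'} :=
    measurableSet_le measurable_const hLm
  refine (measureReal_mono hsub (measure_ne_top _ _)).trans ((measureReal_biUnion_finset_le F _).trans ?_)
  have h6 : ∀ c ∈ F, (law d ρ).real {η : Env d | sh 0 c η ∈ {η' : Env d | Real.exp (γ * v) ≤ L η'}} ≤
      C * Real.exp (-(γ * v)) := by
    intro c _
    rw [real_sh 0 c hmeas]
    exact LaA_markov hL1 hLi hLC
  refine (Finset.sum_le_card_nsmul F _ _ h6).trans ?_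
  rw [nsmul_eq_mul]
  exact mul_le_mul_of_nonneg_right hF2 (mul_nonneg hC0 (Real.exp_pos _).le)

end Pool.Agent.W_7d29a1_q
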