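import Pool.Agent.W_7d29a1_q.LaA
import Pool.Agent.W_7d29a1_q.BasE

/-!
Row 601, section 9: one lane. TASK LaB.
-/

namespace Pool.Agent.W_7d29a1_q

open MeasureTheory ProbabilityTheory Filter Topology Pool.Agent.W_MP_7d29a1_pr
  Pool.Agent.W_7d29a1_h46 Pool.Agent.W_7d29a1_h46u Pool.Agent.W_7d29a1_h3

variable {d : ℕ}

private theorem LaB_ev (d : ℕ) (c1 : ℝ) : ∀ᶠ N : ℕ in atTop,
    Real.log 2 + (2 * (d : ℝ) + 1) * Real.log N + c1 ≤ 7 / 16 * as d N := by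
  have hα : (0 : ℝ) < 1 / (40 * ((d : ℝ) + 2)) := by positivity
  have hd1 : (0 : ℝ) < 2 * (d : ℝ) + 1 := by positivity
  have hε : (0 : ℝ) < 1 / (8 * (2 * (d : ℝ) + 1)) := by positivity
  have h1 := (isLittleO_log_rpow_atTop hα).bound hε
  have h2 := tendsto_natCast_atTop_atTop (R := ℝ) |>.eventually h1
  have h3 : Tendsto (fun N : ℕ => as d N) atTop atTop := by
    unfold as
    exact (tendsto_rpow_atTop hα).comp tendsto_natCast_atTop_atTop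
  filter_upwards [h2, h3.eventually_ge_atTop (8 * (Real.log 2 + c1)), eventually_ge_atTop 1]
    with N h4 h5 h6
  have h7 : (0 : ℝ) ≤ (N : ℝ) ^ (1 / (40 * ((d : ℝ) + 2))) := by positivity
  have h8 : (0 : ℝ) ≤ as d N := h7
  rw [Real.norm_of_nonneg h7] at h4
  have h9 : Real.log N ≤ 1 / (8 * (2 * (d : ℝ) + 1)) * as d N :=
    (le_abs_self _).trans h4
  have h10 : (2 * (d : ℝ) + 1) * Real.log N ≤ 1 / 8 * as d N := by
    calc (2 * (d : ℝ) + 1) * Real.log N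
        ≤ (2 * (d : ℝ) + 1) * (1 / (8 * (2 * (d : ℝ) + 1)) * as d N) :=
          mul_le_mul_of_nonneg_left h9 hd1.le
      _ = 1 / 8 * as d N := by
          field_simp
  linarith

private theorem LaB_q0 {d : ℕ} (hd : 0 < d) {A B : ℝ} (hA : 0 ≤ A) (hB : 0 ≤ B) :
    ∃ q0 : ℝ, 0 < q0 ∧ q0 ≤ 1 / 16 ∧ ∀ q : ℝ, 0 < q → q ≤ q0 →
      (A * Real.log (1 / q)) ^ d * B * q ≤ 1 := by
  obtain ⟨D, hD⟩ : ∃ D : ℝ, D = (2 * d * A) ^ d * B := ⟨_, rfl⟩
  have hD0 : 0 ≤ D := by rw [hD]; positivity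
  refine ⟨1 / max 16 (D ^ 2), by positivity, ?_, ?_⟩
  · exact one_div_le_one_div_of_le (by norm_num) (le_max_left _ _)
  intro q hq hq0
  obtain ⟨x, hx⟩ : ∃ x : ℝ, x = 1 / q := ⟨_, rfl⟩
  have hM : (0 : ℝ) < max 16 (D ^ 2) := lt_of_lt_of_le (by norm_num) (le_max_left _ _)
  have hxM : max 16 (D ^ 2) ≤ x := by
    rw [hx]
    have := one_div_le_one_div_of_le hq hq0
    rwa [one_div_one_div] at this
  have hx16 : 16 ≤ x := (le_max_left _ _).trans hxM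
  have hxD : D ^ 2 ≤ x := (le_max_right _ _).trans hxM
  have hx0 : 0 < x := by linarith
  have hd0 : (0 : ℝ) < d := by exact_mod_cast hd
  have hlog0 : 0 ≤ Real.log x := Real.log_nonneg (by linarith)
  have h1 : Real.log x ≤ x ^ (1 / (2 * (d : ℝ))) / (1 / (2 * (d : ℝ))) :=
    Real.log_le_rpow_div hx0.le (by positivity)
  have h2 : A * Real.log x ≤ 2 * d * A * x ^ (1 / (2 * (d : ℝ))) := by
    calc A * Real.log x ≤ A * (x ^ (1 / (2 * (d : ℝ))) / (1 / (2 * (d : ℝ)))) :=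
          mul_le_mul_of_nonneg_left h1 hA
      _ = 2 * d * A * x ^ (1 / (2 * (d : ℝ))) := by
          rw [div_div_eq_mul_div, div_one]
          ring
  have h3 : (A * Real.log x) ^ d ≤ (2 * d * A) ^ d * x ^ (1 / 2 : ℝ) := by
    calc (A * Real.log x) ^ d ≤ (2 * d * A * x ^ (1 / (2 * (d : ℝ)))) ^ d :=
          pow_le_pow_left₀ (mul_nonneg hA hlog0) h2 d
      _ = (2 * d * A) ^ d * (x ^ (1 / (2 * (d : ℝ)))) ^ d := mul_pow _ _ _
      _ = (2 * d * A) ^ d * x ^ (1 / 2 : ℝ) := by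
          rw [← Real.rpow_natCast (x ^ (1 / (2 * (d : ℝ)))) d, ← Real.rpow_mul hx0.le]
          congr 2
          field_simp
  have hs : x ^ (1 / 2 : ℝ) = Real.sqrt x := (Real.sqrt_eq_rpow x).symm
  have h4 : D ≤ Real.sqrt x := Real.le_sqrt_of_sq_le hxD
  have h5 : (A * Real.log x) ^ d * B ≤ x := by
    calc (A * Real.log x) ^ d * B ≤ (2 * d * A) ^ d * x ^ (1 / 2 : ℝ) * B :=
          mul_le_mul_of_nonneg_right h3 hB
      _ = D * Real.sqrt x := by rw [hs, hD]; ring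
      _ ≤ Real.sqrt x * Real.sqrt x := mul_le_mul_of_nonneg_right h4 (Real.sqrt_nonneg _)
      _ = x := Real.mul_self_sqrt hx0.le
  have h6 : x * q = 1 := by rw [hx]; exact one_div_mul_cancel hq.ne'
  calc (A * Real.log (1 / q)) ^ d * B * q = (A * Real.log x) ^ d * B * q := by rw [hx]
    _ ≤ x * q := mul_le_mul_of_nonneg_right h5 hq.le
    _ = 1 := h6

private theorem LaB_log {q : ℝ} (hq : 0 < q) (h : q ≤ 1 / 16) : 2 ≤ Real.log (1 / q) := by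
  have h1 : (16 : ℝ) ≤ 1 / q := by
    rw [le_div_iff₀ hq]
    linarith
  have h2 : Real.exp 2 ≤ 16 := by
    have h3 := Real.exp_one_lt_d9
    have h4 : Real.exp 2 = Real.exp 1 * Real.exp 1 := by
      rw [← Real.exp_add]
      norm_num
    have h5 := Real.exp_pos 1
    rw [h4]
    nlinarith
  rw [Real.le_log_iff_exp_le (by positivity)]
  exact h2.trans h1

/-- The deterministic part: no luck, no exit. -/
private theorem LaB_det (j0 : Fin d) {ρ : Measure ℝ} [IsProbabilityMeasure ρ] {β : ℝ} (η : Env d)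
    {N r S : ℕ} {a p θ v a0 K : ℝ} (hθ : 3 / 4 * p ≤ θ) (hp : 0 < p) (hpa : p ≤ a0)
    (hN : 4 * r + 1 ≤ N) (hv : v = K * a / 4) (hK : 2 ≤ K) (ha : 0 ≤ a)
    (hS : K * (a / p) ≤ 2 * ((S : ℝ) + 1))
    (hlog : Real.log 2 + (2 * (d : ℝ) + 1) * Real.log N + 3 / 2 * a0 ≤ 7 / 16 * a)
    (h1 : Real.exp (-(a / 16)) < Vp ρ β η (2 * r) 0)
    (h2 : ¬ Real.exp (-(a / 16 + 1)) ≤ V ρ β η (stP (2 * r) S 0))
    (h3 : ∀ (s t : ℕ) (x y : Site d), s ≤ t → t ≤ r → (sn x : ℝ) ≤ (S : ℝ) + 2 → Even (ln x) →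
      Even (ln y) → ¬ Tle ρ β (sh (2 * s) x η) (t - s) (y - x) (θ * sn (y - x) - v)) : False := by
  have h4 : V ρ β η (stP (2 * r) S 0) ≤ 1 / 2 * Vp ρ β η (2 * r) 0 := by
    have h5 := (not_le.1 h2).le
    have h6 : Real.exp (-(a / 16 + 1)) = Real.exp (-(a / 16)) * Real.exp (-1) := by
      rw [← Real.exp_add]
      congr 1
      ring
    have h7 : Real.exp (-1) ≤ 1 / 2 := by
      have h8 := Real.exp_neg_one_lt_d9
      linarith
    calc V ρ β η (stP (2 * r) S 0) ≤ Real.exp (-(a / 16)) * Real.exp (-1) := by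
          rw [← h6]; exact h5
      _ ≤ Real.exp (-(a / 16)) * (1 / 2) := mul_le_mul_of_nonneg_left h7 (Real.exp_pos _).le
      _ ≤ 1 / 2 * Vp ρ β η (2 * r) 0 := by linarith
  obtain ⟨s, hs, y, hey, hSy, hyS, hV⟩ := La_exit j0 η (adm_zero r) h4
  have hsn0 : sn (0 : Site d) = 0 := by
    have h5 : sn (0 : Site d) ≤ 0 := sn_le_iff.2 fun j => by simp
    omega
  have hln0 : Even (ln (0 : Site d)) := by simp [ln]
  have hyR : (sn y : ℝ) ≤ (S : ℝ) + 2 := by exact_mod_cast hyS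
  have h5 := h3 0 s 0 y (Nat.zero_le _) hs (by rw [hsn0]; push_cast; positivity) hln0 hey
  have h6 := h3 s r y 0 hs le_rfl hyR hey hln0
  unfold Tle at h5 h6
  rw [not_le] at h5 h6
  rw [mul_zero, sh_zero, Nat.sub_zero, sub_zero] at h5
  rw [show sn (0 - y) = sn y by rw [zero_sub, sn_neg]] at h6
  have hcp : (0 : ℝ) < 2 * (4 * (r : ℝ) + 1) ^ (2 * d + 1) := by positivity
  have h7 : Vp ρ β η (2 * s) y * Vp ρ β (sh (2 * s) y η) (2 * (r - s)) (0 - y) ≤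
      Real.exp (-(θ * sn y - v)) * Real.exp (-(θ * sn y - v)) :=
    mul_le_mul h5.le h6.le (V_nonneg _ _) (Real.exp_pos _).le
  have h8 : Real.exp (-(a / 16)) <
      2 * (4 * (r : ℝ) + 1) ^ (2 * d + 1) * Real.exp (2 * v - 2 * (θ * sn y)) := by
    refine h1.trans_le (hV.trans (mul_le_mul_of_nonneg_left (h7.trans (le_of_eq ?_)) hcp.le))
    rw [← Real.exp_add]
    congr 1
    ring
  have h9 := Real.log_lt_log (Real.exp_pos _) h8
  rw [Real.log_exp, Real.log_mul hcp.ne' (Real.exp_pos _).ne', Real.log_exp,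
    Real.log_mul (by norm_num) (by positivity), Real.log_pow] at h9
  have h10 : Real.log (4 * (r : ℝ) + 1) ≤ Real.log N := by
    refine Real.log_le_log (by positivity) ?_
    exact_mod_cast hN
  have h11 : ((2 * d + 1 : ℕ) : ℝ) * Real.log (4 * (r : ℝ) + 1) ≤
      (2 * (d : ℝ) + 1) * Real.log N := by
    push_cast
    exact mul_le_mul_of_nonneg_left h10 (by positivity)
  have hSy' : (S : ℝ) ≤ sn y := by exact_mod_cast hSy
  have h12 : 3 / 4 * p * S ≤ θ * sn y :=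
    mul_le_mul hθ hSy' (by positivity) (le_trans (by positivity) hθ)
  have h13 : K * a ≤ 2 * (p * S) + 2 * p := by
    have h14 := mul_le_mul_of_nonneg_left hS hp.le
    have h15 : p * (K * (a / p)) = K * a := by
      field_simp
    rw [h15] at h14
    linarith
  have h16 : 2 * a ≤ K * a := mul_le_mul_of_nonneg_right hK ha
  rw [hv] at h9
  linarith

/-- One lane (the tube of half width `S`, `2 (S + 1) = Y ≈ K1 a / π`, `K1 = C8 log (1/q1)`).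
`C8 = max (2 Λ) (8 Λ / g)`, so that `K1 ≥ 2 Λ ≥ 2` (as `log (1/q1) ≥ 1`) and `exp (-(g / (4 Λ)) K1) ≤ q1 ^ 2`.
`TailProp` at `a`: `Tail` with `θ = 3/4 pr (Λ a) ≥ 3/4 π`, `γ = g / (Λ a)`, `r = ε1 * WW (Λ a) = ε1 Λ a / pr (Λ a)`,
horizon `nn a`; `r ≥ 4` for `N` large (`a ≥ as d N → ∞`, `pr (Λ a) ≤ a0`); `r ≤ R := S + 2` (as `K1 ≥ 2 Λ`) and
`R / r ≤ 2 K1 / ε1`. `tail_ball` with `v = K1 a / 4`: `P (some luck ≥ v from sn x ≤ R) ≤ (16 K1 / ε1) ^ d * C3 * q1 ^ 2 ≤ q1`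
for `q1 ≤ q0` (this is the choice of `q0`).
On the rest, if `V (stP (2 r) S 0) < exp (-(a/16 + 1))` and `exp (-(a/16)) < Vp (2 r) 0` (probability `≥ 1 - q1`) then
`V (stP) ≤ 1/2 Vp` and `La_exit` (`n = r`, `z = 0`) gives `s, p`; if both
`Vp η (2 s) p < exp (v - θ sn p)` and `Vp (sh (2 s) p η) (2 (r - s)) (0 - p) < exp (v - θ sn p)` (no luck: `x = 0` resp.
`x = p` in `tail_ball`) then
`-a/16 < log (2 (4 r + 1) ^ (2 d + 1)) + 2 v - 2 θ S ≤ log (2 N ^ (2 d + 1)) + K1 a / 2 - 3/4 K1 a + 3/2 π`,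
impossible for `N` large (`4 r < N` by `nn_lt`, `log N` is small against `as d N ≤ a`, `π ≤ a0`, `K1 ≥ 2`). -/
theorem La_main (j0 : Fin d) {Λ g C3 ε1 : ℝ} (hT : TailProp d Λ g C3 ε1) :
    ∃ C8 q0 : ℝ, 1 ≤ C8 ∧ 0 < q0 ∧ q0 ≤ 1 / 16 ∧ ∀ q1 : ℝ, 0 < q1 → q1 ≤ q0 →
    ∀ (ρ : Measure ℝ) [IsProbabilityMeasure ρ] (β c a0 : ℝ), EM ρ → ∀ᶠ N : ℕ in atTop,
      Sc d ρ β c a0 N → ∀ a p : ℝ, as d N ≤ a → Λ * a ≤ am d N → Rg d ρ β a0 (1 / 4) (Λ * a) →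
      0 < p → p ≤ pr d ρ β (Λ * a) → pr d ρ β (Λ * a) ≤ 17 / 16 * p → p ≤ a0 →
      ∀ r S : ℕ, r ≤ nn d ρ β a →
      C8 * Real.log (1 / q1) * (a / p) ≤ 2 * ((S : ℝ) + 1) →
      2 * ((S : ℝ) + 1) ≤ C8 * Real.log (1 / q1) * (a / p) + 4 →
      (law d ρ).real {η : Env d | Vp ρ β η (2 * r) 0 ≤ Real.exp (-(a / 16))} ≤ q1 →
      (law d ρ).real {η : Env d | ¬ Real.exp (-(a / 16 + 1)) ≤ V ρ β η (stP (2 * r) S 0)} ≤
        2 * q1 := by
  have hd : 0 < d := Fin.pos j0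
  obtain ⟨hΛ, hg, hC3, hε, hε1, hT⟩ := hT
  have hΛ0 : 0 < Λ := by linarith
  obtain ⟨C8, hC8⟩ : ∃ C8 : ℝ, C8 = max (2 * Λ) (8 * Λ / g) := ⟨_, rfl⟩
  have hC8a : 2 * Λ ≤ C8 := by rw [hC8]; exact le_max_left _ _
  have hC8b : 8 * Λ ≤ C8 * g := by
    have h1 : 8 * Λ / g ≤ C8 := by rw [hC8]; exact le_max_right _ _
    rwa [div_le_iff₀ hg] at h1
  have hC80 : 0 < C8 := by linarith
  obtain ⟨q0, hq0, hq16, hq⟩ := LaB_q0 hd (A := 16 * C8 / ε1) (B := C3) (by positivity)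
    (by linarith)
  refine ⟨C8, q0, by linarith, hq0, hq16, ?_⟩
  intro q1 hq1 hq1q ρ _ β c a0 hρ
  have has : Tendsto (fun N : ℕ => as d N) atTop atTop := by
    unfold as
    exact (tendsto_rpow_atTop (by positivity)).comp tendsto_natCast_atTop_atTop
  filter_upwards [hT ρ β c a0 hρ, LaB_ev d (3 / 2 * a0), has.eventually_ge_atTop a0,
    has.eventually_ge_atTop (4 * a0 / ε1)] with N h1 h2 h3 h4
  intro Sc' a p ha hΛa hRg hp hpP hP17 hpa0 r S hr hS1 hS2 hE1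
  have hT' := h1 Sc' a ha hΛa hRg
  obtain ⟨P, hP⟩ : ∃ P : ℝ, P = pr d ρ β (Λ * a) := ⟨_, rfl⟩
  rw [← hP] at hpP hP17 hT'
  obtain ⟨L1, hL1⟩ : ∃ L1 : ℝ, L1 = Real.log (1 / q1) := ⟨_, rfl⟩
  rw [← hL1] at hS1 hS2
  have hL2 : 2 ≤ L1 := by rw [hL1]; exact LaB_log hq1 (hq1q.trans hq16)
  have ha0 : 1 ≤ a0 := Sc'.one
  have haa0 : a0 ≤ a := h3.trans ha
  have hapos : 0 < a := by linarith
  have haΛ : a ≤ Λ * a := le_mul_of_one_le_left hapos.le hΛ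
  have ham : a ≤ am d N := haΛ.trans hΛa
  have hPpos : 0 < P := hp.trans_le hpP
  have hPa0 : P ≤ a0 := by
    rw [hP]
    exact Sc'.hi (Λ * a) (haa0.trans haΛ) hΛa
  obtain ⟨K, hK⟩ : ∃ K : ℝ, K = C8 * L1 := ⟨_, rfl⟩
  rw [← hK] at hS1 hS2
  have hK4 : 4 * Λ ≤ K := by
    rw [hK]
    nlinarith
  have hK2 : 2 ≤ K := by linarith
  obtain ⟨X, hX⟩ : ∃ X : ℝ, X = a / p := ⟨_, rfl⟩
  have hX1 : 1 ≤ X := by
    rw [hX, one_le_div hp]
    exact hpa0.trans haa0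
  have hXp : X * p = a := by rw [hX]; exact div_mul_cancel₀ _ hp.ne'
  -- the radius
  obtain ⟨rT, hrT⟩ : ∃ rT : ℝ, rT = ε1 * WW d ρ β (Λ * a) := ⟨_, rfl⟩
  have hrT' : rT * P = ε1 * (Λ * a) := by
    rw [hrT]
    unfold WW
    rw [← hP, mul_assoc, div_mul_cancel₀ _ hPpos.ne']
  rw [← hrT] at hT'
  have hrT4 : 4 ≤ rT := by
    have e1 : 4 * a0 ≤ a * ε1 := by
      have e2 := h4.trans ha
      rwa [div_le_iff₀ hε] at e2
    by_contra hcon
    have e3 : rT * P < 4 * P := mul_lt_mul_of_pos_right (not_le.1 hcon) hPpos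
    have e4 : ε1 * a ≤ ε1 * (Λ * a) := mul_le_mul_of_nonneg_left haΛ hε.le
    linarith
  have hrTR : rT ≤ (S : ℝ) + 2 := by
    have e1 : rT * p ≤ Λ * a := by
      calc rT * p ≤ rT * P := mul_le_mul_of_nonneg_left hpP (by linarith)
        _ = ε1 * (Λ * a) := hrT'
        _ ≤ 1 * (Λ * a) := mul_le_mul_of_nonneg_right hε1 (by positivity)
        _ = Λ * a := one_mul _
    have e2 : rT ≤ Λ * X := by
      rw [← hXp, ← mul_assoc] at e1
      exact le_of_mul_le_mul_right e1 hp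
    rw [← hX] at hS1
    have e3 : 2 * Λ * X ≤ K * X := mul_le_mul_of_nonneg_right (by linarith) (by linarith)
    linarith
  have hratio : 8 * ((S : ℝ) + 2) / rT ≤ 16 * C8 / ε1 * L1 := by
    have hrTp : 0 < rT := by linarith
    have e1 : 16 * C8 / ε1 * L1 = 16 * K / ε1 := by rw [hK]; ring
    rw [e1, div_le_div_iff₀ hrTp hε]
    rw [← hX] at hS2
    have e2 : ε1 * (Λ * X) * p ≤ rT * (17 / 16) * p := by
      have e3 : rT * P ≤ rT * (17 / 16 * p) := mul_le_mul_of_nonneg_left hP17 (by linarith)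
      have e4 : ε1 * (Λ * X) * p = ε1 * (Λ * a) := by rw [← hXp]; ring
      rw [e4, ← hrT']
      linarith
    have e5 : ε1 * (Λ * X) ≤ rT * (17 / 16) := le_of_mul_le_mul_right e2 hp
    have e6 : ε1 * X ≤ ε1 * (Λ * X) :=
      mul_le_mul_of_nonneg_left (le_mul_of_one_le_left (by linarith) hΛ) hε.le
    have e7 : K * (ε1 * X) ≤ K * (rT * (17 / 16)) :=
      mul_le_mul_of_nonneg_left (e6.trans e5) (by linarith)
    have e8 : ((S : ℝ) + 2) ≤ K * X / 2 + 3 := by linarith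
    have e9 : 4 ≤ K * X := by nlinarith
    have e10 : ((S : ℝ) + 2) ≤ 5 / 4 * (K * X) := by linarith
    have e11 : 8 * ((S : ℝ) + 2) * ε1 ≤ 10 * (K * X) * ε1 :=
      mul_le_mul_of_nonneg_right (by linarith) hε.le
    have e12 : 0 ≤ K * rT := by positivity
    calc 8 * ((S : ℝ) + 2) * ε1 ≤ 10 * (K * X) * ε1 := e11
      _ = 10 * (K * (ε1 * X)) := by ring
      _ ≤ 10 * (K * (rT * (17 / 16))) := mul_le_mul_of_nonneg_left e7 (by norm_num)
      _ ≤ 16 * K * rT := by linarith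
  -- luck
  obtain ⟨v, hv⟩ : ∃ v : ℝ, v = K * a / 4 := ⟨_, rfl⟩
  have hγ : 0 < g / (Λ * a) := by positivity
  have hE2 := tail_ball hT' hγ hrT4 hrTR v
  have hexp : Real.exp (-(g / (Λ * a) * v)) ≤ q1 * q1 := by
    have e1 : g / (Λ * a) * v = g * K / (4 * Λ) := by
      rw [hv]
      field_simp
    have e2 : 2 * L1 ≤ g * K / (4 * Λ) := by
      rw [le_div_iff₀ (by positivity), hK]
      nlinarith
    have e3 : q1 * q1 = Real.exp (-(2 * L1)) := by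
      rw [hL1, one_div, Real.log_inv]
      have e4 : -(2 * -Real.log q1) = Real.log q1 + Real.log q1 := by ring
      rw [e4, Real.exp_add, Real.exp_log hq1]
    rw [e1, e3]
    exact Real.exp_le_exp.2 (by linarith)
  have hE2' : (law d ρ).real {η : Env d | ∃ (s t : ℕ) (x y : Site d), s ≤ t ∧ t ≤ nn d ρ β a ∧
      (sn x : ℝ) ≤ (S : ℝ) + 2 ∧ Even (ln x) ∧ Even (ln y) ∧
      Tle ρ β (sh (2 * s) x η) (t - s) (y - x) (3 / 4 * P * sn (y - x) - v)} ≤ q1 := by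
    refine hE2.trans ?_
    have e0 : 0 ≤ 8 * ((S : ℝ) + 2) / rT := by
      have : 0 < rT := by linarith
      positivity
    have e1 : (8 * ((S : ℝ) + 2) / rT) ^ d ≤ (16 * C8 / ε1 * L1) ^ d :=
      pow_le_pow_left₀ e0 hratio d
    have e2 : C3 * Real.exp (-(g / (Λ * a) * v)) ≤ C3 * (q1 * q1) :=
      mul_le_mul_of_nonneg_left hexp (by linarith)
    have e3 := hq q1 hq1 hq1q
    rw [← hL1] at e3
    calc (8 * ((S : ℝ) + 2) / rT) ^ d * (C3 * Real.exp (-(g / (Λ * a) * v)))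
        ≤ (16 * C8 / ε1 * L1) ^ d * (C3 * (q1 * q1)) :=
          mul_le_mul e1 e2 (by positivity) (by positivity)
      _ = ((16 * C8 / ε1 * L1) ^ d * C3 * q1) * q1 := by ring
      _ ≤ 1 * q1 := mul_le_mul_of_nonneg_right e3 hq1.le
      _ = q1 := one_mul _
  have hsub : {η : Env d | ¬ Real.exp (-(a / 16 + 1)) ≤ V ρ β η (stP (2 * r) S 0)} ⊆
      {η : Env d | Vp ρ β η (2 * r) 0 ≤ Real.exp (-(a / 16))} ∪
      {η : Env d | ∃ (s t : ℕ) (x y : Site d), s ≤ t ∧ t ≤ nn d ρ β a ∧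
        (sn x : ℝ) ≤ (S : ℝ) + 2 ∧ Even (ln x) ∧ Even (ln y) ∧
        Tle ρ β (sh (2 * s) x η) (t - s) (y - x) (3 / 4 * P * sn (y - x) - v)} := by
    intro η hη
    by_contra hcon
    rw [Set.mem_union, not_or] at hcon
    obtain ⟨hc1, hc2⟩ := hcon
    have hc1' : Real.exp (-(a / 16)) < Vp ρ β η (2 * r) 0 := not_le.1 hc1
    have hrN : 4 * r + 1 ≤ N := by
      have e1 := nn_lt Sc' hapos.le ham
      omega
    refine LaB_det j0 η (N := N) (r := r) (S := S) (a := a) (p := p) (θ := 3 / 4 * P) (v := v)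
      (a0 := a0) (K := K) (by linarith) hp hpa0 hrN hv hK2 hapos.le hS1 (by linarith) hc1' hη ?_
    intro s t x y hst htr hx hex hey hTle
    exact hc2 ⟨s, t, x, y, hst, htr.trans hr, hx, hex, hey, hTle⟩
  calc (law d ρ).real {η : Env d | ¬ Real.exp (-(a / 16 + 1)) ≤ V ρ β η (stP (2 * r) S 0)}
      ≤ (law d ρ).real ({η : Env d | Vp ρ β η (2 * r) 0 ≤ Real.exp (-(a / 16))} ∪
        {η : Env d | ∃ (s t : ℕ) (x y : Site d), s ≤ t ∧ t ≤ nn d ρ β a ∧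
          (sn x : ℝ) ≤ (S : ℝ) + 2 ∧ Even (ln x) ∧ Even (ln y) ∧
          Tle ρ β (sh (2 * s) x η) (t - s) (y - x) (3 / 4 * P * sn (y - x) - v)}) :=
        measureReal_mono hsub
    _ ≤ _ := measureReal_union_le _ _
    _ ≤ q1 + q1 := add_le_add hE1 hE2'
    _ = 2 * q1 := by ring

end Pool.Agent.W_7d29a1_q
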