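import Pool.Agent.W_7d29a1_q.Bas

/-!
Row 601: the scale `a = A ^ k` of Lemma 8, elementary facts.
-/

namespace Pool.Agent.W_7d29a1_q

open MeasureTheory ProbabilityTheory Filter Topology Pool.Agent.W_MP_7d29a1_pr
  Pool.Agent.W_7d29a1_h46 Pool.Agent.W_7d29a1_h46u Pool.Agent.W_7d29a1_h3

variable {d : ℕ}

theorem ThF_as_tendsto (d : ℕ) : Tendsto (fun N : ℕ => as d N) atTop atTop := by
  unfold as
  exact (tendsto_rpow_atTop (by positivity)).comp tendsto_natCast_atTop_atTop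

theorem ThF_pow {d N : ℕ} {c : ℝ} (hc : c ≤ 1 / (400 * ((d : ℝ) + 2))) (hN : 1 ≤ N) :
    (N : ℝ) ^ (6 * c) ≤ as d N := by
  unfold as
  refine Real.rpow_le_rpow_of_exponent_le (by exact_mod_cast hN) ?_
  have h1 : (0 : ℝ) < (d : ℝ) + 2 := by positivity
  have h2 : (1 : ℝ) / (40 * ((d : ℝ) + 2)) = 10 * (1 / (400 * ((d : ℝ) + 2))) := by
    field_simp
    norm_num
  have h3 : (0 : ℝ) < 1 / (400 * ((d : ℝ) + 2)) := by positivity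
  rw [h2]
  linarith

/-- The facts about the scale: `a = A ^ k`, `b0 = A ^ (k - i0)` the smallest budget, `b1 = Λ A ^ (k + i1)` the largest
one, `P = pr b1` the smallest price. -/
structure GF (d : ℕ) (ρ : Measure ℝ) (β a0 Λ : ℝ) (A N i0 i1 k : ℕ) (η a b0 b1 P : ℝ) : Prop where
  as1 : 1 ≤ as d N
  a0as : a0 ≤ as d N
  as4 : as d N ^ 4 ≤ b0
  a0b0 : a0 ≤ b0
  b0a : b0 ≤ a
  aA : ∀ i ≤ i1, Λ * ((A : ℝ) ^ i * a) ≤ b1
  ab1 : a ≤ b1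
  b1m : b1 ≤ am d N
  one : 1 ≤ a
  Ppos : 0 < P
  lo : ∀ b, b0 ≤ b → b ≤ b1 → P ≤ pr d ρ β b
  up : ∀ b, b0 ≤ b → b ≤ b1 → pr d ρ β b ≤ (1 + η) * P
  reg : ∀ b, b0 ≤ b → b ≤ b1 → Rg d ρ β a0 (1 / 4) b

theorem Gd_facts {ρ : Measure ℝ} [IsProbabilityMeasure ρ] {β c a0 Λ η : ℝ} {A N i0 i1 k : ℕ}
    (S : Sc d ρ β c a0 N) (G : Gd d ρ β a0 Λ A N i0 i1 η k) (hΛ : 1 ≤ Λ) (hA : 2 ≤ A) (hN : 1 ≤ N)
    (h1 : 1 ≤ as d N) (h0 : a0 ≤ as d N) :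
    GF d ρ β a0 Λ A N i0 i1 k η ((A : ℝ) ^ k) ((A : ℝ) ^ (k - i0)) (Λ * (A : ℝ) ^ (k + i1))
      (pr d ρ β (Λ * (A : ℝ) ^ (k + i1))) := by
  have hA1 : (1 : ℝ) ≤ A := by
    have : (2 : ℝ) ≤ A := by exact_mod_cast hA
    linarith
  have hs4 : as d N ≤ as d N ^ 4 := by
    calc as d N = as d N * 1 := (mul_one _).symm
      _ ≤ as d N * as d N ^ 3 := mul_le_mul_of_nonneg_left (one_le_pow₀ h1) (by linarith)
      _ = as d N ^ 4 := by ring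
  have hk1 : (A : ℝ) ^ (k - i0) ≤ (A : ℝ) ^ k := pow_le_pow_right₀ hA1 (Nat.sub_le _ _)
  have hb0 : a0 ≤ (A : ℝ) ^ (k - i0) := by linarith [G.lo]
  have haA : (A : ℝ) ^ k ≤ (A : ℝ) ^ (k + i1) := pow_le_pow_right₀ hA1 (Nat.le_add_right _ _)
  have hap : 0 < (A : ℝ) ^ (k + i1) := by positivity
  have haΛ : (A : ℝ) ^ k ≤ Λ * (A : ℝ) ^ (k + i1) := by nlinarith
  have hΛm : Λ * (A : ℝ) ^ (k + i1) ≤ am d N := by
    refine le_trans ?_ G.hi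
    refine mul_le_mul_of_nonneg_left ?_ (by linarith)
    exact pow_le_pow_right₀ hA1 (Nat.le_succ _)
  have hPpos : 0 < pr d ρ β (Λ * (A : ℝ) ^ (k + i1)) := pr_pos S hN ((hb0.trans hk1).trans haΛ) hΛm
  refine ⟨h1, h0, G.lo, hb0, hk1, ?_, haΛ, hΛm, by linarith [G.lo], hPpos, ?_, ?_, ?_⟩
  · intro i hi
    refine mul_le_mul_of_nonneg_left ?_ (by linarith)
    rw [← pow_add, add_comm i k]
    exact pow_le_pow_right₀ hA1 (by omega)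
  · intro b hb hb'
    exact pr_anti S (hb0.trans hb) hb' hΛm
  · intro b hb hb'
    refine le_trans ?_ G.slow
    exact pr_anti S hb0 hb (hb'.trans hΛm)
  · intro b hb hb'
    exact Rg_mono S hN (hb'.trans hΛm) (min_le_left _ _) (G.reg b hb hb')

end Pool.Agent.W_7d29a1_q
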