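import Pool.Agent.W_7d29a1_q.Mv
import Pool.Agent.W_7d29a1_q.ThF

/-!
Row 601, section 9: the climbs and facts about the window. TASK LaC.
-/

namespace Pool.Agent.W_7d29a1_q

open MeasureTheory ProbabilityTheory Filter Topology Pool.Agent.W_MP_7d29a1_pr
  Pool.Agent.W_7d29a1_h46 Pool.Agent.W_7d29a1_h46u Pool.Agent.W_7d29a1_h3

variable {d : ℕ}

/-- Facts about the window (from `Gd_facts` of `ThF.lean`). -/
theorem La_gd {Λ : ℝ} {A : ℕ} (hΛ : 1 ≤ Λ) (hA : 2 ≤ A) (ρ : Measure ℝ)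
    [IsProbabilityMeasure ρ] (β c a0 : ℝ) : ∀ᶠ N : ℕ in atTop,
      Sc d ρ β c a0 N → ∀ (i0 i1 : ℕ) (η : ℝ) (k : ℕ), 0 < η → Gd d ρ β a0 Λ A N i0 i1 η k →
      0 < pr d ρ β (Λ * (A : ℝ) ^ (k + i1)) ∧
      (N : ℝ) ^ (-(2 * c)) ≤ pr d ρ β (Λ * (A : ℝ) ^ (k + i1)) ∧
      pr d ρ β (Λ * (A : ℝ) ^ (k + i1)) ≤ a0 ∧
      ∀ b : ℝ, (A : ℝ) ^ (k - i0) ≤ b → b ≤ Λ * (A : ℝ) ^ (k + i1) →
        a0 ≤ b ∧ as d N ^ 4 ≤ b ∧ b ≤ am d N ∧ pr d ρ β (Λ * (A : ℝ) ^ (k + i1)) ≤ pr d ρ β b ∧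
        pr d ρ β b ≤ (1 + η) * pr d ρ β (Λ * (A : ℝ) ^ (k + i1)) ∧
        Rg d ρ β a0 (dl A) b ∧ Rg d ρ β a0 (1 / 4) b := by
  filter_upwards [(ThF_as_tendsto d).eventually_ge_atTop (max 1 a0), eventually_ge_atTop 1] with
    N h1 hN S i0 i1 η k _ G
  have F := Gd_facts S G hΛ hA hN ((le_max_left _ _).trans h1) ((le_max_right _ _).trans h1)
  have hb1 : a0 ≤ Λ * (A : ℝ) ^ (k + i1) := F.a0b0.trans (F.b0a.trans F.ab1)
  refine ⟨F.Ppos, S.lo _ hb1 F.b1m, S.hi _ hb1 F.b1m, fun b h2 h3 => ?_⟩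
  exact ⟨F.a0b0.trans h2, F.as4.trans h2, h3.trans F.b1m, F.lo b h2 h3, F.up b h2 h3,
    G.reg b h2 h3, F.reg b h2 h3⟩

private theorem LaC_e2 {A : ℕ} (hA : 2 ≤ A) : 0 < e2 A ∧ e2 A ≤ 1 ∧ ((A : ℝ) ^ 6) ^ e2 A ≤ 4 := by
  have h1 : (2 : ℝ) ≤ A := by exact_mod_cast hA
  have h2 : Real.log 2 ≤ Real.log A := Real.log_le_log (by norm_num) h1
  have h20 := Real.log_two_gt_d9
  have h21 : 0 < Real.log A := by linarith
  have h3 : 0 < 1 / (A : ℝ) := by positivity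
  have h4 : 1 / (A : ℝ) ≤ 1 / 2 := one_div_le_one_div_of_le (by norm_num) h1
  have h5 : 0 < Real.log (1 + 1 / (A : ℝ)) := Real.log_pos (by linarith)
  have h6 : Real.log (1 + 1 / (A : ℝ)) ≤ 1 / 2 := by
    have := Real.log_le_sub_one_of_pos (show 0 < 1 + 1 / (A : ℝ) by linarith)
    linarith
  refine ⟨?_, ?_, ?_⟩
  · unfold e2
    positivity
  · unfold e2
    rw [div_le_one (by linarith)]
    linarith
  · have h7 : ((A : ℝ) ^ 6) ^ e2 A = (1 + 1 / (A : ℝ)) ^ 3 := by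
      rw [← Real.exp_log (show 0 < ((A : ℝ) ^ 6) ^ e2 A by positivity),
        ← Real.exp_log (show 0 < (1 + 1 / (A : ℝ)) ^ 3 by positivity),
        Real.log_rpow (by positivity), Real.log_pow, Real.log_pow]
      congr 1
      unfold e2
      field_simp
      ring
    rw [h7]
    calc (1 + 1 / (A : ℝ)) ^ 3 ≤ (3 / 2) ^ 3 := pow_le_pow_left₀ (by linarith) (by linarith) 3
      _ ≤ 4 := by norm_num

private theorem LaC_dl {A : ℕ} (hA : 2 ≤ A) : 0 ≤ dl A ∧ dl A ≤ 1 / 4 ∧ dl A ≤ e2 A / 2 := by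
  have h1 : (2 : ℝ) ≤ A := by exact_mod_cast hA
  obtain ⟨he, -, -⟩ := LaC_e2 hA
  refine ⟨?_, min_le_left _ _, (min_le_right _ _).trans (min_le_left _ _)⟩
  have h2 : 0 ≤ Real.logb 2 A := Real.logb_nonneg (by norm_num) (by linarith)
  unfold dl
  refine le_min (by norm_num) (le_min (by linarith) (by positivity))

private theorem LaC_log (d : ℕ) {C K x : ℝ} (hC : 0 < C) (hK : 0 < K) (hx : 0 < x) :
    ∀ᶠ N : ℕ in atTop, (C * (20 * Real.log N) ^ 3 * K) ^ x ≤ as d N := by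
  have hy : 0 < 1 / (40 * ((d : ℝ) + 2)) := by positivity
  obtain ⟨y, hyd⟩ : ∃ y : ℝ, y = 1 / (40 * ((d : ℝ) + 2)) := ⟨_, rfl⟩
  rw [← hyd] at hy
  have h1 := (isLittleO_log_rpow_atTop (show 0 < y / (6 * x) by positivity)).bound
    (show (0 : ℝ) < 1 by norm_num)
  have h2 := tendsto_natCast_atTop_atTop (R := ℝ) |>.eventually h1
  have h3 : ∀ᶠ N : ℕ in atTop, C * 8000 * K ≤ (N : ℝ) ^ (y / (2 * x)) :=
    ((tendsto_rpow_atTop (show 0 < y / (2 * x) by positivity)).comp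
      tendsto_natCast_atTop_atTop).eventually_ge_atTop _
  filter_upwards [h2, h3, eventually_ge_atTop 1] with N hN1 hN2 hN
  have hNR : (1 : ℝ) ≤ N := by exact_mod_cast hN
  have hN0 : (0 : ℝ) < N := by linarith
  have hl : 0 ≤ Real.log N := Real.log_nonneg hNR
  have hp : 0 < (N : ℝ) ^ (y / (6 * x)) := Real.rpow_pos_of_pos hN0 _
  rw [Real.norm_of_nonneg hl, Real.norm_of_nonneg hp.le, one_mul] at hN1
  have h4 : Real.log N ^ 3 ≤ (N : ℝ) ^ (y / (2 * x)) := by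
    calc Real.log N ^ 3 ≤ ((N : ℝ) ^ (y / (6 * x))) ^ 3 := pow_le_pow_left₀ hl hN1 3
      _ = (N : ℝ) ^ (y / (2 * x)) := by
        rw [← Real.rpow_natCast, ← Real.rpow_mul hN0.le]
        congr 1
        push_cast
        field_simp
        norm_num
  have h5 : C * (20 * Real.log N) ^ 3 * K ≤ (N : ℝ) ^ (y / x) := by
    calc C * (20 * Real.log N) ^ 3 * K = (C * 8000 * K) * Real.log N ^ 3 := by ring
      _ ≤ (N : ℝ) ^ (y / (2 * x)) * (N : ℝ) ^ (y / (2 * x)) :=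
        mul_le_mul hN2 h4 (by positivity) (by positivity)
      _ = (N : ℝ) ^ (y / x) := by
        rw [← Real.rpow_add hN0]
        congr 1
        field_simp
        norm_num
  calc (C * (20 * Real.log N) ^ 3 * K) ^ x ≤ ((N : ℝ) ^ (y / x)) ^ x :=
        Real.rpow_le_rpow (by positivity) h5 hx.le
    _ = as d N := by
        rw [← Real.rpow_mul hN0.le]
        unfold as
        rw [← hyd]
        congr 1
        field_simp

/-- The climbs `0 -> ± j Y e_1` in the half time `t_c = n(A^(k-6))`, cost `C10 j^4 K1^2 a`, bad with probability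
`≤ 3 q_j`, `q_j = 1 / (1000 j ^ 2)`. Write `a = A^k`, `p = pr (Λ A^(k+i1))`.
`C9 = 960000 A ^ 6`, `M = (C9 j^3 K1) ^ (2 / e2 A)` (real power), `b = a / M`; `climb` at the budget `a` (`Rg` by `La_gd`).
`1 ≤ M / A^6` (as `C9 ≥ 2 ≥ (1 + 1/A) ^ (3/2) = A ^ (3 e2 A)`), `M ≤ as d N` for `N` large as `j ≤ 20 log N`,
`b ≥ as d N ^ 3 ≥ a0`. `pr b ≤ 2 M ^ (dl A) pr a ≤ 2 M ^ (dl A) (17/16) p` (`Gd.reg` at `a`), `ζ = j Y ≤ 2 j K1 a / p`,
`N ^ (4 c) ≤ a`: `Eb ≤ 20 M ^ (dl A) j K1 a ≤ 20 C9 j^4 K1^2 a` (`dl A ≤ e2 A / 2`).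
`Gd.psi` with `k' = k - 6` and `M / A^6`: `ps b ≤ 3 (A^6 / M) ^ (e2 A) ps (A^(k-6))`, `ps (A^(k-6)) = t_c A^6 / a`, so
`4 ps b * Eb ≤ 240 A^(6 e2 + 6) M ^ (dl A - e2 A) j K1 t_c ≤ 240 * 4 * A^6 / (C9 j^2) t_c ≤ q_j t_c`
(`A ^ (6 e2 A) = (1 + 1/A)^3 ≤ 4`, `M ^ (- e2 A / 2) = 1 / (C9 j^3 K1)`).
Then `2 √((b Eb + N^(4c)) / q_j) ≤ 2 √(21000 j^3 K1) a ≤ 290 j^2 K1 a` (`b M^(dl A) ≤ a`) and
`SS t_c / q_j ≤ 1000 j^2 a / 64` (`SS_nn`). `C10 = 20 C9 + 310`. `4 t_c ≤ N` by `nn_lt`; `ζ ≤ N` as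
`40 log N * K1 * am d N * N^(2c) ≤ N`. -/
theorem La_climb (j0 : Fin d) {Λ : ℝ} {A : ℕ} (hΛ : 1 ≤ Λ) (hA : 2 ≤ A) :
    ∃ C10 : ℝ, 1 ≤ C10 ∧ ∀ K1 : ℝ, 1 ≤ K1 →
    ∀ (ρ : Measure ℝ) [IsProbabilityMeasure ρ] (β c a0 : ℝ), EM ρ → ∀ᶠ N : ℕ in atTop,
      Sc d ρ β c a0 N → ∀ (i0 i1 : ℕ) (η : ℝ) (k : ℕ), 6 ≤ i0 → 0 < η → η ≤ 1 / 16 →
      Gd d ρ β a0 Λ A N i0 i1 η k → ∀ (j Y : ℕ) (σ : ℤ), 1 ≤ j → (j : ℝ) ≤ 20 * Real.log N →
      σ = 1 ∨ σ = -1 → Even Y → (Y : ℝ) ≤ 2 * K1 * ((A : ℝ) ^ k / pr d ρ β (Λ * (A : ℝ) ^ (k + i1))) →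
      (law d ρ).real {η' : Env d | ¬ Tle ρ β η' (nn d ρ β ((A : ℝ) ^ (k - 6)))
        ((σ * ((j * Y : ℕ) : ℤ)) • es j0) (C10 * (j : ℝ) ^ 4 * K1 ^ 2 * (A : ℝ) ^ k)} ≤
        3 / (1000 * (j : ℝ) ^ 2) := by
  have hAR : (2 : ℝ) ≤ A := by exact_mod_cast hA
  obtain ⟨he0, he1, heA⟩ := LaC_e2 hA
  obtain ⟨hd0, hd4, hde⟩ := LaC_dl hA
  obtain ⟨A6, hA6d⟩ : ∃ A6 : ℝ, A6 = (A : ℝ) ^ 6 := ⟨_, rfl⟩
  obtain ⟨C9, hC9⟩ : ∃ C9 : ℝ, C9 = 960000 * A6 := ⟨_, rfl⟩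
  have hA6 : 64 ≤ A6 := by
    rw [hA6d]
    calc (64 : ℝ) = 2 ^ 6 := by norm_num
      _ ≤ (A : ℝ) ^ 6 := pow_le_pow_left₀ (by norm_num) hAR 6
  have hC91 : 1 ≤ C9 := by rw [hC9]; linarith
  refine ⟨20 * C9 + 310, by linarith, fun K1 hK1 ρ _ β c a0 hρ => ?_⟩
  have hK0 : 0 < K1 := by linarith
  filter_upwards [climb j0 ρ β c a0 hρ, LaC_log d (show 0 < C9 by linarith) hK0
    (show 0 < 2 / e2 A by positivity), (ThF_as_tendsto d).eventually_ge_atTop (max 1 a0),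
    eventually_ge_atTop 1] with N hcl hlg hase hN
  intro S i0 i1 η k hi0 hη hη1 G j Y σ hj hjl hσ hY hYa
  have F := Gd_facts S G hΛ hA hN ((le_max_left _ _).trans hase) ((le_max_right _ _).trans hase)
  have hi0k := G.ik
  obtain ⟨a, ha⟩ : ∃ a : ℝ, a = (A : ℝ) ^ k := ⟨_, rfl⟩
  obtain ⟨P, hP⟩ : ∃ P : ℝ, P = pr d ρ β (Λ * (A : ℝ) ^ (k + i1)) := ⟨_, rfl⟩
  obtain ⟨b1, hb1⟩ : ∃ b1 : ℝ, b1 = Λ * (A : ℝ) ^ (k + i1) := ⟨_, rfl⟩
  have Greg := G.reg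
  have Gpsi := G.psi
  rw [← ha, ← hP, ← hb1] at F
  rw [← hb1] at Greg
  rw [← ha, ← hP] at hYa
  rw [← ha]
  have hPp := F.Ppos
  have ha1 := F.one
  have ha0 : 0 < a := by linarith
  have hjR : (1 : ℝ) ≤ j := by exact_mod_cast hj
  have hj0 : (0 : ℝ) < j := by linarith
  have hj3 : 1 ≤ (j : ℝ) ^ 3 := one_le_pow₀ hjR
  obtain ⟨X, hX⟩ : ∃ X : ℝ, X = C9 * (j : ℝ) ^ 3 * K1 := ⟨_, rfl⟩
  have hXC : C9 ≤ X := by
    rw [hX]
    have h1 : C9 * 1 ≤ C9 * (j : ℝ) ^ 3 := mul_le_mul_of_nonneg_left hj3 (by linarith)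
    have h2 : C9 * (j : ℝ) ^ 3 * 1 ≤ C9 * (j : ℝ) ^ 3 * K1 :=
      mul_le_mul_of_nonneg_left hK1 (by positivity)
    linarith
  have hX1 : 1 ≤ X := by linarith
  have hX0 : 0 < X := by linarith
  obtain ⟨M, hM⟩ : ∃ M : ℝ, M = X ^ (2 / e2 A) := ⟨_, rfl⟩
  have hXM : X ≤ M := by
    have h1 : (1 : ℝ) ≤ 2 / e2 A := by
      rw [le_div_iff₀ he0]
      linarith
    have h2 := Real.rpow_le_rpow_of_exponent_le hX1 h1
    rwa [Real.rpow_one, ← hM] at h2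
  have hM1 : 1 ≤ M := hX1.trans hXM
  have hM0 : 0 < M := by linarith
  have hMA : A6 ≤ M := by
    have : A6 ≤ C9 := by rw [hC9]; linarith
    linarith
  have hMas : M ≤ as d N := by
    refine le_trans ?_ hlg
    rw [hM, hX]
    refine Real.rpow_le_rpow (by positivity) ?_ (by positivity)
    refine mul_le_mul_of_nonneg_right (mul_le_mul_of_nonneg_left ?_ (by linarith)) hK0.le
    exact pow_le_pow_left₀ hj0.le hjl 3
  have hMe : M ^ (e2 A / 2) = X := by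
    rw [hM, ← Real.rpow_mul hX0.le]
    rw [show 2 / e2 A * (e2 A / 2) = 1 by field_simp, Real.rpow_one]
  have hMe2 : M ^ (e2 A) = X ^ 2 := by
    rw [← hMe, ← Real.rpow_natCast, ← Real.rpow_mul hM0.le]
    congr 1
    push_cast
    ring
  obtain ⟨D, hD⟩ : ∃ D : ℝ, D = M ^ dl A := ⟨_, rfl⟩
  have hD1 : 1 ≤ D := by rw [hD]; exact Real.one_le_rpow hM1 hd0
  have hDX : D ≤ X := by
    rw [hD, ← hMe]
    exact Real.rpow_le_rpow_of_exponent_le hM1 hde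
  have hDM : D ≤ M := by
    have h1 := Real.rpow_le_rpow_of_exponent_le hM1 (show dl A ≤ 1 by linarith)
    rwa [Real.rpow_one, ← hD] at h1
  have has1 := F.as1
  obtain ⟨b, hb⟩ : ∃ b : ℝ, b = a / M := ⟨_, rfl⟩
  have hbas : as d N ^ 3 ≤ b := by
    rw [hb, le_div_iff₀ hM0]
    calc as d N ^ 3 * M ≤ as d N ^ 3 * as d N := mul_le_mul_of_nonneg_left hMas (by positivity)
      _ = as d N ^ 4 := by ring
      _ ≤ a := F.as4.trans F.b0a
  have has3 : as d N ≤ as d N ^ 3 := by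
    have h1 : 1 ≤ as d N ^ 2 := one_le_pow₀ has1
    calc as d N = as d N * 1 := by ring
      _ ≤ as d N * as d N ^ 2 := mul_le_mul_of_nonneg_left h1 (by linarith)
      _ = as d N ^ 3 := by ring
  have ha0b : a0 ≤ b := F.a0as.trans (has3.trans hbas)
  have hb0 : 0 < b := by linarith [S.one]
  have hba : b ≤ a := by
    rw [hb]
    exact div_le_self ha0.le hM1
  have hab : a / b = M := by
    rw [hb]
    field_simp
  have hprb : pr d ρ β b ≤ 17 / 8 * D * P := by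
    have h1 := Greg a F.b0a F.ab1 b ha0b hba
    have h2 := F.up a F.b0a F.ab1
    rw [hab, ← hD] at h1
    calc pr d ρ β b ≤ 2 * D * pr d ρ β a := h1
      _ ≤ 2 * D * ((1 + 1 / 16) * P) := by
        refine mul_le_mul_of_nonneg_left (h2.trans ?_) (by linarith)
        exact mul_le_mul_of_nonneg_right (by linarith) hPp.le
      _ = 17 / 8 * D * P := by ring
  have hN0 : (0 : ℝ) < N := by exact_mod_cast hN
  have hprb0 : 0 ≤ pr d ρ β b :=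
    (Real.rpow_nonneg hN0.le _).trans (S.lo b ha0b (hba.trans (F.ab1.trans F.b1m)))
  have hζ : ((j * Y : ℕ) : ℝ) ≤ 2 * j * K1 * (a / P) := by
    push_cast
    calc (j : ℝ) * Y ≤ j * (2 * K1 * (a / P)) := mul_le_mul_of_nonneg_left hYa hj0.le
      _ = 2 * j * K1 * (a / P) := by ring
  have hN5 : (N : ℝ) ^ (5 * c) ≤ a := by
    have h1 : (N : ℝ) ^ (5 * c) ≤ (N : ℝ) ^ (6 * c) :=
      Real.rpow_le_rpow_of_exponent_le (by exact_mod_cast hN) (by linarith [S.cpos])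
    have h2 := ThF_pow S.csm hN
    linarith
  have hN50 : 0 ≤ (N : ℝ) ^ (5 * c) := Real.rpow_nonneg hN0.le _
  have hjK : 1 ≤ j * K1 := one_le_mul_of_one_le_of_one_le hjR hK1
  have hU : a ≤ D * (j * K1) * a := by
    have h1 : 1 ≤ D * (j * K1) := one_le_mul_of_one_le_of_one_le hD1 hjK
    calc a = 1 * a := by ring
      _ ≤ D * (j * K1) * a := mul_le_mul_of_nonneg_right h1 ha0.le
  have hE0 : 0 ≤ Eb d ρ β c N a b ((j * Y : ℕ) : ℝ) := by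
    unfold Eb
    have h1 : 0 ≤ (b / a) ^ (3 / 4 : ℝ) := Real.rpow_nonneg (by positivity) _
    positivity
  have hE : Eb d ρ β c N a b ((j * Y : ℕ) : ℝ) ≤ 20 * (D * (j * K1) * a) := by
    unfold Eb
    have h1 : pr d ρ β b * ((j * Y : ℕ) : ℝ) ≤ 17 / 4 * (D * (j * K1) * a) := by
      calc pr d ρ β b * ((j * Y : ℕ) : ℝ) ≤ (17 / 8 * D * P) * (2 * j * K1 * (a / P)) :=
            mul_le_mul hprb hζ (by positivity) (by positivity)
        _ = 17 / 4 * (D * (j * K1) * a) := by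
            field_simp
            ring
    have h2 : (b / a) ^ (3 / 4 : ℝ) ≤ 1 :=
      Real.rpow_le_one (by positivity) ((div_le_one ha0).2 hba) (by norm_num)
    have h3 : 12 * a * (b / a) ^ (3 / 4 : ℝ) ≤ 12 * a * 1 :=
      mul_le_mul_of_nonneg_left h2 (by positivity)
    linarith
  have hk6 : (A : ℝ) ^ k = (A : ℝ) ^ (k - 6) * (A : ℝ) ^ 6 := by
    rw [← pow_add]
    congr 1
    omega
  have hps : ps d ρ β b ≤ 12 * A6 / X ^ 2 * (nn d ρ β ((A : ℝ) ^ (k - 6)) / a) := by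
    have h1 := Gpsi (k - 6) (by omega) (Nat.sub_le _ _) (M / A6)
      (by rw [le_div_iff₀ (by linarith)]; linarith)
      ((div_le_self hM0.le (by linarith)).trans hMas)
    have h2 : (A : ℝ) ^ (k - 6) / (M / A6) = b := by
      rw [hb, ha, hk6, ← hA6d]
      field_simp
    have hA60 : 0 < A6 := by linarith
    have h3 : (M / A6) ^ (-e2 A) ≤ 4 / X ^ 2 := by
      rw [Real.rpow_neg (by positivity), Real.div_rpow hM0.le hA60.le, inv_div, hMe2]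
      refine div_le_div_of_nonneg_right ?_ (by positivity)
      rw [hA6d]
      exact heA
    have h4 : ps d ρ β ((A : ℝ) ^ (k - 6)) = A6 * (nn d ρ β ((A : ℝ) ^ (k - 6)) / a) := by
      unfold ps
      rw [ha, hk6, hA6d]
      field_simp
    rw [h2] at h1
    have h5 : 0 ≤ ps d ρ β ((A : ℝ) ^ (k - 6)) := by rw [h4]; positivity
    calc ps d ρ β b ≤ 3 * (M / A6) ^ (-e2 A) * ps d ρ β ((A : ℝ) ^ (k - 6)) := h1
      _ ≤ 3 * (4 / X ^ 2) * ps d ρ β ((A : ℝ) ^ (k - 6)) :=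
        mul_le_mul_of_nonneg_right (by linarith) h5
      _ = 12 * A6 / X ^ 2 * (nn d ρ β ((A : ℝ) ^ (k - 6)) / a) := by
        rw [h4]
        ring
  obtain ⟨T, hT⟩ : ∃ T : ℝ, T = (nn d ρ β ((A : ℝ) ^ (k - 6)) : ℝ) := ⟨_, rfl⟩
  have hT0 : 0 ≤ T := by rw [hT]; positivity
  obtain ⟨q, hq⟩ : ∃ q : ℝ, q = 1 / (1000 * (j : ℝ) ^ 2) := ⟨_, rfl⟩
  have hq0 : 0 < q := by rw [hq]; positivity
  rw [← hT] at hps
  have hkey : 4 * ps d ρ β b * Eb d ρ β c N a b ((j * Y : ℕ) : ℝ) ≤ q * T := by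
    calc 4 * ps d ρ β b * Eb d ρ β c N a b ((j * Y : ℕ) : ℝ)
        ≤ 4 * (12 * A6 / X ^ 2 * (T / a)) * (20 * (D * (j * K1) * a)) :=
          mul_le_mul (by linarith) hE hE0 (by positivity)
      _ ≤ 4 * (12 * A6 / X ^ 2 * (T / a)) * (20 * (X * (j * K1) * a)) := by
          refine mul_le_mul_of_nonneg_left ?_ (by positivity)
          refine mul_le_mul_of_nonneg_left ?_ (by norm_num)
          refine mul_le_mul_of_nonneg_right ?_ ha0.le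
          exact mul_le_mul_of_nonneg_right hDX (by positivity)
      _ = 960 * A6 * (j * K1) / X * T := by
          field_simp
          ring
      _ = q * T := by
          congr 1
          rw [hq, hX, hC9]
          field_simp
          norm_num
  have hbE : b * Eb d ρ β c N a b ((j * Y : ℕ) : ℝ) + (N : ℝ) ^ (5 * c) ≤ 21 * (j * K1) * a ^ 2 := by
    have h1 : b * Eb d ρ β c N a b ((j * Y : ℕ) : ℝ) ≤ 20 * (j * K1) * a ^ 2 := by
      calc b * Eb d ρ β c N a b ((j * Y : ℕ) : ℝ) ≤ b * (20 * (D * (j * K1) * a)) :=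
            mul_le_mul_of_nonneg_left hE hb0.le
        _ ≤ b * (20 * (M * (j * K1) * a)) := by
            refine mul_le_mul_of_nonneg_left ?_ hb0.le
            refine mul_le_mul_of_nonneg_left ?_ (by norm_num)
            refine mul_le_mul_of_nonneg_right ?_ ha0.le
            exact mul_le_mul_of_nonneg_right hDM (by positivity)
        _ = 20 * (j * K1) * a ^ 2 := by
            rw [hb]
            field_simp
    have h2 : a ≤ (j * K1) * a ^ 2 := by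
      have h3 : 1 ≤ (j * K1) * a := one_le_mul_of_one_le_of_one_le hjK ha1
      calc a = 1 * a := by ring
        _ ≤ (j * K1) * a * a := mul_le_mul_of_nonneg_right h3 ha0.le
        _ = (j * K1) * a ^ 2 := by ring
    linarith
  have hsq : 2 * Real.sqrt ((b * Eb d ρ β c N a b ((j * Y : ℕ) : ℝ) + (N : ℝ) ^ (5 * c)) / q) ≤
      290 * (j : ℝ) ^ 2 * K1 * a := by
    have h1 : Real.sqrt ((b * Eb d ρ β c N a b ((j * Y : ℕ) : ℝ) + (N : ℝ) ^ (5 * c)) / q) ≤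
        145 * (j : ℝ) ^ 2 * K1 * a := by
      refine Real.sqrt_le_iff.2 ⟨by positivity, ?_⟩
      rw [div_le_iff₀ hq0, hq]
      refine hbE.trans ?_
      have h2 : 21 * (j * K1) * a ^ 2 ≤ 21 * (j * K1) * a ^ 2 * (j * K1) :=
        le_mul_of_one_le_right (by positivity) hjK
      refine h2.trans ?_
      have h3 : (145 * (j : ℝ) ^ 2 * K1 * a) ^ 2 * (1 / (1000 * (j : ℝ) ^ 2)) =
          21025 / 1000 * ((j : ℝ) ^ 2 * K1 ^ 2 * a ^ 2) := by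
        field_simp
        norm_num
      rw [h3]
      have h4 : 0 ≤ (j : ℝ) ^ 2 * K1 ^ 2 * a ^ 2 := by positivity
      nlinarith
    linarith
  have hSS : SS d ρ β (nn d ρ β ((A : ℝ) ^ (k - 6))) / q ≤ 1000 * (j : ℝ) ^ 2 * a / 64 := by
    have h0 : (A : ℝ) ^ (k - 6) ≤ a / 64 := by
      rw [ha, hk6, le_div_iff₀ (by norm_num)]
      refine mul_le_mul_of_nonneg_left ?_ (by positivity)
      rw [← hA6d]
      exact hA6
    have h1 := SS_nn (a := (A : ℝ) ^ (k - 6)) S (by positivity) (by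
      have := F.ab1.trans F.b1m
      linarith)
    rw [div_le_iff₀ hq0, hq]
    calc SS d ρ β (nn d ρ β ((A : ℝ) ^ (k - 6))) ≤ a / 64 := h1.trans h0
      _ = 1000 * (j : ℝ) ^ 2 * a / 64 * (1 / (1000 * (j : ℝ) ^ 2)) := by field_simp
  have hfin := hcl S a b (F.ab1.trans F.b1m) (F.reg a F.b0a F.ab1) ha0b hba j0 σ (j * Y)
    (nn d ρ β ((A : ℝ) ^ (k - 6))) q hσ (hY.mul_left j) hq0 (by rw [← hT]; exact hkey)
  have hle : Eb d ρ β c N a b ((j * Y : ℕ) : ℝ) +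
      2 * Real.sqrt ((b * Eb d ρ β c N a b ((j * Y : ℕ) : ℝ) + (N : ℝ) ^ (5 * c)) / q) +
      SS d ρ β (nn d ρ β ((A : ℝ) ^ (k - 6))) / q ≤ (20 * C9 + 310) * (j : ℝ) ^ 4 * K1 ^ 2 * a := by
    have h1 : D * (j * K1) * a ≤ C9 * (j : ℝ) ^ 4 * K1 ^ 2 * a := by
      calc D * (j * K1) * a ≤ X * (j * K1) * a := by
            refine mul_le_mul_of_nonneg_right ?_ ha0.le
            exact mul_le_mul_of_nonneg_right hDX (by positivity)
        _ = C9 * (j : ℝ) ^ 4 * K1 ^ 2 * a := by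
            rw [hX]
            ring
    have hj2 : 1 ≤ (j : ℝ) ^ 2 := one_le_pow₀ hjR
    have h2 : (j : ℝ) ^ 2 * K1 * a ≤ (j : ℝ) ^ 4 * K1 ^ 2 * a := by
      have h3 : 1 ≤ (j : ℝ) ^ 2 * K1 := one_le_mul_of_one_le_of_one_le hj2 hK1
      calc (j : ℝ) ^ 2 * K1 * a = (j : ℝ) ^ 2 * K1 * a * 1 := by ring
        _ ≤ (j : ℝ) ^ 2 * K1 * a * ((j : ℝ) ^ 2 * K1) :=
          mul_le_mul_of_nonneg_left h3 (by positivity)
        _ = (j : ℝ) ^ 4 * K1 ^ 2 * a := by ring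
    have h4 : (j : ℝ) ^ 2 * a ≤ (j : ℝ) ^ 2 * K1 * a := by
      calc (j : ℝ) ^ 2 * a = (j : ℝ) ^ 2 * a * 1 := by ring
        _ ≤ (j : ℝ) ^ 2 * a * K1 := mul_le_mul_of_nonneg_left hK1 (by positivity)
        _ = (j : ℝ) ^ 2 * K1 * a := by ring
    have h5 : 0 ≤ (j : ℝ) ^ 4 * K1 ^ 2 * a := by positivity
    have h6 : (20 * C9 + 310) * (j : ℝ) ^ 4 * K1 ^ 2 * a =
        20 * (C9 * (j : ℝ) ^ 4 * K1 ^ 2 * a) + 310 * ((j : ℝ) ^ 4 * K1 ^ 2 * a) := by ring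
    rw [h6]
    linarith
  calc (law d ρ).real {η' : Env d | ¬ Tle ρ β η' (nn d ρ β ((A : ℝ) ^ (k - 6)))
        ((σ * ((j * Y : ℕ) : ℤ)) • es j0) ((20 * C9 + 310) * (j : ℝ) ^ 4 * K1 ^ 2 * a)}
      ≤ (law d ρ).real {η' : Env d | ¬ Tle ρ β η' (nn d ρ β ((A : ℝ) ^ (k - 6)))
        ((σ * ((j * Y : ℕ) : ℤ)) • es j0) (Eb d ρ β c N a b ((j * Y : ℕ) : ℝ) +
          2 * Real.sqrt ((b * Eb d ρ β c N a b ((j * Y : ℕ) : ℝ) + (N : ℝ) ^ (5 * c)) / q) +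
          SS d ρ β (nn d ρ β ((A : ℝ) ^ (k - 6))) / q)} :=
        measureReal_mono (fun x hx h => hx (Tle_mono h hle))
    _ ≤ 3 * q := hfin
    _ = 3 / (1000 * (j : ℝ) ^ 2) := by
        rw [hq]
        ring

end Pool.Agent.W_7d29a1_q
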