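import Pool.Agent.W_7d29a1_q.Mv
import Pool.Agent.W_7d29a1_h3.LaneA

/-!
Row 601, section 9: independence of the lanes and the deterministic bounds. TASK LaD.
-/

namespace Pool.Agent.W_7d29a1_q

open MeasureTheory ProbabilityTheory Filter Topology Pool.Agent.W_MP_7d29a1_pr
  Pool.Agent.W_7d29a1_h46 Pool.Agent.W_7d29a1_h46u Pool.Agent.W_7d29a1_h3

variable {d : ℕ} {ρ : Measure ℝ} [IsProbabilityMeasure ρ] {β : ℝ}

/-- The cost `T(2t,0)_+`. -/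
noncomputable def La_T (d : ℕ) (ρ : Measure ℝ) (β : ℝ) (t : ℕ) (η : Env d) : ℝ :=
  max (-Real.log (Vp ρ β η (2 * t) 0)) 0

/-- Lane `j` fails: the event `F_j` (time interval `(2 t_c, 2 t_c + 2 r]`, centre `j Y e_j0`). -/
def La_F (j0 : Fin d) (ρ : Measure ℝ) (β B : ℝ) (tc r S Y : ℕ) (j : ℕ) : Set (Env d) :=
  {η | ¬ Real.exp (-B) ≤ V ρ β (sh (2 * tc) (((j * Y : ℕ) : ℤ) • es j0) η) (stP (2 * r) S 0)}

/-- A climb to or from lane `j` fails. -/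
def La_G (j0 : Fin d) (ρ : Measure ℝ) (β : ℝ) (tc r Y : ℕ) (u : ℝ) (j : ℕ) : Set (Env d) :=
  {η | ¬ Tle ρ β η tc (((j * Y : ℕ) : ℤ) • es j0) u} ∪
  {η | ¬ Tle ρ β (sh (2 * (tc + r)) (((j * Y : ℕ) : ℤ) • es j0) η) tc (-(((j * Y : ℕ) : ℤ) • es j0)) u}

omit [IsProbabilityMeasure ρ] in
theorem measurable_La_T (t : ℕ) : Measurable (La_T d ρ β t) :=
  ((Real.measurable_log.comp (measurable_V _)).neg).max measurable_const

private theorem LaD_ms (B : ℝ) (m S : ℕ) :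
    MeasurableSet {η : Env d | ¬ Real.exp (-B) ≤ V ρ β η (stP m S 0)} :=
  (measurableSet_le measurable_const (measurable_V _)).compl

theorem measurableSet_La_F (j0 : Fin d) (B : ℝ) (tc r S Y j : ℕ) :
    MeasurableSet (La_F j0 ρ β B tc r S Y j) :=
  measurable_sh (2 * tc) (((j * Y : ℕ) : ℤ) • es j0)
    (LaD_ms (ρ := ρ) (β := β) B (2 * r) S)

theorem measurableSet_La_G (j0 : Fin d) (tc r Y : ℕ) (u : ℝ) (j : ℕ) :
    MeasurableSet (La_G j0 ρ β tc r Y u j) :=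
  ((measurableSet_Tle _ _ _).compl).union
    (measurable_sh (2 * (tc + r)) (((j * Y : ℕ) : ℤ) • es j0) (measurableSet_Tle _ _ _).compl)

private theorem LaD_es (j0 : Fin d) (z : ℤ) : (z • es j0 : Site d) j0 = z := by
  simp [es]

/-- The lanes are independent: `indep_events` with `{p | 2 t_c < p.1 ∧ p.1 ≤ 2 t_c + 2 r ∧ sn (p.2 - y_j) ≤ S}`
(`dep_st_sh`), disjoint as `Y ≥ 2 S + 2`; each factor `≤ q` by `real_sh`. As `lanes_fail` in `W_7d29a1_h3.LaneA`. -/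
theorem La_fail (j0 : Fin d) {q B : ℝ} {S tc r m Y : ℕ} (hY : 2 * S + 2 ≤ Y)
    (h : (law d ρ).real {η : Env d | ¬ Real.exp (-B) ≤ V ρ β η (stP (2 * r) S 0)} ≤ q) :
    (law d ρ).real {η : Env d | ∀ j < m, η ∈ La_F j0 ρ β B tc r S Y j} ≤ q ^ m := by
  classical
  let T : ℕ → Set (ℕ × Site d) := fun j => {p | 2 * tc < p.1 ∧
    p.1 ≤ 2 * tc + 2 * r ∧ sn (p.2 - ((j * Y : ℕ) : ℤ) • es j0) ≤ S}
  have hset : {η : Env d | ∀ j < m, η ∈ La_F j0 ρ β B tc r S Y j} =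
      {η | ∀ j ∈ Finset.range m, η ∈ La_F j0 ρ β B tc r S Y j} := by
    ext η
    constructor
    · intro h j hj
      exact h j (Finset.mem_range.1 hj)
    · intro h j hj
      exact h j (Finset.mem_range.2 hj)
  have hdep : ∀ j ∈ Finset.range m, ∀ η η' : Env d, (∀ p ∈ T j, η p = η' p) →
      (η ∈ La_F j0 ρ β B tc r S Y j ↔ η' ∈ La_F j0 ρ β B tc r S Y j) := by
    intro j _ η η' h
    have h1 := dep_st_sh (ρ := ρ) (β := β) (2 * tc) (((j * Y : ℕ) : ℤ) • es j0)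
      (2 * r) S (0 : Site d) h
    show (¬ Real.exp (-B) ≤ V ρ β (sh (2 * tc) (((j * Y : ℕ) : ℤ) • es j0) η)
      (stP (2 * r) S 0)) ↔ (¬ Real.exp (-B) ≤ V ρ β (sh (2 * tc)
      (((j * Y : ℕ) : ℤ) • es j0) η') (stP (2 * r) S 0))
    simp only at h1
    rw [h1]
  have hdisj : ∀ i ∈ Finset.range m, ∀ j ∈ Finset.range m, i ≠ j → Disjoint (T i) (T j) := by
    intro i _ j _ hij
    rw [Set.disjoint_left]
    rintro p ⟨-, -, hi⟩ ⟨-, -, hj⟩
    rw [sn_le_iff] at hi hj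
    have h1 := hi j0
    have h2 := hj j0
    rw [Pi.sub_apply, LaD_es] at h1 h2
    have h3 : |((i * Y : ℕ) : ℤ) - ((j * Y : ℕ) : ℤ)| ≤ 2 * S := by
      rw [abs_le] at h1 h2 ⊢
      constructor <;> linarith
    have h4 : ∀ i j : ℕ, i < j → 2 * S + 2 ≤ j * Y - i * Y := by
      intro i j h
      have h5 : (i + 1) * Y ≤ j * Y := Nat.mul_le_mul_right _ h
      have h6 : (i + 1) * Y = i * Y + Y := by ring
      omega
    rcases lt_or_gt_of_ne hij with h | h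
    · have h5 := h4 i j h
      rw [abs_le] at h3
      omega
    · have h5 := h4 j i h
      rw [abs_le] at h3
      omega
  rw [hset, indep_events (ρ := ρ) (Finset.range m) (La_F j0 ρ β B tc r S Y) T
    (fun j _ => measurableSet_La_F j0 B tc r S Y j) hdep hdisj]
  have hle : ∀ j ∈ Finset.range m, (law d ρ).real (La_F j0 ρ β B tc r S Y j) ≤ q := by
    intro j _
    have h1 : (law d ρ).real (La_F j0 ρ β B tc r S Y j) =
        (law d ρ).real {η : Env d | ¬ Real.exp (-B) ≤ V ρ β η (stP (2 * r) S 0)} :=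
      real_sh (ρ := ρ) (2 * tc) (((j * Y : ℕ) : ℤ) • es j0) (LaD_ms (ρ := ρ) (β := β) B (2 * r) S)
    rw [h1]
    exact h
  calc ∏ j ∈ Finset.range m, (law d ρ).real (La_F j0 ρ β B tc r S Y j) ≤
        ∏ _j ∈ Finset.range m, q :=
        Finset.prod_le_prod (fun j _ => measureReal_nonneg) hle
    _ = q ^ m := by rw [Finset.prod_const, Finset.card_range]

private theorem LaD_sum : ∀ J : ℕ, 1 ≤ J →
    ∑ j ∈ Finset.Icc 1 J, 1 / ((j : ℝ) ^ 2) ≤ 2 - 1 / (J : ℝ) := by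
  intro J hJ
  induction J, hJ using Nat.le_induction with
  | base => norm_num
  | succ J hJ ih =>
    rw [Finset.sum_Icc_succ_top (by omega)]
    have h1 : (0 : ℝ) < J := by exact_mod_cast hJ
    have h2 : 1 / (((J + 1 : ℕ) : ℝ) ^ 2) ≤ 1 / (J : ℝ) - 1 / ((J + 1 : ℕ) : ℝ) := by
      push_cast
      have h3 : 1 / (J : ℝ) - 1 / ((J : ℝ) + 1) = 1 / ((J : ℝ) * ((J : ℝ) + 1)) := by
        field_simp
        ring
      rw [h3]
      apply one_div_le_one_div_of_le (by positivity)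
      nlinarith
    linarith

private theorem LaD_sum2 (J : ℕ) : ∑ j ∈ Finset.Icc 1 J, 1 / ((j : ℝ) ^ 2) ≤ 2 := by
  rcases Nat.eq_zero_or_pos J with h | h
  · subst h
    simp
  · have h1 := LaD_sum J h
    have h2 : (0 : ℝ) ≤ 1 / (J : ℝ) := by positivity
    linarith

/-- The climbs: union bound, `real_Tle_sh`. -/
theorem La_G_prob (j0 : Fin d) {tc r Y J : ℕ} {u : ℕ → ℝ}
    (h : ∀ j : ℕ, 1 ≤ j → j ≤ J → ∀ σ : ℤ, σ = 1 ∨ σ = -1 →
      (law d ρ).real {η : Env d | ¬ Tle ρ β η tc ((σ * ((j * Y : ℕ) : ℤ)) • es j0) (u j)} ≤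
        3 / (1000 * (j : ℝ) ^ 2)) :
    (law d ρ).real {η : Env d | ∃ j, 1 ≤ j ∧ j ≤ J ∧ η ∈ La_G j0 ρ β tc r Y (u j) j} ≤ 1 / 64 := by
  have hsub : {η : Env d | ∃ j, 1 ≤ j ∧ j ≤ J ∧ η ∈ La_G j0 ρ β tc r Y (u j) j} ⊆
      ⋃ j ∈ Finset.Icc 1 J, La_G j0 ρ β tc r Y (u j) j := by
    rintro η ⟨j, h1, h2, h3⟩
    simp only [Set.mem_iUnion]
    exact ⟨j, Finset.mem_Icc.2 ⟨h1, h2⟩, h3⟩
  have hj : ∀ j ∈ Finset.Icc 1 J, (law d ρ).real (La_G j0 ρ β tc r Y (u j) j) ≤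
      6 / 1000 * (1 / ((j : ℝ) ^ 2)) := by
    intro j hj
    obtain ⟨h1, h2⟩ := Finset.mem_Icc.1 hj
    have h3 := h j h1 h2 1 (Or.inl rfl)
    have h4 := h j h1 h2 (-1) (Or.inr rfl)
    rw [one_mul] at h3
    rw [neg_one_mul, neg_smul] at h4
    have h5 : (law d ρ).real {η : Env d | ¬ Tle ρ β (sh (2 * (tc + r)) (((j * Y : ℕ) : ℤ) • es j0) η)
        tc (-(((j * Y : ℕ) : ℤ) • es j0)) (u j)} =
        (law d ρ).real {η : Env d | ¬ Tle ρ β η tc (-(((j * Y : ℕ) : ℤ) • es j0)) (u j)} :=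
      real_sh (ρ := ρ) (2 * (tc + r)) (((j * Y : ℕ) : ℤ) • es j0) (measurableSet_Tle _ _ _).compl
    rw [← h5] at h4
    have h6 : (6 : ℝ) / 1000 * (1 / ((j : ℝ) ^ 2)) =
        3 / (1000 * (j : ℝ) ^ 2) + 3 / (1000 * (j : ℝ) ^ 2) := by
      have h7 : (0 : ℝ) < j := by exact_mod_cast h1
      field_simp
      norm_num
    rw [h6]
    exact (measureReal_union_le _ _).trans (add_le_add h3 h4)
  calc (law d ρ).real {η : Env d | ∃ j, 1 ≤ j ∧ j ≤ J ∧ η ∈ La_G j0 ρ β tc r Y (u j) j}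
      ≤ (law d ρ).real (⋃ j ∈ Finset.Icc 1 J, La_G j0 ρ β tc r Y (u j) j) :=
        measureReal_mono hsub (measure_ne_top _ _)
    _ ≤ ∑ j ∈ Finset.Icc 1 J, (law d ρ).real (La_G j0 ρ β tc r Y (u j) j) :=
        measureReal_biUnion_finset_le _ _
    _ ≤ ∑ j ∈ Finset.Icc 1 J, 6 / 1000 * (1 / ((j : ℝ) ^ 2)) := Finset.sum_le_sum hj
    _ = 6 / 1000 * ∑ j ∈ Finset.Icc 1 J, 1 / ((j : ℝ) ^ 2) := by rw [Finset.mul_sum]
    _ ≤ 6 / 1000 * 2 := mul_le_mul_of_nonneg_left (LaD_sum2 J) (by norm_num)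
    _ ≤ 1 / 64 := by norm_num

private theorem LaD_T_add (j0 : Fin d) (η : Env d) (s t : ℕ) :
    La_T d ρ β (s + t) η ≤ La_T d ρ β s η + La_T d ρ β t (sh (2 * s) 0 η) := by
  unfold La_T
  have ha : 0 < Vp ρ β η (2 * s) 0 := Vp_pos j0 η (adm_zero s)
  have hb : 0 < Vp ρ β (sh (2 * s) 0 η) (2 * t) 0 := Vp_pos j0 _ (adm_zero t)
  have h := Vp_add (ρ := ρ) (β := β) η (2 * s) (2 * t) 0 0
  rw [add_zero, ← mul_add] at h
  have h1 := Real.log_le_log (mul_pos ha hb) h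
  rw [Real.log_mul ha.ne' hb.ne'] at h1
  have h2 := le_max_left (-Real.log (Vp ρ β η (2 * s) 0)) 0
  have h3 := le_max_left (-Real.log (Vp ρ β (sh (2 * s) 0 η) (2 * t) 0)) 0
  have h4 := le_max_right (-Real.log (Vp ρ β η (2 * s) 0)) 0
  have h5 := le_max_right (-Real.log (Vp ρ β (sh (2 * s) 0 η) (2 * t) 0)) 0
  refine max_le ?_ ?_ <;> linarith

omit [IsProbabilityMeasure ρ] in
private theorem LaD_T_le {η : Env d} {t : ℕ} {u : ℝ} (hu : 0 ≤ u) (h : Tle ρ β η t 0 u) :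
    La_T d ρ β t η ≤ u := by
  unfold La_T
  unfold Tle at h
  have h1 := Real.log_le_log (Real.exp_pos _) h
  rw [Real.log_exp] at h1
  exact max_le (by linarith) hu

private theorem LaD_lane {j0 : Fin d} {η : Env d} {B : ℝ} {tc r S Y j : ℕ}
    (h : η ∉ La_F j0 ρ β B tc r S Y j) :
    Tle ρ β (sh (2 * tc) (((j * Y : ℕ) : ℤ) • es j0) η) r 0 B := by
  have h1 : Real.exp (-B) ≤ V ρ β (sh (2 * tc) (((j * Y : ℕ) : ℤ) • es j0) η) (stP (2 * r) S 0) :=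
    not_not.1 h
  exact h1.trans (V_mono _ stP_sub)

/-- The three slots at `0`: `Vp_add` twice, logarithm. -/
theorem La_det_wait (j0 : Fin d) (η : Env d) (tc r : ℕ) :
    La_T d ρ β (tc + r + tc) η ≤
      La_T d ρ β tc η + La_T d ρ β r (sh (2 * tc) 0 η) + La_T d ρ β tc (sh (2 * (tc + r)) 0 η) := by
  have h1 := LaD_T_add (ρ := ρ) (β := β) j0 η (tc + r) tc
  have h2 := LaD_T_add (ρ := ρ) (β := β) j0 η tc r
  linarith

/-- Lane `0` is good: `Vp (sh (2 tc) 0 η) (2 r) 0 ≥ V (stP) ≥ exp (-B)`. -/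
theorem La_det_zero (j0 : Fin d) {η : Env d} {B : ℝ} (hB : 0 ≤ B) {tc r S Y : ℕ}
    (h : η ∉ La_F j0 ρ β B tc r S Y 0) :
    La_T d ρ β (tc + r + tc) η ≤ La_T d ρ β tc η + B + La_T d ρ β tc (sh (2 * (tc + r)) 0 η) := by
  have h1 := LaD_lane h
  rw [Nat.zero_mul, Nat.cast_zero, zero_smul] at h1
  have h2 := LaD_T_le hB h1
  have h3 := La_det_wait (ρ := ρ) (β := β) j0 η tc r
  linarith

/-- Lane `j` and its climbs are good: `Tle_add` twice. -/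
theorem La_det_lane (j0 : Fin d) {η : Env d} {B u : ℝ} (hB : 0 ≤ B) (hu : 0 ≤ u) {tc r S Y j : ℕ}
    (h : η ∉ La_F j0 ρ β B tc r S Y j) (h' : η ∉ La_G j0 ρ β tc r Y u j) :
    La_T d ρ β (tc + r + tc) η ≤ 2 * u + B := by
  have h1 := LaD_lane h
  have h2 : ¬ (¬ Tle ρ β η tc (((j * Y : ℕ) : ℤ) • es j0) u ∨
      ¬ Tle ρ β (sh (2 * (tc + r)) (((j * Y : ℕ) : ℤ) • es j0) η) tc
        (-(((j * Y : ℕ) : ℤ) • es j0)) u) := h'
  rw [not_or, not_not, not_not] at h2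
  have h3 := Tle_add h2.1 h1
  rw [add_zero] at h3
  have h4 := Tle_add h3 h2.2
  rw [add_neg_cancel] at h4
  refine LaD_T_le (by linarith) ?_
  rwa [show u + B + u = 2 * u + B by ring] at h4

end Pool.Agent.W_7d29a1_q
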