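import Mathlib

/-!
Row 601, section 9: the sum over the first good lane, abstract form. TASK LaE.
-/

namespace Pool.Agent.W_7d29a1_q

open MeasureTheory ProbabilityTheory Filter Topology

private theorem LaE_cs {Ω : Type*} [MeasurableSpace Ω] {P : Measure Ω} [IsProbabilityMeasure P]
    {f : Ω → ℝ} (hf : Measurable f) (hf0 : ∀ w, 0 ≤ f w) (hi : Integrable (fun w => f w ^ 2) P)
    {A : Set Ω} (hA : MeasurableSet A) :
    Integrable (A.indicator f) P ∧
    ∫ w, A.indicator f w ∂P ≤ Real.sqrt (∫ w, f w ^ 2 ∂P) * Real.sqrt (P.real A) := by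
  have hL : MemLp f 2 P := (memLp_two_iff_integrable_sq hf.aestronglyMeasurable).2 hi
  have hL1 : MemLp (A.indicator fun _ => (1 : ℝ)) 2 P :=
    (memLp_const (1 : ℝ)).indicator hA
  have hfi : Integrable f P := hL.integrable (by norm_num)
  refine ⟨hfi.indicator hA, ?_⟩
  have h := integral_mul_le_Lp_mul_Lq_of_nonneg (μ := P) (p := 2) (q := 2)
    Real.HolderConjugate.two_two (f := A.indicator fun _ => (1 : ℝ)) (g := f)
    (ae_of_all _ fun w => Set.indicator_nonneg (fun _ _ => zero_le_one) w)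
    (ae_of_all _ hf0) (by simpa using hL1) (by simpa using hL)
  have e1 : ∫ w, (A.indicator (fun _ => (1 : ℝ)) w) ^ (2 : ℝ) ∂P = P.real A := by
    have : (fun w => (A.indicator (fun _ => (1 : ℝ)) w) ^ (2 : ℝ)) =
        A.indicator fun _ => (1 : ℝ) := by
      funext w
      by_cases hw : w ∈ A <;> simp [hw]
    rw [this, integral_indicator_const _ hA]
    simp
  have e2 : ∫ w, (f w) ^ (2 : ℝ) ∂P = ∫ w, f w ^ 2 ∂P := by
    refine integral_congr_ae (ae_of_all _ fun w => ?_)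
    show (f w) ^ (2 : ℝ) = f w ^ 2
    rw [← Real.rpow_natCast]; norm_num
  have e3 : (fun w => A.indicator (fun _ => (1 : ℝ)) w * f w) = A.indicator f := by
    funext w
    by_cases hw : w ∈ A <;> simp [hw]
  rw [e1, e2, ← Real.sqrt_eq_rpow, ← Real.sqrt_eq_rpow] at h
  rw [mul_comm (Real.sqrt (∫ w, f w ^ 2 ∂P))]
  rw [← e3]
  exact h

/-- Pointwise
`T^2 ≤ 3 (w^2 + B^2 + w'^2) + 1_Bad 3 (w^2 + m^2 + w'^2) + ∑_{j < J} 1_{F 0, .., F j} c j ^ 2 + 1_{F 0, .., F J} T^2`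
(the first good lane is `0`; or `η ∈ Bad`; or the first good lane is `j + 1 ≤ J`; or there is none). Integrate; the last
term by Cauchy - Schwarz: `∫ 1_A T^2 ≤ (P A)^(1/2) (∫ T^4)^(1/2)` (as `LaneB_cs` in `W_7d29a1_h3.LaneB`). -/
theorem La_abs {Ω : Type*} [MeasurableSpace Ω] {P : Measure Ω} [IsProbabilityMeasure P]
    {T w w' m : Ω → ℝ} (hT : Measurable T) (hw : Measurable w) (hw' : Measurable w') (hm : Measurable m)
    (hT0 : ∀ x, 0 ≤ T x) (hw0 : ∀ x, 0 ≤ w x) (hw0' : ∀ x, 0 ≤ w' x) (hm0 : ∀ x, 0 ≤ m x)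
    {B s M K q : ℝ} (hB : 0 ≤ B) (hM : 0 ≤ M) (hK : 0 ≤ K) (hq : 0 ≤ q)
    {F : ℕ → Set Ω} (hF : ∀ j, MeasurableSet (F j)) {Bad : Set Ω} (hBad : MeasurableSet Bad)
    {J : ℕ} (hFq : ∀ i ≤ J + 1, P.real {x | ∀ j < i, x ∈ F j} ≤ q ^ i)
    (hwi : Integrable (fun x => w x ^ 2) P) (hw2 : ∫ x, w x ^ 2 ∂P ≤ s ^ 2)
    (hwi' : Integrable (fun x => w' x ^ 2) P) (hw2' : ∫ x, w' x ^ 2 ∂P ≤ s ^ 2)
    (hmi : Integrable (fun x => m x ^ 2) P) (hm2 : ∫ x in Bad, m x ^ 2 ∂P ≤ M ^ 2 / 64)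
    (hTi : Integrable (fun x => T x ^ 4) P) (hT4 : ∫ x, T x ^ 4 ∂P ≤ K ^ 2)
    {c : ℕ → ℝ} (h0 : ∀ x, x ∉ F 0 → T x ≤ w x + B + w' x) (hb : ∀ x, T x ≤ w x + m x + w' x)
    (hj : ∀ j < J, ∀ x, x ∉ Bad → x ∉ F (j + 1) → T x ≤ c j) :
    ∫ x, T x ^ 2 ∂P ≤ 3 * (2 * s ^ 2 + B ^ 2) + 3 * (2 * s ^ 2 + M ^ 2 / 64) +
      ∑ j ∈ Finset.range J, q ^ (j + 1) * c j ^ 2 + K * Real.sqrt (q ^ (J + 1)) := by
  classical
  obtain ⟨G, hG⟩ : ∃ G : ℕ → Set Ω, ∀ i, G i = {x | ∀ j < i, x ∈ F j} := ⟨_, fun _ => rfl⟩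
  have hmem : ∀ i x, x ∈ G i ↔ ∀ j < i, x ∈ F j := fun i x => by
    rw [hG]
    rfl
  have hGm : ∀ i, MeasurableSet (G i) := by
    intro i
    have h1 : G i = ⋂ j, ⋂ _ : j < i, F j := by
      ext x
      rw [hmem]
      simp only [Set.mem_iInter]
    rw [h1]
    exact MeasurableSet.iInter fun j => MeasurableSet.iInter fun _ => hF j
  have hGq : ∀ i ≤ J + 1, P.real (G i) ≤ q ^ i := by
    intro i hi
    rw [hG]
    exact hFq i hi
  have hT2m : Measurable fun x => T x ^ 2 := hT.pow_const 2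
  have hT22 : Integrable (fun x => (T x ^ 2) ^ 2) P := by
    refine hTi.congr (ae_of_all _ fun x => ?_)
    show T x ^ 4 = (T x ^ 2) ^ 2
    ring
  obtain ⟨hcsi, hcs⟩ := LaE_cs hT2m (fun x => sq_nonneg (T x)) hT22 (hGm (J + 1))
  have hlast : ∫ x, (G (J + 1)).indicator (fun x => T x ^ 2) x ∂P ≤ K * Real.sqrt (q ^ (J + 1)) := by
    refine hcs.trans ?_
    have e1 : Real.sqrt (∫ x, (T x ^ 2) ^ 2 ∂P) ≤ K := by
      rw [Real.sqrt_le_left hK]
      refine le_trans (le_of_eq ?_) hT4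
      refine integral_congr_ae (ae_of_all _ fun x => ?_)
      show (T x ^ 2) ^ 2 = T x ^ 4
      ring
    exact mul_le_mul e1 (Real.sqrt_le_sqrt (hGq _ le_rfl)) (Real.sqrt_nonneg _) hK
  have hT2i : Integrable (fun x => T x ^ 2) P :=
    ((memLp_two_iff_integrable_sq hT2m.aestronglyMeasurable).2 hT22).integrable (by norm_num)
  -- the four terms
  obtain ⟨f1, hf1⟩ : ∃ f1 : Ω → ℝ, f1 = fun x => 3 * (w x ^ 2 + B ^ 2 + w' x ^ 2) := ⟨_, rfl⟩
  obtain ⟨f2, hf2⟩ : ∃ f2 : Ω → ℝ, f2 = fun x => 3 * (w x ^ 2 + m x ^ 2 + w' x ^ 2) := ⟨_, rfl⟩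
  have i1 : Integrable f1 P := by
    rw [hf1]
    exact ((hwi.add (integrable_const _)).add hwi').const_mul 3
  have i2 : Integrable f2 P := by
    rw [hf2]
    exact ((hwi.add hmi).add hwi').const_mul 3
  have i2' : Integrable (Bad.indicator f2) P := i2.indicator hBad
  have i3 : ∀ j ∈ Finset.range J, Integrable ((G (j + 1)).indicator fun _ => c j ^ 2) P := fun j _ =>
    (integrable_const _).indicator (hGm _)
  have i3' : Integrable (fun x => ∑ j ∈ Finset.range J, (G (j + 1)).indicator (fun _ => c j ^ 2) x) P :=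
    integrable_finsetSum _ i3
  have hpt : ∀ x, T x ^ 2 ≤ f1 x + Bad.indicator f2 x +
      ∑ j ∈ Finset.range J, (G (j + 1)).indicator (fun _ => c j ^ 2) x +
      (G (J + 1)).indicator (fun x => T x ^ 2) x := by
    intro x
    have n1 : 0 ≤ f1 x := by
      rw [hf1]
      positivity
    have n2 : 0 ≤ f2 x := by
      rw [hf2]
      positivity
    have n2' : 0 ≤ Bad.indicator f2 x := Set.indicator_apply_nonneg fun _ => n2
    have n3 : ∀ j ∈ Finset.range J, 0 ≤ (G (j + 1)).indicator (fun _ => c j ^ 2) x := fun j _ =>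
      Set.indicator_apply_nonneg fun _ => sq_nonneg _
    have n3' := Finset.sum_nonneg n3
    have n4 : 0 ≤ (G (J + 1)).indicator (fun x => T x ^ 2) x :=
      Set.indicator_apply_nonneg fun _ => sq_nonneg _
    by_cases h1 : x ∈ F 0
    · by_cases h2 : x ∈ Bad
      · have h3 : T x ^ 2 ≤ (w x + m x + w' x) ^ 2 := pow_le_pow_left₀ (hT0 x) (hb x) 2
        have h4 : (w x + m x + w' x) ^ 2 ≤ f2 x := by
          rw [hf2]
          nlinarith [sq_nonneg (w x - m x), sq_nonneg (w x - w' x), sq_nonneg (m x - w' x)]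
        rw [Set.indicator_of_mem h2]
        linarith
      · by_cases h3 : ∃ j, j < J ∧ x ∉ F (j + 1)
        · obtain ⟨g1, g2⟩ := Nat.find_spec h3
          set j := Nat.find h3 with hjdef
          have hxG : x ∈ G (j + 1) := by
            rw [hmem]
            intro i hi
            rcases i with _ | i
            · exact h1
            · by_contra hc
              exact Nat.find_min h3 (m := i) (by omega) ⟨by omega, hc⟩
          have h4 : T x ≤ c j := hj j g1 x h2 g2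
          have h5 : T x ^ 2 ≤ c j ^ 2 := pow_le_pow_left₀ (hT0 x) h4 2
          have h6 := Finset.single_le_sum n3 (Finset.mem_range.2 g1)
          rw [Set.indicator_of_mem hxG] at h6
          linarith
        · push Not at h3
          have hxG : x ∈ G (J + 1) := by
            rw [hmem]
            intro i hi
            rcases i with _ | i
            · exact h1
            · exact h3 i (by omega)
          rw [Set.indicator_of_mem hxG]
          linarith
    · have h3 : T x ^ 2 ≤ (w x + B + w' x) ^ 2 := pow_le_pow_left₀ (hT0 x) (h0 x h1) 2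
      have h4 : (w x + B + w' x) ^ 2 ≤ f1 x := by
        rw [hf1]
        nlinarith [sq_nonneg (w x - B), sq_nonneg (w x - w' x), sq_nonneg (B - w' x)]
      linarith
  have hint := integral_mono hT2i (((i1.add i2').add i3').add hcsi) hpt
  have e0 : ∫ x, (((f1 + Bad.indicator f2) + fun x => ∑ j ∈ Finset.range J,
      (G (j + 1)).indicator (fun _ => c j ^ 2) x) + (G (J + 1)).indicator (fun x => T x ^ 2)) x ∂P =
      ∫ x, f1 x ∂P + ∫ x, Bad.indicator f2 x ∂P +
      ∑ j ∈ Finset.range J, ∫ x, (G (j + 1)).indicator (fun _ => c j ^ 2) x ∂P +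
      ∫ x, (G (J + 1)).indicator (fun x => T x ^ 2) x ∂P := by
    rw [integral_add' ((i1.add i2').add i3') hcsi, integral_add' (i1.add i2') i3',
      integral_add' i1 i2', integral_finsetSum _ i3]
  have hint' : ∫ x, T x ^ 2 ∂P ≤ ∫ x, f1 x ∂P + ∫ x, Bad.indicator f2 x ∂P +
      ∑ j ∈ Finset.range J, ∫ x, (G (j + 1)).indicator (fun _ => c j ^ 2) x ∂P +
      ∫ x, (G (J + 1)).indicator (fun x => T x ^ 2) x ∂P := by
    rw [← e0]
    exact hint
  have j1 : ∫ x, f1 x ∂P ≤ 3 * (2 * s ^ 2 + B ^ 2) := by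
    rw [hf1, integral_const_mul]
    have e1 : ∫ x, (w x ^ 2 + B ^ 2 + w' x ^ 2) ∂P = ∫ x, w x ^ 2 ∂P + B ^ 2 + ∫ x, w' x ^ 2 ∂P := by
      have h1 : Integrable (fun x => w x ^ 2 + B ^ 2) P := hwi.add (integrable_const _)
      rw [integral_add h1 hwi', integral_add hwi (integrable_const _), integral_const]
      simp
    rw [e1]
    linarith
  have j2 : ∫ x, Bad.indicator f2 x ∂P ≤ 3 * (2 * s ^ 2 + M ^ 2 / 64) := by
    rw [integral_indicator hBad, hf2, integral_const_mul]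
    have h1 : Integrable (fun x => w x ^ 2 + m x ^ 2) (P.restrict Bad) := (hwi.add hmi).restrict
    rw [integral_add h1 hwi'.restrict, integral_add hwi.restrict hmi.restrict]
    have h2 : ∫ x in Bad, w x ^ 2 ∂P ≤ ∫ x, w x ^ 2 ∂P :=
      setIntegral_le_integral hwi (ae_of_all _ fun x => sq_nonneg _)
    have h3 : ∫ x in Bad, w' x ^ 2 ∂P ≤ ∫ x, w' x ^ 2 ∂P :=
      setIntegral_le_integral hwi' (ae_of_all _ fun x => sq_nonneg _)
    linarith
  have j3 : ∑ j ∈ Finset.range J, ∫ x, (G (j + 1)).indicator (fun _ => c j ^ 2) x ∂P ≤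
      ∑ j ∈ Finset.range J, q ^ (j + 1) * c j ^ 2 := by
    refine Finset.sum_le_sum fun j hj' => ?_
    rw [integral_indicator_const _ (hGm _), smul_eq_mul]
    exact mul_le_mul_of_nonneg_right (hGq _ (by
      have := Finset.mem_range.1 hj'
      omega)) (sq_nonneg _)
  linarith

end Pool.Agent.W_7d29a1_q
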