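import Pool.Agent.W_7d29a1_q.LaD
import Pool.Agent.W_7d29a1_q.LaE

/-!
Row 601, section 9: the second moment of `T(2t,0)_+`. TASK LaF.
-/

namespace Pool.Agent.W_7d29a1_q

open MeasureTheory ProbabilityTheory Filter Topology Pool.Agent.W_MP_7d29a1_pr
  Pool.Agent.W_7d29a1_h46 Pool.Agent.W_7d29a1_h46u Pool.Agent.W_7d29a1_h3

variable {d : ℕ} {ρ : Measure ℝ} [IsProbabilityMeasure ρ] {β : ℝ}

private theorem LaF_four (x : ℝ) : max (-x) 0 ^ 4 ≤ x ^ 4 := by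
  rcases le_total (-x) 0 with h | h
  · rw [max_eq_right h]
    have : (0 : ℝ) ≤ x ^ 4 := by positivity
    simpa using this
  · rw [max_eq_left h]
    have : (-x) ^ 4 = x ^ 4 := by ring
    rw [this]

private theorem LaF_T4 (j0 : Fin d) (hρ : EM ρ) (β : ℝ) (t : ℕ) :
    Integrable (fun η : Env d => La_T d ρ β t η ^ 4) (law d ρ) ∧
      ∫ η : Env d, La_T d ρ β t η ^ 4 ∂(law d ρ) ≤
        ∫ η : Env d, Real.log (Vp ρ β η (2 * t) 0) ^ 4 ∂(law d ρ) := by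
  obtain ⟨C, _, hC⟩ := T_four (d := d) j0 hρ β
  have h1 := (hC t 0 (adm_zero (d := d) t)).1
  have hpt : ∀ η : Env d, La_T d ρ β t η ^ 4 ≤ Real.log (Vp ρ β η (2 * t) 0) ^ 4 := fun η =>
    LaF_four _
  have h2 : Integrable (fun η : Env d => La_T d ρ β t η ^ 4) (law d ρ) := by
    refine Integrable.mono' h1 ((measurable_La_T t).pow_const 4).aestronglyMeasurable
      (Filter.Eventually.of_forall fun η => ?_)
    rw [Real.norm_eq_abs, abs_of_nonneg (by positivity)]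
    exact hpt η
  exact ⟨h2, integral_mono h2 h1 hpt⟩

private theorem LaF_T2 (j0 : Fin d) (hρ : EM ρ) (β : ℝ) (t : ℕ) :
    Integrable (fun η : Env d => La_T d ρ β t η ^ 2) (law d ρ) := by
  have h4 := (LaF_T4 (d := d) j0 hρ β t).1
  have h22 : Integrable (fun η : Env d => (La_T d ρ β t η ^ 2) ^ 2) (law d ρ) := by
    refine h4.congr (ae_of_all _ fun x => ?_)
    show La_T d ρ β t x ^ 4 = (La_T d ρ β t x ^ 2) ^ 2
    ring
  exact ((memLp_two_iff_integrable_sq ((measurable_La_T t).pow_const 2).aestronglyMeasurable).2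
    h22).integrable (by norm_num)

omit [IsProbabilityMeasure ρ] in
private theorem LaF_dep (t s : ℕ) :
    DependsOn (fun η : Env d => La_T d ρ β t (sh s 0 η) ^ 2) {p | s < p.1 ∧ p.1 ≤ s + 2 * t} := by
  intro η η' h
  have h1 : V ρ β (sh s 0 η) (toP (2 * t) (0 : Site d)) = V ρ β (sh s 0 η') (toP (2 * t) 0) :=
    dep_V_sh (ρ := ρ) (β := β) s 0 (toP (2 * t) (0 : Site d)) h
  show max (-Real.log (V ρ β (sh s 0 η) (toP (2 * t) (0 : Site d)))) 0 ^ 2 =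
    max (-Real.log (V ρ β (sh s 0 η') (toP (2 * t) (0 : Site d)))) 0 ^ 2
  rw [h1]

/-- `La_abs` with `w = La_T tc`, `m = La_T r (sh (2 tc) 0 ·)`, `w' = La_T tc (sh (2 (tc + r)) 0 ·)`, `F = La_F`,
`Bad = {∃ j, 1 ≤ j ≤ J, La_G (u j) j}`, `c j = 2 u (j + 1) + B` (`La_fail`, `La_G_prob`, `La_det_*`, shifted integrals as in
`real_sh`: `mp_sh`/`MeasurePreserving.integral_comp`). `hm2`: `Bad` depends on the rows `≤ 2 tc` and `> 2 (tc + r)`, `m` on the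
rows in `(2 tc, 2 (tc + r)]`: `∫ in Bad, m^2 = P(Bad) ∫ m^2 ≤ M^2 / 64` (`sm_int` with one index, or `integral_indep` /
`indep_prod` with an indicator). `T^4 ≤ (log Vp)^4`, measurability of `La_T`. -/
theorem La_sum (j0 : Fin d) (hρ : EM ρ) {tc r S J Y : ℕ} {B q s M K : ℝ} {u : ℕ → ℝ} (hB : 0 ≤ B)
    (hM : 0 ≤ M) (hK : 0 ≤ K) (hq : 0 ≤ q) (hu : ∀ j, 0 ≤ u j) (hY : 2 * S + 2 ≤ Y)
    (hF : (law d ρ).real {η : Env d | ¬ Real.exp (-B) ≤ V ρ β η (stP (2 * r) S 0)} ≤ q)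
    (hG : ∀ j : ℕ, 1 ≤ j → j ≤ J → ∀ σ : ℤ, σ = 1 ∨ σ = -1 →
      (law d ρ).real {η : Env d | ¬ Tle ρ β η tc ((σ * ((j * Y : ℕ) : ℤ)) • es j0) (u j)} ≤
        3 / (1000 * (j : ℝ) ^ 2))
    (hw : ∫ η : Env d, max (-Real.log (Vp ρ β η (2 * tc) 0)) 0 ^ 2 ∂(law d ρ) ≤ s ^ 2)
    (hm : ∫ η : Env d, max (-Real.log (Vp ρ β η (2 * r) 0)) 0 ^ 2 ∂(law d ρ) ≤ M ^ 2)
    (h4 : ∫ η : Env d, Real.log (Vp ρ β η (2 * (tc + r + tc)) 0) ^ 4 ∂(law d ρ) ≤ K ^ 2) :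
    ∫ η : Env d, max (-Real.log (Vp ρ β η (2 * (tc + r + tc)) 0)) 0 ^ 2 ∂(law d ρ) ≤
      3 * (2 * s ^ 2 + B ^ 2) + 3 * (2 * s ^ 2 + M ^ 2 / 64) +
      ∑ j ∈ Finset.range J, q ^ (j + 1) * (2 * u (j + 1) + B) ^ 2 + K * Real.sqrt (q ^ (J + 1)) := by
  classical
  obtain ⟨Bad, hBad⟩ : ∃ Bad : Set (Env d),
      Bad = {η : Env d | ∃ j, 1 ≤ j ∧ j ≤ J ∧ η ∈ La_G j0 ρ β tc r Y (u j) j} := ⟨_, rfl⟩
  have hBp : (law d ρ).real Bad ≤ 1 / 64 := by
    rw [hBad]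
    exact La_G_prob j0 hG
  have hBm : MeasurableSet Bad := by
    have h1 : Bad = ⋃ j, ⋃ _ : 1 ≤ j ∧ j ≤ J, La_G j0 ρ β tc r Y (u j) j := by
      rw [hBad]
      ext η
      simp only [Set.mem_ofPred_eq, Set.mem_iUnion, exists_prop, and_assoc]
    rw [h1]
    exact MeasurableSet.iUnion fun j => MeasurableSet.iUnion fun _ => measurableSet_La_G j0 tc r Y (u j) j
  have hBdep : ∀ η η' : Env d, (∀ p ∈ ({p : ℕ × Site d | ¬ (2 * tc < p.1 ∧ p.1 ≤ 2 * tc + 2 * r)} :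
      Set (ℕ × Site d)), η p = η' p) → (η ∈ Bad ↔ η' ∈ Bad) := by
    intro η η' h
    rw [hBad]
    simp only [Set.mem_ofPred_eq]
    refine exists_congr fun j => and_congr_right fun _ => and_congr_right fun _ => ?_
    unfold La_G
    refine or_congr (not_congr ?_) (not_congr ?_)
    · have h1 := dep_Tle (ρ := ρ) (β := β) (s := 0) (t := tc) (x := (0 : Site d))
        (z := ((j * Y : ℕ) : ℤ) • es j0) (u := u j) (η := η) (η' := η') fun p hp1 hp2 => h p (by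
          show ¬ (2 * tc < p.1 ∧ p.1 ≤ 2 * tc + 2 * r)
          omega)
      rw [Nat.mul_zero, sh_zero, sh_zero] at h1
      exact h1
    · exact dep_Tle (ρ := ρ) (β := β) (s := tc + r) fun p hp1 hp2 => h p (by
          show ¬ (2 * tc < p.1 ∧ p.1 ≤ 2 * tc + 2 * r)
          omega)
  have hmi : Integrable (fun η : Env d => La_T d ρ β r (sh (2 * tc) 0 η) ^ 2) (law d ρ) :=
    (mp_sh (ρ := ρ) (2 * tc) (0 : Site d)).integrable_comp_of_integrable (LaF_T2 j0 hρ β r)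
  have hme : ∫ η : Env d, La_T d ρ β r (sh (2 * tc) 0 η) ^ 2 ∂(law d ρ) =
      ∫ η : Env d, La_T d ρ β r η ^ 2 ∂(law d ρ) :=
    integral_sh (ρ := ρ) (2 * tc) (0 : Site d) (F := fun η => La_T d ρ β r η ^ 2)
      ((measurable_La_T r).pow_const 2)
  have hwe : ∫ η : Env d, La_T d ρ β tc (sh (2 * (tc + r)) 0 η) ^ 2 ∂(law d ρ) =
      ∫ η : Env d, La_T d ρ β tc η ^ 2 ∂(law d ρ) :=
    integral_sh (ρ := ρ) (2 * (tc + r)) (0 : Site d) (F := fun η => La_T d ρ β tc η ^ 2)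
      ((measurable_La_T tc).pow_const 2)
  have hm2 : ∫ η in Bad, La_T d ρ β r (sh (2 * tc) 0 η) ^ 2 ∂(law d ρ) ≤ M ^ 2 / 64 := by
    have h1 := sm_int (ρ := ρ) ({()} : Finset Unit) (fun _ => Bad)
      (fun _ η => La_T d ρ β r (sh (2 * tc) 0 η) ^ 2)
      (fun _ => {p : ℕ × Site d | ¬ (2 * tc < p.1 ∧ p.1 ≤ 2 * tc + 2 * r)})
      (fun _ _ => hBm)
      (fun _ _ => ((measurable_La_T r).comp (measurable_sh (2 * tc) 0)).pow_const 2)
      (fun _ _ => hmi) (fun _ _ => hBdep)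
      (fun _ _ η η' h => LaF_dep (ρ := ρ) (β := β) r (2 * tc) fun p hp => h p fun hc => hc hp)
      (fun i _ j _ hij => absurd (Subsingleton.elim i j) hij)
      (m := M ^ 2) (fun _ _ => by
        show ∫ η : Env d, La_T d ρ β r (sh (2 * tc) 0 η) ^ 2 ∂(law d ρ) ≤ M ^ 2
        rw [hme]
        exact hm)
    rw [Finset.sum_singleton] at h1
    have h2 : {η : Env d | ∃ i ∈ ({()} : Finset Unit), η ∈ Bad} = Bad := by
      ext η
      simp
    rw [h2] at h1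
    refine h1.trans ?_
    have h3 : M ^ 2 * (law d ρ).real Bad ≤ M ^ 2 * (1 / 64) :=
      mul_le_mul_of_nonneg_left hBp (sq_nonneg M)
    linarith
  have hT4 := LaF_T4 (d := d) (ρ := ρ) j0 hρ β (tc + r + tc)
  have key := La_abs (P := law d ρ) (T := La_T d ρ β (tc + r + tc)) (w := La_T d ρ β tc)
    (w' := fun η => La_T d ρ β tc (sh (2 * (tc + r)) 0 η))
    (m := fun η => La_T d ρ β r (sh (2 * tc) 0 η))
    (measurable_La_T _) (measurable_La_T _)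
    ((measurable_La_T tc).comp (measurable_sh (2 * (tc + r)) 0))
    ((measurable_La_T r).comp (measurable_sh (2 * tc) 0))
    (fun _ => le_max_right _ _) (fun _ => le_max_right _ _) (fun _ => le_max_right _ _)
    (fun _ => le_max_right _ _) (B := B) (s := s) (M := M) (K := K) (q := q) hB hM hK hq
    (F := La_F j0 ρ β B tc r S Y) (fun j => measurableSet_La_F j0 B tc r S Y j) hBm (J := J)
    (fun i _ => La_fail j0 hY hF)
    (LaF_T2 j0 hρ β tc) hw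
    ((mp_sh (ρ := ρ) (2 * (tc + r)) (0 : Site d)).integrable_comp_of_integrable (LaF_T2 j0 hρ β tc))
    (by
      rw [hwe]
      exact hw)
    hmi hm2 hT4.1 (hT4.2.trans h4) (c := fun j => 2 * u (j + 1) + B)
    (fun η h => La_det_zero j0 hB h) (fun η => La_det_wait j0 η tc r)
    (fun j hj η h1 h2 => La_det_lane j0 hB (hu (j + 1)) h2 fun h3 => h1 (by
      rw [hBad]
      exact ⟨j + 1, by omega, by omega, h3⟩))
  exact key

end Pool.Agent.W_7d29a1_q
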