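import Mathlib

/-!
Row 601, section 9: numbers. TASK LaG.
-/

namespace Pool.Agent.W_7d29a1_q

open Filter Topology

/-- The choice of `q1` (`K1 = C8 log (1/q1)`): `q ^ (j + 1) ≤ q (1/8) ^ j` for `q = 2 q1 ≤ 1/8`, the series
`∑ (j+1)^8 (1/8)^j` converges, `q1 (log (1/q1))^4 → 0`. -/
theorem La_num {C8 C10 q0 : ℝ} (h8 : 1 ≤ C8) (h10 : 1 ≤ C10) (h0 : 0 < q0) :
    ∃ q1 : ℝ, 0 < q1 ∧ q1 ≤ q0 ∧ q1 ≤ 1 / 16 ∧ 1 ≤ Real.log (1 / (2 * q1)) ∧
      1 ≤ C8 * Real.log (1 / q1) ∧ ∀ J : ℕ, ∑ j ∈ Finset.range J, (2 * q1) ^ (j + 1) *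
        (3 * C10 * ((j : ℝ) + 1) ^ 4 * (C8 * Real.log (1 / q1)) ^ 2) ^ 2 ≤ 1 / 100 := by
  have hs0 : Summable fun n : ℕ => ((n : ℝ) ^ 8 * (1 / 8 : ℝ) ^ n) := by
    have := summable_pow_mul_geometric_of_norm_lt_one 8 (r := (1 / 8 : ℝ)) (by norm_num)
    exact this
  have hs : Summable fun n : ℕ => (((n : ℝ) + 1) ^ 8 * (1 / 8 : ℝ) ^ n) := by
    have h1 := ((summable_nat_add_iff 1).2 hs0).mul_left 8
    refine h1.congr fun n => ?_
    push_cast
    rw [pow_succ]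
    ring
  set S : ℝ := ∑' n : ℕ, (((n : ℝ) + 1) ^ 8 * (1 / 8 : ℝ) ^ n) with hS
  have hS0 : 0 ≤ S := tsum_nonneg fun n => by positivity
  have hC10 : 0 < C10 := lt_of_lt_of_le one_pos h10
  have hC8 : 0 < C8 := lt_of_lt_of_le one_pos h8
  set ε : ℝ := 1 / (100 * (18 * C10 ^ 2 * C8 ^ 4 * (S + 1))) with hε
  have hε0 : 0 < ε := by positivity
  have hev := (Real.isLittleO_pow_log_id_atTop (n := 4)).def hε0
  obtain ⟨x, hx1, hx2⟩ := (hev.and (eventually_ge_atTop (max 16 (1 / q0)))).exists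
  have hx16 : 16 ≤ x := (le_max_left _ _).trans hx2
  have hxq : 1 / q0 ≤ x := (le_max_right _ _).trans hx2
  have hx0 : 0 < x := by linarith
  have hexp : Real.exp 1 ≤ 8 := by
    have := Real.exp_one_lt_d9
    linarith
  have hlx : 1 ≤ Real.log x := by
    rw [Real.le_log_iff_exp_le hx0]
    linarith
  have hlog4 : Real.log x ^ 4 ≤ ε * x := by
    have h1 := hx1
    rw [Real.norm_eq_abs, Real.norm_eq_abs] at h1
    have h2 : |id x| = x := abs_of_pos hx0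
    rw [h2] at h1
    exact (le_abs_self _).trans h1
  have e1 : 1 / (1 / x) = x := one_div_one_div x
  have e2 : 1 / (2 * (1 / x)) = x / 2 := by field_simp
  refine ⟨1 / x, by positivity, ?_, ?_, ?_, ?_, ?_⟩
  · rw [div_le_iff₀ hx0]
    rw [div_le_iff₀ h0] at hxq
    linarith
  · rw [div_le_div_iff₀ hx0 (by norm_num)]
    linarith
  · rw [e2, Real.le_log_iff_exp_le (by positivity)]
    linarith
  · rw [e1]
    nlinarith
  · intro J
    rw [e1]
    have hterm : ∀ j ∈ Finset.range J, (2 * (1 / x)) ^ (j + 1) *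
        (3 * C10 * ((j : ℝ) + 1) ^ 4 * (C8 * Real.log x) ^ 2) ^ 2 ≤
        (18 * C10 ^ 2 * C8 ^ 4 * ε) * (((j : ℝ) + 1) ^ 8 * (1 / 8 : ℝ) ^ j) := by
      intro j _
      have f1 : 2 * (1 / x) ≤ 1 / 8 := by
        rw [mul_one_div, div_le_div_iff₀ hx0 (by norm_num)]
        linarith
      have f2 : (2 * (1 / x)) ^ (j + 1) ≤ (2 * (1 / x)) * (1 / 8 : ℝ) ^ j := by
        rw [pow_succ, mul_comm]
        exact mul_le_mul_of_nonneg_left (pow_le_pow_left₀ (by positivity) f1 j) (by positivity)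
      have f3 : (3 * C10 * ((j : ℝ) + 1) ^ 4 * (C8 * Real.log x) ^ 2) ^ 2 =
          9 * C10 ^ 2 * C8 ^ 4 * ((j : ℝ) + 1) ^ 8 * Real.log x ^ 4 := by ring
      rw [f3]
      calc (2 * (1 / x)) ^ (j + 1) * (9 * C10 ^ 2 * C8 ^ 4 * ((j : ℝ) + 1) ^ 8 * Real.log x ^ 4)
          ≤ ((2 * (1 / x)) * (1 / 8 : ℝ) ^ j) *
            (9 * C10 ^ 2 * C8 ^ 4 * ((j : ℝ) + 1) ^ 8 * (ε * x)) := by
            apply mul_le_mul f2 _ (by positivity) (by positivity)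
            exact mul_le_mul_of_nonneg_left hlog4 (by positivity)
        _ = (18 * C10 ^ 2 * C8 ^ 4 * ε) * (((j : ℝ) + 1) ^ 8 * (1 / 8 : ℝ) ^ j) := by
            field_simp
            ring
    refine (Finset.sum_le_sum hterm).trans ?_
    rw [← Finset.mul_sum]
    have g1 : ∑ j ∈ Finset.range J, (((j : ℝ) + 1) ^ 8 * (1 / 8 : ℝ) ^ j) ≤ S :=
      hs.sum_le_tsum _ fun n _ => by positivity
    calc (18 * C10 ^ 2 * C8 ^ 4 * ε) * ∑ j ∈ Finset.range J, (((j : ℝ) + 1) ^ 8 * (1 / 8 : ℝ) ^ j)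
        ≤ (18 * C10 ^ 2 * C8 ^ 4 * ε) * (S + 1) :=
          mul_le_mul_of_nonneg_left (by linarith) (by positivity)
      _ = 1 / 100 := by
          rw [hε]
          field_simp

/-- The number of lanes `J = ⌈16 log N / log (1/q)⌉`: `q ^ ((J + 1) / 2) ≤ N ^ (-8)`. -/
theorem La_J {q : ℝ} (hq : 0 < q) (hq1 : 1 ≤ Real.log (1 / q)) {N : ℕ} (hN : 2 ≤ N) :
    ∃ J : ℕ, 1 ≤ J ∧ (J : ℝ) ≤ 20 * Real.log N ∧ (N : ℝ) ^ 8 * Real.sqrt (q ^ (J + 1)) ≤ 1 := by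
  have hN2 : (2 : ℝ) ≤ N := by exact_mod_cast hN
  have hN0 : (0 : ℝ) < N := by linarith
  have hL0 : 0 < Real.log (1 / q) := by linarith
  have hlog2 : 0.6931471803 < Real.log 2 := Real.log_two_gt_d9
  have hlogN : Real.log 2 ≤ Real.log N := Real.log_le_log (by norm_num) hN2
  have hlN0 : 0 < Real.log N := by linarith
  have hpos : 0 < 16 * Real.log N / Real.log (1 / q) := by positivity
  refine ⟨⌈16 * Real.log N / Real.log (1 / q)⌉₊, ?_, ?_, ?_⟩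
  · exact Nat.one_le_iff_ne_zero.2 (Nat.ceil_pos.2 hpos).ne'
  · have h1 := (Nat.ceil_lt_add_one hpos.le).le
    have h2 : 16 * Real.log N / Real.log (1 / q) ≤ 16 * Real.log N := by
      rw [div_le_iff₀ hL0]
      nlinarith
    linarith
  · set J : ℕ := ⌈16 * Real.log N / Real.log (1 / q)⌉₊ with hJ
    have h1 : 16 * Real.log N / Real.log (1 / q) ≤ J := Nat.le_ceil _
    rw [div_le_iff₀ hL0] at h1
    have hq2 : Real.log (1 / q) = -Real.log q := by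
      rw [one_div, Real.log_inv]
    have h2 : (N : ℝ) ^ 16 * q ^ (J + 1) ≤ 1 := by
      rw [← Real.log_nonpos_iff (by positivity), Real.log_mul (by positivity) (by positivity),
        Real.log_pow, Real.log_pow]
      push_cast
      rw [hq2] at h1 hL0
      nlinarith
    have h3 : (N : ℝ) ^ 8 * Real.sqrt (q ^ (J + 1)) = Real.sqrt ((N : ℝ) ^ 16 * q ^ (J + 1)) := by
      rw [Real.sqrt_mul (by positivity), show (N : ℝ) ^ 16 = ((N : ℝ) ^ 8) ^ 2 by ring,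
        Real.sqrt_sq (by positivity)]
    rw [h3, ← Real.sqrt_one]
    exact Real.sqrt_le_sqrt h2

end Pool.Agent.W_7d29a1_q
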