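import Pool.Agent.W_7d29a1_q.LaB
import Pool.Agent.W_7d29a1_q.LaC
import Pool.Agent.W_7d29a1_q.LaF
import Pool.Agent.W_7d29a1_q.LaG

/-!
Row 601, section 9: Lemma 9 (lanes), assembly.
-/

namespace Pool.Agent.W_7d29a1_q

open MeasureTheory ProbabilityTheory Filter Topology Pool.Agent.W_MP_7d29a1_pr
  Pool.Agent.W_7d29a1_h46 Pool.Agent.W_7d29a1_h46u Pool.Agent.W_7d29a1_h3

variable {d : ℕ}

/-- The second moment at one time `t > n(a/8)`. -/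
private theorem LaM_time (j0 : Fin d) {ρ : Measure ℝ} [IsProbabilityMeasure ρ] {β c a0 : ℝ} {N : ℕ}
    (hρ : EM ρ) (S : Sc d ρ β c a0 N) {C4 : ℝ} (hC4 : 0 < C4)
    (hfour : ∀ (t : ℕ) (z : Site d), adm (2 * t) z →
      Integrable (fun η : Env d => Real.log (Vp ρ β η (2 * t) z) ^ 4) (law d ρ) ∧
      ∫ η : Env d, Real.log (Vp ρ β η (2 * t) z) ^ 4 ∂(law d ρ) ≤ C4 * (t : ℝ) ^ 4)
    (hN : Real.sqrt C4 ≤ N) {q1 C10 K1 a a' : ℝ} (hq1 : 0 < q1) (hC10 : 1 ≤ C10) (hK1 : 1 ≤ K1)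
    (hsum : ∀ J : ℕ, ∑ j ∈ Finset.range J, (2 * q1) ^ (j + 1) *
        (3 * C10 * ((j : ℝ) + 1) ^ 4 * K1 ^ 2) ^ 2 ≤ 1 / 100)
    (ha : 100 ≤ a) (ham : a ≤ am d N) (ha' : 0 ≤ a') (haa : 64 * a' ≤ a)
    {J : ℕ} (hJ : (N : ℝ) ^ 8 * Real.sqrt ((2 * q1) ^ (J + 1)) ≤ 1)
    {r S' Y : ℕ} (hr : r ≤ nn d ρ β a) (ht : nn d ρ β a' + r + nn d ρ β a' ≤ nn d ρ β a)
    (hY : 2 * S' + 2 ≤ Y)
    (hF : (law d ρ).real {η : Env d | ¬ Real.exp (-(a / 16 + 1)) ≤ V ρ β η (stP (2 * r) S' 0)} ≤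
      2 * q1)
    (hG : ∀ j : ℕ, 1 ≤ j → j ≤ J → ∀ σ : ℤ, σ = 1 ∨ σ = -1 →
      (law d ρ).real {η : Env d | ¬ Tle ρ β η (nn d ρ β a') ((σ * ((j * Y : ℕ) : ℤ)) • es j0)
        (C10 * (j : ℝ) ^ 4 * K1 ^ 2 * a)} ≤ 3 / (1000 * (j : ℝ) ^ 2)) :
    AA d ρ β (nn d ρ β a' + r + nn d ρ β a') ≤ a / 2 := by
  have ha0 : 0 ≤ a := by linarith
  have ha'm : a' ≤ am d N := by linarith
  have hw := (wait_sq (β := β) j0 hρ (le_refl (nn d ρ β a'))).2
  have hw2 : SS d ρ β (nn d ρ β a') ^ 2 ≤ (a / 64) ^ 2 :=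
    pow_le_pow_left₀ (SS_nonneg _) ((SS_nn S ha' ha'm).trans (by linarith)) 2
  have hm := (wait_sq (β := β) j0 hρ hr).2
  have hm2 : SS d ρ β (nn d ρ β a) ^ 2 ≤ a ^ 2 :=
    pow_le_pow_left₀ (SS_nonneg _) (SS_nn S ha0 ham) 2
  set t := nn d ρ β a' + r + nn d ρ β a' with htdef
  have h4 : ∫ η : Env d, Real.log (Vp ρ β η (2 * t) 0) ^ 4 ∂(law d ρ) ≤
      (Real.sqrt C4 * (t : ℝ) ^ 2) ^ 2 := by
    refine (hfour t 0 (adm_zero t)).2.trans (le_of_eq ?_)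
    rw [mul_pow, Real.sq_sqrt hC4.le]
    ring
  have key := La_sum (J := J) (S := S') (Y := Y) (B := a / 16 + 1) (q := 2 * q1) (s := a / 64)
    (M := a) (K := Real.sqrt C4 * (t : ℝ) ^ 2) (u := fun j => C10 * (j : ℝ) ^ 4 * K1 ^ 2 * a)
    j0 hρ (by linarith) ha0 (by positivity) (by linarith) (fun j => by positivity) hY hF hG
    (hw.trans hw2) (hm.trans hm2) h4
  rw [← htdef] at key
  have hs : ∑ j ∈ Finset.range J, (2 * q1) ^ (j + 1) *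
      (2 * (C10 * (((j + 1 : ℕ) : ℝ)) ^ 4 * K1 ^ 2 * a) + (a / 16 + 1)) ^ 2 ≤ a ^ 2 / 100 := by
    have h1 : ∀ j ∈ Finset.range J, (2 * q1) ^ (j + 1) *
        (2 * (C10 * (((j + 1 : ℕ) : ℝ)) ^ 4 * K1 ^ 2 * a) + (a / 16 + 1)) ^ 2 ≤
        a ^ 2 * ((2 * q1) ^ (j + 1) * (3 * C10 * ((j : ℝ) + 1) ^ 4 * K1 ^ 2) ^ 2) := by
      intro j _
      have e1 : (1 : ℝ) ≤ C10 * ((j : ℝ) + 1) ^ 4 * K1 ^ 2 := by
        have h1 : (1 : ℝ) ≤ ((j : ℝ) + 1) ^ 4 := one_le_pow₀ (by linarith [Nat.cast_nonneg (α := ℝ) j])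
        have h2 : (1 : ℝ) ≤ K1 ^ 2 := one_le_pow₀ hK1
        have h3 : (1 : ℝ) ≤ C10 * ((j : ℝ) + 1) ^ 4 := one_le_mul_of_one_le_of_one_le hC10 h1
        exact one_le_mul_of_one_le_of_one_le h3 h2
      have e2 : 2 * (C10 * (((j + 1 : ℕ) : ℝ)) ^ 4 * K1 ^ 2 * a) + (a / 16 + 1) ≤
          a * (3 * C10 * ((j : ℝ) + 1) ^ 4 * K1 ^ 2) := by
        push_cast
        nlinarith [mul_le_mul_of_nonneg_right e1 ha0]
      have e3 : 0 ≤ 2 * (C10 * (((j + 1 : ℕ) : ℝ)) ^ 4 * K1 ^ 2 * a) + (a / 16 + 1) := by positivity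
      calc (2 * q1) ^ (j + 1) *
          (2 * (C10 * (((j + 1 : ℕ) : ℝ)) ^ 4 * K1 ^ 2 * a) + (a / 16 + 1)) ^ 2
          ≤ (2 * q1) ^ (j + 1) * (a * (3 * C10 * ((j : ℝ) + 1) ^ 4 * K1 ^ 2)) ^ 2 := by
            refine mul_le_mul_of_nonneg_left (pow_le_pow_left₀ e3 e2 2) (by positivity)
        _ = a ^ 2 * ((2 * q1) ^ (j + 1) * (3 * C10 * ((j : ℝ) + 1) ^ 4 * K1 ^ 2) ^ 2) := by ring
    refine (Finset.sum_le_sum h1).trans ?_
    rw [← Finset.mul_sum]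
    nlinarith [hsum J, sq_nonneg a]
  have hlast : Real.sqrt C4 * (t : ℝ) ^ 2 * Real.sqrt ((2 * q1) ^ (J + 1)) ≤ 1 := by
    have htN : (t : ℝ) ≤ N := by
      have h1 := nn_lt S ha0 ham
      have h2 : t ≤ N := by omega
      exact_mod_cast h2
    have hN1 : (1 : ℝ) ≤ N := by
      have h1 := nn_lt S ha0 ham
      have h2 : 1 ≤ N := by omega
      exact_mod_cast h2
    have e1 : Real.sqrt C4 * (t : ℝ) ^ 2 ≤ (N : ℝ) ^ 8 := by
      have e2 : (t : ℝ) ^ 2 ≤ (N : ℝ) ^ 2 := pow_le_pow_left₀ (Nat.cast_nonneg _) htN 2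
      have e3 : Real.sqrt C4 * (t : ℝ) ^ 2 ≤ (N : ℝ) * (N : ℝ) ^ 2 :=
        mul_le_mul hN e2 (by positivity) (by positivity)
      refine e3.trans ?_
      rw [← pow_succ']
      exact pow_le_pow_right₀ hN1 (by norm_num)
    exact (mul_le_mul_of_nonneg_right e1 (Real.sqrt_nonneg _)).trans hJ
  have htot : ∫ η : Env d, max (-Real.log (Vp ρ β η (2 * t) 0)) 0 ^ 2 ∂(law d ρ) ≤ (a / 2) ^ 2 := by
    refine key.trans ?_
    have := add_le_add (add_le_add (le_refl (3 * (2 * (a / 64) ^ 2 + (a / 16 + 1) ^ 2) +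
      3 * (2 * (a / 64) ^ 2 + a ^ 2 / 64))) hs) hlast
    refine this.trans ?_
    nlinarith
  unfold AA
  exact (Real.sqrt_le_sqrt htot).trans (le_of_eq (Real.sqrt_sq (by linarith)))

/-- SECTION 9, Lemma 9 (lanes). `T(2r,0) ≥ a/16` is written `Vp ≤ exp (-a/16)`. -/
theorem lanes (j0 : Fin d) {Λ g C3 ε1 : ℝ} {A : ℕ} (hT : TailProp d Λ g C3 ε1) (hA : NLProp d Λ A) :
    ∃ (q1 : ℝ) (i00 : ℕ), 0 < q1 ∧ q1 ≤ 1 / 16 ∧
    ∀ (ρ : Measure ℝ) [IsProbabilityMeasure ρ] (β c a0 : ℝ), EM ρ → ∀ᶠ N : ℕ in atTop,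
      Sc d ρ β c a0 N → ∀ (i0 i1 : ℕ) (η : ℝ) (k : ℕ), i00 ≤ i0 → i00 ≤ i1 → 0 < η → η ≤ 1 / 16 →
      Gd d ρ β a0 Λ A N i0 i1 η k → ∃ r ≤ nn d ρ β ((A : ℝ) ^ k),
        q1 ≤ (law d ρ).real {η' : Env d | Vp ρ β η' (2 * r) 0 ≤ Real.exp (-((A : ℝ) ^ k / 16))} := by
  have hΛ := hT.1
  have hA2 := hA.1
  obtain ⟨C8, q0, hC8, hq0, -, hmain⟩ := La_main j0 hT
  obtain ⟨C10, hC10, hclimb⟩ := La_climb (d := d) j0 hΛ hA2
  obtain ⟨q1, hq1, hq1q0, hq16, hlog2, hK1, hsum⟩ := La_num hC8 hC10 hq0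
  refine ⟨q1, 6, hq1, hq16, fun ρ _ β c a0 hρ => ?_⟩
  obtain ⟨C4, hC4, hfour⟩ := T_four j0 hρ β
  filter_upwards [hmain q1 hq1 hq1q0 ρ β c a0 hρ, hclimb _ hK1 ρ β c a0 hρ,
    La_gd hΛ hA2 ρ β c a0, (ThF_as_tendsto d).eventually_ge_atTop (100 + 8 * |a0|),
    tendsto_natCast_atTop_atTop.eventually_ge_atTop (Real.sqrt C4), eventually_ge_atTop 2] with
    N h1 h2 h3 has hNC hN2 S i0 i1 η k hi0 _ hη hη1 G
  set K1 := C8 * Real.log (1 / q1) with hK1def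
  obtain ⟨hp, -, hpa0, hb⟩ := h3 S i0 i1 η k hη G
  set p := pr d ρ β (Λ * (A : ℝ) ^ (k + i1)) with hpdef
  have hA1 : (1 : ℝ) ≤ A := by exact_mod_cast (by omega : 1 ≤ A)
  have hA2' : (2 : ℝ) ≤ A := by exact_mod_cast hA2
  have hik := G.ik
  set a : ℝ := (A : ℝ) ^ k with hadef
  have ha_pos : 0 < a := by positivity
  -- the budgets
  have hka : (A : ℝ) ^ (k - i0) ≤ a := pow_le_pow_right₀ hA1 (by omega)
  have hka' : (A : ℝ) ^ (k - i0) ≤ (A : ℝ) ^ (k - 6) := pow_le_pow_right₀ hA1 (by omega)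
  have hpow : a ≤ (A : ℝ) ^ (k + i1) := pow_le_pow_right₀ hA1 (by omega)
  have hLa : Λ * a ≤ Λ * (A : ℝ) ^ (k + i1) := mul_le_mul_of_nonneg_left hpow (by linarith)
  have haL : a ≤ Λ * a := by nlinarith
  obtain ⟨ha0, has4, ham, -, -, -, -⟩ := hb a hka (haL.trans hLa)
  obtain ⟨-, -, hLam, hpL, hpL2, -, hRL⟩ := hb (Λ * a) (hka.trans haL) hLa
  have has1 : 1 ≤ as d N := by linarith [abs_nonneg a0]
  have hasa : as d N ≤ a := by
    refine le_trans ?_ has4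
    exact le_self_pow₀ has1 (by norm_num)
  have haa0 : 100 + 8 * a0 ≤ a := by linarith [le_abs_self a0]
  have hone := S.one
  have h64 : 64 * (A : ℝ) ^ (k - 6) ≤ a := by
    have e : a = (A : ℝ) ^ 6 * (A : ℝ) ^ (k - 6) := by
      rw [← pow_add, hadef]
      congr 1
      omega
    rw [e]
    refine mul_le_mul_of_nonneg_right ?_ (by positivity)
    calc (64 : ℝ) = 2 ^ 6 := by norm_num
      _ ≤ (A : ℝ) ^ 6 := pow_le_pow_left₀ (by norm_num) hA2' 6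
  by_contra hcon
  push Not at hcon
  -- all times
  have hAA : ∀ t ≤ nn d ρ β a, AA d ρ β t ≤ a / 2 := by
    intro t ht
    rcases le_or_gt t (nn d ρ β (a / 8)) with htn | htn
    · have hn1 : 1 ≤ nn d ρ β (a / 8) := (le_nn S (by linarith)).2 (Or.inr (S.S1.trans (by linarith)))
      have h5 := AA_le_SS (d := d) (ρ := ρ) (β := β) htn hn1
      have h6 := SS_nn S (a := a / 8) (by linarith) (by linarith)
      linarith
    · set a' : ℝ := (A : ℝ) ^ (k - 6) with ha'def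
      have ha'0 : 0 ≤ a' := by positivity
      have h8 : 8 * nn d ρ β a' ≤ nn d ρ β (a / 8) := by
        have e1 := nn_mul j0 hρ S ha'0 8 (by push_cast; linarith)
        have e2 : nn d ρ β (((8 : ℕ) : ℝ) * a') ≤ nn d ρ β (a / 8) :=
          nn_mono S (by positivity) (by push_cast; linarith) (by linarith)
        exact e1.trans e2
      have htr : nn d ρ β a' + (t - 2 * nn d ρ β a') + nn d ρ β a' = t := by omega
      set r := t - 2 * nn d ρ β a' with hrdef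
      have hr : r ≤ nn d ρ β a := by omega
      -- the width
      set x : ℝ := K1 * (a / p) with hxdef
      have hap : 1 ≤ a / p := by
        rw [le_div_iff₀ hp]
        linarith
      have hx4 : 4 ≤ x := by
        have e1 : 100 ≤ a / p := by
          rw [le_div_iff₀ hp]
          have e2 : 100 + 8 * |a0| ≤ a := has.trans hasa
          have e3 : p ≤ a0 := hpa0
          have e5 : 100 * a0 ≤ a := by
            have e6 : (100 + 8 * |a0|) ^ 4 ≤ a := le_trans (pow_le_pow_left₀ (by positivity) has 4) has4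
            have e7 : |a0| = a0 := abs_of_pos (by linarith)
            rw [e7] at e6
            have e8 : 100 * a0 ≤ (100 + 8 * a0) ^ 2 := by nlinarith
            have e9 : (100 + 8 * a0) ^ 2 ≤ (100 + 8 * a0) ^ 4 :=
              pow_le_pow_right₀ (by linarith) (by norm_num)
            linarith
          nlinarith
        nlinarith
      obtain ⟨S', hS'⟩ : ∃ S' : ℕ, S' + 1 = ⌈x / 2⌉₊ := by
        have : 1 ≤ ⌈x / 2⌉₊ := Nat.one_le_ceil_iff.2 (by linarith)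
        exact ⟨⌈x / 2⌉₊ - 1, by omega⟩
      have hS1 : x ≤ 2 * ((S' : ℝ) + 1) := by
        have e1 := Nat.le_ceil (x / 2)
        rw [← hS'] at e1
        push_cast at e1
        linarith
      have hS2 : 2 * ((S' : ℝ) + 1) ≤ x + 2 := by
        have e1 := Nat.ceil_lt_add_one (a := x / 2) (by linarith)
        rw [← hS'] at e1
        push_cast at e1
        linarith
      have hF := h1 S a p hasa hLam hRL hp hpL (hpL2.trans (by nlinarith)) hpa0 r S' hr hS1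
        (by linarith) (hcon r hr).le
      obtain ⟨J, hJ1, hJ2, hJ3⟩ := La_J (q := 2 * q1) (by linarith) hlog2 hN2
      have hG : ∀ j : ℕ, 1 ≤ j → j ≤ J → ∀ σ : ℤ, σ = 1 ∨ σ = -1 →
          (law d ρ).real {η : Env d | ¬ Tle ρ β η (nn d ρ β a')
            ((σ * ((j * (2 * (S' + 1)) : ℕ) : ℤ)) • es j0) (C10 * (j : ℝ) ^ 4 * K1 ^ 2 * a)} ≤
            3 / (1000 * (j : ℝ) ^ 2) := by
        intro j hj1 hjJ σ hσ
        have e1 : (j : ℝ) ≤ 20 * Real.log N := by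
          have : (j : ℝ) ≤ J := by exact_mod_cast hjJ
          linarith
        refine h2 S i0 i1 η k hi0 hη hη1 G j (2 * (S' + 1)) σ hj1 e1 hσ (even_two_mul _) ?_
        push_cast
        have : 2 * K1 * (a / p) = 2 * x := by rw [hxdef]; ring
        rw [this]
        linarith
      have key := LaM_time j0 hρ S hC4 hfour hNC hq1 hC10 hK1 hsum (by linarith) ham ha'0 h64 hJ3 hr
        (by omega) (Y := 2 * (S' + 1)) (by omega) hF hG
      rw [htr] at key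
      exact key
  have hn1 : 1 ≤ nn d ρ β a := (le_nn S ham).2 (Or.inr (S.S1.trans (by linarith)))
  obtain ⟨t, ht, hts⟩ := exists_AA (d := d) (ρ := ρ) (β := β) hn1
  have h5 := le_SS_nn j0 hρ S ha_pos.le ham
  have h6 := hAA t ht
  linarith

end Pool.Agent.W_7d29a1_q
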