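import Pool.Agent.W_7d29a1_q.BasC

/-!
Row 601, section 7: (7.1) near equality in Minkowski, (7.2) reflection. (helper36)
-/

namespace Pool.Agent.W_7d29a1_q

open MeasureTheory ProbabilityTheory Filter Topology Pool.Agent.W_MP_7d29a1_pr
  Pool.Agent.W_7d29a1_h46 Pool.Agent.W_7d29a1_h46u Pool.Agent.W_7d29a1_h3

variable {d : ℕ} {ρ : Measure ℝ} [IsProbabilityMeasure ρ] {β : ℝ}

/-! ### The positive part of the cost of waiting -/

/-- `T(2t,0)_+`. -/
private noncomputable def NlA_p (ρ : Measure ℝ) (β : ℝ) (t : ℕ) (η : Env d) : ℝ :=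
  max (-Real.log (Vp ρ β η (2 * t) 0)) 0

private theorem NlA_p_nonneg (t : ℕ) (η : Env d) : 0 ≤ NlA_p ρ β t η := le_max_right _ _

private theorem NlA_meas (t : ℕ) : Measurable (NlA_p ρ β t : Env d → ℝ) :=
  ((Real.measurable_log.comp (measurable_V (toP (2 * t) (0 : Site d)))).neg).max measurable_const

private theorem NlA_int (j0 : Fin d) (hρ : EM ρ) (t : ℕ) :
    Integrable (NlA_p ρ β t : Env d → ℝ) (law d ρ) := (wait_mean j0 hρ (le_refl t)).1

private theorem NlA_int2 (j0 : Fin d) (hρ : EM ρ) (t : ℕ) :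
    Integrable (fun η : Env d => NlA_p ρ β t η ^ 2) (law d ρ) := (wait_sq j0 hρ (le_refl t)).1

private theorem NlA_q (t : ℕ) : ∫ η : Env d, NlA_p ρ β t η ^ 2 ∂(law d ρ) = AA d ρ β t ^ 2 := by
  unfold AA NlA_p
  rw [Real.sq_sqrt (integral_nonneg fun η => sq_nonneg _)]

private theorem NlA_sub (j0 : Fin d) (s t : ℕ) (η : Env d) :
    NlA_p ρ β (s + t) η ≤ NlA_p ρ β s η + NlA_p ρ β t (sh (2 * s) 0 η) := by
  unfold NlA_p
  have p1 : 0 < Vp ρ β η (2 * s) 0 := Vp_pos j0 η (adm_zero s)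
  have p2 : 0 < Vp ρ β (sh (2 * s) 0 η) (2 * t) 0 := Vp_pos j0 _ (adm_zero t)
  have h2 := Vp_add (ρ := ρ) (β := β) η (2 * s) (2 * t) (0 : Site d) 0
  rw [← mul_add, add_zero] at h2
  have h3 := Real.log_le_log (mul_pos p1 p2) h2
  rw [Real.log_mul p1.ne' p2.ne'] at h3
  refine max_le ?_ (add_nonneg (le_max_right _ _) (le_max_right _ _))
  have h4 := le_max_left (-Real.log (Vp ρ β η (2 * s) 0)) 0
  have h5 := le_max_left (-Real.log (Vp ρ β (sh (2 * s) 0 η) (2 * t) 0)) 0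
  linarith

private theorem NlA_shint (j0 : Fin d) (hρ : EM ρ) (s t : ℕ) :
    Integrable (fun η : Env d => NlA_p ρ β t (sh (2 * s) 0 η)) (law d ρ) ∧
    ∫ η : Env d, NlA_p ρ β t (sh (2 * s) 0 η) ∂(law d ρ) = ∫ η : Env d, NlA_p ρ β t η ∂(law d ρ) :=
  ⟨(mp_sh (2 * s) (0 : Site d)).integrable_comp_of_integrable (NlA_int j0 hρ t),
    integral_sh (2 * s) (0 : Site d) (NlA_meas t)⟩

private theorem NlA_shint2 (j0 : Fin d) (hρ : EM ρ) (s t : ℕ) :
    Integrable (fun η : Env d => NlA_p ρ β t (sh (2 * s) 0 η) ^ 2) (law d ρ) ∧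
    ∫ η : Env d, NlA_p ρ β t (sh (2 * s) 0 η) ^ 2 ∂(law d ρ) = AA d ρ β t ^ 2 := by
  refine ⟨(mp_sh (2 * s) (0 : Site d)).integrable_comp_of_integrable (NlA_int2 j0 hρ t), ?_⟩
  rw [← NlA_q]
  exact integral_sh (2 * s) (0 : Site d) ((NlA_meas t).pow_const 2)

private theorem NlA_indep (s t : ℕ) :
    ∫ η : Env d, NlA_p ρ β s η * NlA_p ρ β t (sh (2 * s) 0 η) ∂(law d ρ) =
      (∫ η : Env d, NlA_p ρ β s η ∂(law d ρ)) *
        ∫ η : Env d, NlA_p ρ β t (sh (2 * s) 0 η) ∂(law d ρ) := by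
  refine integral_indep (ρ := ρ) {p : ℕ × Site d | p.1 ≤ 2 * s} (F := NlA_p ρ β s)
    (G := fun η => NlA_p ρ β t (sh (2 * s) 0 η)) (NlA_meas s)
    ((NlA_meas t).comp (mp_sh (ρ := ρ) (2 * s) (0 : Site d)).measurable) ?_ ?_
  · intro η η' h
    have h1 : V ρ β (sh 0 0 η) (toP (2 * s) (0 : Site d)) =
        V ρ β (sh 0 0 η') (toP (2 * s) (0 : Site d)) :=
      dep_V_sh (ρ := ρ) (β := β) 0 (0 : Site d) (toP (2 * s) (0 : Site d)) fun p hp => h p (by
        show p.1 ≤ 2 * s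
        have := hp.2
        omega)
    rw [sh_zero, sh_zero] at h1
    show max (-Real.log (V ρ β η (toP (2 * s) (0 : Site d)))) 0 =
      max (-Real.log (V ρ β η' (toP (2 * s) (0 : Site d)))) 0
    rw [h1]
  · intro η η' h
    have h1 : V ρ β (sh (2 * s) 0 η) (toP (2 * t) (0 : Site d)) =
        V ρ β (sh (2 * s) 0 η') (toP (2 * t) (0 : Site d)) :=
      dep_V_sh (ρ := ρ) (β := β) (2 * s) (0 : Site d) (toP (2 * t) (0 : Site d)) fun p hp => h p (by
        show ¬ p.1 ≤ 2 * s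
        have := hp.1
        omega)
    show max (-Real.log (V ρ β (sh (2 * s) 0 η) (toP (2 * t) (0 : Site d)))) 0 =
      max (-Real.log (V ρ β (sh (2 * s) 0 η') (toP (2 * t) (0 : Site d)))) 0
    rw [h1]

private theorem NlA_mean_nonneg (t : ℕ) : 0 ≤ ∫ η : Env d, NlA_p ρ β t η ∂(law d ρ) :=
  integral_nonneg fun η => NlA_p_nonneg t η

private theorem NlA_mean_add (j0 : Fin d) (hρ : EM ρ) (s t : ℕ) :
    ∫ η : Env d, NlA_p ρ β (s + t) η ∂(law d ρ) ≤
      ∫ η : Env d, NlA_p ρ β s η ∂(law d ρ) + ∫ η : Env d, NlA_p ρ β t η ∂(law d ρ) := by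
  obtain ⟨i1, e1⟩ := NlA_shint (β := β) j0 hρ s t
  rw [← e1, ← integral_add (NlA_int j0 hρ s) i1]
  exact integral_mono (NlA_int j0 hρ (s + t)) ((NlA_int j0 hρ s).add i1) fun η => NlA_sub j0 s t η

private theorem NlA_sq_add (j0 : Fin d) (hρ : EM ρ) (s t : ℕ) :
    AA d ρ β (s + t) ^ 2 ≤ AA d ρ β s ^ 2 +
      2 * ((∫ η : Env d, NlA_p ρ β s η ∂(law d ρ)) * ∫ η : Env d, NlA_p ρ β t η ∂(law d ρ)) +
        AA d ρ β t ^ 2 := by
  obtain ⟨-, e1⟩ := NlA_shint (β := β) j0 hρ s t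
  obtain ⟨i2, e2⟩ := NlA_shint2 (β := β) j0 hρ s t
  have i1 := NlA_int2 (β := β) j0 hρ s
  have i3 : Integrable (fun η : Env d => NlA_p ρ β s η * NlA_p ρ β t (sh (2 * s) 0 η)) (law d ρ) := by
    refine (i1.add i2).mono' ((NlA_meas s).mul
      ((NlA_meas t).comp (mp_sh (ρ := ρ) (2 * s) (0 : Site d)).measurable)).aestronglyMeasurable
      (Filter.Eventually.of_forall fun η => ?_)
    rw [Real.norm_eq_abs, abs_of_nonneg (mul_nonneg (NlA_p_nonneg _ _) (NlA_p_nonneg _ _))]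
    show NlA_p ρ β s η * NlA_p ρ β t (sh (2 * s) 0 η) ≤
      NlA_p ρ β s η ^ 2 + NlA_p ρ β t (sh (2 * s) 0 η) ^ 2
    nlinarith [sq_nonneg (NlA_p ρ β s η - NlA_p ρ β t (sh (2 * s) 0 η)),
      mul_nonneg (NlA_p_nonneg (ρ := ρ) (β := β) s η)
        (NlA_p_nonneg (ρ := ρ) (β := β) t (sh (2 * s) 0 η))]
  have i4 : Integrable (fun η : Env d =>
      2 * (NlA_p ρ β s η * NlA_p ρ β t (sh (2 * s) 0 η))) (law d ρ) := i3.const_mul 2
  have i5 : Integrable (fun η : Env d => NlA_p ρ β s η ^ 2 +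
      2 * (NlA_p ρ β s η * NlA_p ρ β t (sh (2 * s) 0 η))) (law d ρ) := i1.add i4
  have h1 : AA d ρ β (s + t) ^ 2 ≤ ∫ η : Env d, (NlA_p ρ β s η ^ 2 +
      2 * (NlA_p ρ β s η * NlA_p ρ β t (sh (2 * s) 0 η)) + NlA_p ρ β t (sh (2 * s) 0 η) ^ 2)
      ∂(law d ρ) := by
    rw [← NlA_q]
    refine integral_mono (NlA_int2 j0 hρ (s + t)) (i5.add i2) fun η => ?_
    have h2 := pow_le_pow_left₀ (NlA_p_nonneg (s + t) η) (NlA_sub (ρ := ρ) (β := β) j0 s t η) 2
    refine h2.trans (le_of_eq ?_)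
    ring
  rw [integral_add i5 i2, integral_add i1 i4, integral_const_mul, NlA_indep, e1, e2,
    NlA_q] at h1
  exact h1

private theorem NlA_iter (j0 : Fin d) (hρ : EM ρ) (N j : ℕ) :
    ∫ η : Env d, NlA_p ρ β (j * N) η ∂(law d ρ) ≤ j * ∫ η : Env d, NlA_p ρ β N η ∂(law d ρ) ∧
    AA d ρ β (j * N) ^ 2 ≤ j * AA d ρ β N ^ 2 +
      j * ((j : ℝ) - 1) * (∫ η : Env d, NlA_p ρ β N η ∂(law d ρ)) ^ 2 := by
  obtain ⟨m, hm⟩ : ∃ m : ℝ, m = ∫ η : Env d, NlA_p ρ β N η ∂(law d ρ) := ⟨_, rfl⟩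
  have hm0 : 0 ≤ m := by
    rw [hm]
    exact NlA_mean_nonneg N
  rw [← hm]
  induction j with
  | zero =>
    have h0 : ∀ η : Env d, NlA_p ρ β 0 η = 0 := by
      intro η
      have h1 : Tle ρ β η 0 0 0 := Tle_zero η le_rfl
      unfold Tle at h1
      rw [neg_zero, Real.exp_zero] at h1
      have h2 := Real.log_nonneg h1
      unfold NlA_p
      exact max_eq_right (by linarith)
    have h1 : AA d ρ β 0 ^ 2 = 0 := by
      rw [← NlA_q]
      simp [h0]
    rw [zero_mul, h1]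
    simp [h0]
  | succ j ih =>
    obtain ⟨ih1, ih2⟩ := ih
    have h1 := NlA_mean_add (β := β) j0 hρ (j * N) N
    have h2 := NlA_sq_add (β := β) j0 hρ (j * N) N
    rw [← hm] at h1 h2
    rw [Nat.succ_mul]
    push_cast
    refine ⟨by linarith, ?_⟩
    have h3 : (∫ η : Env d, NlA_p ρ β (j * N) η ∂(law d ρ)) * m ≤ j * m * m :=
      mul_le_mul_of_nonneg_right ih1 hm0
    nlinarith

/-- (7.1): the probability of an unusually cheap wait. -/
private theorem NlA_cheap (j0 : Fin d) (hρ : EM ρ) {N L : ℕ} (hN : 1 ≤ N) (hL : 2 ^ 10 ≤ L)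
    (h2 : ((L : ℝ) - 1) * SS d ρ β N ≤ SS d ρ β (L * N)) :
    (law d ρ).real {η : Env d | Tle ρ β η N 0 (7 / 8 * SS d ρ β N)} ≤ 1024 / Real.sqrt L := by
  obtain ⟨S, hS⟩ : ∃ S : ℝ, S = SS d ρ β N := ⟨_, rfl⟩
  obtain ⟨m, hm⟩ : ∃ m : ℝ, m = ∫ η : Env d, NlA_p ρ β N η ∂(law d ρ) := ⟨_, rfl⟩
  obtain ⟨l, hl⟩ : ∃ l : ℝ, l = Real.sqrt L := ⟨_, rfl⟩
  have hLR : (2 : ℝ) ^ 10 ≤ L := by exact_mod_cast hL
  have hl0 : 0 ≤ l := by
    rw [hl]
    exact Real.sqrt_nonneg _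
  have hl2 : l ^ 2 = L := by
    rw [hl, Real.sq_sqrt (by positivity)]
  have hl32 : 32 ≤ l := by
    rw [hl]
    apply Real.le_sqrt_of_sq_le
    linarith [hLR, (by norm_num : (32 : ℝ) ^ 2 = 2 ^ 10)]
  have hm0 : 0 ≤ m := by
    rw [hm]
    exact NlA_mean_nonneg N
  have hS1 : 1 ≤ S := by
    rw [hS]
    exact one_le_SS hN
  have hmS : m ≤ S := by
    rw [hm, hS]
    exact (wait_mean j0 hρ (le_refl N)).2
  have hA0 : 0 ≤ AA d ρ β N := Real.sqrt_nonneg _
  have hAS : AA d ρ β N ≤ S := by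
    rw [hS]
    have := AA_le_SS (d := d) (ρ := ρ) (β := β) (le_refl N) hN
    linarith
  rw [← hS] at h2
  rw [← hS, ← hl]
  -- the lower bound of the mean
  have hmean : (l - 2) * S ≤ l * m := by
    obtain ⟨t0, ht0, h3⟩ := exists_AA (d := d) (ρ := ρ) (β := β) (n := L * N) (by
      have : 1 * 1 ≤ L * N := Nat.mul_le_mul (by omega) hN
      omega)
    rw [h3] at h2
    have hlow : (L - 2) * N < t0 := by
      by_contra hcon
      push Not at hcon
      have h4 := AA_le_SS (d := d) (ρ := ρ) (β := β) hcon (by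
        have : 1 * 1 ≤ (L - 2) * N := Nat.mul_le_mul (by omega) hN
        omega)
      have h5 := SS_mul (β := β) j0 hρ (L - 2) N
      rw [← hS, Nat.cast_sub (by omega)] at h5
      push_cast at h5
      nlinarith
    obtain ⟨r, hr⟩ : ∃ r : ℕ, r = t0 - (L - 2) * N := ⟨_, rfl⟩
    have hr2 : r ≤ 2 * N := by
      have h4 : L * N = (L - 2) * N + 2 * N := by
        rw [← add_mul]
        congr 1
        omega
      omega
    have h4 : AA d ρ β t0 ≤ AA d ρ β ((L - 2) * N) + (AA d ρ β (min r N) + AA d ρ β (r - min r N)) := by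
      have h5 := AA_add (β := β) j0 hρ ((L - 2) * N) r
      have h6 := AA_add (β := β) j0 hρ (min r N) (r - min r N)
      rw [show (L - 2) * N + r = t0 by omega] at h5
      rw [show min r N + (r - min r N) = r by omega] at h6
      linarith
    have h5 : AA d ρ β (min r N) ≤ S - 1 := by
      rw [hS]
      exact AA_le_SS (min_le_right _ _) hN
    have h6 : AA d ρ β (r - min r N) ≤ S - 1 := by
      rw [hS]
      exact AA_le_SS (by omega) hN
    have h7 := (NlA_iter (β := β) j0 hρ N (L - 2)).2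
    rw [← hm, Nat.cast_sub (by omega)] at h7
    push_cast at h7
    have h8 : AA d ρ β ((L - 2) * N) ≤ l * S + ((L : ℝ) - 2) * m := by
      have h9 : 0 ≤ l * S + ((L : ℝ) - 2) * m :=
        add_nonneg (mul_nonneg hl0 (by linarith)) (mul_nonneg (by linarith) hm0)
      refine le_of_sq_le_sq ?_ h9
      have h10 : AA d ρ β N ^ 2 ≤ S ^ 2 := pow_le_pow_left₀ hA0 hAS 2
      have h11 : ((L : ℝ) - 2) * AA d ρ β N ^ 2 ≤ L * S ^ 2 := by
        have h12 : ((L : ℝ) - 2) * AA d ρ β N ^ 2 ≤ (L - 2) * S ^ 2 :=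
          mul_le_mul_of_nonneg_left h10 (by linarith)
        nlinarith [sq_nonneg S]
      have h13 : ((L : ℝ) - 2) * (L - 2 - 1) * m ^ 2 ≤ ((L - 2) * m) ^ 2 := by
        have : 0 ≤ ((L : ℝ) - 2) * m ^ 2 := mul_nonneg (by linarith) (sq_nonneg m)
        nlinarith
      have h14 : 0 ≤ l * S * (((L : ℝ) - 2) * m) :=
        mul_nonneg (mul_nonneg hl0 (by linarith)) (mul_nonneg (by linarith) hm0)
      have h15 : (l * S) ^ 2 = L * S ^ 2 := by
        rw [mul_pow, hl2]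
      nlinarith
    have h9 : (l ^ 2 - l - 3) * S ≤ (l ^ 2 - 2) * m := by
      rw [hl2]
      nlinarith
    have h10 : (l - 2) * S * (l ^ 2 - 2) ≤ l * m * (l ^ 2 - 2) := by
      have h11 := mul_le_mul_of_nonneg_left h9 hl0
      have h12 : 0 ≤ (l ^ 2 - l - 4) * S := mul_nonneg (by nlinarith) (by linarith)
      nlinarith
    exact le_of_mul_le_mul_right h10 (by nlinarith)
  -- the variance
  have hvar : ∫ η : Env d, (NlA_p ρ β N η - m) ^ 2 ∂(law d ρ) ≤ 4 * S ^ 2 / l := by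
    have e : ∀ η : Env d, (NlA_p ρ β N η - m) ^ 2 =
        (NlA_p ρ β N η ^ 2 + (-(2 * m)) * NlA_p ρ β N η) + m ^ 2 := fun η => by ring
    have j1 : Integrable (fun η : Env d => -(2 * m) * NlA_p ρ β N η) (law d ρ) :=
      (NlA_int j0 hρ N).const_mul _
    have j2 : Integrable (fun η : Env d => NlA_p ρ β N η ^ 2 + -(2 * m) * NlA_p ρ β N η)
        (law d ρ) := (NlA_int2 j0 hρ N).add j1
    simp only [e]
    rw [integral_add j2 (integrable_const _), integral_add (NlA_int2 j0 hρ N) j1,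
      integral_const_mul, ← hm, NlA_q, integral_const]
    simp only [probReal_univ, one_smul]
    have hl' : 0 < l := by linarith
    rw [le_div_iff₀ hl']
    have h10 : AA d ρ β N ^ 2 ≤ S ^ 2 := pow_le_pow_left₀ hA0 hAS 2
    have h11 : (AA d ρ β N ^ 2 + -(2 * m) * m + m ^ 2) * l ≤ (S ^ 2 - m ^ 2) * l :=
      mul_le_mul_of_nonneg_right (by nlinarith) hl'.le
    refine h11.trans ?_
    have h12 : l * (S - m) ≤ 2 * S := by nlinarith
    have h13 : l * (S - m) * (S + m) ≤ 2 * S * (S + m) :=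
      mul_le_mul_of_nonneg_right h12 (by linarith)
    nlinarith
  -- Chebyshev
  have hvi : Integrable (fun η : Env d => (NlA_p ρ β N η - m) ^ 2) (law d ρ) := by
    have e : (fun η : Env d => (NlA_p ρ β N η - m) ^ 2) = fun η : Env d =>
        (NlA_p ρ β N η ^ 2 + (-(2 * m)) * NlA_p ρ β N η) + m ^ 2 := by
      funext η
      ring
    rw [e]
    exact ((NlA_int2 j0 hρ N).add ((NlA_int j0 hρ N).const_mul _)).add (integrable_const _)
  have hmk := mul_meas_ge_le_integral_of_nonneg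
    (Filter.Eventually.of_forall fun η : Env d => sq_nonneg (NlA_p ρ β N η - m)) hvi ((S / 16) ^ 2)
  have hsub : {η : Env d | Tle ρ β η N 0 (7 / 8 * S)} ⊆
      {η : Env d | (S / 16) ^ 2 ≤ (NlA_p ρ β N η - m) ^ 2} := by
    intro η hη
    have h3 : Real.exp (-(7 / 8 * S)) ≤ Vp ρ β η (2 * N) 0 := hη
    have h4 : -(7 / 8 * S) ≤ Real.log (Vp ρ β η (2 * N) 0) :=
      (Real.le_log_iff_exp_le ((Real.exp_pos _).trans_le h3)).2 h3
    have h5 : NlA_p ρ β N η ≤ 7 / 8 * S := max_le (by linarith) (by linarith)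
    have h6 : 15 / 16 * S ≤ m := by
      have h7 : l * (15 / 16 * S) ≤ l * m := by nlinarith
      exact le_of_mul_le_mul_left h7 (by linarith)
    show (S / 16) ^ 2 ≤ (NlA_p ρ β N η - m) ^ 2
    have h7 : S / 16 ≤ m - NlA_p ρ β N η := by linarith
    have h8 := pow_le_pow_left₀ (by linarith : 0 ≤ S / 16) h7 2
    linarith [h8, (by ring : (NlA_p ρ β N η - m) ^ 2 = (m - NlA_p ρ β N η) ^ 2)]
  have h3 := measureReal_mono (μ := law d ρ) hsub
  have hl' : 0 < l := by linarith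
  rw [le_div_iff₀ hl']
  have hS2 : 0 < (S / 16) ^ 2 := by positivity
  have h4 : (S / 16) ^ 2 * (law d ρ).real {η : Env d | Tle ρ β η N 0 (7 / 8 * S)} ≤ 4 * S ^ 2 / l :=
    (mul_le_mul_of_nonneg_left h3 hS2.le).trans (hmk.trans hvar)
  rw [le_div_iff₀ hl'] at h4
  have h5 : (S / 16) ^ 2 * ((law d ρ).real {η : Env d | Tle ρ β η N 0 (7 / 8 * S)} * l) ≤
      (S / 16) ^ 2 * 1024 := by nlinarith
  exact le_of_mul_le_mul_left h5 hS2

/-- (7.1), (7.2). -/
theorem nl_point (j0 : Fin d) (hρ : EM ρ) {n k L : ℕ} (hk : 4 ≤ k) (hL : 2 ^ 10 ≤ L) (hn : 1 ≤ n)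
    {a : ℝ} (ha : 0 ≤ a) (h1 : (2 * (k : ℝ) - 1) * a ≤ SS d ρ β (2 * k * n))
    (h2 : ((L : ℝ) - 1) * SS d ρ β (2 * k * n) ≤ SS d ρ β (L * (2 * k * n))) (z : Site d) :
    (law d ρ).real {η : Env d | Tle ρ β η (k * n) z (3 / 4 * k * a)} ≤
      32 * (L : ℝ) ^ (-(1 / 4) : ℝ) := by
  classical
  have hkR : (4 : ℝ) ≤ k := by exact_mod_cast hk
  have hLR : (2 : ℝ) ^ 10 ≤ L := by exact_mod_cast hL
  have hN : 1 ≤ 2 * k * n := by
    have : 1 * 1 ≤ 2 * k * n := Nat.mul_le_mul (by omega) hn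
    omega
  have hcheap := NlA_cheap j0 hρ hN hL h2
  obtain ⟨u, hu⟩ : ∃ u : ℝ, u = 3 / 4 * k * a := ⟨_, rfl⟩
  rw [← hu]
  obtain ⟨A, hA⟩ : ∃ A : Bool → Set (Env d), A = fun b =>
      if b then {η : Env d | Tle ρ β η (k * n) z u} else
        {η : Env d | Tle ρ β (sh (2 * (k * n)) z η) (k * n) (-z) u} := ⟨_, rfl⟩
  have hAt : A true = {η : Env d | Tle ρ β η (k * n) z u} := by rw [hA]; rfl
  have hAf : A false = {η : Env d | Tle ρ β (sh (2 * (k * n)) z η) (k * n) (-z) u} := by rw [hA]; rfl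
  have hsame : (law d ρ).real (A false) = (law d ρ).real (A true) := by
    rw [hAf, hAt, real_Tle_sh]
    have h3 : (-z : Site d) = sAct (Equiv.refl (Fin d)) (fun _ => false) z := by
      funext j
      simp [sAct]
    rw [h3, real_Tle_act]
  have hind := indep_events (ρ := ρ) (Finset.univ : Finset Bool) A
    (fun b => if b then {p : ℕ × Site d | p.1 ≤ 2 * (k * n)} else {p | 2 * (k * n) < p.1})
    (by
      intro b _
      cases b
      · rw [hAf]
        exact (mp_sh (ρ := ρ) (2 * (k * n)) z).measurable (measurableSet_Tle _ _ u)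
      · rw [hAt]
        exact measurableSet_Tle _ _ u)
    (by
      intro b _ η η' h
      cases b
      · rw [hAf]
        exact dep_Tle fun p hp _ => h p (by simpa using hp)
      · rw [hAt]
        have h3 := dep_Tle (ρ := ρ) (β := β) (s := 0) (t := k * n) (x := (0 : Site d)) (z := z)
          (u := u) (η := η) (η' := η') (fun p _ hp2 => h p (by
            simp only [if_true]
            show p.1 ≤ 2 * (k * n)
            omega))
        rw [Nat.mul_zero, sh_zero, sh_zero] at h3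
        exact h3)
    (by
      intro b _ b' _ hb
      cases b <;> cases b'
      · exact absurd rfl hb
      · refine Set.disjoint_left.2 fun p hp hp' => ?_
        simp only [if_true] at hp'
        have h3 : 2 * (k * n) < p.1 := by simpa using hp
        have h4 : p.1 ≤ 2 * (k * n) := hp'
        omega
      · refine Set.disjoint_left.2 fun p hp hp' => ?_
        simp only [if_true] at hp
        have h3 : 2 * (k * n) < p.1 := by simpa using hp'
        have h4 : p.1 ≤ 2 * (k * n) := hp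
        omega
      · exact absurd rfl hb)
  rw [Fintype.prod_bool, hsame] at hind
  have hsub : {η : Env d | ∀ b ∈ (Finset.univ : Finset Bool), η ∈ A b} ⊆
      {η : Env d | Tle ρ β η (2 * k * n) 0 (7 / 8 * SS d ρ β (2 * k * n))} := by
    intro η hη
    have h3 : Tle ρ β η (k * n) z u := by
      have := hη true (Finset.mem_univ _)
      rwa [hAt] at this
    have h4 : Tle ρ β (sh (2 * (k * n)) z η) (k * n) (-z) u := by
      have := hη false (Finset.mem_univ _)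
      rwa [hAf] at this
    have h5 := Tle_add h3 h4
    rw [add_neg_cancel, show k * n + k * n = 2 * k * n by ring] at h5
    refine Tle_mono h5 ?_
    rw [hu]
    have h6 : 3 / 2 * (k : ℝ) * a ≤ 7 / 8 * ((2 * k - 1) * a) := by nlinarith
    linarith
  have h3 := (measureReal_mono (μ := law d ρ) hsub).trans hcheap
  rw [hind, hAt] at h3
  have hL0 : (0 : ℝ) ≤ L := by positivity
  have h4 : ((32 : ℝ) * (L : ℝ) ^ (-(1 / 4) : ℝ)) ^ 2 = 1024 / Real.sqrt L := by
    have h5 : ((L : ℝ) ^ (-(1 / 4) : ℝ)) ^ 2 = (Real.sqrt L)⁻¹ := by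
      rw [← Real.rpow_natCast ((L : ℝ) ^ (-(1 / 4) : ℝ)) 2, ← Real.rpow_mul hL0,
        Real.sqrt_eq_rpow, ← Real.rpow_neg hL0]
      norm_num
    rw [mul_pow, h5]
    norm_num
    rfl
  rw [← h4, ← sq] at h3
  exact le_of_sq_le_sq h3 (by positivity)

end Pool.Agent.W_7d29a1_q
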