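import Pool.Agent.W_7d29a1_q.NlDefs

/-!
Row 601, (7.3): cells. TASK NlC.
-/

namespace Pool.Agent.W_7d29a1_q

open MeasureTheory ProbabilityTheory Filter Topology Pool.Agent.W_MP_7d29a1_pr
  Pool.Agent.W_7d29a1_h46 Pool.Agent.W_7d29a1_h46u Pool.Agent.W_7d29a1_h3

variable {d : ℕ} {ρ : Measure ℝ} [IsProbabilityMeasure ρ] {β : ℝ}

private theorem NlC_shift (t s : ℕ) (x w : Site d) (u : ℝ) :
    MeasurableSet {η : Env d | Tle ρ β (sh s x η) t w u} :=
  (measurable_sh s x) (measurableSet_Tle (ρ := ρ) (β := β) t w u)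

private theorem NlC_ln_neg (y : Site d) : ln (-y) = ln y := by
  unfold ln
  refine Finset.sum_congr rfl fun j _ => ?_
  rw [Pi.neg_apply, Int.natAbs_neg]

/-- The first of finitely many events of a window, then an event of the other rows. -/
private theorem NlC_first (I : Finset (Site d × Site d)) (G B : Site d × Site d → Set (Env d))
    (U : Set (ℕ × Site d)) (hGm : ∀ i, MeasurableSet (G i)) (hBm : ∀ i, MeasurableSet (B i))
    (hG : ∀ i, ∀ η η' : Env d, (∀ p ∈ U, η p = η' p) → (η ∈ G i ↔ η' ∈ G i))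
    (hB : ∀ i, ∀ η η' : Env d, (∀ p ∉ U, η p = η' p) → (η ∈ B i ↔ η' ∈ B i)) {q : ℝ}
    (hq : ∀ i ∈ I, q ≤ (law d ρ).real (B i)) :
    q * (law d ρ).real {η | ∃ i ∈ I, η ∈ G i} ≤ (law d ρ).real {η | ∃ i ∈ I, η ∈ G i ∧ η ∈ B i} := by
  classical
  set e := I.equivFin with he
  obtain ⟨g, hg⟩ : ∃ g : Fin I.card → Site d × Site d, ∀ k, g k = (e.symm k).1 := ⟨_, fun _ => rfl⟩
  have hgI : ∀ k, g k ∈ I := fun k => by
    rw [hg]
    exact (e.symm k).2
  have hgs : ∀ i ∈ I, ∃ k, g k = i := fun i hi => ⟨e ⟨i, hi⟩, by rw [hg]; simp⟩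
  obtain ⟨A, hA⟩ : ∃ A : Fin I.card → Set (Env d), ∀ k, A k =
      G (g k) ∩ ⋂ j, ⋂ (_ : j < k), (G (g j))ᶜ := ⟨_, fun _ => rfl⟩
  have hAmem : ∀ k η, η ∈ A k ↔ η ∈ G (g k) ∧ ∀ j < k, η ∉ G (g j) := by
    intro k η
    rw [hA]
    simp only [Set.mem_inter_iff, Set.mem_iInter, Set.mem_compl_iff]
  have h1 := sm_ge (ρ := ρ) (Finset.univ : Finset (Fin I.card)) A (fun k => B (g k)) (fun _ => U)
    (fun k _ => by
      rw [hA]
      exact (hGm _).inter (MeasurableSet.iInter fun j => MeasurableSet.iInter fun _ => (hGm _).compl))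
    (fun k _ => hBm _)
    (fun k _ η η' h => by
      rw [hAmem, hAmem, hG (g k) η η' h]
      refine and_congr_right fun _ => forall_congr' fun j => ?_
      rw [hG (g j) η η' h])
    (fun k _ η η' h => hB (g k) η η' h)
    (fun k _ j _ hkj => by
      rw [Set.disjoint_left]
      intro η hk hj
      rw [hAmem] at hk hj
      rcases lt_or_gt_of_ne hkj with h | h
      · exact hj.2 k h hk.1
      · exact hk.2 j h hj.1)
    (q := q) (fun k _ => hq _ (hgI k))
  have e1 : {η : Env d | ∃ k ∈ (Finset.univ : Finset (Fin I.card)), η ∈ A k} =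
      {η | ∃ i ∈ I, η ∈ G i} := by
    ext η
    constructor
    · rintro ⟨k, -, hk⟩
      exact ⟨g k, hgI k, ((hAmem k η).1 hk).1⟩
    · rintro ⟨i, hi, hGi⟩
      obtain ⟨k0, hk0⟩ := hgs i hi
      obtain ⟨m, hm, hmin⟩ := (wellFounded_lt (α := Fin I.card)).has_min {k | η ∈ G (g k)}
        ⟨k0, by
          show η ∈ G (g k0)
          rw [hk0]
          exact hGi⟩
      refine ⟨m, Finset.mem_univ _, (hAmem m η).2 ⟨hm, fun j hj hjG => hmin j hjG hj⟩⟩
  rw [e1] at h1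
  refine h1.trans (measureReal_mono ?_ (measure_ne_top _ _))
  rintro η ⟨k, -, hk, hk'⟩
  exact ⟨g k, hgI k, ((hAmem k η).1 hk).1, hk'⟩

/-- (7.3). `E` = some piece from the cell `0` to the cell `z` costs `≤ u` in the half time `t`. Move `0 → x` (half time
`τ`, cost `≤ v`), the piece (rows `2τ < . ≤ 2τ + 2t`), move `y + R z → R z`. The pair `(x, y)` is the first one (fixed
enumeration of `ofs × ofs`) for which the piece of the middle window costs `≤ u`; the two moves use the other rows and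
fail with probability `≤ 1/8` each (`sm_le` or `sm_ge`): `(3/4) P(E) ≤ P(T(2(t + 2τ), R z) ≤ u + 2v) ≤ p`. -/
theorem NlC_cells (t τ R : ℕ) (hR : Even R) (z : Site d) {u v p : ℝ}
    (hmv : ∀ w : Site d, Even (ln w) → sn w ≤ R → (law d ρ).real {η : Env d | ¬ Tle ρ β η τ w v} ≤ 1 / 8)
    (hp : (law d ρ).real {η : Env d | Tle ρ β η (t + 2 * τ) ((R : ℤ) • z) (u + 2 * v)} ≤ p) :
    (law d ρ).real {η : Env d | ∃ x ∈ ofs d R, ∃ y ∈ ofs d R,
      Tle ρ β (sh 0 x η) t (y + (R : ℤ) • z - x) u} ≤ 4 / 3 * p := by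
  classical
  obtain ⟨U, hU⟩ : ∃ U : Set (ℕ × Site d), U = {q | 2 * τ < q.1 ∧ q.1 ≤ 2 * τ + 2 * t} := ⟨_, rfl⟩
  obtain ⟨G, hG⟩ : ∃ G : Site d × Site d → Set (Env d), ∀ i, G i =
      {η | Tle ρ β (sh (2 * τ) i.1 η) t (i.2 + (R : ℤ) • z - i.1) u} := ⟨_, fun _ => rfl⟩
  obtain ⟨B, hB⟩ : ∃ B : Site d × Site d → Set (Env d), ∀ i, B i =
      {η | Tle ρ β (sh (2 * 0) 0 η) τ i.1 v ∧
        Tle ρ β (sh (2 * (τ + t)) (i.2 + (R : ℤ) • z) η) τ (-i.2) v} := ⟨_, fun _ => rfl⟩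
  have hGm : ∀ i, MeasurableSet (G i) := fun i => by
    rw [hG]
    exact NlC_shift _ _ _ _ _
  have hB1 : ∀ i : Site d × Site d, MeasurableSet {η : Env d | Tle ρ β (sh (2 * 0) 0 η) τ i.1 v} :=
    fun i => NlC_shift _ _ _ _ _
  have hB2 : ∀ i : Site d × Site d, MeasurableSet {η : Env d |
      Tle ρ β (sh (2 * (τ + t)) (i.2 + (R : ℤ) • z) η) τ (-i.2) v} := fun i => NlC_shift _ _ _ _ _
  have hBm : ∀ i, MeasurableSet (B i) := fun i => by
    rw [hB]
    exact (hB1 i).inter (hB2 i)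
  have h1 := NlC_first (ρ := ρ) (ofs d R ×ˢ ofs d R) G B U hGm hBm
    (fun i η η' h => by
      rw [hG]
      refine dep_Tle fun q hq1 hq2 => h q ?_
      rw [hU]
      exact ⟨hq1, hq2⟩)
    (fun i η η' h => by
      rw [hB]
      refine and_congr (dep_Tle fun q hq1 hq2 => h q ?_) (dep_Tle fun q hq1 hq2 => h q ?_)
      · rw [hU]
        rintro ⟨h2, h3⟩
        omega
      · rw [hU]
        rintro ⟨h2, h3⟩
        omega)
    (q := 3 / 4) (fun i hi => by
      rw [Finset.mem_product] at hi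
      obtain ⟨hx, hy⟩ := hi
      unfold ofs at hx hy
      rw [Finset.mem_filter, mem_boxF_iff] at hx hy
      have e1 : (law d ρ).real {η : Env d | ¬ Tle ρ β (sh (2 * 0) 0 η) τ i.1 v} ≤ 1 / 8 := by
        have := hmv i.1 hx.2 hx.1
        exact (real_sh (ρ := ρ) (2 * 0) 0
          (measurableSet_Tle (ρ := ρ) (β := β) τ i.1 v).compl).le.trans this
      have e2 : (law d ρ).real {η : Env d |
          ¬ Tle ρ β (sh (2 * (τ + t)) (i.2 + (R : ℤ) • z) η) τ (-i.2) v} ≤ 1 / 8 := by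
        have := hmv (-i.2) (by rw [NlC_ln_neg]; exact hy.2) (by rw [sn_neg]; exact hy.1)
        exact (real_sh (ρ := ρ) (2 * (τ + t)) (i.2 + (R : ℤ) • z)
          (measurableSet_Tle (ρ := ρ) (β := β) τ (-i.2) v).compl).le.trans this
      have e3 := probReal_compl_eq_one_sub (μ := law d ρ) (hBm i)
      have e4 : (law d ρ).real (B i)ᶜ ≤ 1 / 8 + 1 / 8 := by
        refine le_trans ?_ (add_le_add e1 e2)
        refine le_trans (measureReal_mono ?_ (measure_ne_top _ _)) (measureReal_union_le _ _)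
        intro η hη
        rw [hB] at hη
        by_cases h5 : Tle ρ β (sh (2 * 0) 0 η) τ i.1 v
        · exact Or.inr fun h6 => hη ⟨h5, h6⟩
        · exact Or.inl h5
      linarith)
  -- the pieces together
  have h2 : (law d ρ).real {η | ∃ i ∈ ofs d R ×ˢ ofs d R, η ∈ G i ∧ η ∈ B i} ≤ p := by
    refine le_trans (measureReal_mono ?_ (measure_ne_top _ _)) hp
    rintro η ⟨i, -, h3, h4⟩
    rw [hG] at h3
    rw [hB] at h4
    obtain ⟨h5, h6⟩ := h4
    rw [Nat.mul_zero, sh_zero] at h5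
    have h7 := Tle_add h5 h3
    have h8 : i.1 + (i.2 + (R : ℤ) • z - i.1) = i.2 + (R : ℤ) • z := by abel
    rw [h8] at h7
    have h9 := Tle_add h7 h6
    have h10 : i.2 + (R : ℤ) • z + -i.2 = (R : ℤ) • z := by abel
    rw [h10] at h9
    show Tle ρ β η (t + 2 * τ) ((R : ℤ) • z) (u + 2 * v)
    have e1 : τ + t + τ = t + 2 * τ := by ring
    have e2 : v + u + v = u + 2 * v := by ring
    rw [e1, e2] at h9
    exact h9
  -- translation
  obtain ⟨E, hE⟩ : ∃ E : Set (Env d), E = {η : Env d | ∃ x ∈ ofs d R, ∃ y ∈ ofs d R,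
      Tle ρ β (sh 0 x η) t (y + (R : ℤ) • z - x) u} := ⟨_, rfl⟩
  have hEm : MeasurableSet E := by
    have h3 : E = ⋃ x ∈ ofs d R, ⋃ y ∈ ofs d R,
        {η : Env d | Tle ρ β (sh 0 x η) t (y + (R : ℤ) • z - x) u} := by
      rw [hE]
      ext η
      simp only [Set.mem_ofPred_eq, Set.mem_iUnion, exists_prop]
    rw [h3]
    exact Finset.measurableSet_biUnion _ fun x _ => Finset.measurableSet_biUnion _ fun y _ =>
      NlC_shift _ _ _ _ _
  have h3 := real_sh (ρ := ρ) (2 * τ) 0 hEm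
  have h4 : {η : Env d | sh (2 * τ) 0 η ∈ E} = {η | ∃ i ∈ ofs d R ×ˢ ofs d R, η ∈ G i} := by
    ext η
    rw [hE]
    simp only [Set.mem_ofPred_eq]
    constructor
    · rintro ⟨x, hx, y, hy, h⟩
      refine ⟨(x, y), Finset.mem_product.2 ⟨hx, hy⟩, ?_⟩
      rw [hG]
      show Tle ρ β (sh (2 * τ) x η) t (y + (R : ℤ) • z - x) u
      rw [sh_sh, zero_add, add_zero] at h
      exact h
    · rintro ⟨⟨x, y⟩, hxy, h⟩
      obtain ⟨hx, hy⟩ := Finset.mem_product.1 hxy
      refine ⟨x, hx, y, hy, ?_⟩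
      rw [hG] at h
      rw [sh_sh, zero_add, add_zero]
      exact h
  rw [h4] at h3
  rw [← hE, ← h3]
  linarith

end Pool.Agent.W_7d29a1_q
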