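import Pool.Agent.W_7d29a1_q.Bas

/-!
Row 601, section 7: the choice of the constants. TASK NlH.
-/

namespace Pool.Agent.W_7d29a1_q

open MeasureTheory ProbabilityTheory Filter Topology

private theorem NlH_a (d : ℕ) {c : ℝ} (hc : 0 < c) :
    Tendsto (fun k : ℕ => (2 * (k : ℝ) ^ 2 + 1) ^ d * (2 * Real.exp (-(c * k / 4)))) atTop (𝓝 0) := by
  have h1 : Tendsto (fun k : ℕ => c / 4 * (k : ℝ)) atTop atTop :=
    Tendsto.const_mul_atTop (by positivity) tendsto_natCast_atTop_atTop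
  have h2 := (Real.tendsto_pow_mul_exp_neg_atTop_nhds_zero (2 * d)).comp h1
  have h3 := h2.const_mul (2 * 3 ^ d * (4 / c) ^ (2 * d))
  rw [mul_zero] at h3
  refine squeeze_zero' (Filter.Eventually.of_forall fun k => by positivity) ?_ h3
  filter_upwards [eventually_ge_atTop 1] with k hk
  have hk1 : (1 : ℝ) ≤ k := by exact_mod_cast hk
  have h4 : (2 * (k : ℝ) ^ 2 + 1) ^ d ≤ (3 * (k : ℝ) ^ 2) ^ d := by
    refine pow_le_pow_left₀ (by positivity) ?_ d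
    nlinarith only [hk1]
  have h5 : 2 * 3 ^ d * (4 / c) ^ (2 * d) *
      ((fun x : ℝ => x ^ (2 * d) * Real.exp (-x)) ∘ fun k : ℕ => c / 4 * (k : ℝ)) k =
      (3 * (k : ℝ) ^ 2) ^ d * (2 * Real.exp (-(c * k / 4))) := by
    show 2 * 3 ^ d * (4 / c) ^ (2 * d) * ((c / 4 * (k : ℝ)) ^ (2 * d) * Real.exp (-(c / 4 * (k : ℝ)))) = _
    have e1 : -(c / 4 * (k : ℝ)) = -(c * k / 4) := by ring
    have e2 : (4 / c) ^ (2 * d) * (c / 4 * (k : ℝ)) ^ (2 * d) = ((k : ℝ) ^ 2) ^ d := by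
      rw [← mul_pow, ← pow_mul]
      congr 1
      field_simp
    rw [e1, mul_pow 3, ← e2]
    ring
  rw [h5]
  exact mul_le_mul_of_nonneg_right h4 (by positivity)

private theorem NlH_b {κ C : ℝ} (hκ : 0 < κ) (hC : 1 ≤ C) (M : ℝ) :
    Tendsto (fun k : ℕ => Real.sqrt (C ^ k) * Real.exp (-(κ / 4 * (k : ℝ) ^ 2)) * M) atTop (𝓝 0) := by
  have hC0 : 0 < C := zero_lt_one.trans_le hC
  have h0 : Tendsto (fun k : ℕ => (k : ℝ)) atTop atTop := tendsto_natCast_atTop_atTop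
  have h1 : Tendsto (fun k : ℕ => κ / 4 * (k : ℝ) - Real.log C / 2) atTop atTop :=
    tendsto_atTop_add_const_right _ _ (Tendsto.const_mul_atTop (by positivity) h0)
  have h2 := tendsto_neg_atTop_atBot.comp (h0.atTop_mul_atTop₀ h1)
  have h3 := Real.tendsto_exp_atBot.comp h2
  have h4 := h3.mul_const M
  rw [zero_mul] at h4
  refine h4.congr fun k => ?_
  show Real.exp (-((k : ℝ) * (κ / 4 * (k : ℝ) - Real.log C / 2))) * M = _
  congr 1
  have e1 : C ^ k = Real.exp (k * Real.log C) := by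
    rw [mul_comm, Real.exp_mul, Real.exp_log hC0, Real.rpow_natCast]
  rw [e1, ← Real.exp_half, ← Real.exp_add]
  congr 1
  ring

private theorem NlH_c (A B : ℝ) :
    Tendsto (fun L : ℕ => A * (Real.sqrt (4 / 3 * (32 * (L : ℝ) ^ (-(1 / 4) : ℝ))) * B)) atTop (𝓝 0) := by
  have h1 : Tendsto (fun L : ℕ => (L : ℝ) ^ (-(1 / 4) : ℝ)) atTop (𝓝 0) :=
    (tendsto_rpow_neg_atTop (by norm_num : (0 : ℝ) < 1 / 4)).comp tendsto_natCast_atTop_atTop
  have h2 := ((((h1.const_mul 32).const_mul (4 / 3)).sqrt).mul_const B).const_mul A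
  rw [mul_zero, mul_zero, Real.sqrt_zero, zero_mul, mul_zero] at h2
  exact h2

/-- First `k` (limits `k → ∞`), then `L`. -/
theorem NlH_num (d : ℕ) {κ C c : ℝ} (hκ : 0 < κ) (hC : 1 ≤ C) (hc : 0 < c) : ∃ k L : ℕ, 4 ≤ k ∧
    2 ^ 10 ≤ L ∧
    (2 * (k : ℝ) ^ 2 + 1) ^ d * (2 * Real.exp (-(c * k / 4)) +
      Real.sqrt (4 / 3 * (32 * (L : ℝ) ^ (-(1 / 4) : ℝ))) * Real.sqrt (C ^ k)) ≤ 1 / 4 ∧
    Real.sqrt (C ^ k) * Real.exp (-(κ / 4 * (k : ℝ) ^ 2)) * (2 / (1 - Real.exp (-(κ / 4 / d)))) ^ d ≤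
      1 / 4 := by
  have ha := (NlH_a d hc).eventually_le_const (show (0 : ℝ) < 1 / 8 by norm_num)
  have hb := (NlH_b hκ hC ((2 / (1 - Real.exp (-(κ / 4 / d)))) ^ d)).eventually_le_const
    (show (0 : ℝ) < 1 / 4 by norm_num)
  obtain ⟨k, h1, h2, h3⟩ := (ha.and (hb.and (eventually_ge_atTop 4))).exists
  have hL := (NlH_c ((2 * (k : ℝ) ^ 2 + 1) ^ d) (Real.sqrt (C ^ k))).eventually_le_const
    (show (0 : ℝ) < 1 / 8 by norm_num)
  obtain ⟨L, h4, h5⟩ := (hL.and (eventually_ge_atTop (2 ^ 10))).exists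
  refine ⟨k, L, h3, h5, ?_, h2⟩
  rw [mul_add]
  linarith only [h1, h4]

end Pool.Agent.W_7d29a1_q
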