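import Pool.Agent.W_7d29a1_q.NlG

/-!
Row 601, (7.5). TASK NlI.
-/

namespace Pool.Agent.W_7d29a1_q

open MeasureTheory ProbabilityTheory Filter Topology Pool.Agent.W_MP_7d29a1_pr
  Pool.Agent.W_7d29a1_h46 Pool.Agent.W_7d29a1_h46u Pool.Agent.W_7d29a1_h3

variable {d : ℕ} {ρ : Measure ℝ} [IsProbabilityMeasure ρ] {β : ℝ}

private theorem NlI_cs {Ω : Type*} [MeasurableSpace Ω] (P : Measure Ω) [IsProbabilityMeasure P]
    {f : Ω → ℝ} {A : Set Ω} (hA : MeasurableSet A) (hf : Integrable f P)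
    (hf2 : Integrable (fun ω => f ω ^ 2) P) :
    ∫ ω, A.indicator f ω ∂P ≤ Real.sqrt (P.real A) * Real.sqrt (∫ ω, f ω ^ 2 ∂P) := by
  have h1 : ∀ t : ℝ, 0 ≤ P.real A * (t * t) + (-(2 * ∫ ω, A.indicator f ω ∂P)) * t +
      ∫ ω, f ω ^ 2 ∂P := by
    intro t
    have hi1 : Integrable (fun ω => t ^ 2 * A.indicator (fun _ => (1 : ℝ)) ω) P :=
      ((integrable_const 1).indicator hA).const_mul _
    have hi2 : Integrable (fun ω => (2 * t) * A.indicator f ω) P := (hf.indicator hA).const_mul _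
    have h2 : 0 ≤ ∫ ω, (t ^ 2 * A.indicator (fun _ => (1 : ℝ)) ω - (2 * t) * A.indicator f ω +
        f ω ^ 2) ∂P := by
      refine integral_nonneg fun ω => ?_
      show 0 ≤ t ^ 2 * A.indicator (fun _ => (1 : ℝ)) ω - (2 * t) * A.indicator f ω + f ω ^ 2
      by_cases hω : ω ∈ A
      · rw [Set.indicator_of_mem hω, Set.indicator_of_mem hω]
        nlinarith [sq_nonneg (t - f ω)]
      · rw [Set.indicator_of_notMem hω, Set.indicator_of_notMem hω]
        nlinarith [sq_nonneg (f ω)]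
    have h5 : Integrable (fun ω => t ^ 2 * A.indicator (fun _ => (1 : ℝ)) ω -
        (2 * t) * A.indicator f ω) P := hi1.sub hi2
    rw [integral_add h5 hf2, integral_sub hi1 hi2, integral_const_mul,
      integral_const_mul, integral_indicator_const (1 : ℝ) hA, smul_eq_mul] at h2
    linarith
  have h3 := discrim_le_zero h1
  unfold discrim at h3
  have h4 : (∫ ω, A.indicator f ω ∂P) ^ 2 ≤ P.real A * ∫ ω, f ω ^ 2 ∂P := by nlinarith
  rw [← Real.sqrt_mul measureReal_nonneg]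
  exact Real.le_sqrt_of_sq_le h4

private theorem NlI_sq (R t : ℕ) (z : Site d) (γ : ℝ) (η : Env d) :
    (YY ρ β R η t z ^ (γ / 2)) ^ 2 = YY ρ β R η t z ^ γ := by
  rw [← Real.rpow_natCast, ← Real.rpow_mul (NlD_nonneg R η t z)]
  congr 1
  push_cast
  ring

private theorem NlI_csY (hρ : EM ρ) (R t : ℕ) (z : Site d) {γ : ℝ} (hγ : 0 < γ) (hγ1 : γ ≤ 1)
    {A : Set (Env d)} (hA : MeasurableSet A) :
    ∫ η, A.indicator (fun η => YY ρ β R η t z ^ (γ / 2)) η ∂(law d ρ) ≤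
      Real.sqrt ((law d ρ).real A) * Real.sqrt (mm d ρ β R γ t z) := by
  have hi2 : Integrable (fun η : Env d => (YY ρ β R η t z ^ (γ / 2)) ^ 2) (law d ρ) := by
    refine (NlD_intr (β := β) hρ R t z hγ hγ1).congr (Eventually.of_forall fun η => ?_)
    exact (NlI_sq R t z γ η).symm
  have h1 := NlI_cs (law d ρ) hA
    (NlD_intr (β := β) hρ R t z (by linarith : (0 : ℝ) < γ / 2) (by linarith)) hi2
  have h2 : ∫ η : Env d, (YY ρ β R η t z ^ (γ / 2)) ^ 2 ∂(law d ρ) = mm d ρ β R γ t z := by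
    unfold mm
    exact integral_congr_ae (Eventually.of_forall fun η => NlI_sq R t z γ η)
  rwa [h2] at h1

/-- Cauchy - Schwarz. -/
theorem NlI_half (hρ : EM ρ) (R t : ℕ) (z : Site d) {γ : ℝ} (hγ : 0 < γ) (hγ1 : γ ≤ 1) :
    mm d ρ β R (γ / 2) t z ≤ Real.sqrt (mm d ρ β R γ t z) := by
  have h1 := NlI_csY (β := β) hρ R t z hγ hγ1 MeasurableSet.univ
  rw [Set.indicator_univ, probReal_univ, Real.sqrt_one, one_mul] at h1
  exact h1

private theorem NlI_meas (x y z : Site d) (R t : ℕ) (u : ℝ) :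
    MeasurableSet {η : Env d | Tle ρ β (sh 0 x η) t (y + (R : ℤ) • z - x) u} := by
  have h1 : Measurable fun η : Env d => Vp ρ β (sh 0 x η) (2 * t) (y + (R : ℤ) • z - x) :=
    (measurable_V (ρ := ρ) (β := β) (toP (2 * t) (y + (R : ℤ) • z - x))).comp (measurable_sh 0 x)
  exact measurableSet_le measurable_const h1

/-- Outside the event (all pieces cost `> u`) `YY ≤ (2R+1)^(2d) e^(-u)`; on the event Cauchy - Schwarz. -/
theorem NlI_near (hρ : EM ρ) (R t : ℕ) (z : Site d) {γ u p : ℝ} (hγ : 0 < γ) (hγ1 : γ ≤ 1)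
    (hp : (law d ρ).real {η : Env d | ∃ x ∈ ofs d R, ∃ y ∈ ofs d R,
      Tle ρ β (sh 0 x η) t (y + (R : ℤ) • z - x) u} ≤ p) :
    mm d ρ β R (γ / 2) t z ≤ ((2 * (R : ℝ) + 1) ^ (2 * d)) ^ (γ / 2) * Real.exp (-(γ / 2 * u)) +
      Real.sqrt p * Real.sqrt (mm d ρ β R γ t z) := by
  obtain ⟨A, hAdef⟩ : ∃ A : Set (Env d), A = {η : Env d | ∃ x ∈ ofs d R, ∃ y ∈ ofs d R,
      Tle ρ β (sh 0 x η) t (y + (R : ℤ) • z - x) u} := ⟨_, rfl⟩
  rw [← hAdef] at hp
  have hA : MeasurableSet A := by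
    have h1 : A = ⋃ x ∈ ofs d R, ⋃ y ∈ ofs d R,
        {η : Env d | Tle ρ β (sh 0 x η) t (y + (R : ℤ) • z - x) u} := by
      rw [hAdef]
      ext η
      simp only [Set.mem_setOf_eq, Set.mem_iUnion, exists_prop]
    rw [h1]
    exact Finset.measurableSet_biUnion _ fun x _ => Finset.measurableSet_biUnion _ fun y _ =>
      NlI_meas x y z R t u
  have hγ2 : (0 : ℝ) < γ / 2 := by linarith
  have hpt : ∀ η : Env d, YY ρ β R η t z ^ (γ / 2) ≤
      ((2 * (R : ℝ) + 1) ^ (2 * d)) ^ (γ / 2) * Real.exp (-(γ / 2 * u)) +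
        A.indicator (fun η => YY ρ β R η t z ^ (γ / 2)) η := by
    intro η
    by_cases hη : η ∈ A
    · rw [Set.indicator_of_mem hη]
      have h1 : 0 ≤ ((2 * (R : ℝ) + 1) ^ (2 * d)) ^ (γ / 2) * Real.exp (-(γ / 2 * u)) := by
        positivity
      linarith
    · rw [Set.indicator_of_notMem hη, add_zero]
      have hterm : ∀ x ∈ ofs d R, ∀ y ∈ ofs d R,
          Vp ρ β (sh 0 x η) (2 * t) (y + (R : ℤ) • z - x) ≤ Real.exp (-u) := by
        intro x hx y hy
        by_contra hcon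
        refine hη ?_
        rw [hAdef]
        exact ⟨x, hx, y, hy, (not_le.1 hcon).le⟩
      have hY : YY ρ β R η t z ≤ (2 * (R : ℝ) + 1) ^ (2 * d) * Real.exp (-u) := by
        have h1 : YY ρ β R η t z ≤ ∑ x ∈ ofs d R, ∑ y ∈ ofs d R, Real.exp (-u) := by
          unfold YY
          exact Finset.sum_le_sum fun x hx => Finset.sum_le_sum fun y hy => hterm x hx y hy
        refine h1.trans ?_
        rw [Finset.sum_const, Finset.sum_const, nsmul_eq_mul, nsmul_eq_mul, ← mul_assoc]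
        refine mul_le_mul_of_nonneg_right ?_ (Real.exp_pos _).le
        have h2 : ((ofs d R).card : ℝ) ≤ (2 * (R : ℝ) + 1) ^ d := by
          have h3 : (((ofs d R).card : ℕ) : ℝ) ≤ (((2 * R + 1) ^ d : ℕ) : ℝ) :=
            Nat.cast_le.2 (NlD_card R)
          push_cast at h3
          exact h3
        calc ((ofs d R).card : ℝ) * (ofs d R).card ≤
            (2 * (R : ℝ) + 1) ^ d * (2 * (R : ℝ) + 1) ^ d :=
              mul_le_mul h2 h2 (Nat.cast_nonneg _) (by positivity)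
          _ = (2 * (R : ℝ) + 1) ^ (2 * d) := by rw [← pow_add, ← two_mul d]
      have h1 := Real.rpow_le_rpow (NlD_nonneg R η t z) hY hγ2.le
      rw [Real.mul_rpow (by positivity) (Real.exp_pos _).le, ← Real.exp_mul] at h1
      refine h1.trans (le_of_eq ?_)
      congr 2
      ring
  have hi := NlD_intr (β := β) hρ R t z hγ2 (by linarith)
  have h1 : mm d ρ β R (γ / 2) t z ≤
      ((2 * (R : ℝ) + 1) ^ (2 * d)) ^ (γ / 2) * Real.exp (-(γ / 2 * u)) +
        ∫ η, A.indicator (fun η => YY ρ β R η t z ^ (γ / 2)) η ∂(law d ρ) := by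
    unfold mm
    calc ∫ η : Env d, YY ρ β R η t z ^ (γ / 2) ∂(law d ρ) ≤
        ∫ η : Env d, (((2 * (R : ℝ) + 1) ^ (2 * d)) ^ (γ / 2) * Real.exp (-(γ / 2 * u)) +
          A.indicator (fun η => YY ρ β R η t z ^ (γ / 2)) η) ∂(law d ρ) :=
          integral_mono hi ((integrable_const _).add (hi.indicator hA)) hpt
      _ = ((2 * (R : ℝ) + 1) ^ (2 * d)) ^ (γ / 2) * Real.exp (-(γ / 2 * u)) +
          ∫ η, A.indicator (fun η => YY ρ β R η t z ^ (γ / 2)) η ∂(law d ρ) := by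
          rw [integral_add (integrable_const _) (hi.indicator hA), integral_const, probReal_univ,
            one_smul]
  have h2 := NlI_csY (β := β) hρ R t z hγ hγ1 hA
  have h3 : Real.sqrt ((law d ρ).real A) * Real.sqrt (mm d ρ β R γ t z) ≤
      Real.sqrt p * Real.sqrt (mm d ρ β R γ t z) :=
    mul_le_mul_of_nonneg_right (Real.sqrt_le_sqrt hp) (Real.sqrt_nonneg _)
  linarith

/-- (7.5). Near cells `sn z ≤ K`: `NlI_near`, at most `(2K+1)^d` of them. Far cells: `NlI_half`,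
`exp (-κ sn z / 2) ≤ exp (-κ K / 4) exp (-κ sn z / 4)`, `NlG_geo`. -/
theorem NlI_F (j0 : Fin d) (hρ : EM ρ) {R t K : ℕ} {γ κ E u p : ℝ} (hγ : 0 < γ) (hγ1 : γ ≤ 1)
    (hκ : 0 < κ) (hE : 0 ≤ E)
    (h1 : ∀ z : Site d, mm d ρ β R γ t z ≤ E * Real.exp (-(κ * sn z)))
    (h2 : ∀ z : Site d, (law d ρ).real {η : Env d | ∃ x ∈ ofs d R, ∃ y ∈ ofs d R,
      Tle ρ β (sh 0 x η) t (y + (R : ℤ) • z - x) u} ≤ p)
    (h3 : ((2 * (R : ℝ) + 1) ^ (2 * d)) ^ (γ / 2) ≤ 2)
    (h4 : (2 * (K : ℝ) + 1) ^ d * (2 * Real.exp (-(γ / 2 * u)) + Real.sqrt p * Real.sqrt E) ≤ 1 / 4)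
    (h5 : Real.sqrt E * Real.exp (-(κ / 4 * K)) * (2 / (1 - Real.exp (-(κ / 4 / d)))) ^ d ≤ 1 / 4)
    (B : ℕ) : ∑ z ∈ boxF d B, mm d ρ β R (γ / 2) t z ≤ 1 / 2 := by
  classical
  rw [← Finset.sum_filter_add_sum_filter_not (boxF d B) (fun z => sn z ≤ K)]
  have hnear : ∑ z ∈ (boxF d B).filter (fun z => sn z ≤ K), mm d ρ β R (γ / 2) t z ≤ 1 / 4 := by
    have hb : ∀ z ∈ (boxF d B).filter (fun z => sn z ≤ K), mm d ρ β R (γ / 2) t z ≤
        2 * Real.exp (-(γ / 2 * u)) + Real.sqrt p * Real.sqrt E := by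
      intro z _
      have h6 := NlI_near (β := β) hρ R t z hγ hγ1 (h2 z)
      have h7 : ((2 * (R : ℝ) + 1) ^ (2 * d)) ^ (γ / 2) * Real.exp (-(γ / 2 * u)) ≤
          2 * Real.exp (-(γ / 2 * u)) := mul_le_mul_of_nonneg_right h3 (Real.exp_pos _).le
      have h8 : mm d ρ β R γ t z ≤ E := by
        refine (h1 z).trans ?_
        have h9 : Real.exp (-(κ * sn z)) ≤ 1 := by
          rw [← Real.exp_zero]
          refine Real.exp_le_exp.2 ?_
          have : 0 ≤ κ * sn z := mul_nonneg hκ.le (Nat.cast_nonneg _)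
          linarith
        calc E * Real.exp (-(κ * sn z)) ≤ E * 1 := mul_le_mul_of_nonneg_left h9 hE
          _ = E := mul_one E
      have h9 : Real.sqrt p * Real.sqrt (mm d ρ β R γ t z) ≤ Real.sqrt p * Real.sqrt E :=
        mul_le_mul_of_nonneg_left (Real.sqrt_le_sqrt h8) (Real.sqrt_nonneg _)
      linarith
    refine (Finset.sum_le_card_nsmul _ _ _ hb).trans ?_
    rw [nsmul_eq_mul]
    refine le_trans (mul_le_mul_of_nonneg_right ?_ ?_) h4
    · have h6 : ((boxF d B).filter (fun z => sn z ≤ K)).card ≤ (2 * K + 1) ^ d := by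
        rw [← card_boxF d K]
        refine Finset.card_le_card fun z hz => ?_
        rw [mem_boxF_iff]
        exact (Finset.mem_filter.1 hz).2
      have h7 : (((((boxF d B).filter (fun z => sn z ≤ K)).card : ℕ)) : ℝ) ≤
          (((2 * K + 1) ^ d : ℕ) : ℝ) := Nat.cast_le.2 h6
      push_cast at h7
      exact h7
    · positivity
  have hfar : ∑ z ∈ (boxF d B).filter (fun z => ¬ sn z ≤ K), mm d ρ β R (γ / 2) t z ≤ 1 / 4 := by
    have hb : ∀ z ∈ (boxF d B).filter (fun z => ¬ sn z ≤ K), mm d ρ β R (γ / 2) t z ≤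
        Real.sqrt E * Real.exp (-(κ / 4 * K)) * Real.exp (-(κ / 4 * sn z)) := by
      intro z hz
      have hz1 : (K : ℝ) ≤ sn z := by
        have := (Finset.mem_filter.1 hz).2
        exact_mod_cast (not_le.1 this).le
      refine (NlI_half hρ R t z hγ hγ1).trans ((Real.sqrt_le_sqrt (h1 z)).trans ?_)
      rw [Real.sqrt_mul hE, mul_assoc]
      refine mul_le_mul_of_nonneg_left ?_ (Real.sqrt_nonneg _)
      rw [← Real.exp_half, ← Real.exp_add, Real.exp_le_exp]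
      have h6 := mul_le_mul_of_nonneg_left hz1 (by positivity : 0 ≤ κ / 4)
      linarith
    refine (Finset.sum_le_sum hb).trans ?_
    rw [← Finset.mul_sum]
    refine le_trans (mul_le_mul_of_nonneg_left ?_ (by positivity)) h5
    refine le_trans ?_ (NlG_geo j0 (by positivity : 0 < κ / 4) B)
    exact Finset.sum_le_sum_of_subset_of_nonneg (Finset.filter_subset _ _)
      fun z _ _ => (Real.exp_pos _).le
  linarith

end Pool.Agent.W_7d29a1_q
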