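import Pool.Agent.W_7d29a1_q.NlF

/-!
Row 601, (7.6): contradiction. TASK NlJ.
-/

namespace Pool.Agent.W_7d29a1_q

open MeasureTheory ProbabilityTheory Filter Topology Pool.Agent.W_MP_7d29a1_pr
  Pool.Agent.W_7d29a1_h46 Pool.Agent.W_7d29a1_h46u Pool.Agent.W_7d29a1_h3

variable {d : ℕ} {ρ : Measure ℝ} [IsProbabilityMeasure ρ] {β : ℝ}

/-- The iteration. -/
private theorem NlJ_iter (j0 : Fin d) (hρ : EM ρ) {R t : ℕ} (hR : Even R) (hR2 : 2 ≤ R) {γ : ℝ}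
    (hγ : 0 < γ) (hγ1 : γ ≤ 1) (hF : ∀ B : ℕ, ∑ z ∈ boxF d B, mm d ρ β R γ t z ≤ 1 / 2) (M : ℕ) :
    ∀ B : ℕ, ∑ z ∈ boxF d B, mm d ρ β R γ ((M + 1) * t) z ≤ (1 / 2 : ℝ) ^ (M + 1) := by
  induction M with
  | zero =>
    intro B
    have h1 := hF B
    simpa using h1
  | succ M ih =>
    intro B
    obtain ⟨B', hB'⟩ : ∃ B' : ℕ, B' = (M + 1) * t + 2 := ⟨_, rfl⟩
    have h1 : ∀ z' : Site d, mm d ρ β R γ ((M + 1 + 1) * t) z' ≤
        ∑ z ∈ boxF d B', mm d ρ β R γ ((M + 1) * t) z * mm d ρ β R γ t (z' - z) := by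
      intro z'
      have h2 := NlF_mm (β := β) j0 hρ hR hR2 hγ hγ1 ((M + 1) * t) t z' (B := B') (by omega)
      have h3 : (M + 1 + 1) * t = (M + 1) * t + t := by ring
      rw [h3]
      exact h2
    have h2 : ∀ z ∈ boxF d B', ∑ z' ∈ boxF d B, mm d ρ β R γ t (z' - z) ≤ 1 / 2 := by
      intro z hz
      refine le_trans ?_ (hF (B + B'))
      have h3 : ∑ z' ∈ boxF d B, mm d ρ β R γ t (z' - z) =
          ∑ w ∈ (boxF d B).image (fun z' => z' - z), mm d ρ β R γ t w := by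
        rw [Finset.sum_image]
        intro a _ b _ hab
        exact sub_left_injective hab
      rw [h3]
      refine Finset.sum_le_sum_of_subset_of_nonneg ?_ fun w _ _ => NlD_mm_nonneg R γ t w
      intro w hw
      rw [Finset.mem_image] at hw
      obtain ⟨z', hz', rfl⟩ := hw
      rw [mem_boxF_iff] at hz hz' ⊢
      have h4 := sn_add z' (-z)
      rw [sn_neg, ← sub_eq_add_neg] at h4
      omega
    calc ∑ z' ∈ boxF d B, mm d ρ β R γ ((M + 1 + 1) * t) z'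
        ≤ ∑ z' ∈ boxF d B, ∑ z ∈ boxF d B', mm d ρ β R γ ((M + 1) * t) z *
            mm d ρ β R γ t (z' - z) := Finset.sum_le_sum fun z' _ => h1 z'
      _ = ∑ z ∈ boxF d B', mm d ρ β R γ ((M + 1) * t) z *
            ∑ z' ∈ boxF d B, mm d ρ β R γ t (z' - z) := by
          rw [Finset.sum_comm]
          exact Finset.sum_congr rfl fun z _ => (Finset.mul_sum _ _ _).symm
      _ ≤ ∑ z ∈ boxF d B', mm d ρ β R γ ((M + 1) * t) z * (1 / 2) :=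
          Finset.sum_le_sum fun z hz =>
            mul_le_mul_of_nonneg_left (h2 z hz) (NlD_mm_nonneg R γ ((M + 1) * t) z)
      _ = (∑ z ∈ boxF d B', mm d ρ β R γ ((M + 1) * t) z) * (1 / 2) := by
          rw [Finset.sum_mul]
      _ ≤ (1 / 2 : ℝ) ^ (M + 1) * (1 / 2) := mul_le_mul_of_nonneg_right (ih B') (by norm_num)
      _ = (1 / 2 : ℝ) ^ (M + 1 + 1) := by rw [pow_succ (1 / 2 : ℝ) (M + 1)]

/-- The term `x = y = 0`. -/
private theorem NlJ_diag (R : ℕ) (η : Env d) (n : ℕ) :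
    Vp ρ β η (2 * n) 0 ≤ YY ρ β R η n 0 := by
  have h0 : (0 : Site d) ∈ ofs d R := by
    rw [NlD_mem]
    have h1 := sn_le_ln (0 : Site d)
    have h2 : ln (0 : Site d) = 0 := by simp [ln]
    rw [h2] at h1
    exact ⟨by omega, by rw [h2]; exact Even.zero⟩
  have hn : ∀ x y : Site d, 0 ≤ Vp ρ β (sh 0 x η) (2 * n) (y + (R : ℤ) • (0 : Site d) - x) :=
    fun x y => V_nonneg _ _
  have h1 : Vp ρ β η (2 * n) 0 =
      Vp ρ β (sh 0 (0 : Site d) η) (2 * n) (0 + (R : ℤ) • (0 : Site d) - 0) := by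
    rw [sh_zero, smul_zero, add_zero, sub_zero]
  rw [h1]
  unfold YY
  refine le_trans ?_ (Finset.single_le_sum (f := fun x => ∑ y ∈ ofs d R,
    Vp ρ β (sh 0 x η) (2 * n) (y + (R : ℤ) • (0 : Site d) - x))
    (fun x _ => Finset.sum_nonneg fun y _ => hn x y) h0)
  exact Finset.single_le_sum (f := fun y =>
    Vp ρ β (sh 0 (0 : Site d) η) (2 * n) (y + (R : ℤ) • (0 : Site d) - 0))
    (fun y _ => hn 0 y) h0

/-- (7.6). Induction on `M` (`NlF_mm` with `s = M t`): `∑ z ∈ boxF d B, mm γ (M t) z ≤ 2^(-M)` for all `B`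
(`M ≥ 1`). The term `x = y = 0` of `YY η (M t) 0` is `Vp η (2 M t) 0`: `E Vp^γ ≤ 2^(-M)`. But
`Vp η (2 M t) 0 ≥ exp (-ε M t)` with probability `≥ 1/2` for `M` large (`T_small`), `γ ε t < log 2`. -/
theorem NlJ_contra (j0 : Fin d) (hρ : EM ρ) {R t : ℕ} (hR : Even R) (hR2 : 2 ≤ R) {γ : ℝ} (hγ : 0 < γ)
    (hγ1 : γ ≤ 1) (ht : 1 ≤ t) (hF : ∀ B : ℕ, ∑ z ∈ boxF d B, mm d ρ β R γ t z ≤ 1 / 2) : False := by
  have htR : (1 : ℝ) ≤ t := by exact_mod_cast ht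
  obtain ⟨ε, hε⟩ : ∃ ε : ℝ, ε = 1 / (4 * γ * t) := ⟨_, rfl⟩
  have hε0 : 0 < ε := by
    rw [hε]
    positivity
  have h1 := (T_small (β := β) j0 hρ hε0).eventually (gt_mem_nhds (show (0 : ℝ) < 1 / 2 by norm_num))
  obtain ⟨n0, hn0⟩ := eventually_atTop.1 h1
  obtain ⟨M, hM⟩ : ∃ M : ℕ, M = n0 + 1 := ⟨_, rfl⟩
  obtain ⟨n, hn⟩ : ∃ n : ℕ, n = (M + 1) * t := ⟨_, rfl⟩
  have hnn : n0 ≤ n := by
    rw [hn]
    nlinarith
  have h2 := hn0 n hnn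
  have h3 : (1 : ℝ) / 2 ≤ (law d ρ).real {η : Env d | Tle ρ β η n 0 (ε * n)} := by
    have h4 := measureReal_compl (μ := law d ρ) (measurableSet_Tle (ρ := ρ) (β := β) n (0 : Site d) (ε * n))
    rw [probReal_univ] at h4
    have h5 : {η : Env d | Tle ρ β η n 0 (ε * n)}ᶜ = {η : Env d | ¬ Tle ρ β η n 0 (ε * n)} := rfl
    rw [h5] at h4
    linarith
  -- the moment
  have h4 : mm d ρ β R γ n 0 ≤ (1 / 2 : ℝ) ^ (M + 1) := by
    have h5 := NlJ_iter (β := β) j0 hρ hR hR2 hγ hγ1 hF M 0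
    refine le_trans ?_ h5
    rw [hn]
    refine Finset.single_le_sum (f := fun z => mm d ρ β R γ ((M + 1) * t) z)
      (fun z _ => NlD_mm_nonneg R γ _ z) ?_
    rw [mem_boxF_iff]
    have h1 := sn_le_ln (0 : Site d)
    have h2 : ln (0 : Site d) = 0 := by simp [ln]
    omega
  have hexp : Real.exp (-(ε * n)) ^ γ = Real.exp (-(((M + 1 : ℕ) : ℝ) * (1 / 4))) := by
    rw [← Real.exp_mul]
    congr 1
    rw [hε, hn]
    push_cast
    field_simp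
  have h5 : Real.exp (-(((M + 1 : ℕ) : ℝ) * (1 / 4))) *
      (law d ρ).real {η : Env d | Real.exp (-(((M + 1 : ℕ) : ℝ) * (1 / 4))) ≤ YY ρ β R η n 0 ^ γ} ≤
      mm d ρ β R γ n 0 :=
    mul_meas_ge_le_integral_of_nonneg
      (Filter.Eventually.of_forall fun η => Real.rpow_nonneg (NlD_nonneg R η n 0) γ)
      (NlD_intr hρ R n 0 hγ hγ1) _
  have h6 : (law d ρ).real {η : Env d | Tle ρ β η n 0 (ε * n)} ≤
      (law d ρ).real {η : Env d | Real.exp (-(((M + 1 : ℕ) : ℝ) * (1 / 4))) ≤ YY ρ β R η n 0 ^ γ} := by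
    refine measureReal_mono ?_ (measure_ne_top _ _)
    intro η hη
    have h7 : Real.exp (-(ε * n)) ≤ Vp ρ β η (2 * n) 0 := hη
    show Real.exp (-(((M + 1 : ℕ) : ℝ) * (1 / 4))) ≤ YY ρ β R η n 0 ^ γ
    rw [← hexp]
    exact Real.rpow_le_rpow (Real.exp_pos _).le (h7.trans (NlJ_diag R η n)) hγ.le
  have h7 : (3 / 4 : ℝ) ^ (M + 1) ≤ Real.exp (-(((M + 1 : ℕ) : ℝ) * (1 / 4))) := by
    have h8 : (3 / 4 : ℝ) ≤ Real.exp (-(1 / 4)) := by
      linarith [Real.add_one_le_exp (-(1 / 4 : ℝ))]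
    calc (3 / 4 : ℝ) ^ (M + 1) ≤ Real.exp (-(1 / 4)) ^ (M + 1) :=
          pow_le_pow_left₀ (by norm_num) h8 _
      _ = Real.exp (-(((M + 1 : ℕ) : ℝ) * (1 / 4))) := by
        rw [← Real.exp_nat_mul]
        congr 1
        ring
  have h8 : (3 / 4 : ℝ) ^ (M + 1) * (1 / 2) ≤ (1 / 2 : ℝ) ^ (M + 1) := by
    refine le_trans ?_ (h5.trans h4)
    exact mul_le_mul h7 (h3.trans h6) (by norm_num) (Real.exp_pos _).le
  have h9 : (3 / 4 : ℝ) ^ (M + 1) = (1 / 2 : ℝ) ^ (M + 1) * (3 / 2 : ℝ) ^ (M + 1) := by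
    rw [← mul_pow]
    norm_num
  have h10 : (9 / 4 : ℝ) ≤ (3 / 2 : ℝ) ^ (M + 1) := by
    calc (9 / 4 : ℝ) = (3 / 2 : ℝ) ^ 2 := by norm_num
      _ ≤ (3 / 2 : ℝ) ^ (M + 1) := pow_le_pow_right₀ (by norm_num) (by omega)
  have h11 : (0 : ℝ) < (1 / 2 : ℝ) ^ (M + 1) := by positivity
  rw [h9] at h8
  nlinarith

end Pool.Agent.W_7d29a1_q
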