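import Pool.Agent.W_7d29a1_q.Bas

/-!
Row 601, section 7: what holds for large `N`. TASK NlK.
-/

namespace Pool.Agent.W_7d29a1_q

open MeasureTheory ProbabilityTheory Filter Topology Pool.Agent.W_MP_7d29a1_pr
  Pool.Agent.W_7d29a1_h46 Pool.Agent.W_7d29a1_h46u Pool.Agent.W_7d29a1_h3

/-- `a ≥ N^(1/(20(d+2)))`, `6 c ≤ 6/(400(d+2))`, `R ≤ W(Λ a) ≤ a_max N^(2c) ≤ N`,
`((2R+1)^(2d))^(g/(Λ a)) ≤ exp (2 d log(3N) g/(Λ a)) ≤ 2`. `WW = Λ a / pr ≥ Λ a / a0`. -/
theorem NlK_ev (d : ℕ) (ρ : Measure ℝ) [IsProbabilityMeasure ρ] (β c a0 : ℝ) {Λ g ε : ℝ} (hΛ : 1 ≤ Λ)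
    (hg : 0 < g) (hε : 0 < ε) (hε1 : ε ≤ 1) : ∀ᶠ N : ℕ in atTop, Sc d ρ β c a0 N →
      ∀ a : ℝ, as d N ^ 2 ≤ a → Λ * a ≤ am d N → as d N ≤ a ∧ a0 ≤ a ∧
        (N : ℝ) ^ (6 * c) ≤ ε * (Λ * a) ∧ g / (Λ * a) ≤ 1 ∧ 4 ≤ ε * WW d ρ β (Λ * a) ∧
        ∀ R : ℕ, (R : ℝ) ≤ ε * WW d ρ β (Λ * a) →
          ((2 * (R : ℝ) + 1) ^ (2 * d)) ^ (g / (Λ * a)) ≤ 2 := by
  have hd : (0 : ℝ) < (d : ℝ) + 2 := by positivity
  have hr : (0 : ℝ) < 1 / (40 * ((d : ℝ) + 2)) := by positivity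
  have hr1 : 1 / (40 * ((d : ℝ) + 2)) ≤ 1 := by
    rw [div_le_one (by positivity)]
    have : (0 : ℝ) ≤ d := Nat.cast_nonneg d
    linarith
  have h1 : Tendsto (fun N : ℕ => as d N) atTop atTop :=
    (tendsto_rpow_atTop hr).comp tendsto_natCast_atTop_atTop
  have hq : (0 : ℝ) < 14 / (400 * ((d : ℝ) + 2)) := by positivity
  have h2 : Tendsto (fun N : ℕ => (N : ℝ) ^ (14 / (400 * ((d : ℝ) + 2)))) atTop atTop :=
    (tendsto_rpow_atTop hq).comp tendsto_natCast_atTop_atTop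
  have hlog2 : 0 < Real.log 2 := Real.log_pos (by norm_num)
  have hδ : 0 < Real.log 2 / (6 * (g * d + 1)) := by positivity
  have h3 : Tendsto (fun N : ℕ => 3 * (N : ℝ)) atTop atTop :=
    tendsto_natCast_atTop_atTop.const_mul_atTop (by norm_num)
  have h4 := h3.eventually ((isLittleO_log_rpow_atTop hr).def hδ)
  filter_upwards [h1.eventually_ge_atTop (max 1 (max a0 (max g (4 * a0 / ε)))), h2.eventually_ge_atTop (1 / ε), h4,
    eventually_ge_atTop 1] with N hN1 hN2 hN3 hN hSc a ha1 ha2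
  have hNR : (1 : ℝ) ≤ N := by exact_mod_cast hN
  have hN0 : (0 : ℝ) < N := by linarith
  have hs1 : 1 ≤ as d N := (le_max_left _ _).trans hN1
  have hsa0 : a0 ≤ as d N := ((le_max_left _ _).trans (le_max_right _ _)).trans hN1
  have hsg : g ≤ as d N := (((le_max_left _ _).trans (le_max_right _ _)).trans (le_max_right _ _)).trans hN1
  have hs4 : 4 * a0 / ε ≤ as d N := (((le_max_right _ _).trans (le_max_right _ _)).trans (le_max_right _ _)).trans hN1
  have hsq : as d N ≤ as d N ^ 2 := by nlinarith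
  have ha : as d N ≤ a := hsq.trans ha1
  have ha0 : 0 < a := by linarith
  have haΛ : a ≤ Λ * a := by nlinarith
  have hΛa : 0 < Λ * a := by linarith
  have hone := hSc.one
  have hpr1 := hSc.lo (Λ * a) (by linarith) ha2
  have hpr2 := hSc.hi (Λ * a) (by linarith) ha2
  have hpr0 : 0 < pr d ρ β (Λ * a) := (Real.rpow_pos_of_pos hN0 _).trans_le hpr1
  refine ⟨ha, hsa0.trans ha, ?_, ?_, ?_, ?_⟩
  · -- `N ^ (6 c) ≤ ε as ^ 2`
    have e1 : (N : ℝ) ^ (6 * c) ≤ (N : ℝ) ^ (6 / (400 * ((d : ℝ) + 2))) := by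
      refine Real.rpow_le_rpow_of_exponent_le hNR ?_
      have := hSc.csm
      have e2 : 6 / (400 * ((d : ℝ) + 2)) = 6 * (1 / (400 * ((d : ℝ) + 2))) := by ring
      rw [e2]
      linarith
    have e2 : as d N ^ 2 = (N : ℝ) ^ (14 / (400 * ((d : ℝ) + 2))) * (N : ℝ) ^ (6 / (400 * ((d : ℝ) + 2))) := by
      rw [← Real.rpow_add hN0]
      unfold as
      rw [← Real.rpow_natCast, ← Real.rpow_mul hN0.le]
      congr 1
      push_cast
      field_simp
      norm_num
    have e3 : (N : ℝ) ^ (6 / (400 * ((d : ℝ) + 2))) ≤ ε * as d N ^ 2 := by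
      rw [e2, ← mul_assoc]
      have e4 : 1 ≤ ε * (N : ℝ) ^ (14 / (400 * ((d : ℝ) + 2))) := by
        rw [div_le_iff₀ hε] at hN2
        linarith
      exact le_mul_of_one_le_left (Real.rpow_nonneg hN0.le _) e4
    refine e1.trans (e3.trans (mul_le_mul_of_nonneg_left (ha1.trans haΛ) hε.le))
  · rw [div_le_one hΛa]
    linarith
  · unfold WW
    rw [← mul_div_assoc, le_div_iff₀ hpr0]
    rw [div_le_iff₀ hε] at hs4
    have e1 : as d N * ε ≤ Λ * a * ε := mul_le_mul_of_nonneg_right (ha.trans haΛ) hε.le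
    linarith
  · intro R hR
    have hW : WW d ρ β (Λ * a) ≤ N := by
      unfold WW
      rw [div_le_iff₀ hpr0]
      have e1 : am d N ≤ (N : ℝ) * (N : ℝ) ^ (-(2 * c)) := by
        rw [← Real.rpow_one_add' hN0.le ?_]
        · unfold am
          refine Real.rpow_le_rpow_of_exponent_le hNR ?_
          have e2 := hSc.csm
          have e3 : 1 / (2 * ((d : ℝ) + 2)) = 200 * (1 / (400 * ((d : ℝ) + 2))) := by
            field_simp
            norm_num
          have e4 : 1 / (400 * ((d : ℝ) + 2)) ≤ 1 / 800 := by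
            apply one_div_le_one_div_of_le (by norm_num)
            have : (0 : ℝ) ≤ d := Nat.cast_nonneg d
            linarith
          rw [e3]
          linarith
        · have e2 := hSc.csm
          have e4 : 1 / (400 * ((d : ℝ) + 2)) ≤ 1 / 800 := by
            apply one_div_le_one_div_of_le (by norm_num)
            have : (0 : ℝ) ≤ d := Nat.cast_nonneg d
            linarith
          have : 0 < 1 + -(2 * c) := by linarith
          exact this.ne'
      refine ha2.trans (e1.trans (mul_le_mul_of_nonneg_left hpr1 hN0.le))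
    have hW0 : 0 ≤ WW d ρ β (Λ * a) := div_nonneg hΛa.le hpr0.le
    have hRN : (R : ℝ) ≤ N := by
      have : ε * WW d ρ β (Λ * a) ≤ 1 * WW d ρ β (Λ * a) := mul_le_mul_of_nonneg_right hε1 hW0
      linarith
    have hR0 : (0 : ℝ) ≤ R := Nat.cast_nonneg R
    have h3N : 2 * (R : ℝ) + 1 ≤ 3 * N := by linarith
    have hlog : Real.log (3 * (N : ℝ)) ≤ Real.log 2 / (6 * (g * d + 1)) * (3 * as d N) := by
      have e1 : Real.log (3 * (N : ℝ)) ≤ ‖Real.log (3 * (N : ℝ))‖ := le_abs_self _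
      refine e1.trans (hN3.trans (mul_le_mul_of_nonneg_left ?_ hδ.le))
      rw [Real.norm_of_nonneg (Real.rpow_nonneg (by positivity) _), Real.mul_rpow (by norm_num) hN0.le]
      refine mul_le_mul_of_nonneg_right ?_ (Real.rpow_nonneg hN0.le _)
      calc (3 : ℝ) ^ (1 / (40 * ((d : ℝ) + 2))) ≤ (3 : ℝ) ^ (1 : ℝ) := Real.rpow_le_rpow_of_exponent_le (by norm_num) hr1
        _ = 3 := Real.rpow_one 3
    have hbase : (0 : ℝ) < 2 * (R : ℝ) + 1 := by linarith
    rw [← Real.log_le_log_iff (Real.rpow_pos_of_pos (pow_pos hbase _) _) (by norm_num), Real.log_rpow (pow_pos hbase _), Real.log_pow]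
    have hlogle : Real.log (2 * (R : ℝ) + 1) ≤ Real.log (3 * (N : ℝ)) := Real.log_le_log hbase h3N
    have hlog0 : 0 ≤ Real.log (3 * (N : ℝ)) := Real.log_nonneg (by linarith)
    have hgd : 0 ≤ g / (Λ * a) * (2 * d) := by positivity
    push_cast
    rw [← mul_assoc]
    refine (mul_le_mul_of_nonneg_left (hlogle.trans hlog) hgd).trans ?_
    have hfin : g / (Λ * a) * (2 * d) * (Real.log 2 / (6 * (g * d + 1)) * (3 * as d N)) =
        Real.log 2 * ((g * d) / (g * d + 1)) * (as d N / (Λ * a)) := by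
      field_simp
      ring
    rw [hfin]
    have e5 : (g * d) / (g * d + 1) ≤ 1 := by
      rw [div_le_one (by positivity)]
      linarith
    have e6 : as d N / (Λ * a) ≤ 1 := by
      rw [div_le_one hΛa]
      linarith
    have e7 : 0 ≤ (g * d) / (g * d + 1) := by positivity
    have e8 : 0 ≤ as d N / (Λ * a) := div_nonneg (by linarith) hΛa.le
    calc Real.log 2 * ((g * d) / (g * d + 1)) * (as d N / (Λ * a)) ≤ Real.log 2 * 1 * 1 := by
          refine mul_le_mul (mul_le_mul_of_nonneg_left e5 hlog2.le) e6 e8 (by linarith)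
      _ = Real.log 2 := by ring

end Pool.Agent.W_7d29a1_q
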