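import Pool.Agent.W_7d29a1_q.Mv
import Pool.Agent.W_7d29a1_q.NlA
import Pool.Agent.W_7d29a1_q.NlC
import Pool.Agent.W_7d29a1_q.NlH
import Pool.Agent.W_7d29a1_q.NlI
import Pool.Agent.W_7d29a1_q.NlJ
import Pool.Agent.W_7d29a1_q.NlK

/-!
Row 601, section 7: no linear windows. Assembly.
-/

namespace Pool.Agent.W_7d29a1_q

open MeasureTheory ProbabilityTheory Filter Topology Pool.Agent.W_MP_7d29a1_pr
  Pool.Agent.W_7d29a1_h46 Pool.Agent.W_7d29a1_h46u Pool.Agent.W_7d29a1_h3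

variable {d : ℕ}

private theorem NlM_eps {C Λ ε1 : ℝ} (hC : 1 ≤ C) (hΛ : 1 ≤ Λ) (hε1 : 0 < ε1) (hε11 : ε1 ≤ 1) :
    ∃ ε : ℝ, 0 < ε ∧ ε ≤ ε1 ∧ ε ≤ 1 ∧ C * ε ^ (3 / 4 : ℝ) * Λ ≤ 1 / 16 := by
  have hb : 0 < 1 / (16 * C * Λ) := by positivity
  refine ⟨min ε1 ((1 / (16 * C * Λ)) ^ (4 / 3 : ℝ)), lt_min hε1 (Real.rpow_pos_of_pos hb _),
    min_le_left _ _, (min_le_left _ _).trans hε11, ?_⟩
  have h1 : (min ε1 ((1 / (16 * C * Λ)) ^ (4 / 3 : ℝ))) ^ (3 / 4 : ℝ) ≤ 1 / (16 * C * Λ) := by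
    calc (min ε1 ((1 / (16 * C * Λ)) ^ (4 / 3 : ℝ))) ^ (3 / 4 : ℝ)
        ≤ ((1 / (16 * C * Λ)) ^ (4 / 3 : ℝ)) ^ (3 / 4 : ℝ) :=
          Real.rpow_le_rpow (lt_min hε1 (Real.rpow_pos_of_pos hb _)).le (min_le_right _ _)
            (by norm_num)
      _ = 1 / (16 * C * Λ) := by
          rw [← Real.rpow_mul hb.le]
          norm_num
  calc C * (min ε1 ((1 / (16 * C * Λ)) ^ (4 / 3 : ℝ))) ^ (3 / 4 : ℝ) * Λ
      ≤ C * (1 / (16 * C * Λ)) * Λ := by
        have hC0 : 0 ≤ C := by linarith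
        have hΛ0 : 0 ≤ Λ := by linarith
        exact mul_le_mul_of_nonneg_right (mul_le_mul_of_nonneg_left h1 hC0) hΛ0
    _ = 1 / 16 := by
        have hC0 : C ≠ 0 := by positivity
        have hΛ0 : Λ ≠ 0 := by positivity
        field_simp

/-- SECTION 7, Lemma 7 (no linear windows). -/
theorem nolin (j0 : Fin d) {Λ g C3 ε1 : ℝ} (hT : TailProp d Λ g C3 ε1) : ∃ A : ℕ, NLProp d Λ A := by
  obtain ⟨hΛ, hg, hC3, hε1, hε11, hTail⟩ := hT
  obtain ⟨C, hC, hcells⟩ := cells (d := d) j0 (q := 1 / 8) (by norm_num) (by norm_num)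
  obtain ⟨ε, hε, hεε1, hεone, hεC⟩ := NlM_eps hC hΛ hε1 hε11
  have hd : 0 < d := j0.pos
  have hd' : (0 : ℝ) < d := by exact_mod_cast hd
  obtain ⟨κ, hκd⟩ : ∃ κ : ℝ, κ = 3 / 16 * g * ε := ⟨_, rfl⟩
  obtain ⟨D, hDd⟩ : ∃ D : ℝ, D = 2 * Real.exp (2 * (3 / 4 * g * ε)) * C3 := ⟨_, rfl⟩
  obtain ⟨G, hGd⟩ : ∃ G : ℝ, G = (2 / (1 - Real.exp (-(κ / d)))) ^ d := ⟨_, rfl⟩
  have hκ : 0 < κ := by rw [hκd]; positivity
  have hD1 : 1 ≤ D := by
    have h1 : 1 ≤ Real.exp (2 * (3 / 4 * g * ε)) := Real.one_le_exp (by positivity)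
    have h2 : 1 ≤ Real.exp (2 * (3 / 4 * g * ε)) * C3 := one_le_mul_of_one_le_of_one_le h1 hC3
    rw [hDd, mul_assoc]
    linarith
  have hG1 : 1 ≤ G := by
    rw [hGd]
    apply one_le_pow₀
    have h1 : Real.exp (-(κ / d)) < 1 := Real.exp_lt_one_iff.2 (by rw [neg_lt_zero]; positivity)
    have h2 : 0 < Real.exp (-(κ / d)) := Real.exp_pos _
    rw [le_div_iff₀ (by linarith)]
    linarith
  have hC6 : 1 ≤ D * G := one_le_mul_of_one_le_of_one_le hD1 hG1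
  have hgΛ : 0 < g / Λ := by positivity
  obtain ⟨k, L, hk, hL, hn1, hn2⟩ := NlH_num d hκ hC6 hgΛ
  have hk' : (4 : ℝ) ≤ k := by exact_mod_cast hk
  have hL' : (1024 : ℝ) ≤ L := by
    have : 1024 ≤ L := by norm_num at hL; exact hL
    exact_mod_cast this
  have hkL : 4 * 1024 ≤ k * L := Nat.mul_le_mul hk (by norm_num at hL; exact hL)
  obtain ⟨A, hA⟩ : ∃ A : ℕ, A + 1 = 2 * k * L := by
    refine ⟨2 * k * L - 1, ?_⟩
    have : 2 * k * L = 2 * (k * L) := by ring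
    omega
  have hA' : (A : ℝ) = 2 * k * L - 1 := by
    have : ((A + 1 : ℕ) : ℝ) = ((2 * k * L : ℕ) : ℝ) := by rw [hA]
    push_cast at this
    linarith
  have hA2 : 2 ≤ A := by
    have : 2 * k * L = 2 * (k * L) := by ring
    omega
  refine ⟨A, hA2, fun ρ _ β c a0 hρ => ?_⟩
  filter_upwards [hTail ρ β c a0 hρ, hcells ρ β c a0 hρ, NlK_ev d ρ β c a0 hΛ hg hε hεone,
    eventually_ge_atTop 1] with N h1 h2 h3 hN1
  intro S a ha ha1 ha2 hr
  obtain ⟨k1, k2, k3, k4, k5, k6⟩ := h3 S a ha ha1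
  have ha0 : 0 < a := by linarith [S.one]
  have haam : a ≤ am d N := (le_mul_of_one_le_left ha0.le hΛ).trans ha1
  have hΛa : 0 < Λ * a := by positivity
  by_contra hcon
  push Not at hcon
  obtain ⟨n, hn⟩ : ∃ n : ℕ, n = nn d ρ β a := ⟨_, rfl⟩
  rw [← hn] at hcon
  have hSn : SS d ρ β n ≤ a := by rw [hn]; exact SS_nn S ha0.le haam
  have hn0 : 1 ≤ n := by rw [hn]; exact (le_nn S haam).2 (Or.inr (S.S1.trans k2))
  obtain ⟨m, hm⟩ : ∃ m : ℕ, m = 2 * k * n := ⟨_, rfl⟩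
  have hm1 : 1 ≤ m := by
    rw [hm]
    have : 1 * 1 ≤ (2 * k) * n := Nat.mul_le_mul (by omega) hn0
    simpa using this
  have hSm : SS d ρ β m ≤ 2 * k * a := by
    have := SS_mul (β := β) j0 hρ (2 * k) n
    rw [← hm] at this
    push_cast at this
    refine this.trans ?_
    exact mul_le_mul_of_nonneg_left hSn (by positivity)
  have e1 : (A + 1) * n = L * m := by rw [hA, hm]; ring
  rw [e1] at hcon
  have hL0 : (0 : ℝ) ≤ L - 1 := by linarith
  have hnear : ((L : ℝ) - 1) * SS d ρ β m ≤ SS d ρ β (L * m) := by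
    refine le_trans (mul_le_mul_of_nonneg_left hSm hL0) (le_trans ?_ hcon.le)
    rw [hA']
    have h4 : ((L : ℝ) - 1) * (2 * k * a) = (2 * k * L - 2 * k) * a := by ring
    rw [h4]
    exact mul_le_mul_of_nonneg_right (by linarith) ha0.le
  have hlow : (2 * (k : ℝ) - 1) * a ≤ SS d ρ β m := by
    have h4 := SS_add (β := β) j0 hρ ((L - 1) * m) m
    have h5 := SS_mul (β := β) j0 hρ (L - 1) m
    have h7 : (L - 1) * m + m = L * m := by
      rw [← Nat.succ_mul]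
      congr 1
      omega
    have h8 : ((L - 1 : ℕ) : ℝ) = L - 1 := by
      rw [Nat.cast_sub (by omega), Nat.cast_one]
    rw [h7] at h4
    rw [h8] at h5
    have h6 := mul_le_mul_of_nonneg_left hSm hL0
    rw [hA'] at hcon
    have h9 : (2 * (k : ℝ) * L - 1) * a = (2 * k - 1) * a + (L - 1) * (2 * k * a) := by ring
    linarith
  have hrefl : ∀ z : Site d, (law d ρ).real {η : Env d | Tle ρ β η (k * n) z (3 / 4 * k * a)} ≤
      32 * (L : ℝ) ^ (-(1 / 4) : ℝ) := by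
    intro z
    rw [hm] at hlow hnear
    exact nl_point j0 hρ hk hL hn0 ha0.le hlow hnear z
  have hCa : C * ε ^ (3 / 4 : ℝ) * (Λ * a) ≤ a / 16 := by
    calc C * ε ^ (3 / 4 : ℝ) * (Λ * a) = C * ε ^ (3 / 4 : ℝ) * Λ * a := by ring
      _ ≤ 1 / 16 * a := mul_le_mul_of_nonneg_right hεC ha0.le
      _ = a / 16 := by ring
  obtain ⟨τ, hτ, hmv⟩ := h2 S (Λ * a) ε ha1 hr hε hεone k3 (by linarith)
  have hτn : 16 * τ ≤ n := by
    rw [hn]
    refine (le_nn S haam).2 (Or.inr ?_)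
    have h4 := SS_mul (β := β) j0 hρ 16 τ
    push_cast at h4
    linarith
  obtain ⟨W, hW⟩ : ∃ W : ℝ, W = ε * WW d ρ β (Λ * a) := ⟨_, rfl⟩
  rw [← hW] at k5 k6
  obtain ⟨R, hRd⟩ : ∃ R : ℕ, R = 2 * ⌊W / 2⌋₊ := ⟨_, rfl⟩
  have hRe : Even R := by rw [hRd]; exact even_two_mul _
  have hRle : (R : ℝ) ≤ W := by
    rw [hRd]
    push_cast
    have := Nat.floor_le (a := W / 2) (by linarith)
    linarith
  have hRge : W / 2 ≤ R := by
    rw [hRd]
    push_cast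
    have := Nat.lt_floor_add_one (W / 2)
    linarith
  have hR2 : 2 ≤ R := by
    have : (2 : ℝ) ≤ R := by linarith
    exact_mod_cast this
  have hπ : 0 < pr d ρ β (Λ * a) :=
    pr_pos S hN1 (k2.trans (le_mul_of_one_le_left ha0.le hΛ)) ha1
  obtain ⟨γ, hγd⟩ : ∃ γ : ℝ, γ = g / (Λ * a) := ⟨_, rfl⟩
  rw [← hγd] at k4 k6
  have hγ : 0 < γ := by rw [hγd]; positivity
  have hWW : γ * (3 / 4 * pr d ρ β (Λ * a)) * W = 3 / 4 * g * ε := by
    rw [hγd, hW, WW]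
    field_simp
  have hθ : 0 < 3 / 4 * pr d ρ β (Λ * a) := by positivity
  have hup : γ * (3 / 4 * pr d ρ β (Λ * a)) * R ≤ 3 / 4 * g * ε := by
    rw [← hWW]
    exact mul_le_mul_of_nonneg_left hRle (by positivity)
  have hdn : 2 * κ ≤ γ * (3 / 4 * pr d ρ β (Λ * a)) * R := by
    have h4 : γ * (3 / 4 * pr d ρ β (Λ * a)) * (W / 2) ≤ γ * (3 / 4 * pr d ρ β (Λ * a)) * R :=
      mul_le_mul_of_nonneg_left hRge (by positivity)
    have h5 : γ * (3 / 4 * pr d ρ β (Λ * a)) * (W / 2) = 3 / 4 * g * ε / 2 := by rw [← hWW]; ring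
    rw [h5] at h4
    rw [hκd]
    linarith
  have hT1 := h1 S a k1 ha1 hr
  rw [← hγd, ← hn] at hT1
  have hWp : 0 ≤ WW d ρ β (Λ * a) := by unfold WW; positivity
  have hRε1 : (R : ℝ) ≤ ε1 * WW d ρ β (Λ * a) := by
    refine hRle.trans ?_
    rw [hW]
    exact mul_le_mul_of_nonneg_right hεε1 hWp
  have hpc : ∀ t ≤ n, ∀ z : Site d, mm d ρ β R γ t z ≤ D * Real.exp (-(2 * κ * sn z)) := by
    intro t ht z
    refine (NlG_piece hρ hT1 hγ k4 hθ.le hRe hRε1 ht z).trans ?_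
    refine mul_le_mul ?_ ?_ (Real.exp_pos _).le (by linarith)
    · rw [hDd]
      refine mul_le_mul_of_nonneg_right ?_ (by linarith)
      refine mul_le_mul (k6 R hRle) ?_ (Real.exp_pos _).le (by norm_num)
      exact Real.exp_le_exp.2 (by linarith)
    · refine Real.exp_le_exp.2 (neg_le_neg ?_)
      exact mul_le_mul_of_nonneg_right hdn (Nat.cast_nonneg _)
  obtain ⟨t, ht⟩ : ∃ t : ℕ, t = (k - 1) * n + (n - 2 * τ) := ⟨_, rfl⟩
  have htk : t + 2 * τ = k * n := by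
    have h4 : (k - 1) * n + n = k * n := by
      rw [← Nat.succ_mul]
      congr 1
      omega
    omega
  have ht1 : 1 ≤ t := by omega
  have hE : ∀ z : Site d, mm d ρ β R γ t z ≤ (D * G) ^ k * Real.exp (-(κ * sn z)) := by
    intro z
    have h4 := NlG_iter j0 hρ hRe hR2 hγ k4 hκ.le (by linarith) hpc
      (fun B => (NlG_geo j0 hκ B).trans_eq hGd.symm) (k - 1) (Nat.sub_le n (2 * τ)) z
    rw [← ht] at h4
    refine h4.trans (mul_le_mul_of_nonneg_right ?_ (Real.exp_pos _).le)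
    have h5 : (D * G) ^ k = (D * G) ^ (k - 1) * (D * G) := by
      rw [← pow_succ]
      congr 1
      omega
    rw [h5]
    exact mul_le_mul_of_nonneg_left (le_mul_of_one_le_right (by linarith) hG1) (by positivity)
  have hX : ∀ z : Site d, (law d ρ).real {η : Env d | ∃ x ∈ ofs d R, ∃ y ∈ ofs d R,
      Tle ρ β (sh 0 x η) t (y + (R : ℤ) • z - x) (k * a / 2)} ≤
      4 / 3 * (32 * (L : ℝ) ^ (-(1 / 4) : ℝ)) := by
    intro z
    refine NlC_cells t τ R hRe z (v := a / 16) ?_ ?_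
    · intro w hw hwR
      refine le_trans (measureReal_mono fun η hη => ?_) (hmv w hw ?_)
      · intro h4
        exact hη (Tle_mono h4 hCa)
      · rw [← hW]
        exact le_trans (by exact_mod_cast hwR) hRle
    · rw [htk]
      refine le_trans (measureReal_mono fun η hη => ?_) (hrefl ((R : ℤ) • z))
      have h6 : (k : ℝ) * a / 2 + 2 * (a / 16) ≤ 3 / 4 * k * a := by
        have h7 : 4 * a ≤ k * a := mul_le_mul_of_nonneg_right hk' ha0.le
        linarith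
      exact Tle_mono (show Tle ρ β η (k * n) ((R : ℤ) • z) _ from hη) h6
  have hγ2 : ((2 * (R : ℝ) + 1) ^ (2 * d)) ^ (γ / 2) ≤ 2 := by
    refine le_trans (Real.rpow_le_rpow_of_exponent_le ?_ (by linarith)) (k6 R hRle)
    exact one_le_pow₀ (by linarith [Nat.cast_nonneg (α := ℝ) R])
  have hu : γ / 2 * (k * a / 2) = g / Λ * k / 4 := by
    rw [hγd]
    field_simp
    ring
  have hF := NlI_F j0 hρ (R := R) (t := t) (K := k ^ 2) (γ := γ) (κ := κ) (E := (D * G) ^ k)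
    (u := k * a / 2) (p := 4 / 3 * (32 * (L : ℝ) ^ (-(1 / 4) : ℝ))) hγ k4 hκ (by positivity) hE hX hγ2
    (by rw [hu]; push_cast; exact hn1) (by push_cast; exact hn2)
  exact NlJ_contra j0 hρ hRe hR2 (by positivity) (by linarith) ht1 hF

end Pool.Agent.W_7d29a1_q
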