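import Pool.Agent.W_7d29a1_q.NuE
import Pool.Agent.W_7d29a1_q.NuF
import Pool.Agent.W_7d29a1_q.NuM

/-!
The final statement of THEOREM (Q) from `hyp_false`.
-/

namespace Pool.Agent.W_7d29a1_q

open MeasureTheory ProbabilityTheory Filter Topology Pool.Agent.W_MP_7d29a1_pr
  Pool.Agent.W_7d29a1_h46

/-- The expectation `E_n^{β,η} (exp ⟨h, S_n⟩)` under the polymer measure `P_n^{β,η}`. -/
noncomputable def polMGF {d : ℕ} (β : ℝ) (h : Vec d) (η : ℕ × Site d → ℝ) (n : ℕ) : ℝ :=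
  (∑ s : Fin n → Step d, Real.exp (inner ℝ h (emb (pos s n))) * Real.exp (β * energy η s)) /
    ∑ s : Fin n → Step d, Real.exp (β * energy η s)

/-- The site `y` can be reached in `n` steps and its `ℓ¹` norm is at most `r`. -/
def near {d : ℕ} (n : ℕ) (r : ℝ) (y : Site d) : Prop :=
  ((∑ j, (y j).natAbs : ℕ) : ℝ) ≤ r ∧ (∑ j, (y j).natAbs) ≤ n ∧ (∑ j, (y j).natAbs + n) % 2 = 0

private theorem NuR_mgf {d : ℕ} (hd : 0 < d) (β : ℝ) (h : Vec d) (η : ℕ × Site d → ℝ) (n : ℕ) :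
    Real.log (polMGF β h η n) = W_7d29a1_h46u.X β h η n - W_7d29a1_h46u.X β (0 : Vec d) η n := by
  have h1 : polMGF β h η n = W_7d29a1_h46u.Z β h η n / W_7d29a1_h46u.Z β (0 : Vec d) η n := by
    unfold polMGF W_7d29a1_h46u.Z ZT
    congr 1
    · refine Finset.sum_congr rfl fun s _ => ?_
      simp [wgt, Real.exp_add]
    · refine Finset.sum_congr rfl fun s _ => ?_
      simp [wgt]
  rw [h1, Real.log_div (W_7d29a1_h46u.Z_pos hd β h η n).ne' (W_7d29a1_h46u.Z_pos hd β 0 η n).ne']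
  rfl

/-- Arithmetic: the constant `κ = 0.8 / (K (d + 2)^2)`. -/
private theorem NuR_num (d : ℕ) {K : ℝ} (hK : 3 ≤ K) : ∃ κ : ℝ, 0 < κ ∧ κ ≤ 1 ∧ K ≤ 1 / κ ∧
    1 + κ ≤ K / (K - 1) ∧ 1 / ((d : ℝ) + 2) + κ ≤ 1 / ((d : ℝ) + 2 - 0.8 / K) := by
  have hd : (0 : ℝ) ≤ d := Nat.cast_nonneg d
  have hK0 : 0 < K := by linarith
  obtain ⟨D, hD⟩ : ∃ D : ℝ, D = (d : ℝ) + 2 := ⟨_, rfl⟩
  have hD2 : 2 ≤ D := by rw [hD]; linarith
  obtain ⟨x, hx⟩ : ∃ x : ℝ, x = 0.8 / K := ⟨_, rfl⟩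
  have hx0 : 0 < x := by rw [hx]; positivity
  have hxK : x * K = 0.8 := by rw [hx]; field_simp
  have hx1 : x ≤ 0.8 / 3 := by
    rw [hx]
    exact div_le_div_of_nonneg_left (by norm_num) (by norm_num) hK
  rw [← hD, ← hx]
  have hDx : 0 < D - x := by linarith
  refine ⟨x / D ^ 2, by positivity, ?_, ?_, ?_, ?_⟩
  · rw [div_le_one (by positivity)]
    nlinarith
  · rw [one_div_div, le_div_iff₀ hx0]
    nlinarith
  · have h1 : x / D ^ 2 ≤ x := div_le_self hx0.le (by nlinarith)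
    have h2 : K / (K - 1) = 1 + 1 / (K - 1) := by
      have : K - 1 ≠ 0 := by
        intro h
        linarith
      field_simp
      ring
    rw [h2]
    have h3 : x ≤ 1 / (K - 1) := by
      rw [le_div_iff₀ (by linarith)]
      nlinarith
    linarith
  · have h1 : 1 / (D - x) = 1 / D + x / (D * (D - x)) := by
      field_simp
      ring
    rw [h1]
    have h2 : x / D ^ 2 ≤ x / (D * (D - x)) := by
      refine div_le_div_of_nonneg_left hx0.le (by positivity) ?_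
      nlinarith
    linarith

theorem final_of {d : ℕ} (hd : 1 ≤ d)
    (hyp : ∃ c : ℝ, 0 < c ∧ c ≤ 1 / (400 * ((d : ℝ) + 2)) ∧
      ∀ (ρ : Measure ℝ) [IsProbabilityMeasure ρ] (β : ℝ), W_7d29a1_h46u.EM ρ →
        (∀ c : ℝ, ρ {c} ≠ 1) → 0 < β → ∀ᶠ N : ℕ in atTop, ¬ Hy d ρ β c N) :
    ∃ κ : ℝ, 0 < κ ∧ ∀ {Ω : Type*} [MeasurableSpace Ω] (μ : Measure Ω) [IsProbabilityMeasure μ]
      (ω : ℕ × Site d → Ω → ℝ), (∀ p, Measurable (ω p)) → iIndepFun ω μ →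
      (∀ p q, IdentDistrib (ω p) (ω q) μ μ) → (∀ p, ¬ ∃ c : ℝ, ∀ᵐ x ∂μ, ω p x = c) →
      (∀ (b : ℝ) p, Integrable (fun x => Real.exp (b * ω p x)) μ) → ∀ {β : ℝ}, 0 < β →
      1 / ((d : ℝ) + 2) + κ ≤ nu μ β ω ∧
      ∃ L : Vec d → ℝ,
        (∀ h, ∀ᵐ x ∂μ, Tendsto (fun n : ℕ => Real.log (polMGF β h (fun p => ω p x) n) / n) atTop
          (𝓝 (L h))) ∧
        ConvexOn ℝ Set.univ L ∧
        (∃ c : ℝ, 0 < c ∧ ∀ h, ‖h‖ ≤ 1 → c * ‖h‖ ^ (1 / κ) ≤ L h) ∧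
        (∀ h, ∀ c < L h, ∀ᵐ x ∂μ, Tendsto (fun n : ℕ => PolT β h (fun p => ω p x)
          {s : Fin n → Step d | c * n ≤ inner ℝ h (emb (pos s n))}) atTop (𝓝 1)) ∧
        (∃ C δ0 : ℝ, 0 < C ∧ 0 < δ0 ∧ ∀ δ > 0, δ ≤ δ0 → ∀ᵐ x ∂μ, ∀ᶠ n : ℕ in atTop, ∀ y : Site d,
          near n (δ * n) y → Real.exp (-(C * δ ^ (1 + κ) * n)) ≤
            Pol β (fun p => ω p x) n {s : Fin n → Step d | pos s n = y}) := by
  obtain ⟨K, hK, HPL⟩ := PL_of (⟨0, hd⟩ : Fin d) hyp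
  obtain ⟨κ, hκ, hκ1, hκK, hκK1, hκν⟩ := NuR_num d hK
  refine ⟨κ, hκ, ?_⟩
  intro Ω _ μ _ ω hmeas hindep hident hnc hexp β hβ
  set p0 : ℕ × Site d := (0, 0) with hp0
  set ρ : Measure ℝ := μ.map (ω p0) with hρ
  have : IsProbabilityMeasure ρ := Measure.isProbabilityMeasure_map (hmeas p0).aemeasurable
  have hω : IID μ ρ ω := ⟨hmeas, hindep, fun p => (hident p p0).map_eq⟩
  have hnc' : ∀ c : ℝ, ρ {c} ≠ 1 := by
    intro c hc
    apply hnc p0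
    refine ⟨c, ?_⟩
    rw [hρ, Measure.map_apply (hmeas p0) (measurableSet_singleton c)] at hc
    have h1 : MeasurableSet (ω p0 ⁻¹' {c}) := hmeas p0 (measurableSet_singleton c)
    exact (prob_compl_eq_zero_iff h1).2 hc
  have hexp' : W_7d29a1_h46u.EM ρ := by
    intro b
    rw [hρ, integrable_map_measure (by fun_prop) (hmeas p0).aemeasurable]
    exact hexp b p0
  have hmp := W_7d29a1_h46u.mp_env hω
  have tr : ∀ {P : (ℕ × Site d → ℝ) → Prop}, (∀ᵐ η ∂(W_7d29a1_h46u.law d ρ), P η) →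
      ∀ᵐ x ∂μ, P (fun p => ω p x) := fun hP => hmp.quasiMeasurePreserving.ae hP
  obtain ⟨c, hc, hp⟩ := HPL ρ β hexp' hnc' hβ
  obtain ⟨c', hc', hpow⟩ := pow_of_PL (⟨0, hd⟩ : Fin d) hexp' β (by linarith) hc hp
  refine ⟨hκν.trans (nu_of_pow hω (⟨0, hd⟩ : Fin d) hexp' hnc' hβ hK hc hp),
    fun h => W_7d29a1_h46u.lam ρ β h - W_7d29a1_h46u.lam ρ β (0 : Vec d), fun h => ?_, ?_,
    ⟨c', hc', fun h hh => ?_⟩, fun h c hc => tr (W_7d29a1_h3.ballistic hd hexp' β h hc), ?_⟩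
  · filter_upwards [tr (W_7d29a1_h3.ae_X hd hexp' β h), tr (W_7d29a1_h3.ae_X hd hexp' β (0 : Vec d))]
      with x h1 h2
    refine (h1.sub h2).congr fun n => ?_
    rw [NuR_mgf hd, sub_div]
  · have h1 := (W_7d29a1_h46u.lam_convex hd hexp' β).add_const
      (-W_7d29a1_h46u.lam ρ β (0 : Vec d))
    have h2 : ((fun h : Vec d => W_7d29a1_h46u.lam ρ β h) +
        fun _ => -W_7d29a1_h46u.lam ρ β (0 : Vec d)) = fun h =>
        W_7d29a1_h46u.lam ρ β h - W_7d29a1_h46u.lam ρ β (0 : Vec d) := by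
      funext h
      simp [sub_eq_add_neg]
    rw [h2] at h1
    exact h1
  · have h1 := hpow h hh
    rcases eq_or_ne h 0 with h0 | h0
    · subst h0
      rw [norm_zero, Real.zero_rpow (by positivity), mul_zero]
      exact (sub_self _).ge
    have h2 : ‖h‖ ^ (1 / κ) ≤ ‖h‖ ^ K :=
      Real.rpow_le_rpow_of_exponent_ge (norm_pos_iff.2 h0) hh hκK
    have h3 := mul_le_mul_of_nonneg_left h2 hc'.le
    show c' * ‖h‖ ^ (1 / κ) ≤ W_7d29a1_h46u.lam ρ β h - W_7d29a1_h46u.lam ρ β (0 : Vec d)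
    linarith
  · obtain ⟨C, δ0, hC, hδ0, H⟩ := pol_point_pow (⟨0, hd⟩ : Fin d) hexp' (by linarith : 1 < K) hc hp
    refine ⟨C, min δ0 1, hC, lt_min hδ0 one_pos, fun δ hδ hδδ => ?_⟩
    filter_upwards [tr (H δ hδ (hδδ.trans (min_le_left _ _)))] with x hx
    filter_upwards [hx] with n hn y hy
    refine le_trans (Real.exp_le_exp.2 ?_) (hn y hy.2 hy.1)
    have h1 : δ ^ (K / (K - 1)) ≤ δ ^ (1 + κ) :=
      Real.rpow_le_rpow_of_exponent_ge hδ (hδδ.trans (min_le_right _ _)) hκK1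
    have h2 : C * δ ^ (K / (K - 1)) * n ≤ C * δ ^ (1 + κ) * n :=
      mul_le_mul_of_nonneg_right (mul_le_mul_of_nonneg_left h1 hC.le) (Nat.cast_nonneg n)
    linarith

end Pool.Agent.W_7d29a1_q
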