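import Pool.Agent.W_7d29a1_q.BasD

/-!
Row 601, section 4: the first completion. TASK PtB.
-/

namespace Pool.Agent.W_7d29a1_q

open MeasureTheory ProbabilityTheory Filter Topology Pool.Agent.W_MP_7d29a1_pr
  Pool.Agent.W_7d29a1_h46 Pool.Agent.W_7d29a1_h46u Pool.Agent.W_7d29a1_h3

variable {d : ℕ} {ρ : Measure ℝ} [IsProbabilityMeasure ρ] {β : ℝ}

/-- An enumeration with nondecreasing values. -/
private theorem PtB_enum {ι : Type} (J : Finset ι) (m : ι → ℕ) :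
    ∃ (K : ℕ) (e : Fin K → ι), (∀ i, e i ∈ J) ∧ (∀ x ∈ J, ∃ i, e i = x) ∧
      ∀ i j, j ≤ i → m (e j) ≤ m (e i) := by
  classical
  set e : Fin J.card → ι := fun i => (J.equivFin.symm i : ι) with he
  refine ⟨J.card, fun i => e (Tuple.sort (m ∘ e) i), fun i => (J.equivFin.symm _).2, ?_, ?_⟩
  · intro x hx
    refine ⟨(Tuple.sort (m ∘ e)).symm (J.equivFin ⟨x, hx⟩), ?_⟩
    simp [he]
  · intro i j hij
    exact Tuple.monotone_sort (m ∘ e) hij

/-- The first completion: `F i` is an event of the rows `≤ 2 m i`, `B i` (bad) an event of the rows `> 2 m i`.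
PROOF. Enumerate `J` with nondecreasing `m` (`Tuple.sort`, as `Pool.Agent.W_1b8d5d_c1.exists_enum` in
`W_1b8d5d_c1/Max1.lean`): `e : Fin K → ι`. `A k = F (e k) \ ⋃ k' < k, F (e k')` is an event of the rows `≤ 2 m (e k)`, the
`A k` are disjoint with union `⋃ F i`; `sm_ge` with the complements of the `B (e k)`. -/
theorem pt_first {ι : Type} (J : Finset ι) (m : ι → ℕ) (F B : ι → Set (Env d))
    (hFm : ∀ i ∈ J, MeasurableSet (F i)) (hBm : ∀ i ∈ J, MeasurableSet (B i))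
    (hF : ∀ i ∈ J, ∀ η η' : Env d, (∀ p : ℕ × Site d, p.1 ≤ 2 * m i → η p = η' p) → (η ∈ F i ↔ η' ∈ F i))
    (hB : ∀ i ∈ J, ∀ η η' : Env d, (∀ p : ℕ × Site d, 2 * m i < p.1 → η p = η' p) → (η ∈ B i ↔ η' ∈ B i))
    {q : ℝ} (hq : ∀ i ∈ J, (law d ρ).real (B i) ≤ q) :
    (1 - q) * (law d ρ).real {η | ∃ i ∈ J, η ∈ F i} ≤
      (law d ρ).real {η | ∃ i ∈ J, η ∈ F i ∧ η ∉ B i} := by
  classical
  obtain ⟨K, e, heJ, heS, hem⟩ := PtB_enum J m
  obtain ⟨A, hA⟩ : ∃ A : Fin K → Set (Env d), A = fun k => {η | η ∈ F (e k) ∧ ∀ k' < k, η ∉ F (e k')} :=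
    ⟨_, rfl⟩
  have hmem : ∀ (k : Fin K) (η : Env d), η ∈ A k ↔ (η ∈ F (e k) ∧ ∀ k' < k, η ∉ F (e k')) := by
    intro k η
    rw [hA]
    exact Iff.rfl
  have hAm : ∀ k ∈ (Finset.univ : Finset (Fin K)), MeasurableSet (A k) := by
    intro k _
    have h1 : A k = F (e k) ∩ ⋂ k' ∈ Finset.univ.filter fun k' : Fin K => k' < k, (F (e k'))ᶜ := by
      ext η
      rw [hmem]
      simp only [Set.mem_inter_iff, Set.mem_iInter, Finset.mem_filter, Finset.mem_univ, true_and,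
        Set.mem_compl_iff]
    rw [h1]
    refine (hFm _ (heJ k)).inter ?_
    exact Finset.measurableSet_biInter _ fun k' _ => (hFm _ (heJ k')).compl
  have hBm' : ∀ k ∈ (Finset.univ : Finset (Fin K)), MeasurableSet ((B (e k))ᶜ) :=
    fun k _ => (hBm _ (heJ k)).compl
  have hA' : ∀ k ∈ (Finset.univ : Finset (Fin K)), ∀ η η' : Env d,
      (∀ p ∈ {p : ℕ × Site d | p.1 ≤ 2 * m (e k)}, η p = η' p) → (η ∈ A k ↔ η' ∈ A k) := by
    intro k _ η η' h
    have h1 : ∀ k' ≤ k, (η ∈ F (e k') ↔ η' ∈ F (e k')) := by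
      intro k' hk'
      refine hF _ (heJ k') η η' fun p hp => h p ?_
      have h2 := hem k k' hk'
      show p.1 ≤ 2 * m (e k)
      omega
    rw [hmem, hmem, h1 k le_rfl]
    constructor
    · rintro ⟨h3, h4⟩
      exact ⟨h3, fun k' hk' h5 => h4 k' hk' ((h1 k' hk'.le).2 h5)⟩
    · rintro ⟨h3, h4⟩
      exact ⟨h3, fun k' hk' h5 => h4 k' hk' ((h1 k' hk'.le).1 h5)⟩
  have hB' : ∀ k ∈ (Finset.univ : Finset (Fin K)), ∀ η η' : Env d,
      (∀ p ∉ {p : ℕ × Site d | p.1 ≤ 2 * m (e k)}, η p = η' p) →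
        (η ∈ (B (e k))ᶜ ↔ η' ∈ (B (e k))ᶜ) := by
    intro k _ η η' h
    have h1 : η ∈ B (e k) ↔ η' ∈ B (e k) := by
      refine hB _ (heJ k) η η' fun p hp => h p ?_
      show ¬ p.1 ≤ 2 * m (e k)
      omega
    exact not_congr h1
  have hdis : ∀ i ∈ (Finset.univ : Finset (Fin K)), ∀ j ∈ (Finset.univ : Finset (Fin K)), i ≠ j →
      Disjoint (A i) (A j) := by
    intro i _ j _ hij
    refine Set.disjoint_left.2 fun η h1 h2 => ?_
    have h1' := (hmem i η).1 h1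
    have h2' := (hmem j η).1 h2
    rcases lt_or_gt_of_ne hij with h | h
    · exact h2'.2 i h h1'.1
    · exact h1'.2 j h h2'.1
  have hq' : ∀ k ∈ (Finset.univ : Finset (Fin K)), 1 - q ≤ (law d ρ).real ((B (e k))ᶜ) := by
    intro k _
    rw [probReal_compl_eq_one_sub (hBm _ (heJ k))]
    linarith [hq _ (heJ k)]
  have hmain := sm_ge (ρ := ρ) (Finset.univ : Finset (Fin K)) A (fun k => (B (e k))ᶜ)
    (fun k => {p : ℕ × Site d | p.1 ≤ 2 * m (e k)}) hAm hBm' hA' hB' hdis hq'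
  -- the union
  have hun : {η : Env d | ∃ i ∈ J, η ∈ F i} = {η | ∃ k ∈ (Finset.univ : Finset (Fin K)), η ∈ A k} := by
    ext η
    constructor
    · rintro ⟨i, hi, hη⟩
      obtain ⟨k, rfl⟩ := heS i hi
      have hne : (Finset.univ.filter fun k : Fin K => η ∈ F (e k)).Nonempty :=
        ⟨k, Finset.mem_filter.2 ⟨Finset.mem_univ _, hη⟩⟩
      obtain ⟨k0, hk0, hmin⟩ := Finset.exists_min_image _ id hne
      refine ⟨k0, Finset.mem_univ _, (hmem k0 η).2 ⟨(Finset.mem_filter.1 hk0).2, fun k' hk' h5 => ?_⟩⟩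
      have h6 := hmin k' (Finset.mem_filter.2 ⟨Finset.mem_univ _, h5⟩)
      exact absurd hk' (not_lt.2 h6)
    · rintro ⟨k, _, hη⟩
      exact ⟨e k, heJ k, ((hmem k η).1 hη).1⟩
  rw [hun]
  refine hmain.trans (measureReal_mono ?_)
  rintro η ⟨k, _, h1, h2⟩
  exact ⟨e k, heJ k, ((hmem k η).1 h1).1, h2⟩

end Pool.Agent.W_7d29a1_q
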