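import Pool.Agent.W_7d29a1_q.BasC

/-!
Row 601, section 4: the waits before the lucky window, the lucky windows. TASK PtC.
-/

namespace Pool.Agent.W_7d29a1_q

open MeasureTheory ProbabilityTheory Filter Topology Pool.Agent.W_MP_7d29a1_pr
  Pool.Agent.W_7d29a1_h46 Pool.Agent.W_7d29a1_h46u Pool.Agent.W_7d29a1_h3

variable {d : ℕ} {ρ : Measure ℝ} [IsProbabilityMeasure ρ] {β : ℝ}

/-- The cost of waiting at `0` during `I` windows of half length `h` (positive parts). -/
noncomputable def pw (ρ : Measure ℝ) (β : ℝ) (η : Env d) (h I : ℕ) : ℝ :=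
  ∑ j ∈ Finset.range I, max (-Real.log (Vp ρ β (sh (2 * (j * h)) 0 η) (2 * h) 0)) 0

/-- Induction on `i` with `Tle_add`, `sh_sh`. -/
theorem pt_pre (j0 : Fin d) (η : Env d) (h : ℕ) {i I : ℕ} (hi : i ≤ I) : Tle ρ β η (i * h) 0 (pw ρ β η h I) := by
  have key : ∀ i : ℕ, Tle ρ β η (i * h) 0 (pw ρ β η h i) := by
    intro i
    induction i with
    | zero =>
      rw [zero_mul]
      exact Tle_zero η (by simp [pw])
    | succ i ih =>
      have h1 : Tle ρ β (sh (2 * (i * h)) 0 η) h 0
          (max (-Real.log (Vp ρ β (sh (2 * (i * h)) 0 η) (2 * h) 0)) 0) := by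
        have hpos : 0 < Vp ρ β (sh (2 * (i * h)) 0 η) (2 * h) 0 := Vp_pos j0 _ (adm_zero h)
        unfold Tle
        rw [← Real.le_log_iff_exp_le hpos]
        linarith [le_max_left (-Real.log (Vp ρ β (sh (2 * (i * h)) 0 η) (2 * h) 0)) 0]
      have h2 := Tle_add ih h1
      rw [add_zero] at h2
      have h3 : (i + 1) * h = i * h + h := by ring
      rw [h3]
      unfold pw at h2 ⊢
      rw [Finset.sum_range_succ]
      exact h2
  refine Tle_mono (key i) ?_
  unfold pw
  exact Finset.sum_le_sum_of_subset_of_nonneg (Finset.range_mono hi) fun _ _ _ => le_max_right _ _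

/-- Markov with `wait_mean`. -/
theorem pt_pre_prob (j0 : Fin d) (hρ : EM ρ) (h I : ℕ) {w : ℝ} (hw : 0 < w) :
    MeasurableSet {η : Env d | w < pw ρ β η h I} ∧
      (law d ρ).real {η : Env d | w < pw ρ β η h I} ≤ I * SS d ρ β h / w := by
  have hm0 : Measurable fun η : Env d => max (-Real.log (Vp ρ β η (2 * h) 0)) 0 :=
    ((Real.measurable_log.comp (measurable_V _)).neg).max measurable_const
  have hm1 : ∀ j, Measurable fun η : Env d =>
      max (-Real.log (Vp ρ β (sh (2 * (j * h)) 0 η) (2 * h) 0)) 0 := fun j =>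
    hm0.comp (measurable_sh _ _)
  have hm : Measurable fun η : Env d => pw ρ β η h I := by
    unfold pw
    exact Finset.measurable_sum _ fun j _ => hm1 j
  have hi0 := wait_mean (β := β) j0 hρ (le_refl h)
  have hi1 : ∀ j, Integrable (fun η : Env d =>
      max (-Real.log (Vp ρ β (sh (2 * (j * h)) 0 η) (2 * h) 0)) 0) (law d ρ) := fun j =>
    (mp_sh (ρ := ρ) (2 * (j * h)) 0).integrable_comp_of_integrable hi0.1
  have hi2 : ∀ j, ∫ η : Env d, max (-Real.log (Vp ρ β (sh (2 * (j * h)) 0 η) (2 * h) 0)) 0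
      ∂(law d ρ) ≤ SS d ρ β h := fun j => by
    have h1 := integral_sh (ρ := ρ) (2 * (j * h)) (0 : Site d) hm0
    exact (le_of_eq h1).trans hi0.2
  refine ⟨measurableSet_lt measurable_const hm, ?_⟩
  have hpw0 : ∀ η : Env d, 0 ≤ pw ρ β η h I := fun η =>
    Finset.sum_nonneg fun j _ => le_max_right _ _
  have hint : Integrable (fun η : Env d => pw ρ β η h I) (law d ρ) := by
    unfold pw
    exact integrable_finsetSum _ fun j _ => hi1 j
  have h1 := mul_meas_ge_le_integral_of_nonneg (μ := law d ρ)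
    (Filter.Eventually.of_forall hpw0) hint w
  have h2 : ∫ η : Env d, pw ρ β η h I ∂(law d ρ) ≤ I * SS d ρ β h := by
    unfold pw
    rw [integral_finsetSum _ fun j _ => hi1 j]
    refine (Finset.sum_le_sum fun j _ => hi2 j).trans ?_
    rw [Finset.sum_const, Finset.card_range, nsmul_eq_mul]
  have h3 : (law d ρ).real {η : Env d | w < pw ρ β η h I} ≤
      (law d ρ).real {η : Env d | w ≤ pw ρ β η h I} :=
    measureReal_mono (fun η (hη : w < pw ρ β η h I) => le_of_lt hη) (measure_ne_top _ _)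
  rw [le_div_iff₀ hw]
  calc (law d ρ).real {η : Env d | w < pw ρ β η h I} * w
      ≤ (law d ρ).real {η : Env d | w ≤ pw ρ β η h I} * w := mul_le_mul_of_nonneg_right h3 hw.le
    _ = w * (law d ρ).real {η : Env d | w ≤ pw ρ β η h I} := mul_comm _ _
    _ ≤ ∫ η : Env d, pw ρ β η h I ∂(law d ρ) := h1
    _ ≤ I * SS d ρ β h := h2

/-- `I` independent windows (`indep_events` for the complements, `real_sh`). -/
theorem pt_win {E : Set (Env d)} (hE : MeasurableSet E) (h : ℕ)
    (hdep : ∀ η η' : Env d, (∀ p : ℕ × Site d, 1 ≤ p.1 → p.1 ≤ 2 * h → η p = η' p) → (η ∈ E ↔ η' ∈ E))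
    {p : ℝ} (hp : p ≤ (law d ρ).real E) (I : ℕ) :
    1 - (1 - p) ^ I ≤ (law d ρ).real {η | ∃ i < I, sh (2 * (i * h)) 0 η ∈ E} := by
  classical
  let A : ℕ → Set (Env d) := fun i => {η | sh (2 * (i * h)) 0 η ∈ Eᶜ}
  let T : ℕ → Set (ℕ × Site d) := fun i => {p | 2 * (i * h) < p.1 ∧ p.1 ≤ 2 * (i * h) + 2 * h}
  have hm : ∀ i ∈ Finset.range I, MeasurableSet (A i) := fun i _ =>
    measurable_sh (2 * (i * h)) 0 hE.compl
  have hd : ∀ i ∈ Finset.range I, ∀ η η' : Env d, (∀ p ∈ T i, η p = η' p) →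
      (η ∈ A i ↔ η' ∈ A i) := by
    intro i _ η η' h1
    refine not_congr (hdep _ _ fun q hq1 hq2 => ?_)
    refine h1 (q.1 + 2 * (i * h), q.2 + 0) ⟨?_, ?_⟩
    · simp only
      omega
    · simp only
      omega
  have hdisj : ∀ i ∈ Finset.range I, ∀ j ∈ Finset.range I, i ≠ j → Disjoint (T i) (T j) := by
    have key : ∀ i j : ℕ, i < j → 2 * (i * h) + 2 * h ≤ 2 * (j * h) := by
      intro i j hij
      have h1 : (i + 1) * h ≤ j * h := Nat.mul_le_mul_right _ hij
      have h2 : (i + 1) * h = i * h + h := by ring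
      omega
    intro i _ j _ hij
    rw [Set.disjoint_left]
    rintro q ⟨h1, h2⟩ ⟨h3, h4⟩
    rcases lt_or_gt_of_ne hij with h5 | h5
    · have := key i j h5
      omega
    · have := key j i h5
      omega
  have h1 := indep_events (ρ := ρ) (Finset.range I) A T hm hd hdisj
  have hA : ∀ i ∈ Finset.range I, (law d ρ).real (A i) ≤ 1 - p := by
    intro i _
    have h2 : (law d ρ).real (A i) = (law d ρ).real Eᶜ := real_sh (ρ := ρ) (2 * (i * h)) 0 hE.compl
    have h3 : (law d ρ).real Eᶜ = 1 - (law d ρ).real E := by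
      rw [measureReal_compl hE, probReal_univ]
    rw [h2, h3]
    linarith
  have h2 : (law d ρ).real {η | ∀ i ∈ Finset.range I, η ∈ A i} ≤ (1 - p) ^ I := by
    rw [h1]
    calc ∏ i ∈ Finset.range I, (law d ρ).real (A i) ≤ ∏ _i ∈ Finset.range I, (1 - p) :=
          Finset.prod_le_prod (fun i _ => measureReal_nonneg) hA
      _ = (1 - p) ^ I := by rw [Finset.prod_const, Finset.card_range]
  have hms : MeasurableSet {η : Env d | ∀ i ∈ Finset.range I, η ∈ A i} := by
    have : {η : Env d | ∀ i ∈ Finset.range I, η ∈ A i} = ⋂ i ∈ Finset.range I, A i := by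
      ext η
      simp only [Set.mem_iInter, Set.mem_ofPred_eq]
    rw [this]
    exact Finset.measurableSet_biInter _ hm
  have h3 : {η : Env d | ∃ i < I, sh (2 * (i * h)) 0 η ∈ E} =
      {η : Env d | ∀ i ∈ Finset.range I, η ∈ A i}ᶜ := by
    ext η
    constructor
    · rintro ⟨i, hi, hE1⟩ h4
      exact h4 i (Finset.mem_range.2 hi) hE1
    · intro h4
      by_contra h5
      exact h4 fun i hi h6 => h5 ⟨i, Finset.mem_range.1 hi, h6⟩
  rw [h3, measureReal_compl hms, probReal_univ]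
  linarith

end Pool.Agent.W_7d29a1_q
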