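import Pool.Agent.W_7d29a1_q.PtA
import Pool.Agent.W_7d29a1_q.PtB
import Pool.Agent.W_7d29a1_q.PtC

/-!
Row 601, section 4: the route through the first lucky window. TASK PtD.
-/

namespace Pool.Agent.W_7d29a1_q

open MeasureTheory ProbabilityTheory Filter Topology Pool.Agent.W_MP_7d29a1_pr
  Pool.Agent.W_7d29a1_h46 Pool.Agent.W_7d29a1_h46u Pool.Agent.W_7d29a1_h3

variable {d : ℕ} {ρ : Measure ℝ} [IsProbabilityMeasure ρ] {β : ℝ}

/-- A lucky piece from `0` to the cell of `c`, in half time at most `h`. -/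
def Lk4 (ρ : Measure ℝ) (β : ℝ) (h : ℕ) (c : Site d) (r θ ℓ : ℝ) : Set (Env d) :=
  {η | ∃ t ≤ h, ∃ y : Site d, Even (ln y) ∧ (sn (y - c) : ℝ) ≤ r ∧ Tle ρ β η t y (θ * sn y - ℓ)}

theorem measurableSet_Lk4 (h : ℕ) (c : Site d) (r θ ℓ : ℝ) : MeasurableSet (Lk4 ρ β h c r θ ℓ) := by
  have h1 : Lk4 ρ β h c r θ ℓ = ⋃ (t : ℕ), ⋃ (_ : t ≤ h), ⋃ (y : Site d), ⋃ (_ : Even (ln y)),
      ⋃ (_ : (sn (y - c) : ℝ) ≤ r), {η : Env d | Tle ρ β η t y (θ * sn y - ℓ)} := by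
    ext η
    simp only [Lk4, Set.mem_ofPred_eq, Set.mem_iUnion, exists_prop]
  rw [h1]
  exact MeasurableSet.iUnion fun t => MeasurableSet.iUnion fun _ => MeasurableSet.iUnion fun y =>
    MeasurableSet.iUnion fun _ => MeasurableSet.iUnion fun _ => measurableSet_Tle t y _

private theorem PtD_sh_meas (s : ℕ) (x : Site d) (t : ℕ) (z : Site d) (u : ℝ) :
    MeasurableSet {η : Env d | Tle ρ β (sh s x η) t z u} :=
  (mp_sh (ρ := ρ) s x).measurable (measurableSet_Tle t z u)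

private theorem PtD_dep (h : ℕ) (c : Site d) (r θ ℓ : ℝ) (η η' : Env d)
    (hη : ∀ p : ℕ × Site d, 1 ≤ p.1 → p.1 ≤ 2 * h → η p = η' p) :
    η ∈ Lk4 ρ β h c r θ ℓ ↔ η' ∈ Lk4 ρ β h c r θ ℓ := by
  have h1 : ∀ (t : ℕ) (y : Site d) (u : ℝ), t ≤ h → (Tle ρ β η t y u ↔ Tle ρ β η' t y u) := by
    intro t y u ht
    have h2 := dep_Tle (ρ := ρ) (β := β) (s := 0) (t := t) (x := (0 : Site d)) (z := y) (u := u)
      (η := η) (η' := η') (fun p hp1 hp2 => hη p (by omega) (by omega))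
    rwa [Nat.mul_zero, sh_zero, sh_zero] at h2
  constructor
  · rintro ⟨t, ht, y, h2, h3, h4⟩
    exact ⟨t, ht, y, h2, h3, (h1 t y _ ht).1 h4⟩
  · rintro ⟨t, ht, y, h2, h3, h4⟩
    exact ⟨t, ht, y, h2, h3, (h1 t y _ ht).2 h4⟩

/-- THE ROUTE. PROOF. Indices `(i, t, y)`, `i < I`, `t ≤ h`, `y ∈ boxF d (2 h)` even with `sn (y - c) ≤ r`; `m = i h + t`;
`F` = the piece of window `i` (`Tle (sh (2 (i h)) 0 η) t y (θ sn y - ℓ)`, rows `≤ 2 m`); `B` (rows `> 2 m`) = the wait at `y` from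
`m` to `I h` costs more than `w` (`wait_prob`, at most `SS (I h) / w ≤ 1/25`; translations `real_Tle_sh`) or the move `y → z` in the half time `τ` after
`I h` costs more than `b` (at most `1/16`); `pt_first`; `pt_win` for the union of the `F` (`Tle_adm` : `sn y ≤ ln y ≤ 2 t`); remove `w < pw` (`pt_pre_prob`,
at most `1/25`). On the rest `Tle_add`, `pt_pre`. `(1 - 1/25 - 1/16) * (19/20) - 1/25 ≥ 3/4`. -/
theorem pt_route (j0 : Fin d) (hρ : EM ρ) {h I τ : ℕ} {c z : Site d} {r R θ ℓ p w b X : ℝ}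
    (hp : p ≤ (law d ρ).real (Lk4 ρ β h c r θ ℓ)) (hI : (1 - p) ^ I ≤ 1 / 20) (hp0 : 0 ≤ p)
    (hw : 0 < w) (hw1 : I * SS d ρ β h ≤ w / 25)
    (hz : Even (ln z)) (hR : ∀ y : Site d, (sn (y - c) : ℝ) ≤ r → (sn (z - y) : ℝ) ≤ R)
    (hmv : ∀ v : Site d, Even (ln v) → (sn v : ℝ) ≤ R → (law d ρ).real {η : Env d | ¬ Tle ρ β η τ v b} ≤ 1 / 16)
    (hX : ∀ y : Site d, (sn (y - c) : ℝ) ≤ r → θ * sn y - ℓ ≤ X) :
    3 / 4 ≤ (law d ρ).real {η : Env d | Tle ρ β η (I * h + τ) z (2 * w + X + b)} := by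
  classical
  -- the indices
  obtain ⟨Y, hY⟩ : ∃ Y : Finset (Site d), Y = (boxF d (2 * h)).filter
      fun y => Even (ln y) ∧ (sn (y - c) : ℝ) ≤ r := ⟨_, rfl⟩
  have hYm : ∀ y : Site d, y ∈ Y ↔ sn y ≤ 2 * h ∧ Even (ln y) ∧ (sn (y - c) : ℝ) ≤ r := by
    intro y
    rw [hY, Finset.mem_filter, mem_boxF_iff]
  obtain ⟨J, hJ⟩ : ∃ J : Finset (ℕ × ℕ × Site d),
      J = Finset.range I ×ˢ (Finset.range (h + 1) ×ˢ Y) := ⟨_, rfl⟩
  have hJm : ∀ i : ℕ × ℕ × Site d, i ∈ J ↔ i.1 < I ∧ i.2.1 ≤ h ∧ i.2.2 ∈ Y := by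
    intro i
    rw [hJ, Finset.mem_product, Finset.mem_product, Finset.mem_range, Finset.mem_range,
      Nat.lt_succ_iff]
  have hle : ∀ i ∈ J, i.1 * h + i.2.1 ≤ I * h := by
    intro i hi
    have h1 := (hJm i).1 hi
    calc i.1 * h + i.2.1 ≤ i.1 * h + h := by omega
      _ = (i.1 + 1) * h := by ring
      _ ≤ I * h := Nat.mul_le_mul_right _ h1.1
  obtain ⟨F, hF⟩ : ∃ F : ℕ × ℕ × Site d → Set (Env d), F = fun i =>
      {η : Env d | Tle ρ β (sh (2 * (i.1 * h)) 0 η) i.2.1 i.2.2 (θ * sn i.2.2 - ℓ)} := ⟨_, rfl⟩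
  obtain ⟨B1, hB1⟩ : ∃ B1 : ℕ × ℕ × Site d → Set (Env d), B1 = fun i =>
      {η : Env d | ¬ Tle ρ β (sh (2 * (i.1 * h + i.2.1)) i.2.2 η) (I * h - (i.1 * h + i.2.1)) 0 w} :=
    ⟨_, rfl⟩
  obtain ⟨B2, hB2⟩ : ∃ B2 : ℕ × ℕ × Site d → Set (Env d), B2 = fun i =>
      {η : Env d | ¬ Tle ρ β (sh (2 * (I * h)) i.2.2 η) τ (z - i.2.2) b} := ⟨_, rfl⟩
  have hB1m : ∀ i, MeasurableSet (B1 i) := by
    intro i
    rw [hB1]
    exact (PtD_sh_meas _ _ _ _ _).compl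
  have hB2m : ∀ i, MeasurableSet (B2 i) := by
    intro i
    rw [hB2]
    exact (PtD_sh_meas _ _ _ _ _).compl
  have hFm : ∀ i, MeasurableSet (F i) := by
    intro i
    rw [hF]
    exact PtD_sh_meas _ _ _ _ _
  have hFd : ∀ i ∈ J, ∀ η η' : Env d,
      (∀ p : ℕ × Site d, p.1 ≤ 2 * (i.1 * h + i.2.1) → η p = η' p) → (η ∈ F i ↔ η' ∈ F i) := by
    intro i _ η η' hη
    rw [hF]
    exact dep_Tle fun p _ hp2 => hη p (by
      rw [mul_add]
      exact hp2)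
  have hBd : ∀ i ∈ J, ∀ η η' : Env d,
      (∀ p : ℕ × Site d, 2 * (i.1 * h + i.2.1) < p.1 → η p = η' p) →
        (η ∈ B1 i ∪ B2 i ↔ η' ∈ B1 i ∪ B2 i) := by
    intro i hi η η' hη
    have h1 := hle i hi
    have h2 : Tle ρ β (sh (2 * (i.1 * h + i.2.1)) i.2.2 η) (I * h - (i.1 * h + i.2.1)) 0 w ↔
        Tle ρ β (sh (2 * (i.1 * h + i.2.1)) i.2.2 η') (I * h - (i.1 * h + i.2.1)) 0 w :=
      dep_Tle fun p hp1 _ => hη p hp1
    have h3 : Tle ρ β (sh (2 * (I * h)) i.2.2 η) τ (z - i.2.2) b ↔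
        Tle ρ β (sh (2 * (I * h)) i.2.2 η') τ (z - i.2.2) b :=
      dep_Tle fun p hp1 _ => hη p (by omega)
    rw [hB1, hB2, Set.mem_union, Set.mem_union]
    exact or_congr (not_congr h2) (not_congr h3)
  have hIh : 0 ≤ (I : ℝ) * SS d ρ β h := mul_nonneg (Nat.cast_nonneg _) (SS_nonneg h)
  have hq : ∀ i ∈ J, (law d ρ).real (B1 i ∪ B2 i) ≤ 1 / 25 + 1 / 16 := by
    intro i hi
    have h1 := hle i hi
    have hi2 := (hJm i).1 hi
    have hi3 := (hYm i.2.2).1 hi2.2.2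
    refine (measureReal_union_le _ _).trans (add_le_add ?_ ?_)
    · have h2 : (law d ρ).real (B1 i) =
          (law d ρ).real {η : Env d | ¬ Tle ρ β η (I * h - (i.1 * h + i.2.1)) 0 w} := by
        rw [hB1]
        exact real_sh _ _ (measurableSet_Tle (ρ := ρ) (β := β) _ _ w).compl
      rw [h2]
      refine (wait_prob j0 hρ (n := I * h) (by omega) hw).trans ?_
      rw [div_le_iff₀ hw]
      have h3 := SS_mul (β := β) j0 hρ I h
      linarith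
    · have h2 : (law d ρ).real (B2 i) = (law d ρ).real {η : Env d | ¬ Tle ρ β η τ (z - i.2.2) b} := by
        rw [hB2]
        exact real_sh _ _ (measurableSet_Tle (ρ := ρ) (β := β) _ _ b).compl
      rw [h2]
      exact hmv _ (even_ln_sub hz hi3.2.1) (hR _ hi3.2.2)
  have hfirst := pt_first (ρ := ρ) J (fun i => i.1 * h + i.2.1) F (fun i => B1 i ∪ B2 i)
    (fun i _ => hFm i) (fun i _ => (hB1m i).union (hB2m i)) hFd hBd hq
  -- the lucky windows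
  have hwin := pt_win (ρ := ρ) (measurableSet_Lk4 (ρ := ρ) (β := β) h c r θ ℓ) h
    (PtD_dep h c r θ ℓ) hp I
  have hwin2 : (law d ρ).real {η | ∃ i < I, sh (2 * (i * h)) 0 η ∈ Lk4 ρ β h c r θ ℓ} ≤
      (law d ρ).real {η | ∃ i ∈ J, η ∈ F i} := by
    refine measureReal_mono ?_
    rintro η ⟨i, hi, t, ht, y, hy1, hy2, hy3⟩
    have h1 : sn y ≤ 2 * h := by
      have h2 := (Tle_adm j0 hy3).1.1
      have h3 := sn_le_ln y
      omega
    refine ⟨(i, t, y), (hJm _).2 ⟨hi, ht, (hYm y).2 ⟨h1, hy1, hy2⟩⟩, ?_⟩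
    rw [hF]
    exact hy3
  have hpre := pt_pre_prob (β := β) j0 hρ h I hw
  have hpre2 : (law d ρ).real {η : Env d | w < pw ρ β η h I} ≤ 1 / 25 := by
    refine hpre.2.trans ?_
    rw [div_le_iff₀ hw]
    linarith
  -- the conclusion
  have hsub : {η | ∃ i ∈ J, η ∈ F i ∧ η ∉ B1 i ∪ B2 i} ⊆
      {η : Env d | Tle ρ β η (I * h + τ) z (2 * w + X + b)} ∪ {η : Env d | w < pw ρ β η h I} := by
    rintro η ⟨i, hi, h1, h2⟩
    rcases lt_or_ge w (pw ρ β η h I) with hlt | hge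
    · exact Or.inr hlt
    · left
      have h3 := hle i hi
      have hi2 := (hJm i).1 hi
      have hi3 := (hYm i.2.2).1 hi2.2.2
      rw [Set.mem_union, not_or] at h2
      rw [hF] at h1
      rw [hB1, hB2] at h2
      have h4 : Tle ρ β (sh (2 * (i.1 * h + i.2.1)) i.2.2 η) (I * h - (i.1 * h + i.2.1)) 0 w :=
        not_not.1 h2.1
      have h5 : Tle ρ β (sh (2 * (I * h)) i.2.2 η) τ (z - i.2.2) b := not_not.1 h2.2
      have h6 : Tle ρ β η (i.1 * h) 0 w :=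
        Tle_mono (pt_pre j0 η h (le_of_lt hi2.1)) hge
      have h7 : Tle ρ β (sh (2 * (i.1 * h)) 0 η) i.2.1 i.2.2 X :=
        Tle_mono h1 (hX _ hi3.2.2)
      have h8 := Tle_add h6 h7
      rw [zero_add] at h8
      have h9 := Tle_add h8 h4
      rw [add_zero, Nat.add_sub_cancel' h3] at h9
      have h10 := Tle_add h9 h5
      rw [add_sub_cancel] at h10
      refine Tle_mono h10 (le_of_eq ?_)
      ring
  have hfin := (measureReal_mono (μ := law d ρ) hsub).trans (measureReal_union_le _ _)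
  have h1 : 19 / 20 ≤ (law d ρ).real {η | ∃ i ∈ J, η ∈ F i} := by linarith
  have h2 : (1 - (1 / 25 + 1 / 16) : ℝ) * (19 / 20) ≤
      (1 - (1 / 25 + 1 / 16)) * (law d ρ).real {η | ∃ i ∈ J, η ∈ F i} :=
    mul_le_mul_of_nonneg_left h1 (by norm_num)
  have h3 := h2.trans (hfirst.trans hfin)
  norm_num at h3
  linarith

/-- A negative cost `0 → 0`: contradiction to `mean_nonneg` unless `S` is large. `T ≤ T_+ - u 1{T ≤ -u}`, `wait_mean`. -/
theorem pt_near (j0 : Fin d) (hρ : EM ρ) {t : ℕ} {u : ℝ} (hu : 0 < u)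
    (h : 1 / 2 ≤ (law d ρ).real {η : Env d | Tle ρ β η t 0 (-u)}) : u / 2 ≤ SS d ρ β t := by
  have hi : Integrable (fun η : Env d => -Real.log (Vp ρ β η (2 * t) 0)) (law d ρ) :=
    (concE hρ β ((adm_iff j0).1 (adm_zero t))).1.neg
  obtain ⟨hw1, hw2⟩ := wait_mean (β := β) j0 hρ (le_refl t)
  have hm := measurableSet_Tle (ρ := ρ) (β := β) t (0 : Site d) (-u)
  have h0 := mean_nonneg (β := β) j0 hρ t
  have hind : Integrable (Set.indicator {η : Env d | Tle ρ β η t 0 (-u)} fun _ => u) (law d ρ) :=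
    (integrable_const u).indicator hm
  have h1 : ∫ η : Env d, -Real.log (Vp ρ β η (2 * t) 0) ∂(law d ρ) ≤
      ∫ η : Env d, (max (-Real.log (Vp ρ β η (2 * t) 0)) 0 -
        Set.indicator {η : Env d | Tle ρ β η t 0 (-u)} (fun _ => u) η) ∂(law d ρ) := by
    refine integral_mono hi (hw1.sub hind) fun η => ?_
    show -Real.log (Vp ρ β η (2 * t) 0) ≤ max (-Real.log (Vp ρ β η (2 * t) 0)) 0 -
        Set.indicator {η : Env d | Tle ρ β η t 0 (-u)} (fun _ => u) η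
    by_cases hη : η ∈ {η : Env d | Tle ρ β η t 0 (-u)}
    · rw [Set.indicator_of_mem hη]
      have h2 : Real.exp (- -u) ≤ Vp ρ β η (2 * t) 0 := hη
      rw [neg_neg] at h2
      have h3 : u ≤ Real.log (Vp ρ β η (2 * t) 0) :=
        (Real.le_log_iff_exp_le ((Real.exp_pos _).trans_le h2)).2 h2
      have h4 := le_max_right (-Real.log (Vp ρ β η (2 * t) 0)) 0
      linarith
    · rw [Set.indicator_of_notMem hη, sub_zero]
      exact le_max_left _ _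
  rw [integral_sub hw1 hind, integral_indicator_const _ hm, smul_eq_mul] at h1
  have h2 : 1 / 2 * u ≤ (law d ρ).real {η : Env d | Tle ρ β η t 0 (-u)} * u :=
    mul_le_mul_of_nonneg_right h hu.le
  linarith

end Pool.Agent.W_7d29a1_q
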