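import Pool.Agent.W_7d29a1_q.VV
import Pool.Agent.W_7d29a1_q.BasE
import Pool.Agent.W_7d29a1_q.PtD

/-!
Row 601, section 4: Lemma 4 (luck from a point). Assembly.
-/

namespace Pool.Agent.W_7d29a1_q

open MeasureTheory ProbabilityTheory Filter Topology Pool.Agent.W_MP_7d29a1_pr
  Pool.Agent.W_7d29a1_h46 Pool.Agent.W_7d29a1_h46u Pool.Agent.W_7d29a1_h3

variable {d : ℕ}

/-- `a_*` is large. -/
private theorem Pt_as (d : ℕ) (K : ℝ) : ∀ᶠ N : ℕ in atTop, K ≤ as d N := by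
  have h1 : (0 : ℝ) < 1 / (40 * ((d : ℝ) + 2)) := by positivity
  exact ((tendsto_rpow_atTop h1).comp (tendsto_natCast_atTop_atTop (R := ℝ))).eventually_ge_atTop K

/-- `N ^ (6 c) ≤ ε a_*`. -/
private theorem Pt_pow (d : ℕ) {ε : ℝ} (hε : 0 < ε) : ∀ᶠ N : ℕ in atTop, ∀ c : ℝ,
    c ≤ 1 / (400 * ((d : ℝ) + 2)) → (N : ℝ) ^ (6 * c) ≤ ε * as d N := by
  have h1 : (0 : ℝ) < 1 / (100 * ((d : ℝ) + 2)) := by positivity
  have h2 := ((tendsto_rpow_atTop h1).comp
    (tendsto_natCast_atTop_atTop (R := ℝ))).eventually_ge_atTop (1 / ε)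
  filter_upwards [h2, eventually_ge_atTop 1] with N hN hN1 c hc
  simp only [Function.comp_apply] at hN
  have hN0 : (1 : ℝ) ≤ N := by exact_mod_cast hN1
  have h3 : (N : ℝ) ^ (6 * c) ≤ (N : ℝ) ^ (3 / (200 * ((d : ℝ) + 2))) := by
    refine Real.rpow_le_rpow_of_exponent_le hN0 ?_
    have h4 : 3 / (200 * ((d : ℝ) + 2)) = 6 * (1 / (400 * ((d : ℝ) + 2))) := by
      field_simp
      norm_num
    rw [h4]
    linarith
  have h5 : as d N = (N : ℝ) ^ (3 / (200 * ((d : ℝ) + 2))) * (N : ℝ) ^ (1 / (100 * ((d : ℝ) + 2))) := by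
    unfold as
    rw [← Real.rpow_add (by linarith)]
    congr 1
    field_simp
    norm_num
  rw [h5]
  have h6 : 1 ≤ ε * (N : ℝ) ^ (1 / (100 * ((d : ℝ) + 2))) := by
    rw [div_le_iff₀ hε] at hN
    linarith
  have h7 : 0 ≤ (N : ℝ) ^ (3 / (200 * ((d : ℝ) + 2))) := by positivity
  calc (N : ℝ) ^ (6 * c) ≤ (N : ℝ) ^ (3 / (200 * ((d : ℝ) + 2))) * 1 := by rw [mul_one]; exact h3
    _ ≤ (N : ℝ) ^ (3 / (200 * ((d : ℝ) + 2))) * (ε * (N : ℝ) ^ (1 / (100 * ((d : ℝ) + 2)))) :=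
      mul_le_mul_of_nonneg_left h6 h7
    _ = _ := by ring

private theorem Pt_rpow {x : ℝ} (hx : 0 < x) (hx1 : x ≤ 1) : (x ^ 2) ^ (3 / 4 : ℝ) ≤ x := by
  have h1 : (x ^ 2) ^ (3 / 4 : ℝ) = x ^ (3 / 2 : ℝ) := by
    rw [← Real.rpow_natCast, ← Real.rpow_mul hx.le]
    norm_num
  rw [h1]
  calc x ^ (3 / 2 : ℝ) ≤ x ^ (1 : ℝ) := Real.rpow_le_rpow_of_exponent_ge hx hx1 (by norm_num)
    _ = x := Real.rpow_one x

/-- The constants. -/
private theorem Pt_const {C : ℝ} (hC : 1 ≤ C) : ∃ ce e : ℝ, 0 < ce ∧ ce ≤ 1 / 800000 ∧ 0 < e ∧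
    e ≤ ce / 100 ∧ C * (2 * ce) ^ (3 / 4 : ℝ) ≤ 1 / 1600 ∧ C * e ^ (3 / 4 : ℝ) ≤ ce / 100 := by
  obtain ⟨x, hx⟩ : ∃ x : ℝ, x = 1 / (1600 * C) := ⟨_, rfl⟩
  have hx0 : 0 < x := by
    rw [hx]
    positivity
  have hCx : C * x = 1 / 1600 := by
    rw [hx]
    field_simp
  have hx1 : x ≤ 1 / 1600 := by
    rw [← hCx]
    nlinarith
  obtain ⟨ce, hce⟩ : ∃ ce : ℝ, ce = x ^ 2 / 2 := ⟨_, rfl⟩
  have hce0 : 0 < ce := by
    rw [hce]
    positivity
  have hce1 : ce ≤ 1 / 800000 := by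
    rw [hce]
    nlinarith
  obtain ⟨y, hy⟩ : ∃ y : ℝ, y = ce / (100 * C) := ⟨_, rfl⟩
  have hy0 : 0 < y := by
    rw [hy]
    positivity
  have hCy : C * y = ce / 100 := by
    rw [hy]
    field_simp
  have hy1 : y ≤ ce / 100 := by
    rw [← hCy]
    nlinarith
  refine ⟨ce, y ^ 2, hce0, hce1, by positivity, ?_, ?_, ?_⟩
  · have h1 : y ^ 2 ≤ y := by nlinarith
    exact h1.trans hy1
  · have h1 : 2 * ce = x ^ 2 := by
      rw [hce]
      ring
    rw [h1, ← hCx]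
    exact mul_le_mul_of_nonneg_left (Pt_rpow hx0 (by linarith)) (by linarith)
  · rw [← hCy]
    exact mul_le_mul_of_nonneg_left (Pt_rpow hy0 (by linarith)) (by linarith)

private theorem Pt_exp {p : ℝ} (hp : 0 < p) (hp1 : p ≤ 1) : (1 - p) ^ ⌈3 / p⌉₊ ≤ 1 / 20 := by
  obtain ⟨I, hI⟩ : ∃ I : ℕ, I = ⌈3 / p⌉₊ := ⟨_, rfl⟩
  rw [← hI]
  have h2 : 1 - p ≤ Real.exp (-p) := by linarith [Real.add_one_le_exp (-p)]
  have h3 : (1 - p) ^ I ≤ Real.exp (-(I * p)) := by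
    calc (1 - p) ^ I ≤ Real.exp (-p) ^ I := pow_le_pow_left₀ (by linarith) h2 I
      _ = Real.exp (-(I * p)) := by
        rw [← Real.exp_nat_mul]
        congr 1
        ring
  have h4 : 3 ≤ I * p := by
    have h5 : 3 / p ≤ I := by
      rw [hI]
      exact Nat.le_ceil _
    rwa [div_le_iff₀ hp] at h5
  have h5 : Real.exp (-(I * p)) ≤ Real.exp (-3) := Real.exp_le_exp.2 (by linarith)
  have h6 : 20 ≤ Real.exp 3 := by
    have h8 : Real.exp 3 = Real.exp 1 ^ 3 := by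
      rw [← Real.exp_nat_mul]
      norm_num
    rw [h8]
    calc (20 : ℝ) ≤ 2.7182818283 ^ 3 := by norm_num
      _ ≤ Real.exp 1 ^ 3 := pow_le_pow_left₀ (by norm_num) Real.exp_one_gt_d9.le 3
  have h7 : Real.exp (-3) ≤ 1 / 20 := by
    rw [Real.exp_neg, ← one_div]
    exact one_div_le_one_div_of_le (by norm_num) h6
  exact h3.trans (h5.trans h7)

variable {ρ : Measure ℝ} [IsProbabilityMeasure ρ] {β : ℝ}

private theorem Pt_pigeon {Z : Finset (Site d)} {K : ℕ} (hK : 1 ≤ K) (hZ : Z.card ≤ K)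
    {B : Set (Env d)} {L : Site d → Set (Env d)} (hB : B ⊆ ⋃ z ∈ Z, L z)
    (h : 1 / 4 < (law d ρ).real B) : ∃ z ∈ Z, 1 / (4 * (K : ℝ)) ≤ (law d ρ).real (L z) := by
  by_contra hno
  push Not at hno
  have h1 : (law d ρ).real B ≤ ∑ z ∈ Z, (law d ρ).real (L z) :=
    (measureReal_mono hB (measure_ne_top _ _)).trans (measureReal_biUnion_finset_le Z L)
  have h2 : ∑ z ∈ Z, (law d ρ).real (L z) ≤ ∑ _z ∈ Z, 1 / (4 * (K : ℝ)) :=
    Finset.sum_le_sum fun z hz => (hno z hz).le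
  rw [Finset.sum_const, nsmul_eq_mul] at h2
  have hKR : (1 : ℝ) ≤ K := by exact_mod_cast hK
  have h3 : (Z.card : ℝ) ≤ K := by exact_mod_cast hZ
  have h4 : (Z.card : ℝ) * (1 / (4 * (K : ℝ))) ≤ K * (1 / (4 * (K : ℝ))) :=
    mul_le_mul_of_nonneg_right h3 (by positivity)
  have h5 : (K : ℝ) * (1 / (4 * (K : ℝ))) = 1 / 4 := by
    field_simp
  linarith

private theorem Pt_ln0 : Even (ln (0 : Site d)) := by
  have h1 : ln (0 : Site d) = 0 := by simp [ln]
  rw [h1]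
  exact Even.zero

/-- The two cases. `b1, τ1` : moves of size `2 ce W`; `b2, τ2` : moves of size `e W`. -/
private theorem Pt_main (j0 : Fin d) (hρ : EM ρ) {h I τ1 τ2 : ℕ} {z : Site d}
    {W a π ce e b1 b2 p : ℝ} (ha : 0 < a) (hπ : 0 < π) (hW : π * W = a) (hce : 0 < ce)
    (hce1 : ce ≤ 1 / 800000) (he : 0 < e) (he1 : e ≤ ce / 100) (hz : Even (ln z))
    (hzW : (sn z : ℝ) ≤ W)
    (hp : p ≤ (law d ρ).real (Lk4 ρ β h z (e * W) (7 / 8 * π) (a / 128)))
    (hI : (1 - p) ^ I ≤ 1 / 20) (hp0 : 0 ≤ p) (hIS : I * SS d ρ β h ≤ ce * a / 250)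
    (hτ1 : SS d ρ β τ1 ≤ a / 1600) (hb1 : b1 ≤ a / 1600)
    (hm1 : ∀ v : Site d, Even (ln v) → (sn v : ℝ) ≤ 2 * ce * W →
      (law d ρ).real {η : Env d | ¬ Tle ρ β η τ1 v b1} ≤ 1 / 16)
    (hτ2 : SS d ρ β τ2 ≤ ce * a / 100) (hb2 : b2 ≤ ce * a / 100)
    (hm2 : ∀ v : Site d, Even (ln v) → (sn v : ℝ) ≤ e * W →
      (law d ρ).real {η : Env d | ¬ Tle ρ β η τ2 v b2} ≤ 1 / 16)
    (hpr : ∀ (t : ℕ) (x : ℝ), 1 ≤ t → z ≠ 0 → Ch ρ β t z x →
      min (π * sn z) a ≤ x + 2 * SS d ρ β t) : False := by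
  have hW0 : 0 < W := by
    by_contra hneg
    push Not at hneg
    nlinarith
  obtain ⟨ca, hca⟩ : ∃ ca : ℝ, ca = ce * a := ⟨_, rfl⟩
  have hca0 : 0 < ca := by
    rw [hca]
    positivity
  have hca1 : ca ≤ a / 800000 := by
    rw [hca]
    nlinarith
  have hceW : π * (ce * W) = ca := by
    rw [hca, ← hW]
    ring
  have heW : π * (e * W) ≤ ca / 100 := by
    have h1 : π * (e * W) = e * a := by
      rw [← hW]
      ring
    rw [h1, hca]
    nlinarith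
  rw [← hca] at hIS hτ2 hb2
  have hSI : SS d ρ β (I * h) ≤ ca / 250 := (SS_mul j0 hρ I h).trans hIS
  have hy : ∀ y : Site d, (sn (y - z) : ℝ) ≤ e * W → (sn y : ℝ) ≤ sn z + e * W := by
    intro y hy
    have h1 := sn_add (y - z) z
    rw [sub_add_cancel] at h1
    have h2 : (sn y : ℝ) ≤ sn (y - z) + sn z := by exact_mod_cast h1
    linarith
  rcases lt_or_ge (sn z : ℝ) (ce * W) with hlt | hge
  · have h1 := pt_route (ρ := ρ) (β := β) j0 hρ (h := h) (I := I) (τ := τ1) (c := z) (z := 0)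
      (r := e * W) (R := 2 * ce * W) (θ := 7 / 8 * π) (ℓ := a / 128) (p := p) (w := ca / 10)
      (b := b1) (X := 7 / 4 * ca - a / 128) hp hI hp0 (by positivity) (by linarith) Pt_ln0
      (by
        intro y hyz
        have h2 := hy y hyz
        rw [zero_sub, sn_neg]
        nlinarith) hm1
      (by
        intro y hyz
        have h2 := hy y hyz
        have h3 : (sn y : ℝ) ≤ 2 * (ce * W) := by nlinarith
        have h4 : π * (sn y : ℝ) ≤ π * (2 * (ce * W)) := mul_le_mul_of_nonneg_left h3 hπ.le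
        nlinarith)
    have h2 : (1 : ℝ) / 2 ≤ (law d ρ).real {η : Env d | Tle ρ β η (I * h + τ1) 0 (-(a / 200))} := by
      have h3 : (law d ρ).real {η : Env d | Tle ρ β η (I * h + τ1) 0
          (2 * (ca / 10) + (7 / 4 * ca - a / 128) + b1)} ≤
          (law d ρ).real {η : Env d | Tle ρ β η (I * h + τ1) 0 (-(a / 200))} := by
        refine measureReal_mono fun η hη => ?_
        exact Tle_mono hη (by linarith)
      linarith
    have h3 := pt_near j0 hρ (u := a / 200) (by positivity) h2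
    have h4 := SS_add (ρ := ρ) (β := β) j0 hρ (I * h) τ1
    linarith
  · have hz0 : z ≠ 0 := by
      rintro rfl
      have h1 : (sn (0 : Site d) : ℝ) = 0 := by
        have h2 := sn_le_ln (0 : Site d)
        have h3 : ln (0 : Site d) = 0 := by simp [ln]
        rw [h3] at h2
        have h4 : sn (0 : Site d) = 0 := by omega
        rw [h4]
        simp
      rw [h1] at hge
      have h5 : 0 < ce * W := by positivity
      linarith
    obtain ⟨X, hX⟩ : ∃ X : ℝ, X = 7 / 8 * π * (sn z + e * W) - a / 128 := ⟨_, rfl⟩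
    have h1 := pt_route (ρ := ρ) (β := β) j0 hρ (h := h) (I := I) (τ := τ2) (c := z) (z := z)
      (r := e * W) (R := e * W) (θ := 7 / 8 * π) (ℓ := a / 128) (p := p) (w := ca / 10)
      (b := b2) (X := X) hp hI hp0 (by positivity) (by linarith) hz
      (by
        intro y hyz
        rw [← sn_neg, neg_sub]
        exact hyz) hm2
      (by
        intro y hyz
        have h2 := hy y hyz
        have h4 : 7 / 8 * π * (sn y : ℝ) ≤ 7 / 8 * π * (sn z + e * W) :=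
          mul_le_mul_of_nonneg_left h2 (by positivity)
        rw [hX]
        linarith)
    have hCh : Ch ρ β (I * h + τ2) z (max (2 * (ca / 10) + X + b2) 0) := by
      refine ⟨le_max_right _ _, ?_⟩
      have h3 : (law d ρ).real {η : Env d | Tle ρ β η (I * h + τ2) z (2 * (ca / 10) + X + b2)} ≤
          (law d ρ).real {η : Env d | Tle ρ β η (I * h + τ2) z
            (max (2 * (ca / 10) + X + b2) 0)} := by
        refine measureReal_mono fun η hη => ?_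
        exact Tle_mono hη (le_max_left _ _)
      linarith
    have ht : 1 ≤ I * h + τ2 := by
      by_contra hno
      have h2 : I * h + τ2 = 0 := by omega
      rw [h2] at h1
      have h3 : {η : Env d | Tle ρ β η 0 z (2 * (ca / 10) + X + b2)} = ∅ := by
        rw [Set.eq_empty_iff_forall_notMem]
        intro η hη
        have h4 := (Tle_adm j0 hη).1.1
        apply hz0
        funext j
        have h5 : (z j).natAbs ≤ ln z := by
          unfold ln
          exact Finset.single_le_sum (f := fun j => (z j).natAbs) (fun _ _ => Nat.zero_le _)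
            (Finset.mem_univ j)
        show z j = 0
        omega
      rw [h3] at h1
      simp at h1
      norm_num at h1
    have h2 := hpr _ _ ht hz0 hCh
    have h3 := SS_add (ρ := ρ) (β := β) j0 hρ (I * h) τ2
    have h4 : ca ≤ π * sn z := by
      rw [← hceW]
      exact mul_le_mul_of_nonneg_left hge hπ.le
    have h5 : π * sn z ≤ a := by
      rw [← hW]
      exact mul_le_mul_of_nonneg_left hzW hπ.le
    have h6 : min (π * sn z) a = π * sn z := min_eq_left h5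
    rw [h6] at h2
    have h7 : max (2 * (ca / 10) + X + b2) 0 < π * sn z - 2 * (ca / 250 + ca / 100) := by
      refine max_lt ?_ (by linarith)
      rw [hX]
      have h8 : 7 / 8 * π * ((sn z : ℝ) + e * W) = 7 / 8 * (π * sn z) + 7 / 8 * (π * (e * W)) := by
        ring
      rw [h8]
      linarith
    linarith

/-- SECTION 4, Lemma 4 (luck from a point). -/
theorem point (j0 : Fin d) : ∃ ε' : ℝ, PointProp d ε' := by
  obtain ⟨C, hC, hcell⟩ := cells j0 (q := 1 / 16) (by norm_num) (by norm_num)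
  obtain ⟨ce, e, hce, hce1, he, he1, hk1, hk2⟩ := Pt_const hC
  obtain ⟨K, hK, hgrid⟩ := pt_grid d he (by linarith)
  have hKR : (1 : ℝ) ≤ K := by exact_mod_cast hK
  obtain ⟨p, hp⟩ : ∃ p : ℝ, p = 1 / (4 * (K : ℝ)) := ⟨_, rfl⟩
  have hp0 : 0 < p := by
    rw [hp]
    positivity
  have hp1 : p ≤ 1 / 4 := by
    rw [hp]
    exact one_div_le_one_div_of_le (by norm_num) (by linarith)
  have hpce : p * ce ≤ ce := by nlinarith
  refine ⟨p * ce / 1000, by positivity, by linarith, ?_⟩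
  intro ρ _ β c a0 hρ
  filter_upwards [hcell ρ β c a0 hρ, eventually_ge_atTop 1, Pt_as d a0, Pt_as d (4 * a0 / e),
    Pt_pow d he] with N hN1 hN2 hN3 hN4 hN5 S a ha1 ha2 hRg
  by_contra hbad
  push Not at hbad
  have ha0 : 1 ≤ a0 := S.one
  have haa : a0 ≤ a := hN3.trans ha1
  have ha : 0 < a := by linarith
  have hπ : 0 < pr d ρ β a := pr_pos S hN2 haa ha2
  have hπ1 : pr d ρ β a ≤ a0 := S.hi a haa ha2
  have hWe : WW d ρ β a = a / pr d ρ β a := rfl
  have hW : pr d ρ β a * WW d ρ β a = a := by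
    rw [hWe]
    field_simp
  have hWl : 4 / e ≤ WW d ρ β a := by
    rw [hWe, div_le_div_iff₀ he hπ]
    have h1 : 4 * a0 / e ≤ a := hN4.trans ha1
    rw [div_le_iff₀ he] at h1
    nlinarith
  obtain ⟨Z, hZ1, hZ2, hZ3⟩ := hgrid _ hWl
  have hsub : {η : Env d | ∃ t ≤ nn d ρ β (p * ce / 1000 * a), ∃ y : Site d, Even (ln y) ∧
        (sn y : ℝ) ≤ WW d ρ β a ∧
        Tle ρ β η t y (7 / 8 * pr d ρ β a * sn y - a / 128)} ⊆
      ⋃ z ∈ Z, Lk4 ρ β (nn d ρ β (p * ce / 1000 * a)) z (e * WW d ρ β a) (7 / 8 * pr d ρ β a)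
        (a / 128) := by
    rintro η ⟨t, ht, y, hy1, hy2, hy3⟩
    obtain ⟨z, hz1, hz2⟩ := hZ3 y hy1 hy2
    simp only [Set.mem_iUnion]
    exact ⟨z, hz1, t, ht, y, hy1, hz2, hy3⟩
  obtain ⟨z, hz1, hz2⟩ := Pt_pigeon hK hZ1 hsub hbad
  rw [← hp] at hz2
  have hea : (N : ℝ) ^ (6 * c) ≤ e * a :=
    (hN5 c S.csm).trans (mul_le_mul_of_nonneg_left ha1 he.le)
  have hea2 : (N : ℝ) ^ (6 * c) ≤ 2 * ce * a := hea.trans (by nlinarith)
  have hb1 : C * (2 * ce) ^ (3 / 4 : ℝ) * a ≤ a / 1600 := by nlinarith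
  have hb2 : C * e ^ (3 / 4 : ℝ) * a ≤ ce * a / 100 := by nlinarith
  have hcea : ce * a ≤ a := by nlinarith
  obtain ⟨τ1, hτ1, hm1⟩ := hN1 S a (2 * ce) ha2 hRg (by linarith) (by linarith) hea2 (by linarith)
  obtain ⟨τ2, hτ2, hm2⟩ := hN1 S a e ha2 hRg he (by linarith) hea (by linarith)
  have hpa : p * ce / 1000 * a ≤ a := by nlinarith
  have hS : SS d ρ β (nn d ρ β (p * ce / 1000 * a)) ≤ p * ce / 1000 * a :=
    SS_nn S (by positivity) (hpa.trans ha2)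
  have hI4 : (⌈3 / p⌉₊ : ℝ) * p ≤ 4 := by
    have h1 := Nat.ceil_lt_add_one (show (0 : ℝ) ≤ 3 / p by positivity)
    have h2 : (⌈3 / p⌉₊ : ℝ) * p ≤ (3 / p + 1) * p := mul_le_mul_of_nonneg_right h1.le hp0.le
    have h3 : (3 / p + 1) * p = 3 + p := by
      field_simp
    linarith
  have hIS : (⌈3 / p⌉₊ : ℝ) * SS d ρ β (nn d ρ β (p * ce / 1000 * a)) ≤ ce * a / 250 := by
    have h1 : (⌈3 / p⌉₊ : ℝ) * SS d ρ β (nn d ρ β (p * ce / 1000 * a)) ≤
        (⌈3 / p⌉₊ : ℝ) * (p * ce / 1000 * a) := mul_le_mul_of_nonneg_left hS (Nat.cast_nonneg _)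
    have h2 : (⌈3 / p⌉₊ : ℝ) * (p * ce / 1000 * a) = (⌈3 / p⌉₊ : ℝ) * p * (ce * a / 1000) := by
      ring
    have h3 : (⌈3 / p⌉₊ : ℝ) * p * (ce * a / 1000) ≤ 4 * (ce * a / 1000) :=
      mul_le_mul_of_nonneg_right hI4 (by positivity)
    linarith
  obtain ⟨hz3, hz4⟩ := hZ2 z hz1
  exact Pt_main j0 hρ ha hπ hW hce hce1 he he1 hz3 hz4 hz2 (Pt_exp hp0 (by linarith)) hp0.le hIS
    (hτ1.trans hb1) hb1 hm1 (hτ2.trans hb2) hb2 hm2 fun t x ht h0 hCh => price ht h0 hz3 hCh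

end Pool.Agent.W_7d29a1_q
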