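import Pool.Agent.W_7d29a1_q16.Sc8B

/-!
Row 601, SECTION 8: choice of the scale.
-/

namespace Pool.Agent.W_7d29a1_q

open MeasureTheory ProbabilityTheory Filter Topology Pool.Agent.W_MP_7d29a1_pr
  Pool.Agent.W_7d29a1_h46 Pool.Agent.W_7d29a1_h46u Pool.Agent.W_7d29a1_h3 Pool.Agent.W_7d29a1_q16

variable {d : ℕ}

/-- SECTION 8, Lemma 8 (choice of the scale). -/
theorem scale (j0 : Fin d) {Λ : ℝ} {A : ℕ} (hΛ : 1 ≤ Λ) (hA : NLProp d Λ A) (i0 i1 : ℕ) {η : ℝ}
    (hη : 0 < η) : ∃ c0 : ℝ, 0 < c0 ∧ c0 ≤ 1 / (400 * ((d : ℝ) + 2)) ∧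
    ∀ (ρ : Measure ℝ) [IsProbabilityMeasure ρ] (β c a0 : ℝ), c ≤ c0 → EM ρ →
      ∀ᶠ N : ℕ in atTop, Sc d ρ β c a0 N → ∃ k : ℕ, Gd d ρ β a0 Λ A N i0 i1 η k := by
  obtain ⟨hA2, hNL⟩ := hA
  have hA1 : (1 : ℝ) < A := by exact_mod_cast (show 1 < A by omega)
  have hA0 : (0 : ℝ) < A := by linarith
  have hlA : 0 < Real.log A := Real.log_pos hA1
  obtain ⟨l, hl⟩ := pow_unbounded_of_one_lt Λ hA1
  have hdel0 := dl_pos hA2
  have hdel := pow_dl hA2
  set del := dl A with hdeldef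
  set ηA := Real.log (1 + η) / Real.log A with hηA
  have hηA0 : 0 < ηA := div_pos (Real.log_pos (by linarith)) hlA
  set Cc : ℝ := ((i0 : ℝ) + i1 + 2 + 2 * (i0 + 1)) * ((l + 2) / del) + (i0 + i1 + l) / ηA with hCc
  have hCc0 : 0 ≤ Cc := by
    have h1 : 0 ≤ ((l : ℝ) + 2) / del := div_nonneg (by positivity) hdel0.le
    have h2 : 0 ≤ ((i0 : ℝ) + i1 + l) / ηA := div_nonneg (by positivity) hηA0.le
    positivity
  have hd2 : (0 : ℝ) < (d : ℝ) + 2 := by positivity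
  refine ⟨min (1 / (400 * ((d : ℝ) + 2))) (1 / (80 * ((d : ℝ) + 2) * (Cc + 1))),
    lt_min (by positivity) (by positivity), min_le_left _ _, ?_⟩
  intro ρ _ β c a0 hc hρ
  have hcC : 80 * c * ((d : ℝ) + 2) * Cc ≤ 1 := by
    rcases le_or_gt c 0 with hc0 | hc0
    · have h1 : 80 * c * ((d : ℝ) + 2) * Cc ≤ 0 := by
        apply mul_nonpos_of_nonpos_of_nonneg _ hCc0
        apply mul_nonpos_of_nonpos_of_nonneg _ hd2.le
        linarith
      linarith
    · have h1 := hc.trans (min_le_right _ _)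
      rw [le_div_iff₀ (by positivity)] at h1
      have h2 : 0 ≤ 80 * c * ((d : ℝ) + 2) := by positivity
      nlinarith
  -- large `N`
  have hL : Tendsto (fun N : ℕ => Real.logb A (as d N)) atTop atTop :=
    (Real.tendsto_logb_atTop hA1).comp (as_tendsto d)
  filter_upwards [hNL ρ β c a0 hρ, (as_tendsto d).eventually_ge_atTop a0,
    (as_tendsto d).eventually_ge_atTop 1,
    hL.eventually_ge_atTop (Cc * (Real.log a0 / Real.log A) + i0 + i1 + l + 6),
    eventually_ge_atTop 1] with N hN1 hN2 hN3 hN4 hN5 S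
  replace hN1 := hN1 S
  set s := as d N with hs
  set L := Real.logb A s with hLdef
  have hs0 : 0 < s := by linarith
  have hsL : (A : ℝ) ^ L = s := Real.rpow_logb hA0 hA1.ne' hs0
  have hone := S.one
  have hlog0 : 0 ≤ Real.log a0 := Real.log_nonneg hone
  have hL0 : 6 ≤ L := by
    have h1 : 0 ≤ Cc * (Real.log a0 / Real.log A) := mul_nonneg hCc0 (div_nonneg hlog0 hlA.le)
    have h2 : (0 : ℝ) ≤ i0 := Nat.cast_nonneg _
    have h3 : (0 : ℝ) ≤ i1 := Nat.cast_nonneg _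
    have h4 : (0 : ℝ) ≤ l := Nat.cast_nonneg _
    linarith
  have hpw : ∀ n : ℕ, s ^ n = (A : ℝ) ^ ((n : ℝ) * L) := by
    intro n
    rw [← hsL, ← Real.rpow_natCast, ← Real.rpow_mul hA0.le, mul_comm]
  have ham : am d N = (A : ℝ) ^ (20 * L) := by
    rw [← as_pow, ← hs, hpw]
    norm_num
  have hAn : ∀ n : ℕ, (A : ℝ) ^ n = (A : ℝ) ^ (n : ℝ) := fun n => (Real.rpow_natCast _ _).symm
  set Jm := ⌊20 * L⌋₊ with hJm
  have hJm1 : (Jm : ℝ) ≤ 20 * L := Nat.floor_le (by linarith)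
  have hJm2 : 20 * L < Jm + 1 := Nat.lt_floor_add_one _
  set K0 := i0 + ⌈4 * L⌉₊ with hK0
  have hce1 : 4 * L ≤ ⌈4 * L⌉₊ := Nat.le_ceil _
  have hce2 : (⌈4 * L⌉₊ : ℝ) < 4 * L + 1 := Nat.ceil_lt_add_one (by linarith)
  have hAJ : (A : ℝ) ^ Jm ≤ am d N := by
    rw [ham, hAn]
    exact Real.rpow_le_rpow_of_exponent_le hA1.le hJm1
  have hAle : ∀ n : ℕ, n ≤ Jm → (A : ℝ) ^ n ≤ am d N := fun n hn =>
    (pow_le_pow_right₀ hA1.le hn).trans hAJ
  have ha0am : a0 ≤ am d N := by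
    rw [← as_pow, ← hs]
    calc a0 ≤ s := hN2
      _ = s ^ 1 := (pow_one s).symm
      _ ≤ s ^ 20 := pow_le_pow_right₀ hN3 (by norm_num)
  have hJ : max a0 ((A : ℝ) ^ Jm) ≤ am d N := max_le ha0am hAJ
  have SB : Sb A (pr d ρ β) a0 (am d N) :=
    ⟨hA2, hone, fun a h1 h2 => pr_pos S hN5 h1 h2, fun a b h1 h2 h3 => pr_anti S h1 h2 h3⟩
  -- the total increase
  set v := vv A (pr d ρ β) a0 Jm with hv
  have hD : v Jm - v 0 ≤ Real.log a0 / Real.log A + 80 * c * ((d : ℝ) + 2) * L := by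
    have h1 : v Jm - v 0 = (Real.log (qq A (pr d ρ β) a0 0) - Real.log (qq A (pr d ρ β) a0 Jm)) / Real.log A := by
      rw [hv]
      unfold vv
      rw [min_self, Nat.zero_min]
      ring
    rw [h1]
    have h2 : Real.log (qq A (pr d ρ β) a0 0) ≤ Real.log a0 := by
      apply Real.log_le_log (SB.qq_pos hJ (Nat.zero_le _))
      unfold qq
      apply S.hi _ (le_max_left _ _)
      rw [pow_zero, max_eq_left hone]
      exact ha0am
    have h3 : -(2 * c) * Real.log N ≤ Real.log (qq A (pr d ρ β) a0 Jm) := by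
      have hN0 : (0 : ℝ) < N := by exact_mod_cast hN5
      rw [← Real.log_rpow hN0]
      exact Real.log_le_log (Real.rpow_pos_of_pos hN0 _) (S.lo _ (le_max_left _ _) hJ)
    have h4 : Real.log N = 40 * ((d : ℝ) + 2) * (L * Real.log A) := by
      have hN0 : (0 : ℝ) < N := by exact_mod_cast hN5
      have h5 : Real.log s = 1 / (40 * ((d : ℝ) + 2)) * Real.log N := by
        rw [hs]
        unfold as
        rw [Real.log_rpow hN0]
      have h6 : L * Real.log A = Real.log s := by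
        rw [← hsL, Real.log_rpow hA0]
      rw [h6, h5]
      field_simp
    rw [div_add' _ _ _ hlA.ne', div_le_div_iff_of_pos_right hlA]
    have h7 : 80 * c * ((d : ℝ) + 2) * L * Real.log A = 2 * c * Real.log N := by
      rw [h4]
      ring
    linarith
  set K1 := Jm - (i1 + l + 2) with hK1
  have hi0 : (0 : ℝ) ≤ i0 := Nat.cast_nonneg _
  have hi1 : (0 : ℝ) ≤ i1 := Nat.cast_nonneg _
  have hll : (0 : ℝ) ≤ l := Nat.cast_nonneg _
  have hCl : 0 ≤ Cc * (Real.log a0 / Real.log A) := mul_nonneg hCc0 (div_nonneg hlog0 hlA.le)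
  have hKJ : i1 + l + 2 ≤ Jm := by
    have h1 : ((i1 + l + 2 : ℕ) : ℝ) < (Jm : ℝ) := by
      push_cast
      linarith
    exact_mod_cast h1.le
  have hcount : ((i0 : ℝ) + i1 + 2 + 2 * (i0 + 1)) * ((l + 2) * (v Jm - v 0) / del) +
      (i0 + i1 + l) * (v Jm - v 0) / ηA < (K1 : ℝ) - K0 := by
    have h1 : ((i0 : ℝ) + i1 + 2 + 2 * (i0 + 1)) * ((l + 2) * (v Jm - v 0) / del) +
        (i0 + i1 + l) * (v Jm - v 0) / ηA = Cc * (v Jm - v 0) := by
      rw [hCc]
      ring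
    rw [h1]
    have h2 := mul_le_mul_of_nonneg_left hD hCc0
    have h3 : Cc * (80 * c * ((d : ℝ) + 2) * L) ≤ L := by
      calc Cc * (80 * c * ((d : ℝ) + 2) * L) = (80 * c * ((d : ℝ) + 2) * Cc) * L := by ring
        _ ≤ 1 * L := mul_le_mul_of_nonneg_right hcC (by linarith)
        _ = L := one_mul L
    have h4 : (K1 : ℝ) = Jm - (i1 + l + 2) := by
      rw [hK1, Nat.cast_sub hKJ]
      push_cast
      ring
    have h5 : (K0 : ℝ) = i0 + ⌈4 * L⌉₊ := by
      rw [hK0]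
      push_cast
      ring
    rw [h4, h5]
    rw [mul_add] at h2
    linarith
  obtain ⟨k, k1, k2, k3, k4, k5⟩ := SB.exists_k hJ hdel0 l i0 i1 K0 K1 hηA0 (by omega) hcount
  set B := Bd A (pr d ρ β) a0 Jm del l with hB
  have hkJ : k + i1 + l + 2 < Jm := by omega
  have hik : i0 ≤ k := by omega
  have hlo : s ^ 4 ≤ (A : ℝ) ^ (k - i0) := by
    rw [hpw, hAn]
    apply Real.rpow_le_rpow_of_exponent_le hA1.le
    have h1 : ((⌈4 * L⌉₊ : ℕ) : ℝ) ≤ ((k - i0 : ℕ) : ℝ) := by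
      exact_mod_cast (show ⌈4 * L⌉₊ ≤ k - i0 by omega)
    push_cast at h1 ⊢
    linarith
  have hs14 : s ≤ s ^ 4 := by
    calc s = s ^ 1 := (pow_one s).symm
      _ ≤ s ^ 4 := pow_le_pow_right₀ hN3 (by norm_num)
  have hs24 : s ^ 2 ≤ s ^ 4 := pow_le_pow_right₀ hN3 (by norm_num)
  have hΛA : ∀ n : ℕ, Λ * (A : ℝ) ^ n ≤ (A : ℝ) ^ (n + l) := by
    intro n
    rw [pow_add, mul_comm]
    exact mul_le_mul_of_nonneg_left hl.le (pow_pos hA0 n).le
  have hAΛ : ∀ n : ℕ, (A : ℝ) ^ n ≤ Λ * (A : ℝ) ^ n := by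
    intro n
    have := mul_le_mul_of_nonneg_right hΛ (pow_pos hA0 n).le
    rwa [one_mul] at this
  -- growth at the levels which are not bad
  have hG : ∀ j : ℕ, s ^ 2 ≤ (A : ℝ) ^ j → j ∉ B → j + l + 1 ≤ Jm →
      (A + 1) * nn d ρ β ((A : ℝ) ^ j) ≤ nn d ρ β ((A : ℝ) ^ (j + 1)) := by
    intro j hj1 hj2 hj3
    apply nn_grow S (hAle _ (by omega))
    have hsj : a0 ≤ (A : ℝ) ^ j := by
      calc a0 ≤ s := hN2
        _ = s ^ 1 := (pow_one s).symm
        _ ≤ s ^ 2 := pow_le_pow_right₀ hN3 (by norm_num)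
        _ ≤ _ := hj1
    refine hN1 _ hj1 ((hΛA j).trans (hAle _ (by omega))) ?_ ?_
    · rw [mul_comm, ← pow_succ]
      exact hAle _ (by omega)
    · refine Rg_mono S hN5 ((hΛA j).trans (hAle _ (by omega))) (dl_le (A := A)) ?_
      exact SB.rg_of_good hJ hdel0.le hdel hj2 hj3 (hsj.trans (hAΛ j)) (hAΛ j)
        ((hΛA j).trans (pow_le_pow_right₀ hA1.le (by omega)))
  have hsk : ∀ j : ℕ, k - i0 ≤ j → s ^ 4 ≤ (A : ℝ) ^ j := fun j hj =>
    hlo.trans (pow_le_pow_right₀ hA1.le hj)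
  refine ⟨k, hik, hlo, ?_, ?_, ?_, ?_, ?_⟩
  · exact (hΛA _).trans (hAle _ (by omega))
  · -- regular budgets
    intro a ha1 ha2
    have ha0 : a0 ≤ a := by linarith
    obtain ⟨i, hi2, hi3⟩ := SB.exists_level (hone.trans ha0)
    have hki : k - i0 ≤ i := by
      by_contra hcon
      have h1 : (A : ℝ) ^ (i + 1) ≤ (A : ℝ) ^ (k - i0) := pow_le_pow_right₀ hA1.le (by omega)
      linarith
    rcases Nat.lt_or_ge (k + i1) i with h | h
    · refine SB.rg_of_good hJ hdel0.le hdel (j := k + i1) (k3 _ (by omega) (by omega)) (by omega) ha0 ?_ ?_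
      · exact (pow_le_pow_right₀ hA1.le h.le).trans hi2
      · exact ha2.trans ((hΛA _).trans (pow_le_pow_right₀ hA1.le (by omega)))
    · refine SB.rg_of_good hJ hdel0.le hdel (j := i) (k3 _ hki (by omega)) (by omega) ha0 hi2 ?_
      exact hi3.le.trans (pow_le_pow_right₀ hA1.le (by omega))
  · -- the price is slow
    have h1 := SB.qq_le hJ (show k - i0 ≤ Jm by omega) (show k + i1 + l ≤ Jm by omega) k5
    have h2 : (A : ℝ) ^ ηA = 1 + η := by
      rw [hηA, Real.rpow_def_of_pos hA0, mul_div_cancel₀ _ hlA.ne', Real.exp_log (by linarith)]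
    rw [h2] at h1
    unfold qq at h1
    have h3 : a0 ≤ (A : ℝ) ^ (k - i0) := by linarith
    have h4 : (A : ℝ) ^ (k - i0) ≤ (A : ℝ) ^ (k + i1) := pow_le_pow_right₀ hA1.le (by omega)
    have h5 : (A : ℝ) ^ (k + i1) ≤ (A : ℝ) ^ (k + i1 + l) := pow_le_pow_right₀ hA1.le (by omega)
    rw [max_eq_right h3, max_eq_right (h3.trans (h4.trans h5))] at h1
    refine h1.trans (mul_le_mul_of_nonneg_left ?_ (by linarith))
    exact pr_anti S (h3.trans (h4.trans (hAΛ _))) (hΛA _) (hAle _ (by omega))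
  · -- `psi`
    intro k' hk1 hk2 M hM1 hM2
    have hM0 : 0 < M := by linarith
    obtain ⟨i, hi2, hi3⟩ := SB.exists_level hM1
    have hik' : i ≤ k' := by
      by_contra hcon
      have h1 : (A : ℝ) ^ (k' + 1) ≤ (A : ℝ) ^ i := pow_le_pow_right₀ hA1.le (by omega)
      have h2 : (A : ℝ) ^ k' < (A : ℝ) ^ (k' + 1) := pow_lt_pow_right₀ hA1 (Nat.lt_succ_self _)
      have h3 := hsk k' hk1
      linarith
    have hsj : ∀ j, k' - i ≤ j → s ^ 2 ≤ (A : ℝ) ^ j := by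
      intro j hj
      have h1 : (A : ℝ) ^ k' ≤ (A : ℝ) ^ j * (A : ℝ) ^ i := by
        rw [← pow_add]
        exact pow_le_pow_right₀ hA1.le (by omega)
      have h2 := hsk k' hk1
      have h3 : (A : ℝ) ^ j * (A : ℝ) ^ i ≤ (A : ℝ) ^ j * s :=
        mul_le_mul_of_nonneg_left (hi2.trans hM2) (pow_pos hA0 j).le
      have h4 : s ^ 3 * s ≤ (A : ℝ) ^ j * s := by
        calc s ^ 3 * s = s ^ 4 := by ring
          _ ≤ _ := h2.trans (h1.trans h3)
      have h5 := le_of_mul_le_mul_right h4 hs0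
      exact (pow_le_pow_right₀ hN3 (show 2 ≤ 3 by norm_num)).trans h5
    have hps : ps d ρ β ((A : ℝ) ^ k' / M) ≤ 2 * ps d ρ β ((A : ℝ) ^ (k' - i)) := by
      apply ps_le j0 hρ S (div_pos (pow_pos hA0 _) hM0) _ (hAle _ (by omega))
      rw [div_le_iff₀ hM0]
      have h1 : (A : ℝ) ^ k' = (A : ℝ) ^ (k' - i) * (A : ℝ) ^ i := by
        rw [← pow_add]
        congr 1
        omega
      rw [h1]
      exact mul_le_mul_of_nonneg_left hi2 (pow_pos hA0 _).le
    refine hps.trans ?_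
    refine psi_pow hA2 (f := fun j => ps d ρ β ((A : ℝ) ^ j)) hik' (k4 k' hk1 hk2) ?_ ?_ ?_ hM1 hi3
    · intro j hj1 hj2
      exact ps_step j0 hρ S hA2 (hAle _ (by omega))
    · intro j hj1 hj2 hj3
      exact ps_grow hA2 (hG j (hsj j hj1) hj3 (by omega))
    · exact div_nonneg (Nat.cast_nonneg _) (pow_pos hA0 _).le
  · -- Lemma 7 at the levels of the window
    intro i hi
    have key : ∀ i, i ≤ i1 → (A + 1) ^ i * nn d ρ β ((A : ℝ) ^ k) ≤ nn d ρ β ((A : ℝ) ^ (k + i)) := by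
      intro i
      induction i with
      | zero => intro _; simp
      | succ i ih =>
        intro hi
        have h1 := ih (by omega)
        have h2 := hG (k + i) (hs24.trans (hsk _ (by omega))) (k3 _ (by omega) (by omega)) (by omega)
        calc (A + 1) ^ (i + 1) * nn d ρ β ((A : ℝ) ^ k) = (A + 1) * ((A + 1) ^ i * nn d ρ β ((A : ℝ) ^ k)) := by
              ring
          _ ≤ (A + 1) * nn d ρ β ((A : ℝ) ^ (k + i)) := Nat.mul_le_mul_left _ h1
          _ ≤ _ := h2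
    exact (SS_mono (key i hi)).trans (SS_nn S (pow_pos hA0 _).le (hAle _ (by omega)))

end Pool.Agent.W_7d29a1_q
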