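import Pool.Agent.W_7d29a1_q.TlD

/-!
Row 601, section 6 (tails): the quantities for large `N`. TASK TlG.
-/

namespace Pool.Agent.W_7d29a1_q

open MeasureTheory ProbabilityTheory Filter Topology Pool.Agent.W_MP_7d29a1_pr
  Pool.Agent.W_7d29a1_h46 Pool.Agent.W_7d29a1_h46u Pool.Agent.W_7d29a1_h3

private theorem TlG_kpos (d : ℕ) : (0 : ℝ) < 1 / (40 * ((d : ℝ) + 2)) := by positivity

private theorem TlG_as_tendsto (d : ℕ) : Tendsto (fun N : ℕ => as d N) atTop atTop := by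
  unfold as
  exact (tendsto_rpow_atTop (TlG_kpos d)).comp tendsto_natCast_atTop_atTop

/-- `N ^ (-k) * log N → 0`. -/
private theorem TlG_log (d : ℕ) : Tendsto (fun N : ℕ => Real.log N / as d N) atTop (𝓝 0) := by
  have h1 := (isLittleO_log_rpow_atTop (TlG_kpos d)).tendsto_div_nhds_zero
  exact h1.comp tendsto_natCast_atTop_atTop

/-- A polynomial in `N` to the power `g / as`: tends to `1`. -/
theorem poly_pow (d : ℕ) {g C : ℝ} (hg : 0 < g) (hC : 1 ≤ C) (D : ℕ) :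
    ∀ᶠ N : ℕ in atTop, ∀ K b : ℝ, 1 ≤ K → K ≤ C * (N : ℝ) ^ D → as d N ≤ b →
      K ^ (g / b) ≤ 11 / 10 := by
  have h1 : Tendsto (fun N : ℕ => g * (Real.log C / as d N + D * (Real.log N / as d N))) atTop (𝓝 0) := by
    have ha : Tendsto (fun N : ℕ => Real.log C / as d N) atTop (𝓝 0) :=
      (TlG_as_tendsto d).const_div_atTop _
    have hb := (TlG_log d).const_mul (D : ℝ)
    have := (ha.add hb).const_mul g
    simpa using this
  have h2 : (0 : ℝ) < Real.log (11 / 10) := Real.log_pos (by norm_num)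
  filter_upwards [h1.eventually (eventually_le_nhds h2), (TlG_as_tendsto d).eventually_gt_atTop 0,
    eventually_ge_atTop 1] with N hN has hN1
  intro K b hK hKC hb
  have hb0 : 0 < b := has.trans_le hb
  have hK0 : 0 < K := by linarith
  have hNp : (0 : ℝ) < N := by exact_mod_cast hN1
  have h3 : Real.log K ≤ Real.log C + D * Real.log N := by
    have h4 : Real.log K ≤ Real.log (C * (N : ℝ) ^ D) := Real.log_le_log hK0 hKC
    rwa [Real.log_mul (by positivity) (by positivity), Real.log_pow] at h4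
  have h5 : 0 ≤ Real.log K := Real.log_nonneg hK
  have h6 : Real.log K * (g / b) ≤ Real.log (11 / 10) := by
    refine le_trans ?_ hN
    calc Real.log K * (g / b) = g * (Real.log K / b) := by ring
      _ ≤ g * (Real.log K / as d N) := by
        refine mul_le_mul_of_nonneg_left ?_ hg.le
        exact div_le_div_of_nonneg_left h5 has hb
      _ ≤ g * ((Real.log C + D * Real.log N) / as d N) := by
        refine mul_le_mul_of_nonneg_left ?_ hg.le
        exact div_le_div_of_nonneg_right h3 has.le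
      _ = g * (Real.log C / as d N + D * (Real.log N / as d N)) := by ring
  rw [Real.rpow_def_of_pos hK0]
  calc Real.exp (Real.log K * (g / b)) ≤ Real.exp (Real.log (11 / 10)) := Real.exp_le_exp.2 h6
    _ = 11 / 10 := Real.exp_log (by norm_num)

/-- `W = Λ a / π`: `Sc.lo`, `Sc.hi`, `nn_lt`, `as d N → ∞`, `am d N * N ^ (2 c) + 8 ≤ N`. -/
theorem tl_large (d : ℕ) (ρ : Measure ℝ) [IsProbabilityMeasure ρ] (β c a0 : ℝ) {Λ g Cu B : ℝ}
    (hΛ : 1 ≤ Λ) (hg : 0 < g) (hCu : 1 ≤ Cu) :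
    ∀ᶠ N : ℕ in atTop, Sc d ρ β c a0 N → ∀ a : ℝ, as d N ≤ a → Λ * a ≤ am d N →
      0 < pr d ρ β (Λ * a) ∧ 0 < a ∧ B ≤ WW d ρ β (Λ * a) ∧ WW d ρ β (Λ * a) + 8 ≤ N ∧
      2 * (g / (Λ * a)) ≤ 1 ∧
      KT d ρ β (nn d ρ β a) (3 / 4 * pr d ρ β (Λ * a)) ^ (g / (Λ * a)) ≤ 11 / 10 ∧
      (Cu * ((2 * (nn d ρ β a : ℝ) + 1) * (2 * (N : ℝ) + 1) ^ d)) ^ (2 * (g / (Λ * a))) ≤ 11 / 10 := by
  set E : ℝ := 1 + Real.exp (-(2 * lam ρ β (0 : Vec d))) * (2 * (d : ℝ)) ^ 2 with hE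
  have hE1 : 1 ≤ E := by
    rw [hE]
    have : 0 ≤ Real.exp (-(2 * lam ρ β (0 : Vec d))) * (2 * (d : ℝ)) ^ 2 := by positivity
    linarith
  set CK : ℝ := 2 * 5 ^ d * 5 ^ d * Real.exp (2 * (3 / 4 * |a0|)) * E with hCK
  have hCK1 : 1 ≤ CK := by
    rw [hCK]
    have h5 : (1 : ℝ) ≤ 5 ^ d := one_le_pow₀ (by norm_num)
    have he : (1 : ℝ) ≤ Real.exp (2 * (3 / 4 * |a0|)) := Real.one_le_exp (by positivity)
    have h1 : (1 : ℝ) ≤ 2 * 5 ^ d := by linarith
    have h2 := one_le_mul_of_one_le_of_one_le h1 h5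
    have h3 := one_le_mul_of_one_le_of_one_le h2 he
    exact one_le_mul_of_one_le_of_one_le h3 hE1
  have hCu' : 1 ≤ Cu * (3 * 3 ^ d) := by
    have h5 : (1 : ℝ) ≤ 3 ^ d := one_le_pow₀ (by norm_num)
    have h1 : (1 : ℝ) ≤ 3 * 3 ^ d := by linarith
    exact one_le_mul_of_one_le_of_one_le hCu h1
  have hsq : Tendsto (fun N : ℕ => (N : ℝ) ^ (1 / 2 : ℝ)) atTop atTop :=
    (tendsto_rpow_atTop (by norm_num)).comp tendsto_natCast_atTop_atTop
  filter_upwards [poly_pow d hg hCK1 (d + 1),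
    poly_pow d (g := 2 * g) (by positivity) hCu' (d + 1),
    (TlG_as_tendsto d).eventually_gt_atTop 0, (TlG_as_tendsto d).eventually_ge_atTop a0,
    (TlG_as_tendsto d).eventually_ge_atTop (a0 * B), (TlG_as_tendsto d).eventually_ge_atTop (2 * g),
    hsq.eventually_ge_atTop 4, eventually_ge_atTop 1] with N hp1 hp2 has0 hasa hasB hasg h4 hN1
  intro S a ha1 ha2
  have hNp : (0 : ℝ) < N := by exact_mod_cast hN1
  have hN1' : (1 : ℝ) ≤ N := by exact_mod_cast hN1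
  have ha0 : 0 < a := has0.trans_le ha1
  have hΛa : a ≤ Λ * a := le_mul_of_one_le_left ha0.le hΛ
  have hb0 : a0 ≤ Λ * a := hasa.trans (ha1.trans hΛa)
  have hpos : 0 < Λ * a := ha0.trans_le hΛa
  have hlo := S.lo _ hb0 ha2
  have hhi := S.hi _ hb0 ha2
  have hone := S.one
  have hpr : 0 < pr d ρ β (Λ * a) := (Real.rpow_pos_of_pos hNp _).trans_le hlo
  have hnn : 4 * nn d ρ β a < N := nn_lt S ha0.le (hΛa.trans ha2)
  have hnnr : 4 * (nn d ρ β a : ℝ) ≤ N := by exact_mod_cast hnn.le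
  have hnn0 : (0 : ℝ) ≤ nn d ρ β a := Nat.cast_nonneg _
  refine ⟨hpr, ha0, ?_, ?_, ?_, ?_, ?_⟩
  · unfold WW
    rw [le_div_iff₀ hpr]
    rcases le_or_gt B 0 with hB | hB
    · exact (mul_nonpos_of_nonpos_of_nonneg hB hpr.le).trans hpos.le
    · calc B * pr d ρ β (Λ * a) ≤ B * a0 := mul_le_mul_of_nonneg_left hhi hB.le
        _ = a0 * B := mul_comm _ _
        _ ≤ as d N := hasB
        _ ≤ Λ * a := ha1.trans hΛa
  · have h1 : WW d ρ β (Λ * a) ≤ (N : ℝ) ^ (1 / 2 : ℝ) := by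
      unfold WW
      rw [div_le_iff₀ hpr]
      have h2 : (N : ℝ) ^ (1 / 2 : ℝ) * (N : ℝ) ^ (-(2 * c)) ≤ (N : ℝ) ^ (1 / 2 : ℝ) * pr d ρ β (Λ * a) :=
        mul_le_mul_of_nonneg_left hlo (Real.rpow_nonneg hNp.le _)
      refine le_trans ?_ h2
      rw [← Real.rpow_add hNp]
      refine ha2.trans ?_
      unfold am
      refine Real.rpow_le_rpow_of_exponent_le hN1' ?_
      have hd : (0 : ℝ) ≤ d := Nat.cast_nonneg d
      have h3 : 1 / (2 * ((d : ℝ) + 2)) ≤ 1 / 4 :=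
        one_div_le_one_div_of_le (by norm_num) (by linarith)
      have h5 : c ≤ 1 / 800 := by
        refine S.csm.trans (one_div_le_one_div_of_le (by norm_num) ?_)
        linarith
      linarith
    have h2 : (N : ℝ) = (N : ℝ) ^ (1 / 2 : ℝ) * (N : ℝ) ^ (1 / 2 : ℝ) := by
      rw [← Real.rpow_add hNp]
      norm_num
    rw [h2]
    nlinarith
  · rw [← mul_div_assoc, div_le_one hpos]
    exact hasg.trans (ha1.trans hΛa)
  · refine hp1 _ _ ?_ ?_ (ha1.trans hΛa)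
    · unfold KT
      have h1 : (1 : ℝ) ≤ (nn d ρ β a : ℝ) + 1 := by linarith
      have h2 : (1 : ℝ) ≤ (4 * (nn d ρ β a : ℝ) + 1) ^ d := one_le_pow₀ (by linarith)
      have h3 : (1 : ℝ) ≤ 5 ^ d := one_le_pow₀ (by norm_num)
      have h5 : (1 : ℝ) ≤ Real.exp (2 * (3 / 4 * pr d ρ β (Λ * a))) := Real.one_le_exp (by positivity)
      have h6 := one_le_mul_of_one_le_of_one_le h1 h2
      have h7 := one_le_mul_of_one_le_of_one_le h6 h3
      have h8 := one_le_mul_of_one_le_of_one_le h7 h5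
      exact one_le_mul_of_one_le_of_one_le h8 hE1
    · unfold KT
      have h1 : (nn d ρ β a : ℝ) + 1 ≤ 2 * N := by linarith
      have h2 : (4 * (nn d ρ β a : ℝ) + 1) ^ d ≤ (5 * (N : ℝ)) ^ d :=
        pow_le_pow_left₀ (by linarith) (by linarith) d
      have h5 : Real.exp (2 * (3 / 4 * pr d ρ β (Λ * a))) ≤ Real.exp (2 * (3 / 4 * |a0|)) := by
        refine Real.exp_le_exp.2 ?_
        have := le_abs_self a0
        linarith
      calc ((nn d ρ β a : ℝ) + 1) * (4 * (nn d ρ β a : ℝ) + 1) ^ d * 5 ^ d *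
            Real.exp (2 * (3 / 4 * pr d ρ β (Λ * a))) * E
          ≤ (2 * N) * (5 * (N : ℝ)) ^ d * 5 ^ d * Real.exp (2 * (3 / 4 * |a0|)) * E := by
            gcongr
        _ = CK * (N : ℝ) ^ (d + 1) := by
            rw [hCK, mul_pow]
            ring
  · rw [← mul_div_assoc]
    refine hp2 _ _ ?_ ?_ (ha1.trans hΛa)
    · have h1 : (1 : ℝ) ≤ 2 * (nn d ρ β a : ℝ) + 1 := by linarith
      have h2 : (1 : ℝ) ≤ (2 * (N : ℝ) + 1) ^ d := one_le_pow₀ (by linarith)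
      exact one_le_mul_of_one_le_of_one_le hCu (one_le_mul_of_one_le_of_one_le h1 h2)
    · have h1 : 2 * (nn d ρ β a : ℝ) + 1 ≤ 3 * N := by linarith
      have h2 : (2 * (N : ℝ) + 1) ^ d ≤ (3 * (N : ℝ)) ^ d :=
        pow_le_pow_left₀ (by linarith) (by linarith) d
      calc Cu * ((2 * (nn d ρ β a : ℝ) + 1) * (2 * (N : ℝ) + 1) ^ d)
          ≤ Cu * ((3 * N) * (3 * (N : ℝ)) ^ d) := by gcongr
        _ = Cu * (3 * 3 ^ d) * (N : ℝ) ^ (d + 1) := by
            rw [mul_pow]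
            ring

end Pool.Agent.W_7d29a1_q
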