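import Pool.Agent.W_7d29a1_q.TlF
import Pool.Agent.W_7d29a1_q.TlG

/-!
Row 601, section 6 (tails): Lemma 6 from Lemma 5.
-/

namespace Pool.Agent.W_7d29a1_q

open MeasureTheory ProbabilityTheory Filter Topology Pool.Agent.W_MP_7d29a1_pr
  Pool.Agent.W_7d29a1_h46 Pool.Agent.W_7d29a1_h46u Pool.Agent.W_7d29a1_h3

variable {d : ℕ}

/-- The bound for the mean from the recursion. -/
theorem TlM_num {X K E e3 I Q κ C Λ : ℝ} (hX : 0 ≤ X) (hQ : 1 ≤ Q) (hE : 1 ≤ E) (hC : 1 ≤ C)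
    (hK : K ≤ 11 / 10) (he3 : e3 ≤ 1 / (5 * Q)) (hκ : κ = 10 * Q * E) (hΛ : Λ = 88 * Q ^ 2 * E ^ 2 * C)
    (hI0 : 0 ≤ I) (he30 : 0 ≤ e3)
    (hI : I ≤ κ * (C / Λ) + 11 / 10 / κ) (h : X ≤ K * (E + (e3 + E * I) * Q * X)) :
    X ≤ 11 / 5 * E := by
  have hQ0 : 0 < Q := by linarith
  have hE0 : 0 < E := by linarith
  have hC0 : 0 < C := by linarith
  have h1 : e3 * Q ≤ 1 / 5 := by
    have := mul_le_mul_of_nonneg_right he3 hQ0.le
    refine this.trans (le_of_eq ?_)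
    field_simp
  have h2 : E * I * Q ≤ 5 / 44 + 11 / 100 := by
    have h3 : E * I * Q ≤ E * (κ * (C / Λ) + 11 / 10 / κ) * Q :=
      mul_le_mul_of_nonneg_right (mul_le_mul_of_nonneg_left hI hE0.le) hQ0.le
    refine h3.trans (le_of_eq ?_)
    rw [hκ, hΛ]
    field_simp
    norm_num
  have h3 : X ≤ 11 / 10 * (E + (e3 + E * I) * Q * X) := by
    refine h.trans (mul_le_mul_of_nonneg_right hK ?_)
    have : 0 ≤ (e3 + E * I) * Q * X := by positivity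
    linarith
  have h4 : (e3 + E * I) * Q * X ≤ (1 / 5 + (5 / 44 + 11 / 100)) * X := by
    refine mul_le_mul_of_nonneg_right ?_ hX
    rw [add_mul]
    linarith
  linarith

theorem tails_of (j0 : Fin d) {C ε1 : ℝ} (hF : FreeProp d C ε1) :
    ∃ Λ g C3 ε1 : ℝ, TailProp d Λ g C3 ε1 := by
  classical
  obtain ⟨hC1, hε0, hε8, hfree⟩ := hF
  obtain ⟨m, hm⟩ := mesh hε0 (hε8.trans (by norm_num))
  obtain ⟨Q, hQdef⟩ : ∃ Q : ℝ, Q = (2 * (m : ℝ) + 1) ^ d := ⟨_, rfl⟩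
  have hQ : 1 ≤ Q := by
    rw [hQdef]
    have h0 : (0 : ℝ) ≤ m := Nat.cast_nonneg m
    exact one_le_pow₀ (by linarith)
  have hQ0 : 0 < Q := by linarith
  obtain ⟨g, hgdef⟩ : ∃ g : ℝ, g = 64 / 3 * Real.log (5 * Q) := ⟨_, rfl⟩
  have hlog : 0 < Real.log (5 * Q) := Real.log_pos (by linarith)
  have hg : 0 < g := by
    rw [hgdef]
    positivity
  obtain ⟨E, hEdef⟩ : ∃ E : ℝ, E = Real.exp (g / 64) := ⟨_, rfl⟩
  have hE : 1 ≤ E := by
    rw [hEdef]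
    exact Real.one_le_exp (by positivity)
  obtain ⟨Λ, hΛdef⟩ : ∃ Λ : ℝ, Λ = 88 * Q ^ 2 * E ^ 2 * C := ⟨_, rfl⟩
  have hΛ : 1 ≤ Λ := by
    rw [hΛdef]
    have h1 : 1 ≤ Q ^ 2 := one_le_pow₀ hQ
    have h2 : 1 ≤ E ^ 2 := one_le_pow₀ hE
    have h3 : (1 : ℝ) ≤ 88 * Q ^ 2 := by linarith
    exact one_le_mul_of_one_le_of_one_le (one_le_mul_of_one_le_of_one_le h3 h2) hC1
  have hΛ0 : 0 < Λ := by linarith
  obtain ⟨κ, hκdef⟩ : ∃ κ : ℝ, κ = 10 * Q * E := ⟨_, rfl⟩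
  have hκ : 0 < κ := by
    rw [hκdef]
    positivity
  refine ⟨Λ, g, 11 / 5 * E, ε1, hΛ, hg, by linarith, hε0, hε8.trans (by norm_num), ?_⟩
  intro ρ _ β c a0 hρ
  obtain ⟨Cu, hCu1, hCu⟩ := UU_moment hρ d β
  filter_upwards [hfree Λ hΛ ρ β c a0 hρ,
    tl_large d ρ β c a0 (B := 8 / ε1) hΛ hg hCu1] with N hN1 hN2 hS a ha1 ha2 hRg
  have hVV := hN1 hS a ha1 ha2 hRg
  obtain ⟨hπ, ha0, hB, hWN, h2γ, hKT, hUq⟩ := hN2 hS a ha1 ha2
  obtain ⟨π, hπdef⟩ : ∃ π : ℝ, π = pr d ρ β (Λ * a) := ⟨_, rfl⟩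
  obtain ⟨W, hWdef⟩ : ∃ W : ℝ, W = WW d ρ β (Λ * a) := ⟨_, rfl⟩
  obtain ⟨h, hhdef⟩ : ∃ h : ℕ, h = nn d ρ β a := ⟨_, rfl⟩
  obtain ⟨γ, hγdef⟩ : ∃ γ : ℝ, γ = g / (Λ * a) := ⟨_, rfl⟩
  rw [← hπdef] at hπ hKT
  rw [← hWdef] at hB hWN
  rw [← hhdef] at hKT hUq
  rw [← hγdef] at h2γ hKT hUq
  rw [← hπdef, ← hWdef, ← hhdef] at hVV
  rw [← hπdef, ← hWdef, ← hhdef, ← hγdef]
  have hΛa : 0 < Λ * a := by positivity
  have hγ : 0 < γ := by
    rw [hγdef]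
    positivity
  have hγ1 : γ ≤ 1 := by linarith
  have hW : π * W = Λ * a := by
    rw [hWdef, hπdef]
    unfold WW
    rw [← hπdef]
    field_simp
  have hεW : 8 ≤ ε1 * W := by
    rw [div_le_iff₀ hε0] at hB
    linarith
  have hW0 : 0 < W := by
    by_contra hc
    push Not at hc
    have := mul_nonpos_of_nonneg_of_nonpos hε0.le hc
    linarith
  obtain ⟨f, hf1, hfe, hfr, hfm⟩ := hm W hεW
  obtain ⟨R, hRdef⟩ : ∃ R : ℕ, R = ⌈W / 2⌉₊ := ⟨_, rfl⟩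
  have hR1 : W / 2 ≤ R := by
    rw [hRdef]
    exact Nat.le_ceil _
  have hR2 : (R : ℝ) ≤ W / 2 + 1 := by
    rw [hRdef]
    exact (Nat.ceil_lt_add_one (by positivity)).le
  have hR0 : 1 ≤ R := by
    rw [hRdef]
    exact Nat.ceil_pos.2 (by positivity)
  have hr : 0 ≤ ε1 * W := by positivity
  have hf0 : (0 : ℝ) < f := by exact_mod_cast hf1
  have hU := fun A hA => UU_ind (ρ := ρ) (d := d) (β := β) (M := N) (t := h) (q := 11 / 10) (κ := κ)
    hγ h2γ (hCu N h (2 * γ) (by positivity) h2γ).1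
    ((hCu N h (2 * γ) (by positivity) h2γ).2.trans hUq) (A := A) hA hκ
  have hUi := (hU Set.univ MeasurableSet.univ).1
  refine ⟨Gf ρ β (3 / 4 * π) γ (ε1 * W) h 0 0, measurable_Gf 0, ?_, one_le_Gf 0,
    integrable_Gf j0 hρ hγ hγ1 0, ?_, ?_⟩
  · refine DependsOn.mono ?_ (dep_Gf (ρ := ρ) (β := β) (θ := 3 / 4 * π) (γ := γ) (r := ε1 * W)
      (h := h) (s0 := 0) (0 : Site d))
    intro p hp
    have h1 := hp.1
    have h2 := hp.2
    show 1 ≤ p.1 ∧ p.1 ≤ 2 * h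
    omega
  · have hrec := mean_rec (ρ := ρ) (β := β) j0 hρ (θ := 3 / 4 * π) (θ1 := 7 / 8 * π) (ℓ := Λ * a / 64)
      (R1 := W / 2 + 2) (γ := γ) (r := ε1 * W) (h := h) (R := R) (f := f) (m := m) (M := N) hγ hγ1 hUi
      (by positivity) (by linarith) (by positivity) hr hR0 (by linarith)
      (by
        have : ε1 * W ≤ 1 / 8 * W := mul_le_mul_of_nonneg_right hε8 hW0.le
        linarith) hf1 hfe hfr (by
        refine le_trans ?_ hfm
        have : (ε1 * W + R + 3) / f ≤ (ε1 * W + W / 2 + 4) / f :=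
          div_le_div_of_nonneg_right (by linarith) hf0.le
        linarith)
    have hγℓ : γ * (Λ * a / 64) = g / 64 := by
      rw [hγdef]
      field_simp
    rw [hγℓ, ← hEdef, ← hQdef] at hrec
    have hmeas : MeasurableSet (⋃ t ∈ Finset.Icc 1 h,
        Fs d ρ β (7 / 8 * π) (Λ * a / 64) (W / 2 + 2) (ε1 * W) t) :=
      Finset.measurableSet_biUnion _ fun t _ => measurableSet_Fs t
    refine TlM_num (X := ∫ η, Gf ρ β (3 / 4 * π) γ (ε1 * W) h 0 (0 : Site d) η ∂(law d ρ)) ?_ hQ hE hC1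
      hKT ?_ hκdef hΛdef ?_ (Real.exp_pos _).le ?_ hrec
    · exact integral_nonneg fun η => zero_le_one.trans (one_le_Gf 0 η)
    · have h1 : 3 * g / 64 ≤ γ * ((7 / 8 * π - 3 / 4 * π) * R - Λ * a / 64) := by
        have h2 : Λ * a / 16 ≤ (7 / 8 * π - 3 / 4 * π) * R := by
          have h3 := mul_le_mul_of_nonneg_left hR1 hπ.le
          have h4 : π * (W / 2) = Λ * a / 2 := by
            rw [← hW]
            ring
          linarith
        have h5 : γ * (3 * (Λ * a) / 64) ≤ γ * ((7 / 8 * π - 3 / 4 * π) * R - Λ * a / 64) :=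
          mul_le_mul_of_nonneg_left (by linarith) hγ.le
        have h6 : γ * (3 * (Λ * a) / 64) = 3 * g / 64 := by
          rw [hγdef]
          field_simp
        linarith
      have h2 : Real.exp (-(3 * g / 64)) = 1 / (5 * Q) := by
        rw [hgdef, show -(3 * (64 / 3 * Real.log (5 * Q)) / 64) = -Real.log (5 * Q) by ring,
          Real.exp_neg, Real.exp_log (by positivity), one_div]
      rw [← h2]
      exact Real.exp_le_exp.2 (neg_le_neg h1)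
    · exact setIntegral_nonneg hmeas fun η _ => Real.rpow_nonneg (UU_nonneg _ _ _) _
    · refine (hU _ hmeas).2.trans (add_le_add (mul_le_mul_of_nonneg_left ?_ hκ.le) le_rfl)
      refine le_trans (measureReal_mono ?_) hVV
      refine Set.iUnion₂_subset fun t ht => ?_
      exact Fs_sub (Finset.mem_Icc.1 ht).2
  · intro η s t x p hst hth hx hxe hpe
    have h1 := le_Gf (ρ := ρ) (β := β) (θ := 3 / 4 * π) (γ := γ) (r := ε1 * W) (h := h) (s0 := 0) j0 hγ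
      (c := (0 : Site d)) η (Nat.zero_le s) hst hth (x := x) (by rwa [sub_zero])
      (by rw [sub_zero]; exact Nat.even_iff.1 hxe) (p - x)
    exact h1

end Pool.Agent.W_7d29a1_q
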