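import Pool.Agent.W_7d29a1_q.SaH
import Pool.Agent.W_7d29a1_q.Pt
import Pool.Agent.W_7d29a1_q.FrM
import Pool.Agent.W_7d29a1_q.TlM
import Pool.Agent.W_7d29a1_q.NlM
import Pool.Agent.W_7d29a1_q.Sc8M
import Pool.Agent.W_7d29a1_q.CoM
import Pool.Agent.W_7d29a1_q.NuR

/-!
Row 601: assembly. `hyp_false` and `lam_pow`: in every dimension `lam h - lam 0` is bounded below by a power of `‖h‖`.
-/

namespace Pool.Agent.W_7d29a1_q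

open MeasureTheory ProbabilityTheory Filter Topology Pool.Agent.W_MP_7d29a1_pr
  Pool.Agent.W_7d29a1_h46 Pool.Agent.W_7d29a1_h46u Pool.Agent.W_7d29a1_h3

variable {d : ℕ}

/-- SECTIONS 4, 5, 6 (exponential tails). -/
theorem tails (j0 : Fin d) : ∃ Λ g C3 ε1 : ℝ, TailProp d Λ g C3 ε1 := by
  obtain ⟨ε', hP⟩ := point j0
  obtain ⟨C, ε1, hF⟩ := free_of j0 hP
  exact tails_of j0 hF

/-- The power law along the axes. -/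
theorem hyp_false (j0 : Fin d) : ∃ c : ℝ, 0 < c ∧ c ≤ 1 / (400 * ((d : ℝ) + 2)) ∧
    ∀ (ρ : Measure ℝ) [IsProbabilityMeasure ρ] (β : ℝ), EM ρ → (∀ c : ℝ, ρ {c} ≠ 1) → 0 < β →
      ∀ᶠ N : ℕ in atTop, ¬ Hy d ρ β c N := by
  obtain ⟨Λ, g, C3, ε1, hT⟩ := tails j0
  obtain ⟨A, hA⟩ := nolin j0 hT
  obtain ⟨i0, i1, η, hη, hcon⟩ := contraq j0 hT hA
  obtain ⟨c, hc, hc1, hsc⟩ := scale j0 hT.1 hA i0 i1 hη
  refine ⟨c, hc, hc1, fun ρ _ β hρ hnc hβ => ?_⟩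
  obtain ⟨a0, ha0⟩ := sc_of j0 ρ hρ hnc hβ
  filter_upwards [ha0 c hc hc1, hsc ρ β c a0 le_rfl hρ, hcon ρ β c a0 hρ] with N h1 h2 h3 h4
  obtain ⟨k, hk⟩ := h2 (h1 h4)
  exact h3 (h1 h4) k hk

/-- THEOREM (Q1). -/
theorem lam_pow (j0 : Fin d) : ∃ K : ℝ, 1 ≤ K ∧
    ∀ (ρ : Measure ℝ) [IsProbabilityMeasure ρ] (β : ℝ), EM ρ → (∀ c : ℝ, ρ {c} ≠ 1) → 0 < β →
      ∃ c : ℝ, 0 < c ∧ ∀ h : Vec d, ‖h‖ ≤ 1 →
        lam ρ β (0 : Vec d) + c * ‖h‖ ^ K ≤ lam ρ β h :=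
  lam_pow_of j0 (hyp_false j0)

end Pool.Agent.W_7d29a1_q
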