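import Pool.Agent.W_7d29a1_q.Bas

/-!
Row 601, section 3: strategies. `Mv z M V s θ ε`: random cost `C` (mean exactly `M`, mean square deviation at most
`V`), random half time `τ` (`∫ S(τ) ≤ s`, `∫ τ ≤ θ`), bad event of probability at most `ε`; outside the bad event
`T(2l, z) ≤ C` for some `l ≤ τ`. TASK MvA.
-/

namespace Pool.Agent.W_7d29a1_q

open MeasureTheory ProbabilityTheory Filter Topology Pool.Agent.W_MP_7d29a1_pr
  Pool.Agent.W_7d29a1_h46 Pool.Agent.W_7d29a1_h46u Pool.Agent.W_7d29a1_h3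

variable {d : ℕ} {ρ : Measure ℝ} [IsProbabilityMeasure ρ] {β : ℝ}

/-- Strategies for the displacement `z`. -/
def Mv (d : ℕ) (ρ : Measure ℝ) (β : ℝ) (z : Site d) (M V s θ ε : ℝ) : Prop :=
  ∃ (C : Env d → ℝ) (τ : Env d → ℕ) (B : Set (Env d)),
    Measurable C ∧ Measurable τ ∧ MeasurableSet B ∧
    DependsOn C {p : ℕ × Site d | 1 ≤ p.1} ∧ DependsOn τ {p : ℕ × Site d | 1 ≤ p.1} ∧
    (∀ η η' : Env d, (∀ p : ℕ × Site d, 1 ≤ p.1 → η p = η' p) → (η ∈ B ↔ η' ∈ B)) ∧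
    (∀ η, 0 ≤ C η) ∧ Integrable C (law d ρ) ∧ ∫ η, C η ∂(law d ρ) = M ∧
    Integrable (fun η => (C η - M) ^ 2) (law d ρ) ∧ ∫ η, (C η - M) ^ 2 ∂(law d ρ) ≤ V ∧
    Integrable (fun η => SS d ρ β (τ η)) (law d ρ) ∧ ∫ η, SS d ρ β (τ η) ∂(law d ρ) ≤ s ∧
    Integrable (fun η => (τ η : ℝ)) (law d ρ) ∧ ∫ η, (τ η : ℝ) ∂(law d ρ) ≤ θ ∧
    (law d ρ).real B ≤ ε ∧ ∀ η ∉ B, ∃ l ≤ τ η, Tle ρ β η l z (C η)

/-- Add the constant `M' - M` to the cost. -/
theorem Mv_mono {z : Site d} {M V s θ ε M' V' s' θ' ε' : ℝ} (h : Mv d ρ β z M V s θ ε) (h1 : M ≤ M')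
    (h2 : V ≤ V') (h3 : s ≤ s') (h4 : θ ≤ θ') (h5 : ε ≤ ε') : Mv d ρ β z M' V' s' θ' ε' := by
  obtain ⟨C, τ, B, hC, hτ, hB, dC, dτ, dB, hC0, iC, mC, iV, mV, iS, mS, iτ, mτ, hε, hT⟩ := h
  refine ⟨fun η => C η + (M' - M), τ, B, hC.add_const _, hτ, hB, ?_, dτ, dB, ?_, ?_, ?_, ?_, ?_, iS, mS.trans h3, iτ,
    mτ.trans h4, hε.trans h5, ?_⟩
  · intro η η' h
    show C η + (M' - M) = C η' + (M' - M)
    rw [dC h]
  · intro η
    show 0 ≤ C η + (M' - M)
    linarith [hC0 η]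
  · exact iC.add (integrable_const _)
  · rw [integral_add iC (integrable_const _), mC, integral_const]
    simp
  · have e : ∀ η, (C η + (M' - M) - M') ^ 2 = (C η - M) ^ 2 := fun η => by ring
    simp only [e]
    exact iV
  · have e : ∀ η, (C η + (M' - M) - M') ^ 2 = (C η - M) ^ 2 := fun η => by ring
    simp only [e]
    exact mV.trans h2
  · intro η hη
    obtain ⟨l, hl, h6⟩ := hT η hη
    exact ⟨l, hl, Tle_mono h6 (by linarith)⟩

/-- The empty strategy. -/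
theorem Mv_zero : Mv d ρ β 0 0 0 0 0 0 := by
  refine ⟨fun _ => 0, fun _ => 0, ∅, measurable_const, measurable_const, MeasurableSet.empty, fun _ _ _ => rfl,
    fun _ _ _ => rfl, fun _ _ _ => Iff.rfl, fun _ => le_rfl, integrable_zero _ _ _, by simp, by simp, by simp,
    ?_, ?_, by simp, by simp, by simp, ?_⟩
  · simp only [SS_zero]
    exact integrable_zero _ _ _
  · simp only [SS_zero]
    simp
  · intro η _
    exact ⟨0, le_rfl, Tle_zero η le_rfl⟩

/-- A straight path: `t = ln z / 2`, `C = T(2t, z)_+ +` constant (`T_four`, `g_le`). -/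
theorem Mv_straight (j0 : Fin d) (hρ : EM ρ) (β : ℝ) : ∃ C : ℝ, 1 ≤ C ∧ ∀ (z : Site d) (D : ℝ),
    Even (ln z) → 1 ≤ D → (ln z : ℝ) ≤ D → Mv d ρ β z (C * D) (C * D ^ 2) (C * D) D 0 := by
  obtain ⟨C1, hC1, h4⟩ := T_four (d := d) j0 hρ β
  obtain ⟨s1, hs1⟩ : ∃ s1 : ℝ, s1 = SS d ρ β 1 := ⟨_, rfl⟩
  have hs0 : 0 ≤ s1 := by
    rw [hs1]
    exact SS_nonneg 1
  refine ⟨3 + C1 + s1, by linarith, fun z D hz hD hzD => ?_⟩
  obtain ⟨t, ht⟩ := hz
  have hD0 : 0 < D := by linarith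
  rcases Nat.eq_zero_or_pos t with h0 | h0
  · have hz0 : ln z = 0 := by omega
    have hz1 : z = 0 := by
      unfold ln at hz0
      funext j
      have h1 := (Finset.sum_eq_zero_iff.1 hz0) j (Finset.mem_univ j)
      simpa using h1
    rw [hz1]
    have hp : 0 ≤ (3 + C1 + s1) * D := mul_nonneg (by linarith) hD0.le
    refine Mv_mono Mv_zero hp ?_ hp hD0.le le_rfl
    exact mul_nonneg (by linarith) (sq_nonneg D)
  have hadm : adm (2 * t) z := ⟨by omega, by omega⟩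
  have ht1 : (1 : ℝ) ≤ t := by exact_mod_cast h0
  have htD : (t : ℝ) ≤ D := by
    have h1 : ((ln z : ℕ) : ℝ) = t + t := by rw [ht]; push_cast; ring
    linarith
  obtain ⟨i4, m4⟩ := h4 t z hadm
  have hm : Measurable fun η : Env d => max (-Real.log (Vp ρ β η (2 * t) z)) 0 :=
    (Real.measurable_log.comp (measurable_V (toP (2 * t) z))).neg.max measurable_const
  have ht0 : (0 : ℝ) < t := by linarith
  have alg2 : ∀ x : ℝ, max (-x) 0 ^ 2 ≤ (t : ℝ) ^ 2 + x ^ 4 / (t : ℝ) ^ 2 := by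
    intro x
    have h1 : max (-x) 0 ^ 2 ≤ x ^ 2 := by
      rcases le_total (-x) 0 with h | h
      · rw [max_eq_right h]
        nlinarith [sq_nonneg x]
      · rw [max_eq_left h]
        nlinarith
    have h2 : (t : ℝ) ^ 2 + x ^ 4 / (t : ℝ) ^ 2 - x ^ 2 = ((t : ℝ) ^ 4 + x ^ 4 - x ^ 2 * t ^ 2) / (t : ℝ) ^ 2 := by
      field_simp
    have h3 : 0 ≤ ((t : ℝ) ^ 4 + x ^ 4 - x ^ 2 * t ^ 2) / (t : ℝ) ^ 2 := by
      refine div_nonneg ?_ (sq_nonneg _)
      nlinarith [sq_nonneg ((t : ℝ) ^ 2 - x ^ 2), sq_nonneg ((t : ℝ) ^ 2), sq_nonneg (x ^ 2)]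
    linarith
  have i2 : Integrable (fun η : Env d => max (-Real.log (Vp ρ β η (2 * t) z)) 0 ^ 2) (law d ρ) := by
    refine ((integrable_const ((t : ℝ) ^ 2)).add (i4.div_const ((t : ℝ) ^ 2))).mono'
      (hm.pow_const 2).aestronglyMeasurable (Filter.Eventually.of_forall fun η => ?_)
    rw [Real.norm_eq_abs, abs_of_nonneg (sq_nonneg _)]
    exact alg2 _
  have m2 : ∫ η : Env d, max (-Real.log (Vp ρ β η (2 * t) z)) 0 ^ 2 ∂(law d ρ) ≤ (1 + C1) * (t : ℝ) ^ 2 := by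
    have h1 : ∫ η : Env d, max (-Real.log (Vp ρ β η (2 * t) z)) 0 ^ 2 ∂(law d ρ) ≤
        ∫ η : Env d, ((t : ℝ) ^ 2 + Real.log (Vp ρ β η (2 * t) z) ^ 4 / (t : ℝ) ^ 2) ∂(law d ρ) :=
      integral_mono i2 ((integrable_const _).add (i4.div_const _)) fun η => alg2 _
    rw [integral_add (integrable_const _) (i4.div_const _), integral_div, integral_const] at h1
    have h2 : (∫ η : Env d, Real.log (Vp ρ β η (2 * t) z) ^ 4 ∂(law d ρ)) / (t : ℝ) ^ 2 ≤ C1 * (t : ℝ) ^ 2 := by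
      rw [div_le_iff₀ (by positivity)]
      calc _ ≤ C1 * (t : ℝ) ^ 4 := m4
        _ = C1 * (t : ℝ) ^ 2 * (t : ℝ) ^ 2 := by ring
    simp only [probReal_univ, one_smul, smul_eq_mul, one_mul] at h1
    linarith
  have alg1 : ∀ x : ℝ, 0 ≤ x → x ≤ t + x ^ 2 / t := by
    intro x hx
    have h2 : (t : ℝ) + x ^ 2 / t - x = ((t : ℝ) ^ 2 + x ^ 2 - x * t) / t := by
      field_simp
    have h3 : 0 ≤ ((t : ℝ) ^ 2 + x ^ 2 - x * t) / t := by
      refine div_nonneg ?_ ht0.le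
      nlinarith [sq_nonneg ((t : ℝ) - x), sq_nonneg (t : ℝ), sq_nonneg x]
    linarith
  have i1 : Integrable (fun η : Env d => max (-Real.log (Vp ρ β η (2 * t) z)) 0) (law d ρ) := by
    refine ((integrable_const (t : ℝ)).add (i2.div_const (t : ℝ))).mono' hm.aestronglyMeasurable
      (Filter.Eventually.of_forall fun η => ?_)
    rw [Real.norm_eq_abs, abs_of_nonneg (le_max_right _ _)]
    exact alg1 _ (le_max_right _ _)
  obtain ⟨m, hmd⟩ : ∃ m : ℝ, m = ∫ η : Env d, max (-Real.log (Vp ρ β η (2 * t) z)) 0 ∂(law d ρ) := ⟨_, rfl⟩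
  have hm1 : m ≤ (2 + C1) * t := by
    rw [hmd]
    have h1 : ∫ η : Env d, max (-Real.log (Vp ρ β η (2 * t) z)) 0 ∂(law d ρ) ≤
        ∫ η : Env d, ((t : ℝ) + max (-Real.log (Vp ρ β η (2 * t) z)) 0 ^ 2 / t) ∂(law d ρ) :=
      integral_mono i1 ((integrable_const _).add (i2.div_const _)) fun η => alg1 _ (le_max_right _ _)
    rw [integral_add (integrable_const _) (i2.div_const _), integral_div, integral_const] at h1
    have h2 : (∫ η : Env d, max (-Real.log (Vp ρ β η (2 * t) z)) 0 ^ 2 ∂(law d ρ)) / (t : ℝ) ≤ (1 + C1) * t := by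
      rw [div_le_iff₀ ht0]
      calc _ ≤ (1 + C1) * (t : ℝ) ^ 2 := m2
        _ = (1 + C1) * (t : ℝ) * t := by ring
    simp only [probReal_univ, one_smul, smul_eq_mul, one_mul] at h1
    linarith
  have hm0 : 0 ≤ m := by
    rw [hmd]
    exact integral_nonneg fun η => le_max_right _ _
  have hMm : m ≤ (3 + C1 + s1) * D := by
    have h1 : (2 + C1) * (t : ℝ) ≤ (2 + C1) * D := mul_le_mul_of_nonneg_left htD (by linarith)
    have h2 : 0 ≤ (1 + s1) * D := mul_nonneg (by linarith) hD0.le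
    linarith
  refine ⟨fun η => max (-Real.log (Vp ρ β η (2 * t) z)) 0 + ((3 + C1 + s1) * D - m), fun _ => t, ∅, hm.add_const _,
    measurable_const, MeasurableSet.empty, ?_, fun _ _ _ => rfl, fun _ _ _ => Iff.rfl, ?_, ?_, ?_, ?_, ?_,
    integrable_const _, ?_, integrable_const _, ?_, by simp, ?_⟩
  · intro η η' h
    have h1 : Vp ρ β η (2 * t) z = Vp ρ β η' (2 * t) z := dep_V (toP (2 * t) z) fun p hp => h p hp.1
    show max (-Real.log (Vp ρ β η (2 * t) z)) 0 + _ = max (-Real.log (Vp ρ β η' (2 * t) z)) 0 + _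
    rw [h1]
  · intro η
    show 0 ≤ max (-Real.log (Vp ρ β η (2 * t) z)) 0 + ((3 + C1 + s1) * D - m)
    linarith [le_max_right (-Real.log (Vp ρ β η (2 * t) z)) 0]
  · exact i1.add (integrable_const _)
  · rw [integral_add i1 (integrable_const _), ← hmd, integral_const]
    simp
  · have e : ∀ η : Env d, (max (-Real.log (Vp ρ β η (2 * t) z)) 0 + ((3 + C1 + s1) * D - m) - (3 + C1 + s1) * D) ^ 2 =
        (max (-Real.log (Vp ρ β η (2 * t) z)) 0 ^ 2 + (-(2 * m)) * max (-Real.log (Vp ρ β η (2 * t) z)) 0) + m ^ 2 :=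
      fun η => by ring
    simp only [e]
    exact (i2.add (i1.const_mul _)).add (integrable_const _)
  · have e : ∀ η : Env d, (max (-Real.log (Vp ρ β η (2 * t) z)) 0 + ((3 + C1 + s1) * D - m) - (3 + C1 + s1) * D) ^ 2 =
        (max (-Real.log (Vp ρ β η (2 * t) z)) 0 ^ 2 + (-(2 * m)) * max (-Real.log (Vp ρ β η (2 * t) z)) 0) + m ^ 2 :=
      fun η => by ring
    simp only [e]
    have j1 : Integrable (fun η : Env d => -(2 * m) * max (-Real.log (Vp ρ β η (2 * t) z)) 0) (law d ρ) :=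
      i1.const_mul _
    have j2 : Integrable (fun η : Env d => max (-Real.log (Vp ρ β η (2 * t) z)) 0 ^ 2 +
        -(2 * m) * max (-Real.log (Vp ρ β η (2 * t) z)) 0) (law d ρ) := i2.add j1
    rw [integral_add j2 (integrable_const _), integral_add i2 j1, integral_const_mul, ← hmd, integral_const]
    simp only [probReal_univ, one_smul]
    have h1 : (1 + C1) * (t : ℝ) ^ 2 ≤ (3 + C1 + s1) * D ^ 2 := by
      have h2 : (t : ℝ) ^ 2 ≤ D ^ 2 := pow_le_pow_left₀ ht0.le htD 2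
      have h3 := mul_le_mul_of_nonneg_left h2 (show (0 : ℝ) ≤ 1 + C1 by linarith)
      have h4 : 0 ≤ (2 + s1) * D ^ 2 := mul_nonneg (by linarith) (sq_nonneg D)
      linarith
    nlinarith [m2, h1, sq_nonneg m]
  · rw [integral_const]
    simp only [probReal_univ, one_smul]
    have h1 := SS_mul (β := β) j0 hρ t 1
    rw [mul_one, ← hs1] at h1
    have h2 : (t : ℝ) * s1 ≤ D * s1 := mul_le_mul_of_nonneg_right htD hs0
    have h3 : 0 ≤ (3 + C1) * D := mul_nonneg (by linarith) hD0.le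
    linarith
  · rw [integral_const]
    simp only [probReal_univ, one_smul]
    exact htD
  · intro η _
    refine ⟨t, le_rfl, ?_⟩
    have hV : 0 < Vp ρ β η (2 * t) z := Vp_pos j0 η hadm
    have h1 := le_max_left (-Real.log (Vp ρ β η (2 * t) z)) 0
    show Real.exp (-(max (-Real.log (Vp ρ β η (2 * t) z)) 0 + ((3 + C1 + s1) * D - m))) ≤ Vp ρ β η (2 * t) z
    calc Real.exp (-(max (-Real.log (Vp ρ β η (2 * t) z)) 0 + ((3 + C1 + s1) * D - m)))
        ≤ Real.exp (Real.log (Vp ρ β η (2 * t) z)) := Real.exp_le_exp.2 (by linarith)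
      _ = Vp ρ β η (2 * t) z := Real.exp_log hV

end Pool.Agent.W_7d29a1_q
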