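import Pool.Agent.W_7d29a1_q.Bas

/-!
Row 601, section 3: regeneration. TASK MvB.
-/

namespace Pool.Agent.W_7d29a1_q

open MeasureTheory ProbabilityTheory Filter Topology Pool.Agent.W_MP_7d29a1_pr
  Pool.Agent.W_7d29a1_h46 Pool.Agent.W_7d29a1_h46u Pool.Agent.W_7d29a1_h3

variable {d : ℕ} {ρ : Measure ℝ} [IsProbabilityMeasure ρ] {β : ℝ}

/-- A function that is given piecewise. -/
private lemma MvB_part {I : ℕ} {F : ℕ → Set (Env d)}
    (hdis : ∀ i < I, ∀ j < I, i ≠ j → Disjoint (F i) (F j)) (v : ℕ → Env d → ℝ) {η : Env d} {i : ℕ}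
    (hi : i < I) (hη : η ∈ F i) :
    ∑ j ∈ Finset.range I, (F j).indicator (v j) η = v i η := by
  classical
  rw [Finset.sum_eq_single i]
  · exact Set.indicator_of_mem hη _
  · intro j hj hji
    exact Set.indicator_of_notMem
      (fun h => Set.disjoint_left.1 (hdis j (Finset.mem_range.1 hj) i hi hji) h hη) _
  · intro h
    exact absurd (Finset.mem_range.2 hi) h

/-- The part after the time `m i` is independent of the rows `≤ m i`. -/
private lemma MvB_one {F : Set (Env d)} {m : ℕ} {w : Site d} {v G : Env d → ℝ} (hFm : MeasurableSet F)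
    (hv : Measurable v) (hGm : Measurable G)
    (hF : ∀ η η' : Env d, (∀ p : ℕ × Site d, p.1 ≤ m → η p = η' p) → (η ∈ F ↔ η' ∈ F))
    (hvd : DependsOn v {p : ℕ × Site d | p.1 ≤ m})
    (hG : DependsOn G {p : ℕ × Site d | 1 ≤ p.1}) :
    ∫ η, F.indicator v η * G (sh m w η) ∂(law d ρ) =
      (∫ η, F.indicator v η ∂(law d ρ)) * ∫ η, G η ∂(law d ρ) := by
  have h1 := integral_indep (ρ := ρ) {p : ℕ × Site d | p.1 ≤ m} (F := F.indicator v)
    (G := fun η => G (sh m w η)) (hv.indicator hFm) (hGm.comp (measurable_sh m w)) ?_ ?_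
  · rw [h1, integral_sh m w hGm]
  · intro η η' h
    have h2 := hF η η' h
    by_cases h3 : η ∈ F
    · rw [Set.indicator_of_mem h3, Set.indicator_of_mem (h2.1 h3)]
      exact hvd h
    · rw [Set.indicator_of_notMem h3, Set.indicator_of_notMem fun h4 => h3 (h2.2 h4)]
  · intro η η' h
    refine hG fun p hp => ?_
    refine h _ ?_
    simp only [Set.mem_compl_iff, Set.mem_ofPred_eq, not_le]
    have h3 : 1 ≤ p.1 := hp
    omega

/-- The probabilities of the pieces add up. -/
private lemma MvB_tot {I : ℕ} {F : ℕ → Set (Env d)} (hFm : ∀ i < I, MeasurableSet (F i))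
    (hdis : ∀ i < I, ∀ j < I, i ≠ j → Disjoint (F i) (F j)) (hcov : ∀ η, ∃ i < I, η ∈ F i) :
    ∑ i ∈ Finset.range I, ∫ η, (F i).indicator (fun _ => (1 : ℝ)) η ∂(law d ρ) = 1 := by
  rw [← integral_finsetSum]
  · have h : ∀ η : Env d, ∑ i ∈ Finset.range I, (F i).indicator (fun _ => (1 : ℝ)) η = 1 := by
      intro η
      obtain ⟨i, hi, hη⟩ := hcov η
      exact MvB_part hdis (fun _ _ => (1 : ℝ)) hi hη
    simp only [h]
    simp
  · intro i hi
    exact (integrable_const (1 : ℝ)).indicator (hFm i (Finset.mem_range.1 hi))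

/-- The mean of a function of the environment after the time `m i`. -/
private lemma MvB_mix {I : ℕ} {F : ℕ → Set (Env d)} {G : Env d → ℝ} {m : ℕ → ℕ} {w : ℕ → Site d}
    (hFm : ∀ i < I, MeasurableSet (F i)) (hGm : Measurable G)
    (hF : ∀ i < I, ∀ η η' : Env d, (∀ p : ℕ × Site d, p.1 ≤ m i → η p = η' p) → (η ∈ F i ↔ η' ∈ F i))
    (hG : DependsOn G {p : ℕ × Site d | 1 ≤ p.1})
    (hdis : ∀ i < I, ∀ j < I, i ≠ j → Disjoint (F i) (F j)) (hcov : ∀ η, ∃ i < I, η ∈ F i)
    (hGi : Integrable G (law d ρ)) :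
    Integrable (fun η => ∑ i ∈ Finset.range I, (F i).indicator (fun η => G (sh (m i) (w i) η)) η)
      (law d ρ) ∧
    ∫ η, ∑ i ∈ Finset.range I, (F i).indicator (fun η => G (sh (m i) (w i) η)) η ∂(law d ρ) =
      ∫ η, G η ∂(law d ρ) := by
  have h1 : ∀ i ∈ Finset.range I, Integrable
      (fun η => (F i).indicator (fun η => G (sh (m i) (w i) η)) η) (law d ρ) := by
    intro i hi
    exact ((mp_sh (ρ := ρ) (m i) (w i)).integrable_comp_of_integrable hGi).indicator
      (hFm i (Finset.mem_range.1 hi))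
  refine ⟨integrable_finsetSum _ h1, ?_⟩
  rw [integral_finsetSum _ h1]
  have h2 : ∀ i ∈ Finset.range I,
      ∫ η, (F i).indicator (fun η => G (sh (m i) (w i) η)) η ∂(law d ρ) =
        (∫ η, (F i).indicator (fun _ => (1 : ℝ)) η ∂(law d ρ)) * ∫ η, G η ∂(law d ρ) := by
    intro i hi
    have hi' := Finset.mem_range.1 hi
    rw [← MvB_one (w := w i) (hFm i hi') measurable_const hGm (hF i hi') (fun _ _ _ => rfl) hG]
    refine integral_congr_ae (Filter.Eventually.of_forall fun η => ?_)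
    by_cases h : η ∈ F i
    · simp only [Set.indicator_of_mem h, one_mul]
    · simp only [Set.indicator_of_notMem h, zero_mul]
  rw [Finset.sum_congr rfl h2, ← Finset.sum_mul, MvB_tot hFm hdis hcov, one_mul]

/-- `F i` (`i < I`) is a partition into events of the rows `≤ m i`, `u i` is a function of these rows, `G` a function of the
rows `≥ 1`, seen from `(m i, w i)` after the time `m i`. -/
theorem regen (I : ℕ) (F : ℕ → Set (Env d)) (u : ℕ → Env d → ℝ) (G : Env d → ℝ) (m : ℕ → ℕ)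
    (w : ℕ → Site d) (hFm : ∀ i < I, MeasurableSet (F i)) (hum : ∀ i < I, Measurable (u i))
    (hGm : Measurable G)
    (hF : ∀ i < I, ∀ η η' : Env d, (∀ p : ℕ × Site d, p.1 ≤ m i → η p = η' p) → (η ∈ F i ↔ η' ∈ F i))
    (hu : ∀ i < I, DependsOn (u i) {p : ℕ × Site d | p.1 ≤ m i})
    (hG : DependsOn G {p : ℕ × Site d | 1 ≤ p.1})
    (hdis : ∀ i < I, ∀ j < I, i ≠ j → Disjoint (F i) (F j)) (hcov : ∀ η, ∃ i < I, η ∈ F i)
    (hU : Integrable (fun η => ∑ i ∈ Finset.range I, (F i).indicator (u i) η) (law d ρ))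
    (hGi : Integrable G (law d ρ)) :
    Integrable (fun η => ∑ i ∈ Finset.range I,
      (F i).indicator (fun η => u i η + G (sh (m i) (w i) η)) η) (law d ρ) ∧
    ∫ η, ∑ i ∈ Finset.range I, (F i).indicator (fun η => u i η + G (sh (m i) (w i) η)) η ∂(law d ρ) =
      ∫ η, ∑ i ∈ Finset.range I, (F i).indicator (u i) η ∂(law d ρ) + ∫ η, G η ∂(law d ρ) := by
  obtain ⟨h1, h2⟩ := MvB_mix (ρ := ρ) (w := w) hFm hGm hF hG hdis hcov hGi
  have h3 : (fun η => ∑ i ∈ Finset.range I,
      (F i).indicator (fun η => u i η + G (sh (m i) (w i) η)) η) = fun η =>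
      ∑ i ∈ Finset.range I, (F i).indicator (u i) η +
        ∑ i ∈ Finset.range I, (F i).indicator (fun η => G (sh (m i) (w i) η)) η := by
    funext η
    obtain ⟨i, hi, hη⟩ := hcov η
    rw [MvB_part hdis (fun i η => u i η + G (sh (m i) (w i) η)) hi hη, MvB_part hdis u hi hη,
      MvB_part hdis (fun i η => G (sh (m i) (w i) η)) hi hη]
  rw [h3]
  refine ⟨hU.add h1, ?_⟩
  rw [integral_add hU h1, h2]

/-- Mean square deviations add up. -/
theorem regen_sq (I : ℕ) (F : ℕ → Set (Env d)) (u : ℕ → Env d → ℝ) (G : Env d → ℝ) (m : ℕ → ℕ)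
    (w : ℕ → Site d) (hFm : ∀ i < I, MeasurableSet (F i)) (hum : ∀ i < I, Measurable (u i))
    (hGm : Measurable G)
    (hF : ∀ i < I, ∀ η η' : Env d, (∀ p : ℕ × Site d, p.1 ≤ m i → η p = η' p) → (η ∈ F i ↔ η' ∈ F i))
    (hu : ∀ i < I, DependsOn (u i) {p : ℕ × Site d | p.1 ≤ m i})
    (hG : DependsOn G {p : ℕ × Site d | 1 ≤ p.1})
    (hdis : ∀ i < I, ∀ j < I, i ≠ j → Disjoint (F i) (F j)) (hcov : ∀ η, ∃ i < I, η ∈ F i) {a b : ℝ}
    (hU : Integrable (fun η => ∑ i ∈ Finset.range I, (F i).indicator (u i) η) (law d ρ))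
    (hU2 : Integrable (fun η => (∑ i ∈ Finset.range I, (F i).indicator (u i) η - a) ^ 2) (law d ρ))
    (hUa : ∫ η, ∑ i ∈ Finset.range I, (F i).indicator (u i) η ∂(law d ρ) = a)
    (hGi : Integrable G (law d ρ)) (hG2 : Integrable (fun η => (G η - b) ^ 2) (law d ρ))
    (hGb : ∫ η, G η ∂(law d ρ) = b) :
    Integrable (fun η => (∑ i ∈ Finset.range I,
      (F i).indicator (fun η => u i η + G (sh (m i) (w i) η)) η - (a + b)) ^ 2) (law d ρ) ∧
    ∫ η, (∑ i ∈ Finset.range I, (F i).indicator (fun η => u i η + G (sh (m i) (w i) η)) η -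
        (a + b)) ^ 2 ∂(law d ρ) =
      ∫ η, (∑ i ∈ Finset.range I, (F i).indicator (u i) η - a) ^ 2 ∂(law d ρ) +
        ∫ η, (G η - b) ^ 2 ∂(law d ρ) := by
  have hGb' : DependsOn (fun η => G η - b) {p : ℕ × Site d | 1 ≤ p.1} := fun η η' h => by
    simp only [hG h]
  have hG2' : DependsOn (fun η => (G η - b) ^ 2) {p : ℕ × Site d | 1 ≤ p.1} := fun η η' h => by
    simp only [hG h]
  obtain ⟨h1, h2⟩ := MvB_mix (ρ := ρ) (w := w) hFm ((hGm.sub_const b).pow_const 2) hF hG2' hdis
    hcov hG2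
  set U : Env d → ℝ := fun η => ∑ i ∈ Finset.range I, (F i).indicator (u i) η - a with hUdef
  set V : Env d → ℝ := fun η => ∑ i ∈ Finset.range I,
    (F i).indicator (fun η => G (sh (m i) (w i) η) - b) η with hVdef
  have hUm : Measurable U := by
    refine Measurable.sub_const ?_ a
    exact Finset.measurable_fun_sum _ fun i hi =>
      (hum i (Finset.mem_range.1 hi)).indicator (hFm i (Finset.mem_range.1 hi))
  have hVm : Measurable V := by
    refine Finset.measurable_fun_sum _ fun i hi => ?_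
    exact ((hGm.comp (measurable_sh (m i) (w i))).sub_const b).indicator
      (hFm i (Finset.mem_range.1 hi))
  have hV2 : (fun η => ∑ i ∈ Finset.range I,
      (F i).indicator (fun η => (G (sh (m i) (w i) η) - b) ^ 2) η) = fun η => V η ^ 2 := by
    funext η
    obtain ⟨i, hi, hη⟩ := hcov η
    rw [MvB_part hdis (fun i η => (G (sh (m i) (w i) η) - b) ^ 2) hi hη]
    simp only [hVdef]
    rw [MvB_part hdis (fun i η => G (sh (m i) (w i) η) - b) hi hη]
  rw [hV2] at h1 h2
  have hUV : Integrable (fun η => U η * V η) (law d ρ) := by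
    refine (hU2.add h1).mono' (hUm.mul hVm).aestronglyMeasurable
      (Filter.Eventually.of_forall fun η => ?_)
    rw [Real.norm_eq_abs]
    simp only [Pi.add_apply]
    have h5 : (∑ i ∈ Finset.range I, (F i).indicator (u i) η - a) ^ 2 = U η ^ 2 := rfl
    rw [h5, abs_mul]
    nlinarith [sq_nonneg (|U η| - |V η|), sq_abs (U η), sq_abs (V η), abs_nonneg (U η),
      abs_nonneg (V η), mul_nonneg (abs_nonneg (U η)) (abs_nonneg (V η))]
  have hUV0 : ∫ η, U η * V η ∂(law d ρ) = 0 := by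
    have h5 : (fun η => U η * V η) = fun η => ∑ i ∈ Finset.range I,
        (F i).indicator (fun η => U η * V η) η := by
      funext η
      obtain ⟨i, hi, hη⟩ := hcov η
      rw [MvB_part hdis (fun _ η => U η * V η) hi hη]
    rw [h5, integral_finsetSum _ fun i hi => hUV.indicator (hFm i (Finset.mem_range.1 hi))]
    refine Finset.sum_eq_zero fun i hi => ?_
    have hi' := Finset.mem_range.1 hi
    have h6 : (fun η => (F i).indicator (fun η => U η * V η) η) = fun η =>
        (F i).indicator (fun η => u i η - a) η * (G (sh (m i) (w i) η) - b) := by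
      funext η
      by_cases h : η ∈ F i
      · simp only [Set.indicator_of_mem h, hUdef, hVdef]
        rw [MvB_part hdis u hi' h, MvB_part hdis (fun i η => G (sh (m i) (w i) η) - b) hi' h]
      · simp only [Set.indicator_of_notMem h, zero_mul]
    have h7 := MvB_one (ρ := ρ) (w := w i) (G := fun η => G η - b) (hFm i hi')
      ((hum i hi').sub_const a) (hGm.sub_const b) (hF i hi')
      (fun η η' h => by simp only [hu i hi' h]) hGb'
    rw [h6, h7, integral_sub hGi (integrable_const b), hGb]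
    simp
  have h3 : (fun η => (∑ i ∈ Finset.range I,
      (F i).indicator (fun η => u i η + G (sh (m i) (w i) η)) η - (a + b)) ^ 2) = fun η =>
      (U η ^ 2 + V η ^ 2) + 2 * (U η * V η) := by
    funext η
    obtain ⟨i, hi, hη⟩ := hcov η
    simp only [hUdef, hVdef]
    rw [MvB_part hdis (fun i η => u i η + G (sh (m i) (w i) η)) hi hη, MvB_part hdis u hi hη,
      MvB_part hdis (fun i η => G (sh (m i) (w i) η) - b) hi hη]
    ring
  have h4 : Integrable (fun η => U η ^ 2) (law d ρ) := hU2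
  have h8 : Integrable (fun η => U η ^ 2 + V η ^ 2) (law d ρ) := h4.add h1
  have h9 : Integrable (fun η => 2 * (U η * V η)) (law d ρ) := hUV.const_mul 2
  rw [h3]
  refine ⟨h8.add h9, ?_⟩
  rw [integral_add h8 h9, integral_add h4 h1, integral_const_mul, hUV0, h2]
  ring

end Pool.Agent.W_7d29a1_q
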