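import Pool.Agent.W_7d29a1_q.MvA
import Pool.Agent.W_7d29a1_q.MvB

/-!
Row 601, section 3: one leg. TASK MvC.
-/

namespace Pool.Agent.W_7d29a1_q

open MeasureTheory ProbabilityTheory Filter Topology Pool.Agent.W_MP_7d29a1_pr
  Pool.Agent.W_7d29a1_h46 Pool.Agent.W_7d29a1_h46u Pool.Agent.W_7d29a1_h3

variable {d : ℕ} {ρ : Measure ℝ} [IsProbabilityMeasure ρ] {β : ℝ}

/-- The wait in the window `i`. -/
private noncomputable def MvC_P (ρ : Measure ℝ) [IsProbabilityMeasure ρ] (β : ℝ) (t i : ℕ) (η : Env d) : ℝ :=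
  max (-Real.log (Vp ρ β (sh (2 * (i * t)) 0 η) (2 * t) 0)) 0

/-- No success in the windows `< i`. -/
private def MvC_N (ρ : Measure ℝ) [IsProbabilityMeasure ρ] (β : ℝ) (t : ℕ) (z : Site d) (x : ℝ) (i : ℕ) :
    Set (Env d) :=
  {η : Env d | ∀ j < i, ¬ Tle ρ β (sh (2 * (j * t)) 0 η) t z x}

/-- The first success is in the window `i`. -/
private def MvC_F (ρ : Measure ℝ) [IsProbabilityMeasure ρ] (β : ℝ) (t : ℕ) (z : Site d) (x : ℝ) (I i : ℕ) :
    Set (Env d) :=
  {η : Env d | η ∈ MvC_N ρ β t z x i ∧ (i < I → η ∉ MvC_N ρ β t z x (i + 1))}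

private lemma MvC_N_anti {t : ℕ} {z : Site d} {x : ℝ} {i j : ℕ} (h : i ≤ j) {η : Env d}
    (hη : η ∈ MvC_N ρ β t z x j) : η ∈ MvC_N ρ β t z x i :=
  fun k hk => hη k (hk.trans_le h)

private lemma MvC_N_meas (t : ℕ) (z : Site d) (x : ℝ) (i : ℕ) : MeasurableSet (MvC_N ρ β t z x i) := by
  have h : MvC_N ρ β t z x i = ⋂ j ∈ Finset.range i,
      {η : Env d | Tle ρ β (sh (2 * (j * t)) 0 η) t z x}ᶜ := by
    ext η
    simp only [MvC_N, Set.mem_setOf_eq, Set.mem_iInter, Finset.mem_range, Set.mem_compl_iff]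
  rw [h]
  refine Finset.measurableSet_biInter _ fun j _ => MeasurableSet.compl ?_
  exact (measurable_sh (2 * (j * t)) (0 : Site d)) (measurableSet_Tle t z x)

private lemma MvC_F_meas (t : ℕ) (z : Site d) (x : ℝ) (I i : ℕ) :
    MeasurableSet (MvC_F ρ β t z x I i) := by
  by_cases h : i < I
  · have h1 : MvC_F ρ β t z x I i = MvC_N ρ β t z x i ∩ (MvC_N ρ β t z x (i + 1))ᶜ := by
      ext η
      simp only [MvC_F, Set.mem_setOf_eq, Set.mem_inter_iff, Set.mem_compl_iff, h, forall_const]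
    rw [h1]
    exact (MvC_N_meas t z x i).inter (MvC_N_meas t z x (i + 1)).compl
  · have h1 : MvC_F ρ β t z x I i = MvC_N ρ β t z x i := by
      ext η
      simp only [MvC_F, Set.mem_setOf_eq, h, false_imp_iff, and_true]
    rw [h1]
    exact MvC_N_meas t z x i

private lemma MvC_N_dep {t : ℕ} {z : Site d} {x : ℝ} {i : ℕ} {η η' : Env d}
    (h : ∀ p : ℕ × Site d, 1 ≤ p.1 → p.1 ≤ 2 * (i * t) → η p = η' p) :
    η ∈ MvC_N ρ β t z x i ↔ η' ∈ MvC_N ρ β t z x i := by
  have h1 : ∀ j < i, (Tle ρ β (sh (2 * (j * t)) 0 η) t z x ↔ Tle ρ β (sh (2 * (j * t)) 0 η') t z x) := by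
    intro j hj
    refine dep_Tle fun p hp hp' => h p (by omega) (hp'.trans ?_)
    have h2 : (j + 1) * t ≤ i * t := Nat.mul_le_mul_right t hj
    have h3 : (j + 1) * t = j * t + t := by ring
    omega
  constructor
  · intro h2 j hj h3
    exact h2 j hj ((h1 j hj).2 h3)
  · intro h2 j hj h3
    exact h2 j hj ((h1 j hj).1 h3)

private lemma MvC_F_dep {t : ℕ} {z : Site d} {x : ℝ} {I i : ℕ} {η η' : Env d}
    (h : ∀ p : ℕ × Site d, 1 ≤ p.1 → p.1 ≤ 2 * ((i + 1) * t) → η p = η' p) :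
    η ∈ MvC_F ρ β t z x I i ↔ η' ∈ MvC_F ρ β t z x I i := by
  have h1 : η ∈ MvC_N ρ β t z x i ↔ η' ∈ MvC_N ρ β t z x i := by
    refine MvC_N_dep fun p hp hp' => h p hp (hp'.trans ?_)
    have h2 : i * t ≤ (i + 1) * t := Nat.mul_le_mul_right t (Nat.le_succ i)
    omega
  have h2 : η ∈ MvC_N ρ β t z x (i + 1) ↔ η' ∈ MvC_N ρ β t z x (i + 1) := MvC_N_dep h
  simp only [MvC_F, Set.mem_setOf_eq, h1, h2]

private lemma MvC_P_dep (t i : ℕ) : DependsOn (MvC_P (d := d) ρ β t i)
    {p : ℕ × Site d | 2 * (i * t) < p.1 ∧ p.1 ≤ 2 * (i * t) + 2 * t} := by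
  intro η η' h
  have h1 := dep_V_sh (ρ := ρ) (β := β) (2 * (i * t)) (0 : Site d) (toP (2 * t) (0 : Site d)) h
  have h2 : V ρ β (sh (2 * (i * t)) 0 η) (toP (2 * t) (0 : Site d)) =
      V ρ β (sh (2 * (i * t)) 0 η') (toP (2 * t) (0 : Site d)) := h1
  unfold MvC_P Vp
  rw [h2]

private lemma MvC_P_meas (t i : ℕ) : Measurable (MvC_P (d := d) ρ β t i) := by
  have h1 : Measurable fun η : Env d => max (-Real.log (Vp ρ β η (2 * t) 0)) 0 :=
    (Real.measurable_log.comp (measurable_V (toP (2 * t) (0 : Site d)))).neg.max measurable_const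
  exact h1.comp (measurable_sh (2 * (i * t)) (0 : Site d))

private lemma MvC_P_nonneg (t i : ℕ) (η : Env d) : 0 ≤ MvC_P ρ β t i η := le_max_right _ _

private lemma MvC_P_int (j0 : Fin d) (hρ : EM ρ) (t i : ℕ) :
    Integrable (MvC_P (d := d) ρ β t i) (law d ρ) ∧
      ∫ η, MvC_P (d := d) ρ β t i η ∂(law d ρ) ≤ SS d ρ β t := by
  obtain ⟨h1, h2⟩ := wait_mean (β := β) j0 hρ (le_refl t)
  have hm : Measurable fun η : Env d => max (-Real.log (Vp ρ β η (2 * t) 0)) 0 :=
    (Real.measurable_log.comp (measurable_V (toP (2 * t) (0 : Site d)))).neg.max measurable_const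
  refine ⟨(mp_sh (2 * (i * t)) (0 : Site d)).integrable_comp_of_integrable h1, ?_⟩
  refine le_of_eq_of_le ?_ h2
  exact integral_sh (2 * (i * t)) (0 : Site d) hm

private lemma MvC_P_sq (j0 : Fin d) (hρ : EM ρ) (t i : ℕ) :
    Integrable (fun η => MvC_P (d := d) ρ β t i η ^ 2) (law d ρ) ∧
      ∫ η, MvC_P (d := d) ρ β t i η ^ 2 ∂(law d ρ) ≤ SS d ρ β t ^ 2 := by
  obtain ⟨h1, h2⟩ := wait_sq (β := β) j0 hρ (le_refl t)
  have hm : Measurable fun η : Env d => max (-Real.log (Vp ρ β η (2 * t) 0)) 0 ^ 2 :=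
    ((Real.measurable_log.comp (measurable_V (toP (2 * t) (0 : Site d)))).neg.max
      measurable_const).pow_const 2
  refine ⟨(mp_sh (2 * (i * t)) (0 : Site d)).integrable_comp_of_integrable h1, ?_⟩
  refine le_of_eq_of_le ?_ h2
  exact integral_sh (2 * (i * t)) (0 : Site d) hm

/-- The waits and the failures before are independent. -/
private lemma MvC_indep {t : ℕ} {z : Site d} {x : ℝ} (i : ℕ) {G : Env d → ℝ} (hG : Measurable G)
    (hd : DependsOn G {p : ℕ × Site d | 2 * (i * t) < p.1 ∧ p.1 ≤ 2 * (i * t) + 2 * t}) :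
    ∫ η, (MvC_N ρ β t z x i).indicator (fun _ => (1 : ℝ)) η * G η ∂(law d ρ) =
      (law d ρ).real (MvC_N ρ β t z x i) * ∫ η, G η ∂(law d ρ) := by
  have h1 := integral_indep (ρ := ρ) {p : ℕ × Site d | p.1 ≤ 2 * (i * t)}
    (F := (MvC_N ρ β t z x i).indicator (fun _ => (1 : ℝ))) (G := G)
    (measurable_const.indicator (MvC_N_meas t z x i)) hG ?_ ?_
  · rw [h1]
    congr 1
    rw [integral_indicator_const _ (MvC_N_meas t z x i)]
    simp
  · intro η η' h
    have h2 : η ∈ MvC_N ρ β t z x i ↔ η' ∈ MvC_N ρ β t z x i :=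
      MvC_N_dep fun p _ hp' => h p hp'
    by_cases h3 : η ∈ MvC_N ρ β t z x i
    · rw [Set.indicator_of_mem h3, Set.indicator_of_mem (h2.1 h3)]
    · rw [Set.indicator_of_notMem h3, Set.indicator_of_notMem fun h4 => h3 (h2.2 h4)]
  · intro η η' h
    refine hd fun p hp => h p ?_
    simp only [Set.mem_compl_iff, Set.mem_setOf_eq, not_le]
    exact hp.1

private lemma MvC_N_prob {t : ℕ} {z : Site d} {x : ℝ} (h : Ch ρ β t z x) (i : ℕ) :
    (law d ρ).real (MvC_N ρ β t z x i) ≤ (1 / 2) ^ i := by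
  induction i with
  | zero =>
    rw [pow_zero]
    exact measureReal_le_one
  | succ i ih =>
    have hA : MeasurableSet {η : Env d | Tle ρ β (sh (2 * (i * t)) 0 η) t z x} :=
      (measurable_sh (2 * (i * t)) (0 : Site d)) (measurableSet_Tle t z x)
    obtain ⟨A, hAd⟩ : ∃ A : Set (Env d), A = {η : Env d | Tle ρ β (sh (2 * (i * t)) 0 η) t z x} := ⟨_, rfl⟩
    rw [← hAd] at hA
    have hAp : 1 / 2 ≤ (law d ρ).real A := by
      rw [hAd, real_Tle_sh]
      exact h.2
    have hdep : DependsOn (Aᶜ.indicator (fun _ => (1 : ℝ)))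
        {p : ℕ × Site d | 2 * (i * t) < p.1 ∧ p.1 ≤ 2 * (i * t) + 2 * t} := by
      intro η η' h2
      have h3 : η ∈ A ↔ η' ∈ A := by
        rw [hAd]
        exact dep_Tle fun p hp hp' => h2 p ⟨hp, hp'⟩
      by_cases h4 : η ∈ A
      · rw [Set.indicator_of_notMem (by simpa using h4), Set.indicator_of_notMem (by simpa using h3.1 h4)]
      · rw [Set.indicator_of_mem (by simpa using h4),
          Set.indicator_of_mem (by simpa using fun h5 => h4 (h3.2 h5))]
    have h5 := MvC_indep (ρ := ρ) (β := β) (z := z) (x := x) i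
      ((measurable_const (a := (1 : ℝ))).indicator hA.compl) hdep
    have h6 : ∫ η, Aᶜ.indicator (fun _ => (1 : ℝ)) η ∂(law d ρ) = 1 - (law d ρ).real A := by
      rw [integral_indicator_const _ hA.compl, probReal_compl_eq_one_sub hA]
      simp
    have h7 : (fun η => (MvC_N ρ β t z x i).indicator (fun _ => (1 : ℝ)) η * Aᶜ.indicator (fun _ => (1 : ℝ)) η) =
        (MvC_N ρ β t z x (i + 1)).indicator (fun _ => (1 : ℝ)) := by
      funext η
      have h8 : η ∈ MvC_N ρ β t z x (i + 1) ↔ η ∈ MvC_N ρ β t z x i ∧ η ∉ A := by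
        rw [hAd]
        constructor
        · intro h9
          exact ⟨MvC_N_anti (Nat.le_succ i) h9, h9 i (Nat.lt_succ_self i)⟩
        · rintro ⟨h9, h10⟩ j hj
          rcases Nat.lt_succ_iff_lt_or_eq.1 hj with h11 | h11
          · exact h9 j h11
          · rw [h11]
            exact h10
      by_cases h9 : η ∈ MvC_N ρ β t z x i
      · by_cases h10 : η ∈ A
        · rw [Set.indicator_of_notMem (s := Aᶜ) (by simpa using h10),
            Set.indicator_of_notMem (s := MvC_N ρ β t z x (i + 1)) (fun h11 => (h8.1 h11).2 h10), mul_zero]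
        · rw [Set.indicator_of_mem (s := Aᶜ) (by simpa using h10), Set.indicator_of_mem h9,
            Set.indicator_of_mem (s := MvC_N ρ β t z x (i + 1)) (h8.2 ⟨h9, h10⟩), mul_one]
      · rw [Set.indicator_of_notMem h9,
          Set.indicator_of_notMem (s := MvC_N ρ β t z x (i + 1)) (fun h11 => h9 (h8.1 h11).1), zero_mul]
    rw [h7, h6, integral_indicator_const _ (MvC_N_meas t z x (i + 1))] at h5
    simp only [smul_eq_mul, mul_one] at h5
    rw [h5, pow_succ]
    refine mul_le_mul ih (by linarith) ?_ (by positivity)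
    have := measureReal_le_one (μ := law d ρ) (s := A)
    linarith

private lemma MvC_dis {t : ℕ} {z : Site d} {x : ℝ} {I : ℕ} : ∀ i < I + 1, ∀ j < I + 1, i ≠ j →
    Disjoint (MvC_F ρ β t z x I i) (MvC_F ρ β t z x I j) := by
  have h : ∀ i j, i < j → j < I + 1 → Disjoint (MvC_F ρ β t z x I i) (MvC_F ρ β t z x I j) := by
    intro i j hij hj
    rw [Set.disjoint_left]
    intro η h1 h2
    exact h1.2 (by omega) (MvC_N_anti (Nat.succ_le_of_lt hij) h2.1)
  intro i hi j hj hij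
  rcases lt_or_gt_of_ne hij with h1 | h1
  · exact h i j h1 hj
  · exact (h j i h1 hi).symm

private lemma MvC_cov {t : ℕ} {z : Site d} {x : ℝ} {I : ℕ} (η : Env d) :
    ∃ i < I + 1, η ∈ MvC_F ρ β t z x I i := by
  classical
  by_cases h : η ∈ MvC_N ρ β t z x I
  · exact ⟨I, Nat.lt_succ_self I, h, fun h1 => absurd h1 (lt_irrefl I)⟩
  · have hex : ∃ k, η ∉ MvC_N ρ β t z x k := ⟨I, h⟩
    have h1 := Nat.find_spec hex
    have h2 : Nat.find hex ≤ I := Nat.find_min' hex h
    have h3 : Nat.find hex ≠ 0 := by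
      intro h4
      rw [h4] at h1
      exact h1 fun j hj => absurd hj (Nat.not_lt_zero j)
    obtain ⟨k, hk⟩ := Nat.exists_eq_succ_of_ne_zero h3
    refine ⟨k, by omega, ?_, fun _ => ?_⟩
    · by_contra h4
      have := Nat.find_min' hex h4
      omega
    · rw [hk] at h1
      exact h1

private lemma MvC_part {t : ℕ} {z : Site d} {x : ℝ} {I : ℕ} (v : ℕ → Env d → ℝ) {η : Env d} {i : ℕ}
    (hi : i < I + 1) (hη : η ∈ MvC_F ρ β t z x I i) :
    ∑ j ∈ Finset.range (I + 1), (MvC_F ρ β t z x I j).indicator (v j) η = v i η := by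
  classical
  rw [Finset.sum_eq_single i]
  · exact Set.indicator_of_mem hη _
  · intro j hj hji
    exact Set.indicator_of_notMem
      (fun h => Set.disjoint_left.1 (MvC_dis j (Finset.mem_range.1 hj) i hi hji) h hη) _
  · intro h
    exact absurd (Finset.mem_range.2 hi) h

private lemma MvC_natpart {t : ℕ} {z : Site d} {x : ℝ} {I : ℕ} (v : ℕ → Env d → ℕ) {η : Env d} {i : ℕ}
    (hi : i < I + 1) (hη : η ∈ MvC_F ρ β t z x I i) :
    ∑ j ∈ Finset.range (I + 1), (MvC_F ρ β t z x I j).indicator (v j) η = v i η := by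
  classical
  rw [Finset.sum_eq_single i]
  · exact Set.indicator_of_mem hη _
  · intro j hj hji
    exact Set.indicator_of_notMem
      (fun h => Set.disjoint_left.1 (MvC_dis j (Finset.mem_range.1 hj) i hi hji) h hη) _
  · intro h
    exact absurd (Finset.mem_range.2 hi) h

/-- The sum over the windows before the first success. -/
private lemma MvC_sum {t : ℕ} {z : Site d} {x : ℝ} {I : ℕ} (v : ℕ → Env d → ℝ) {η : Env d} {i : ℕ}
    (hi : i < I + 1) (hη : η ∈ MvC_F ρ β t z x I i) (hv : ∀ j, 0 ≤ v j η) :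
    ∑ j ∈ Finset.range i, v j η ≤
      ∑ j ∈ Finset.range I, (MvC_N ρ β t z x j).indicator (fun _ => (1 : ℝ)) η * v j η := by
  classical
  have h1 : ∑ j ∈ Finset.range i, v j η =
      ∑ j ∈ Finset.range i, (MvC_N ρ β t z x j).indicator (fun _ => (1 : ℝ)) η * v j η := by
    refine Finset.sum_congr rfl fun j hj => ?_
    rw [Set.indicator_of_mem (MvC_N_anti (Finset.mem_range.1 hj).le hη.1), one_mul]
  rw [h1]
  refine Finset.sum_le_sum_of_subset_of_nonneg (Finset.range_mono (by omega)) fun j _ _ => ?_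
  exact mul_nonneg (Set.indicator_nonneg (fun _ _ => zero_le_one) _) (hv j)

private lemma MvC_geom (r : ℝ) (h0 : 0 ≤ r) (h1 : r < 1) (n : ℕ) :
    ∑ j ∈ Finset.range n, r ^ j ≤ 1 / (1 - r) := by
  have h2 : 0 < 1 - r := by linarith
  rw [le_div_iff₀ h2]
  have h3 := geom_sum_mul r n
  have h4 : 0 ≤ r ^ n := pow_nonneg h0 n
  nlinarith

private lemma MvC_half (n : ℕ) {S : ℝ} (hS : 0 ≤ S) : ∑ j ∈ Finset.range n, (1 / 2 : ℝ) ^ j * S ≤ 2 * S := by
  rw [← Finset.sum_mul]
  have h := MvC_geom (1 / 2) (by norm_num) (by norm_num) n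
  norm_num at h
  refine mul_le_mul_of_nonneg_right ?_ hS
  norm_num
  exact h

/-- Weighted Cauchy-Schwarz. -/
private lemma MvC_cs (n : ℕ) (a : ℕ → ℝ) :
    (∑ j ∈ Finset.range n, a j) ^ 2 ≤ 3 * ∑ j ∈ Finset.range n, (3 / 2 : ℝ) ^ j * a j ^ 2 := by
  rcases Nat.eq_zero_or_pos n with hn | hn
  · rw [hn]
    simp
  have hne : (Finset.range n).Nonempty := Finset.nonempty_range_iff.2 (by omega)
  have h1 := Finset.sq_sum_div_le_sum_sq_div (Finset.range n) a (g := fun j => (2 / 3 : ℝ) ^ j)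
    fun j _ => by positivity
  have hpos : 0 < ∑ j ∈ Finset.range n, (2 / 3 : ℝ) ^ j := Finset.sum_pos (fun j _ => by positivity) hne
  rw [div_le_iff₀ hpos] at h1
  have h2 := MvC_geom (2 / 3) (by norm_num) (by norm_num) n
  have h3 : ∑ j ∈ Finset.range n, a j ^ 2 / (2 / 3 : ℝ) ^ j =
      ∑ j ∈ Finset.range n, (3 / 2 : ℝ) ^ j * a j ^ 2 := by
    refine Finset.sum_congr rfl fun j _ => ?_
    rw [div_eq_mul_inv, ← inv_pow, mul_comm]
    norm_num
  rw [h3] at h1
  have h4 : 0 ≤ ∑ j ∈ Finset.range n, (3 / 2 : ℝ) ^ j * a j ^ 2 :=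
    Finset.sum_nonneg fun j _ => by positivity
  have h5 : (1 : ℝ) / (1 - 2 / 3) = 3 := by norm_num
  rw [h5] at h2
  calc (∑ j ∈ Finset.range n, a j) ^ 2 ≤ _ := h1
    _ ≤ (∑ j ∈ Finset.range n, (3 / 2 : ℝ) ^ j * a j ^ 2) * 3 := mul_le_mul_of_nonneg_left h2 h4
    _ = _ := by ring

/-- The number of windows. -/
private lemma MvC_count {t : ℕ} {z : Site d} {x : ℝ} (h : Ch ρ β t z x) (I : ℕ) {w : ℝ} (hw : 0 ≤ w) :
    Integrable (fun η => ∑ i ∈ Finset.range (I + 1),
      (MvC_F ρ β t z x I i).indicator (fun _ => ((i : ℝ) + 1) * w) η) (law d ρ) ∧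
    ∫ η, ∑ i ∈ Finset.range (I + 1),
      (MvC_F ρ β t z x I i).indicator (fun _ => ((i : ℝ) + 1) * w) η ∂(law d ρ) ≤ 2 * w := by
  have hi : Integrable (fun η => ∑ i ∈ Finset.range (I + 1),
      (MvC_F ρ β t z x I i).indicator (fun _ => ((i : ℝ) + 1) * w) η) (law d ρ) :=
    integrable_finsetSum _ fun i _ => (integrable_const _).indicator (MvC_F_meas t z x I i)
  refine ⟨hi, ?_⟩
  have hj : Integrable (fun η : Env d => ∑ j ∈ Finset.range (I + 1),
      (MvC_N ρ β t z x j).indicator (fun _ => w) η) (law d ρ) :=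
    integrable_finsetSum _ fun i _ => (integrable_const _).indicator (MvC_N_meas t z x i)
  refine (integral_mono hi hj fun η => ?_).trans ?_
  · obtain ⟨i, hi, hη⟩ := MvC_cov (ρ := ρ) (β := β) (t := t) (z := z) (x := x) (I := I) η
    show ∑ i ∈ Finset.range (I + 1), (MvC_F ρ β t z x I i).indicator (fun _ => ((i : ℝ) + 1) * w) η ≤ _
    rw [MvC_part (fun i _ => ((i : ℝ) + 1) * w) hi hη]
    have h1 : ((i : ℝ) + 1) * w = ∑ j ∈ Finset.range (i + 1), (MvC_N ρ β t z x j).indicator (fun _ => w) η := by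
      have h2 : ∀ j ∈ Finset.range (i + 1), (MvC_N ρ β t z x j).indicator (fun _ => w) η = w := by
        intro j hj
        exact Set.indicator_of_mem (MvC_N_anti (Nat.lt_succ_iff.1 (Finset.mem_range.1 hj)) hη.1) _
      rw [Finset.sum_congr rfl h2, Finset.sum_const, Finset.card_range, nsmul_eq_mul]
      push_cast
      ring
    rw [h1]
    refine Finset.sum_le_sum_of_subset_of_nonneg (Finset.range_mono (by omega)) fun j _ _ => ?_
    exact Set.indicator_nonneg (fun _ _ => hw) _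
  · rw [integral_finsetSum _ fun i _ => (integrable_const _).indicator (MvC_N_meas t z x i)]
    refine (Finset.sum_le_sum fun j _ => ?_).trans (MvC_half (I + 1) hw)
    rw [integral_indicator_const _ (MvC_N_meas t z x j), smul_eq_mul]
    exact mul_le_mul_of_nonneg_right (MvC_N_prob h j) hw

/-- The cost of the waits. -/
private lemma MvC_cost (j0 : Fin d) (hρ : EM ρ) {t : ℕ} {z : Site d} {x : ℝ} (h : Ch ρ β t z x) (I : ℕ) :
    ∃ a : ℝ, 0 ≤ a ∧ a ≤ x + 2 * SS d ρ β t ∧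
    Integrable (fun η => ∑ i ∈ Finset.range (I + 1),
      (MvC_F ρ β t z x I i).indicator (fun η => x + ∑ j ∈ Finset.range i, MvC_P ρ β t j η) η) (law d ρ) ∧
    ∫ η, ∑ i ∈ Finset.range (I + 1),
      (MvC_F ρ β t z x I i).indicator (fun η => x + ∑ j ∈ Finset.range i, MvC_P ρ β t j η) η ∂(law d ρ) = a ∧
    Integrable (fun η => (∑ i ∈ Finset.range (I + 1),
      (MvC_F ρ β t z x I i).indicator (fun η => x + ∑ j ∈ Finset.range i, MvC_P ρ β t j η) η - a) ^ 2)
      (law d ρ) ∧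
    ∫ η, (∑ i ∈ Finset.range (I + 1),
      (MvC_F ρ β t z x I i).indicator (fun η => x + ∑ j ∈ Finset.range i, MvC_P ρ β t j η) η - a) ^ 2
        ∂(law d ρ) ≤ 16 * SS d ρ β t ^ 2 := by
  have hx := h.1
  have hS : 0 ≤ SS d ρ β t := SS_nonneg t
  obtain ⟨A, hA⟩ : ∃ A : Env d → ℝ, A = fun η => ∑ i ∈ Finset.range (I + 1),
      (MvC_F ρ β t z x I i).indicator (fun η => x + ∑ j ∈ Finset.range i, MvC_P ρ β t j η) η := ⟨_, rfl⟩
  obtain ⟨W, hW⟩ : ∃ W : Env d → ℝ, W = fun η => ∑ j ∈ Finset.range I,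
      (MvC_N ρ β t z x j).indicator (fun _ => (1 : ℝ)) η * MvC_P ρ β t j η := ⟨_, rfl⟩
  obtain ⟨W2, hW2⟩ : ∃ W2 : Env d → ℝ, W2 = fun η => ∑ j ∈ Finset.range I, (3 / 2 : ℝ) ^ j *
      ((MvC_N ρ β t z x j).indicator (fun _ => (1 : ℝ)) η * MvC_P ρ β t j η ^ 2) := ⟨_, rfl⟩
  have hAm : Measurable A := by
    rw [hA]
    refine Finset.measurable_fun_sum _ fun i _ => Measurable.indicator ?_ (MvC_F_meas t z x I i)
    exact measurable_const.add (Finset.measurable_fun_sum _ fun j _ => MvC_P_meas t j)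
  have hA1 : ∀ η, 0 ≤ A η - x ∧ A η - x ≤ W η := by
    intro η
    obtain ⟨i, hi, hη⟩ := MvC_cov (ρ := ρ) (β := β) (t := t) (z := z) (x := x) (I := I) η
    have h1 : A η = x + ∑ j ∈ Finset.range i, MvC_P ρ β t j η := by
      rw [hA]
      exact MvC_part (fun i η => x + ∑ j ∈ Finset.range i, MvC_P ρ β t j η) hi hη
    rw [h1]
    constructor
    · have := Finset.sum_nonneg (s := Finset.range i) fun j _ => MvC_P_nonneg (ρ := ρ) (β := β) t j η
      linarith
    · have h2 := MvC_sum (fun j => MvC_P ρ β t j) hi hη fun j => MvC_P_nonneg (ρ := ρ) (β := β) t j η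
      rw [hW]
      linarith
  have hi1 : ∀ j ∈ Finset.range I, Integrable
      (fun η => (MvC_N ρ β t z x j).indicator (fun _ => (1 : ℝ)) η * MvC_P ρ β t j η) (law d ρ) := by
    intro j _
    refine (MvC_P_int (β := β) j0 hρ t j).1.mono'
      ((measurable_const.indicator (MvC_N_meas t z x j)).mul (MvC_P_meas t j)).aestronglyMeasurable
      (Filter.Eventually.of_forall fun η => ?_)
    rw [Real.norm_eq_abs]
    by_cases h1 : η ∈ MvC_N ρ β t z x j
    · rw [Set.indicator_of_mem h1, one_mul, abs_of_nonneg (MvC_P_nonneg t j η)]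
    · rw [Set.indicator_of_notMem h1, zero_mul, abs_zero]
      exact MvC_P_nonneg t j η
  have hi2 : ∀ j ∈ Finset.range I, Integrable (fun η => (3 / 2 : ℝ) ^ j *
      ((MvC_N ρ β t z x j).indicator (fun _ => (1 : ℝ)) η * MvC_P ρ β t j η ^ 2)) (law d ρ) := by
    intro j _
    refine Integrable.const_mul ?_ _
    refine (MvC_P_sq (β := β) j0 hρ t j).1.mono'
      ((measurable_const.indicator (MvC_N_meas t z x j)).mul
        ((MvC_P_meas t j).pow_const 2)).aestronglyMeasurable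
      (Filter.Eventually.of_forall fun η => ?_)
    rw [Real.norm_eq_abs]
    by_cases h1 : η ∈ MvC_N ρ β t z x j
    · rw [Set.indicator_of_mem h1, one_mul, abs_of_nonneg (sq_nonneg _)]
    · rw [Set.indicator_of_notMem h1, zero_mul, abs_zero]
      exact sq_nonneg _
  have hWi : Integrable W (law d ρ) := by
    rw [hW]
    exact integrable_finsetSum _ hi1
  have hW2i : Integrable W2 (law d ρ) := by
    rw [hW2]
    exact integrable_finsetSum _ hi2
  have hWI : ∫ η, W η ∂(law d ρ) ≤ 2 * SS d ρ β t := by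
    rw [hW, integral_finsetSum _ hi1]
    refine (Finset.sum_le_sum fun j _ => ?_).trans (MvC_half I hS)
    rw [MvC_indep j (MvC_P_meas t j) (MvC_P_dep t j)]
    refine mul_le_mul (MvC_N_prob h j) (MvC_P_int j0 hρ t j).2
      (integral_nonneg fun η => MvC_P_nonneg t j η) (by positivity)
  have hW2I : ∫ η, W2 η ∂(law d ρ) ≤ 4 * SS d ρ β t ^ 2 := by
    rw [hW2, integral_finsetSum _ hi2]
    have h3 : ∀ j ∈ Finset.range I, ∫ η, (3 / 2 : ℝ) ^ j *
        ((MvC_N ρ β t z x j).indicator (fun _ => (1 : ℝ)) η * MvC_P ρ β t j η ^ 2) ∂(law d ρ) ≤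
          (3 / 4 : ℝ) ^ j * SS d ρ β t ^ 2 := by
      intro j _
      rw [integral_const_mul, MvC_indep j ((MvC_P_meas t j).pow_const 2) ?_]
      · have h4 : (law d ρ).real (MvC_N ρ β t z x j) * ∫ η : Env d, MvC_P ρ β t j η ^ 2 ∂(law d ρ) ≤
            (1 / 2) ^ j * SS d ρ β t ^ 2 :=
          mul_le_mul (MvC_N_prob h j) (MvC_P_sq j0 hρ t j).2
            (integral_nonneg fun η => sq_nonneg _) (by positivity)
        calc _ ≤ (3 / 2 : ℝ) ^ j * ((1 / 2) ^ j * SS d ρ β t ^ 2) :=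
              mul_le_mul_of_nonneg_left h4 (by positivity)
          _ = (3 / 4 : ℝ) ^ j * SS d ρ β t ^ 2 := by
              rw [← mul_assoc, ← mul_pow]
              norm_num
      · intro η η' h4
        show MvC_P ρ β t j η ^ 2 = MvC_P ρ β t j η' ^ 2
        rw [MvC_P_dep t j h4]
    refine (Finset.sum_le_sum h3).trans ?_
    rw [← Finset.sum_mul]
    have h4 := MvC_geom (3 / 4) (by norm_num) (by norm_num) I
    have h5 : (1 : ℝ) / (1 - 3 / 4) = 4 := by norm_num
    rw [h5] at h4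
    exact mul_le_mul_of_nonneg_right h4 (sq_nonneg _)
  have hWsq : ∀ η, W η ^ 2 ≤ 3 * W2 η := by
    intro η
    have h1 := MvC_cs I fun j => (MvC_N ρ β t z x j).indicator (fun _ => (1 : ℝ)) η * MvC_P ρ β t j η
    rw [hW, hW2]
    refine h1.trans (le_of_eq ?_)
    congr 1
    refine Finset.sum_congr rfl fun j _ => ?_
    by_cases h2 : η ∈ MvC_N ρ β t z x j
    · rw [Set.indicator_of_mem h2, one_mul, one_mul]
    · rw [Set.indicator_of_notMem h2]
      simp
  have hW0 : ∀ η, 0 ≤ W η := fun η => (hA1 η).1.trans (hA1 η).2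
  have hAi : Integrable A (law d ρ) := by
    refine ((integrable_const x).add hWi).mono' hAm.aestronglyMeasurable
      (Filter.Eventually.of_forall fun η => ?_)
    rw [Real.norm_eq_abs, abs_of_nonneg (by linarith [(hA1 η).1])]
    show A η ≤ x + W η
    linarith [(hA1 η).2]
  obtain ⟨a, ha⟩ : ∃ a : ℝ, a = ∫ η, A η ∂(law d ρ) := ⟨_, rfl⟩
  have hax : x ≤ a := by
    rw [ha]
    have h1 : ∫ _ : Env d, x ∂(law d ρ) ≤ ∫ η, A η ∂(law d ρ) :=
      integral_mono (integrable_const x) hAi fun η => by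
        show x ≤ A η
        linarith [(hA1 η).1]
    simpa using h1
  have hasq : Integrable (fun η => (A η - x) ^ 2) (law d ρ) := by
    refine (hW2i.const_mul 3).mono' ((hAm.sub_const x).pow_const 2).aestronglyMeasurable
      (Filter.Eventually.of_forall fun η => ?_)
    rw [Real.norm_eq_abs, abs_of_nonneg (sq_nonneg _)]
    have h1 := hA1 η
    calc (A η - x) ^ 2 ≤ W η ^ 2 := by
          have := hW0 η
          nlinarith
      _ ≤ 3 * W2 η := hWsq η
  have hAsq : ∀ η, (A η - a) ^ 2 = (A η - x) ^ 2 + (2 * (x - a)) * A η + (a ^ 2 - x ^ 2) := by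
    intro η
    ring
  refine ⟨a, hx.trans hax, ?_, ?_, ?_, ?_, ?_⟩
  · rw [ha]
    have h1 : ∫ η, A η ∂(law d ρ) ≤ ∫ η, (x + W η) ∂(law d ρ) :=
      integral_mono hAi ((integrable_const x).add hWi) fun η => by
        show A η ≤ x + W η
        linarith [(hA1 η).2]
    rw [integral_add (integrable_const x) hWi] at h1
    simp only [integral_const, probReal_univ, one_smul] at h1
    linarith
  · rw [hA] at hAi
    exact hAi
  · rw [ha, hA]
  · have h1 : Integrable (fun η => (A η - a) ^ 2) (law d ρ) := by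
      simp only [hAsq]
      exact (hasq.add (hAi.const_mul _)).add (integrable_const _)
    rw [hA] at h1
    exact h1
  · have h1 : ∫ η, (A η - a) ^ 2 ∂(law d ρ) ≤ 16 * SS d ρ β t ^ 2 := by
      have h5 : Integrable (fun η => (A η - x) ^ 2 + (2 * (x - a)) * A η) (law d ρ) :=
        hasq.add (hAi.const_mul _)
      simp only [hAsq]
      rw [integral_add h5 (integrable_const _),
        integral_add hasq (hAi.const_mul _), integral_const_mul, ← ha]
      simp only [integral_const, probReal_univ, one_smul]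
      have h2 : ∫ η, (A η - x) ^ 2 ∂(law d ρ) ≤ ∫ η, 3 * W2 η ∂(law d ρ) := by
        refine integral_mono hasq (hW2i.const_mul 3) fun η => ?_
        have h1 := hA1 η
        show (A η - x) ^ 2 ≤ 3 * W2 η
        calc (A η - x) ^ 2 ≤ W η ^ 2 := by
              have := hW0 η
              nlinarith
          _ ≤ 3 * W2 η := hWsq η
      rw [integral_const_mul] at h2
      nlinarith [sq_nonneg (a - x), sq_nonneg (SS d ρ β t)]
    rw [hA] at h1
    exact h1

/-- The way to the end of window `i`. -/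
private lemma MvC_way (j0 : Fin d) (η : Env d) (t : ℕ) (i : ℕ) :
    Tle ρ β η (i * t) 0 (∑ j ∈ Finset.range i, MvC_P ρ β t j η) := by
  induction i with
  | zero =>
    rw [Nat.zero_mul, Finset.range_zero, Finset.sum_empty]
    exact Tle_zero η le_rfl
  | succ i ih =>
    have h1 : Tle ρ β (sh (2 * (i * t)) 0 η) t 0 (MvC_P ρ β t i η) := by
      have hp : 0 < Vp ρ β (sh (2 * (i * t)) 0 η) (2 * t) 0 := Vp_pos j0 _ (adm_zero t)
      unfold Tle
      rw [← Real.exp_log hp, Real.exp_le_exp]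
      have h2 : -Real.log (Vp ρ β (sh (2 * (i * t)) 0 η) (2 * t) 0) ≤ MvC_P ρ β t i η := le_max_left _ _
      linarith
    have h2 := Tle_add ih h1
    rw [add_zero] at h2
    rw [Finset.sum_range_succ, Nat.succ_mul]
    exact h2

/-- LEG. `κ = x + 2 S(t)`. Windows `i < I` of half time `t` (`2^(-I) ≤ e`): window `i` starts at `(2 i t, 0)`, success means
`Tle (sh (2 i t) 0 η) t z x` (probability `≥ 1/2`); `F i` = first success in window `i` (`i < I`), `F I` = no success.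
On `F i`: the position after window `i` is `z`, cost `x + ∑_{j < i} T_j+`, where `T_j+ = max (-log Vp (sh (2 j t) 0 η) (2 t) 0) 0`,
then the given strategy for `z'` in the environment `sh (2 (i+1) t) z η`; add the constant which makes the mean equal to
`κ`. `E[T_j+; the windows 0..j-1 fail] ≤ 2^(-j) S(t)`, in `L2` `≤ 2^(-j/2) S(t)`; the sums are `≤ 2 S(t)` resp. `≤ 4 S(t)`
(`16 S² ≤ 4 κ²`). `S((i+1) t) ≤ (i+1) S(t)`, `E (i+1) ≤ 2`. `regen` three times, `regen_sq`. -/
theorem leg (j0 : Fin d) (hρ : EM ρ) {t : ℕ} {z : Site d} {x : ℝ} (ht : 1 ≤ t) (h : Ch ρ β t z x)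
    {z' : Site d} {M V s θ ε : ℝ} (hM : Mv d ρ β z' M V s θ ε) {e : ℝ} (he : 0 < e) :
    Mv d ρ β (z + z') (M + (x + 2 * SS d ρ β t)) (V + 4 * (x + 2 * SS d ρ β t) ^ 2)
      (s + (x + 2 * SS d ρ β t)) (θ + 2 * t) (ε + e) := by
  obtain ⟨C, τ, B, hC, hτ, hB, dC, dτ, dB, hC0, iC, mC, iV, mV, iS, mS, iτ, mτ, hε, hT⟩ := hM
  have hS : 0 ≤ SS d ρ β t := SS_nonneg t
  have hx := h.1
  obtain ⟨I, hI⟩ := exists_pow_lt_of_lt_one he (by norm_num : (1 / 2 : ℝ) < 1)
  obtain ⟨a, ha0, haκ, iA, mA, iA2, mA2⟩ := MvC_cost j0 hρ h I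
  obtain ⟨m, hm⟩ : ∃ m : ℕ → ℕ, m = fun i => 2 * ((i + 1) * t) := ⟨_, rfl⟩
  have hmi : ∀ i, m i = 2 * ((i + 1) * t) := fun i => by rw [hm]
  have hmi' : ∀ i, 2 * (i * t) ≤ m i := by
    intro i
    rw [hmi]
    have : i * t ≤ (i + 1) * t := Nat.mul_le_mul_right t (Nat.le_succ i)
    omega
  have hFd : ∀ i < I + 1, ∀ η η' : Env d, (∀ p : ℕ × Site d, p.1 ≤ m i → η p = η' p) →
      (η ∈ MvC_F ρ β t z x I i ↔ η' ∈ MvC_F ρ β t z x I i) := by
    intro i _ η η' h1
    refine MvC_F_dep fun p _ hp => h1 p ?_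
    rw [hmi]
    exact hp
  have hFd1 : ∀ i, ∀ η η' : Env d, (∀ p : ℕ × Site d, 1 ≤ p.1 → η p = η' p) →
      (η ∈ MvC_F ρ β t z x I i ↔ η' ∈ MvC_F ρ β t z x I i) := by
    intro i η η' h1
    exact MvC_F_dep fun p hp _ => h1 p hp
  have hshd : ∀ (i : ℕ) (η η' : Env d), (∀ p : ℕ × Site d, 1 ≤ p.1 → η p = η' p) →
      ∀ p : ℕ × Site d, 1 ≤ p.1 → sh (m i) z η p = sh (m i) z η' p := by
    intro i η η' h1 p hp
    show η (p.1 + m i, p.2 + z) = η' (p.1 + m i, p.2 + z)
    exact h1 _ (by simp only; omega)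
  have hPd1 : ∀ (i : ℕ) (η η' : Env d), (∀ p : ℕ × Site d, 1 ≤ p.1 → η p = η' p) →
      MvC_P ρ β t i η = MvC_P ρ β t i η' := by
    intro i η η' h1
    exact MvC_P_dep t i fun p hp => h1 p (by have := hp.1; omega)
  have hFm : ∀ i < I + 1, MeasurableSet (MvC_F ρ β t z x I i) := fun i _ => MvC_F_meas t z x I i
  have hdis := MvC_dis (ρ := ρ) (β := β) (t := t) (z := z) (x := x) (I := I)
  have hcov := MvC_cov (ρ := ρ) (β := β) (t := t) (z := z) (x := x) (I := I)
  -- the cost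
  obtain ⟨u, hu⟩ : ∃ u : ℕ → Env d → ℝ, u = fun i η => x + ∑ j ∈ Finset.range i, MvC_P ρ β t j η := ⟨_, rfl⟩
  have hui : ∀ i η, u i η = x + ∑ j ∈ Finset.range i, MvC_P ρ β t j η := fun i η => by rw [hu]
  have hum : ∀ i < I + 1, Measurable (u i) := by
    intro i _
    rw [hu]
    exact measurable_const.add (Finset.measurable_fun_sum _ fun j _ => MvC_P_meas t j)
  have hud : ∀ i < I + 1, DependsOn (u i) {p : ℕ × Site d | p.1 ≤ m i} := by
    intro i _ η η' h1
    rw [hui, hui]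
    congr 1
    refine Finset.sum_congr rfl fun j hj => ?_
    refine MvC_P_dep t j fun p hp => h1 p ?_
    have h2 : (j + 1) * t ≤ i * t := Nat.mul_le_mul_right t (Finset.mem_range.1 hj)
    have h3 : (j + 1) * t = j * t + t := by ring
    have h4 := hp.2
    have h5 := hmi' i
    show p.1 ≤ m i
    omega
  have iA' : Integrable (fun η => ∑ i ∈ Finset.range (I + 1), (MvC_F ρ β t z x I i).indicator (u i) η)
      (law d ρ) := by
    rw [hu]
    exact iA
  have mA' : ∫ η, ∑ i ∈ Finset.range (I + 1), (MvC_F ρ β t z x I i).indicator (u i) η ∂(law d ρ) = a := by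
    rw [hu]
    exact mA
  have iA2' : Integrable (fun η => (∑ i ∈ Finset.range (I + 1),
      (MvC_F ρ β t z x I i).indicator (u i) η - a) ^ 2) (law d ρ) := by
    rw [hu]
    exact iA2
  have mA2' : ∫ η, (∑ i ∈ Finset.range (I + 1),
      (MvC_F ρ β t z x I i).indicator (u i) η - a) ^ 2 ∂(law d ρ) ≤ 16 * SS d ρ β t ^ 2 := by
    rw [hu]
    exact mA2
  obtain ⟨r1, r2⟩ := regen (ρ := ρ) (I + 1) (MvC_F ρ β t z x I) u C m (fun _ => z) hFm hum hC hFd hud dC
    hdis hcov iA' iC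
  obtain ⟨q1, q2⟩ := regen_sq (ρ := ρ) (I + 1) (MvC_F ρ β t z x I) u C m (fun _ => z) hFm hum hC hFd hud dC
    hdis hcov iA' iA2' mA' iC iV mC
  rw [mA', mC] at r2
  obtain ⟨D, hD⟩ : ∃ D : Env d → ℝ, D = fun η => ∑ i ∈ Finset.range (I + 1),
      (MvC_F ρ β t z x I i).indicator (fun η => u i η + C (sh (m i) z η)) η := ⟨_, rfl⟩
  have hDm : Measurable D := by
    rw [hD]
    refine Finset.measurable_fun_sum _ fun i hi => Measurable.indicator ?_ (MvC_F_meas t z x I i)
    exact (hum i (Finset.mem_range.1 hi)).add (hC.comp (measurable_sh (m i) z))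
  have hDF : ∀ (i : ℕ) (η : Env d), i < I + 1 → η ∈ MvC_F ρ β t z x I i →
      D η = u i η + C (sh (m i) z η) := by
    intro i η hi hη
    rw [hD]
    exact MvC_part (fun i η => u i η + C (sh (m i) z η)) hi hη
  have iD : Integrable D (law d ρ) := by rw [hD]; exact r1
  have mD : ∫ η, D η ∂(law d ρ) = a + M := by rw [hD]; exact r2
  have iD2 : Integrable (fun η => (D η - (a + M)) ^ 2) (law d ρ) := by rw [hD]; exact q1
  have mD2 : ∫ η, (D η - (a + M)) ^ 2 ∂(law d ρ) ≤ 16 * SS d ρ β t ^ 2 + V := by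
    rw [hD, q2]
    exact add_le_add mA2' mV
  -- the time
  obtain ⟨T, hTd⟩ : ∃ T : Env d → ℕ, T = fun η => ∑ i ∈ Finset.range (I + 1),
      (MvC_F ρ β t z x I i).indicator (fun η => (i + 1) * t + τ (sh (m i) z η)) η := ⟨_, rfl⟩
  have hTm : Measurable T := by
    rw [hTd]
    refine Finset.measurable_fun_sum _ fun i hi => Measurable.indicator ?_ (MvC_F_meas t z x I i)
    exact measurable_const.add (hτ.comp (measurable_sh (m i) z))
  have hTF : ∀ (i : ℕ) (η : Env d), i < I + 1 → η ∈ MvC_F ρ β t z x I i →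
      T η = (i + 1) * t + τ (sh (m i) z η) := by
    intro i η hi hη
    rw [hTd]
    exact MvC_natpart (fun i η => (i + 1) * t + τ (sh (m i) z η)) hi hη
  have hSm : Measurable fun n : ℕ => SS d ρ β n := measurable_from_nat
  -- mean of S
  obtain ⟨c1, c2⟩ := MvC_count h I hS
  obtain ⟨s1, s2⟩ := regen (ρ := ρ) (I + 1) (MvC_F ρ β t z x I)
    (fun i _ => ((i : ℝ) + 1) * SS d ρ β t) (fun η => SS d ρ β (τ η)) m (fun _ => z) hFm
    (fun i _ => measurable_const) (hSm.comp hτ) hFd (fun i _ _ _ _ => rfl)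
    (fun η η' h1 => by show SS d ρ β (τ η) = SS d ρ β (τ η'); rw [dτ h1]) hdis hcov c1 iS
  obtain ⟨E, hE⟩ : ∃ E : Env d → ℝ, E = fun η => ∑ i ∈ Finset.range (I + 1),
      (MvC_F ρ β t z x I i).indicator (fun η => ((i : ℝ) + 1) * SS d ρ β t + SS d ρ β (τ (sh (m i) z η))) η :=
    ⟨_, rfl⟩
  have hEF : ∀ η, SS d ρ β (T η) ≤ E η := by
    intro η
    obtain ⟨i, hi, hη⟩ := hcov η
    have hE2 : E η = ((i : ℝ) + 1) * SS d ρ β t + SS d ρ β (τ (sh (m i) z η)) := by
      rw [hE]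
      exact MvC_part (fun i η => ((i : ℝ) + 1) * SS d ρ β t + SS d ρ β (τ (sh (m i) z η))) hi hη
    rw [hTF i η hi hη, hE2]
    have h1 := SS_add (β := β) j0 hρ ((i + 1) * t) (τ (sh (m i) z η))
    have h2 := SS_mul (β := β) j0 hρ (i + 1) t
    push_cast at h2
    linarith
  have iE : Integrable E (law d ρ) := by rw [hE]; exact s1
  have iST : Integrable (fun η => SS d ρ β (T η)) (law d ρ) := by
    refine iE.mono' (hSm.comp hTm).aestronglyMeasurable (Filter.Eventually.of_forall fun η => ?_)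
    rw [Real.norm_eq_abs, abs_of_nonneg (SS_nonneg _)]
    exact hEF η
  have mST : ∫ η, SS d ρ β (T η) ∂(law d ρ) ≤ 2 * SS d ρ β t + s := by
    refine (integral_mono iST iE hEF).trans ?_
    rw [hE, s2]
    exact add_le_add c2 mS
  -- mean of the time
  obtain ⟨c3, c4⟩ := MvC_count h I (Nat.cast_nonneg (α := ℝ) t)
  obtain ⟨t1, t2⟩ := regen (ρ := ρ) (I + 1) (MvC_F ρ β t z x I)
    (fun i _ => ((i : ℝ) + 1) * (t : ℝ)) (fun η => (τ η : ℝ)) m (fun _ => z) hFm
    (fun i _ => measurable_const) (measurable_from_nat.comp hτ) hFd (fun i _ _ _ _ => rfl)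
    (fun η η' h1 => by show (τ η : ℝ) = (τ η' : ℝ); rw [dτ h1]) hdis hcov c3 iτ
  have hTR : ∀ η, (T η : ℝ) = ∑ i ∈ Finset.range (I + 1),
      (MvC_F ρ β t z x I i).indicator (fun η => ((i : ℝ) + 1) * (t : ℝ) + (τ (sh (m i) z η) : ℝ)) η := by
    intro η
    obtain ⟨i, hi, hη⟩ := hcov η
    rw [hTF i η hi hη, MvC_part (fun i η => ((i : ℝ) + 1) * (t : ℝ) + (τ (sh (m i) z η) : ℝ)) hi hη]
    push_cast
    ring
  have iT : Integrable (fun η => (T η : ℝ)) (law d ρ) := by
    simp only [hTR]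
    exact t1
  have mT : ∫ η, (T η : ℝ) ∂(law d ρ) ≤ 2 * t + θ := by
    simp only [hTR]
    rw [t2]
    exact add_le_add c4 mτ
  -- the bad event
  have hε0 : 0 ≤ ε := measureReal_nonneg.trans hε
  obtain ⟨B2, hB2⟩ : ∃ B2 : Set (Env d), B2 = {η : Env d | ∃ i ∈ Finset.range I,
      η ∈ MvC_F ρ β t z x I i ∧ η ∈ {η : Env d | sh (m i) z η ∈ B}} := ⟨_, rfl⟩
  have hB2m : MeasurableSet B2 := by
    have h1 : B2 = ⋃ i ∈ Finset.range I, (MvC_F ρ β t z x I i ∩ {η : Env d | sh (m i) z η ∈ B}) := by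
      rw [hB2]
      ext η
      simp only [Set.mem_setOf_eq, Set.mem_iUnion, Set.mem_inter_iff, exists_prop]
    rw [h1]
    refine Finset.measurableSet_biUnion _ fun i _ => (MvC_F_meas t z x I i).inter ?_
    exact (measurable_sh (m i) z) hB
  have hB2p : (law d ρ).real B2 ≤ ε := by
    have h1 := sm_le (ρ := ρ) (Finset.range I) (MvC_F ρ β t z x I) (fun i => {η : Env d | sh (m i) z η ∈ B})
      (fun i => {p : ℕ × Site d | p.1 ≤ m i}) (fun i _ => MvC_F_meas t z x I i)
      (fun i _ => (measurable_sh (m i) z) hB)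
      (fun i hi η η' h1 => hFd i (by have := Finset.mem_range.1 hi; omega) η η' fun p hp => h1 p hp)
      (fun i _ η η' h1 => dB _ _ fun p hp => by
        show η (p.1 + m i, p.2 + z) = η' (p.1 + m i, p.2 + z)
        refine h1 _ ?_
        simp only [Set.mem_setOf_eq, not_le]
        omega)
      (fun i hi j hj hij => hdis i (by have := Finset.mem_range.1 hi; omega) j
        (by have := Finset.mem_range.1 hj; omega) hij)
      (q := ε) (fun i _ => by rw [real_sh (m i) z hB]; exact hε)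
    rw [hB2]
    refine h1.trans ?_
    have h2 := measureReal_le_one (μ := law d ρ) (s := {η | ∃ i ∈ Finset.range I, η ∈ MvC_F ρ β t z x I i})
    nlinarith
  refine ⟨fun η => D η + (x + 2 * SS d ρ β t - a), T, MvC_N ρ β t z x I ∪ B2, hDm.add_const _, hTm,
    (MvC_N_meas t z x I).union hB2m, ?_, ?_, ?_, ?_, iD.add (integrable_const _), ?_, ?_, ?_, iST, ?_, iT, ?_, ?_, ?_⟩
  · intro η η' h1
    obtain ⟨i, hi, hη⟩ := hcov η
    show D η + (x + 2 * SS d ρ β t - a) = D η' + (x + 2 * SS d ρ β t - a)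
    rw [hDF i η hi hη, hDF i η' hi ((hFd1 i η η' h1).1 hη), hui, hui, dC (hshd i η η' h1),
      Finset.sum_congr rfl fun j _ => hPd1 j η η' h1]
  · intro η η' h1
    obtain ⟨i, hi, hη⟩ := hcov η
    rw [hTF i η hi hη, hTF i η' hi ((hFd1 i η η' h1).1 hη), dτ (hshd i η η' h1)]
  · intro η η' h1
    have h2 : η ∈ MvC_N ρ β t z x I ↔ η' ∈ MvC_N ρ β t z x I := MvC_N_dep fun p hp _ => h1 p hp
    have h3 : η ∈ B2 ↔ η' ∈ B2 := by
      rw [hB2]
      constructor
      · rintro ⟨i, hi, h4, h5⟩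
        exact ⟨i, hi, (hFd1 i η η' h1).1 h4, (dB _ _ (hshd i η η' h1)).1 h5⟩
      · rintro ⟨i, hi, h4, h5⟩
        exact ⟨i, hi, (hFd1 i η η' h1).2 h4, (dB _ _ (hshd i η η' h1)).2 h5⟩
    rw [Set.mem_union, Set.mem_union, h2, h3]
  · intro η
    obtain ⟨i, hi, hη⟩ := hcov η
    show 0 ≤ D η + (x + 2 * SS d ρ β t - a)
    rw [hDF i η hi hη, hui]
    have h1 := Finset.sum_nonneg (s := Finset.range i) fun j _ => MvC_P_nonneg (ρ := ρ) (β := β) t j η
    have h2 := hC0 (sh (m i) z η)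
    linarith
  · rw [integral_add iD (integrable_const _), mD, integral_const]
    simp
    ring
  · have e1 : ∀ η, (D η + (x + 2 * SS d ρ β t - a) - (M + (x + 2 * SS d ρ β t))) ^ 2 =
        (D η - (a + M)) ^ 2 := fun η => by ring
    simp only [e1]
    exact iD2
  · have e1 : ∀ η, (D η + (x + 2 * SS d ρ β t - a) - (M + (x + 2 * SS d ρ β t))) ^ 2 =
        (D η - (a + M)) ^ 2 := fun η => by ring
    simp only [e1]
    refine mD2.trans ?_
    nlinarith [mul_nonneg hx hS, sq_nonneg x]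
  · linarith
  · linarith
  · refine (measureReal_union_le _ _).trans ?_
    have h1 := MvC_N_prob h I
    linarith
  · intro η hη
    rw [Set.mem_union, not_or] at hη
    obtain ⟨hN, hB2η⟩ := hη
    obtain ⟨i, hi, hF⟩ := hcov η
    have hiI : i < I := by
      rcases Nat.lt_succ_iff_lt_or_eq.1 hi with h1 | h1
      · exact h1
      · exact absurd (by rw [← h1]; exact hF.1) hN
    have hBi : sh (m i) z η ∉ B := by
      intro h1
      refine hB2η ?_
      rw [hB2]
      exact ⟨i, Finset.mem_range.2 hiI, hF, h1⟩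
    have hsucc : Tle ρ β (sh (2 * (i * t)) 0 η) t z x := by
      by_contra h1
      refine hF.2 hiI ?_
      intro j hj
      rcases Nat.lt_succ_iff_lt_or_eq.1 hj with h2 | h2
      · exact hF.1 j h2
      · rw [h2]
        exact h1
    obtain ⟨l, hl, hTl⟩ := hT _ hBi
    refine ⟨(i + 1) * t + l, ?_, ?_⟩
    · rw [hTF i η hi hF]
      omega
    · have h1 := Tle_add (MvC_way (ρ := ρ) (β := β) j0 η t i) hsucc
      rw [zero_add] at h1
      have h2 : i * t + t = (i + 1) * t := by ring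
      rw [h2] at h1
      have h3 : Tle ρ β (sh (2 * ((i + 1) * t)) z η) l z' (C (sh (m i) z η)) := by
        rw [← hmi i]
        exact hTl
      refine Tle_mono (Tle_add h1 h3) ?_
      show _ ≤ D η + (x + 2 * SS d ρ β t - a)
      rw [hDF i η hi hF, hui]
      linarith

end Pool.Agent.W_7d29a1_q
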