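import Pool.Agent.W_7d29a1_q.MvC

/-!
Row 601, section 3: double legs. TASK MvD.
-/

namespace Pool.Agent.W_7d29a1_q

open MeasureTheory ProbabilityTheory Filter Topology Pool.Agent.W_MP_7d29a1_pr
  Pool.Agent.W_7d29a1_h46 Pool.Agent.W_7d29a1_h46u Pool.Agent.W_7d29a1_h3

variable {d : ℕ} {ρ : Measure ℝ} [IsProbabilityMeasure ρ] {β : ℝ}

/-- `Ch` is invariant under signed permutations (`real_Tle_act`). -/
theorem Ch_act (τ : Equiv.Perm (Fin d)) (e : Fin d → Bool) {t : ℕ} {z : Site d} {x : ℝ}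
    (h : Ch ρ β t z x) : Ch ρ β t (sAct τ e z) x := by
  refine ⟨h.1, ?_⟩
  rw [real_Tle_act]
  exact h.2

/-- Some signed permutation of `z` has `j`-th coordinate `σ |z|`, and reflecting the other coordinates of it gives
`2 σ |z| e_j - z'`. -/
theorem exists_act (z : Site d) (j : Fin d) {σ : ℤ} (hσ : σ = 1 ∨ σ = -1) :
    ∃ (τ τ' : Equiv.Perm (Fin d)) (e e' : Fin d → Bool),
      sAct τ e z + sAct τ' e' z = (2 * σ * (sn z : ℤ)) • es j := by
  obtain ⟨i, -, hi⟩ := Finset.exists_mem_eq_sup (Finset.univ : Finset (Fin d)) ⟨j, Finset.mem_univ j⟩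
    (fun j => (z j).natAbs)
  have hi' : ((sn z : ℕ) : ℤ) = |z i| := by
    unfold sn
    rw [hi]
    simp
  obtain ⟨b, hb⟩ : ∃ b : Bool, (if b then (1 : ℤ) else -1) * z i = σ * |z i| := by
    rcases le_total 0 (z i) with h | h
    · rw [abs_of_nonneg h]
      rcases hσ with rfl | rfl
      · exact ⟨true, by simp⟩
      · exact ⟨false, by simp⟩
    · rw [abs_of_nonpos h]
      rcases hσ with rfl | rfl
      · exact ⟨false, by simp⟩
      · exact ⟨true, by simp⟩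
  refine ⟨Equiv.swap i j, Equiv.swap i j, fun k => if k = j then b else true,
    fun k => if k = j then b else false, ?_⟩
  funext k
  by_cases hk : k = j
  · subst hk
    simp only [Pi.add_apply, sAct, Pi.smul_apply, es, Pi.single_eq_same, smul_eq_mul, if_true,
      Equiv.swap_apply_right, hb, hi']
    ring
  · simp [Pi.add_apply, sAct, Pi.smul_apply, es, hk]

/-- DOUBLE LEG: the displacement `2 σ |z| e_j` for `2 κ`. -/
theorem dleg (j0 : Fin d) (hρ : EM ρ) {t : ℕ} {z : Site d} {x : ℝ} (ht : 1 ≤ t) (h : Ch ρ β t z x)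
    (j : Fin d) {σ : ℤ} (hσ : σ = 1 ∨ σ = -1) {z' : Site d} {M V s θ ε : ℝ}
    (hM : Mv d ρ β z' M V s θ ε) {e : ℝ} (he : 0 < e) :
    Mv d ρ β ((2 * σ * (sn z : ℤ)) • es j + z') (M + 2 * (x + 2 * SS d ρ β t))
      (V + 8 * (x + 2 * SS d ρ β t) ^ 2) (s + 2 * (x + 2 * SS d ρ β t)) (θ + 4 * t) (ε + e) := by
  obtain ⟨τ, τ', b, b', hz⟩ := exists_act z j hσ
  have h1 := leg j0 hρ ht (Ch_act τ' b' h) hM (half_pos he)
  have h2 := leg j0 hρ ht (Ch_act τ b h) h1 (half_pos he)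
  rw [← add_assoc, hz] at h2
  refine Mv_mono h2 (le_of_eq ?_) (le_of_eq ?_) (le_of_eq ?_) (le_of_eq ?_) (le_of_eq ?_) <;> ring

/-- `k` double legs. -/
theorem dlegs (j0 : Fin d) (hρ : EM ρ) {t : ℕ} {z : Site d} {x : ℝ} (ht : 1 ≤ t) (h : Ch ρ β t z x)
    (j : Fin d) {σ : ℤ} (hσ : σ = 1 ∨ σ = -1) {z' : Site d} {M V s θ ε : ℝ}
    (hM : Mv d ρ β z' M V s θ ε) {e : ℝ} (he : 0 < e) (k : ℕ) :
    Mv d ρ β ((k * (2 * σ * (sn z : ℤ))) • es j + z') (M + k * (2 * (x + 2 * SS d ρ β t)))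
      (V + k * (8 * (x + 2 * SS d ρ β t) ^ 2)) (s + k * (2 * (x + 2 * SS d ρ β t)))
      (θ + k * (4 * t)) (ε + e) := by
  induction k generalizing e with
  | zero =>
    have h0 : ((((0 : ℕ) : ℤ) * (2 * σ * (sn z : ℤ))) • es j + z' : Site d) = z' := by simp
    rw [h0]
    refine Mv_mono hM (le_of_eq ?_) (le_of_eq ?_) (le_of_eq ?_) (le_of_eq ?_) (le_add_of_nonneg_right he.le) <;>
      simp
  | succ k ih =>
    have h1 := dleg j0 hρ ht h j hσ (ih (half_pos he)) (half_pos he)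
    have h0 : ((((k + 1 : ℕ) : ℤ) * (2 * σ * (sn z : ℤ))) • es j + z' : Site d) =
        (2 * σ * (sn z : ℤ)) • es j + (((k : ℤ) * (2 * σ * (sn z : ℤ))) • es j + z') := by
      rw [← add_assoc, ← add_smul]
      congr 2
      push_cast
      ring
    rw [h0]
    refine Mv_mono h1 (le_of_eq ?_) (le_of_eq ?_) (le_of_eq ?_) (le_of_eq ?_) (le_of_eq ?_) <;>
      push_cast <;> ring

end Pool.Agent.W_7d29a1_q
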