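import Pool.Agent.W_7d29a1_q.MvD

/-!
Row 601, section 3: greedy moves along one axis. TASK MvE.
-/

namespace Pool.Agent.W_7d29a1_q

open MeasureTheory ProbabilityTheory Filter Topology Pool.Agent.W_MP_7d29a1_pr
  Pool.Agent.W_7d29a1_h46 Pool.Agent.W_7d29a1_h46u Pool.Agent.W_7d29a1_h3

variable {d : ℕ} {ρ : Measure ℝ} [IsProbabilityMeasure ρ] {β : ℝ}

/-- One level: `⌊ζ/ℓ⌋` double legs of the optimum at the budget `b`, `ℓ = 2 |z_b| ≤ 2 b / π(b)`: `Sc.att`. Every unit of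
distance costs `π(b)`; `8 κ² ≤ 4 b (2 κ)`; `4 t ≤ 2 ψ(b) (2 κ)` as `t ≤ n(S(t))`, `ψ(S(t)) ≤ 2 ψ(b)`. -/
theorem level (j0 : Fin d) (hρ : EM ρ) {c a0 : ℝ} {N : ℕ} (S : Sc d ρ β c a0 N) (hN : 1 ≤ N) {b : ℝ}
    (hb0 : a0 ≤ b) (hb : b ≤ am d N) (j : Fin d) {σ : ℤ} (hσ : σ = 1 ∨ σ = -1) (ζ : ℕ) :
    ∃ ζ' ≤ ζ, Even ζ' ∧ ((ζ : ℝ) - ζ') * pr d ρ β b ≤ 2 * b ∧
      ∀ (z' : Site d) (M V s θ ε e : ℝ), 0 < e → Mv d ρ β z' M V s θ ε →
        Mv d ρ β ((σ * (ζ' : ℤ)) • es j + z') (M + pr d ρ β b * ζ')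
          (V + 4 * b * (pr d ρ β b * ζ')) (s + pr d ρ β b * ζ')
          (θ + 2 * ps d ρ β b * (pr d ρ β b * ζ')) (ε + e) := by
  obtain ⟨t, z, x, ht, hz, he, hc, hx, hr⟩ := S.att b hb0 hb
  have hS1 : 1 ≤ SS d ρ β t := one_le_SS ht
  have hx0 : 0 ≤ x := hc.1
  have hpr : 0 < pr d ρ β b := pr_pos S hN hb0 hb
  obtain ⟨κ, hκ⟩ : ∃ κ : ℝ, κ = x + 2 * SS d ρ β t := ⟨_, rfl⟩
  have hκ0 : 0 < κ := by rw [hκ]; linarith
  have hsn : 0 < sn z := by
    rcases Nat.eq_zero_or_pos (sn z) with h | h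
    · rw [h] at hr
      simp only [Nat.cast_zero, mul_zero] at hr
      linarith
    · exact h
  rw [← hκ] at hr hx
  have hsnR : (1 : ℝ) ≤ sn z := by exact_mod_cast hsn
  obtain ⟨k, hk⟩ : ∃ k : ℕ, k = ζ / (2 * sn z) := ⟨_, rfl⟩
  have hk1 : k * (2 * sn z) ≤ ζ := by
    rw [hk]
    exact Nat.div_mul_le_self ζ (2 * sn z)
  have hk2 : ζ < k * (2 * sn z) + 2 * sn z := by
    have h := Nat.lt_div_mul_add (a := ζ) (b := 2 * sn z) (by omega)
    rwa [← hk] at h
  have hk0 : (0 : ℝ) ≤ k := Nat.cast_nonneg k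
  have hπ : pr d ρ β b * ((k * (2 * sn z) : ℕ) : ℝ) = k * (2 * κ) := by
    rw [hr]
    push_cast
    ring
  refine ⟨k * (2 * sn z), hk1, ⟨k * sn z, by ring⟩, ?_, ?_⟩
  · have h1 : (ζ : ℝ) - ((k * (2 * sn z) : ℕ) : ℝ) ≤ 2 * sn z := by
      have h2 : (ζ : ℝ) ≤ ((k * (2 * sn z) : ℕ) : ℝ) + 2 * sn z := by exact_mod_cast hk2.le
      linarith
    have h3 := mul_le_mul_of_nonneg_right h1 hpr.le
    have h4 : 2 * (sn z : ℝ) * pr d ρ β b = 2 * κ := by
      rw [hr]
      ring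
    linarith
  · intro z' M V s θ ε e he0 hM
    have h := dlegs j0 hρ ht hc j hσ hM he0 k
    rw [← hκ] at h
    have hdis : ((k * (2 * σ * (sn z : ℤ))) • es j + z' : Site d) =
        (σ * ((k * (2 * sn z) : ℕ) : ℤ)) • es j + z' := by
      congr 2
      push_cast
      ring
    rw [hdis] at h
    have hκb : κ * κ ≤ b * κ := mul_le_mul_of_nonneg_right hx hκ0.le
    have hSt : SS d ρ β t ≤ b := by
      have : SS d ρ β t ≤ κ := by rw [hκ]; linarith
      linarith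
    have hps := ps_le j0 hρ S (by linarith : (0 : ℝ) < SS d ρ β t) hSt hb
    have hnn : (t : ℝ) ≤ nn d ρ β (SS d ρ β t) := by
      exact_mod_cast (le_nn S (hSt.trans hb) (n := t)).2 (Or.inr le_rfl)
    have hpsS : ps d ρ β (SS d ρ β t) * SS d ρ β t = nn d ρ β (SS d ρ β t) := by
      unfold ps
      exact div_mul_cancel₀ _ (by linarith)
    have hps0 : 0 ≤ ps d ρ β b := by
      unfold ps
      have hb1 : 0 ≤ b := by linarith
      exact div_nonneg (Nat.cast_nonneg _) hb1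
    have ht2 : (t : ℝ) ≤ ps d ρ β b * κ := by
      have h1 : (t : ℝ) ≤ 2 * ps d ρ β b * SS d ρ β t := by
        calc (t : ℝ) ≤ nn d ρ β (SS d ρ β t) := hnn
          _ = ps d ρ β (SS d ρ β t) * SS d ρ β t := hpsS.symm
          _ ≤ 2 * ps d ρ β b * SS d ρ β t := mul_le_mul_of_nonneg_right hps (by linarith)
      have h2 : 2 * SS d ρ β t ≤ κ := by rw [hκ]; linarith
      have h3 := mul_le_mul_of_nonneg_left h2 hps0
      linarith
    refine Mv_mono h ?_ ?_ ?_ ?_ le_rfl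
    · rw [hπ]
    · rw [hπ]
      have h1 := mul_le_mul_of_nonneg_left hκb hk0
      nlinarith [h1]
    · rw [hπ]
    · rw [hπ]
      have h1 := mul_le_mul_of_nonneg_left ht2 hk0
      nlinarith [h1]

/-- GREEDY. Induction on `k` with `b < 2 ^ k * a0` (levels `b, b/2, b/4, ...`); the step: `level` at `b`, then the
statement at `b / 2` for the remainder `ζ1`, `π(b/2) ζ1 ≤ π(b/2) 2 b / π(b) ≤ 4 (2a/b)^(1/4) b`, and
`4 * 2^(1/4) + 12 * 2^(-3/4) ≤ 12`; at every level `2 ψ(b) ≤ 4 ψ(bt)` (`bt` stays fixed). Start: for `b < 2 a0` only `level`,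
the remainder is `≤ 2 b / π(b) ≤ 4 a0 N^(2c)`. -/
theorem greedy (j0 : Fin d) (hρ : EM ρ) {c a0 : ℝ} {N : ℕ} (S : Sc d ρ β c a0 N) (hN : 1 ≤ N)
    {a b bt : ℝ} (ha : a ≤ am d N) (hr : Rg d ρ β a0 (1 / 4) a) (hb0 : a0 ≤ b) (hb : b ≤ a)
    (hbt : b ≤ bt) (hbt' : bt ≤ am d N) (j : Fin d) {σ : ℤ} (hσ : σ = 1 ∨ σ = -1) (ζ : ℕ) :
    ∃ ζ' ≤ ζ, Even ζ' ∧ (ζ : ℝ) - ζ' ≤ 4 * a0 * (N : ℝ) ^ (2 * c) ∧
      ∀ (z' : Site d) (M V s θ ε e : ℝ), 0 < e → Mv d ρ β z' M V s θ ε →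
        Mv d ρ β ((σ * (ζ' : ℤ)) • es j + z')
          (M + (pr d ρ β b * ζ + 12 * a * (b / a) ^ (3 / 4 : ℝ)))
          (V + 4 * b * (pr d ρ β b * ζ + 12 * a * (b / a) ^ (3 / 4 : ℝ)))
          (s + (pr d ρ β b * ζ + 12 * a * (b / a) ^ (3 / 4 : ℝ)))
          (θ + 4 * ps d ρ β bt * (pr d ρ β b * ζ + 12 * a * (b / a) ^ (3 / 4 : ℝ))) (ε + e) := by
  have ha0 : 1 ≤ a0 := S.one
  have hapos : 0 < a := by linarith
  have hbtpos : 0 < bt := by linarith
  have hpsbt : 0 ≤ ps d ρ β bt := by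
    unfold ps
    exact div_nonneg (Nat.cast_nonneg _) hbtpos.le
  -- the constants
  obtain ⟨q, hq⟩ : ∃ q : ℝ, q = (2 : ℝ) ^ (1 / 4 : ℝ) := ⟨_, rfl⟩
  have hq0 : 0 < q := by rw [hq]; positivity
  have hq12 : q ≤ 1.2 := by
    have h4 : q ^ 4 = 2 := by
      rw [hq, ← Real.rpow_natCast, ← Real.rpow_mul (by norm_num)]
      norm_num
    by_contra hcon
    push Not at hcon
    have h5 : (1.2 : ℝ) ^ 4 < q ^ 4 := pow_lt_pow_left₀ hcon (by norm_num) (by norm_num)
    rw [h4] at h5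
    norm_num at h5
  have hhalf : ((1 : ℝ) / 2) ^ (3 / 4 : ℝ) = q / 2 := by
    have h1 : ((1 : ℝ) / 2) = (2 : ℝ) ^ (-1 : ℝ) := by
      rw [Real.rpow_neg_one]
      norm_num
    rw [h1, ← Real.rpow_mul (by norm_num), hq]
    have h2 : (-1 : ℝ) * (3 / 4) = 1 / 4 - 1 := by norm_num
    rw [h2, Real.rpow_sub (by norm_num), Real.rpow_one]
  have key : ∀ k : ℕ, ∀ b : ℝ, a0 ≤ b → b ≤ a → b ≤ bt → b < 2 ^ k * a0 → ∀ ζ : ℕ,
      ∃ ζ' ≤ ζ, Even ζ' ∧ (ζ : ℝ) - ζ' ≤ 4 * a0 * (N : ℝ) ^ (2 * c) ∧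
      ∀ (z' : Site d) (M V s θ ε e : ℝ), 0 < e → Mv d ρ β z' M V s θ ε →
        Mv d ρ β ((σ * (ζ' : ℤ)) • es j + z')
          (M + (pr d ρ β b * ζ + 12 * a * (b / a) ^ (3 / 4 : ℝ)))
          (V + 4 * b * (pr d ρ β b * ζ + 12 * a * (b / a) ^ (3 / 4 : ℝ)))
          (s + (pr d ρ β b * ζ + 12 * a * (b / a) ^ (3 / 4 : ℝ)))
          (θ + 4 * ps d ρ β bt * (pr d ρ β b * ζ + 12 * a * (b / a) ^ (3 / 4 : ℝ))) (ε + e) := by
    intro k
    induction k with
    | zero =>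
      intro b h0 h1 h2 h3
      simp only [pow_zero, one_mul] at h3
      linarith
    | succ k ih =>
      intro b h0 h1 h2 h3 ζ
      have hbpos : 0 < b := by linarith
      have hbam : b ≤ am d N := h1.trans ha
      have hpb : 0 < pr d ρ β b := pr_pos S hN h0 hbam
      obtain ⟨y, hy⟩ : ∃ y : ℝ, y = (b / a) ^ (3 / 4 : ℝ) := ⟨_, rfl⟩
      have hy0 : 0 < y := by rw [hy]; positivity
      have hpsb := ps_le j0 hρ S hbpos h2 hbt'
      obtain ⟨ζ1, hζ1, ev1, hrem1, hmv1⟩ := level j0 hρ S hN h0 hbam j hσ ζ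
      have hζ1R : (ζ1 : ℝ) ≤ ζ := by exact_mod_cast hζ1
      by_cases hcase : b < 2 * a0
      · refine ⟨ζ1, hζ1, ev1, ?_, ?_⟩
        · have hlo := S.lo b h0 hbam
          have hN0 : (0 : ℝ) < N := by exact_mod_cast hN
          have hNp : 0 < (N : ℝ) ^ (2 * c) := Real.rpow_pos_of_pos hN0 _
          have h5 : ((ζ : ℝ) - ζ1) * (N : ℝ) ^ (-(2 * c)) ≤ 4 * a0 := by
            have h6 := mul_le_mul_of_nonneg_left hlo (by linarith : 0 ≤ (ζ : ℝ) - ζ1)
            linarith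
          rw [Real.rpow_neg hN0.le] at h5
          rw [← div_eq_mul_inv, div_le_iff₀ hNp] at h5
          exact h5
        · intro z' M V s θ ε e he0 hM
          have h := hmv1 z' M V s θ ε e he0 hM
          rw [← hy]
          have hW : pr d ρ β b * ζ1 ≤ pr d ρ β b * ζ + 12 * a * y := by
            have h5 := mul_le_mul_of_nonneg_left hζ1R hpb.le
            have h6 : 0 ≤ 12 * a * y := by positivity
            linarith
          have hW0 : 0 ≤ pr d ρ β b * (ζ1 : ℝ) := mul_nonneg hpb.le (Nat.cast_nonneg _)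
          refine Mv_mono h (by linarith) ?_ (by linarith) ?_ le_rfl
          · have h5 := mul_le_mul_of_nonneg_left hW (by linarith : 0 ≤ 4 * b)
            linarith
          · have h5 := mul_le_mul_of_nonneg_right hpsb hW0
            have h6 := mul_le_mul_of_nonneg_left hW (by linarith : 0 ≤ 4 * ps d ρ β bt)
            nlinarith [h5, h6]
      · push Not at hcase
        have h20 : a0 ≤ b / 2 := by linarith
        have h2a : b / 2 ≤ a := by linarith
        obtain ⟨ζ2, hζ2⟩ : ∃ ζ2 : ℕ, ζ2 = ζ - ζ1 := ⟨_, rfl⟩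
        have hζ2R : (ζ2 : ℝ) = ζ - ζ1 := by
          rw [hζ2, Nat.cast_sub hζ1]
        have h3' : b / 2 < 2 ^ k * a0 := by
          rw [pow_succ] at h3
          linarith
        obtain ⟨ζ3, hζ3, ev3, hrem3, hmv3⟩ := ih (b / 2) h20 h2a (by linarith) h3' ζ2
        refine ⟨ζ1 + ζ3, by omega, ev1.add ev3, ?_, ?_⟩
        · push_cast
          linarith
        · intro z' M V s θ ε e he0 hM
          have hA := hmv3 z' M V s θ ε (e / 2) (by linarith) hM
          have hB := hmv1 _ _ _ _ _ _ (e / 2) (by linarith) hA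
          have hdis : ((σ * (ζ1 : ℤ)) • es j + ((σ * (ζ3 : ℤ)) • es j + z') : Site d) =
              (σ * ((ζ1 + ζ3 : ℕ) : ℤ)) • es j + z' := by
            rw [← add_assoc, ← add_smul]
            congr 2
            push_cast
            ring
          rw [hdis] at hB
          -- the cost of the remainder
          obtain ⟨W2, hW2⟩ : ∃ W2 : ℝ, W2 = pr d ρ β (b / 2) * ζ2 + 12 * a * (b / 2 / a) ^ (3 / 4 : ℝ) :=
            ⟨_, rfl⟩
          have hyy : (b / 2 / a) ^ (3 / 4 : ℝ) = q / 2 * y := by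
            have h5 : b / 2 / a = 1 / 2 * (b / a) := by ring
            rw [h5, Real.mul_rpow (by norm_num) (by positivity), hhalf, hy]
          have hpa : pr d ρ β a ≤ pr d ρ β b := pr_anti S h0 h1 ha
          have hpa0 : 0 ≤ pr d ρ β a := (pr_pos S hN (h0.trans h1) ha).le
          have hreg := hr (b / 2) h20 h2a
          have hroot : (a / (b / 2)) ^ (1 / 4 : ℝ) * b = q * (a * y) := by
            have h5 : a / (b / 2) = 2 * (b / a)⁻¹ := by
              field_simp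
            have hxp : 0 < b / a := by positivity
            rw [h5, Real.mul_rpow (by norm_num) (by positivity), ← hq, Real.inv_rpow hxp.le, hy]
            have h6 : b = a * (b / a) := by field_simp
            have h7 : (b / a) ^ (3 / 4 : ℝ) * (b / a) ^ (1 / 4 : ℝ) = b / a := by
              rw [← Real.rpow_add hxp]
              norm_num
            have h8 : 0 < (b / a) ^ (1 / 4 : ℝ) := by positivity
            have h9 : ((b / a) ^ (1 / 4 : ℝ))⁻¹ * b = a * (b / a) ^ (3 / 4 : ℝ) := by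
              rw [inv_mul_eq_div, div_eq_iff h8.ne', mul_assoc, h7]
              exact h6
            rw [mul_assoc, h9]
          have hcost : pr d ρ β (b / 2) * ζ2 ≤ 4 * q * (a * y) := by
            have h5 : pr d ρ β (b / 2) ≤ 2 * (a / (b / 2)) ^ (1 / 4 : ℝ) * pr d ρ β b :=
              hreg.trans (mul_le_mul_of_nonneg_left hpa (by positivity))
            have h6 : pr d ρ β (b / 2) * ζ2 ≤ 2 * (a / (b / 2)) ^ (1 / 4 : ℝ) * (pr d ρ β b * ζ2) := by
              rw [← mul_assoc]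
              exact mul_le_mul_of_nonneg_right h5 (Nat.cast_nonneg _)
            have h7 : pr d ρ β b * ζ2 ≤ 2 * b := by
              rw [hζ2R, mul_comm]
              exact hrem1
            have h8 := mul_le_mul_of_nonneg_left h7
              (by positivity : 0 ≤ 2 * (a / (b / 2)) ^ (1 / 4 : ℝ))
            calc _ ≤ 2 * (a / (b / 2)) ^ (1 / 4 : ℝ) * (2 * b) := h6.trans h8
              _ = 4 * ((a / (b / 2)) ^ (1 / 4 : ℝ) * b) := by ring
              _ = 4 * q * (a * y) := by rw [hroot]; ring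
          have hay : 0 < a * y := by positivity
          have hW2le : W2 ≤ 12 * a * y := by
            rw [hW2, hyy]
            have h5 : 10 * q * (a * y) ≤ 12 * (a * y) :=
              mul_le_mul_of_nonneg_right (by linarith) hay.le
            nlinarith [hcost, h5]
          have hW20 : 0 ≤ W2 := by
            rw [hW2]
            have h5 : 0 ≤ pr d ρ β (b / 2) := (pr_pos S hN h20 (h2a.trans ha)).le
            positivity
          rw [← hW2] at hB
          rw [← hy]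
          have hP0 : 0 ≤ pr d ρ β b * (ζ1 : ℝ) := mul_nonneg hpb.le (Nat.cast_nonneg _)
          have hP1 : pr d ρ β b * (ζ1 : ℝ) ≤ pr d ρ β b * ζ := mul_le_mul_of_nonneg_left hζ1R hpb.le
          have hsum : W2 + pr d ρ β b * ζ1 ≤ pr d ρ β b * ζ + 12 * a * y := by linarith
          refine Mv_mono hB (by linarith) ?_ (by linarith) ?_ (by linarith)
          · have h5 := mul_le_mul_of_nonneg_left hsum (by linarith : 0 ≤ 4 * b)
            have h6 : 4 * (b / 2) * W2 ≤ 4 * b * W2 :=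
              mul_le_mul_of_nonneg_right (by linarith) hW20
            linarith
          · have h5 := mul_le_mul_of_nonneg_right hpsb hP0
            have h6 := mul_le_mul_of_nonneg_left hsum (by linarith : 0 ≤ 4 * ps d ρ β bt)
            nlinarith [h5, h6]
  obtain ⟨k, hk⟩ := pow_unbounded_of_one_lt (b / a0) (by norm_num : (1 : ℝ) < 2)
  exact key k b hb0 hb hbt (by rwa [div_lt_iff₀ (by linarith)] at hk) ζ

end Pool.Agent.W_7d29a1_q
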