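import Pool.Agent.W_7d29a1_q.MvE

/-!
Row 601, section 3: (3.1), the strategy for a displacement supported by the coordinates `J`. TASK MvF.
-/

namespace Pool.Agent.W_7d29a1_q

open MeasureTheory ProbabilityTheory Filter Topology Pool.Agent.W_MP_7d29a1_pr
  Pool.Agent.W_7d29a1_h46 Pool.Agent.W_7d29a1_h46u Pool.Agent.W_7d29a1_h3

variable {d : ℕ} {ρ : Measure ℝ} [IsProbabilityMeasure ρ] {β : ℝ}

private theorem MvF_ln_update (z : Site d) (j : Fin d) :
    ln z = ln (Function.update z j 0) + (z j).natAbs := by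
  unfold ln
  rw [← Finset.add_sum_erase Finset.univ (fun i => (z i).natAbs) (Finset.mem_univ j),
    ← Finset.add_sum_erase Finset.univ (fun i => (Function.update z j 0 i).natAbs)
      (Finset.mem_univ j), Function.update_self, Int.natAbs_zero, zero_add, add_comm]
  congr 1
  refine Finset.sum_congr rfl fun i hi => ?_
  rw [Function.update_of_ne (Finset.ne_of_mem_erase hi)]

private theorem MvF_even {z r : Site d} (hz : Even (ln z)) (h : ∀ j, Even (z j - r j)) :
    Even (ln r) := by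
  have h2 : 2 ∣ ln z + ln r := by
    unfold ln
    rw [← Finset.sum_add_distrib]
    refine Finset.dvd_sum fun j _ => ?_
    obtain ⟨k, hk⟩ := h j
    omega
  rw [Nat.even_iff] at hz ⊢
  omega

private theorem MvF_ind (j0 : Fin d) (hρ : EM ρ) {c a0 : ℝ} {N : ℕ} (S : Sc d ρ β c a0 N)
    (hN : 1 ≤ N) {a b : ℝ} (ha : a ≤ am d N) (hr : Rg d ρ β a0 (1 / 4) a) (hb0 : a0 ≤ b)
    (hb : b ≤ a) (J : Finset (Fin d)) : ∀ z : Site d, (∀ j, j ∉ J → z j = 0) →
    ∃ r : Site d, (∀ j, j ∉ J → r j = 0) ∧ (∀ j, Even (z j - r j)) ∧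
      (∀ j, ((r j).natAbs : ℝ) ≤ 4 * a0 * (N : ℝ) ^ (2 * c)) ∧
      ∀ (z' : Site d) (M V s θ ε e : ℝ), 0 < e → Mv d ρ β z' M V s θ ε →
        Mv d ρ β (z - r + z')
          (M + (pr d ρ β b * ln z + J.card * (12 * a * (b / a) ^ (3 / 4 : ℝ))))
          (V + 4 * b * (pr d ρ β b * ln z + J.card * (12 * a * (b / a) ^ (3 / 4 : ℝ))))
          (s + (pr d ρ β b * ln z + J.card * (12 * a * (b / a) ^ (3 / 4 : ℝ))))
          (θ + 4 * ps d ρ β b * (pr d ρ β b * ln z + J.card * (12 * a * (b / a) ^ (3 / 4 : ℝ))))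
          (ε + e) := by
  classical
  have hR : 0 ≤ 4 * a0 * (N : ℝ) ^ (2 * c) :=
    mul_nonneg (by linarith [S.one]) (Real.rpow_nonneg (Nat.cast_nonneg N) _)
  induction J using Finset.induction_on with
  | empty =>
    intro z hz
    have hz0 : z = 0 := funext fun j => hz j (Finset.notMem_empty j)
    subst hz0
    refine ⟨0, fun _ _ => rfl, fun j => by simp, fun j => by simpa using hR, ?_⟩
    intro z' M V s θ ε e he h
    have e1 : (ln (0 : Site d) : ℝ) = 0 := by simp [ln]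
    rw [e1, Finset.card_empty, Nat.cast_zero, mul_zero, zero_mul, add_zero, mul_zero, mul_zero,
      add_zero, add_zero, add_zero, add_zero, sub_zero, zero_add]
    exact Mv_mono h le_rfl le_rfl le_rfl le_rfl (by linarith)
  | insert j J hj ih =>
    intro z hz
    obtain ⟨r₁, hr1, hr2, hr3, hr4⟩ := ih (Function.update z j 0) (fun i hi => by
      by_cases hij : i = j
      · rw [hij, Function.update_self]
      · rw [Function.update_of_ne hij]
        exact hz i (fun h => (Finset.mem_insert.1 h).elim hij hi))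
    obtain ⟨σ, hσ, hzσ⟩ : ∃ σ : ℤ, (σ = 1 ∨ σ = -1) ∧ z j = σ * ((z j).natAbs : ℤ) := by
      rcases Int.natAbs_eq (z j) with h | h
      · exact ⟨1, Or.inl rfl, by rw [one_mul]; exact h⟩
      · exact ⟨-1, Or.inr rfl, by rw [neg_one_mul]; exact h⟩
    obtain ⟨ζ', hζ, hζe, hζ2, hMv⟩ := greedy j0 hρ S hN ha hr hb0 hb le_rfl (hb.trans ha) j hσ
      ((z j).natAbs)
    have hrj : r₁ j = 0 := hr1 j hj
    have hes : ∀ i, (((z j - σ * (ζ' : ℤ)) • es j : Site d)) i =
        if i = j then z j - σ * (ζ' : ℤ) else 0 := by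
      intro i
      unfold es
      rw [Pi.smul_apply, smul_eq_mul]
      by_cases hij : i = j
      · rw [if_pos hij, hij, Pi.single_eq_same, mul_one]
      · rw [if_neg hij, Pi.single_eq_of_ne hij, mul_zero]
    have hes2 : ∀ i, (((σ * (ζ' : ℤ)) • es j : Site d)) i =
        if i = j then σ * (ζ' : ℤ) else 0 := by
      intro i
      unfold es
      rw [Pi.smul_apply, smul_eq_mul]
      by_cases hij : i = j
      · rw [if_pos hij, hij, Pi.single_eq_same, mul_one]
      · rw [if_neg hij, Pi.single_eq_of_ne hij, mul_zero]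
    refine ⟨r₁ + (z j - σ * (ζ' : ℤ)) • es j, fun i hi => ?_, fun i => ?_, fun i => ?_, ?_⟩
    · have hij : i ≠ j := fun h => hi (h ▸ Finset.mem_insert_self _ _)
      rw [Pi.add_apply, hes, if_neg hij, add_zero]
      exact hr1 i fun h => hi (Finset.mem_insert_of_mem h)
    · by_cases hij : i = j
      · rw [hij, Pi.add_apply, hes, if_pos rfl, hrj, zero_add]
        obtain ⟨k, hk⟩ := hζe
        refine ⟨σ * k, ?_⟩
        rw [hk]
        push_cast
        ring
      · have h1 := hr2 i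
        rw [Function.update_of_ne hij] at h1
        rw [Pi.add_apply, hes, if_neg hij, add_zero]
        exact h1
    · by_cases hij : i = j
      · rw [hij, Pi.add_apply, hes, if_pos rfl, hrj, zero_add]
        have h1 : (z j - σ * (ζ' : ℤ)).natAbs + ζ' = (z j).natAbs := by
          rcases hσ with h | h <;> subst h <;> omega
        have h2 : ((z j - σ * (ζ' : ℤ)).natAbs : ℝ) + ζ' = (z j).natAbs := by exact_mod_cast h1
        linarith
      · rw [Pi.add_apply, hes, if_neg hij, add_zero]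
        exact hr3 i
    · intro z' M V s θ ε e he h
      have h1 := hMv z' M V s θ ε (e / 2) (half_pos he) h
      have h2 := hr4 _ _ _ _ _ _ (e / 2) (half_pos he) h1
      have e1 : Function.update z j 0 - r₁ + ((σ * (ζ' : ℤ)) • es j + z') =
          z - (r₁ + (z j - σ * (ζ' : ℤ)) • es j) + z' := by
        funext i
        simp only [Pi.add_apply, Pi.sub_apply]
        rw [hes, hes2]
        by_cases hij : i = j
        · subst hij
          rw [Function.update_self, if_pos rfl, if_pos rfl]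
          ring
        · rw [Function.update_of_ne hij, if_neg hij, if_neg hij]
          ring
      have e2 : (ln z : ℝ) = ln (Function.update z j 0) + ((z j).natAbs : ℝ) := by
        rw [MvF_ln_update z j, Nat.cast_add]
      have e3 : ((insert j J).card : ℝ) = J.card + 1 := by
        rw [Finset.card_insert_of_notMem hj, Nat.cast_add, Nat.cast_one]
      rw [e1] at h2
      refine Mv_mono h2 (le_of_eq ?_) (le_of_eq ?_) (le_of_eq ?_) (le_of_eq ?_) (by linarith)
      · rw [e2, e3]; ring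
      · rw [e2, e3]; ring
      · rw [e2, e3]; ring
      · rw [e2, e3]; ring

/-- (3.1). `greedy` (with `bt = b`, `ζ = |z j|`, `σ = sign z j`) for the coordinates `j ∈ J`, one after the other (induction on
`J`), then a straight path (`Mv_straight`) for the remainder `r`, whose coordinates are `≤ 4 a0 N^(2c)` and vanish outside
`J`; `ln r` is even. With `D = max 1 (4 d a0 N^(2c))`: `C D ≤ N^(5c)`, `C D² ≤ N^(5c)`, `D ≤ 4 ψ(b) N^(5c)` for large `N`, as
`ψ(b) ≥ 1 / (2 a0)` by `ps_le` (from `SS 1 ≤ a0`). -/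
theorem strat (j0 : Fin d) (hρ : EM ρ) (β c a0 : ℝ) : ∀ᶠ N : ℕ in atTop, Sc d ρ β c a0 N →
    ∀ a b : ℝ, a ≤ am d N → Rg d ρ β a0 (1 / 4) a → a0 ≤ b → b ≤ a →
      ∀ (J : Finset (Fin d)) (z : Site d), Even (ln z) → (∀ j, j ∉ J → z j = 0) → ∀ e : ℝ, 0 < e →
        ∀ E : ℝ, E = pr d ρ β b * ln z + J.card * (12 * a * (b / a) ^ (3 / 4 : ℝ)) + (N : ℝ) ^ (5 * c) →
          Mv d ρ β z E (4 * (b * E + (N : ℝ) ^ (5 * c))) E (4 * ps d ρ β b * E) e := by
  by_cases hc : 0 < c
  swap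
  · exact Eventually.of_forall fun N S => absurd S.cpos hc
  by_cases ha0 : 1 ≤ a0
  swap
  · exact Eventually.of_forall fun N S => absurd S.one ha0
  obtain ⟨C, hC1, hst⟩ := Mv_straight (ρ := ρ) j0 hρ β
  obtain ⟨G, hG⟩ : ∃ G : ℝ, G = 1 + 4 * d * a0 := ⟨_, rfl⟩
  have hd0 : (0 : ℝ) ≤ d := Nat.cast_nonneg d
  have hG1 : 1 ≤ G := by
    have : 0 ≤ 4 * (d : ℝ) * a0 := by positivity
    rw [hG]; linarith only [this]
  have hX : ∀ᶠ N : ℕ in atTop, C * G ^ 2 + C * G + G * a0 ≤ (N : ℝ) ^ c :=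
    ((tendsto_rpow_atTop hc).comp tendsto_natCast_atTop_atTop).eventually_ge_atTop _
  filter_upwards [hX, eventually_ge_atTop 1] with N hNX hN1
  intro S a b ha hr hb0 hb J z hz hzJ e he E hE
  obtain ⟨X, hXd⟩ : ∃ X : ℝ, X = (N : ℝ) ^ c := ⟨_, rfl⟩
  have hX2 : (N : ℝ) ^ (2 * c) = X ^ 2 := by
    rw [hXd, mul_comm, Real.rpow_mul (Nat.cast_nonneg N)]
    exact_mod_cast Real.rpow_natCast ((N : ℝ) ^ c) 2
  have hX5 : (N : ℝ) ^ (5 * c) = X ^ 5 := by
    rw [hXd, mul_comm, Real.rpow_mul (Nat.cast_nonneg N)]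
    exact_mod_cast Real.rpow_natCast ((N : ℝ) ^ c) 5
  obtain ⟨r, -, hr2, hr3, hr4⟩ := MvF_ind j0 hρ S hN1 ha hr hb0 hb J z hzJ
  rw [hX5] at hE
  rw [hX5]
  simp only [hX2] at hr3
  rw [← hXd] at hNX
  have hC0 : 0 < C := by linarith only [hC1]
  have hG0 : 0 < G := by linarith only [hG1]
  have ha00 : 0 < a0 := by linarith only [ha0]
  have hCG : 1 ≤ C * G := one_le_mul_of_one_le_of_one_le hC1 hG1
  have hCG2 : 0 < C * G ^ 2 := by positivity
  have hGa : 0 < G * a0 := by positivity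
  have hX1 : 1 ≤ X := by linarith only [hNX, hCG, hCG2, hGa]
  have hX0 : 0 < X := by linarith only [hX1]
  have hXX2 : 1 ≤ X ^ 2 := one_le_pow₀ hX1
  have hX3 : X ≤ X ^ 3 := le_self_pow₀ hX1 (by norm_num)
  have hlr : (ln r : ℝ) ≤ G * X ^ 2 := by
    have h1 : (ln r : ℝ) ≤ d * (4 * a0 * X ^ 2) := by
      unfold ln
      rw [Nat.cast_sum]
      calc ∑ j, ((r j).natAbs : ℝ) ≤ ∑ _j : Fin d, 4 * a0 * X ^ 2 :=
            Finset.sum_le_sum fun j _ => hr3 j
        _ = d * (4 * a0 * X ^ 2) := by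
            rw [Finset.sum_const, Finset.card_univ, Fintype.card_fin, nsmul_eq_mul]
    have h2 : G * X ^ 2 = X ^ 2 + d * (4 * a0 * X ^ 2) := by rw [hG]; ring
    rw [h2]
    linarith only [h1, hXX2]
  have h := hst r (G * X ^ 2) (MvF_even hz hr2) (one_le_mul_of_one_le_of_one_le hG1 hXX2) hlr
  have h' := hr4 r _ _ _ _ _ e he h
  rw [sub_add_cancel] at h'
  have hm : b ≤ am d N := hb.trans ha
  have hps : 1 / a0 ≤ 2 * ps d ρ β b := by
    have h1 := ps_le j0 hρ S ha00 hb0 hm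
    refine le_trans ?_ h1
    unfold ps
    refine div_le_div_of_nonneg_right ?_ ha00.le
    have h2 : 1 ≤ nn d ρ β a0 := (le_nn S (hb0.trans hm)).2 (Or.inr S.S1)
    exact_mod_cast h2
  have hb00 : 0 < b := by linarith only [hb0, ha00]
  -- the inequalities
  have i1 : C * (G * X ^ 2) ≤ X ^ 5 := by
    have f1 : C * G * X ^ 2 ≤ X ^ 3 * X ^ 2 :=
      mul_le_mul_of_nonneg_right (by linarith only [hNX, hX3, hCG2, hGa]) (by positivity)
    have f2 : X ^ 3 * X ^ 2 = X ^ 5 := by ring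
    have f3 : C * (G * X ^ 2) = C * G * X ^ 2 := by ring
    rw [f3, ← f2]
    exact f1
  have i2 : C * (G * X ^ 2) ^ 2 ≤ X ^ 5 := by
    have f1 : C * G ^ 2 * X ^ 4 ≤ X * X ^ 4 :=
      mul_le_mul_of_nonneg_right (by linarith only [hNX, hCG, hGa]) (by positivity)
    have f2 : X * X ^ 4 = X ^ 5 := by ring
    have f3 : C * (G * X ^ 2) ^ 2 = C * G ^ 2 * X ^ 4 := by ring
    rw [f3, ← f2]
    exact f1
  have i3 : G * X ^ 2 ≤ 4 * ps d ρ β b * X ^ 5 := by
    have f1 : G * a0 * X ^ 2 ≤ X ^ 3 * X ^ 2 :=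
      mul_le_mul_of_nonneg_right (by linarith only [hNX, hX3, hCG2, hCG]) (by positivity)
    have f2 : X ^ 3 * X ^ 2 = X ^ 5 := by ring
    rw [f2] at f1
    have f3 : G * X ^ 2 ≤ 1 / a0 * X ^ 5 := by
      rw [one_div, ← div_eq_inv_mul, le_div_iff₀ ha00]
      linarith only [f1]
    have f4 : 1 / a0 * X ^ 5 ≤ 2 * ps d ρ β b * X ^ 5 :=
      mul_le_mul_of_nonneg_right hps (by positivity)
    have f5 : 0 ≤ 1 / a0 * X ^ 5 := by positivity
    linarith only [f3, f4, f5]
  have hX50 : 0 < X ^ 5 := by positivity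
  have hbX : 0 < b * X ^ 5 := by positivity
  refine Mv_mono h' ?_ ?_ ?_ ?_ (by rw [zero_add])
  · rw [hE]; linarith only [i1]
  · rw [hE]; linarith only [i2, hX50, hbX]
  · rw [hE]; linarith only [i1]
  · rw [hE]; linarith only [i3]

end Pool.Agent.W_7d29a1_q
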