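import Pool.Agent.W_7d29a1_q.MvF
import Pool.Agent.W_7d29a1_q.MvG

/-!
Row 601, section 3: (3.3), moves inside cells. TASK MvI.
-/

namespace Pool.Agent.W_7d29a1_q

open MeasureTheory ProbabilityTheory Filter Topology Pool.Agent.W_MP_7d29a1_pr
  Pool.Agent.W_7d29a1_h46 Pool.Agent.W_7d29a1_h46u Pool.Agent.W_7d29a1_h3

variable {d : ℕ}

/-- The elementary estimates. `X = ε^(3/4) a`. -/
private theorem MvI_arith {D X b P L S F W : ℝ} (hD : 1 ≤ D) (hX : 1 ≤ X) (hbX : b ≤ X)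
    (hb : 0 ≤ b) (hP : 0 ≤ P) (hL : L ≤ D * S) (hS : P * S ≤ 2 * X)
    (hW : W ≤ b) (hF : F = D * (12 * X)) :
    P * L + F + W ≤ 15 * D * X ∧
      4 * (b * (P * L + F + W) + W) ≤ 100 * D * X ^ 2 := by
  have h1 : P * L ≤ 2 * D * X := by
    calc P * L ≤ P * (D * S) := mul_le_mul_of_nonneg_left hL hP
      _ = D * (P * S) := by ring
      _ ≤ D * (2 * X) := mul_le_mul_of_nonneg_left hS (by linarith)
      _ = 2 * D * X := by ring
  have hDX : X ≤ D * X := by nlinarith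
  have h2 : P * L + F + W ≤ 15 * D * X := by
    rw [hF]
    nlinarith
  refine ⟨h2, ?_⟩
  have h3 : b * (P * L + F + W) ≤ X * (15 * D * X) := by
    calc b * (P * L + F + W) ≤ b * (15 * D * X) := mul_le_mul_of_nonneg_left h2 hb
      _ ≤ X * (15 * D * X) := mul_le_mul_of_nonneg_right hbX (by positivity)
  have h4 : W ≤ D * X ^ 2 := by
    calc W ≤ X := hW.trans hbX
      _ ≤ D * X := hDX
      _ = D * X * 1 := by ring
      _ ≤ D * X * X := mul_le_mul_of_nonneg_left hX (by positivity)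
      _ = D * X ^ 2 := by ring
  nlinarith [mul_nonneg (by linarith : (0 : ℝ) ≤ D) (sq_nonneg X)]

/-- (3.3). Moves inside cells. `b = ε a`, `J = univ`, `ln z ≤ d sn z`: `E ≤ 15 d ε^(3/4) a`, `V ≤ 100 d (ε^(3/4) a)²`;
`τ = nn x` with `x = 60 d ε^(3/4) a / q`; `exact` with `q / 4` (second alternative of `ht`), `e = q / 4`. -/
theorem cells (j0 : Fin d) {q : ℝ} (hq : 0 < q) (hq1 : q < 1) : ∃ C : ℝ, 1 ≤ C ∧
    ∀ (ρ : Measure ℝ) [IsProbabilityMeasure ρ] (β c a0 : ℝ), EM ρ → ∀ᶠ N : ℕ in atTop,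
      Sc d ρ β c a0 N → ∀ a ε : ℝ, a ≤ am d N → Rg d ρ β a0 (1 / 4) a → 0 < ε → ε ≤ 1 →
        (N : ℝ) ^ (6 * c) ≤ ε * a → C * ε ^ (3 / 4 : ℝ) * a ≤ am d N →
        ∃ τ : ℕ, SS d ρ β τ ≤ C * ε ^ (3 / 4 : ℝ) * a ∧ ∀ z : Site d, Even (ln z) →
          (sn z : ℝ) ≤ ε * WW d ρ β a →
          (law d ρ).real {η : Env d | ¬ Tle ρ β η τ z (C * ε ^ (3 / 4 : ℝ) * a)} ≤ q := by
  have hd : 1 ≤ d := Nat.one_le_iff_ne_zero.2 (fun h => by subst h; exact j0.elim0)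
  have hD : (1 : ℝ) ≤ (d : ℝ) := by exact_mod_cast hd
  have hq2 : q ^ 2 ≤ q := by nlinarith
  refine ⟨300 * d / q ^ 2, ?_, ?_⟩
  · rw [le_div_iff₀ (by positivity)]
    nlinarith
  intro ρ _ β c a0 hρ
  have hlarge : ∀ᶠ N : ℕ in atTop, 0 < c → a0 ≤ (N : ℝ) ^ (6 * c) := by
    by_cases hc : 0 < c
    · have h1 : Tendsto (fun N : ℕ => (N : ℝ) ^ (6 * c)) atTop atTop :=
        (tendsto_rpow_atTop (by positivity)).comp tendsto_natCast_atTop_atTop
      filter_upwards [h1.eventually_ge_atTop a0] with N hN _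
      exact hN
    · exact Eventually.of_forall fun N h => absurd h hc
  filter_upwards [strat j0 hρ β c a0, hlarge, eventually_ge_atTop 1] with N hstr hla hN1 S a ε haN hRg
    hε hε1 hNε hCN
  have hNR : (1 : ℝ) ≤ (N : ℝ) := by exact_mod_cast hN1
  have hc := S.cpos
  have ha0b : a0 ≤ ε * a := (hla hc).trans hNε
  have hone : 1 ≤ a0 := S.one
  have hb1 : 1 ≤ ε * a := hone.trans ha0b
  have ha : 0 < a := by
    by_contra h
    push Not at h
    nlinarith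
  have hba : ε * a ≤ a := by nlinarith
  obtain ⟨X, hX⟩ : ∃ X : ℝ, X = ε ^ (3 / 4 : ℝ) * a := ⟨_, rfl⟩
  have hε34 : ε ≤ ε ^ (3 / 4 : ℝ) := by
    have := Real.rpow_le_rpow_of_exponent_ge hε hε1 (by norm_num : (3 / 4 : ℝ) ≤ 1)
    rwa [Real.rpow_one] at this
  have hbX : ε * a ≤ X := by
    rw [hX]
    exact mul_le_mul_of_nonneg_right hε34 ha.le
  have hX1 : 1 ≤ X := hb1.trans hbX
  have hCX : 300 * (d : ℝ) / q ^ 2 * ε ^ (3 / 4 : ℝ) * a = 300 * (d : ℝ) / q ^ 2 * X := by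
    rw [hX]
    ring
  rw [hCX] at hCN ⊢
  -- the time
  obtain ⟨x, hx⟩ : ∃ x : ℝ, x = 60 * (d : ℝ) * X / q := ⟨_, rfl⟩
  have hx0 : 0 < x := by
    rw [hx]
    positivity
  have hxC : x ≤ 300 * (d : ℝ) / q ^ 2 * X := by
    rw [hx, div_mul_eq_mul_div, div_le_div_iff₀ hq (by positivity)]
    have h1 : 0 ≤ (d : ℝ) * X := by positivity
    nlinarith
  have hxN : x ≤ am d N := hxC.trans hCN
  have hSx : SS d ρ β (nn d ρ β x) ≤ x := SS_nn S hx0.le hxN
  refine ⟨nn d ρ β x, hSx.trans hxC, ?_⟩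
  intro z hz hzW
  -- the price
  have hpa : 0 < pr d ρ β a := pr_pos S hN1 (ha0b.trans hba) haN
  have hpb : 0 < pr d ρ β (ε * a) := pr_pos S hN1 ha0b (hba.trans haN)
  have hRb := hRg (ε * a) ha0b hba
  have hab : a / (ε * a) = ε⁻¹ := by
    field_simp
  rw [hab] at hRb
  have hS : pr d ρ β (ε * a) * (sn z : ℝ) ≤ 2 * X := by
    have h1 : (sn z : ℝ) * pr d ρ β a ≤ ε * a := by
      have h2 : ε * WW d ρ β a = ε * a / pr d ρ β a := by
        unfold WW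
        ring
      rw [h2, le_div_iff₀ hpa] at hzW
      exact hzW
    have h3 : (ε⁻¹) ^ (1 / 4 : ℝ) * ε = ε ^ (3 / 4 : ℝ) := by
      rw [Real.inv_rpow hε.le, ← Real.rpow_neg hε.le]
      nth_rewrite 2 [← Real.rpow_one ε]
      rw [← Real.rpow_add hε]
      norm_num
    have h4 : 0 ≤ (ε⁻¹) ^ (1 / 4 : ℝ) := Real.rpow_nonneg (inv_nonneg.2 hε.le) _
    calc pr d ρ β (ε * a) * (sn z : ℝ)
        ≤ 2 * (ε⁻¹) ^ (1 / 4 : ℝ) * pr d ρ β a * (sn z : ℝ) :=
          mul_le_mul_of_nonneg_right hRb (Nat.cast_nonneg _)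
      _ = 2 * (ε⁻¹) ^ (1 / 4 : ℝ) * ((sn z : ℝ) * pr d ρ β a) := by ring
      _ ≤ 2 * (ε⁻¹) ^ (1 / 4 : ℝ) * (ε * a) := mul_le_mul_of_nonneg_left h1 (by positivity)
      _ = 2 * ((ε⁻¹) ^ (1 / 4 : ℝ) * ε * a) := by ring
      _ = 2 * X := by rw [h3, hX]
  have hL : (ln z : ℝ) ≤ (d : ℝ) * (sn z : ℝ) := by exact_mod_cast ln_le_sn z
  have hba' : ε * a / a = ε := by
    field_simp
  have hW : (N : ℝ) ^ (5 * c) ≤ ε * a :=
    (Real.rpow_le_rpow_of_exponent_le hNR (by linarith)).trans hNε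
  have hW0 : 0 ≤ (N : ℝ) ^ (5 * c) := Real.rpow_nonneg (by linarith) _
  obtain ⟨E, hE⟩ : ∃ E : ℝ, E = pr d ρ β (ε * a) * ln z +
      (Finset.univ : Finset (Fin d)).card * (12 * a * (ε * a / a) ^ (3 / 4 : ℝ)) +
      (N : ℝ) ^ (5 * c) := ⟨_, rfl⟩
  have hF : ((Finset.univ : Finset (Fin d)).card : ℝ) * (12 * a * (ε * a / a) ^ (3 / 4 : ℝ)) =
      (d : ℝ) * (12 * X) := by
    rw [Finset.card_univ, Fintype.card_fin, hba', hX]
    ring
  have hM := hstr S a (ε * a) haN hRg ha0b hba Finset.univ z hz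
    (fun j hj => absurd (Finset.mem_univ j) hj) (q / 4) (by positivity) E hE
  obtain ⟨hE1, hE2⟩ := MvI_arith hD hX1 hbX (by linarith) hpb.le hL hS hW hF
  rw [← hE] at hE1 hE2
  have hM' : Mv d ρ β z (15 * d * X) (100 * d * X ^ 2) (15 * d * X) (4 * ps d ρ β (ε * a) * E)
      (q / 4) := Mv_mono hM hE1 hE2 hE1 le_rfl le_rfl
  have hres := exact j0 hρ hM' (q := q / 4) (tc := nn d ρ β x) (by positivity) (by positivity)
    (Or.inr ⟨x, hx0, ?_, fun n hn => (le_nn S hxN).2 (Or.inr hn)⟩)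
  · refine le_trans (measureReal_mono ?_) (hres.trans (by linarith))
    intro η hη hT
    refine hη (Tle_mono hT ?_)
    have hsq : Real.sqrt (100 * d * X ^ 2 / (q / 4)) ≤ 20 * d * X / q := by
      rw [Real.sqrt_le_left (by positivity)]
      rw [div_pow, div_le_div_iff₀ (by positivity) (by positivity)]
      have h1 : 0 ≤ (d : ℝ) * X ^ 2 := by positivity
      have h2 : q ^ 2 ≤ (d : ℝ) * q := by nlinarith
      nlinarith [mul_le_mul_of_nonneg_left h2 h1]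
    have hS4 : SS d ρ β (nn d ρ β x) / (q / 4) ≤ 240 * d * X / q ^ 2 := by
      calc SS d ρ β (nn d ρ β x) / (q / 4) ≤ x / (q / 4) :=
            div_le_div_of_nonneg_right hSx (by positivity)
        _ = 240 * d * X / q ^ 2 := by
            rw [hx]
            field_simp
            ring
    have hdX : 0 ≤ (d : ℝ) * X := by positivity
    have h5 : 15 * d * X ≤ 15 * d * X / q ^ 2 := by
      rw [le_div_iff₀ (by positivity)]
      nlinarith
    have h6 : 20 * d * X / q ≤ 20 * d * X / q ^ 2 := by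
      rw [div_le_div_iff₀ hq (by positivity)]
      nlinarith
    have h7 : 15 * d * X / q ^ 2 + 20 * d * X / q ^ 2 + 240 * d * X / q ^ 2 ≤
        300 * (d : ℝ) / q ^ 2 * X := by
      rw [← add_div, ← add_div, div_mul_eq_mul_div]
      refine div_le_div_of_nonneg_right ?_ (by positivity)
      nlinarith
    linarith
  · rw [hx]
    have : q / 4 * (60 * (d : ℝ) * X / q) = 15 * d * X := by
      field_simp
      ring
    rw [this]

end Pool.Agent.W_7d29a1_q
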