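import Pool.Agent.W_7d29a1_q.NlDefs
import Pool.Agent.W_7d29a1_q.PtA

/-!
Row 601, section 7: the cells and the cell weights `YY`, basic facts. TASK NlD.
-/

namespace Pool.Agent.W_7d29a1_q

open MeasureTheory ProbabilityTheory Filter Topology Pool.Agent.W_MP_7d29a1_pr
  Pool.Agent.W_7d29a1_h46 Pool.Agent.W_7d29a1_h46u Pool.Agent.W_7d29a1_h3

variable {d : ℕ} {ρ : Measure ℝ} [IsProbabilityMeasure ρ] {β : ℝ}

theorem NlD_mem {R : ℕ} {y : Site d} : y ∈ ofs d R ↔ sn y ≤ R ∧ Even (ln y) := by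
  unfold ofs
  rw [Finset.mem_filter, mem_boxF_iff]

theorem NlD_card (R : ℕ) : (ofs d R).card ≤ (2 * R + 1) ^ d := by
  unfold ofs
  exact (Finset.card_filter_le _ _).trans (card_boxF d R).le

private theorem NlD_natAbs (R : ℕ) (z : Site d) (j : Fin d) :
    (((R : ℤ) • z) j).natAbs = R * (z j).natAbs := by
  rw [Pi.smul_apply, smul_eq_mul, Int.natAbs_mul, Int.natAbs_natCast]

private theorem NlD_ln (R : ℕ) (z : Site d) : ln ((R : ℤ) • z) = R * ln z := by
  unfold ln
  rw [Finset.mul_sum]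
  exact Finset.sum_congr rfl fun j _ => NlD_natAbs R z j

private theorem NlD_sn (R : ℕ) (z : Site d) : sn ((R : ℤ) • z) = R * sn z := by
  unfold sn
  rw [Finset.comp_sup_eq_sup_comp_of_is_total (fun n : ℕ => R * n)
    (fun a b h => Nat.mul_le_mul_left R h) (by simp)]
  exact Finset.sup_congr rfl fun j _ => NlD_natAbs R z j

private theorem NlD_ln_even {R : ℕ} (hR : Even R) (z : Site d) : Even (ln ((R : ℤ) • z)) := by
  rw [NlD_ln]
  exact hR.mul_right _

private theorem NlD_sub (x y : Site d) : sn (x - y) ≤ sn x + sn y := by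
  have h1 := sn_add x (-y)
  rwa [sn_neg, ← sub_eq_add_neg] at h1

/-- `R z` is even. -/
theorem NlD_even {R : ℕ} (hR : Even R) {y z : Site d} (hy : Even (ln y)) :
    Even (ln (y + (R : ℤ) • z)) := by
  exact even_ln_add hy (NlD_ln_even hR z)

/-- Every even site is in a cell (coordinatewise division with remainder by `R`, offsets in `[0, R)`). -/
theorem NlD_cover {R : ℕ} (hR : Even R) (hR2 : 2 ≤ R) {p : Site d} (hp : Even (ln p)) :
    ∃ y ∈ ofs d R, ∃ z : Site d, p = y + (R : ℤ) • z ∧ R * sn z ≤ sn p + R := by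
  have hR0 : (0 : ℤ) < R := by
    have : 0 < R := by omega
    exact_mod_cast this
  obtain ⟨z, hz⟩ : ∃ z : Site d, z = fun j => p j / (R : ℤ) := ⟨_, rfl⟩
  obtain ⟨y, hy⟩ : ∃ y : Site d, y = p - (R : ℤ) • z := ⟨_, rfl⟩
  have hsn : sn y ≤ R := by
    rw [sn_le_iff]
    intro j
    have h1 : y j = p j % (R : ℤ) := by
      rw [hy, hz]
      show p j - (R : ℤ) • (p j / (R : ℤ)) = p j % (R : ℤ)
      rw [smul_eq_mul]
      have := Int.emod_add_mul_ediv (p j) (R : ℤ)
      linarith
    have h2 := Int.emod_nonneg (p j) hR0.ne'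
    have h3 := Int.emod_lt_of_pos (p j) hR0
    rw [h1, abs_le]
    constructor <;> linarith
  have hev : Even (ln y) := by
    rw [hy]
    exact even_ln_sub hp (NlD_ln_even hR z)
  refine ⟨y, NlD_mem.2 ⟨hsn, hev⟩, z, by rw [hy]; abel, ?_⟩
  rw [← NlD_sn]
  have h1 : (R : ℤ) • z = p - y := by rw [hy]; abel
  rw [h1]
  have h2 := NlD_sub p y
  omega

/-- Distance between two cells. -/
theorem NlD_dist {R : ℕ} {x y z : Site d} (hx : x ∈ ofs d R) (hy : y ∈ ofs d R) :
    R * sn z ≤ sn (y + (R : ℤ) • z - x) + 2 * R := by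
  obtain ⟨hx1, -⟩ := NlD_mem.1 hx
  obtain ⟨hy1, -⟩ := NlD_mem.1 hy
  rw [← NlD_sn]
  have h1 : (R : ℤ) • z = (y + (R : ℤ) • z - x) + (x - y) := by abel
  have h2 := sn_add (y + (R : ℤ) • z - x) (x - y)
  rw [← h1] at h2
  have h3 := NlD_sub x y
  omega

omit [IsProbabilityMeasure ρ] in
theorem NlD_nonneg (R : ℕ) (η : Env d) (t : ℕ) (z : Site d) : 0 ≤ YY ρ β R η t z := by
  unfold YY
  exact Finset.sum_nonneg fun _ _ => Finset.sum_nonneg fun _ _ => V_nonneg _ _

theorem NlD_meas (R t : ℕ) (z : Site d) : Measurable fun η : Env d => YY ρ β R η t z := by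
  unfold YY
  refine Finset.measurable_sum _ fun x _ => Finset.measurable_sum _ fun y _ => ?_
  exact (measurable_V (ρ := ρ) (β := β) (toP (2 * t) (y + (R : ℤ) • z - x))).comp (measurable_sh 0 x)

/-- `YY` of the shifted environment uses the rows `2 s < . ≤ 2 s + 2 t`. -/
theorem NlD_dep (R s t : ℕ) (x z : Site d) :
    DependsOn (fun η : Env d => YY ρ β R (sh (2 * s) x η) t z)
      {p | 2 * s < p.1 ∧ p.1 ≤ 2 * s + 2 * t} := by
  intro η η' hη
  show YY ρ β R (sh (2 * s) x η) t z = YY ρ β R (sh (2 * s) x η') t z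
  unfold YY
  refine Finset.sum_congr rfl fun x' _ => Finset.sum_congr rfl fun y _ => ?_
  rw [sh_sh, sh_sh, zero_add]
  exact dep_V_sh (ρ := ρ) (β := β) (2 * s) (x' + x) (toP (2 * t) (y + (R : ℤ) • z - x')) hη

/-- The weights are integrable. -/
theorem NlD_int (hρ : EM ρ) (R t : ℕ) (z : Site d) :
    Integrable (fun η : Env d => YY ρ β R η t z) (law d ρ) := by
  have h0 : ∀ (n : ℕ) (w : Site d), Integrable (fun η : Env d => Vp ρ β η n w) (law d ρ) := by
    intro n w
    by_cases hne : (toP n w).Nonempty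
    · have h1 := ((concE hρ β hne).2 (-1) (by simp)).1
      have h2 : (fun η : Env d => Vp ρ β η n w) = fun η =>
          Real.exp (-gE ρ β (toP n w)) *
            Real.exp (-1 * (-Real.log (V ρ β η (toP n w)) - gE ρ β (toP n w))) := by
        funext η
        rw [← Real.exp_add]
        have h3 : 0 < Vp ρ β η n w := V_pos (ρ := ρ) (β := β) η hne
        have h4 : -gE ρ β (toP n w) + -1 * (-Real.log (V ρ β η (toP n w)) - gE ρ β (toP n w)) =
            Real.log (Vp ρ β η n w) := by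
          unfold Vp
          ring
        rw [h4, Real.exp_log h3]
      rw [h2]
      exact h1.const_mul _
    · have h1 : (fun η : Env d => Vp ρ β η n w) = fun _ => 0 := by
        funext η
        unfold Vp V
        rw [Set.not_nonempty_iff_eq_empty.1 hne]
        have h2 : ZT β 0 η (∅ : Set (Fin n → Step d)) = 0 := by
          unfold ZT
          exact Finset.sum_eq_zero fun s _ => if_neg (Set.notMem_empty s)
        rw [h2, mul_zero]
      rw [h1]
      exact integrable_zero _ _ _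
  unfold YY
  refine integrable_finsetSum _ fun x _ => integrable_finsetSum _ fun y _ => ?_
  exact (mp_sh 0 x).integrable_comp_of_integrable (h0 (2 * t) (y + (R : ℤ) • z - x))

/-- Moments of order `γ ≤ 1` are finite (`x ^ γ ≤ 1 + x`). -/
theorem NlD_intr (hρ : EM ρ) (R t : ℕ) (z : Site d) {γ : ℝ} (hγ : 0 < γ) (hγ1 : γ ≤ 1) :
    Integrable (fun η : Env d => YY ρ β R η t z ^ γ) (law d ρ) := by
  have h1 : Integrable (fun η : Env d => 1 + YY ρ β R η t z) (law d ρ) :=
    (integrable_const _).add (NlD_int hρ R t z)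
  refine h1.mono ((NlD_meas R t z).pow_const γ).aestronglyMeasurable
    (Filter.Eventually.of_forall fun η => ?_)
  have h2 := NlD_nonneg (ρ := ρ) (β := β) R η t z
  have h3 : YY ρ β R η t z ^ γ ≤ 1 + YY ρ β R η t z := by
    rcases le_total (YY ρ β R η t z) 1 with h4 | h4
    · have h5 := Real.rpow_le_one h2 h4 hγ.le
      linarith
    · have h5 := Real.rpow_le_rpow_of_exponent_le h4 hγ1
      rw [Real.rpow_one] at h5
      linarith
  rw [Real.norm_of_nonneg (Real.rpow_nonneg h2 γ), Real.norm_of_nonneg (by linarith)]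
  exact h3

theorem NlD_mm_nonneg (R : ℕ) (γ : ℝ) (t : ℕ) (z : Site d) : 0 ≤ mm d ρ β R γ t z :=
  integral_nonneg fun η => Real.rpow_nonneg (NlD_nonneg R η t z) γ

end Pool.Agent.W_7d29a1_q
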