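import Pool.Agent.W_7d29a1_q.Bas

/-!
Row 601, section 7 (no linear windows): definitions. Cells of the mesh `R` (`R` even): the cell with the index
`z` consists of the even sites `y + R z`, `sn y ≤ R`.
-/

namespace Pool.Agent.W_7d29a1_q

open MeasureTheory ProbabilityTheory Filter Topology Pool.Agent.W_MP_7d29a1_pr
  Pool.Agent.W_7d29a1_h46 Pool.Agent.W_7d29a1_h46u Pool.Agent.W_7d29a1_h3

/-- Offsets: the even sites with `sn y ≤ R`. -/
noncomputable def ofs (d R : ℕ) : Finset (Site d) := by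
  classical exact (boxF d R).filter fun y => Even (ln y)

/-- Total weight from the cell `0` to the cell `z` in the half time `t`. From the cell `z0` at the half time `s`
to the cell `z1` it is `YY ρ β R (sh (2 * s) ((R : ℤ) • z0) η) t (z1 - z0)`. -/
noncomputable def YY {d : ℕ} (ρ : Measure ℝ) (β : ℝ) (R : ℕ) (η : Env d) (t : ℕ) (z : Site d) : ℝ :=
  ∑ x ∈ ofs d R, ∑ y ∈ ofs d R, Vp ρ β (sh 0 x η) (2 * t) (y + (R : ℤ) • z - x)

/-- Its moment of order `γ`. -/
noncomputable def mm (d : ℕ) (ρ : Measure ℝ) (β : ℝ) (R : ℕ) (γ : ℝ) (t : ℕ) (z : Site d) : ℝ :=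
  ∫ η : Env d, YY ρ β R η t z ^ γ ∂(law d ρ)

end Pool.Agent.W_7d29a1_q
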