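import Pool.Agent.W_7d29a1_q.NlD

/-!
Row 601, section 7: Chapman - Kolmogorov for the cell weights. TASK NlE.
-/

namespace Pool.Agent.W_7d29a1_q

open MeasureTheory ProbabilityTheory Filter Topology Pool.Agent.W_MP_7d29a1_pr
  Pool.Agent.W_7d29a1_h46 Pool.Agent.W_7d29a1_h46u Pool.Agent.W_7d29a1_h3

variable {d : ℕ} {ρ : Measure ℝ} [IsProbabilityMeasure ρ] {β : ℝ}

/-- The position at the time `m`: `V_through`, see the private lemma `BasA_sum` in BasA. Every position is even if `m`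
is even (`Vp_zero`). -/
theorem NlE_sum (η : Env d) (m n : ℕ) (z : Site d) :
    Vp ρ β η (m + n) z ≤ ∑ x ∈ boxF d m, Vp ρ β η m x * Vp ρ β (sh m x η) n (z - x) := by
  classical
  obtain ⟨F, hF⟩ : ∃ F : Site d → Set (Fin (m + n) → Step d),
      ∀ x, F x = {s : Fin (m + n) → Step d | pos s m = x ∧ pos s (m + n) = z} := ⟨_, fun _ => rfl⟩
  have h1 : ∀ x : Site d, Vp ρ β η m x * Vp ρ β (sh m x η) n (z - x) = V ρ β η (F x) := by
    intro x
    rw [hF, V_through η (Nat.le_add_right m n) x z, Nat.add_sub_cancel_left]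
  rw [Finset.sum_congr rfl fun x _ => h1 x]
  unfold Vp V
  rw [← Finset.mul_sum]
  refine mul_le_mul_of_nonneg_left ?_ (Real.exp_pos _).le
  unfold ZT
  rw [Finset.sum_comm]
  refine Finset.sum_le_sum fun s _ => ?_
  have hnn : ∀ x : Site d, (0 : ℝ) ≤ (if s ∈ F x then wgt β 0 η s else 0) := by
    intro x
    split_ifs
    · exact (wgt_pos _ _ _ _).le
    · exact le_rfl
  by_cases hs : s ∈ toP (m + n) z
  · rw [if_pos hs]
    have hx : pos s m ∈ boxF d m := by
      rw [mem_boxF_iff]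
      exact (sn_le_ln _).trans (adm_pos s (Nat.le_add_right m n)).1
    have h2 := Finset.single_le_sum (f := fun x : Site d => if s ∈ F x then wgt β 0 η s else 0)
      (fun x _ => hnn x) hx
    have h3 : s ∈ F (pos s m) := by
      rw [hF]
      exact ⟨rfl, hs⟩
    simp only [if_pos h3] at h2
    exact h2
  · rw [if_neg hs]
    exact Finset.sum_nonneg fun x _ => hnn x

private theorem NlE_cover_sum {ι κ : Type*} [DecidableEq ι] (W : Finset ι)
    (T : Finset κ) (φ : κ → ι) (f : ι → ℝ) (hf : ∀ i, 0 ≤ f i)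
    (h : ∀ i ∈ W, f i ≠ 0 → ∃ k ∈ T, φ k = i) : ∑ i ∈ W, f i ≤ ∑ k ∈ T, f (φ k) := by
  classical
  rw [← Finset.sum_filter_ne_zero W]
  refine le_trans (Finset.sum_le_sum_of_subset_of_nonneg (t := T.image φ) ?_ fun i _ _ => hf i)
    (Finset.sum_image_le_of_nonneg fun i _ => hf i)
  intro i hi
  obtain ⟨hi1, hi2⟩ := Finset.mem_filter.1 hi
  obtain ⟨k, hk, hki⟩ := h i hi1 hi2
  exact Finset.mem_image.2 ⟨k, hk, hki⟩

private theorem NlE_diag {ι : Type*} (T : Finset ι) (f g : ι → ℝ) (hf : ∀ i, 0 ≤ f i)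
    (hg : ∀ i, 0 ≤ g i) : ∑ i ∈ T, f i * g i ≤ (∑ i ∈ T, f i) * ∑ i ∈ T, g i := by
  rw [Finset.sum_mul]
  refine Finset.sum_le_sum fun i hi => mul_le_mul_of_nonneg_left ?_ (hf i)
  exact Finset.single_le_sum (f := g) (fun k _ => hg k) hi

/-- CHAPMAN - KOLMOGOROV for cells. The position `p` at the time `2 s` is even with `sn p ≤ R + 2 s`, so it is in a cell of
index `sn z ≤ B` (`NlD_cover`, `R ≥ 2`), and `∑ a b ≤ (∑ a) (∑ b)`. -/
theorem NlE_ck (j0 : Fin d) {R : ℕ} (hR : Even R) (hR2 : 2 ≤ R) (η : Env d) (s t : ℕ) (z' : Site d) {B : ℕ}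
    (hB : s + 2 ≤ B) : YY ρ β R η (s + t) z' ≤
      ∑ z ∈ boxF d B, YY ρ β R η s z * YY ρ β R (sh (2 * s) ((R : ℤ) • z) η) t (z' - z) := by
  classical
  obtain ⟨F, hF⟩ : ∃ F : Site d → Site d → Site d → ℝ, ∀ x z y', F x z y' =
      Vp ρ β (sh 0 x η) (2 * s) (y' + (R : ℤ) • z - x) := ⟨_, fun _ _ _ => rfl⟩
  obtain ⟨G, hG⟩ : ∃ G : Site d → Site d → Site d → ℝ, ∀ y' z y, G y' z y =
      Vp ρ β (sh (2 * s) (y' + (R : ℤ) • z) η) (2 * t) (y + (R : ℤ) • (z' - z) - y') :=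
    ⟨_, fun _ _ _ => rfl⟩
  have hF0 : ∀ x z y', 0 ≤ F x z y' := fun x z y' => by
    rw [hF]
    exact V_nonneg _ _
  have hG0 : ∀ y' z y, 0 ≤ G y' z y := fun y' z y => by
    rw [hG]
    exact V_nonneg _ _
  -- one pair of points
  have h1 : ∀ x ∈ ofs d R, ∀ y ∈ ofs d R,
      Vp ρ β (sh 0 x η) (2 * (s + t)) (y + (R : ℤ) • z' - x) ≤
        ∑ z ∈ boxF d B, ∑ y' ∈ ofs d R, F x z y' * G y' z y := by
    intro x hx y hy
    obtain ⟨hx1, hx2⟩ := NlD_mem.1 hx
    have h2 := NlE_sum (ρ := ρ) (β := β) (sh 0 x η) (2 * s) (2 * t) (y + (R : ℤ) • z' - x)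
    rw [← mul_add] at h2
    refine h2.trans ?_
    rw [← Finset.sum_product' (f := fun z y' => F x z y' * G y' z y)]
    have h3 := NlE_cover_sum (boxF d (2 * s)) (boxF d B ×ˢ ofs d R)
      (fun k => k.2 + (R : ℤ) • k.1 - x)
      (fun w => Vp ρ β (sh 0 x η) (2 * s) w *
        Vp ρ β (sh (2 * s) w (sh 0 x η)) (2 * t) (y + (R : ℤ) • z' - x - w))
      (fun w => mul_nonneg (V_nonneg _ _) (V_nonneg _ _)) (by
        intro w hw hne
        have h4 : adm (2 * s) w := by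
          by_contra hc
          apply hne
          show Vp ρ β (sh 0 x η) (2 * s) w * _ = 0
          rw [Vp_zero j0 _ hc, zero_mul]
        have h5 : Even (ln w) := by
          have h6 := h4.2
          rw [Nat.even_iff]
          omega
        have h7 : sn w ≤ 2 * s := mem_boxF_iff.1 hw
        obtain ⟨y', hy', z, hz, hz2⟩ := NlD_cover (d := d) hR hR2 (p := x + w) (even_ln_add hx2 h5)
        refine ⟨(z, y'), Finset.mem_product.2 ⟨?_, hy'⟩, ?_⟩
        · rw [mem_boxF_iff]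
          have h8 := sn_add x w
          have h9 : R * sn z ≤ R * (s + 2) := by
            have h10 : 2 * s ≤ R * s := Nat.mul_le_mul_right s hR2
            rw [Nat.mul_add]
            omega
          have h10 : sn z ≤ s + 2 := Nat.le_of_mul_le_mul_left h9 (by omega)
          show sn z ≤ B
          omega
        · show y' + (R : ℤ) • z - x = w
          rw [← hz]
          abel)
    refine h3.trans (le_of_eq (Finset.sum_congr rfl fun k _ => ?_))
    rw [hF, hG]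
    have e1 : sh (2 * s) (k.2 + (R : ℤ) • k.1 - x) (sh 0 x η) =
        sh (2 * s) (k.2 + (R : ℤ) • k.1) η := by
      rw [sh_sh, add_zero, sub_add_cancel]
    have e2 : y + (R : ℤ) • z' - x - (k.2 + (R : ℤ) • k.1 - x) =
        y + (R : ℤ) • (z' - k.1) - k.2 := by
      rw [smul_sub]
      abel
    rw [e1, e2]
  -- the sum
  have h2 : YY ρ β R η (s + t) z' ≤ ∑ x ∈ ofs d R, ∑ y ∈ ofs d R, ∑ z ∈ boxF d B,
      ∑ y' ∈ ofs d R, F x z y' * G y' z y := by
    unfold YY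
    exact Finset.sum_le_sum fun x hx => Finset.sum_le_sum fun y hy => h1 x hx y hy
  refine h2.trans ?_
  have h3 : ∑ x ∈ ofs d R, ∑ y ∈ ofs d R, ∑ z ∈ boxF d B, ∑ y' ∈ ofs d R, F x z y' * G y' z y =
      ∑ z ∈ boxF d B, ∑ y' ∈ ofs d R, (∑ x ∈ ofs d R, F x z y') * ∑ y ∈ ofs d R, G y' z y := by
    have h4 : ∀ x, ∑ y ∈ ofs d R, ∑ z ∈ boxF d B, ∑ y' ∈ ofs d R, F x z y' * G y' z y =
        ∑ z ∈ boxF d B, ∑ y' ∈ ofs d R, F x z y' * ∑ y ∈ ofs d R, G y' z y := by
      intro x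
      rw [Finset.sum_comm]
      refine Finset.sum_congr rfl fun z _ => ?_
      rw [Finset.sum_comm]
      exact Finset.sum_congr rfl fun y' _ => by rw [Finset.mul_sum]
    rw [Finset.sum_congr rfl fun x _ => h4 x, Finset.sum_comm]
    refine Finset.sum_congr rfl fun z _ => ?_
    rw [Finset.sum_comm]
    exact Finset.sum_congr rfl fun y' _ => by rw [Finset.sum_mul]
  rw [h3]
  refine Finset.sum_le_sum fun z _ => ?_
  refine (NlE_diag (ofs d R) (fun y' => ∑ x ∈ ofs d R, F x z y') (fun y' => ∑ y ∈ ofs d R, G y' z y)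
    (fun y' => Finset.sum_nonneg fun x _ => hF0 _ _ _)
    (fun y' => Finset.sum_nonneg fun y _ => hG0 _ _ _)).trans (le_of_eq ?_)
  congr 1
  · unfold YY
    rw [Finset.sum_comm]
    exact Finset.sum_congr rfl fun x _ => Finset.sum_congr rfl fun y' _ => hF x z y'
  · unfold YY
    refine Finset.sum_congr rfl fun y' _ => Finset.sum_congr rfl fun y _ => ?_
    rw [hG, sh_sh, zero_add]

end Pool.Agent.W_7d29a1_q
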