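import Pool.Agent.W_7d29a1_q.NlE

/-!
Row 601, section 7: Chapman - Kolmogorov for the moments. TASK NlF.
-/

namespace Pool.Agent.W_7d29a1_q

open MeasureTheory ProbabilityTheory Filter Topology Pool.Agent.W_MP_7d29a1_pr
  Pool.Agent.W_7d29a1_h46 Pool.Agent.W_7d29a1_h46u Pool.Agent.W_7d29a1_h3

variable {d : ℕ} {ρ : Measure ℝ} [IsProbabilityMeasure ρ] {β : ℝ}

private theorem NlF_rpow_sum {ι : Type*} {γ : ℝ} (hγ : 0 < γ) (hγ1 : γ ≤ 1) (s : Finset ι)
    (a : ι → ℝ) (ha : ∀ i, 0 ≤ a i) : (∑ i ∈ s, a i) ^ γ ≤ ∑ i ∈ s, a i ^ γ := by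
  classical
  induction s using Finset.induction_on with
  | empty => rw [Finset.sum_empty, Finset.sum_empty, Real.zero_rpow hγ.ne']
  | insert i s hi ih =>
    rw [Finset.sum_insert hi, Finset.sum_insert hi]
    refine (Real.rpow_add_le_add_rpow (ha i) (Finset.sum_nonneg fun j _ => ha j) hγ.le hγ1).trans ?_
    linarith

private theorem NlF_int (S : Set (ℕ × Site d)) {F G : Env d → ℝ} (hF : Measurable F)
    (hG : Measurable G) (hFS : DependsOn F S) (hGS : DependsOn G Sᶜ) (hF0 : ∀ η, 0 ≤ F η)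
    (hG0 : ∀ η, 0 ≤ G η) (hFi : Integrable F (law d ρ)) (hGi : Integrable G (law d ρ)) :
    Integrable (fun η => F η * G η) (law d ρ) := by
  have h := integral_indep (ρ := ρ) S hF hG hFS hGS
  by_cases h0 : (∫ η, F η ∂(law d ρ)) * ∫ η, G η ∂(law d ρ) = 0
  · rcases mul_eq_zero.1 h0 with h1 | h1
    · have h2 := (integral_eq_zero_iff_of_nonneg hF0 hFi).1 h1
      refine (integrable_zero _ _ _).congr ?_
      filter_upwards [h2] with η hη
      rw [hη, Pi.zero_apply, zero_mul]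
    · have h2 := (integral_eq_zero_iff_of_nonneg hG0 hGi).1 h1
      refine (integrable_zero _ _ _).congr ?_
      filter_upwards [h2] with η hη
      rw [hη, Pi.zero_apply, mul_zero]
  · by_contra hn
    rw [integral_undef hn] at h
    exact h0 h.symm

/-- `(∑ a)^γ ≤ ∑ a^γ`, independence of the rows `≤ 2 s` and `> 2 s` (`integral_indep`), translation invariance
(`integral_sh`). -/
theorem NlF_mm (j0 : Fin d) (hρ : EM ρ) {R : ℕ} (hR : Even R) (hR2 : 2 ≤ R) {γ : ℝ} (hγ : 0 < γ)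
    (hγ1 : γ ≤ 1) (s t : ℕ) (z' : Site d) {B : ℕ} (hB : s + 2 ≤ B) : mm d ρ β R γ (s + t) z' ≤
      ∑ z ∈ boxF d B, mm d ρ β R γ s z * mm d ρ β R γ t (z' - z) := by
  have hpt : ∀ η : Env d, YY ρ β R η (s + t) z' ^ γ ≤ ∑ z ∈ boxF d B, YY ρ β R η s z ^ γ *
      YY ρ β R (sh (2 * s) ((R : ℤ) • z) η) t (z' - z) ^ γ := by
    intro η
    refine (Real.rpow_le_rpow (NlD_nonneg R η (s + t) z') (NlE_ck j0 hR hR2 η s t z' hB)
      hγ.le).trans ?_
    refine (NlF_rpow_sum hγ hγ1 _ _ fun z => mul_nonneg (NlD_nonneg R η s z)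
      (NlD_nonneg R _ t (z' - z))).trans (le_of_eq ?_)
    exact Finset.sum_congr rfl fun z _ => Real.mul_rpow (NlD_nonneg R η s z)
      (NlD_nonneg R _ t (z' - z))
  have hFm : ∀ z : Site d, Measurable fun η : Env d => YY ρ β R η s z ^ γ := fun z =>
    (NlD_meas R s z).pow_const γ
  have hGm0 : ∀ z : Site d, Measurable fun η : Env d => YY ρ β R η t z ^ γ := fun z =>
    (NlD_meas R t z).pow_const γ
  have hGm : ∀ z : Site d, Measurable fun η : Env d =>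
      YY ρ β R (sh (2 * s) ((R : ℤ) • z) η) t (z' - z) ^ γ := fun z =>
    (hGm0 (z' - z)).comp (measurable_sh (2 * s) ((R : ℤ) • z))
  have hFS : ∀ z : Site d, DependsOn (fun η : Env d => YY ρ β R η s z ^ γ)
      {p : ℕ × Site d | p.1 ≤ 2 * s} := by
    intro z η η' h
    show YY ρ β R η s z ^ γ = YY ρ β R η' s z ^ γ
    have h1 := @NlD_dep d ρ _ β R 0 s 0 z η η' (fun p hp => h p (by
      have h2 : 2 * 0 < p.1 ∧ p.1 ≤ 2 * 0 + 2 * s := hp
      show p.1 ≤ 2 * s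
      omega))
    have h3 : YY ρ β R (sh (2 * 0) 0 η) s z = YY ρ β R (sh (2 * 0) 0 η') s z := h1
    rw [Nat.mul_zero, sh_zero, sh_zero] at h3
    rw [h3]
  have hGS : ∀ z : Site d, DependsOn (fun η : Env d =>
      YY ρ β R (sh (2 * s) ((R : ℤ) • z) η) t (z' - z) ^ γ) {p : ℕ × Site d | p.1 ≤ 2 * s}ᶜ := by
    intro z η η' h
    have h1 := @NlD_dep d ρ _ β R s t ((R : ℤ) • z) (z' - z) η η'
      (fun p hp => h p (by
        have h2 : 2 * s < p.1 ∧ p.1 ≤ 2 * s + 2 * t := hp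
        show ¬ p.1 ≤ 2 * s
        omega))
    have h3 : YY ρ β R (sh (2 * s) ((R : ℤ) • z) η) t (z' - z) =
      YY ρ β R (sh (2 * s) ((R : ℤ) • z) η') t (z' - z) := h1
    show YY ρ β R (sh (2 * s) ((R : ℤ) • z) η) t (z' - z) ^ γ =
      YY ρ β R (sh (2 * s) ((R : ℤ) • z) η') t (z' - z) ^ γ
    rw [h3]
  have hGi : ∀ z : Site d, Integrable (fun η : Env d =>
      YY ρ β R (sh (2 * s) ((R : ℤ) • z) η) t (z' - z) ^ γ) (law d ρ) := fun z =>
    (mp_sh (2 * s) ((R : ℤ) • z)).integrable_comp_of_integrable (NlD_intr hρ R t (z' - z) hγ hγ1)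
  have hint : ∀ z : Site d, Integrable (fun η : Env d => YY ρ β R η s z ^ γ *
      YY ρ β R (sh (2 * s) ((R : ℤ) • z) η) t (z' - z) ^ γ) (law d ρ) := fun z =>
    NlF_int {p : ℕ × Site d | p.1 ≤ 2 * s} (hFm z) (hGm z) (hFS z) (hGS z)
      (fun η => Real.rpow_nonneg (NlD_nonneg R η s z) γ)
      (fun η => Real.rpow_nonneg (NlD_nonneg R _ t (z' - z)) γ) (NlD_intr hρ R s z hγ hγ1) (hGi z)
  unfold mm
  calc ∫ η : Env d, YY ρ β R η (s + t) z' ^ γ ∂(law d ρ)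
      ≤ ∫ η : Env d, ∑ z ∈ boxF d B, YY ρ β R η s z ^ γ *
          YY ρ β R (sh (2 * s) ((R : ℤ) • z) η) t (z' - z) ^ γ ∂(law d ρ) :=
        integral_mono (NlD_intr hρ R (s + t) z' hγ hγ1)
          (integrable_finsetSum _ fun z _ => hint z) hpt
    _ = ∑ z ∈ boxF d B, ∫ η : Env d, YY ρ β R η s z ^ γ *
          YY ρ β R (sh (2 * s) ((R : ℤ) • z) η) t (z' - z) ^ γ ∂(law d ρ) :=
        integral_finsetSum _ fun z _ => hint z
    _ = ∑ z ∈ boxF d B, (∫ η : Env d, YY ρ β R η s z ^ γ ∂(law d ρ)) *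
          ∫ η : Env d, YY ρ β R η t (z' - z) ^ γ ∂(law d ρ) := by
        refine Finset.sum_congr rfl fun z _ => ?_
        rw [integral_indep (ρ := ρ) {p : ℕ × Site d | p.1 ≤ 2 * s} (hFm z) (hGm z) (hFS z) (hGS z)]
        congr 1
        exact integral_sh (ρ := ρ) (2 * s) ((R : ℤ) • z) (hGm0 (z' - z))

end Pool.Agent.W_7d29a1_q
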