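import Pool.Agent.W_7d29a1_q.NlF

/-!
Row 601, (7.4): moments. TASK NlG.
-/

namespace Pool.Agent.W_7d29a1_q

open MeasureTheory ProbabilityTheory Filter Topology Pool.Agent.W_MP_7d29a1_pr
  Pool.Agent.W_7d29a1_h46 Pool.Agent.W_7d29a1_h46u Pool.Agent.W_7d29a1_h3

variable {d : ℕ} {ρ : Measure ℝ} [IsProbabilityMeasure ρ] {β : ℝ}

/-- One piece. `p = y + R z` in `Tail` with `s = 0`; `sn (p - x) ≥ R sn z - 2 R` (`NlD_dist`); at most `(2R+1)^(2d)` pairs. -/
theorem NlG_piece (hρ : EM ρ) {θ γ C r : ℝ} {h R : ℕ} (hT : Tail d ρ β θ γ C r h) (hγ : 0 < γ)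
    (hγ1 : γ ≤ 1) (hθ : 0 ≤ θ) (hR : Even R) (hRr : (R : ℝ) ≤ r) {t : ℕ} (ht : t ≤ h) (z : Site d) :
    mm d ρ β R γ t z ≤ ((2 * (R : ℝ) + 1) ^ (2 * d)) ^ γ * Real.exp (2 * (γ * θ * R)) * C *
      Real.exp (-(γ * θ * R * sn z)) := by
  obtain ⟨L, hLm, -, hL1, hLi, hLC, hL⟩ := hT
  have hpt : ∀ η : Env d, YY ρ β R η t z ^ γ ≤ ((2 * (R : ℝ) + 1) ^ (2 * d)) ^ γ *
      Real.exp (-(θ * (R * sn z - 2 * R)) * γ) * L η := by
    intro η
    have hL0 : 0 ≤ L η := zero_le_one.trans (hL1 η)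
    have hterm : ∀ x ∈ ofs d R, ∀ y ∈ ofs d R, Vp ρ β (sh 0 x η) (2 * t) (y + (R : ℤ) • z - x) ≤
        Real.exp (-(θ * (R * sn z - 2 * R))) * L η ^ γ⁻¹ := by
      intro x hx y hy
      have h1 := hL η 0 t x (y + (R : ℤ) • z) (Nat.zero_le _) ht
        ((Nat.cast_le.2 (NlD_mem.1 hx).1).trans hRr) (NlD_mem.1 hx).2
        (NlD_even hR (NlD_mem.1 hy).2)
      rw [Nat.mul_zero, Nat.sub_zero] at h1
      have hV0 : 0 ≤ Vp ρ β (sh 0 x η) (2 * t) (y + (R : ℤ) • z - x) := V_nonneg _ _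
      have h2 := Real.rpow_le_rpow (Real.rpow_nonneg (mul_nonneg (Real.exp_pos _).le hV0) _) h1
        (inv_nonneg.2 hγ.le)
      rw [Real.rpow_rpow_inv (mul_nonneg (Real.exp_pos _).le hV0) hγ.ne'] at h2
      have h3 : ((R : ℝ) * sn z - 2 * R) ≤ sn (y + (R : ℤ) • z - x) := by
        have h4 := NlD_dist hx hy (z := z)
        have h5 : ((R * sn z : ℕ) : ℝ) ≤ ((sn (y + (R : ℤ) • z - x) + 2 * R : ℕ) : ℝ) :=
          Nat.cast_le.2 h4
        push_cast at h5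
        linarith
      calc Vp ρ β (sh 0 x η) (2 * t) (y + (R : ℤ) • z - x)
          = Real.exp (-(θ * sn (y + (R : ℤ) • z - x))) *
            (Real.exp (θ * sn (y + (R : ℤ) • z - x)) *
              Vp ρ β (sh 0 x η) (2 * t) (y + (R : ℤ) • z - x)) := by
            rw [← mul_assoc, ← Real.exp_add, neg_add_cancel, Real.exp_zero, one_mul]
        _ ≤ Real.exp (-(θ * sn (y + (R : ℤ) • z - x))) * L η ^ γ⁻¹ :=
            mul_le_mul_of_nonneg_left h2 (Real.exp_pos _).le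
        _ ≤ Real.exp (-(θ * (R * sn z - 2 * R))) * L η ^ γ⁻¹ :=
            mul_le_mul_of_nonneg_right (Real.exp_le_exp.2
              (neg_le_neg (mul_le_mul_of_nonneg_left h3 hθ))) (Real.rpow_nonneg hL0 _)
    have hY : YY ρ β R η t z ≤ (2 * (R : ℝ) + 1) ^ (2 * d) *
        (Real.exp (-(θ * (R * sn z - 2 * R))) * L η ^ γ⁻¹) := by
      have h1 : YY ρ β R η t z ≤ ∑ x ∈ ofs d R, ∑ y ∈ ofs d R,
          (Real.exp (-(θ * (R * sn z - 2 * R))) * L η ^ γ⁻¹) := by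
        unfold YY
        exact Finset.sum_le_sum fun x hx => Finset.sum_le_sum fun y hy => hterm x hx y hy
      refine h1.trans ?_
      rw [Finset.sum_const, Finset.sum_const, nsmul_eq_mul, nsmul_eq_mul, ← mul_assoc]
      refine mul_le_mul_of_nonneg_right ?_
        (mul_nonneg (Real.exp_pos _).le (Real.rpow_nonneg hL0 _))
      have h2 : ((ofs d R).card : ℝ) ≤ (2 * (R : ℝ) + 1) ^ d := by
        have h3 : (((ofs d R).card : ℕ) : ℝ) ≤ (((2 * R + 1) ^ d : ℕ) : ℝ) :=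
          Nat.cast_le.2 (NlD_card R)
        push_cast at h3
        exact h3
      calc ((ofs d R).card : ℝ) * (ofs d R).card ≤ (2 * (R : ℝ) + 1) ^ d * (2 * (R : ℝ) + 1) ^ d :=
            mul_le_mul h2 h2 (Nat.cast_nonneg _) (by positivity)
        _ = (2 * (R : ℝ) + 1) ^ (2 * d) := by rw [← pow_add, ← two_mul d]
    have h1 := Real.rpow_le_rpow (NlD_nonneg R η t z) hY hγ.le
    rw [Real.mul_rpow (by positivity) (mul_nonneg (Real.exp_pos _).le (Real.rpow_nonneg hL0 _)),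
      Real.mul_rpow (Real.exp_pos _).le (Real.rpow_nonneg hL0 _),
      Real.rpow_inv_rpow hL0 hγ.ne', ← Real.exp_mul, ← mul_assoc] at h1
    exact h1
  have hint : mm d ρ β R γ t z ≤ ((2 * (R : ℝ) + 1) ^ (2 * d)) ^ γ *
      Real.exp (-(θ * (R * sn z - 2 * R)) * γ) * C := by
    unfold mm
    calc ∫ η : Env d, YY ρ β R η t z ^ γ ∂(law d ρ)
        ≤ ∫ η : Env d, ((2 * (R : ℝ) + 1) ^ (2 * d)) ^ γ *
          Real.exp (-(θ * (R * sn z - 2 * R)) * γ) * L η ∂(law d ρ) :=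
          integral_mono (NlD_intr hρ R t z hγ hγ1) (hLi.const_mul _) hpt
      _ = ((2 * (R : ℝ) + 1) ^ (2 * d)) ^ γ *
          Real.exp (-(θ * (R * sn z - 2 * R)) * γ) * ∫ η : Env d, L η ∂(law d ρ) :=
          integral_const_mul _ _
      _ ≤ ((2 * (R : ℝ) + 1) ^ (2 * d)) ^ γ *
          Real.exp (-(θ * (R * sn z - 2 * R)) * γ) * C :=
          mul_le_mul_of_nonneg_left hLC (by positivity)
  refine hint.trans (le_of_eq ?_)
  rw [show -(θ * ((R : ℝ) * sn z - 2 * R)) * γ = 2 * (γ * θ * R) + -(γ * θ * R * sn z) by ring,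
    Real.exp_add]
  ring

private theorem NlG_one {q : ℝ} (h0 : 0 ≤ q) (h1 : q < 1) (B : ℕ) :
    ∑ k ∈ Finset.Icc (-(B : ℤ)) B, q ^ k.natAbs ≤ 2 / (1 - q) := by
  classical
  have hg : ∑ i ∈ Finset.range (B + 1), q ^ i ≤ 1 / (1 - q) := by
    have h2 : 0 < 1 - q := by linarith
    rw [le_div_iff₀ h2, geom_sum_mul_neg]
    have h3 : 0 ≤ q ^ (B + 1) := pow_nonneg h0 _
    linarith
  have hsub : Finset.Icc (-(B : ℤ)) B ⊆
      (Finset.range (B + 1)).image (fun n : ℕ => (n : ℤ)) ∪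
        (Finset.range (B + 1)).image (fun n : ℕ => -(n : ℤ)) := by
    intro k hk
    rw [Finset.mem_Icc] at hk
    rw [Finset.mem_union, Finset.mem_image, Finset.mem_image]
    rcases le_total 0 k with h | h
    · exact Or.inl ⟨k.natAbs, Finset.mem_range.2 (by omega), by omega⟩
    · exact Or.inr ⟨k.natAbs, Finset.mem_range.2 (by omega), by omega⟩
  have hA : ∑ k ∈ (Finset.range (B + 1)).image (fun n : ℕ => (n : ℤ)), q ^ k.natAbs =
      ∑ i ∈ Finset.range (B + 1), q ^ i := by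
    rw [Finset.sum_image fun a _ b _ h => by simpa using h]
    exact Finset.sum_congr rfl fun i _ => by simp
  have hB : ∑ k ∈ (Finset.range (B + 1)).image (fun n : ℕ => -(n : ℤ)), q ^ k.natAbs =
      ∑ i ∈ Finset.range (B + 1), q ^ i := by
    rw [Finset.sum_image fun a _ b _ h => by simpa using h]
    exact Finset.sum_congr rfl fun i _ => by simp
  have h4 := Finset.sum_le_sum_of_subset_of_nonneg (f := fun k : ℤ => q ^ k.natAbs) hsub
    fun k _ _ => pow_nonneg h0 _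
  have h5 := Finset.sum_union_inter (s₁ := (Finset.range (B + 1)).image (fun n : ℕ => (n : ℤ)))
    (s₂ := (Finset.range (B + 1)).image (fun n : ℕ => -(n : ℤ))) (f := fun k : ℤ => q ^ k.natAbs)
  have h6 : 0 ≤ ∑ k ∈ (Finset.range (B + 1)).image (fun n : ℕ => (n : ℤ)) ∩
      (Finset.range (B + 1)).image (fun n : ℕ => -(n : ℤ)), q ^ k.natAbs :=
    Finset.sum_nonneg fun k _ => pow_nonneg h0 _
  rw [hA, hB] at h5
  have h7 : 2 / (1 - q) = 1 / (1 - q) + 1 / (1 - q) := by ring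
  rw [h7]
  linarith

/-- `∑ exp (- κ |z|) ≤ ((1 + q) / (1 - q)) ^ d`, `q = exp (-κ/d)`, as `d |z|_∞ ≥ |z|_1`. -/
theorem NlG_geo (j0 : Fin d) {κ : ℝ} (hκ : 0 < κ) (B : ℕ) :
    ∑ z ∈ boxF d B, Real.exp (-(κ * sn z)) ≤ (2 / (1 - Real.exp (-(κ / d)))) ^ d := by
  have hd : (0 : ℝ) < d := by exact_mod_cast (Fin.pos j0)
  have hq0 : 0 < Real.exp (-(κ / d)) := Real.exp_pos _
  have hq1 : Real.exp (-(κ / d)) < 1 := by
    rw [← Real.exp_zero]
    exact Real.exp_lt_exp.2 (neg_neg_of_pos (div_pos hκ hd))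
  have h1 : ∀ z : Site d, Real.exp (-(κ * sn z)) ≤
      ∏ j : Fin d, Real.exp (-(κ / d)) ^ (z j).natAbs := by
    intro z
    rw [Finset.prod_pow_eq_pow_sum, ← Real.exp_nat_mul, Real.exp_le_exp]
    have h2 : ((ln z : ℕ) : ℝ) ≤ ((d * sn z : ℕ) : ℝ) := Nat.cast_le.2 (ln_le_sn z)
    have h3 : (((∑ j : Fin d, (z j).natAbs : ℕ)) : ℝ) = (ln z : ℝ) := rfl
    rw [h3]
    push_cast at h2
    have h4 : (ln z : ℝ) * (κ / d) ≤ (d * sn z) * (κ / d) :=
      mul_le_mul_of_nonneg_right h2 (div_nonneg hκ.le hd.le)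
    have h5 : ((d : ℝ) * sn z) * (κ / d) = κ * sn z := by
      field_simp
    rw [h5] at h4
    linarith
  calc ∑ z ∈ boxF d B, Real.exp (-(κ * sn z))
      ≤ ∑ z ∈ boxF d B, ∏ j : Fin d, Real.exp (-(κ / d)) ^ (z j).natAbs :=
        Finset.sum_le_sum fun z _ => h1 z
    _ = ∏ _j : Fin d, ∑ k ∈ Finset.Icc (-(B : ℤ)) B, Real.exp (-(κ / d)) ^ k.natAbs := by
        rw [Finset.prod_univ_sum]
        rfl
    _ ≤ ∏ _j : Fin d, (2 / (1 - Real.exp (-(κ / d)))) :=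
        Finset.prod_le_prod (fun j _ => Finset.sum_nonneg fun k _ => by positivity)
          fun j _ => NlG_one hq0.le hq1 B
    _ = (2 / (1 - Real.exp (-(κ / d)))) ^ d := by
        rw [Finset.prod_const, Finset.card_univ, Fintype.card_fin]

/-- `k` pieces: induction on `j` with `NlF_mm` (first piece of length `n`), `sn z' ≤ sn z + sn (z' - z)`. -/
theorem NlG_iter (j0 : Fin d) (hρ : EM ρ) {R : ℕ} (hR : Even R) (hR2 : 2 ≤ R) {γ κ D G : ℝ}
    (hγ : 0 < γ) (hγ1 : γ ≤ 1) (hκ : 0 ≤ κ) (hD : 0 ≤ D) {n : ℕ}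
    (hpc : ∀ t ≤ n, ∀ z : Site d, mm d ρ β R γ t z ≤ D * Real.exp (-(2 * κ * sn z)))
    (hG : ∀ B : ℕ, ∑ z ∈ boxF d B, Real.exp (-(κ * sn z)) ≤ G) (j : ℕ) {t : ℕ} (ht : t ≤ n)
    (z : Site d) : mm d ρ β R γ (j * n + t) z ≤ (D * G) ^ j * D * Real.exp (-(κ * sn z)) := by
  have hG0 : 0 ≤ G := (Finset.sum_nonneg fun z _ => (Real.exp_pos _).le).trans (hG 0)
  induction j generalizing z with
  | zero =>
    rw [Nat.zero_mul, Nat.zero_add, pow_zero, one_mul]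
    refine (hpc t ht z).trans (mul_le_mul_of_nonneg_left (Real.exp_le_exp.2 ?_) hD)
    have h1 : 0 ≤ κ * sn z := mul_nonneg hκ (Nat.cast_nonneg _)
    linarith
  | succ j ih =>
    have h1 := NlF_mm (ρ := ρ) (β := β) j0 hρ hR hR2 hγ hγ1 n (j * n + t) z (B := n + 2) le_rfl
    rw [show (j + 1) * n + t = n + (j * n + t) by ring]
    refine h1.trans ?_
    have h2 : ∀ z' ∈ boxF d (n + 2), mm d ρ β R γ n z' * mm d ρ β R γ (j * n + t) (z - z') ≤
        (D * G) ^ j * D * D * Real.exp (-(κ * sn z)) * Real.exp (-(κ * sn z')) := by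
      intro z' _
      have h3 := mul_le_mul (hpc n le_rfl z') (ih (z - z')) (NlD_mm_nonneg R γ _ _)
        (mul_nonneg hD (Real.exp_pos _).le)
      refine h3.trans ?_
      have h4 : (sn z : ℝ) ≤ sn z' + sn (z - z') := by
        have h5 := sn_add z' (z - z')
        rw [add_sub_cancel] at h5
        exact_mod_cast h5
      have h6 : Real.exp (-(2 * κ * sn z')) * Real.exp (-(κ * sn (z - z'))) ≤
          Real.exp (-(κ * sn z)) * Real.exp (-(κ * sn z')) := by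
        rw [← Real.exp_add, ← Real.exp_add, Real.exp_le_exp]
        have h7 := mul_le_mul_of_nonneg_left h4 hκ
        nlinarith
      have h8 : 0 ≤ (D * G) ^ j * D * D :=
        mul_nonneg (mul_nonneg (pow_nonneg (mul_nonneg hD hG0) _) hD) hD
      have h9 := mul_le_mul_of_nonneg_left h6 h8
      calc D * Real.exp (-(2 * κ * sn z')) * ((D * G) ^ j * D * Real.exp (-(κ * sn (z - z'))))
          = (D * G) ^ j * D * D *
            (Real.exp (-(2 * κ * sn z')) * Real.exp (-(κ * sn (z - z')))) := by ring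
        _ ≤ (D * G) ^ j * D * D * (Real.exp (-(κ * sn z)) * Real.exp (-(κ * sn z'))) := h9
        _ = (D * G) ^ j * D * D * Real.exp (-(κ * sn z)) * Real.exp (-(κ * sn z')) := by ring
    refine (Finset.sum_le_sum h2).trans ?_
    rw [← Finset.mul_sum]
    have h10 : 0 ≤ (D * G) ^ j * D * D * Real.exp (-(κ * sn z)) :=
      mul_nonneg (mul_nonneg (mul_nonneg (pow_nonneg (mul_nonneg hD hG0) _) hD) hD)
        (Real.exp_pos _).le
    refine (mul_le_mul_of_nonneg_left (hG (n + 2)) h10).trans (le_of_eq ?_)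
    rw [pow_succ]
    ring

end Pool.Agent.W_7d29a1_q
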