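import Pool.Agent.W_7d29a1_q.NuA

/-!
Section 12 of row 601: climbs.
-/

namespace Pool.Agent.W_7d29a1_q

open MeasureTheory ProbabilityTheory Filter Topology Pool.Agent.W_MP_7d29a1_pr
  Pool.Agent.W_7d29a1_h46 Pool.Agent.W_7d29a1_h46u Pool.Agent.W_7d29a1_h3

variable {d : ℕ} {ρ : Measure ℝ} [IsProbabilityMeasure ρ]

private theorem NuB_ln (j0 : Fin d) (k : ℕ) : ln (((k : ℕ) : ℤ) • es j0) = k := by
  classical
  unfold ln es
  rw [Finset.sum_eq_single j0]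
  · simp
  · intro j _ hj
    simp [hj]
  · intro h
    exact absurd (Finset.mem_univ j0) h

private theorem NuB_adm (j0 : Fin d) {n k : ℕ} (hk : k ≤ n) (hn : Even n) (hk2 : Even k) :
    adm n (((k : ℕ) : ℤ) • es j0) := by
  refine ⟨by rw [NuB_ln]; exact hk, ?_⟩
  rw [NuB_ln]
  exact Nat.even_iff.1 (hk2.add hn)

/-- The deterministic part: a climb made of `i` copies. -/
private theorem NuB_det (j0 : Fin d) (hρ : EM ρ) (β : ℝ) {r m i : ℕ} (hmr : m ≤ r) {t : ℝ}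
    (hg : g ρ β (2 * r) (((2 * m : ℕ) : ℤ) • es j0) ≤ 2 * t * m) {s z : ℝ} (hs : 0 ≤ s) (hs1 : s ≤ 1) :
    (law d ρ).real {η : Env d | ¬ Real.exp (-((i : ℝ) * (2 * t * m) + z)) ≤
      Vp ρ β η (i * (2 * r)) (((i * (2 * m) : ℕ) : ℤ) • es j0)} ≤
      Real.exp (Kc β ρ ^ 2 * s ^ 2 * ((i * (2 * r) : ℕ) : ℝ) - s * z) := by
  have hx : adm (2 * r) (((2 * m : ℕ) : ℤ) • es j0) :=
    NuB_adm j0 (by omega) (even_two_mul r) (even_two_mul m)
  have hz : adm (2 * r) (0 : Site d) := by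
    have := NuB_adm (d := d) j0 (n := 2 * r) (k := 0) (Nat.zero_le _) (even_two_mul r) Even.zero
    simpa using this
  have hy : adm (i * (2 * r)) (((i * (2 * m) : ℕ) : ℤ) • es j0) :=
    NuB_adm j0 (Nat.mul_le_mul_left i (by omega)) ((even_two_mul r).mul_left i)
      ((even_two_mul m).mul_left i)
  have hsm : i • (((2 * m : ℕ) : ℤ) • es j0 : Site d) = ((i * (2 * m) : ℕ) : ℤ) • es j0 := by
    rw [← natCast_zsmul, smul_smul]
    push_cast
    rfl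
  have h1 := g_mul j0 hρ β hx hz i i le_rfl
  rw [hsm, sub_self, zero_mul, add_zero] at h1
  have h2 : g ρ β (i * (2 * r)) (((i * (2 * m) : ℕ) : ℤ) • es j0) ≤ (i : ℝ) * (2 * t * m) :=
    h1.trans (mul_le_mul_of_nonneg_left hg (Nat.cast_nonneg i))
  have hne : (toP (i * (2 * r)) (((i * (2 * m) : ℕ) : ℤ) • es j0)).Nonempty := (adm_iff j0).1 hy
  have hup := concE_up (t := s) (z := z) hρ β hne hs hs1
  refine (measureReal_mono ?_).trans hup
  intro η hη hcon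
  apply hη
  refine le_trans (Real.exp_le_exp.2 ?_) hcon
  have h3 : gE ρ β (toP (i * (2 * r)) (((i * (2 * m) : ℕ) : ℤ) • es j0)) ≤ (i : ℝ) * (2 * t * m) := h2
  linarith only [h3]

/-- `r ^ a` beats constants. -/
private theorem NuB_ev {a : ℝ} (ha : 0 < a) (M : ℝ) : ∀ᶠ r : ℕ in atTop, M ≤ (r : ℝ) ^ a :=
  ((tendsto_rpow_atTop ha).comp tendsto_natCast_atTop_atTop).eventually_ge_atTop M

/-- TASK NuB. `cheapQ` with `l = r`, `t = r ^ (-0.45 / K)` (`t^K r = r^0.55 ≥ C r^0.52`): `m ≥ c/2 t^(K-1) r ≥ c/2 r^0.55`.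
`i = r / m + 1` (then `2 r < i * (2 m) ≤ 4 r`), `y = i * (2 m)`, time `i * (2 r) ≤ 4 r^2 / m ≤ 8/c r^1.45 ≤ r^(3/2)`. Mean
cost `≤ i * 2 t m ≤ 4 r t` (`g_mul` with `j = i`, `L = 2 r`, `x = 2 m e_j0`; compare `travel` in `CheapC.lean`), tail by
`concE_up` with `z = r^0.8`, parameter `r^(-0.76)`: probability `≤ exp (Kc^2 r^(-0.02) - r^0.04)`. Total cost
`4 r^(1-0.45/K) + r^0.8 ≤ r^(1-0.4/K)` for large `r` (`K ≥ 3`). -/
theorem climbQ (j0 : Fin d) (hρ : EM ρ) {β K c : ℝ} (hK : 3 ≤ K) (hc : 0 < c) (hp : PL d ρ β K c)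
    {δ : ℝ} (hδ : 0 < δ) : ∀ᶠ r : ℕ in atTop, ∃ y t : ℕ, 2 * r < y ∧ 0 < t ∧
      (t : ℝ) ≤ (r : ℝ) ^ (3 / 2 : ℝ) ∧
      (law d ρ).real {η : Env d | ¬ Real.exp (-((r : ℝ) ^ (1 - 0.4 / K))) ≤
        Vp ρ β η t ((y : ℤ) • es j0)} ≤ δ := by
  obtain ⟨t0, C, ht0, ht01, hC, hch⟩ := cheapQ j0 hρ hc hp
  have hK0 : 0 < K := by linarith only [hK]
  have ha1 : 0 < 0.45 / K := by positivity
  have ha2 : 0 < 0.05 / K := by positivity
  have hKi : 0.4 / K ≤ 0.4 / 3 := div_le_div_of_nonneg_left (by norm_num) (by norm_num) hK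
  have hKi2 : 0.45 / K ≤ 0.45 / 3 := div_le_div_of_nonneg_left (by norm_num) (by norm_num) hK
  have ha3 : 0 < 0.2 - 0.4 / K := by linarith only [hKi]
  filter_upwards [NuB_ev ha1 t0⁻¹, NuB_ev (a := 0.03) (by norm_num) C,
    NuB_ev (a := 0.05) (by norm_num) (8 / c), NuB_ev ha2 8, NuB_ev ha3 2,
    NuB_ev (a := 0.04) (by norm_num) (Kc β ρ ^ 2 * (8 / c) + -Real.log δ),
    eventually_ge_atTop 1] with r h1 h2 h3 h4 h5 h6 hr1
  have hrR : (1 : ℝ) ≤ r := by exact_mod_cast hr1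
  have hr0 : (0 : ℝ) < r := by linarith only [hrR]
  obtain ⟨t, ht⟩ : ∃ t : ℝ, t = (r : ℝ) ^ (-(0.45 / K)) := ⟨_, rfl⟩
  have htp : 0 < t := by
    rw [ht]
    exact Real.rpow_pos_of_pos hr0 _
  have htt0 : t ≤ t0 := by
    rw [ht, Real.rpow_neg hr0.le]
    exact inv_le_of_inv_le₀ ht0 h1
  have htK : t ^ K * r = (r : ℝ) ^ (0.55 : ℝ) := by
    rw [ht, ← Real.rpow_mul hr0.le]
    nth_rewrite 2 [← Real.rpow_one (r : ℝ)]
    rw [← Real.rpow_add hr0]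
    congr 1
    field_simp
    norm_num
  have hcond : C * (r : ℝ) ^ (0.52 : ℝ) ≤ t ^ K * r := by
    rw [htK]
    have e1 : (r : ℝ) ^ (0.55 : ℝ) = (r : ℝ) ^ (0.03 : ℝ) * (r : ℝ) ^ (0.52 : ℝ) := by
      rw [← Real.rpow_add hr0]
      norm_num
    rw [e1]
    exact mul_le_mul_of_nonneg_right h2 (Real.rpow_nonneg hr0.le _)
  obtain ⟨m, hm0, hmr, hmc, hmg⟩ := hch t r htp htt0 hr1 hcond
  have hmR : (0 : ℝ) < m := by exact_mod_cast hm0
  have hmrR : (m : ℝ) ≤ r := by exact_mod_cast hmr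
  -- lower bound for m
  have hm1 : c / 2 * (r : ℝ) ^ (0.55 : ℝ) ≤ m := by
    refine le_trans ?_ hmc
    rw [← htK, mul_assoc (c / 2)]
    refine mul_le_mul_of_nonneg_left ?_ (by positivity)
    refine mul_le_mul_of_nonneg_right ?_ hr0.le
    exact Real.rpow_le_rpow_of_exponent_ge htp (htt0.trans ht01) (by linarith only [])
  -- number of copies
  obtain ⟨i, hi⟩ : ∃ i : ℕ, i = r / m + 1 := ⟨_, rfl⟩
  have hdm := Nat.div_add_mod r m
  have hmod := Nat.mod_lt r hm0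
  have hi1 : r < i * m := by
    have e1 : i * m = m * (r / m) + m := by
      rw [hi]
      ring
    rw [e1]
    omega
  have hi2 : i * m ≤ 2 * r := by
    have e1 : i * m = m * (r / m) + m := by
      rw [hi]
      ring
    rw [e1]
    omega
  have hi0 : 0 < i := by
    rw [hi]
    exact Nat.succ_pos _
  have hi2R : (i : ℝ) * m ≤ 2 * r := by exact_mod_cast hi2
  -- total time
  have htime : ((i * (2 * r) : ℕ) : ℝ) ≤ 8 / c * (r : ℝ) ^ (1.45 : ℝ) := by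
    push_cast
    have e1 : (i : ℝ) * (2 * r) * m ≤ 4 * (r : ℝ) ^ 2 := by
      have := mul_le_mul_of_nonneg_right hi2R (show (0 : ℝ) ≤ 2 * r by positivity)
      nlinarith only [this]
    have e2 : (4 : ℝ) * (r : ℝ) ^ 2 = (8 / c * (r : ℝ) ^ (1.45 : ℝ)) * (c / 2 * (r : ℝ) ^ (0.55 : ℝ)) := by
      have e3 : (r : ℝ) ^ (2 : ℕ) = (r : ℝ) ^ (1.45 : ℝ) * (r : ℝ) ^ (0.55 : ℝ) := by
        rw [← Real.rpow_add hr0, ← Real.rpow_natCast]
        norm_num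
      rw [e3]
      field_simp
      norm_num
    have e4 : (i : ℝ) * (2 * r) * m ≤ (8 / c * (r : ℝ) ^ (1.45 : ℝ)) * m := by
      refine e1.trans (e2.le.trans (mul_le_mul_of_nonneg_left hm1 ?_))
      positivity
    exact le_of_mul_le_mul_right e4 hmR
  refine ⟨i * (2 * m), i * (2 * r), ?_, by positivity, ?_, ?_⟩
  · have e1 : i * (2 * m) = 2 * (i * m) := by ring
    rw [e1]
    omega
  · refine htime.trans ?_
    have e1 : (r : ℝ) ^ (3 / 2 : ℝ) = (r : ℝ) ^ (0.05 : ℝ) * (r : ℝ) ^ (1.45 : ℝ) := by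
      rw [← Real.rpow_add hr0]
      norm_num
    rw [e1]
    exact mul_le_mul_of_nonneg_right h3 (Real.rpow_nonneg hr0.le _)
  · have hs0 : (0 : ℝ) ≤ (r : ℝ) ^ (-0.76 : ℝ) := Real.rpow_nonneg hr0.le _
    have hs1 : (r : ℝ) ^ (-0.76 : ℝ) ≤ 1 := Real.rpow_le_one_of_one_le_of_nonpos hrR (by norm_num)
    have hdet := NuB_det j0 hρ β (i := i) hmr hmg (z := (r : ℝ) ^ (0.8 : ℝ)) hs0 hs1
    -- the cost
    have hcost : (i : ℝ) * (2 * t * m) + (r : ℝ) ^ (0.8 : ℝ) ≤ (r : ℝ) ^ (1 - 0.4 / K) := by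
      have e1 : (i : ℝ) * (2 * t * m) ≤ 4 * (t * r) := by
        have := mul_le_mul_of_nonneg_left hi2R (show (0 : ℝ) ≤ 2 * t by positivity)
        linarith only [this]
      have e2 : (r : ℝ) ^ (1 - 0.4 / K) = (r : ℝ) ^ (0.05 / K) * (t * r) := by
        rw [ht]
        nth_rewrite 4 [← Real.rpow_one (r : ℝ)]
        rw [← Real.rpow_add hr0, ← Real.rpow_add hr0]
        congr 1
        ring
      have e3 : (r : ℝ) ^ (1 - 0.4 / K) = (r : ℝ) ^ (0.2 - 0.4 / K) * (r : ℝ) ^ (0.8 : ℝ) := by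
        rw [← Real.rpow_add hr0]
        congr 1
        ring
      have e4 : 8 * (t * r) ≤ (r : ℝ) ^ (1 - 0.4 / K) := by
        rw [e2]
        exact mul_le_mul_of_nonneg_right h4 (by positivity)
      have e5 : 2 * (r : ℝ) ^ (0.8 : ℝ) ≤ (r : ℝ) ^ (1 - 0.4 / K) := by
        rw [e3]
        exact mul_le_mul_of_nonneg_right h5 (Real.rpow_nonneg hr0.le _)
      linarith only [e1, e4, e5]
    have hmono : (law d ρ).real {η : Env d | ¬ Real.exp (-((r : ℝ) ^ (1 - 0.4 / K))) ≤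
        Vp ρ β η (i * (2 * r)) (((i * (2 * m) : ℕ) : ℤ) • es j0)} ≤
        (law d ρ).real {η : Env d | ¬ Real.exp (-((i : ℝ) * (2 * t * m) + (r : ℝ) ^ (0.8 : ℝ))) ≤
        Vp ρ β η (i * (2 * r)) (((i * (2 * m) : ℕ) : ℤ) • es j0)} := by
      refine measureReal_mono ?_
      intro η hη hcon
      apply hη
      exact le_trans (Real.exp_le_exp.2 (by linarith only [hcost])) hcon
    refine hmono.trans (hdet.trans ?_)
    rw [← Real.exp_log hδ]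
    refine Real.exp_le_exp.2 ?_
    have e6 : Kc β ρ ^ 2 * ((r : ℝ) ^ (-0.76 : ℝ)) ^ 2 * ((i * (2 * r) : ℕ) : ℝ) ≤
        Kc β ρ ^ 2 * (8 / c) := by
      have e7 : ((r : ℝ) ^ (-0.76 : ℝ)) ^ 2 * ((i * (2 * r) : ℕ) : ℝ) ≤ 8 / c := by
        have e8 : ((r : ℝ) ^ (-0.76 : ℝ)) ^ 2 * (8 / c * (r : ℝ) ^ (1.45 : ℝ)) =
            8 / c * (r : ℝ) ^ (-0.07 : ℝ) := by
          have e9 : ((r : ℝ) ^ (-0.76 : ℝ)) ^ 2 * (r : ℝ) ^ (1.45 : ℝ) = (r : ℝ) ^ (-0.07 : ℝ) := by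
            rw [← Real.rpow_natCast, ← Real.rpow_mul hr0.le, ← Real.rpow_add hr0]
            norm_num
          rw [← e9]
          ring
        refine (mul_le_mul_of_nonneg_left htime (sq_nonneg _)).trans ?_
        rw [e8]
        have e10 : (r : ℝ) ^ (-0.07 : ℝ) ≤ 1 := Real.rpow_le_one_of_one_le_of_nonpos hrR (by norm_num)
        calc 8 / c * (r : ℝ) ^ (-0.07 : ℝ) ≤ 8 / c * 1 := mul_le_mul_of_nonneg_left e10 (by positivity)
          _ = 8 / c := mul_one _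
      rw [mul_assoc]
      exact mul_le_mul_of_nonneg_left e7 (sq_nonneg _)
    have e11 : (r : ℝ) ^ (-0.76 : ℝ) * (r : ℝ) ^ (0.8 : ℝ) = (r : ℝ) ^ (0.04 : ℝ) := by
      rw [← Real.rpow_add hr0]
      norm_num
    rw [e11]
    linarith only [e6, h6]

end Pool.Agent.W_7d29a1_q
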