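import Pool.Agent.W_7d29a1_h3.CritB

/-!
Section 12 of row 601: the telescoping of the quantiles.
-/

namespace Pool.Agent.W_7d29a1_q

open MeasureTheory ProbabilityTheory Filter Topology Pool.Agent.W_MP_7d29a1_pr
  Pool.Agent.W_7d29a1_h46 Pool.Agent.W_7d29a1_h46u Pool.Agent.W_7d29a1_h3

variable {d : ℕ} {ρ : Measure ℝ} [IsProbabilityMeasure ρ]

private theorem NuC_ZT (β : ℝ) (η : Env d) {n : ℕ} (E : Set (Fin n → Step d)) :
    ZT β (0 : Vec d) η E = ZE β η n E := by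
  unfold ZT ZE wgt
  refine Finset.sum_congr rfl fun s _ => ?_
  rw [inner_zero_left, zero_add]

private theorem NuC_X (β : ℝ) (η : Env d) (n : ℕ) :
    X β (0 : Vec d) η n = Real.log (ZE β η n Set.univ) := by
  unfold X Z
  rw [NuC_ZT]

/-- Chebyshev. -/
private theorem NuC_dev (j0 : Fin d) (hρ : EM ρ) (β : ℝ) {δ : ℝ} (hδ : 0 < δ) :
    ∃ t : ℝ, 0 < t ∧ ∀ m : ℕ, 1 ≤ m →
      (law d ρ).real {η : Env d | t * Real.sqrt m < |X β (0 : Vec d) η m - A ρ β (0 : Vec d) m|} ≤ δ := by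
  have hd := Fin.pos j0
  obtain ⟨C, hC0, hC⟩ := momU (ρ := ρ) hd hρ β 2
  obtain ⟨t, ht, hCt⟩ : ∃ t : ℝ, 0 < t ∧ C ≤ t ^ 2 * δ := by
    refine ⟨C / δ + 1, by positivity, ?_⟩
    have h1 : 0 ≤ C / δ := by positivity
    have h2 : C / δ ≤ (C / δ + 1) ^ 2 := by nlinarith
    have h3 : C / δ * δ ≤ (C / δ + 1) ^ 2 * δ := mul_le_mul_of_nonneg_right h2 hδ.le
    rwa [div_mul_cancel₀ _ hδ.ne'] at h3
  refine ⟨t, ht, fun m hm => ?_⟩
  have hm0 : (0 : ℝ) < m := by exact_mod_cast hm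
  obtain ⟨h5, h6⟩ := hC (0 : Vec d) m hm
  have e2 : ((m : ℝ)) ^ ((1 / 2 : ℝ) * ((2 : ℕ) : ℝ)) = m := by
    rw [show ((1 / 2 : ℝ) * ((2 : ℕ) : ℝ)) = 1 by norm_num, Real.rpow_one]
  rw [e2] at h6
  have h7 := mul_meas_ge_le_integral_of_nonneg
    (Filter.Eventually.of_forall fun η : Env d => sq_nonneg |X β (0 : Vec d) η m - A ρ β (0 : Vec d) m|) h5
    ((t * Real.sqrt m) ^ 2)
  have hsq : Real.sqrt m ^ 2 = m := Real.sq_sqrt hm0.le
  have hs0 : 0 < Real.sqrt m := Real.sqrt_pos.2 hm0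
  have h8 : (law d ρ).real {η : Env d | t * Real.sqrt m < |X β (0 : Vec d) η m - A ρ β (0 : Vec d) m|} ≤
      (law d ρ).real {η : Env d | (t * Real.sqrt m) ^ 2 ≤ |X β (0 : Vec d) η m - A ρ β (0 : Vec d) m| ^ 2} := by
    refine measureReal_mono fun η hη => ?_
    simp only [Set.mem_ofPred_eq] at hη ⊢
    exact pow_le_pow_left₀ (by positivity) hη.le 2
  refine h8.trans ?_
  have h9 : (t * Real.sqrt m) ^ 2 * (law d ρ).real {η : Env d | (t * Real.sqrt m) ^ 2 ≤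
      |X β (0 : Vec d) η m - A ρ β (0 : Vec d) m| ^ 2} ≤ C * m := h7.trans h6
  have h10 : C * m ≤ (t * Real.sqrt m) ^ 2 * δ := by
    have h11 : C * m ≤ t ^ 2 * δ * m := mul_le_mul_of_nonneg_right hCt hm0.le
    calc C * m ≤ t ^ 2 * δ * m := h11
      _ = t ^ 2 * δ * Real.sqrt m ^ 2 := by rw [hsq]
      _ = (t * Real.sqrt m) ^ 2 * δ := by ring
  exact le_of_mul_le_mul_left (h9.trans h10) (by positivity)

/-- TASK NuC1. The lower quantile is at most `n lam 0 + C √n` (compare `CritB_up`; `momU` with `q = 2`, `A_le_lam`). -/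
theorem quant_up (j0 : Fin d) (hρ : EM ρ) (β : ℝ) {ε : ℝ} (hε : ε ≤ 1 / 4) :
    ∃ C : ℝ, 0 < C ∧ ∀ m : ℕ, 1 ≤ m → ∀ (r : ℕ) (α : ℝ), (good d m r).Nonempty →
      (law d ρ).real {η : Env d | XF β m r η < α} ≤ ε → α ≤ m * lam ρ β (0 : Vec d) + C * Real.sqrt m := by
  obtain ⟨t, ht, hdev⟩ := NuC_dev (ρ := ρ) j0 hρ β (show (0 : ℝ) < 1 / 2 by norm_num)
  refine ⟨t, ht, fun m hm r α hne hα => ?_⟩
  by_contra hcon
  push Not at hcon
  have h1 := hdev m hm
  have hA := A_le_lam (ρ := ρ) (Fin.pos j0) hρ β (0 : Vec d) m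
  have h2 : (Set.univ : Set (Env d)) ⊆ {η : Env d | XF β m r η < α} ∪
      {η : Env d | t * Real.sqrt m < |X β (0 : Vec d) η m - A ρ β (0 : Vec d) m|} := by
    intro η _
    by_cases h3 : XF β m r η < α
    · exact Or.inl h3
    · right
      push Not at h3
      have h4 : XF β m r η ≤ X β (0 : Vec d) η m := by
        rw [NuC_X]
        exact Real.log_le_log (ZE_pos β η m hne) (ZE_mono β η m (Set.subset_univ _))
      rw [Set.mem_ofPred_eq]
      have h5 := le_abs_self (X β (0 : Vec d) η m - A ρ β (0 : Vec d) m)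
      linarith
  have h3 := (measureReal_mono (μ := law d ρ) h2).trans (measureReal_union_le _ _)
  rw [probReal_univ] at h3
  linarith

/-- TASK NuC2. Under confinement the lower quantile is at least `m lam 0 - C m ^ 0.52` (compare `CritB_low`; `momU`,
and `rateU` at `0` as in the proof of `g_zero_le`, `MeanC.lean`). -/
theorem quant_low (j0 : Fin d) (hρ : EM ρ) (β : ℝ) {ε δ : ℝ} (hδ : δ < ε) :
    ∃ C : ℝ, 0 < C ∧ ∀ m : ℕ, 1 ≤ m → ∀ (r : ℕ) (R α : ℝ), R ≤ r →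
      (law d ρ).real {η : Env d | ¬ (1 / 2 ≤ Pol β η m (inBall d m R))} ≤ δ →
      ε ≤ (law d ρ).real {η : Env d | XF β m r η ≤ α} →
      m * lam ρ β (0 : Vec d) - C * (m : ℝ) ^ (0.52 : ℝ) ≤ α := by
  have hd := Fin.pos j0
  obtain ⟨t, ht, hdev⟩ := NuC_dev (ρ := ρ) j0 hρ β (show (0 : ℝ) < (ε - δ) / 2 by linarith)
  obtain ⟨δ1, hδ1, C1, hC1, hrate⟩ := rateU hd hρ (β := β) (h := (0 : Vec d)) (x := 1 / 2)
    (by norm_num) (Fl_half hd hρ β 0) (ε := 1 / 100) (by norm_num) (by norm_num)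
  refine ⟨C1 + t + 1, by linarith, fun m hm r R α hR hP hα => ?_⟩
  by_contra hcon
  push Not at hcon
  have hm1 : (1 : ℝ) ≤ m := by exact_mod_cast hm
  have hp1 : (1 : ℝ) ≤ (m : ℝ) ^ (0.52 : ℝ) := Real.one_le_rpow hm1 (by norm_num)
  have h5 := hrate 0 (by rw [sub_self, norm_zero]; exact hδ1) m hm
  have h6 : (m : ℝ) ^ ((1 : ℝ) / 2 + 1 / 100) ≤ (m : ℝ) ^ (0.52 : ℝ) :=
    Real.rpow_le_rpow_of_exponent_le hm1 (by norm_num)
  have h7 : Real.sqrt m ≤ (m : ℝ) ^ (0.52 : ℝ) := by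
    rw [Real.sqrt_eq_rpow]
    exact Real.rpow_le_rpow_of_exponent_le hm1 (by norm_num)
  have h8 := mul_le_mul_of_nonneg_left h6 hC1
  have h9 := mul_le_mul_of_nonneg_left h7 ht.le
  have hlog : Real.log 2 ≤ 1 := by
    have := Real.log_two_lt_d9
    linarith
  have h1 := hdev m hm
  have h2 : {η : Env d | XF β m r η ≤ α} ⊆ {η : Env d | ¬ (1 / 2 ≤ Pol β η m (inBall d m R))} ∪
      {η : Env d | t * Real.sqrt m < |X β (0 : Vec d) η m - A ρ β (0 : Vec d) m|} := by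
    intro η hη
    by_cases h3 : 1 / 2 ≤ Pol β η m (inBall d m R)
    · right
      have hη : XF β m r η ≤ α := hη
      have h4 := half_le_of_Pol hd hR h3
      have h5' : X β (0 : Vec d) η m - Real.log 2 ≤ XF β m r η := by
        rw [NuC_X]
        unfold XF
        have h6' := Real.log_le_log (mul_pos (by norm_num) (ZE_univ_pos hd β η m)) h4
        rw [Real.log_mul (by norm_num) (ZE_univ_pos hd β η m).ne', one_div, Real.log_inv] at h6'
        linarith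
      rw [Set.mem_ofPred_eq]
      have h7' := neg_abs_le (X β (0 : Vec d) η m - A ρ β (0 : Vec d) m)
      have h10 : (C1 + t + 1) * (m : ℝ) ^ (0.52 : ℝ) =
          C1 * (m : ℝ) ^ (0.52 : ℝ) + t * (m : ℝ) ^ (0.52 : ℝ) + (m : ℝ) ^ (0.52 : ℝ) := by ring
      rw [h10] at hcon
      linarith
    · exact Or.inl h3
  have h3 := (measureReal_mono (μ := law d ρ) h2).trans (measureReal_union_le _ _)
  linarith

end Pool.Agent.W_7d29a1_q
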