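import Pool.Agent.W_7d29a1_q.NuC

/-!
Section 12 of row 601: the telescoping of the quantiles.
-/

namespace Pool.Agent.W_7d29a1_q

open MeasureTheory ProbabilityTheory Filter Topology Pool.Agent.W_MP_7d29a1_pr
  Pool.Agent.W_7d29a1_h46 Pool.Agent.W_7d29a1_h46u Pool.Agent.W_7d29a1_h3

variable {d : ℕ} {ρ : Measure ℝ} [IsProbabilityMeasure ρ]

omit [IsProbabilityMeasure ρ] in
private theorem NuD_ZT (β : ℝ) (η : Env d) {n : ℕ} (E : Set (Fin n → Step d)) :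
    ZT β (0 : Vec d) η E = ZE β η n E := by
  unfold ZT ZE wgt
  refine Finset.sum_congr rfl fun s _ => ?_
  rw [inner_zero_left, zero_add]

omit [IsProbabilityMeasure ρ] in
private theorem NuD_V (β : ℝ) (η : Env d) {m r : ℕ} (hne : (good d m r).Nonempty) :
    V ρ β η (good d m r) = Real.exp (XF β m r η - m * lam ρ β (0 : Vec d)) := by
  unfold V XF
  rw [NuD_ZT, sub_eq_add_neg, Real.exp_add, Real.exp_log (ZE_pos β η m hne), mul_comm]

/-- The radius tends to infinity. -/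
private theorem NuD_tend {a : ℝ} (ha : 0 < a) :
    Tendsto (fun n : ℕ => ⌈(2 * (n : ℝ)) ^ a⌉₊) atTop atTop := by
  have h1 : Tendsto (fun n : ℕ => (n : ℝ) ^ a) atTop atTop :=
    (tendsto_rpow_atTop ha).comp (tendsto_natCast_atTop_atTop (R := ℝ))
  refine tendsto_atTop.2 fun b => ?_
  filter_upwards [h1.eventually_ge_atTop (b : ℝ)] with n hn
  have h2 : (n : ℝ) ^ a ≤ (2 * (n : ℝ)) ^ a :=
    Real.rpow_le_rpow (Nat.cast_nonneg n) (by linarith [(Nat.cast_nonneg n : (0 : ℝ) ≤ n)]) ha.le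
  have h3 : (b : ℝ) ≤ (⌈(2 * (n : ℝ)) ^ a⌉₊ : ℝ) := hn.trans (h2.trans (Nat.le_ceil _))
  exact_mod_cast h3

/-- TASK NuD. Copy of the proof of `crit` (`W_7d29a1_h3/CritB.lean`; copy its private lemmas `CritB_ZT`, `CritB_V`) with
`r = ⌈(2 n)^a⌉`. For `n ≤ m ≤ 2 n`: `γ_m - α_m ≥ F := c √n / √((2 r + 1)^d)`, and `F ≥ 2 (r^(1-γ) + log 2)` for large `n`
because `a (d + 2 - 2 γ) < 1`. The climb comes from `hcl` (with the radius `r`), `crit_step`:
`α_(t+m) - (t+m) lam ≥ α_m - m lam + F / 2`, `j = n / t` times; `quant_low` at `n`, `quant_up` at `n + J t`: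
`J F / 2 ≤ C n^0.52`, `J ≥ n / (2 t)`, `t ≤ r^(3/2)`, `F ≥ r^(1/2)`: `n / (4 r) ≤ C n^0.52`, but `r ≤ 4 n^a`, `a < 0.4`. -/
theorem nu_tel (j0 : Fin d) (hρ : EM ρ) (hnc : ∀ c : ℝ, ρ {c} ≠ 1) {β : ℝ} (hβ : 0 < β) {γ : ℝ}
    (hγ0 : 0 < γ) (hγ1 : γ ≤ 1 / 4)
    (hcl : ∀ δ : ℝ, 0 < δ → ∀ᶠ r : ℕ in atTop, ∃ y t : ℕ, 2 * r < y ∧ 0 < t ∧
      (t : ℝ) ≤ (r : ℝ) ^ (3 / 2 : ℝ) ∧
      (law d ρ).real {η : Env d | ¬ Real.exp (-((r : ℝ) ^ (1 - γ))) ≤
        Vp ρ β η t ((y : ℤ) • es j0)} ≤ δ)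
    {a : ℝ} (ha : 0 < a) (ha1 : a * ((d : ℝ) + 2 - 2 * γ) < 1) :
    ∫ η, liminf (fun n : ℕ => Pol β η n (inBall d n ((n : ℝ) ^ a))) atTop ∂(law d ρ) < 1 := by
  by_contra hcon
  push Not at hcon
  have hd := Fin.pos j0
  have hd1 : (1 : ℝ) ≤ d := by exact_mod_cast hd
  have ha4 : a < 0.4 := by
    by_contra h
    push Not at h
    have h1 : (2.5 : ℝ) ≤ (d : ℝ) + 2 - 2 * γ := by linarith
    have h2 : (0.4 : ℝ) * 2.5 ≤ a * ((d : ℝ) + 2 - 2 * γ) :=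
      mul_le_mul h h1 (by norm_num) (by linarith)
    linarith
  have hu0 : ∀ (n : ℕ) (η : Env d), 0 ≤ Pol β η n (inBall d n ((n : ℝ) ^ a)) :=
    fun n η => Pol_nonneg _ _ _ _
  have hu1 : ∀ (n : ℕ) (η : Env d), Pol β η n (inBall d n ((n : ℝ) ^ a)) ≤ 1 :=
    fun n η => Pol_le_one _ _ _ _
  have hI : ∫ η, liminf (fun n : ℕ => Pol β η n (inBall d n ((n : ℝ) ^ a))) atTop ∂(law d ρ) = 1 := by
    refine le_antisymm ?_ hcon
    have h1 : ∀ η : Env d, 0 ≤ liminf (fun n : ℕ => Pol β η n (inBall d n ((n : ℝ) ^ a))) atTop := by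
      intro η
      refine le_liminf_of_le ?_ (Filter.Eventually.of_forall fun n => hu0 n η)
      exact (isBoundedUnder_of ⟨1, fun n => hu1 n η⟩).isCoboundedUnder_ge
    have h2 : ∀ η : Env d, liminf (fun n : ℕ => Pol β η n (inBall d n ((n : ℝ) ^ a))) atTop ≤ 1 :=
      fun η => liminf_le_one (fun n => hu0 n η) (fun n => hu1 n η)
    have h3 := integral_mono_of_nonneg (μ := law d ρ) (Filter.Eventually.of_forall h1)
      (integrable_const (1 : ℝ)) (Filter.Eventually.of_forall h2)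
    refine h3.trans (le_of_eq ?_)
    simp
  obtain ⟨ε₀, hε₀, c, hc, hf⟩ := fluct_box d ρ hnc β hβ (hρ β)
  obtain ⟨ε, hεdef⟩ : ∃ ε : ℝ, ε = min (ε₀ / 2) (1 / 4) := ⟨_, rfl⟩
  have hε : 0 < ε := by
    rw [hεdef]
    exact lt_min (by linarith) (by norm_num)
  have hε4 : ε ≤ 1 / 4 := by
    rw [hεdef]
    exact min_le_right _ _
  have hε2 : 2 * ε ≤ ε₀ := by
    have := min_le_left (ε₀ / 2) (1 / 4)
    rw [← hεdef] at this
    linarith
  have hε1 : ε < 1 := by linarith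
  obtain ⟨δ, hδdef⟩ : ∃ δ : ℝ, δ = ε ^ 2 / 4 := ⟨_, rfl⟩
  have hδ : 0 < δ := by
    rw [hδdef]
    positivity
  have hδ2 : 2 * δ < ε ^ 2 := by
    rw [hδdef]
    nlinarith
  have hδ1 : δ < ε := by
    rw [hδdef]
    nlinarith
  obtain ⟨n0, hn0⟩ := exists_bad_small
    (u := fun n (η : Env d) => Pol β η n (inBall d n ((n : ℝ) ^ a)))
    (fun n => measurable_Pol β n _) (fun n η => hu0 n η) (fun n η => hu1 n η) hI hδ
  obtain ⟨Cu, hCu, hup⟩ := quant_up (ρ := ρ) j0 hρ β hε4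
  obtain ⟨Cl, hCl, hlow⟩ := quant_low (ρ := ρ) j0 hρ β hδ1
  have hBd : 0 < Real.sqrt ((7 : ℝ) ^ d) := Real.sqrt_pos.2 (by positivity)
  obtain ⟨c', hc'⟩ : ∃ c' : ℝ, c' = c / Real.sqrt ((7 : ℝ) ^ d) := ⟨_, rfl⟩
  have hc'0 : 0 < c' := by
    rw [hc']
    positivity
  -- exponents
  obtain ⟨b, hb⟩ : ∃ b : ℝ, b = (1 - a * d) / 2 := ⟨_, rfl⟩
  obtain ⟨e, he⟩ : ∃ e : ℝ, e = b - a * (1 - γ) := ⟨_, rfl⟩
  have he0 : 0 < e := by
    rw [he, hb]
    linarith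
  obtain ⟨C, hC⟩ : ∃ C : ℝ, C = 2 * Cu + Cl := ⟨_, rfl⟩
  have hC0 : 0 < C := by
    rw [hC]
    linarith
  have hpow : ∀ {s : ℝ}, 0 < s → Tendsto (fun n : ℕ => (n : ℝ) ^ s) atTop atTop := fun hs =>
    (tendsto_rpow_atTop hs).comp (tendsto_natCast_atTop_atTop (R := ℝ))
  obtain ⟨n, ⟨⟨hx1, hx2⟩, hx3⟩, ⟨hnn0, hn1⟩, hclr⟩ :=
    ((((hpow he0).eventually_ge_atTop (8 / c')).and
      ((hpow (show (0 : ℝ) < 0.4 by norm_num)).eventually_ge_atTop 9)).and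
        ((hpow (show (0 : ℝ) < 0.08 by norm_num)).eventually_ge_atTop (12 * C + 1))).and
      (((eventually_ge_atTop n0).and (eventually_ge_atTop 1)).and
        ((NuD_tend ha).eventually (hcl δ hδ))) |>.exists
  have hn1' : (1 : ℝ) ≤ n := by exact_mod_cast hn1
  have hnpos : (0 : ℝ) < n := by linarith
  have hx0 : 1 ≤ (n : ℝ) ^ a := Real.one_le_rpow hn1' ha.le
  have h2n : (2 * (n : ℝ)) ^ a ≤ 2 * (n : ℝ) ^ a := by
    rw [Real.mul_rpow (by norm_num) (Nat.cast_nonneg n)]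
    refine mul_le_mul_of_nonneg_right ?_ (by positivity)
    calc (2 : ℝ) ^ a ≤ (2 : ℝ) ^ (1 : ℝ) :=
          Real.rpow_le_rpow_of_exponent_le (by norm_num) (by linarith)
      _ = 2 := Real.rpow_one 2
  obtain ⟨r, hr⟩ : ∃ r : ℕ, r = ⌈(2 * (n : ℝ)) ^ a⌉₊ := ⟨_, rfl⟩
  rw [← hr] at hclr
  have hr0 : (2 * (n : ℝ)) ^ a ≤ r := by
    rw [hr]
    exact Nat.le_ceil _
  have hR : ∀ N : ℕ, N ≤ 2 * n → (N : ℝ) ^ a ≤ r := by
    intro N hN
    have hN' : (N : ℝ) ≤ 2 * n := by exact_mod_cast hN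
    exact (Real.rpow_le_rpow (Nat.cast_nonneg _) hN' ha.le).trans hr0
  have hr1 : (1 : ℝ) ≤ r := by
    have h1 : (n : ℝ) ^ a ≤ r := hR n (by omega)
    linarith
  have hrpos : (0 : ℝ) < r := by linarith
  have hr3 : (r : ℝ) ≤ 3 * (n : ℝ) ^ a := by
    have e1 : (r : ℝ) < (2 * (n : ℝ)) ^ a + 1 := by
      rw [hr]
      exact Nat.ceil_lt_add_one (by positivity)
    linarith
  have hrB : 2 * (r : ℝ) + 1 ≤ 7 * (n : ℝ) ^ a := by linarith
  -- the climb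
  obtain ⟨y, t, hy, ht0, ht1, hclimb⟩ := hclr
  have ht0' : (0 : ℝ) < t := by exact_mod_cast ht0
  have ht2 : t ≤ n := by
    have e1 : (t : ℝ) ≤ n := by
      have e2 : (r : ℝ) ^ (3 / 2 : ℝ) ≤ (3 * (n : ℝ) ^ a) ^ (3 / 2 : ℝ) :=
        Real.rpow_le_rpow hrpos.le hr3 (by norm_num)
      have e3 : (3 * (n : ℝ) ^ a) ^ (3 / 2 : ℝ) = (3 : ℝ) ^ (3 / 2 : ℝ) * (n : ℝ) ^ (a * (3 / 2)) := by
        rw [Real.mul_rpow (by norm_num) (by positivity), ← Real.rpow_mul hnpos.le]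
      have e4 : (3 : ℝ) ^ (3 / 2 : ℝ) ≤ 9 := by
        calc (3 : ℝ) ^ (3 / 2 : ℝ) ≤ (3 : ℝ) ^ (2 : ℝ) :=
              Real.rpow_le_rpow_of_exponent_le (by norm_num) (by norm_num)
          _ = 9 := by norm_num
      have e5 : (n : ℝ) ^ (a * (3 / 2)) ≤ (n : ℝ) ^ (0.6 : ℝ) :=
        Real.rpow_le_rpow_of_exponent_le hn1' (by linarith)
      have e6 : (n : ℝ) = (n : ℝ) ^ (0.4 : ℝ) * (n : ℝ) ^ (0.6 : ℝ) := by
        rw [← Real.rpow_add hnpos]
        norm_num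
      have e7 : (3 : ℝ) ^ (3 / 2 : ℝ) * (n : ℝ) ^ (a * (3 / 2)) ≤
          (n : ℝ) ^ (0.4 : ℝ) * (n : ℝ) ^ (0.6 : ℝ) :=
        mul_le_mul (e4.trans hx2) e5 (by positivity) (by positivity)
      rw [← e6] at e7
      linarith
    exact_mod_cast e1
  -- the fluctuation
  obtain ⟨F, hF⟩ : ∃ F : ℝ, F = c' * (n : ℝ) ^ b := ⟨_, rfl⟩
  have hFu : 2 * ((r : ℝ) ^ (1 - γ) + Real.log 2) ≤ F := by
    have e1 : (r : ℝ) ^ (1 - γ) ≤ (3 * (n : ℝ) ^ a) ^ (1 - γ) :=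
      Real.rpow_le_rpow hrpos.le hr3 (by linarith)
    have e2 : (3 * (n : ℝ) ^ a) ^ (1 - γ) = (3 : ℝ) ^ (1 - γ) * (n : ℝ) ^ (a * (1 - γ)) := by
      rw [Real.mul_rpow (by norm_num) (by positivity), ← Real.rpow_mul hnpos.le]
    have e3 : (3 : ℝ) ^ (1 - γ) ≤ 3 := by
      calc (3 : ℝ) ^ (1 - γ) ≤ (3 : ℝ) ^ (1 : ℝ) :=
            Real.rpow_le_rpow_of_exponent_le (by norm_num) (by linarith)
        _ = 3 := Real.rpow_one 3
    obtain ⟨Y, hY⟩ : ∃ Y : ℝ, Y = (n : ℝ) ^ (a * (1 - γ)) := ⟨_, rfl⟩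
    have hY1 : 1 ≤ Y := by
      rw [hY]
      exact Real.one_le_rpow hn1' (mul_nonneg ha.le (by linarith))
    have e4 : (n : ℝ) ^ b = (n : ℝ) ^ e * Y := by
      rw [hY, ← Real.rpow_add hnpos]
      congr 1
      rw [he]
      ring
    have e5 : 8 ≤ c' * (n : ℝ) ^ e := by
      rw [div_le_iff₀ hc'0] at hx1
      linarith
    have e6 : Real.log 2 ≤ 1 := by
      have := Real.log_two_lt_d9
      linarith
    rw [e2, ← hY] at e1
    have e7 : (3 : ℝ) ^ (1 - γ) * Y ≤ 3 * Y := mul_le_mul_of_nonneg_right e3 (by linarith)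
    have e8 : 8 * Y ≤ (c' * (n : ℝ) ^ e) * Y := mul_le_mul_of_nonneg_right e5 (by linarith)
    have e9 : F = (c' * (n : ℝ) ^ e) * Y := by
      rw [hF, e4]
      ring
    rw [e9]
    linarith
  have hFr : (r : ℝ) ^ (1 / 2 : ℝ) ≤ F := by
    have e1 : (r : ℝ) ^ (1 / 2 : ℝ) ≤ (r : ℝ) ^ (1 - γ) :=
      Real.rpow_le_rpow_of_exponent_le hr1 (by linarith)
    have e2 : 0 ≤ Real.log 2 := Real.log_nonneg (by norm_num)
    have e3 : 0 ≤ (r : ℝ) ^ (1 - γ) := by positivity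
    linarith
  -- quantiles
  have hPol : ∀ N : ℕ, n ≤ N → (law d ρ).real {η : Env d | ¬ (1 / 2 ≤ Pol β η N
      (inBall d N ((N : ℝ) ^ a)))} ≤ δ := fun N hN => hn0 N (hnn0.trans hN)
  have hne : ∀ N : ℕ, n ≤ N → N ≤ 2 * n → (good d N r).Nonempty := by
    intro N hN hN2
    have hex : ∃ η : Env d, 1 / 2 ≤ Pol β η N (inBall d N ((N : ℝ) ^ a)) := by
      by_contra hno
      push Not at hno
      have h1 : {η : Env d | ¬ (1 / 2 ≤ Pol β η N (inBall d N ((N : ℝ) ^ a)))} = Set.univ := by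
        ext x
        simp only [Set.mem_univ, iff_true]
        exact not_le.2 (hno x)
      have h2 := hPol N hN
      rw [h1, probReal_univ] at h2
      nlinarith
    obtain ⟨η, hη⟩ := hex
    exact good_nonempty_of_Pol hd (hR N hN2) hη
  have hXm : ∀ m : ℕ, Measurable fun η : Env d => XF β m r η := fun m => measurable_XF β m r
  choose αf hα1 hα2 using fun m : ℕ => exists_lower_quantile (law d ρ) (hXm m) hε hε1
  choose γf hγ1 hγ2 using fun m : ℕ => exists_upper_quantile (law d ρ) (hXm m) hε hε1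
  have fact1 : ∀ m : ℕ, n ≤ m → m ≤ 2 * n → F ≤ γf m - αf m := by
    intro m hm hm2
    have hm1 : (1 : ℝ) ≤ m := by exact_mod_cast hn1.trans hm
    have hbad : (law d ρ) {η : Env d | XF β m r (fun p => η p) ∉ Set.Icc (αf m) (γf m)} ≤
        ENNReal.ofReal ε₀ := by
      rw [ENNReal.le_ofReal_iff_toReal_le (measure_ne_top _ _) hε₀.le]
      have hsub : {η : Env d | XF β m r (fun p => η p) ∉ Set.Icc (αf m) (γf m)} ⊆
          {η : Env d | XF β m r η < αf m} ∪ {η : Env d | γf m < XF β m r η} := by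
        intro x hx
        have hx : ¬ (αf m ≤ XF β m r x ∧ XF β m r x ≤ γf m) := hx
        rw [not_and_or, not_le, not_le] at hx
        exact hx
      have h1 := (measureReal_mono (μ := law d ρ) hsub).trans (measureReal_union_le _ _)
      have h2 := hα1 m
      have h3 := hγ1 m
      change (law d ρ).real _ ≤ ε₀
      linarith
    have h1 := (FreeV_iid (d := d) (ρ := ρ)).fluct_of hf (hne m hm hm2) (αf m) (γf m) hbad
    rw [Real.sqrt_mul (Nat.cast_nonneg m)] at h1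
    have hsm : 0 < Real.sqrt m := Real.sqrt_pos.2 (by linarith)
    have h2 : Real.sqrt m * Real.sqrt m = m := Real.mul_self_sqrt (by linarith)
    obtain ⟨Kd, hKd⟩ : ∃ Kd : ℝ, Kd = Real.sqrt ((2 * (r : ℝ) + 1) ^ d) := ⟨_, rfl⟩
    rw [← hKd] at h1
    have h3 : Real.sqrt m * (c * Real.sqrt m) ≤ Real.sqrt m * ((γf m - αf m) * Kd) := by
      calc Real.sqrt m * (c * Real.sqrt m) = c * (Real.sqrt m * Real.sqrt m) := by ring
        _ = c * m := by rw [h2]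
        _ ≤ (γf m - αf m) * (Real.sqrt m * Kd) := h1
        _ = _ := by ring
    have h4 := le_of_mul_le_mul_left h3 hsm
    have h5 : Real.sqrt n ≤ Real.sqrt m := Real.sqrt_le_sqrt (by exact_mod_cast hm)
    have h6 : c * Real.sqrt n ≤ (γf m - αf m) * Kd := (mul_le_mul_of_nonneg_left h5 hc.le).trans h4
    have hKd0 : 0 < Kd := by
      rw [hKd]
      exact Real.sqrt_pos.2 (by positivity)
    obtain ⟨X, hX⟩ : ∃ X : ℝ, X = (n : ℝ) ^ (a * d / 2) := ⟨_, rfl⟩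
    have hX0 : 0 < X := by
      rw [hX]
      positivity
    have hXd : Real.sqrt (((n : ℝ) ^ a) ^ d) = X := by
      rw [hX, ← Real.rpow_natCast, ← Real.rpow_mul hnpos.le, Real.sqrt_eq_rpow,
        ← Real.rpow_mul hnpos.le]
      congr 1
      ring
    have h7 : Kd ≤ Real.sqrt ((7 : ℝ) ^ d) * X := by
      rw [← hXd, hKd, ← Real.sqrt_mul (by positivity), ← mul_pow]
      exact Real.sqrt_le_sqrt (pow_le_pow_left₀ (by positivity) hrB d)
    have h8 : Real.sqrt n = X * (n : ℝ) ^ b := by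
      rw [hX, ← Real.rpow_add hnpos, Real.sqrt_eq_rpow]
      congr 1
      rw [hb]
      ring
    have h9 : 0 ≤ γf m - αf m := by
      by_contra hneg
      push Not at hneg
      have e1 : (γf m - αf m) * Kd < 0 := mul_neg_of_neg_of_pos hneg hKd0
      have e2 : 0 ≤ c * Real.sqrt n := mul_nonneg hc.le (Real.sqrt_nonneg _)
      linarith
    have h10 : c * (X * (n : ℝ) ^ b) ≤ (γf m - αf m) * (Real.sqrt ((7 : ℝ) ^ d) * X) := by
      rw [← h8]
      exact h6.trans (mul_le_mul_of_nonneg_left h7 h9)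
    have h11 : X * (c * (n : ℝ) ^ b) ≤ X * ((γf m - αf m) * Real.sqrt ((7 : ℝ) ^ d)) := by
      linarith
    have h12 := le_of_mul_le_mul_left h11 hX0
    rw [hF, hc', div_mul_eq_mul_div, div_le_iff₀ hBd]
    exact h12
  have fact2 : ∀ m : ℕ, n ≤ m → t + m ≤ 2 * n →
      (αf m - m * lam ρ β (0 : Vec d)) + F / 2 ≤
        αf (t + m) - ((t + m : ℕ) : ℝ) * lam ρ β (0 : Vec d) := by
    intro m hm hm2
    have h1 := fact1 m hm (by omega)
    have hα' : ε ≤ (law d ρ).real {η : Env d | V ρ β η (good d (t + m) r) ≤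
        Real.exp (αf (t + m) - ((t + m : ℕ) : ℝ) * lam ρ β (0 : Vec d))} := by
      refine (hα2 (t + m)).trans (measureReal_mono fun η hη => ?_)
      rw [Set.mem_ofPred_eq, NuD_V β η (hne (t + m) (by omega) hm2)]
      have hη : XF β (t + m) r η ≤ αf (t + m) := hη
      exact Real.exp_le_exp.2 (by linarith)
    have hγ' : ε ≤ (law d ρ).real {η : Env d | Real.exp (γf m - m * lam ρ β (0 : Vec d)) ≤
        V ρ β η (good d m r)} := by
      refine (hγ2 m).trans (measureReal_mono fun η hη => ?_)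
      rw [Set.mem_ofPred_eq, NuD_V β η (hne m hm (by omega))]
      have hη : γf m ≤ XF β m r η := hη
      exact Real.exp_le_exp.2 (by linarith)
    have h2 := crit_step (ρ := ρ) j0 β (t := t) (m := m) (r := r) (y := y) hy (hR (t + m) hm2) hε hδ2
      (hPol (t + m) (by omega)) hclimb hα' hγ'
    linarith
  have hind : ∀ j : ℕ, n + j * t ≤ 2 * n →
      (αf n - n * lam ρ β (0 : Vec d)) + j * (F / 2) ≤
        αf (n + j * t) - ((n + j * t : ℕ) : ℝ) * lam ρ β (0 : Vec d) := by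
    intro j
    induction j with
    | zero => intro _; simp
    | succ j ih =>
      intro hj
      have e1 : n + (j + 1) * t = t + (n + j * t) := by ring
      rw [e1] at hj ⊢
      have h1 := ih (by omega)
      have h2 := fact2 (n + j * t) (by omega) hj
      push_cast at h1 h2 ⊢
      linarith
  obtain ⟨J, hJ⟩ : ∃ J : ℕ, J = n / t := ⟨_, rfl⟩
  have hJk : J * t ≤ n := by
    rw [hJ]
    exact Nat.div_mul_le_self n t
  have h1 := hind J (by omega)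
  have h2 := hup (n + J * t) (by omega) r (αf (n + J * t)) (hne (n + J * t) (by omega) (by omega))
    (hα1 (n + J * t))
  have h3 := hlow n hn1 r _ (αf n) (hR n (by omega)) (hPol n le_rfl) (hα2 n)
  have hnJ : ((n + J * t : ℕ) : ℝ) ≤ 2 * n := by exact_mod_cast (show n + J * t ≤ 2 * n by omega)
  -- the total gain
  obtain ⟨P, hP⟩ : ∃ P : ℝ, P = (n : ℝ) ^ (0.52 : ℝ) := ⟨_, rfl⟩
  have hP0 : 0 < P := by
    rw [hP]
    positivity
  have h4 : Real.sqrt ((n + J * t : ℕ) : ℝ) ≤ 2 * P := by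
    have e1 : Real.sqrt ((n + J * t : ℕ) : ℝ) ≤ Real.sqrt (2 * n) := Real.sqrt_le_sqrt hnJ
    have e2 : Real.sqrt (2 * n) ≤ Real.sqrt (4 * n) := Real.sqrt_le_sqrt (by linarith)
    have e3 : Real.sqrt (4 * (n : ℝ)) = 2 * Real.sqrt n := by
      rw [Real.sqrt_mul (by norm_num), show (4 : ℝ) = 2 ^ 2 by norm_num,
        Real.sqrt_sq (by norm_num)]
    have e4 : Real.sqrt n ≤ P := by
      rw [hP, Real.sqrt_eq_rpow]
      exact Real.rpow_le_rpow_of_exponent_le hn1' (by norm_num)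
    linarith
  have h5 : (J : ℝ) * (F / 2) ≤ C * P := by
    have e1 : Cu * Real.sqrt ((n + J * t : ℕ) : ℝ) ≤ Cu * (2 * P) :=
      mul_le_mul_of_nonneg_left h4 hCu.le
    rw [← hP] at h3
    rw [hC]
    linarith
  have hn2 : (n : ℝ) ≤ 2 * t * J := by
    have hJ1 : 1 ≤ J := by
      rw [hJ]
      exact Nat.div_pos ht2 ht0
    have h6 : n < t * (J + 1) := by
      rw [hJ]
      exact Nat.lt_mul_div_succ n ht0
    have h7 : n ≤ 2 * t * J := by nlinarith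
    exact_mod_cast h7
  have hF0 : 0 < F := by
    rw [hF]
    positivity
  -- `n F ≤ 4 t C P`
  have h6 : (n : ℝ) * F ≤ 4 * t * (C * P) := by
    have e1 : (n : ℝ) * F ≤ (2 * t * J) * F := mul_le_mul_of_nonneg_right hn2 hF0.le
    have e2 : 4 * (t : ℝ) * ((J : ℝ) * (F / 2)) ≤ 4 * t * (C * P) :=
      mul_le_mul_of_nonneg_left h5 (by positivity)
    have e3 : (2 * (t : ℝ) * J) * F = 4 * (t : ℝ) * ((J : ℝ) * (F / 2)) := by ring
    linarith
  obtain ⟨s, hs⟩ : ∃ s : ℝ, s = (r : ℝ) ^ (1 / 2 : ℝ) := ⟨_, rfl⟩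
  have hs0 : 0 < s := by
    rw [hs]
    positivity
  have hrs : (r : ℝ) ^ (3 / 2 : ℝ) = r * s := by
    rw [hs]
    have e1 : (3 / 2 : ℝ) = 1 + 1 / 2 := by norm_num
    rw [e1, Real.rpow_add hrpos, Real.rpow_one]
  rw [hrs] at ht1
  rw [← hs] at hFr
  have h7 : (n : ℝ) * s ≤ 4 * (r * s) * (C * P) := by
    have e1 : (n : ℝ) * s ≤ n * F := mul_le_mul_of_nonneg_left hFr hnpos.le
    have e2 : 4 * (t : ℝ) * (C * P) ≤ 4 * (r * s) * (C * P) :=
      mul_le_mul_of_nonneg_right (by linarith) (by positivity)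
    linarith
  have h8 : s * n ≤ s * (4 * r * (C * P)) := by linarith
  have h9 := le_of_mul_le_mul_left h8 hs0
  have h10 : (n : ℝ) ≤ 12 * C * (n : ℝ) ^ (0.92 : ℝ) := by
    have e1 : 4 * (r : ℝ) * (C * P) ≤ 4 * (3 * (n : ℝ) ^ a) * (C * P) :=
      mul_le_mul_of_nonneg_right (by linarith) (by positivity)
    have e2 : (n : ℝ) ^ a ≤ (n : ℝ) ^ (0.4 : ℝ) :=
      Real.rpow_le_rpow_of_exponent_le hn1' ha4.le
    have e3 : (n : ℝ) ^ (0.92 : ℝ) = (n : ℝ) ^ (0.4 : ℝ) * P := by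
      rw [hP, ← Real.rpow_add hnpos]
      norm_num
    have e4 : 12 * (C * P) * (n : ℝ) ^ a ≤ 12 * (C * P) * (n : ℝ) ^ (0.4 : ℝ) :=
      mul_le_mul_of_nonneg_left e2 (by positivity)
    rw [e3]
    linarith
  have h11 : (n : ℝ) = (n : ℝ) ^ (0.08 : ℝ) * (n : ℝ) ^ (0.92 : ℝ) := by
    rw [← Real.rpow_add hnpos]
    norm_num
  have h12 : 0 < (n : ℝ) ^ (0.92 : ℝ) := by positivity
  have h13 : (12 * C + 1) * (n : ℝ) ^ (0.92 : ℝ) ≤ (n : ℝ) ^ (0.08 : ℝ) * (n : ℝ) ^ (0.92 : ℝ) :=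
    mul_le_mul_of_nonneg_right hx3 h12.le
  rw [← h11] at h13
  linarith

end Pool.Agent.W_7d29a1_q
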