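import Pool.Agent.W_7d29a1_q.NuB
import Pool.Agent.W_7d29a1_q.NuD

/-!
Section 12 of row 601: the wandering exponent.
-/

namespace Pool.Agent.W_7d29a1_q

open MeasureTheory ProbabilityTheory Filter Topology Pool.Agent.W_MP_7d29a1_pr
  Pool.Agent.W_7d29a1_h46 Pool.Agent.W_7d29a1_h46u Pool.Agent.W_7d29a1_h3

variable {d : ℕ} {ρ : Measure ℝ} [IsProbabilityMeasure ρ]

/-- TASK NuE. `nu = sInf nuSet`, `le_csInf` with `nuSet_nonempty`; the integral in `nuSet` is the same for the law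
(`mp_env`, as at the end of `Pool/Agent/Results/MP_7d29a1_pr/Ballistic.lean`); `nu_tel` with `γ = 0.4 / K` and `climbQ`. -/
theorem nu_of_pow {Ω : Type*} [MeasurableSpace Ω] {μ : Measure Ω} [IsProbabilityMeasure μ]
    {ω : ℕ × Site d → Ω → ℝ} (hω : IID μ ρ ω) (j0 : Fin d) (hρ : EM ρ)
    (hnc : ∀ c : ℝ, ρ {c} ≠ 1) {β : ℝ} (hβ : 0 < β) {K c : ℝ} (hK : 3 ≤ K) (hc : 0 < c)
    (hp : PL d ρ β K c) : 1 / ((d : ℝ) + 2 - 0.8 / K) ≤ nu μ β ω := by
  have hmp := mp_env hω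
  have hK0 : 0 < K := by linarith
  have hd0 : (0 : ℝ) ≤ d := Nat.cast_nonneg d
  have hK1 : 0.8 / K ≤ 0.8 / 3 := div_le_div_of_nonneg_left (by norm_num) (by norm_num) hK
  have hK2 : 0.4 / K ≤ 0.4 / 3 := div_le_div_of_nonneg_left (by norm_num) (by norm_num) hK
  have hD : 0 < (d : ℝ) + 2 - 0.8 / K := by
    have e1 : (0.8 : ℝ) / 3 ≤ 1 := by norm_num
    linarith
  unfold nu
  refine le_csInf (nuSet_nonempty μ j0.pos ω β) ?_
  rintro a ⟨ha, hint⟩
  by_contra hcon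
  rw [not_le, lt_div_iff₀ hD] at hcon
  have e1 : 2 * (0.4 / K) = 0.8 / K := by ring
  have h1 := nu_tel j0 hρ hnc hβ (γ := 0.4 / K) (by positivity)
    (hK2.trans (by norm_num)) (fun δ hδ => climbQ j0 hρ hK hc hp hδ) ha
    (by rw [e1]; exact hcon)
  have h2 : ∫ x, liminf (fun n : ℕ => Pol β (fun p => ω p x) n
      (inBall d n ((n : ℝ) ^ a))) atTop ∂μ =
      ∫ η, liminf (fun n : ℕ => Pol β η n (inBall d n ((n : ℝ) ^ a))) atTop ∂(law d ρ) := by
    rw [← hmp.map_eq, integral_map hmp.measurable.aemeasurable]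
    exact (Measurable.liminf fun n => measurable_Pol β n _).aestronglyMeasurable
  rw [h2] at hint
  exact absurd hint h1.ne

end Pool.Agent.W_7d29a1_q
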