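import Pool.Agent.W_7d29a1_q.BasC
import Pool.Agent.W_7d29a1_h3.StopA

/-!
Row 601, section 1: the stopping lemma at even times. TASK SaA.
-/

namespace Pool.Agent.W_7d29a1_q

open MeasureTheory ProbabilityTheory Filter Topology Pool.Agent.W_MP_7d29a1_pr
  Pool.Agent.W_7d29a1_h46 Pool.Agent.W_7d29a1_h46u Pool.Agent.W_7d29a1_h3

variable {d : ℕ} {ρ : Measure ℝ} [IsProbabilityMeasure ρ] {β : ℝ}

/-- The stopping events at the even times. -/
private def SaA_A {d : ℕ} (ρ : Measure ℝ) (β : ℝ) (h : Vec d) (Y : ℝ) (l : ℕ) : Set (Env d) :=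
  {η | HH ρ β h η (2 * l) ≤ -Y ∧ ∀ k ∈ Finset.range l, ¬ HH ρ β h η (2 * k) ≤ -Y}

omit [IsProbabilityMeasure ρ] in
private lemma SaA_meas (β : ℝ) (h : Vec d) (Y : ℝ) (l : ℕ) : MeasurableSet (SaA_A ρ β h Y l) := by
  have h1 : SaA_A ρ β h Y l = {η | HH ρ β h η (2 * l) ≤ -Y} ∩
      ⋂ k ∈ Finset.range l, {η | HH ρ β h η (2 * k) ≤ -Y}ᶜ := by
    ext η
    simp only [SaA_A, Set.mem_setOf_eq, Set.mem_inter_iff, Set.mem_iInter, Set.mem_compl_iff]
  rw [h1]
  refine (measurableSet_le (measurable_HH h (2 * l)) measurable_const).inter ?_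
  exact Finset.measurableSet_biInter _ fun k _ =>
    (measurableSet_le (measurable_HH h (2 * k)) measurable_const).compl

omit [IsProbabilityMeasure ρ] in
private lemma SaA_dep (β : ℝ) (h : Vec d) (Y : ℝ) (l : ℕ) {η η' : Env d}
    (hη : ∀ p ∈ {p : ℕ × Site d | p.1 ≤ 2 * l}, η p = η' p) :
    η ∈ SaA_A ρ β h Y l ↔ η' ∈ SaA_A ρ β h Y l := by
  unfold SaA_A
  simp only [Set.mem_setOf_eq]
  rw [StopA_HH β h le_rfl hη]
  refine and_congr_right fun _ => ?_
  refine forall₂_congr fun k hk => ?_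
  have hk' := Finset.mem_range.1 hk
  rw [StopA_HH β h (by omega : 2 * k ≤ 2 * l) hη]

/-- On the stopping event. -/
private lemma SaA_on (hd : 0 < d) (hρ : EM ρ) (β : ℝ) (h : Vec d) {l M : ℕ} (hl : l ≤ M) (Y : ℝ)
    {D : ℝ} (hD : ∀ l ≤ M, ∫ η, max (HH ρ β h η (2 * l)) 0 ∂(law d ρ) ≤ D) :
    ∫ η in SaA_A ρ β h Y l, HH ρ β h η (2 * M) ∂(law d ρ) ≤
      (-Y + D) * (law d ρ).real (SaA_A ρ β h Y l) := by
  obtain ⟨C, -, hC⟩ := H_four (d := d) hd hρ β h
  have hH : ∀ k, Integrable (fun η => HH ρ β h η k) (law d ρ) := fun k => (hC k).2.2.1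
  have hA := SaA_meas (ρ := ρ) β h Y l
  obtain ⟨F, hF⟩ : ∃ F : (Fin (2 * l) → Step d) → Env d → ℝ, F = fun s =>
    (SaA_A ρ β h Y l).indicator (FreeU_p β h (2 * l) s) := ⟨_, rfl⟩
  have hFm : ∀ s, Measurable (F s) := fun s => by
    rw [hF]
    exact (FreeU_meas β h (2 * l) s).indicator hA
  have hF0 : ∀ s η, 0 ≤ F s η := fun s η => by
    rw [hF]
    exact Set.indicator_nonneg (fun η _ => FreeU_nonneg hd β h (2 * l) s η) η
  have hF1 : ∀ s η, F s η ≤ 1 := fun s η => by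
    rw [hF]
    refine Set.indicator_le' (fun η _ => FreeU_le_one hd β h (2 * l) s η) (fun _ _ => zero_le_one) η
  have hFb : ∀ s η, ‖F s η‖ ≤ 1 := fun s η => by
    rw [Real.norm_eq_abs, abs_of_nonneg (hF0 s η)]
    exact hF1 s η
  have hFi : ∀ s, Integrable (F s) (law d ρ) := fun s =>
    (integrable_const (1 : ℝ)).mono' (hFm s).aestronglyMeasurable
      (Filter.Eventually.of_forall fun η => hFb s η)
  have hFd : ∀ s, DependsOn (F s) {p : ℕ × Site d | p.1 ≤ 2 * l} := fun s => by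
    intro η η' hη
    rw [hF]
    simp only [Set.indicator]
    have h1 := SaA_dep (ρ := ρ) β h Y l hη
    have h2 := FreeU_dep β h (2 * l) s hη
    rw [h2]
    by_cases h3 : η' ∈ SaA_A ρ β h Y l
    · rw [if_pos h3, if_pos (h1.2 h3)]
    · rw [if_neg h3, if_neg fun h4 => h3 (h1.1 h4)]
  have hFsum : ∀ η, ∑ s, F s η = (SaA_A ρ β h Y l).indicator (fun _ => (1 : ℝ)) η := by
    intro η
    rw [hF]
    by_cases h3 : η ∈ SaA_A ρ β h Y l
    · simp only [Set.indicator_of_mem h3]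
      exact FreeU_sum hd β h (2 * l) η
    · simp only [Set.indicator_of_notMem h3, Finset.sum_const_zero]
  have hHs : ∀ y : Site d,
      Integrable (fun η => HH ρ β h (sh (2 * l) y η) (2 * (M - l))) (law d ρ) := fun y =>
    ((mp_sh (2 * l) y).integrable_comp
      (measurable_HH h (2 * (M - l))).aestronglyMeasurable).2 (hH (2 * (M - l)))
  have hFH : ∀ s : Fin (2 * l) → Step d, Integrable
      (fun η => F s η * HH ρ β h (sh (2 * l) (pos s (2 * l)) η) (2 * (M - l))) (law d ρ) :=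
    fun s => (hHs (pos s (2 * l))).bdd_mul (c := 1) (hFm s).aestronglyMeasurable
      (Filter.Eventually.of_forall fun η => hFb s η)
  have hprod : ∀ s : Fin (2 * l) → Step d,
      ∫ η, F s η * HH ρ β h (sh (2 * l) (pos s (2 * l)) η) (2 * (M - l)) ∂(law d ρ) =
        (∫ η, F s η ∂(law d ρ)) * ∫ η, HH ρ β h η (2 * (M - l)) ∂(law d ρ) := by
    intro s
    rw [integral_indep (ρ := ρ) {p : ℕ × Site d | p.1 ≤ 2 * l} (F := F s)
      (G := fun η => HH ρ β h (sh (2 * l) (pos s (2 * l)) η) (2 * (M - l))) (hFm s)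
      ((measurable_HH h (2 * (M - l))).comp (measurable_sh (2 * l) (pos s (2 * l)))) (hFd s)
      (StopA_dep2 β h (2 * l) (2 * (M - l)) (pos s (2 * l))),
      integral_sh (2 * l) (pos s (2 * l)) (measurable_HH h (2 * (M - l)))]
  have hmass : ∑ s, ∫ η, F s η ∂(law d ρ) = (law d ρ).real (SaA_A ρ β h Y l) := by
    rw [← integral_finsetSum _ fun s _ => hFi s]
    simp only [hFsum]
    rw [integral_indicator hA]
    simp
  have hpt : ∀ η, (SaA_A ρ β h Y l).indicator (fun η => HH ρ β h η (2 * M)) η ≤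
      -Y * (SaA_A ρ β h Y l).indicator (fun _ => (1 : ℝ)) η +
        ∑ s : Fin (2 * l) → Step d,
          F s η * HH ρ β h (sh (2 * l) (pos s (2 * l)) η) (2 * (M - l)) := by
    intro η
    rw [hF]
    by_cases h3 : η ∈ SaA_A ρ β h Y l
    · simp only [Set.indicator_of_mem h3]
      have h4 := H_add_pt (ρ := ρ) hd β h (2 * l) (2 * (M - l)) η
      rw [show 2 * l + 2 * (M - l) = 2 * M by omega] at h4
      have h5 : HH ρ β h η (2 * l) ≤ -Y := h3.1
      linarith
    · simp only [Set.indicator_of_notMem h3, zero_mul, Finset.sum_const_zero, mul_zero, add_zero,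
        le_refl]
  have hI1 : Integrable ((SaA_A ρ β h Y l).indicator (fun _ => (1 : ℝ))) (law d ρ) :=
    (integrable_const (1 : ℝ)).indicator hA
  rw [← integral_indicator hA]
  have h6 : ∫ η, (SaA_A ρ β h Y l).indicator (fun η => HH ρ β h η (2 * M)) η ∂(law d ρ) ≤
      ∫ η, (-Y * (SaA_A ρ β h Y l).indicator (fun _ => (1 : ℝ)) η +
        ∑ s : Fin (2 * l) → Step d,
          F s η * HH ρ β h (sh (2 * l) (pos s (2 * l)) η) (2 * (M - l))) ∂(law d ρ) :=
    integral_mono ((hH (2 * M)).indicator hA)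
      ((hI1.const_mul (-Y)).add (integrable_finsetSum _ fun s _ => hFH s)) hpt
  refine h6.trans ?_
  rw [integral_add (hI1.const_mul (-Y)) (integrable_finsetSum _ fun s _ => hFH s),
    integral_const_mul, integral_indicator hA, integral_finsetSum _ fun s _ => hFH s,
    Finset.sum_congr rfl fun s _ => hprod s, ← Finset.sum_mul, hmass]
  have h7 : ∫ η, HH ρ β h η (2 * (M - l)) ∂(law d ρ) ≤ D := by
    refine le_trans ?_ (hD (M - l) (Nat.sub_le M l))
    refine integral_mono (hH (2 * (M - l))) ((hH (2 * (M - l))).pos_part) fun η => le_max_left _ _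
  have h8 : (0 : ℝ) ≤ (law d ρ).real (SaA_A ρ β h Y l) := measureReal_nonneg
  have h9 := mul_le_mul_of_nonneg_left h7 h8
  have h10 : ∫ _ in SaA_A ρ β h Y l, (1 : ℝ) ∂(law d ρ) =
      (law d ρ).real (SaA_A ρ β h Y l) := by simp
  rw [h10]
  linarith

private lemma SaA_mean (hd : 0 < d) (hρ : EM ρ) (β : ℝ) (h : Vec d) (M : ℕ)
    (hh : 2 * (M : ℝ) * (lam ρ β h - lam ρ β (0 : Vec d)) ≤ 1) :
    -1 ≤ ∫ η, HH ρ β h η (2 * M) ∂(law d ρ) := by
  have h1 : ∫ η, HH ρ β h η (2 * M) ∂(law d ρ) =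
      (2 * M : ℕ) * lam ρ β (0 : Vec d) - A ρ β h (2 * M) := by
    unfold HH A
    rw [integral_sub (integrable_const _) (concU hd hρ β h (2 * M)).1, integral_const]
    simp
  rw [h1]
  have h2 := A_le_lam hd hρ β h (2 * M)
  push_cast at h2 ⊢
  linarith

/-- `stop` (`W_7d29a1_h3/StopA.lean`, same proof) with the even times only: the events
`A l = {HH (2 l) ≤ -Y, HH (2 k) > -Y for k < l}` depend on the rows `≤ 2 l`; on `A l` `H_add_pt` with `m = 2 l`,
`n = 2 (M - l)`; `-1 ≤ ∫ HH (2 M)` (as in the proof of `H_mean_nonneg`: `A_le_lam`). -/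
theorem stop_even (hd : 0 < d) (hρ : EM ρ) (β : ℝ) (h : Vec d) (M : ℕ) {D Y : ℝ}
    (hh : 2 * (M : ℝ) * (lam ρ β h - lam ρ β (0 : Vec d)) ≤ 1)
    (hD : ∀ l ≤ M, ∫ η, max (HH ρ β h η (2 * l)) 0 ∂(law d ρ) ≤ D) (hY : 0 < Y) :
    (law d ρ).real {η | ∃ l ≤ M, HH ρ β h η (2 * l) ≤ -Y} ≤ (2 * D + 1) / Y := by
  obtain ⟨C, -, hC⟩ := H_four (d := d) hd hρ β h
  have hH : ∀ k, Integrable (fun η => HH ρ β h η k) (law d ρ) := fun k => (hC k).2.2.1
  have hA := fun l => SaA_meas (ρ := ρ) β h Y l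
  obtain ⟨U, hU⟩ : ∃ U : Set (Env d), U = {η | ∃ l ≤ M, HH ρ β h η (2 * l) ≤ -Y} := ⟨_, rfl⟩
  have hUA : U = ⋃ l ∈ Finset.range (M + 1), SaA_A ρ β h Y l := by
    classical
    rw [hU]
    ext η
    simp only [Set.mem_setOf_eq, Set.mem_iUnion, Finset.mem_range, exists_prop]
    constructor
    · rintro ⟨l, hl, hl2⟩
      have hex : ∃ l, HH ρ β h η (2 * l) ≤ -Y := ⟨l, hl2⟩
      refine ⟨Nat.find hex, ?_, Nat.find_spec hex, fun k hk => ?_⟩
      · have := Nat.find_min' hex hl2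
        omega
      · exact Nat.find_min hex (Finset.mem_range.1 hk)
    · rintro ⟨l, hl, hl2⟩
      exact ⟨l, by omega, hl2.1⟩
  have hdisj : Set.PairwiseDisjoint (↑(Finset.range (M + 1)) : Set ℕ)
      (fun l => SaA_A ρ β h Y l) := by
    intro k _ l _ hkl
    refine Set.disjoint_left.2 fun η hk hl => ?_
    rcases lt_or_gt_of_ne hkl with h1 | h1
    · exact hl.2 k (Finset.mem_range.2 h1) hk.1
    · exact hk.2 l (Finset.mem_range.2 h1) hl.1
  have hUm : MeasurableSet U := by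
    rw [hUA]
    exact Finset.measurableSet_biUnion _ fun l _ => hA l
  have h1 : ∫ η in U, HH ρ β h η (2 * M) ∂(law d ρ) ≤ (-Y + D) * (law d ρ).real U := by
    rw [hUA, integral_biUnion_finset _ (fun l _ => hA l) hdisj fun l _ => (hH (2 * M)).integrableOn,
      measureReal_biUnion_finset hdisj fun l _ => hA l, Finset.mul_sum]
    refine Finset.sum_le_sum fun l hl => SaA_on hd hρ β h ?_ Y hD
    have := Finset.mem_range.1 hl
    omega
  have h2 : ∫ η in Uᶜ, HH ρ β h η (2 * M) ∂(law d ρ) ≤ D := by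
    refine le_trans ?_ (hD M le_rfl)
    rw [← integral_indicator hUm.compl]
    refine integral_mono ((hH (2 * M)).indicator hUm.compl) (hH (2 * M)).pos_part fun η => ?_
    by_cases h3 : η ∈ Uᶜ
    · rw [Set.indicator_of_mem h3]
      exact le_max_left _ _
    · rw [Set.indicator_of_notMem h3]
      exact le_max_right _ _
  have h3 := integral_add_compl hUm (hH (2 * M))
  have h4 := SaA_mean hd hρ β h M hh
  have h5 : (law d ρ).real U ≤ 1 := measureReal_le_one
  have h6 : 0 ≤ D :=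
    (integral_nonneg fun η => le_max_right _ _).trans (hD M le_rfl)
  rw [← hU, le_div_iff₀ hY]
  have h7 : D * (law d ρ).real U ≤ D * 1 := mul_le_mul_of_nonneg_left h5 h6
  nlinarith [h1, h2, h3, h4, h7]

end Pool.Agent.W_7d29a1_q
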