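import Pool.Agent.W_7d29a1_q.SaA
import Pool.Agent.W_7d29a1_h3.Luck

/-!
Row 601, section 1, (1.2): nobody gains much, forward and backward. TASK SaB.
-/

namespace Pool.Agent.W_7d29a1_q

open MeasureTheory ProbabilityTheory Filter Topology Pool.Agent.W_MP_7d29a1_pr
  Pool.Agent.W_7d29a1_h46 Pool.Agent.W_7d29a1_h46u Pool.Agent.W_7d29a1_h3

variable {d : ℕ} {ρ : Measure ℝ} [IsProbabilityMeasure ρ] {β : ℝ}

/-- All signs: `tl_act`, `lam_act`. -/
theorem lam_tl_le {h0 ε : ℝ} (hf : ∀ j : Fin d, lam ρ β (h0 • ej j) ≤ lam ρ β (0 : Vec d) + ε)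
    (j : Fin d) (s : Bool) : lam ρ β (tl h0 j s) ≤ lam ρ β (0 : Vec d) + ε := by
  obtain ⟨τ, e, he⟩ := tl_act (d := d) h0 j j true s
  rw [← he, lam_act]
  have h1 : tl h0 j true = h0 • ej j := by simp [tl]
  rw [h1]
  exact hf j

/-- `H_θ(2 l) ≤ T(2 l, 0)`: `V_le_H` with `y = 0`, `adm_zero`, `Vp_pos`. -/
theorem HH_le_T (j0 : Fin d) (h : Vec d) (η : Env d) (l : ℕ) :
    HH ρ β h η (2 * l) ≤ -Real.log (Vp ρ β η (2 * l) 0) := by
  have h1 := V_le_H (ρ := ρ) (β := β) j0 h η (subset_refl (toP (2 * l) (0 : Site d)))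
  have h0 : emb (0 : Site d) = 0 := by
    unfold emb
    ext j
    simp
  rw [h0, inner_zero_right, Real.exp_zero, mul_one] at h1
  have h2 : 0 < Vp ρ β η (2 * l) 0 := Vp_pos j0 η (adm_zero l)
  have h3 := (Real.log_le_iff_le_exp h2).2 h1
  linarith

/-- The mean of `H_θ(2 l)_+` is at most `S(n) - 1`: `HH_le_T`, Cauchy-Schwarz, `wait_sq`, `AA_le_SS`. -/
theorem HH_pos_mean (j0 : Fin d) (hρ : EM ρ) (h : Vec d) {l n : ℕ} (hl : l ≤ n) (hn : 1 ≤ n) :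
    ∫ η, max (HH ρ β h η (2 * l)) 0 ∂(law d ρ) ≤ SS d ρ β n - 1 := by
  have hi1 : Integrable (fun η : Env d => max (-Real.log (Vp ρ β η (2 * l) 0)) 0) (law d ρ) :=
    (wait_mean (β := β) j0 hρ hl).1
  have hi2 : Integrable (fun η : Env d => max (-Real.log (Vp ρ β η (2 * l) 0)) 0 ^ 2) (law d ρ) :=
    (wait_sq (β := β) j0 hρ hl).1
  have h1 : ∫ η, max (HH ρ β h η (2 * l)) 0 ∂(law d ρ) ≤
      ∫ η : Env d, max (-Real.log (Vp ρ β η (2 * l) 0)) 0 ∂(law d ρ) :=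
    integral_mono_of_nonneg (Filter.Eventually.of_forall fun η => le_max_right _ _) hi1
      (Filter.Eventually.of_forall fun η => max_le_max (HH_le_T j0 h η l) le_rfl)
  refine h1.trans ?_
  obtain ⟨m, hm⟩ : ∃ m : ℝ, m = ∫ η : Env d, max (-Real.log (Vp ρ β η (2 * l) 0)) 0 ∂(law d ρ) :=
    ⟨_, rfl⟩
  rw [← hm]
  have h2 : 0 ≤ ∫ η : Env d, (max (-Real.log (Vp ρ β η (2 * l) 0)) 0 - m) ^ 2 ∂(law d ρ) :=
    integral_nonneg fun η => sq_nonneg _
  have hAA : ∫ η : Env d, max (-Real.log (Vp ρ β η (2 * l) 0)) 0 ^ 2 ∂(law d ρ) =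
      AA d ρ β l ^ 2 := by
    unfold AA
    rw [Real.sq_sqrt (integral_nonneg fun η => sq_nonneg _)]
  have h3 : ∫ η : Env d, (max (-Real.log (Vp ρ β η (2 * l) 0)) 0 - m) ^ 2 ∂(law d ρ) =
      AA d ρ β l ^ 2 - m ^ 2 := by
    have e : ∀ η : Env d, (max (-Real.log (Vp ρ β η (2 * l) 0)) 0 - m) ^ 2 =
        (max (-Real.log (Vp ρ β η (2 * l) 0)) 0 ^ 2 +
          (-(2 * m)) * max (-Real.log (Vp ρ β η (2 * l) 0)) 0) + m ^ 2 := fun η => by ring
    have j1 : Integrable (fun η : Env d => -(2 * m) * max (-Real.log (Vp ρ β η (2 * l) 0)) 0)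
        (law d ρ) := hi1.const_mul _
    have j2 : Integrable (fun η : Env d => max (-Real.log (Vp ρ β η (2 * l) 0)) 0 ^ 2 +
        -(2 * m) * max (-Real.log (Vp ρ β η (2 * l) 0)) 0) (law d ρ) := hi2.add j1
    simp only [e]
    rw [integral_add j2 (integrable_const _), integral_add hi2 j1,
      integral_const_mul, ← hm, hAA, integral_const]
    simp only [probReal_univ, one_smul]
    ring
  rw [h3] at h2
  have h4 : m ^ 2 ≤ AA d ρ β l ^ 2 := by linarith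
  have h5 : AA d ρ β l ≤ SS d ρ β n - 1 := AA_le_SS hl hn
  have h6 := abs_le_of_sq_le_sq' h4 (Real.sqrt_nonneg _)
  exact h6.2.trans h5

/-- (1.2), forward: as `luck` of `W_7d29a1_h3/Luck.lean`, with `stop_even`. -/
theorem luck_S (j0 : Fin d) (hρ : EM ρ) {h0 : ℝ} (hh : 0 ≤ h0) {N : ℕ}
    (hf : ∀ j : Fin d, lam ρ β (h0 • ej j) ≤ lam ρ β (0 : Vec d) + 1 / N) {n : ℕ} (hn : 1 ≤ n)
    (hnN : 2 * n ≤ N) {Y : ℝ} (hY : 0 < Y) :
    (law d ρ).real {η | ∃ l ≤ n, ∃ y : Site d, Real.exp (Y - h0 * sn y) ≤ Vp ρ β η (2 * l) y} ≤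
      4 * d * SS d ρ β n / Y := by
  have hd : 0 < d := Fin.pos j0
  have h1 : {η : Env d | ∃ l ≤ n, ∃ y : Site d, Real.exp (Y - h0 * sn y) ≤ Vp ρ β η (2 * l) y} ⊆
      ⋃ p : Fin d × Bool, {η : Env d | ∃ l ≤ n, HH ρ β (tl h0 p.1 p.2) η (2 * l) ≤ -Y} := by
    rintro η ⟨l, hl, y, hy⟩
    obtain ⟨j, s, hjs⟩ := exists_tl j0 hh y
    rw [Set.mem_iUnion]
    refine ⟨(j, s), l, hl, ?_⟩
    have h2 := V_le_H (ρ := ρ) (β := β) j0 (tl h0 j s) η (subset_refl (toP (2 * l) y))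
    rw [hjs] at h2
    have h3 : Real.exp (Y - h0 * sn y) * Real.exp (h0 * sn y) ≤
        Real.exp (-HH ρ β (tl h0 j s) η (2 * l)) :=
      (mul_le_mul_of_nonneg_right hy (Real.exp_pos _).le).trans h2
    rw [← Real.exp_add, sub_add_cancel, Real.exp_le_exp] at h3
    show HH ρ β (tl h0 j s) η (2 * l) ≤ -Y
    linarith
  have hN : (0 : ℝ) < N := by
    have : 0 < N := by omega
    exact_mod_cast this
  have h2 : ∀ p : Fin d × Bool,
      (law d ρ).real {η : Env d | ∃ l ≤ n, HH ρ β (tl h0 p.1 p.2) η (2 * l) ≤ -Y} ≤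
      2 * SS d ρ β n / Y := by
    intro p
    have hlam := lam_tl_le hf p.1 p.2
    have hle : 2 * (n : ℝ) * (lam ρ β (tl h0 p.1 p.2) - lam ρ β (0 : Vec d)) ≤ 1 := by
      have e1 : lam ρ β (tl h0 p.1 p.2) - lam ρ β (0 : Vec d) ≤ 1 / N := by linarith
      have e2 : 2 * (n : ℝ) * (lam ρ β (tl h0 p.1 p.2) - lam ρ β (0 : Vec d)) ≤
          2 * (n : ℝ) * (1 / N) := mul_le_mul_of_nonneg_left e1 (by positivity)
      refine e2.trans ?_
      rw [mul_one_div, div_le_one hN]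
      exact_mod_cast hnN
    have h3 := stop_even hd hρ β (tl h0 p.1 p.2) n hle
      (fun l hl => HH_pos_mean j0 hρ (tl h0 p.1 p.2) hl hn) hY
    refine h3.trans ?_
    exact div_le_div_of_nonneg_right (by linarith) hY.le
  calc (law d ρ).real {η | ∃ l ≤ n, ∃ y : Site d, Real.exp (Y - h0 * sn y) ≤ Vp ρ β η (2 * l) y}
      ≤ (law d ρ).real (⋃ p : Fin d × Bool,
          {η : Env d | ∃ l ≤ n, HH ρ β (tl h0 p.1 p.2) η (2 * l) ≤ -Y}) := measureReal_mono h1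
    _ ≤ ∑ p : Fin d × Bool,
          (law d ρ).real {η : Env d | ∃ l ≤ n, HH ρ β (tl h0 p.1 p.2) η (2 * l) ≤ -Y} :=
        measureReal_iUnion_fintype_le _
    _ ≤ ∑ _p : Fin d × Bool, 2 * SS d ρ β n / Y := Finset.sum_le_sum fun p _ => h2 p
    _ = 4 * d * SS d ρ β n / Y := by
        rw [Finset.sum_const, Finset.card_univ, Fintype.card_prod, Fintype.card_fin,
          Fintype.card_bool, nsmul_eq_mul]
        push_cast
        ring

/-- (1.2), backward: as `luck_back`. -/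
theorem luck_back_S (j0 : Fin d) (hρ : EM ρ) (β : ℝ) : ∃ C : ℝ, 0 < C ∧ ∀ (h0 : ℝ) (N n : ℕ) (Y : ℝ),
    0 ≤ h0 → (∀ j : Fin d, lam ρ β (h0 • ej j) ≤ lam ρ β (0 : Vec d) + 1 / N) → 1 ≤ n →
    2 * n ≤ N → 0 < Y →
    (law d ρ).real {η | ∃ l ≤ n, ∃ y : Site d,
      Real.exp (Y - h0 * sn y) ≤ Vp ρ β (sh (2 * n - 2 * l) (-y) η) (2 * l) y} ≤
      8 * d * SS d ρ β n / Y + C * (2 * (n : ℝ) + 1) ^ (d + 1) * Real.exp (-(Y / 4)) := by
  obtain ⟨C, hC, hb⟩ := bdry (d := d) hρ β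
  refine ⟨C, hC, ?_⟩
  intro h0 N n Y hh hf hn hnN hY
  set A : Set (Env d) :=
    {η | ∃ l ≤ n, ∃ y : Site d, Real.exp (Y / 2 - h0 * sn y) ≤ Vp ρ β η (2 * l) y} with hA
  set B : Set (Env d) :=
    {η | ∃ l ≤ 2 * n, ∃ y : Site d, sn y ≤ 2 * n ∧ Y / 2 < |β * (η (0, 0) - η (l, y))|} with hB
  have h1 : {η | ∃ l ≤ n, ∃ y : Site d,
      Real.exp (Y - h0 * sn y) ≤ Vp ρ β (sh (2 * n - 2 * l) (-y) η) (2 * l) y} ⊆
      rev (2 * n) 0 ⁻¹' (A ∪ B) := by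
    rintro η ⟨l, hl, y, hy⟩
    have hl2 : 2 * l ≤ 2 * n := by omega
    rw [← zero_sub y, Vp_rev hl2 0 y η] at hy
    rw [Set.mem_preimage, Set.mem_union]
    set η' : Env d := rev (2 * n) 0 η with hη'
    by_cases hbig : Y / 2 < |β * (η' (0, 0) - η' (2 * l, y))|
    · right
      refine ⟨2 * l, hl2, y, ?_, hbig⟩
      by_contra hsn
      have hna : ¬ adm (2 * l) y := by
        intro hadm
        have h2 := sn_le_ln y
        have h3 := hadm.1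
        omega
      rw [Vp_zero j0 η' hna, mul_zero] at hy
      exact absurd hy (not_le.2 (Real.exp_pos _))
    · left
      refine ⟨l, hl, y, ?_⟩
      push Not at hbig
      have h2 : Real.exp (β * (η' (0, 0) - η' (2 * l, y))) ≤ Real.exp (Y / 2) :=
        Real.exp_le_exp.2 ((le_abs_self _).trans hbig)
      have h3 : Real.exp (Y - h0 * sn y) ≤ Real.exp (Y / 2) * Vp ρ β η' (2 * l) y :=
        hy.trans (mul_le_mul_of_nonneg_right h2 (V_nonneg η' _))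
      have h4 : Real.exp (Y - h0 * sn y) = Real.exp (Y / 2) * Real.exp (Y / 2 - h0 * sn y) := by
        rw [← Real.exp_add]
        congr 1
        ring
      rw [h4] at h3
      exact le_of_mul_le_mul_left h3 (Real.exp_pos _)
  have hmp := mp_rev (ρ := ρ) (2 * n) (0 : Site d)
  have h2 : (law d ρ).real (rev (2 * n) 0 ⁻¹' (A ∪ B)) ≤ (law d ρ).real (A ∪ B) := by
    rw [measureReal_def, measureReal_def]
    exact ENNReal.toReal_mono (measure_ne_top _ _) (hmp.measure_preimage_le _)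
  have hA' := luck_S (β := β) j0 hρ hh hf hn hnN (half_pos hY)
  have hB' := hb (2 * n) (Y / 2) (half_pos hY).le
  have e1 : 4 * d * SS d ρ β n / (Y / 2) = 8 * d * SS d ρ β n / Y := by
    field_simp
    ring
  have e2 : -(Y / 2 / 2) = -(Y / 4) := by ring
  have e3 : ((2 * n : ℕ) : ℝ) = 2 * (n : ℝ) := by push_cast; ring
  rw [e1] at hA'
  rw [e2, e3] at hB'
  calc (law d ρ).real {η | ∃ l ≤ n, ∃ y : Site d,
        Real.exp (Y - h0 * sn y) ≤ Vp ρ β (sh (2 * n - 2 * l) (-y) η) (2 * l) y}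
      ≤ (law d ρ).real (rev (2 * n) 0 ⁻¹' (A ∪ B)) := measureReal_mono h1
    _ ≤ (law d ρ).real (A ∪ B) := h2
    _ ≤ (law d ρ).real A + (law d ρ).real B := measureReal_union_le _ _
    _ ≤ _ := add_le_add hA' hB'

end Pool.Agent.W_7d29a1_q
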