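import Pool.Agent.W_7d29a1_q.BasA
import Pool.Agent.W_7d29a1_h3.DecA

/-!
Row 601, section 1: a walk which leaves the cube, at even times. TASK SaC.
-/

namespace Pool.Agent.W_7d29a1_q

open MeasureTheory ProbabilityTheory Filter Topology Pool.Agent.W_MP_7d29a1_pr
  Pool.Agent.W_7d29a1_h46 Pool.Agent.W_7d29a1_h46u Pool.Agent.W_7d29a1_h3

variable {d : ℕ} {ρ : Measure ℝ} [IsProbabilityMeasure ρ] {β : ℝ}

private theorem SaC_wgt_pos (h : Vec d) (η : Env d) {n : ℕ} (s : Fin n → Step d) : 0 < wgt β h η s := by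
  unfold wgt
  exact Real.exp_pos _

private theorem SaC_ind (h : Vec d) (η : Env d) {n : ℕ} (E : Set (Fin n → Step d)) :
    ZT β h η E = ∑ s : Fin n → Step d, Set.indicator E (fun s => wgt β h η s) s := by
  classical
  unfold ZT
  refine Finset.sum_congr rfl fun s _ => ?_
  by_cases hs : s ∈ E
  · rw [if_pos hs, Set.indicator_of_mem hs]
  · rw [if_neg hs, Set.indicator_of_notMem hs]

private theorem SaC_ZT_le (η : Env d) {n : ℕ} (E E' : Set (Fin n → Step d)) (I : Finset ℕ)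
    (J : Finset (Site d)) (F : ℕ → Site d → Set (Fin n → Step d))
    (h : ∀ s ∈ E, s ∈ E' ∨ ∃ i ∈ I, ∃ p ∈ J, s ∈ F i p) :
    ZT β 0 η E ≤ ZT β 0 η E' + ∑ i ∈ I, ∑ p ∈ J, ZT β 0 η (F i p) := by
  classical
  simp only [SaC_ind]
  have h2 : ∑ i ∈ I, ∑ p ∈ J, ∑ s : Fin n → Step d, Set.indicator (F i p) (fun s => wgt β 0 η s) s =
      ∑ s : Fin n → Step d, ∑ i ∈ I, ∑ p ∈ J, Set.indicator (F i p) (fun s => wgt β 0 η s) s := by
    rw [Finset.sum_congr rfl fun i _ => Finset.sum_comm, Finset.sum_comm]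
  rw [h2, ← Finset.sum_add_distrib]
  refine Finset.sum_le_sum fun s _ => ?_
  have hw : ∀ G : Set (Fin n → Step d), 0 ≤ Set.indicator G (fun s => wgt β 0 η s) s := fun G =>
    Set.indicator_nonneg (fun s _ => (SaC_wgt_pos (0 : Vec d) η s).le) s
  have hnn : ∀ i ∈ I, (0 : ℝ) ≤ ∑ p ∈ J, Set.indicator (F i p) (fun s => wgt β 0 η s) s :=
    fun i _ => Finset.sum_nonneg fun p _ => hw _
  by_cases hs : s ∈ E
  · rw [Set.indicator_of_mem hs]
    rcases h s hs with h' | ⟨i, hi, p, hp, h'⟩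
    · rw [Set.indicator_of_mem h']
      have := Finset.sum_nonneg hnn
      linarith
    · have h3 := Finset.single_le_sum (f := fun p => Set.indicator (F i p) (fun s => wgt β 0 η s) s)
        (fun p _ => hw _) hp
      rw [Set.indicator_of_mem h'] at h3
      have h5 := Finset.single_le_sum hnn hi
      have h6 := hw E'
      linarith
  · rw [Set.indicator_of_notMem hs]
    exact add_nonneg (hw _) (Finset.sum_nonneg hnn)

private theorem SaC_pos_zero {n : ℕ} (s : Fin n → Step d) : pos s 0 = 0 := by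
  unfold pos
  simp

private theorem SaC_sn_zero : sn (0 : Site d) = 0 := by
  unfold sn
  simp

private theorem SaC_sn_vec (e : Step d) : sn (vec e) ≤ 1 := by
  rw [sn_le_iff]
  intro j
  unfold vec
  by_cases h : j = e.1
  · subst h
    rw [Pi.single_eq_same]
    split_ifs <;> simp
  · rw [Pi.single_eq_of_ne h]
    simp

private theorem SaC_pos_succ {n : ℕ} (s : Fin n → Step d) {i : ℕ} (hi : i < n) :
    pos s (i + 1) = pos s i + vec (s ⟨i, hi⟩) := by
  unfold pos
  have h1 : ∀ l : Fin n, (if (l : ℕ) < i + 1 then vec (s l) else 0) =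
      (if (l : ℕ) < i then vec (s l) else 0) + (if l = (⟨i, hi⟩ : Fin n) then vec (s l) else 0) := by
    intro l
    rcases lt_trichotomy (l : ℕ) i with h | h | h
    · rw [if_pos (by omega), if_pos h, if_neg, add_zero]
      intro h2
      rw [h2] at h
      simp at h
    · rw [if_pos (by omega), if_neg (by omega), if_pos (Fin.ext h), zero_add]
    · rw [if_neg (by omega), if_neg (by omega), if_neg, add_zero]
      intro h2
      rw [h2] at h
      simp at h
  rw [Finset.sum_congr rfl fun l _ => h1 l, Finset.sum_add_distrib]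
  congr 1
  rw [Finset.sum_ite_eq']
  simp

private theorem SaC_exit {n S : ℕ} (s : Fin n → Step d) (h : ¬ ∀ i ≤ n, sn (pos s i) ≤ S) :
    ∃ i ≤ n, sn (pos s i) = S + 1 := by
  classical
  push Not at h
  have hex : ∃ i, i ≤ n ∧ S < sn (pos s i) := h
  obtain ⟨h1, h2⟩ := Nat.find_spec hex
  set i := Nat.find hex with hi
  refine ⟨i, h1, ?_⟩
  have h0 : i ≠ 0 := by
    intro h0
    rw [h0, SaC_pos_zero, SaC_sn_zero] at h2
    omega
  obtain ⟨k, hk⟩ : ∃ k, i = k + 1 := ⟨i - 1, by omega⟩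
  have hkn : k < n := by omega
  have h3 : ¬ (k ≤ n ∧ S < sn (pos s k)) := Nat.find_min hex (by omega)
  have h4 : sn (pos s k) ≤ S := by
    by_contra hc
    exact h3 ⟨by omega, by omega⟩
  have h5 := sn_add (pos s k) (vec (s ⟨k, hkn⟩))
  rw [← SaC_pos_succ s hkn, ← hk] at h5
  have h6 := SaC_sn_vec (s ⟨k, hkn⟩)
  omega

/-- A walk which leaves the cube is at a point with `S ≤ sn` at some even time. -/
private theorem SaC_even {n S : ℕ} (s : Fin (2 * n) → Step d)
    (h : ¬ ∀ i ≤ 2 * n, sn (pos s i) ≤ S) : ∃ l ≤ n, S ≤ sn (pos s (2 * l)) := by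
  obtain ⟨i, hi, hsi⟩ := SaC_exit s h
  rcases Nat.even_or_odd' i with ⟨l, hl | hl⟩
  · exact ⟨l, by omega, by rw [← hl]; omega⟩
  · refine ⟨l, by omega, ?_⟩
    have hlt : 2 * l < 2 * n := by omega
    have h1 := SaC_pos_succ s hlt
    have h2 := sn_add (pos s (2 * l)) (vec (s ⟨2 * l, hlt⟩))
    rw [← h1, ← hl, hsi] at h2
    have h3 := SaC_sn_vec (s ⟨2 * l, hlt⟩)
    omega

private theorem SaC_le (η : Env d) (n S : ℕ) :
    Vp ρ β η (2 * n) 0 ≤ V ρ β η (stP (2 * n) S 0) + ∑ l ∈ Finset.range (n + 1),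
      ∑ p ∈ (boxF d (2 * n)).filter (fun p => S ≤ sn p),
        Vp ρ β η (2 * l) p * Vp ρ β (sh (2 * l) p η) (2 * n - 2 * l) (-p) := by
  classical
  have h1 : ∑ l ∈ Finset.range (n + 1), ∑ p ∈ (boxF d (2 * n)).filter (fun p => S ≤ sn p),
        Vp ρ β η (2 * l) p * Vp ρ β (sh (2 * l) p η) (2 * n - 2 * l) (-p) =
      ∑ l ∈ Finset.range (n + 1), ∑ p ∈ (boxF d (2 * n)).filter (fun p => S ≤ sn p),
        V ρ β η {s : Fin (2 * n) → Step d | pos s (2 * l) = p ∧ pos s (2 * n) = 0} := by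
    refine Finset.sum_congr rfl fun l hl => Finset.sum_congr rfl fun p _ => ?_
    rw [Finset.mem_range] at hl
    rw [V_through η (by omega) p 0, zero_sub]
  rw [h1]
  unfold Vp V
  simp only [← Finset.mul_sum]
  rw [← mul_add]
  refine mul_le_mul_of_nonneg_left ?_ (Real.exp_pos _).le
  refine SaC_ZT_le η _ _ _ _
    (fun l p => {s : Fin (2 * n) → Step d | pos s (2 * l) = p ∧ pos s (2 * n) = 0}) ?_
  intro s hz
  by_cases hs : ∀ i ≤ 2 * n, sn (pos s i) ≤ S
  · exact Or.inl ⟨hs, hz⟩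
  · obtain ⟨l, hl, hsl⟩ := SaC_even s hs
    exact Or.inr ⟨l, Finset.mem_range.2 (Nat.lt_succ_of_le hl), pos s (2 * l),
      Finset.mem_filter.2 ⟨pos_mem_box s (2 * l), hsl⟩, rfl, hz⟩

/-- As `exit_exists` (`W_7d29a1_h3/DecA.lean`): a walk which leaves the cube has `sn (pos s i) = S + 1` for some `i`,
so `sn (pos s (2 l)) ≥ S` for `l = i / 2`; `V_through`. -/
theorem exit_even_S (j0 : Fin d) (η : Env d) {n S : ℕ}
    (h : V ρ β η (stP (2 * n) S (0 : Site d)) ≤ 1 / 2 * Vp ρ β η (2 * n) 0) :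
    ∃ l ≤ n, ∃ p : Site d, S ≤ sn p ∧ Vp ρ β η (2 * n) 0 ≤
      2 * ((n : ℝ) + 1) * (4 * (n : ℝ) + 1) ^ d *
        (Vp ρ β η (2 * l) p * Vp ρ β (sh (2 * l) p η) (2 * n - 2 * l) (-p)) := by
  classical
  by_contra hc
  push Not at hc
  have h0 := SaC_le (ρ := ρ) (β := β) η n S
  have hz : adm (2 * n) (0 : Site d) := adm_zero n
  have hV := Vp_pos (ρ := ρ) (β := β) j0 η hz
  set v := Vp ρ β η (2 * n) 0 with hv
  have hn1 : (0 : ℝ) < (n : ℝ) + 1 := by positivity
  have hn2 : (0 : ℝ) < (4 * (n : ℝ) + 1) ^ d := by positivity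
  set c : ℝ := v / (2 * ((n : ℝ) + 1) * (4 * (n : ℝ) + 1) ^ d) with hcd
  have hc0 : 0 < c := by positivity
  have h1 : ∀ l ∈ Finset.range (n + 1), ∑ p ∈ (boxF d (2 * n)).filter (fun p => S ≤ sn p),
      Vp ρ β η (2 * l) p * Vp ρ β (sh (2 * l) p η) (2 * n - 2 * l) (-p) <
        (4 * (n : ℝ) + 1) ^ d * c := by
    intro l hl
    rw [Finset.mem_range] at hl
    rcases ((boxF d (2 * n)).filter (fun p => S ≤ sn p)).eq_empty_or_nonempty with he | hne
    · rw [he, Finset.sum_empty]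
      positivity
    · have h2 : ∑ p ∈ (boxF d (2 * n)).filter (fun p => S ≤ sn p),
          Vp ρ β η (2 * l) p * Vp ρ β (sh (2 * l) p η) (2 * n - 2 * l) (-p) <
          ∑ p ∈ (boxF d (2 * n)).filter (fun p => S ≤ sn p), c := by
        refine Finset.sum_lt_sum_of_nonempty hne fun p hp => ?_
        rw [Finset.mem_filter] at hp
        have h3 := hc l (by omega) p hp.2
        rw [hcd, lt_div_iff₀ (by positivity)]
        linarith
      refine h2.trans_le ?_
      rw [Finset.sum_const, nsmul_eq_mul]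
      refine mul_le_mul_of_nonneg_right ?_ hc0.le
      have h4 : ((boxF d (2 * n)).filter (fun p => S ≤ sn p)).card ≤ (boxF d (2 * n)).card :=
        Finset.card_filter_le _ _
      rw [card_boxF] at h4
      have h5 : (2 * (2 * n) + 1) ^ d = (4 * n + 1) ^ d := by
        congr 1
        ring
      rw [h5] at h4
      exact_mod_cast h4
  have h2 : ∑ l ∈ Finset.range (n + 1), ∑ p ∈ (boxF d (2 * n)).filter (fun p => S ≤ sn p),
      Vp ρ β η (2 * l) p * Vp ρ β (sh (2 * l) p η) (2 * n - 2 * l) (-p) <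
      ∑ l ∈ Finset.range (n + 1), (4 * (n : ℝ) + 1) ^ d * c :=
    Finset.sum_lt_sum_of_nonempty ⟨0, by simp⟩ h1
  rw [Finset.sum_const, Finset.card_range, nsmul_eq_mul] at h2
  have h3 : ((n + 1 : ℕ) : ℝ) * ((4 * (n : ℝ) + 1) ^ d * c) = 1 / 2 * v := by
    rw [hcd]
    push_cast
    field_simp
  linarith

end Pool.Agent.W_7d29a1_q
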