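import Pool.Agent.W_7d29a1_q.SaB
import Pool.Agent.W_7d29a1_q.SaC
import Pool.Agent.W_7d29a1_h3.ScaleA

/-!
Row 601, section 1, (1.3): the tube and the fluctuation. TASK SaD.
-/

namespace Pool.Agent.W_7d29a1_q

open MeasureTheory ProbabilityTheory Filter Topology Pool.Agent.W_MP_7d29a1_pr
  Pool.Agent.W_7d29a1_h46 Pool.Agent.W_7d29a1_h46u Pool.Agent.W_7d29a1_h3

variable {d : ℕ} {ρ : Measure ℝ} [IsProbabilityMeasure ρ] {β : ℝ}

private lemma SaD_poly {n : ℕ} (hn : 5 ≤ n) (d : ℕ) :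
    2 * ((n : ℝ) + 1) * (4 * (n : ℝ) + 1) ^ d ≤ Real.exp ((3 + 2 * d) * Real.log n) := by
  have h5 : (5 : ℝ) ≤ n := by exact_mod_cast hn
  have hn0 : (0 : ℝ) < n := by linarith
  have e1 : 2 * ((n : ℝ) + 1) ≤ (n : ℝ) ^ 3 := by nlinarith [sq_nonneg ((n : ℝ) - 5), mul_pos hn0 hn0]
  have e2 : 4 * (n : ℝ) + 1 ≤ (n : ℝ) ^ 2 := by nlinarith
  have e3 : (4 * (n : ℝ) + 1) ^ d ≤ ((n : ℝ) ^ 2) ^ d := pow_le_pow_left₀ (by linarith) e2 d
  have e4 : Real.exp ((3 + 2 * d) * Real.log n) = (n : ℝ) ^ 3 * ((n : ℝ) ^ 2) ^ d := by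
    have : (3 + 2 * (d : ℝ)) * Real.log n = Real.log ((n : ℝ) ^ 3 * ((n : ℝ) ^ 2) ^ d) := by
      rw [Real.log_mul (by positivity) (by positivity), Real.log_pow, Real.log_pow, Real.log_pow]
      push_cast
      ring
    rw [this, Real.exp_log (by positivity)]
  rw [e4]
  exact mul_le_mul e1 e3 (by positivity) (by positivity)

private lemma SaD_poly2 {n : ℕ} (hn : 5 ≤ n) (d : ℕ) :
    (2 * (n : ℝ) + 1) ^ (d + 1) ≤ Real.exp ((2 * d + 2) * Real.log n) := by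
  have h5 : (5 : ℝ) ≤ n := by exact_mod_cast hn
  have hn0 : (0 : ℝ) < n := by linarith
  have e2 : 2 * (n : ℝ) + 1 ≤ (n : ℝ) ^ 2 := by nlinarith
  have e3 : (2 * (n : ℝ) + 1) ^ (d + 1) ≤ ((n : ℝ) ^ 2) ^ (d + 1) := pow_le_pow_left₀ (by linarith) e2 _
  have e4 : Real.exp ((2 * d + 2) * Real.log n) = ((n : ℝ) ^ 2) ^ (d + 1) := by
    have : (2 * (d : ℝ) + 2) * Real.log n = Real.log (((n : ℝ) ^ 2) ^ (d + 1)) := by
      rw [Real.log_pow, Real.log_pow]
      push_cast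
      ring
    rw [this, Real.exp_log (by positivity)]
  rw [e4]
  exact e3

/-- The tube of radius `Y0 ≥ C X / h0`, `X = S(n) + log n`, carries half of the weight, so the tube weight is not
small. `X ≥ 1 + log n`. `wait_prob` with `w = 4 X / q`; if `Vp (2 n) 0 ≥ exp (- 4 X / q)` and the tube carries less than half of it then
`exit_even_S` gives `l, p` with `sn p ≥ Y0` and one of the two factors is `≥ exp (h0 Y0 / 2 - h0 sn p)` for
`h0 Y0 ≥ C X`: `luck_S`, `luck_back_S` (for the second factor take `y = - p` and `n - l`; `sh (2 n - 2 (n - l)) p`). -/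
theorem tube_S (j0 : Fin d) (hρ : EM ρ) {q : ℝ} (hq : 0 < q) : ∃ C : ℝ, 1 ≤ C ∧
    ∀ (h0 : ℝ) (N n Y0 : ℕ), 0 < h0 → h0 ≤ 1 →
    (∀ j : Fin d, lam ρ β (h0 • ej j) ≤ lam ρ β (0 : Vec d) + 1 / N) → C ≤ n → 2 * n ≤ N →
    C * (SS d ρ β n + Real.log n) ≤ h0 * Y0 →
    (law d ρ).real {η : Env d | ¬ Real.exp (-(C * (SS d ρ β n + Real.log n))) ≤
      V ρ β η (stP (2 * n) Y0 (0 : Site d))} ≤ q := by
  obtain ⟨C₂, hC₂, hback⟩ := luck_back_S (d := d) j0 hρ β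
  have hd0 : (0 : ℝ) ≤ d := Nat.cast_nonneg _
  obtain ⟨C, hCdef⟩ : ∃ C : ℝ, C = 5 + 4 / q + (3 + 2 * d) + 8 * (2 * d + 3) + 96 * d / q + 4 * C₂ / q := ⟨_, rfl⟩
  have q1 : 0 ≤ 4 / q := by positivity
  have q2 : 0 ≤ 96 * (d : ℝ) / q := by positivity
  have q3 : 0 ≤ 4 * C₂ / q := by positivity
  have hC1 : 5 ≤ C := by rw [hCdef]; linarith
  have hC2 : 4 / q + 3 + 2 * d ≤ C := by rw [hCdef]; linarith
  have hC3 : 8 * (2 * (d : ℝ) + 3) ≤ C := by rw [hCdef]; linarith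
  have hC4 : 96 * (d : ℝ) / q ≤ C := by rw [hCdef]; linarith
  have hC5 : 4 * C₂ / q ≤ C := by rw [hCdef]; linarith
  have hC0 : 0 < C := by linarith
  refine ⟨C, by linarith, ?_⟩
  intro h0 N n Y0 hh0 hh1 hf hCn hnN hY
  have hn5 : 5 ≤ n := by
    have : (5 : ℝ) ≤ n := hC1.trans hCn
    exact_mod_cast this
  have hn1 : 1 ≤ n := by omega
  have hn5r : (5 : ℝ) ≤ n := by exact_mod_cast hn5
  have hn0 : (0 : ℝ) < n := by linarith
  have hlog : 0 ≤ Real.log n := Real.log_nonneg (by linarith)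
  have hS1 := one_le_SS (d := d) (ρ := ρ) (β := β) hn1
  obtain ⟨X, hX⟩ : ∃ X, X = SS d ρ β n + Real.log n := ⟨_, rfl⟩
  rw [← hX] at hY ⊢
  have hX1 : 1 ≤ X := by rw [hX]; linarith
  have hXS : SS d ρ β n ≤ X := by rw [hX]; linarith
  have hXl : Real.log n ≤ X := by rw [hX]; linarith
  have hS0 : 0 ≤ SS d ρ β n := by linarith
  obtain ⟨Y, hYdef⟩ : ∃ Y, Y = h0 * Y0 / 2 := ⟨_, rfl⟩
  have hYC : C * X ≤ 2 * Y := by rw [hYdef]; linarith
  have hCX : 0 < C * X := by positivity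
  have hY0 : 0 < Y := by linarith
  -- the three events
  have b1 := wait_prob (ρ := ρ) (β := β) j0 hρ (le_refl n) (w := 4 * X / q) (by positivity)
  have b2 := luck_S (ρ := ρ) (β := β) j0 hρ hh0.le hf hn1 hnN hY0
  have b3 := hback h0 N n Y hh0.le hf hn1 hnN hY0
  have c1 : SS d ρ β n / (4 * X / q) ≤ q / 4 := by
    rw [div_le_iff₀ (by positivity)]
    have : q / 4 * (4 * X / q) = X := by field_simp
    rw [this]
    exact hXS
  have hSY : SS d ρ β n / Y ≤ 2 / C := by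
    rw [div_le_div_iff₀ hY0 hC0]
    calc SS d ρ β n * C ≤ X * C := mul_le_mul_of_nonneg_right hXS hC0.le
      _ = C * X := by ring
      _ ≤ 2 * Y := hYC
  have hdC : (d : ℝ) * (2 / C) ≤ q / 48 := by
    rw [mul_div_assoc', div_le_iff₀ hC0]
    rw [div_le_iff₀ hq] at hC4
    linarith
  have hdS : (d : ℝ) * (SS d ρ β n / Y) ≤ q / 48 := (mul_le_mul_of_nonneg_left hSY hd0).trans hdC
  have c2 : 4 * d * SS d ρ β n / Y ≤ q / 12 := by
    have : 4 * d * SS d ρ β n / Y = 4 * (d * (SS d ρ β n / Y)) := by ring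
    rw [this]
    linarith
  have c3 : 8 * d * SS d ρ β n / Y ≤ q / 6 := by
    have : 8 * d * SS d ρ β n / Y = 8 * (d * (SS d ρ β n / Y)) := by ring
    rw [this]
    linarith
  have c4 : C₂ * (2 * (n : ℝ) + 1) ^ (d + 1) * Real.exp (-(Y / 4)) ≤ q / 4 := by
    have e1 := SaD_poly2 hn5 d
    have e2 : Real.exp (-(Y / 4)) ≤ Real.exp (-((2 * d + 3) * Real.log n)) := by
      apply Real.exp_le_exp.2
      have e3 : C * Real.log n ≤ C * X := mul_le_mul_of_nonneg_left hXl hC0.le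
      have e4 : 8 * (2 * (d : ℝ) + 3) * Real.log n ≤ C * Real.log n := mul_le_mul_of_nonneg_right hC3 hlog
      linarith
    have e5 : (2 * (n : ℝ) + 1) ^ (d + 1) * Real.exp (-(Y / 4)) ≤ 1 / n := by
      calc (2 * (n : ℝ) + 1) ^ (d + 1) * Real.exp (-(Y / 4))
          ≤ Real.exp ((2 * d + 2) * Real.log n) * Real.exp (-((2 * d + 3) * Real.log n)) :=
            mul_le_mul e1 e2 (Real.exp_pos _).le (Real.exp_pos _).le
        _ = 1 / n := by
            rw [← Real.exp_add]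
            have : (2 * (d : ℝ) + 2) * Real.log n + -((2 * d + 3) * Real.log n) = -Real.log n := by ring
            rw [this, Real.exp_neg, Real.exp_log hn0, one_div]
    have e6 : (1 : ℝ) / n ≤ 1 / C := one_div_le_one_div_of_le hC0 hCn
    have e7 : C₂ * (1 / C) ≤ q / 4 := by
      rw [mul_one_div, div_le_iff₀ hC0]
      rw [div_le_iff₀ hq] at hC5
      linarith
    calc C₂ * (2 * (n : ℝ) + 1) ^ (d + 1) * Real.exp (-(Y / 4))
        = C₂ * ((2 * (n : ℝ) + 1) ^ (d + 1) * Real.exp (-(Y / 4))) := by ring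
      _ ≤ C₂ * (1 / C) := mul_le_mul_of_nonneg_left (e5.trans e6) hC₂.le
      _ ≤ q / 4 := e7
  have hsub : {η : Env d | ¬ Real.exp (-(C * X)) ≤ V ρ β η (stP (2 * n) Y0 (0 : Site d))} ⊆
      {η : Env d | ¬ Tle ρ β η n 0 (4 * X / q)} ∪
        ({η | ∃ l ≤ n, ∃ y : Site d, Real.exp (Y - h0 * sn y) ≤ Vp ρ β η (2 * l) y} ∪
          {η | ∃ l ≤ n, ∃ y : Site d,
            Real.exp (Y - h0 * sn y) ≤ Vp ρ β (sh (2 * n - 2 * l) (-y) η) (2 * l) y}) := by
    intro η hη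
    by_contra hcon
    rw [Set.mem_union, Set.mem_union, not_or, not_or] at hcon
    obtain ⟨g1, g2, g3⟩ := hcon
    rw [Set.mem_ofPred_eq, not_not] at g1
    rw [Set.mem_ofPred_eq] at g2 g3 hη
    push Not at g2 g3 hη
    unfold Tle at g1
    have k1 : V ρ β η (stP (2 * n) Y0 (0 : Site d)) ≤ 1 / 2 * Vp ρ β η (2 * n) 0 := by
      have k2 : Real.exp (-(C * X)) ≤ 1 / 2 * Real.exp (-(4 * X / q)) := by
        have k3 : Real.exp (-1) ≤ 1 / 2 := by
          have := Real.add_one_le_exp (1 : ℝ)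
          rw [Real.exp_neg, one_div]
          exact inv_anti₀ (by norm_num) (by linarith)
        calc Real.exp (-(C * X)) ≤ Real.exp (-1 + -(4 * X / q)) := by
              apply Real.exp_le_exp.2
              have k4 : (4 / q + 3 + 2 * d) * X ≤ C * X := mul_le_mul_of_nonneg_right hC2 (by linarith)
              have k5 : 4 * X / q = 4 / q * X := by ring
              have k6 : 0 ≤ 2 * (d : ℝ) * X := by positivity
              rw [k5]
              linarith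
          _ = Real.exp (-1) * Real.exp (-(4 * X / q)) := Real.exp_add _ _
          _ ≤ 1 / 2 * Real.exp (-(4 * X / q)) := mul_le_mul_of_nonneg_right k3 (Real.exp_pos _).le
      linarith
    obtain ⟨l, hl, p, hp, hV⟩ := exit_even_S j0 η k1
    have m1 := g2 l hl p
    have m2 := g3 (n - l) (by omega) (-p)
    have m3 : 2 * n - 2 * (n - l) = 2 * l := by omega
    have m4 : 2 * (n - l) = 2 * n - 2 * l := by omega
    rw [neg_neg, m3, m4, sn_neg] at m2
    have m5 : 0 ≤ Vp ρ β (sh (2 * l) p η) (2 * n - 2 * l) (-p) := by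
      unfold Vp V
      exact mul_nonneg (Real.exp_pos _).le (ZT_nonneg _ _ _ _)
    have m6 : Vp ρ β η (2 * l) p * Vp ρ β (sh (2 * l) p η) (2 * n - 2 * l) (-p) ≤
        Real.exp (Y - h0 * sn p) * Real.exp (Y - h0 * sn p) :=
      mul_le_mul m1.le m2.le m5 (Real.exp_pos _).le
    have m7 : Real.exp (Y - h0 * sn p) * Real.exp (Y - h0 * sn p) ≤ Real.exp (-(C * X)) := by
      rw [← Real.exp_add]
      apply Real.exp_le_exp.2
      have m8 : h0 * Y0 ≤ h0 * sn p := mul_le_mul_of_nonneg_left (by exact_mod_cast hp) hh0.le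
      rw [hYdef]
      linarith
    have m9 := SaD_poly hn5 d
    have m10 : 2 * ((n : ℝ) + 1) * (4 * (n : ℝ) + 1) ^ d *
        (Vp ρ β η (2 * l) p * Vp ρ β (sh (2 * l) p η) (2 * n - 2 * l) (-p)) ≤
        Real.exp ((3 + 2 * d) * Real.log n) * Real.exp (-(C * X)) := by
      refine (mul_le_mul_of_nonneg_left (m6.trans m7) (by positivity)).trans ?_
      exact mul_le_mul_of_nonneg_right m9 (Real.exp_pos _).le
    have m11 : Real.exp ((3 + 2 * d) * Real.log n) * Real.exp (-(C * X)) ≤ Real.exp (-(4 * X / q)) := by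
      rw [← Real.exp_add]
      apply Real.exp_le_exp.2
      have k4 : (4 / q + 3 + 2 * d) * X ≤ C * X := mul_le_mul_of_nonneg_right hC2 (by linarith)
      have k5 : 4 * X / q = 4 / q * X := by ring
      have k6 : (3 + 2 * (d : ℝ)) * Real.log n ≤ (3 + 2 * d) * X := mul_le_mul_of_nonneg_left hXl (by positivity)
      rw [k5]
      linarith
    -- equality everywhere is impossible: use strictness of the two lucks
    have m12 : Vp ρ β η (2 * l) p * Vp ρ β (sh (2 * l) p η) (2 * n - 2 * l) (-p) <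
        Real.exp (Y - h0 * sn p) * Real.exp (Y - h0 * sn p) := by
      calc Vp ρ β η (2 * l) p * Vp ρ β (sh (2 * l) p η) (2 * n - 2 * l) (-p)
          ≤ Real.exp (Y - h0 * sn p) * Vp ρ β (sh (2 * l) p η) (2 * n - 2 * l) (-p) :=
            mul_le_mul_of_nonneg_right m1.le m5
        _ < Real.exp (Y - h0 * sn p) * Real.exp (Y - h0 * sn p) :=
            mul_lt_mul_of_pos_left m2 (Real.exp_pos _)
    have m13 : 2 * ((n : ℝ) + 1) * (4 * (n : ℝ) + 1) ^ d *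
        (Vp ρ β η (2 * l) p * Vp ρ β (sh (2 * l) p η) (2 * n - 2 * l) (-p)) <
        Real.exp ((3 + 2 * d) * Real.log n) * Real.exp (-(C * X)) := by
      refine (mul_lt_mul_of_pos_left (m12.trans_le m7) (by positivity)).trans_le ?_
      exact mul_le_mul_of_nonneg_right m9 (Real.exp_pos _).le
    linarith
  have h1 := measureReal_mono hsub (measure_ne_top (law d ρ) _)
  have h2 := measureReal_union_le (μ := law d ρ) {η : Env d | ¬ Tle ρ β η n 0 (4 * X / q)}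
    ({η | ∃ l ≤ n, ∃ y : Site d, Real.exp (Y - h0 * sn y) ≤ Vp ρ β η (2 * l) y} ∪
      {η | ∃ l ≤ n, ∃ y : Site d, Real.exp (Y - h0 * sn y) ≤ Vp ρ β (sh (2 * n - 2 * l) (-y) η) (2 * l) y})
  have h3 := measureReal_union_le (μ := law d ρ)
    {η | ∃ l ≤ n, ∃ y : Site d, Real.exp (Y - h0 * sn y) ≤ Vp ρ β η (2 * l) y}
    {η | ∃ l ≤ n, ∃ y : Site d, Real.exp (Y - h0 * sn y) ≤ Vp ρ β (sh (2 * n - 2 * l) (-y) η) (2 * l) y}
  linarith

/-- `stP ⊆ toP`, `luck_S` with `y = 0`. -/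
theorem tube_up (j0 : Fin d) (hρ : EM ρ) {h0 : ℝ} (hh : 0 ≤ h0) {N : ℕ}
    (hf : ∀ j : Fin d, lam ρ β (h0 • ej j) ≤ lam ρ β (0 : Vec d) + 1 / N) {n : ℕ} (hn : 1 ≤ n)
    (hnN : 2 * n ≤ N) (Y0 : ℕ) {Y : ℝ} (hY : 0 < Y) :
    (law d ρ).real {η : Env d | Real.exp Y ≤ V ρ β η (stP (2 * n) Y0 (0 : Site d))} ≤
      4 * d * SS d ρ β n / Y := by
  refine le_trans (measureReal_mono ?_ (measure_ne_top _ _)) (luck_S j0 hρ hh hf hn hnN hY)
  intro η hη
  refine ⟨n, le_rfl, 0, ?_⟩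
  have h1 : sn (0 : Site d) = 0 := by
    have := sn_le_iff (x := (0 : Site d)) (k := 0)
    have h2 : sn (0 : Site d) ≤ 0 := this.2 fun j => by simp
    omega
  rw [h1]
  simp only [Nat.cast_zero, mul_zero, sub_zero]
  exact le_trans hη (V_mono _ stP_sub)

/-- (1.3) before the arithmetic: `strip_fluct` with `u = C X`, `v = C X`, `q = εF / 2`; `Y0 = ⌈C X / h0⌉ ≤ 2 C X / h0`. -/
theorem low_fluct (j0 : Fin d) (hρ : EM ρ) {εF cF : ℝ} (hε : 0 < εF) (hc : 0 < cF)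
    (hf : FluctAt ρ β εF cF) : ∃ C : ℝ, 1 ≤ C ∧ ∀ (h0 : ℝ) (N n : ℕ), 0 < h0 → h0 ≤ 1 →
    (∀ j : Fin d, lam ρ β (h0 • ej j) ≤ lam ρ β (0 : Vec d) + 1 / N) → C ≤ n → 2 * n ≤ N →
    (n : ℝ) * h0 ^ d ≤ C * (SS d ρ β n + Real.log n) ^ (d + 2) := by
  obtain ⟨C, hC1, htube⟩ := tube_S (ρ := ρ) (β := β) j0 hρ (q := εF / 2) (by linarith)
  have hd0 : (0 : ℝ) ≤ d := Nat.cast_nonneg _
  have hC0 : 0 < C := by linarith
  obtain ⟨D, hD⟩ : ∃ D : ℝ, D = C + 8 * d / εF := ⟨_, rfl⟩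
  have hD1 : C ≤ D := by
    rw [hD]
    have : 0 ≤ 8 * (d : ℝ) / εF := by positivity
    linarith
  have hD2 : 8 * (d : ℝ) / εF ≤ D := by rw [hD]; linarith
  have hD0 : 0 < D := by linarith
  refine ⟨max C ((2 * D) ^ 2 * (5 * C) ^ d / (2 * cF ^ 2)), hC1.trans (le_max_left _ _), ?_⟩
  intro h0 N n hh0 hh1 hfl hCn hnN
  have hCn' : C ≤ n := (le_max_left _ _).trans hCn
  have hn1 : 1 ≤ n := by
    have : (1 : ℝ) ≤ n := hC1.trans hCn'
    exact_mod_cast this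
  have hn1r : (1 : ℝ) ≤ n := by exact_mod_cast hn1
  have hn0 : (0 : ℝ) < n := by linarith
  have hlog : 0 ≤ Real.log n := Real.log_nonneg hn1r
  have hS1 := one_le_SS (d := d) (ρ := ρ) (β := β) hn1
  have ht := htube h0 N n ⌈C * (SS d ρ β n + Real.log n) / h0⌉₊ hh0 hh1 hfl hCn' hnN
  obtain ⟨X, hX⟩ : ∃ X, X = SS d ρ β n + Real.log n := ⟨_, rfl⟩
  rw [← hX] at ht ⊢
  have hX1 : 1 ≤ X := by rw [hX]; linarith
  have hXS : SS d ρ β n ≤ X := by rw [hX]; linarith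
  obtain ⟨Y0, hY0⟩ : ∃ Y0 : ℕ, Y0 = ⌈C * X / h0⌉₊ := ⟨_, rfl⟩
  rw [← hY0] at ht
  have hpos : 0 < C * X / h0 := by positivity
  have hge : C * X / h0 ≤ Y0 := by rw [hY0]; exact Nat.le_ceil _
  have hle : (Y0 : ℝ) < C * X / h0 + 1 := by rw [hY0]; exact Nat.ceil_lt_add_one hpos.le
  have hone : 1 ≤ C * X / h0 := by
    rw [le_div_iff₀ hh0]
    nlinarith
  have hY1 : 1 ≤ Y0 := by
    have : (1 : ℝ) ≤ Y0 := hone.trans hge
    exact_mod_cast this
  have ht' := ht (by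
    rw [div_le_iff₀ hh0] at hge
    linarith)
  have hXD : 0 < D * X := by positivity
  have hup := tube_up (ρ := ρ) (β := β) j0 hρ hh0.le hfl hn1 hnN Y0 hXD
  have hup' : 4 * d * SS d ρ β n / (D * X) ≤ εF / 2 := by
    rw [div_le_iff₀ hXD]
    rw [div_le_iff₀ hε] at hD2
    have h1 : (d : ℝ) * SS d ρ β n ≤ d * X := mul_le_mul_of_nonneg_left hXS hd0
    have h2 : 8 * (d : ℝ) * X ≤ D * εF * X := mul_le_mul_of_nonneg_right hD2 (by linarith)
    linarith
  have hlow : (law d ρ).real {η : Env d | ¬ Real.exp (-(D * X)) ≤ V ρ β η (stP (2 * n) Y0 (0 : Site d))} ≤ εF / 2 := by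
    refine le_trans (measureReal_mono ?_ (measure_ne_top _ _)) ht'
    intro η hη hcon
    apply hη
    refine le_trans (Real.exp_le_exp.2 ?_) hcon
    have := mul_le_mul_of_nonneg_right hD1 (show 0 ≤ X by linarith)
    linarith
  have key := strip_fluct j0 hf hY1 (u := D * X) (v := D * X) (by linarith)
  -- the arithmetic
  have h5 : 2 * (Y0 : ℝ) + 1 ≤ 5 * C * X / h0 := by
    have : 5 * C * X / h0 = 5 * (C * X / h0) := by ring
    rw [this]
    linarith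
  have h6 : (2 * (Y0 : ℝ) + 1) ^ d ≤ (5 * C * X / h0) ^ d := pow_le_pow_left₀ (by positivity) h5 d
  have h7 : (cF * (2 * n)) ^ 2 ≤ (D * X + D * X) ^ 2 * (2 * n * (2 * (Y0 : ℝ) + 1) ^ d) := by
    have h8 := pow_le_pow_left₀ (by positivity) key 2
    rwa [mul_pow (D * X + D * X), Real.sq_sqrt (by positivity)] at h8
  have h8 : (cF * (2 * n)) ^ 2 ≤ (D * X + D * X) ^ 2 * (2 * n * (5 * C * X / h0) ^ d) :=
    h7.trans (mul_le_mul_of_nonneg_left (mul_le_mul_of_nonneg_left h6 (by positivity)) (by positivity))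
  have h9 : (5 * C * X / h0) ^ d * h0 ^ d = (5 * C) ^ d * X ^ d := by
    rw [div_pow, mul_pow, div_mul_cancel₀ _ (pow_pos hh0 d).ne']
  have h10 : 2 * cF ^ 2 * n * h0 ^ d ≤ (2 * D) ^ 2 * (5 * C) ^ d * X ^ (d + 2) := by
    have h11 := mul_le_mul_of_nonneg_right h8 (pow_pos hh0 d).le
    have h12 : (D * X + D * X) ^ 2 * (2 * n * (5 * C * X / h0) ^ d) * h0 ^ d =
        2 * n * ((2 * D) ^ 2 * (5 * C) ^ d * X ^ (d + 2)) := by
      calc (D * X + D * X) ^ 2 * (2 * n * (5 * C * X / h0) ^ d) * h0 ^ d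
          = (D * X + D * X) ^ 2 * (2 * n) * ((5 * C * X / h0) ^ d * h0 ^ d) := by ring
        _ = 2 * n * ((2 * D) ^ 2 * (5 * C) ^ d * X ^ (d + 2)) := by
            rw [h9, pow_add]
            ring
    have h13 : (cF * (2 * n)) ^ 2 * h0 ^ d = 2 * n * (2 * cF ^ 2 * n * h0 ^ d) := by ring
    rw [h12, h13] at h11
    exact le_of_mul_le_mul_left h11 (by positivity)
  have h14 : (n : ℝ) * h0 ^ d ≤ (2 * D) ^ 2 * (5 * C) ^ d / (2 * cF ^ 2) * X ^ (d + 2) := by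
    rw [div_mul_eq_mul_div, le_div_iff₀ (by positivity)]
    linarith
  exact h14.trans (mul_le_mul_of_nonneg_right (le_max_right _ _) (by positivity))

end Pool.Agent.W_7d29a1_q
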