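import Pool.Agent.W_7d29a1_q.SaD

/-!
Row 601, section 1, (1.3). TASK SaE.
-/

namespace Pool.Agent.W_7d29a1_q

open MeasureTheory ProbabilityTheory Filter Topology Pool.Agent.W_MP_7d29a1_pr
  Pool.Agent.W_7d29a1_h46 Pool.Agent.W_7d29a1_h46u Pool.Agent.W_7d29a1_h3

variable {d : ℕ} {ρ : Measure ℝ} [IsProbabilityMeasure ρ] {β : ℝ}

/-- (1.3): arithmetic. `low_fluct` with `n = N / 4` and `h0 ≥ N ^ (-c)`: `X ^ (d + 2) ≥ N ^ (1 - c d) / (8 C)`, `log n ≤ N ^ ε`. -/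
theorem SS_low (j0 : Fin d) (hρ : EM ρ) (hnc : ∀ c : ℝ, ρ {c} ≠ 1) (hβ : 0 < β) {c : ℝ} (hc : 0 < c)
    (hc1 : c ≤ 1 / (400 * ((d : ℝ) + 2))) : ∀ᶠ N : ℕ in atTop, Hy d ρ β c N →
      (N : ℝ) ^ (1 / ((d : ℝ) + 2) - 2 * c) ≤ SS d ρ β (N / 4) := by
  obtain ⟨εF, hε, cF, hcF, hf⟩ := fluct ρ hnc β hβ (hρ β)
  obtain ⟨C, hC, hlow⟩ := low_fluct j0 hρ hε hcF hf
  have hd : (0 : ℝ) < (d : ℝ) + 2 := by positivity
  have hd2 : ((d : ℝ) + 2) ≠ 0 := hd.ne'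
  obtain ⟨a, ha⟩ : ∃ a : ℝ, a = 1 / ((d : ℝ) + 2) - 2 * c := ⟨_, rfl⟩
  have hca : c ≤ (1 / ((d : ℝ) + 2)) / 400 := by
    have : 1 / (400 * ((d : ℝ) + 2)) = (1 / ((d : ℝ) + 2)) / 400 := by
      field_simp
    linarith
  have hinv : 0 < 1 / ((d : ℝ) + 2) := by positivity
  have ha0 : 0 < a := by rw [ha]; linarith
  have had : a * ((d : ℝ) + 2) = 1 - 2 * c * ((d : ℝ) + 2) := by
    rw [ha, sub_mul, one_div, inv_mul_cancel₀ hd2]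
  have E1 : ∀ᶠ N : ℕ in atTop, Real.log N ≤ (N : ℝ) ^ a := by
    have h1 := (isLittleO_log_rpow_atTop ha0).bound (show (0 : ℝ) < 1 by norm_num)
    have h2 := tendsto_natCast_atTop_atTop.eventually h1
    filter_upwards [h2, eventually_ge_atTop 1] with N hN hN1
    rw [one_mul] at hN
    have h3 : (1 : ℝ) ≤ N := by exact_mod_cast hN1
    rw [Real.norm_of_nonneg (Real.log_nonneg h3), Real.norm_of_nonneg (by positivity)] at hN
    exact hN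
  have E2 : ∀ᶠ N : ℕ in atTop, 8 * C * 2 ^ (d + 2) < (N : ℝ) ^ (c * ((d : ℝ) + 4)) := by
    have h1 := (tendsto_rpow_atTop (show 0 < c * ((d : ℝ) + 4) by positivity)).comp
      tendsto_natCast_atTop_atTop (α := ℕ)
    exact h1.eventually (eventually_gt_atTop (8 * C * 2 ^ (d + 2)))
  have E3 : ∀ᶠ N : ℕ in atTop, 8 * C ≤ (N : ℝ) :=
    tendsto_natCast_atTop_atTop.eventually (eventually_ge_atTop (8 * C))
  filter_upwards [E1, E2, E3] with N h1 h2 h3 H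
  obtain ⟨h0, hh1, hh2, hflat⟩ := H.flat
  by_contra hcon
  rw [not_le, ← ha] at hcon
  have hN8 : (8 : ℝ) ≤ N := by linarith
  have hN0 : (0 : ℝ) < N := by linarith
  have hn : (N : ℝ) / 8 ≤ ((N / 4 : ℕ) : ℝ) := by
    have h4 : N < 4 * (N / 4) + 4 := by omega
    have h5 : (N : ℝ) < 4 * ((N / 4 : ℕ) : ℝ) + 4 := by exact_mod_cast h4
    linarith
  have hh0 : 0 < h0 := lt_of_lt_of_le (Real.rpow_pos_of_pos hN0 _) hh1
  have hn2 : 2 * (N / 4) ≤ N := by omega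
  have key := hlow h0 N (N / 4) hh0 hh2 hflat (by linarith) hn2
  have hlog : Real.log ((N / 4 : ℕ) : ℝ) ≤ (N : ℝ) ^ a := by
    refine le_trans (Real.log_le_log (by linarith) ?_) h1
    have : N / 4 ≤ N := Nat.div_le_self N 4
    exact_mod_cast this
  have hX : SS d ρ β (N / 4) + Real.log ((N / 4 : ℕ) : ℝ) ≤ 2 * (N : ℝ) ^ a := by linarith
  have hX0 : 0 ≤ SS d ρ β (N / 4) + Real.log ((N / 4 : ℕ) : ℝ) := by
    have h6 := SS_nonneg (d := d) (ρ := ρ) (β := β) (N / 4)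
    have h7 : 0 ≤ Real.log ((N / 4 : ℕ) : ℝ) := Real.log_nonneg (by linarith)
    linarith
  have hXp : (SS d ρ β (N / 4) + Real.log ((N / 4 : ℕ) : ℝ)) ^ (d + 2) ≤
      2 ^ (d + 2) * (N : ℝ) ^ (1 - 2 * c * ((d : ℝ) + 2)) := by
    refine le_trans (pow_le_pow_left₀ hX0 hX _) ?_
    rw [mul_pow]
    refine mul_le_mul_of_nonneg_left ?_ (by positivity)
    rw [← Real.rpow_natCast, ← Real.rpow_mul hN0.le]
    refine le_of_eq ?_
    congr 1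
    push_cast
    exact had
  have hh0d : (N : ℝ) ^ (-(c * d)) ≤ h0 ^ d := by
    have h8 : (N : ℝ) ^ (-(c * (d : ℝ))) = ((N : ℝ) ^ (-c)) ^ d := by
      rw [← Real.rpow_natCast, ← Real.rpow_mul hN0.le]
      congr 1
      ring
    rw [h8]
    exact pow_le_pow_left₀ (by positivity) hh1 d
  have hL : (N : ℝ) ^ (1 - c * d) / 8 ≤ ((N / 4 : ℕ) : ℝ) * h0 ^ d := by
    have h9 : (N : ℝ) ^ (1 - c * (d : ℝ)) = N * (N : ℝ) ^ (-(c * (d : ℝ))) := by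
      rw [sub_eq_add_neg, Real.rpow_add hN0, Real.rpow_one]
    rw [h9]
    calc (N : ℝ) * (N : ℝ) ^ (-(c * (d : ℝ))) / 8 = (N / 8) * (N : ℝ) ^ (-(c * (d : ℝ))) := by ring
      _ ≤ ((N / 4 : ℕ) : ℝ) * h0 ^ d := mul_le_mul hn hh0d (by positivity) (by positivity)
  have h10 : (N : ℝ) ^ (1 - c * d) / 8 ≤ C * (2 ^ (d + 2) * (N : ℝ) ^ (1 - 2 * c * ((d : ℝ) + 2))) :=
    hL.trans (key.trans (mul_le_mul_of_nonneg_left hXp (by linarith)))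
  have h11 : (N : ℝ) ^ (1 - c * d) = (N : ℝ) ^ (c * ((d : ℝ) + 4)) *
      (N : ℝ) ^ (1 - 2 * c * ((d : ℝ) + 2)) := by
    rw [← Real.rpow_add hN0]
    congr 1
    ring
  have h12 : 0 < (N : ℝ) ^ (1 - 2 * c * ((d : ℝ) + 2)) := Real.rpow_pos_of_pos hN0 _
  rw [h11] at h10
  have h13 : (8 * C * 2 ^ (d + 2)) * (N : ℝ) ^ (1 - 2 * c * ((d : ℝ) + 2)) <
      (N : ℝ) ^ (c * ((d : ℝ) + 4)) * (N : ℝ) ^ (1 - 2 * c * ((d : ℝ) + 2)) :=
    mul_lt_mul_of_pos_right h2 h12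
  nlinarith

/-- `am d N = N ^ (1 / (2 (d + 2)))` is smaller; `SS_mono`. -/
theorem big_of (j0 : Fin d) (hρ : EM ρ) (hnc : ∀ c : ℝ, ρ {c} ≠ 1) (hβ : 0 < β) {c : ℝ} (hc : 0 < c)
    (hc1 : c ≤ 1 / (400 * ((d : ℝ) + 2))) : ∀ᶠ N : ℕ in atTop, Hy d ρ β c N →
      ∀ n : ℕ, SS d ρ β n ≤ am d N → 4 * n < N := by
  filter_upwards [SS_low j0 hρ hnc hβ hc hc1, eventually_ge_atTop 2] with N hN hN2 H n hn
  by_contra hcon
  have h1 : N / 4 ≤ n := by omega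
  have h2 := hN H
  have h3 := SS_mono (d := d) (ρ := ρ) (β := β) h1
  have hd : (0 : ℝ) < (d : ℝ) + 2 := by positivity
  have hca : c ≤ (1 / ((d : ℝ) + 2)) / 400 := by
    have : 1 / (400 * ((d : ℝ) + 2)) = (1 / ((d : ℝ) + 2)) / 400 := by
      field_simp
    linarith
  have hinv : 0 < 1 / ((d : ℝ) + 2) := by positivity
  have hN1 : (1 : ℝ) < N := by exact_mod_cast (by omega : 1 < N)
  have h4 : (N : ℝ) ^ (1 / (2 * ((d : ℝ) + 2))) < (N : ℝ) ^ (1 / ((d : ℝ) + 2) - 2 * c) := by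
    refine Real.rpow_lt_rpow_of_exponent_lt hN1 ?_
    have : 1 / (2 * ((d : ℝ) + 2)) = (1 / ((d : ℝ) + 2)) / 2 := by
      field_simp
    linarith
  unfold am at hn
  linarith

end Pool.Agent.W_7d29a1_q
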