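import Pool.Agent.W_7d29a1_q.SaB

/-!
Row 601, section 2, (2.3): the price is not small. TASK SaF.
-/

namespace Pool.Agent.W_7d29a1_q

open MeasureTheory ProbabilityTheory Filter Topology Pool.Agent.W_MP_7d29a1_pr
  Pool.Agent.W_7d29a1_h46 Pool.Agent.W_7d29a1_h46u Pool.Agent.W_7d29a1_h3

variable {d : ℕ} {ρ : Measure ℝ} [IsProbabilityMeasure ρ] {β : ℝ}

/-- `luck_S` with `n = l = t`, `y = z`, `Y = 9 d S(t)`: probability `< 1 / 2`. So `x ≥ h0 sn z - 9 d S(t)`. -/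
theorem Ch_low (j0 : Fin d) (hρ : EM ρ) {h0 : ℝ} (hh : 0 ≤ h0) {N : ℕ}
    (hf : ∀ j : Fin d, lam ρ β (h0 • ej j) ≤ lam ρ β (0 : Vec d) + 1 / N) {t : ℕ} (ht : 1 ≤ t)
    (htN : 2 * t ≤ N) {z : Site d} {x : ℝ} (h : Ch ρ β t z x) :
    2 / (9 * (d : ℝ)) * h0 * sn z ≤ x + 2 * SS d ρ β t := by
  obtain ⟨hx, hP⟩ := h
  have hd : (1 : ℝ) ≤ d := by
    have : 1 ≤ d := Nat.one_le_iff_ne_zero.2 (by rintro rfl; exact j0.elim0)
    exact_mod_cast this
  have hd0 : (0 : ℝ) < d := by linarith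
  have hS : 0 < SS d ρ β t := by
    have := one_le_SS (d := d) (ρ := ρ) (β := β) ht
    linarith
  set S : ℝ := SS d ρ β t with hSdef
  have hY : 0 < 9 * (d : ℝ) * S := by positivity
  have hl := luck_S (β := β) j0 hρ hh hf ht htN hY
  have hx' : h0 * sn z - 9 * d * S ≤ x := by
    by_contra hc
    push Not at hc
    have hsub : {η : Env d | Tle ρ β η t z x} ⊆ {η | ∃ l ≤ t, ∃ y : Site d,
        Real.exp (9 * d * S - h0 * sn y) ≤ Vp ρ β η (2 * l) y} := by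
      intro η hη
      refine ⟨t, le_rfl, z, le_trans ?_ hη⟩
      rw [Real.exp_le_exp]
      linarith
    have h1 := measureReal_mono (μ := law d ρ) hsub (measure_ne_top _ _)
    have h2 : 4 * (d : ℝ) * S / (9 * d * S) = 4 / 9 := by
      field_simp
    rw [h2] at hl
    linarith
  have h3 : 0 ≤ 2 / (9 * (d : ℝ)) := by positivity
  have h4 : 2 / (9 * (d : ℝ)) ≤ 1 := by
    rw [div_le_one (by positivity)]
    linarith
  have h5 : 2 / (9 * (d : ℝ)) * (h0 * sn z) ≤ 2 / (9 * (d : ℝ)) * (x + 9 * d * S) :=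
    mul_le_mul_of_nonneg_left (by linarith) h3
  have h6 : 2 / (9 * (d : ℝ)) * (x + 9 * d * S) = 2 / (9 * (d : ℝ)) * x + 2 * S := by
    field_simp
  have h7 : 2 / (9 * (d : ℝ)) * x ≤ 1 * x := mul_le_mul_of_nonneg_right h4 hx
  linarith

end Pool.Agent.W_7d29a1_q
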