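import Pool.Agent.W_7d29a1_q.BasC

/-!
Row 601, section 2: the price is attained. TASK SaG.
-/

namespace Pool.Agent.W_7d29a1_q

open MeasureTheory ProbabilityTheory Filter Topology Pool.Agent.W_MP_7d29a1_pr
  Pool.Agent.W_7d29a1_h46 Pool.Agent.W_7d29a1_h46u Pool.Agent.W_7d29a1_h3

variable {d : ℕ} {ρ : Measure ℝ} [IsProbabilityMeasure ρ] {β : ℝ}

/-- Right continuity: `{T ≤ x}` is the decreasing intersection of the `{T ≤ x + 1/(k+1)}`. -/
theorem isClosed_Ch (t : ℕ) (z : Site d) : IsClosed {x : ℝ | Ch ρ β t z x} := by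
  refine isClosed_of_closure_subset fun x hx => ?_
  rw [mem_closure_iff_seq_limit] at hx
  obtain ⟨u, hu, hux⟩ := hx
  have h0 : ∀ n, 0 ≤ u n := fun n => (hu n).1
  have hx0 : 0 ≤ x := ge_of_tendsto' hux h0
  refine ⟨hx0, ?_⟩
  obtain ⟨s, hs⟩ : ∃ s : ℕ → Set (Env d), ∀ k, s k = {η : Env d | Tle ρ β η t z (x + 1 / ((k : ℝ) + 1))} :=
    ⟨_, fun _ => rfl⟩
  have hsm : ∀ k, MeasurableSet (s k) := fun k => by
    rw [hs]
    exact measurableSet_Tle t z _
  have hanti : Antitone s := by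
    intro k l hkl η hη
    rw [hs] at hη ⊢
    refine Tle_mono hη ?_
    have h1 : (1 : ℝ) / ((l : ℝ) + 1) ≤ 1 / ((k : ℝ) + 1) := by
      refine one_div_le_one_div_of_le (by positivity) ?_
      have h2 : (k : ℝ) ≤ l := by exact_mod_cast hkl
      linarith
    linarith
  have hinter : (⋂ k, s k) = {η : Env d | Tle ρ β η t z x} := by
    ext η
    simp only [Set.mem_iInter, hs]
    constructor
    · intro h
      have h1 : Tendsto (fun k : ℕ => Real.exp (-(x + 1 / ((k : ℝ) + 1)))) atTop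
          (𝓝 (Real.exp (-(x + 0)))) :=
        (Real.continuous_exp.tendsto _).comp
          ((tendsto_const_nhds.add tendsto_one_div_add_atTop_nhds_zero_nat).neg)
      rw [add_zero] at h1
      exact le_of_tendsto' h1 h
    · intro h k
      refine Tle_mono h ?_
      have h1 : (0 : ℝ) ≤ 1 / ((k : ℝ) + 1) := by positivity
      linarith
  have hlim : Tendsto (fun k => (law d ρ).real (s k)) atTop
      (𝓝 ((law d ρ).real (⋂ k, s k))) :=
    (ENNReal.tendsto_toReal (measure_ne_top _ _)).comp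
      (tendsto_measure_iInter_atTop (fun k => (hsm k).nullMeasurableSet) hanti
        ⟨0, measure_ne_top _ _⟩)
  rw [hinter] at hlim
  refine ge_of_tendsto' hlim fun k => ?_
  have hk : 0 < 1 / ((k : ℝ) + 1) := by positivity
  have hev := hux.eventually (gt_mem_nhds (show x < x + 1 / ((k : ℝ) + 1) by linarith))
  obtain ⟨n, hn⟩ := hev.exists
  refine (hu n).2.trans (measureReal_mono ?_ (measure_ne_top _ _))
  intro η hη
  rw [hs]
  exact Tle_mono hη hn.le

/-- `V` of a site which is not admissible is `0`, so `sn z ≤ 2 t`. -/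
theorem Ch_sn (j0 : Fin d) {t : ℕ} {z : Site d} {x : ℝ} (h : Ch ρ β t z x) : sn z ≤ 2 * t := by
  have h1 : ({η : Env d | Tle ρ β η t z x}).Nonempty := by
    by_contra hc
    have h2 := h.2
    rw [Set.not_nonempty_iff_eq_empty.1 hc, measureReal_empty] at h2
    norm_num at h2
  obtain ⟨η, hη⟩ := h1
  exact (sn_le_ln z).trans (Tle_adm j0 hη).1.1

/-- Finitely many `(t, z)`; for each of them a closed set of `x`. `IsClosed.csInf_mem`. -/
theorem attained (j0 : Fin d) {a : ℝ} {M : ℕ} (hM : ∀ t : ℕ, SS d ρ β t ≤ a → t ≤ M)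
    (hne : ∃ (t : ℕ) (z : Site d) (x : ℝ), 1 ≤ t ∧ z ≠ 0 ∧ Even (ln z) ∧ Ch ρ β t z x ∧
      x + 2 * SS d ρ β t ≤ a) :
    ∃ (t : ℕ) (z : Site d) (x : ℝ), 1 ≤ t ∧ z ≠ 0 ∧ Even (ln z) ∧ Ch ρ β t z x ∧
      x + 2 * SS d ρ β t ≤ a ∧ x + 2 * SS d ρ β t = pr d ρ β a * sn z := by
  classical
  obtain ⟨R, hR⟩ : ∃ R : Set ℝ, R = {r : ℝ | ∃ (t : ℕ) (z : Site d) (x : ℝ), 1 ≤ t ∧ z ≠ 0 ∧
    Even (ln z) ∧ Ch ρ β t z x ∧ x + 2 * SS d ρ β t ≤ a ∧ r * sn z = x + 2 * SS d ρ β t} := ⟨_, rfl⟩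
  have hpos : ∀ z : Site d, z ≠ 0 → (0 : ℝ) < sn z := by
    intro z hz
    have h1 : sn z ≠ 0 := by
      intro h
      apply hz
      have h2 := sn_le_iff.1 h.le
      funext j
      have h3 := h2 j
      simpa using h3
    exact_mod_cast Nat.pos_of_ne_zero h1
  have hne' : R.Nonempty := by
    obtain ⟨t, z, x, h1, h2, h3, h4, h5⟩ := hne
    refine ⟨(x + 2 * SS d ρ β t) / sn z, ?_⟩
    rw [hR]
    exact ⟨t, z, x, h1, h2, h3, h4, h5, div_mul_cancel₀ _ (hpos z h2).ne'⟩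
  have hbdd : BddBelow R := by
    refine ⟨0, ?_⟩
    rw [hR]
    rintro r ⟨t, z, x, h1, h2, h3, h4, h5, h6⟩
    have h7 : 0 ≤ r * sn z := by
      rw [h6]
      have h8 := h4.1
      have h9 := SS_nonneg (d := d) (ρ := ρ) (β := β) t
      linarith
    exact nonneg_of_mul_nonneg_left h7 (hpos z h2)
  obtain ⟨F, hF⟩ : ∃ F : Finset (ℕ × Site d), F = ((Finset.range (M + 1)) ×ˢ boxF d (2 * M)).filter
      fun p => 1 ≤ p.1 ∧ p.2 ≠ 0 ∧ Even (ln p.2) := ⟨_, rfl⟩
  have hRF : R = ⋃ p ∈ F, {r : ℝ | Ch ρ β p.1 p.2 (r * sn p.2 - 2 * SS d ρ β p.1) ∧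
      r * sn p.2 ≤ a} := by
    ext r
    rw [hR]
    simp only [Set.mem_iUnion]
    constructor
    · rintro ⟨t, z, x, h1, h2, h3, h4, h5, h6⟩
      have h8 := h4.1
      have h9 := SS_nonneg (d := d) (ρ := ρ) (β := β) t
      have ht : t ≤ M := hM t (by linarith)
      have hz : sn z ≤ 2 * M := (Ch_sn j0 h4).trans (by omega)
      refine ⟨(t, z), ?_, ?_⟩
      · rw [hF, Finset.mem_filter, Finset.mem_product, Finset.mem_range, mem_boxF_iff]
        exact ⟨⟨by omega, hz⟩, h1, h2, h3⟩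
      · refine ⟨?_, ?_⟩
        · have h10 : r * sn z - 2 * SS d ρ β t = x := by linarith
          change Ch ρ β t z (r * sn z - 2 * SS d ρ β t)
          rw [h10]
          exact h4
        · change r * sn z ≤ a
          linarith
    · rintro ⟨⟨t, z⟩, hp, h4, h5⟩
      rw [hF, Finset.mem_filter] at hp
      obtain ⟨-, h1, h2, h3⟩ := hp
      refine ⟨t, z, r * sn z - 2 * SS d ρ β t, h1, h2, h3, h4, ?_, ?_⟩
      · have h6 : r * sn z ≤ a := h5
        linarith
      · ring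
  have hcl : IsClosed R := by
    rw [hRF]
    refine isClosed_biUnion_finset fun p _ => ?_
    refine IsClosed.inter ?_ ?_
    · exact (isClosed_Ch (ρ := ρ) (β := β) p.1 p.2).preimage
        ((continuous_id.mul continuous_const).sub continuous_const)
    · exact isClosed_le (continuous_id.mul continuous_const) continuous_const
  have hmem := hcl.csInf_mem hne' hbdd
  have hpr : sInf R = pr d ρ β a := by
    rw [hR]
    rfl
  rw [hpr, hR] at hmem
  obtain ⟨t, z, x, h1, h2, h3, h4, h5, h6⟩ := hmem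
  exact ⟨t, z, x, h1, h2, h3, h4, h5, h6.symm⟩

end Pool.Agent.W_7d29a1_q
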