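import Pool.Agent.W_7d29a1_q.SaE
import Pool.Agent.W_7d29a1_q.SaF
import Pool.Agent.W_7d29a1_q.SaG
import Pool.Agent.W_7d29a1_q.BasE
import Pool.Agent.W_7d29a1_h3.MomC

/-!
Row 601, sections 1 and 2: the main lemma `sc_of`.
-/

namespace Pool.Agent.W_7d29a1_q

open MeasureTheory ProbabilityTheory Filter Topology Pool.Agent.W_MP_7d29a1_pr
  Pool.Agent.W_7d29a1_h46 Pool.Agent.W_7d29a1_h46u Pool.Agent.W_7d29a1_h3

variable {d : ℕ}

private theorem SaH_es (j : Fin d) (c : ℤ) : (c • es j : Site d) j = c := by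
  simp [es]

private theorem SaH_ln_es (j : Fin d) (c : ℤ) : ln (c • es j : Site d) = c.natAbs := by
  rw [Cat_ln_split _ j, SaH_es]
  have h : ∑ i ∈ Finset.univ.erase j, ((c • es j : Site d) i).natAbs = 0 := by
    refine Finset.sum_eq_zero fun i hi => ?_
    have h1 : (c • es j : Site d) i = 0 := by
      simp [es, Pi.single_eq_of_ne (Finset.ne_of_mem_erase hi)]
    rw [h1]
    rfl
  rw [h, add_zero]

private theorem SaH_one_le_sn {z : Site d} (hz : z ≠ 0) : 1 ≤ sn z := by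
  by_contra hcon
  apply hz
  funext j
  have h1 := Cat_le_sn z j
  have h2 : sn z = 0 := by omega
  rw [h2] at h1
  simpa using h1

/-- A first admissible pair: `t = 1`, `z = 2 e_j0` (`micro` with `n = 2`). -/
theorem exists_Ch (j0 : Fin d) (ρ : Measure ℝ) [IsProbabilityMeasure ρ] (hρ : EM ρ) (β : ℝ) :
    ∃ x : ℝ, 0 ≤ x ∧ Ch ρ β 1 ((2 : ℤ) • es j0) x := by
  obtain ⟨C, hC, hm⟩ := micro j0 hρ β
  have hadm : adm 2 ((2 : ℤ) • es j0 : Site d) := by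
    unfold adm
    rw [SaH_ln_es]
    exact ⟨le_rfl, rfl⟩
  have h1 := hm 2 _ hadm
  have hx : 0 ≤ C * ((2 : ℕ) : ℝ) := by positivity
  refine ⟨C * ((2 : ℕ) : ℝ), hx, hx, ?_⟩
  have hmeas := measurableSet_Tle (ρ := ρ) (β := β) 1 ((2 : ℤ) • es j0 : Site d) (C * ((2 : ℕ) : ℝ))
  have h2 : (law d ρ).real {η : Env d | Tle ρ β η 1 ((2 : ℤ) • es j0) (C * ((2 : ℕ) : ℝ))}ᶜ ≤
      Real.exp (-((2 : ℕ) : ℝ)) := h1
  rw [measureReal_compl hmeas, probReal_univ] at h2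
  have h3 : Real.exp (-((2 : ℕ) : ℝ)) ≤ 1 / 2 := by
    rw [Real.exp_neg]
    have h4 := Real.add_one_le_exp (((2 : ℕ) : ℝ))
    push_cast at h4 ⊢
    rw [inv_le_comm₀ (Real.exp_pos _) (by norm_num)]
    linarith
  have h4 := h2.trans h3
  rw [sub_le_comm] at h4
  refine le_trans (le_of_eq ?_) h4
  norm_num

/-- SECTIONS 1 and 2. -/
theorem sc_of (j0 : Fin d) (ρ : Measure ℝ) [IsProbabilityMeasure ρ] (hρ : EM ρ)
    (hnc : ∀ c : ℝ, ρ {c} ≠ 1) {β : ℝ} (hβ : 0 < β) :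
    ∃ a0 : ℝ, ∀ c : ℝ, 0 < c → c ≤ 1 / (400 * ((d : ℝ) + 2)) → ∀ᶠ N : ℕ in atTop,
      Hy d ρ β c N → Sc d ρ β c a0 N := by
  have hd : 0 < d := Fin.pos j0
  have hdR : (1 : ℝ) ≤ d := by exact_mod_cast hd
  obtain ⟨x0, hx0, hCh⟩ := exists_Ch j0 ρ hρ β
  have hz0 : ((2 : ℤ) • es j0 : Site d) ≠ 0 := by
    intro h
    have h1 := congrFun h j0
    rw [SaH_es] at h1
    simp at h1
  have he0 : Even (ln ((2 : ℤ) • es j0 : Site d)) := by
    rw [SaH_ln_es]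
    exact ⟨1, rfl⟩
  obtain ⟨a0, ha0⟩ : ∃ a0 : ℝ, a0 = max 1 (x0 + 2 * SS d ρ β 1) := ⟨_, rfl⟩
  have ha1 : 1 ≤ a0 := by rw [ha0]; exact le_max_left _ _
  have ha2 : x0 + 2 * SS d ρ β 1 ≤ a0 := by rw [ha0]; exact le_max_right _ _
  have hS0 := SS_nonneg (d := d) (ρ := ρ) (β := β) 1
  refine ⟨a0, fun c hc hc1 => ?_⟩
  have hlim : ∀ᶠ N : ℕ in atTop, (9 * (d : ℝ) / 2) ≤ (N : ℝ) ^ c :=
    ((tendsto_rpow_atTop hc).comp tendsto_natCast_atTop_atTop).eventually_ge_atTop _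
  filter_upwards [big_of j0 hρ hnc hβ hc hc1, hlim, eventually_ge_atTop 1] with N hbig hN hN1 hy
  have hNR : (0 : ℝ) < N := by exact_mod_cast hN1
  obtain ⟨h0, hh0, hh1, hf⟩ := hy.flat
  have hh : 0 < h0 := lt_of_lt_of_le (Real.rpow_pos_of_pos hNR _) hh0
  have hB := hbig hy
  have hatt : ∀ a : ℝ, a0 ≤ a → a ≤ am d N → ∃ (t : ℕ) (z : Site d) (x : ℝ), 1 ≤ t ∧ z ≠ 0 ∧
      Even (ln z) ∧ Ch ρ β t z x ∧ x + 2 * SS d ρ β t ≤ a ∧
      x + 2 * SS d ρ β t = pr d ρ β a * sn z := by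
    intro a h1 h2
    refine attained j0 (M := N) (fun t ht => ?_) ⟨1, _, x0, le_rfl, hz0, he0, hCh, ha2.trans h1⟩
    have := hB t (ht.trans h2)
    omega
  refine ⟨hc, hc1, ha1, ?_, hB, hatt, ?_, ?_⟩
  · linarith
  · intro a h1 h2
    obtain ⟨t, z, x, ht, hz, he, hC, hle, heq⟩ := hatt a h1 h2
    have hx : 0 ≤ x := hC.1
    have hSt := SS_nonneg (d := d) (ρ := ρ) (β := β) t
    have ht2 := hB t (by linarith)
    have h3 := Ch_low j0 hρ hh.le hf ht (by omega) hC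
    rw [heq] at h3
    have hsn : (0 : ℝ) < sn z := by exact_mod_cast SaH_one_le_sn hz
    have h4 : 2 / (9 * (d : ℝ)) * h0 ≤ pr d ρ β a := le_of_mul_le_mul_right h3 hsn
    refine le_trans ?_ h4
    have h5 : (N : ℝ) ^ (-(2 * c)) = (N : ℝ) ^ (-c) * ((N : ℝ) ^ c)⁻¹ := by
      rw [← Real.rpow_neg hNR.le, ← Real.rpow_add hNR]
      congr 1
      ring
    rw [h5, mul_comm]
    have h6 : ((N : ℝ) ^ c)⁻¹ ≤ 2 / (9 * (d : ℝ)) := by
      rw [inv_le_comm₀ (by positivity) (by positivity), inv_div]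
      exact hN
    exact mul_le_mul h6 hh0 (by positivity) (by positivity)
  · intro a h1 h2
    have h3 := pr_le (d := d) (ρ := ρ) (β := β) (a := a) le_rfl hz0 he0 hCh (ha2.trans h1)
    have hsn : (1 : ℝ) ≤ sn ((2 : ℤ) • es j0 : Site d) := by exact_mod_cast SaH_one_le_sn hz0
    rcases le_or_gt 0 (pr d ρ β a) with h4 | h4
    · have h5 := mul_le_mul_of_nonneg_left hsn h4
      linarith
    · linarith

end Pool.Agent.W_7d29a1_q
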