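import Pool.Agent.W_7d29a1_q.Bas

/-!
Row 601, section 6 (tails): the net of centres. TASK TlE.
-/

namespace Pool.Agent.W_7d29a1_q

open MeasureTheory ProbabilityTheory Filter Topology Pool.Agent.W_MP_7d29a1_pr
  Pool.Agent.W_7d29a1_h46 Pool.Agent.W_7d29a1_h46u Pool.Agent.W_7d29a1_h3

variable {d : ℕ}

private theorem TlE_even {c x : Site d} (hc : ∀ i, Even (c i)) (hx : Even (ln x)) :
    Even (ln (x - c)) := by
  have h2 : 2 ∣ ln (x - c) + ln x := by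
    unfold ln
    rw [← Finset.sum_add_distrib]
    refine Finset.dvd_sum fun j _ => ?_
    obtain ⟨m, hm⟩ := hc j
    rw [Pi.sub_apply]
    omega
  obtain ⟨m, hm⟩ := hx
  rw [Nat.even_iff]
  omega

/-- Every even point in the box `sn p ≤ B` is within `f` of a point of the net `f • boxF d m`, `f` even
(`k j = round (p j / f)`; `|p j - f * k j| ≤ f / 2`, `|k j| ≤ B / f + 1`; `adm_add` for the parity, or
`ln (x + y) + (ln x + ln y)` is even and `ln (f • k) = f * ln k`). -/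
theorem centre {f m : ℕ} (hf : 1 ≤ f) (he : Even f) {B : ℝ} {p : Site d} (hp : (sn p : ℝ) ≤ B)
    (hev : Even (ln p)) (hm : B / f + 1 ≤ m) :
    ∃ k ∈ boxF d m, sn (p - f • k) ≤ f ∧ ln (p - f • k) % 2 = 0 := by
  have hfz : (0 : ℤ) < (f : ℤ) := by exact_mod_cast hf
  have hfr : (0 : ℝ) < (f : ℝ) := by exact_mod_cast hf
  have hlo : ∀ i, (f : ℤ) * (p i / f) ≤ p i := fun i => Int.mul_ediv_self_le hfz.ne'
  have hup : ∀ i, p i < (f : ℤ) * (p i / f) + f := fun i => Int.lt_mul_ediv_self_add hfz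
  have hfk : ∀ i, (p - f • fun j => p j / (f : ℤ)) i = p i - (f : ℤ) * (p i / f) := by
    intro i
    rw [Pi.sub_apply, Pi.smul_apply, nsmul_eq_mul]
  refine ⟨fun j => p j / (f : ℤ), ?_, ?_, ?_⟩
  · rw [mem_boxF]
    intro i
    have h1 : |p i| ≤ (sn p : ℤ) := sn_le_iff.1 le_rfl i
    have h2 : |(p i : ℝ)| ≤ B := by
      refine le_trans ?_ hp
      exact_mod_cast h1
    rw [abs_le] at h2
    have h3 : B / f ≤ m - 1 := by linarith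
    rw [div_le_iff₀ hfr] at h3
    have h4 : ((f : ℝ)) * ((p i / (f : ℤ) : ℤ) : ℝ) ≤ p i := by exact_mod_cast hlo i
    have h5 : (p i : ℝ) < (f : ℝ) * ((p i / (f : ℤ) : ℤ) : ℝ) + f := by exact_mod_cast hup i
    obtain ⟨q, hq⟩ : ∃ q : ℤ, q = p i / (f : ℤ) := ⟨_, rfl⟩
    rw [← hq] at h4 h5
    show |p i / (f : ℤ)| ≤ (m : ℤ)
    rw [← hq, abs_le]
    constructor
    · have h6 : (-(m : ℝ)) * f < (q : ℝ) * f := by linarith [h2.1]
      have h7 : (-(m : ℝ)) < q := lt_of_mul_lt_mul_right h6 hfr.le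
      have h8 : (-(m : ℤ)) < q := by exact_mod_cast h7
      exact h8.le
    · have h6 : (q : ℝ) * f ≤ (m : ℝ) * f := by linarith [h2.2]
      have h7 : (q : ℝ) ≤ m := le_of_mul_le_mul_right h6 hfr
      exact_mod_cast h7
  · rw [sn_le_iff]
    intro i
    rw [hfk i, abs_le]
    constructor
    · linarith [hlo i]
    · linarith [hup i]
  · have h1 : Even (ln (p - f • fun j => p j / (f : ℤ))) := by
      refine TlE_even (fun i => ?_) hev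
      rw [Pi.smul_apply, nsmul_eq_mul]
      obtain ⟨r, hr⟩ := he
      exact ⟨r * (p i / (f : ℤ)), by
        have h2 : ((f : ℕ) : ℤ) = r + r := by rw [hr]; push_cast; ring
        rw [show ((f : ℕ) : ℤ) * (p i / (f : ℤ)) = (r + r) * (p i / (f : ℤ)) by rw [← h2]]
        ring⟩
    exact Nat.even_iff.1 h1

/-- The mesh: for `8 ≤ ε W` take `f = 2 ⌊ε W / 2⌋₊ ≥ ε W / 2`; then
`(ε W + W / 2 + 4) / f + 1 ≤ 2 + 1 / ε + 1 + 1`. -/
theorem mesh {ε : ℝ} (h0 : 0 < ε) (h1 : ε ≤ 1) : ∃ m : ℕ, ∀ W : ℝ, 8 ≤ ε * W →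
    ∃ f : ℕ, 1 ≤ f ∧ Even f ∧ (f : ℝ) ≤ ε * W ∧ (ε * W + W / 2 + 4) / f + 1 ≤ m := by
  refine ⟨⌈4 + 1 / ε⌉₊, fun W hW => ?_⟩
  obtain ⟨x, hx⟩ : ∃ x : ℝ, x = ε * W := ⟨_, rfl⟩
  rw [← hx] at hW ⊢
  have h2 : (⌊x / 2⌋₊ : ℝ) ≤ x / 2 := Nat.floor_le (by linarith)
  have h3 : x / 2 < ⌊x / 2⌋₊ + 1 := Nat.lt_floor_add_one _
  have hf : ((2 * ⌊x / 2⌋₊ : ℕ) : ℝ) = 2 * (⌊x / 2⌋₊ : ℝ) := by push_cast; ring
  have h4 : x / 2 ≤ ((2 * ⌊x / 2⌋₊ : ℕ) : ℝ) := by rw [hf]; linarith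
  have h5 : (0 : ℝ) < ((2 * ⌊x / 2⌋₊ : ℕ) : ℝ) := by linarith
  refine ⟨2 * ⌊x / 2⌋₊, ?_, even_two_mul _, ?_, ?_⟩
  · have h6 : 0 < 2 * ⌊x / 2⌋₊ := by exact_mod_cast h5
    exact h6
  · rw [hf]
    linarith
  · have h7 : W = x * (1 / ε) := by
      rw [hx]
      field_simp
    have h8 : (x + W / 2 + 4) / ((2 * ⌊x / 2⌋₊ : ℕ) : ℝ) ≤ 3 + 1 / ε := by
      rw [div_le_iff₀ h5]
      have h9 : 0 < 1 / ε := by positivity
      have h10 : (3 + 1 / ε) * (x / 2) ≤ (3 + 1 / ε) * ((2 * ⌊x / 2⌋₊ : ℕ) : ℝ) :=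
        mul_le_mul_of_nonneg_left h4 (by linarith)
      refine le_trans ?_ h10
      rw [h7]
      linarith
    have h11 : 4 + 1 / ε ≤ (⌈4 + 1 / ε⌉₊ : ℝ) := Nat.le_ceil _
    linarith

end Pool.Agent.W_7d29a1_q
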