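import Pool.Agent.W_7d29a1_q.ThF
import Pool.Agent.W_7d29a1_q.TlE
import Pool.Agent.W_7d29a1_q.Mv

/-!
Row 601, section 10, step 1: exact points.
-/

namespace Pool.Agent.W_7d29a1_q

open MeasureTheory ProbabilityTheory Filter Topology Pool.Agent.W_MP_7d29a1_pr
  Pool.Agent.W_7d29a1_h46 Pool.Agent.W_7d29a1_h46u Pool.Agent.W_7d29a1_h3

variable {d : ℕ} {ρ : Measure ℝ} [IsProbabilityMeasure ρ] {β : ℝ}

theorem ThA_ln_neg (x : Site d) : ln (-x) = ln x := by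
  unfold ln
  exact Finset.sum_congr rfl fun j _ => by simp

/-- The shift to the row `s`. -/
theorem ThA_sh0 (s : ℕ) (x y : Site d) (η : Env d) : sh 0 x (sh s y η) = sh s (x + y) η := by
  rw [sh_sh, zero_add]

/-- A cheap piece between two cells, with moves from and to the exact points. -/
theorem ThA_route {τ h : ℕ} {R u q X : ℝ} {z : Site d} {w : Site d → ℝ} {R' : Site d → Site d → Prop}
    (hmove : ∀ y : Site d, Even (ln y) → (sn y : ℝ) ≤ R →
      (law d ρ).real {η : Env d | ¬ Tle ρ β η τ y u} ≤ q)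
    (hq : 2 * q ≤ 1)
    (hX : ∀ x p : Site d, (sn x : ℝ) ≤ R → (sn (p - z) : ℝ) ≤ R → w (p - x) + 2 * u ≤ X) :
    (1 - 2 * q) * (law d ρ).real {η : Env d | ∃ x p : Site d, Even (ln x) ∧ Even (ln (p - z)) ∧
        (sn x : ℝ) ≤ R ∧ (sn (p - z) : ℝ) ≤ R ∧ R' x p ∧ Tle ρ β (sh 0 x η) h (p - x) (w (p - x))} ≤
      (law d ρ).real {η : Env d | Tle ρ β η (τ + h + τ) z X} := by
  classical
  obtain ⟨e, he⟩ := exists_injective_nat (Site d × Site d)
  obtain ⟨I, hI⟩ : ∃ I : Finset (Site d × Site d), ∀ i, i ∈ I ↔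
      Even (ln i.1) ∧ Even (ln (i.2 - z)) ∧ (sn i.1 : ℝ) ≤ R ∧ (sn (i.2 - z) : ℝ) ≤ R ∧ R' i.1 i.2 := by
    refine ⟨(boxF d ⌊R⌋₊ ×ˢ (boxF d ⌊R⌋₊).image (fun y => y + z)).filter fun i =>
      Even (ln i.1) ∧ Even (ln (i.2 - z)) ∧ (sn i.1 : ℝ) ≤ R ∧ (sn (i.2 - z) : ℝ) ≤ R ∧ R' i.1 i.2,
      fun i => ?_⟩
    rw [Finset.mem_filter, Finset.mem_product, mem_boxF_iff, Finset.mem_image]
    constructor
    · rintro ⟨-, h⟩
      exact h
    · intro h
      exact ⟨⟨Nat.le_floor h.2.2.1, i.2 - z, mem_boxF_iff.2 (Nat.le_floor h.2.2.2.1), sub_add_cancel _ _⟩, h⟩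
  obtain ⟨gd, hgd⟩ : ∃ gd : Site d × Site d → Env d → Prop, gd = fun i η =>
      Tle ρ β (sh (2 * τ) i.1 η) h (i.2 - i.1) (w (i.2 - i.1)) := ⟨_, rfl⟩
  have hbm : ∀ i, MeasurableSet {η : Env d | gd i η} := by
    intro i
    rw [hgd]
    exact measurable_sh _ _ (measurableSet_Tle _ _ _)
  obtain ⟨U, hU⟩ : ∃ U : Set (ℕ × Site d), U = {p | 2 * τ < p.1 ∧ p.1 ≤ 2 * τ + 2 * h} := ⟨_, rfl⟩
  have hbd : ∀ i, ∀ η η' : Env d, (∀ p ∈ U, η p = η' p) → (gd i η ↔ gd i η') := by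
    intro i η η' hη
    rw [hgd]
    refine dep_Tle fun p h1 h2 => hη p ?_
    rw [hU]
    exact ⟨h1, h2⟩
  obtain ⟨A, hA⟩ : ∃ A : Site d × Site d → Set (Env d), A = fun i =>
      {η | gd i η ∧ ∀ j ∈ I.filter (fun j => e j < e i), ¬ gd j η} := ⟨_, rfl⟩
  obtain ⟨B, hB⟩ : ∃ B : Site d × Site d → Set (Env d), B = fun i =>
      {η | Tle ρ β η τ i.1 u ∧ Tle ρ β (sh (2 * (τ + h)) i.2 η) τ (z - i.2) u} := ⟨_, rfl⟩
  have hAm : ∀ i ∈ I, MeasurableSet (A i) := by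
    intro i _
    have h1 : A i = {η | gd i η} ∩ ⋂ j ∈ I.filter (fun j => e j < e i), {η | gd j η}ᶜ := by
      rw [hA]
      ext η
      simp only [Set.mem_ofPred_eq, Set.mem_inter_iff, Set.mem_iInter, Set.mem_compl_iff]
    rw [h1]
    exact (hbm i).inter (Finset.measurableSet_biInter _ fun j _ => (hbm j).compl)
  have hBm : ∀ i ∈ I, MeasurableSet (B i) := by
    intro i _
    have h1 : B i = {η | Tle ρ β η τ i.1 u} ∩
        (sh (2 * (τ + h)) i.2 : Env d → Env d) ⁻¹' {η | Tle ρ β η τ (z - i.2) u} := by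
      rw [hB]
      rfl
    rw [h1]
    exact (measurableSet_Tle _ _ _).inter (measurable_sh _ _ (measurableSet_Tle _ _ _))
  have hBp : ∀ i ∈ I, 1 - 2 * q ≤ (law d ρ).real (B i) := by
    intro i hi
    obtain ⟨h1, h2, h3, h4, -⟩ := (hI i).1 hi
    have h5 : (B i)ᶜ = {η | ¬ Tle ρ β η τ i.1 u} ∪
        {η | sh (2 * (τ + h)) i.2 η ∈ {η : Env d | ¬ Tle ρ β η τ (z - i.2) u}} := by
      rw [hB]
      ext η
      simp only [Set.mem_compl_iff, Set.mem_ofPred_eq, Set.mem_union]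
      tauto
    have h6 := hmove i.1 h1 h3
    have e1 : z - i.2 = -(i.2 - z) := by abel
    have h7 := hmove (z - i.2) (by rw [e1, ThA_ln_neg]; exact h2) (by rw [e1, sn_neg]; exact h4)
    have h8 := real_sh (ρ := ρ) (2 * (τ + h)) i.2 (A := {η : Env d | ¬ Tle ρ β η τ (z - i.2) u})
      (measurableSet_Tle _ _ _).compl
    have h9 : (law d ρ).real (B i)ᶜ ≤ 2 * q := by
      rw [h5]
      refine (measureReal_union_le _ _).trans ?_
      rw [h8]
      linarith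
    have h10 := probReal_compl_eq_one_sub (μ := law d ρ) (hBm i hi)
    linarith
  have key := sm_ge (ρ := ρ) I A B (fun _ => U) hAm hBm ?_ ?_ ?_ hBp
  · -- conclusion
    have hG : (law d ρ).real {η : Env d | ∃ x p : Site d, Even (ln x) ∧ Even (ln (p - z)) ∧
        (sn x : ℝ) ≤ R ∧ (sn (p - z) : ℝ) ≤ R ∧ R' x p ∧
          Tle ρ β (sh 0 x η) h (p - x) (w (p - x))} =
        (law d ρ).real {η | ∃ i ∈ I, gd i η} := by
      have hm : MeasurableSet {η : Env d | ∃ x p : Site d, Even (ln x) ∧ Even (ln (p - z)) ∧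
          (sn x : ℝ) ≤ R ∧ (sn (p - z) : ℝ) ≤ R ∧ R' x p ∧
          Tle ρ β (sh 0 x η) h (p - x) (w (p - x))} := by
        have h1 : {η : Env d | ∃ x p : Site d, Even (ln x) ∧ Even (ln (p - z)) ∧
            (sn x : ℝ) ≤ R ∧ (sn (p - z) : ℝ) ≤ R ∧ R' x p ∧
            Tle ρ β (sh 0 x η) h (p - x) (w (p - x))} =
            ⋃ i ∈ I, {η : Env d | Tle ρ β (sh 0 i.1 η) h (i.2 - i.1) (w (i.2 - i.1))} := by
          ext η
          simp only [Set.mem_ofPred_eq, Set.mem_iUnion]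
          constructor
          · rintro ⟨x, p, h1, h2, h3, h4, h5, h6⟩
            exact ⟨(x, p), (hI _).2 ⟨h1, h2, h3, h4, h5⟩, h6⟩
          · rintro ⟨i, hi, h6⟩
            obtain ⟨h1, h2, h3, h4, h5⟩ := (hI i).1 hi
            exact ⟨i.1, i.2, h1, h2, h3, h4, h5, h6⟩
        rw [h1]
        exact Finset.measurableSet_biUnion _ fun i _ => measurable_sh _ _ (measurableSet_Tle _ _ _)
      have h2 := real_sh (ρ := ρ) (2 * τ) (0 : Site d) hm
      rw [← h2]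
      congr 1
      ext η
      simp only [Set.mem_ofPred_eq, ThA_sh0, add_zero, hgd]
      constructor
      · rintro ⟨x, p, h1, h2, h3, h4, h5, h6⟩
        exact ⟨(x, p), (hI _).2 ⟨h1, h2, h3, h4, h5⟩, h6⟩
      · rintro ⟨i, hi, h6⟩
        obtain ⟨h1, h2, h3, h4, h5⟩ := (hI i).1 hi
        exact ⟨i.1, i.2, h1, h2, h3, h4, h5, h6⟩
    rw [hG]
    have h1 : (law d ρ).real {η | ∃ i ∈ I, gd i η} ≤ (law d ρ).real {η | ∃ i ∈ I, η ∈ A i} := by
      refine measureReal_mono ?_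
      rintro η ⟨i0, hi0, hg0⟩
      have hne : (I.filter fun i => gd i η).Nonempty := ⟨i0, Finset.mem_filter.2 ⟨hi0, hg0⟩⟩
      obtain ⟨i, hi, hmin⟩ := Finset.exists_min_image (I.filter fun i => gd i η) e hne
      obtain ⟨hiI, hib⟩ := Finset.mem_filter.1 hi
      refine ⟨i, hiI, ?_⟩
      rw [hA]
      refine ⟨hib, fun j hj hjb => ?_⟩
      obtain ⟨hj1, hj2⟩ := Finset.mem_filter.1 hj
      have := hmin j (Finset.mem_filter.2 ⟨hj1, hjb⟩)
      omega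
    refine le_trans (mul_le_mul_of_nonneg_left h1 (by linarith)) (key.trans (measureReal_mono ?_))
    rintro η ⟨i, hi, h2, h3⟩
    obtain ⟨-, -, g3, g4, -⟩ := (hI i).1 hi
    rw [hA] at h2
    rw [hB] at h3
    have m2 : Tle ρ β (sh (2 * τ) i.1 η) h (i.2 - i.1) (w (i.2 - i.1)) := by
      have := h2.1
      rw [hgd] at this
      exact this
    obtain ⟨m1, m3⟩ := h3
    have a1 := Tle_add m1 m2
    have e1 : i.1 + (i.2 - i.1) = i.2 := by abel
    rw [e1] at a1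
    have a2 := Tle_add a1 m3
    have e2 : i.2 + (z - i.2) = z := by abel
    rw [e2] at a2
    refine Tle_mono a2 ?_
    have := hX i.1 i.2 g3 g4
    linarith
  · -- A i uses U
    intro i _ η η' hη
    rw [hA]
    simp only [Set.mem_ofPred_eq, hbd _ η η' hη]
  · -- B i uses the complement
    intro i _ η η' hη
    rw [hB]
    have h1 : Tle ρ β η τ i.1 u ↔ Tle ρ β η' τ i.1 u := by
      unfold Tle
      have : Vp ρ β η (2 * τ) i.1 = Vp ρ β η' (2 * τ) i.1 := by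
        refine dep_V (ρ := ρ) (β := β) (toP (2 * τ) i.1) ?_
        intro p hp
        refine hη p ?_
        rw [hU]
        rintro ⟨h2, -⟩
        have := hp.2
        omega
      rw [this]
    have h2 : Tle ρ β (sh (2 * (τ + h)) i.2 η) τ (z - i.2) u ↔
        Tle ρ β (sh (2 * (τ + h)) i.2 η') τ (z - i.2) u := by
      refine dep_Tle fun p h2 h3 => hη p ?_
      rw [hU]
      rintro ⟨-, h4⟩
      omega
    simp only [Set.mem_ofPred_eq, h1, h2]
  · -- disjointness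
    intro i hi j hj hij
    rw [Set.disjoint_left]
    intro η h1 h2
    rw [hA] at h1 h2
    rcases lt_or_gt_of_ne (fun h => hij (he h) : e i ≠ e j) with h3 | h3
    · exact h2.2 i (Finset.mem_filter.2 ⟨hi, h3⟩) h1.1
    · exact h1.2 j (Finset.mem_filter.2 ⟨hj, h3⟩) h2.1

omit [IsProbabilityMeasure ρ] in
theorem ThA_measE {h : ℕ} {w : Site d → ℝ} {Q : Site d → Site d → Prop} :
    MeasurableSet {η : Env d | ∃ x p : Site d, Q x p ∧ Tle ρ β (sh 0 x η) h (p - x) (w (p - x))} := by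
  have h1 : {η : Env d | ∃ x p : Site d, Q x p ∧ Tle ρ β (sh 0 x η) h (p - x) (w (p - x))} =
      ⋃ x : Site d, ⋃ p : Site d, {η : Env d | Q x p ∧ Tle ρ β (sh 0 x η) h (p - x) (w (p - x))} := by
    ext η
    simp only [Set.mem_ofPred_eq, Set.mem_iUnion]
  rw [h1]
  refine MeasurableSet.iUnion fun x => MeasurableSet.iUnion fun p => ?_
  by_cases hQ : Q x p
  · have h2 : {η : Env d | Q x p ∧ Tle ρ β (sh 0 x η) h (p - x) (w (p - x))} =
        (sh 0 x : Env d → Env d) ⁻¹' {η : Env d | Tle ρ β η h (p - x) (w (p - x))} := by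
      ext η
      simp only [Set.mem_ofPred_eq, Set.mem_preimage, hQ, true_and]
    rw [h2]
    refine measurable_sh _ _ ?_
    unfold Tle Vp
    exact measurableSet_le measurable_const (measurable_V _)
  · have h2 : {η : Env d | Q x p ∧ Tle ρ β (sh 0 x η) h (p - x) (w (p - x))} = ∅ := by
      ext η
      simp only [Set.mem_ofPred_eq, hQ, false_and, Set.mem_empty_iff_false]
    rw [h2]
    exact MeasurableSet.empty

theorem ThA_even_smul {f : ℕ} (hf : Even f) (k : Site d) : Even (ln (f • k)) := by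
  have h1 : ln (f • k) = f * ln k := by
    unfold ln
    rw [Finset.mul_sum]
    refine Finset.sum_congr rfl fun j _ => ?_
    rw [Pi.smul_apply, nsmul_eq_mul, Int.natAbs_mul, Int.natAbs_natCast]
  rw [h1]
  exact hf.mul_right _

theorem ThA_sn_sub (x y : Site d) : sn (x - y) ≤ sn x + sn y := by
  rw [sub_eq_add_neg]
  refine (sn_add _ _).trans ?_
  rw [sn_neg]

theorem ThA_sn_le (x y : Site d) : sn x ≤ sn (x - y) + sn y := by
  have h1 := sn_add (x - y) y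
  rwa [sub_add_cancel] at h1

theorem ThA_sym (j0 : Fin d) (z : Site d) :
    ∃ (τ : Equiv.Perm (Fin d)) (e : Fin d → Bool), (sAct τ e z) j0 = (sn z : ℤ) := by
  obtain ⟨j, -, hj⟩ := Finset.exists_mem_eq_sup Finset.univ ⟨j0, Finset.mem_univ _⟩
    (fun j => (z j).natAbs)
  have hj' : sn z = (z j).natAbs := hj
  refine ⟨Equiv.swap j0 j, fun _ => decide (0 ≤ z j), ?_⟩
  unfold sAct
  rw [Equiv.swap_apply_left, hj']
  by_cases h : 0 ≤ z j
  · simp only [h, decide_true, if_true, one_mul]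
    omega
  · simp only [h, decide_false, Bool.false_eq_true, if_false, neg_one_mul]
    omega

/-- The net of even centres. -/
theorem ThA_net {e4 K : ℝ} (he : 0 < e4) (hK : 0 ≤ K) : ∃ m : ℕ, ∀ W : ℝ, 4 ≤ e4 * W →
    ∃ f : ℕ, 1 ≤ f ∧ Even f ∧ (f : ℝ) ≤ e4 * W ∧ K * W / f + 1 ≤ m := by
  refine ⟨⌈2 * K / e4 + 1⌉₊, fun W hW => ?_⟩
  obtain ⟨x, hx⟩ : ∃ x : ℝ, x = e4 * W := ⟨_, rfl⟩
  rw [← hx] at hW ⊢
  have h2 : (⌊x / 2⌋₊ : ℝ) ≤ x / 2 := Nat.floor_le (by linarith)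
  have h3 : x / 2 < ⌊x / 2⌋₊ + 1 := Nat.lt_floor_add_one _
  have hf : ((2 * ⌊x / 2⌋₊ : ℕ) : ℝ) = 2 * (⌊x / 2⌋₊ : ℝ) := by push_cast; ring
  have h4 : x / 2 ≤ ((2 * ⌊x / 2⌋₊ : ℕ) : ℝ) := by rw [hf]; linarith
  have h5 : (0 : ℝ) < ((2 * ⌊x / 2⌋₊ : ℕ) : ℝ) := by linarith
  refine ⟨2 * ⌊x / 2⌋₊, ?_, even_two_mul _, ?_, ?_⟩
  · have h6 : 0 < 2 * ⌊x / 2⌋₊ := by exact_mod_cast h5
    exact h6
  · rw [hf]
    linarith
  · have h7 : W = x / e4 := by
      rw [hx]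
      field_simp
    have h8 : K * W / ((2 * ⌊x / 2⌋₊ : ℕ) : ℝ) ≤ 2 * K / e4 := by
      rw [div_le_iff₀ h5]
      have h9 : 0 ≤ 2 * K / e4 := by positivity
      calc K * W = 2 * K / e4 * (x / 2) := by rw [h7]; field_simp
        _ ≤ 2 * K / e4 * ((2 * ⌊x / 2⌋₊ : ℕ) : ℝ) := mul_le_mul_of_nonneg_left h4 h9
    have h11 : 2 * K / e4 + 1 ≤ (⌈2 * K / e4 + 1⌉₊ : ℝ) := Nat.le_ceil _
    linarith

/-- STEP 1 (exact points). -/
theorem th_points (j0 : Fin d) {Λ g C3 ε1 : ℝ} {A : ℕ} (hT : TailProp d Λ g C3 ε1) (hA : NLProp d Λ A)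
    {δ p0 K : ℝ} (hδ : 0 < δ) (hδ1 : δ < 1) (hp : 0 < p0) (hp1 : p0 < 1) (hK : 1 ≤ K) :
    ∃ p1 : ℝ, 0 < p1 ∧ p1 ≤ 1 ∧
    ∀ (ρ : Measure ℝ) [IsProbabilityMeasure ρ] (β c a0 : ℝ), EM ρ → ∀ᶠ N : ℕ in atTop,
      Sc d ρ β c a0 N → ∀ (i0 i1 : ℕ) (η : ℝ) (k : ℕ), 0 < η → η ≤ 1 / 16 →
      Gd d ρ β a0 Λ A N i0 i1 η k → ∀ h : ℕ, 1 ≤ h → h ≤ nn d ρ β ((A : ℝ) ^ k) →
      p0 < (law d ρ).real {η' : Env d | ∃ x p : Site d, Even (ln x) ∧ Even (ln p) ∧
          (sn x : ℝ) ≤ K * ((A : ℝ) ^ k / pr d ρ β (Λ * (A : ℝ) ^ (k + i1))) ∧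
          (sn p : ℝ) ≤ K * ((A : ℝ) ^ k / pr d ρ β (Λ * (A : ℝ) ^ (k + i1))) ∧
          Tle ρ β (sh 0 x η') h (p - x)
            (pr d ρ β (Λ * (A : ℝ) ^ (k + i1)) / 2 * sn (p - x) - δ * (A : ℝ) ^ k)} →
      ∃ (h' : ℕ) (z : Site d), 1 ≤ h' ∧ 8 * h' ≤ 9 * nn d ρ β ((A : ℝ) ^ k) ∧
        SS d ρ β h' ≤ 9 / 8 * (A : ℝ) ^ k ∧ Even (ln z) ∧ z j0 = (sn z : ℤ) ∧
        (sn z : ℝ) ≤ 3 * K * ((A : ℝ) ^ k / pr d ρ β (Λ * (A : ℝ) ^ (k + i1))) ∧
        p1 ≤ (law d ρ).real {η' : Env d | Tle ρ β η' h' z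
          (pr d ρ β (Λ * (A : ℝ) ^ (k + i1)) / 2 * sn z - δ / 2 * (A : ℝ) ^ k)} := by
  classical
  obtain ⟨C, hC1, hC⟩ := cells (d := d) j0 (q := 1 / 4) (by norm_num) (by norm_num)
  have hΛ : 1 ≤ Λ := hT.1
  have hA2 : 2 ≤ A := hA.1
  have hC0 : 0 < C := by linarith
  obtain ⟨x, hx⟩ : ∃ x : ℝ, x = δ / (16 * C) := ⟨_, rfl⟩
  have hx0 : 0 < x := by rw [hx]; positivity
  have hCx : C * x = δ / 16 := by
    rw [hx]
    field_simp
  have hx1 : x ≤ δ / 16 := by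
    have : 1 * x ≤ C * x := mul_le_mul_of_nonneg_right hC1 hx0.le
    linarith
  have hx34 : (x ^ 2) ^ (3 / 4 : ℝ) ≤ x := by
    have h1 : (x ^ 2) ^ (3 / 4 : ℝ) = x ^ (3 / 2 : ℝ) := by
      rw [← Real.rpow_natCast x 2, ← Real.rpow_mul hx0.le]
      norm_num
    rw [h1]
    calc x ^ (3 / 2 : ℝ) ≤ x ^ (1 : ℝ) :=
          Real.rpow_le_rpow_of_exponent_ge hx0 (by linarith) (by norm_num)
      _ = x := Real.rpow_one x
  obtain ⟨e4, he4⟩ : ∃ e4 : ℝ, e4 = x ^ 2 / 2 := ⟨_, rfl⟩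
  have he0 : 0 < e4 := by rw [he4]; positivity
  have he1 : e4 ≤ δ / 16 := by
    rw [he4]
    nlinarith
  obtain ⟨m, hm⟩ := ThA_net (K := K) he0 (by linarith)
  obtain ⟨M, hM⟩ : ∃ M : ℝ, M = (((2 * m + 1) ^ d * (2 * m + 1) ^ d : ℕ) : ℝ) := ⟨_, rfl⟩
  have hM1 : 1 ≤ M := by
    rw [hM]
    exact_mod_cast Nat.one_le_iff_ne_zero.2 (by positivity)
  refine ⟨p0 / (2 * M), by positivity, ?_, fun ρ _ β c a0 hρ => ?_⟩
  · rw [div_le_one (by positivity)]
    linarith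
  filter_upwards [hC ρ β c a0 hρ, (ThF_as_tendsto d).eventually_ge_atTop (1 / x ^ 2),
    (ThF_as_tendsto d).eventually_ge_atTop a0, (ThF_as_tendsto d).eventually_ge_atTop 1,
    (ThF_as_tendsto d).eventually_ge_atTop (4 / e4),
    eventually_ge_atTop 1] with N hCN hN1 hN2 hN3 hN5 hN4 S i0 i1 η k hη hη1 G h h1 hh hE
  have F := Gd_facts S G hΛ hA2 hN4 hN3 hN2
  obtain ⟨a, ha⟩ : ∃ a : ℝ, a = (A : ℝ) ^ k := ⟨_, rfl⟩
  obtain ⟨P, hP⟩ : ∃ P : ℝ, P = pr d ρ β (Λ * (A : ℝ) ^ (k + i1)) := ⟨_, rfl⟩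
  rw [← ha, ← hP] at F hE ⊢
  rw [← ha] at hh
  have hPp := F.Ppos
  have ha1 := F.one
  have hapos : 0 < a := by linarith
  have ham : a ≤ am d N := F.ab1.trans F.b1m
  have haa0 : a0 ≤ a := F.a0b0.trans F.b0a
  have hpra : 0 < pr d ρ β a := pr_pos S hN4 haa0 ham
  have hprP : pr d ρ β a ≤ 2 * P := by
    have h2 := F.up a F.b0a F.ab1
    have h3 : (1 + η) * P ≤ 2 * P := mul_le_mul_of_nonneg_right (by linarith) hPp.le
    linarith
  have hPa0 : P ≤ a0 := (F.lo a F.b0a F.ab1).trans (S.hi a haa0 ham)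
  have ha4 : as d N ^ 4 ≤ a := F.as4.trans F.b0a
  obtain ⟨W, hW⟩ : ∃ W : ℝ, W = a / P := ⟨_, rfl⟩
  have hWP : W * P = a := by rw [hW]; field_simp
  have hWas : as d N ≤ W := by
    rw [hW, le_div_iff₀ hPp]
    have h2 : as d N * P ≤ as d N * as d N := mul_le_mul_of_nonneg_left (hPa0.trans hN2) (by linarith)
    have h3 : as d N * as d N ≤ as d N ^ 4 := by
      calc as d N * as d N = as d N ^ 2 * 1 := by ring
        _ ≤ as d N ^ 2 * as d N ^ 2 := mul_le_mul_of_nonneg_left (one_le_pow₀ hN3) (by positivity)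
        _ = as d N ^ 4 := by ring
    linarith
  have hW0 : 0 < W := by linarith
  have he4W : 4 ≤ e4 * W := by
    rw [div_le_iff₀ he0] at hN5
    nlinarith
  obtain ⟨f, hf1, hfe, hfW, hfm⟩ := hm W he4W
  obtain ⟨R, hR⟩ : ∃ R : ℝ, R = e4 * W := ⟨_, rfl⟩
  obtain ⟨w, hw⟩ : ∃ w : Site d → ℝ, w = fun y => P / 2 * sn y - δ * a := ⟨_, rfl⟩
  obtain ⟨Ev, hEv⟩ : ∃ Ev : Site d × Site d → Set (Env d), Ev = fun i =>
      {η | ∃ x p : Site d, (Even (ln (x - f • i.1)) ∧ Even (ln (p - f • i.2)) ∧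
        (sn (x - f • i.1) : ℝ) ≤ R ∧ (sn (p - f • i.2) : ℝ) ≤ R ∧ (sn x : ℝ) ≤ K * W ∧
        (sn p : ℝ) ≤ K * W) ∧ Tle ρ β (sh 0 x η) h (p - x) (w (p - x))} := ⟨_, rfl⟩
  -- a pair of cells
  obtain ⟨i, hi⟩ : ∃ i : Site d × Site d, p0 / M ≤ (law d ρ).real (Ev i) := by
    by_contra hcon
    push Not at hcon
    have h2 : (law d ρ).real {η' : Env d | ∃ x p : Site d, Even (ln x) ∧ Even (ln p) ∧
          (sn x : ℝ) ≤ K * (a / P) ∧ (sn p : ℝ) ≤ K * (a / P) ∧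
          Tle ρ β (sh 0 x η') h (p - x) (P / 2 * sn (p - x) - δ * a)} ≤
        (law d ρ).real (⋃ i ∈ boxF d m ×ˢ boxF d m, Ev i) := by
      refine measureReal_mono ?_ (measure_ne_top _ _)
      rintro η' ⟨x, p, g1, g2, g3, g4, g5⟩
      rw [← hW] at g3 g4
      obtain ⟨k1, hk1, hk1', hk1''⟩ := centre hf1 hfe g3 g1 hfm
      obtain ⟨k2, hk2, hk2', hk2''⟩ := centre hf1 hfe g4 g2 hfm
      rw [Set.mem_iUnion₂]
      refine ⟨(k1, k2), Finset.mem_product.2 ⟨hk1, hk2⟩, ?_⟩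
      rw [hEv]
      refine ⟨x, p, ⟨Nat.even_iff.2 hk1'', Nat.even_iff.2 hk2'', ?_, ?_, g3, g4⟩, ?_⟩
      · rw [hR]
        exact le_trans (by exact_mod_cast hk1') hfW
      · rw [hR]
        exact le_trans (by exact_mod_cast hk2') hfW
      · rw [hw]
        exact g5
    have h3 := measureReal_biUnion_finset_le (μ := law d ρ) (boxF d m ×ˢ boxF d m) Ev
    have h4 : ∑ i ∈ boxF d m ×ˢ boxF d m, (law d ρ).real (Ev i) ≤
        ∑ _i ∈ boxF d m ×ˢ boxF d m, p0 / M := Finset.sum_le_sum fun i _ => (hcon i).le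
    rw [Finset.sum_const, Finset.card_product, card_boxF, nsmul_eq_mul, ← hM,
      mul_div_cancel₀ _ (by linarith : M ≠ 0)] at h4
    linarith
  obtain ⟨z, hz⟩ : ∃ z : Site d, z = f • i.2 - f • i.1 := ⟨_, rfl⟩
  -- shift
  obtain ⟨R', hR'⟩ : ∃ R' : Site d → Site d → Prop, R' = fun x p =>
      (sn (x + f • i.1) : ℝ) ≤ K * W ∧ (sn (p + f • i.1) : ℝ) ≤ K * W := ⟨_, rfl⟩
  have hshift : (law d ρ).real {η : Env d | ∃ x p : Site d, Even (ln x) ∧ Even (ln (p - z)) ∧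
        (sn x : ℝ) ≤ R ∧ (sn (p - z) : ℝ) ≤ R ∧ R' x p ∧
        Tle ρ β (sh 0 x η) h (p - x) (w (p - x))} = (law d ρ).real (Ev i) := by
    have hms := ThA_measE (ρ := ρ) (β := β) (h := h) (w := w) (Q := fun x p =>
      Even (ln x) ∧ Even (ln (p - z)) ∧ (sn x : ℝ) ≤ R ∧ (sn (p - z) : ℝ) ≤ R ∧ R' x p)
    have h2 := real_sh (ρ := ρ) 0 (f • i.1) hms
    have h3 : {η : Env d | ∃ x p : Site d, Even (ln x) ∧ Even (ln (p - z)) ∧
        (sn x : ℝ) ≤ R ∧ (sn (p - z) : ℝ) ≤ R ∧ R' x p ∧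
        Tle ρ β (sh 0 x η) h (p - x) (w (p - x))} =
        {η : Env d | ∃ x p : Site d, (Even (ln x) ∧ Even (ln (p - z)) ∧
        (sn x : ℝ) ≤ R ∧ (sn (p - z) : ℝ) ≤ R ∧ R' x p) ∧
        Tle ρ β (sh 0 x η) h (p - x) (w (p - x))} := by
      ext η
      simp only [Set.mem_ofPred_eq, and_assoc]
    rw [h3, ← h2, hEv]
    congr 1
    ext η
    simp only [Set.mem_ofPred_eq, ThA_sh0]
    constructor
    · rintro ⟨x, p, ⟨g1, g2, g3, g4, g5⟩, g6⟩
      rw [hR'] at g5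
      refine ⟨x + f • i.1, p + f • i.1, ⟨?_, ?_, ?_, ?_, g5.1, g5.2⟩, ?_⟩
      · rw [add_sub_cancel_right]; exact g1
      · have e1 : p + f • i.1 - f • i.2 = p - z := by rw [hz]; abel
        rw [e1]; exact g2
      · rw [add_sub_cancel_right]; exact g3
      · have e1 : p + f • i.1 - f • i.2 = p - z := by rw [hz]; abel
        rw [e1]; exact g4
      · rw [add_sub_add_right_eq_sub]
        exact g6
    · rintro ⟨x, p, ⟨g1, g2, g3, g4, g5, g5'⟩, g6⟩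
      have e1 : p - f • i.1 - z = p - f • i.2 := by rw [hz]; abel
      refine ⟨x - f • i.1, p - f • i.1, ⟨g1, ?_, g3, ?_, ?_⟩, ?_⟩
      · rw [e1]; exact g2
      · rw [e1]; exact g4
      · rw [hR']
        show (sn (x - f • i.1 + f • i.1) : ℝ) ≤ K * W ∧ (sn (p - f • i.1 + f • i.1) : ℝ) ≤ K * W
        rw [sub_add_cancel, sub_add_cancel]
        exact ⟨g5, g5'⟩
      · rw [sub_add_cancel, sub_sub_sub_cancel_right]
        exact g6
  -- the size of z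
  have hzK : (sn z : ℝ) ≤ 3 * K * W := by
    have h2 : 0 < (law d ρ).real (Ev i) := lt_of_lt_of_le (by positivity) hi
    have h3 : (Ev i).Nonempty := by
      by_contra h4
      rw [Set.not_nonempty_iff_eq_empty] at h4
      rw [h4, measureReal_empty] at h2
      exact lt_irrefl _ h2
    obtain ⟨η', hη'⟩ := h3
    rw [hEv] at hη'
    obtain ⟨x, p, ⟨-, -, g3, g4, g5, g6⟩, -⟩ := hη'
    have s1 : sn (f • i.1) ≤ sn (x - f • i.1) + sn x := by
      have s2 := ThA_sn_le (f • i.1) x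
      have e1 : f • i.1 - x = -(x - f • i.1) := by abel
      rwa [e1, sn_neg] at s2
    have s3 : sn (f • i.2) ≤ sn (p - f • i.2) + sn p := by
      have s2 := ThA_sn_le (f • i.2) p
      have e1 : f • i.2 - p = -(p - f • i.2) := by abel
      rwa [e1, sn_neg] at s2
    have s4 : sn z ≤ sn (f • i.2) + sn (f • i.1) := by
      rw [hz]
      exact ThA_sn_sub _ _
    have s1' : (sn (f • i.1) : ℝ) ≤ sn (x - f • i.1) + sn x := by exact_mod_cast s1
    have s3' : (sn (f • i.2) : ℝ) ≤ sn (p - f • i.2) + sn p := by exact_mod_cast s3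
    have s4' : (sn z : ℝ) ≤ sn (f • i.2) + sn (f • i.1) := by exact_mod_cast s4
    have s5 : 2 * R ≤ K * W := by
      rw [hR]
      have : 2 * e4 ≤ K := by linarith
      calc 2 * (e4 * W) = 2 * e4 * W := by ring
        _ ≤ K * W := mul_le_mul_of_nonneg_right this hW0.le
    nlinarith
  have hzE : Even (ln z) := by
    have e1 : z = f • (i.2 - i.1) := by rw [hz, smul_sub]
    rw [e1]
    exact ThA_even_smul hfe _
  -- the moves
  have hCx34 : C * (x ^ 2) ^ (3 / 4 : ℝ) ≤ δ / 16 := by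
    rw [← hCx]
    exact mul_le_mul_of_nonneg_left hx34 hC0.le
  have hx2 : x ^ 2 ≤ 1 := by nlinarith
  obtain ⟨τ, hτ, hmv⟩ := hCN S a (x ^ 2) ham (F.reg a F.b0a F.ab1) (by positivity) hx2
    (by
      refine (ThF_pow S.csm hN4).trans ?_
      have h1 : 1 ≤ x ^ 2 * as d N := by
        rw [div_le_iff₀ (by positivity)] at hN1
        linarith
      have h2 : as d N ≤ x ^ 2 * as d N * as d N := by nlinarith
      have h3 : x ^ 2 * as d N * as d N ≤ x ^ 2 * a := by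
        rw [mul_assoc]
        refine mul_le_mul_of_nonneg_left ?_ (by positivity)
        refine le_trans ?_ ha4
        calc as d N * as d N = as d N ^ 2 * 1 := by ring
          _ ≤ as d N ^ 2 * as d N ^ 2 := mul_le_mul_of_nonneg_left (one_le_pow₀ hN3) (by positivity)
          _ = as d N ^ 4 := by ring
      exact h2.trans h3)
    (by
      refine le_trans ?_ ham
      calc C * (x ^ 2) ^ (3 / 4 : ℝ) * a ≤ 1 * a := mul_le_mul_of_nonneg_right (by linarith) hapos.le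
        _ = a := one_mul a)
  obtain ⟨B, hB⟩ : ∃ B : ℝ, B = C * (x ^ 2) ^ (3 / 4 : ℝ) * a := ⟨_, rfl⟩
  rw [← hB] at hτ
  have hB1 : B ≤ δ / 16 * a := by
    rw [hB]
    exact mul_le_mul_of_nonneg_right hCx34 hapos.le
  have hmove : ∀ y : Site d, Even (ln y) → (sn y : ℝ) ≤ R →
      (law d ρ).real {η : Env d | ¬ Tle ρ β η τ y B} ≤ 1 / 4 := by
    intro y h1 h2
    have h3 := hmv y h1 (h2.trans ?_)
    · rw [← hB] at h3
      exact h3
    · unfold WW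
      have e1 : R = x ^ 2 * (a * (1 / (2 * P))) := by
        rw [hR, he4, hW]
        field_simp
      have e2 : a / pr d ρ β a = a * (1 / pr d ρ β a) := by ring
      rw [e1, e2]
      refine mul_le_mul_of_nonneg_left (mul_le_mul_of_nonneg_left ?_ hapos.le) (by positivity)
      rw [div_le_div_iff₀ (by positivity) hpra]
      linarith
  have hroute := ThA_route (ρ := ρ) (β := β) (τ := τ) (h := h) (R := R) (u := B) (q := 1 / 4)
    (X := P / 2 * sn z - δ / 2 * a) (z := z) (w := w) (R' := R') hmove (by norm_num) ?_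
  · rw [hshift] at hroute
    obtain ⟨σ, e, hσ⟩ := ThA_sym j0 z
    refine ⟨τ + h + τ, sAct σ e z, by omega, ?_, ?_, ?_, ?_, ?_, ?_⟩
    · have s4 : δ / 16 * a ≤ a / 16 := by nlinarith
      have s5 : τ ≤ nn d ρ β (a / 16) :=
        (le_nn S (by linarith)).2 (Or.inr (hτ.trans (hB1.trans s4)))
      have e16 : ((16 : ℕ) : ℝ) * (a / 16) = a := by push_cast; ring
      have s6 := nn_mul j0 hρ S (a := a / 16) (by linarith) 16 (by rw [e16]; exact ham)
      rw [e16] at s6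
      omega
    · have s1 := SS_add (ρ := ρ) (β := β) j0 hρ (τ + h) τ
      have s2 := SS_add (ρ := ρ) (β := β) j0 hρ τ h
      have s3 : SS d ρ β h ≤ a := (SS_mono hh).trans (SS_nn S hapos.le ham)
      have s4 : δ / 16 * a ≤ 1 / 16 * a := mul_le_mul_of_nonneg_right (by linarith) hapos.le
      linarith
    · rw [sAct_ln]; exact hzE
    · rw [hσ, sAct_sn]
    · rw [sAct_sn, ← hW]; exact hzK
    · rw [sAct_sn, real_Tle_act]
      refine le_trans ?_ hroute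
      have e1 : p0 / (2 * M) = (1 - 2 * (1 / 4)) * (p0 / M) := by
        field_simp
        norm_num
      rw [e1]
      exact mul_le_mul_of_nonneg_left hi (by norm_num)
  · intro x' p' g1 g2
    rw [hw]
    have s1 : sn (p' - x') ≤ sn (p' - z) + sn z + sn x' := by
      have s2 := ThA_sn_sub p' x'
      have s3 := ThA_sn_le p' z
      omega
    have s2 : (sn (p' - x') : ℝ) ≤ sn (p' - z) + sn z + sn x' := by exact_mod_cast s1
    have s3 : P / 2 * (sn (p' - x') : ℝ) ≤ P / 2 * (sn z + 2 * R) :=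
      mul_le_mul_of_nonneg_left (by linarith) (by positivity)
    have s4 : P / 2 * (2 * R) = e4 * a := by
      rw [hR, ← hWP]
      ring
    have s5 : e4 * a ≤ δ / 16 * a := mul_le_mul_of_nonneg_right he1 hapos.le
    have s6 : 0 < δ * a := by positivity
    nlinarith

end Pool.Agent.W_7d29a1_q
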