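import Pool.Agent.W_7d29a1_q.Mv
import Pool.Agent.W_7d29a1_q.ThF

/-!
Row 601, section 10, step 3: the climbs (10.1).
-/

namespace Pool.Agent.W_7d29a1_q

open MeasureTheory ProbabilityTheory Filter Topology Pool.Agent.W_MP_7d29a1_pr
  Pool.Agent.W_7d29a1_h46 Pool.Agent.W_7d29a1_h46u Pool.Agent.W_7d29a1_h3

variable {d : ℕ}

theorem ThC_e2_pos {A : ℕ} (hA : 2 ≤ A) : 0 < e2 A := by
  have h1 : (2 : ℝ) ≤ A := by exact_mod_cast hA
  unfold e2
  have h2 : 0 < Real.log A := Real.log_pos (by linarith)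
  have h3 : 0 < Real.log (1 + 1 / (A : ℝ)) := Real.log_pos (by
    have : 0 < 1 / (A : ℝ) := by positivity
    linarith)
  positivity

/-- (10.1). -/
theorem th_climb (j0 : Fin d) {Λ : ℝ} {A : ℕ} (hΛ : 1 ≤ Λ) (hA : 2 ≤ A) {δ q K4 : ℝ} (hδ : 0 < δ)
    (hδ1 : δ ≤ 1) (hq : 0 < q) (hq1 : q ≤ 1) (hK : 1 ≤ K4) (J : ℕ) :
    ∃ i2 i3 : ℕ, i2 ≤ i3 ∧ 64 ≤ (A : ℝ) ^ i2 ∧
    ∀ (ρ : Measure ℝ) [IsProbabilityMeasure ρ] (β c a0 : ℝ), EM ρ → ∀ᶠ N : ℕ in atTop,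
      Sc d ρ β c a0 N → ∀ (i0 i1 : ℕ) (η : ℝ) (k : ℕ), i3 ≤ i0 → 0 < η → η ≤ 1 / 16 →
      Gd d ρ β a0 Λ A N i0 i1 η k → ∀ (j Y : ℕ), j ≤ J → Even Y →
      (Y : ℝ) ≤ K4 * ((A : ℝ) ^ k / pr d ρ β (Λ * (A : ℝ) ^ (k + i1))) →
      (law d ρ).real {η' : Env d | ¬ Tle ρ β η' (nn d ρ β ((A : ℝ) ^ (k - i2)))
        (((j * Y : ℕ) : ℤ) • es j0) ((1 + η) * pr d ρ β (Λ * (A : ℝ) ^ (k + i1)) * (j * Y : ℕ) +
          δ / 16 * (A : ℝ) ^ k)} ≤ 3 * q := by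
  have hAR : (2 : ℝ) ≤ A := by exact_mod_cast hA
  have hA1 : (1 : ℝ) < A := by linarith
  have he2 := ThC_e2_pos hA
  obtain ⟨i2, hi2⟩ : ∃ i2 : ℕ, 64 / (δ * q) ≤ (A : ℝ) ^ i2 :=
    (pow_unbounded_of_one_lt (64 / (δ * q)) hA1).imp fun _ h => h.le
  have hδq : 0 < δ * q := by positivity
  have hδq1 : δ * q ≤ 1 := by nlinarith
  have h64 : 64 ≤ (A : ℝ) ^ i2 := by
    refine le_trans ?_ hi2
    rw [le_div_iff₀ hδq]
    linarith
  obtain ⟨CE, hCE⟩ : ∃ CE : ℝ, CE = 17 / 16 * (J * K4) + 13 := ⟨_, rfl⟩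
  have hCE1 : 1 ≤ CE := by
    rw [hCE]
    have : 0 ≤ (J : ℝ) * K4 := by positivity
    linarith
  obtain ⟨M1, hM1⟩ : ∃ M1 : ℝ, M1 = 1 + (12 * CE * (A : ℝ) ^ i2 / q) ^ (1 / e2 A) +
    2 * CE * (128 / δ) ^ 2 / q + (1536 / δ) ^ (4 / 3 : ℝ) := ⟨_, rfl⟩
  have hx1 : 0 ≤ (12 * CE * (A : ℝ) ^ i2 / q) ^ (1 / e2 A) := Real.rpow_nonneg (by positivity) _
  have hx2 : 0 ≤ 2 * CE * (128 / δ) ^ 2 / q := by positivity
  have hx3 : 0 ≤ (1536 / δ) ^ (4 / 3 : ℝ) := Real.rpow_nonneg (by positivity) _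
  have hM11 : 1 ≤ M1 := by rw [hM1]; linarith
  have hM1a : 12 * CE * (A : ℝ) ^ i2 / q ≤ M1 ^ e2 A := by
    have h1 : (12 * CE * (A : ℝ) ^ i2 / q) ^ (1 / e2 A) ≤ M1 := by rw [hM1]; linarith
    have h2 := Real.rpow_le_rpow hx1 h1 he2.le
    rwa [← Real.rpow_mul (by positivity), one_div, inv_mul_cancel₀ he2.ne', Real.rpow_one] at h2
  obtain ⟨M0, hM0⟩ : ∃ M0 : ℝ, M0 = (A : ℝ) ^ i2 * M1 := ⟨_, rfl⟩
  have hM0M1 : M1 ≤ M0 := by
    rw [hM0]
    have : 1 ≤ (A : ℝ) ^ i2 := by linarith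
    nlinarith
  have hM0b : 2 * CE * (128 / δ) ^ 2 / q ≤ M0 := by
    refine le_trans ?_ hM0M1
    rw [hM1]; linarith
  have hM0c : 12 * M0 ^ (-(3 / 4) : ℝ) ≤ δ / 128 := by
    have h1 : (1536 / δ) ^ (4 / 3 : ℝ) ≤ M0 := by
      refine le_trans ?_ hM0M1
      rw [hM1]; linarith
    have h2 := Real.rpow_le_rpow hx3 h1 (show (0 : ℝ) ≤ 3 / 4 by norm_num)
    rw [← Real.rpow_mul (by positivity)] at h2
    norm_num at h2
    have hM0p : 0 < M0 := by linarith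
    rw [Real.rpow_neg hM0p.le]
    have h3 : 0 < M0 ^ (3 / 4 : ℝ) := Real.rpow_pos_of_pos hM0p _
    rw [div_le_iff₀ hδ] at h2
    rw [← div_eq_mul_inv, div_le_iff₀ h3]
    linarith
  have hM01 : 1 ≤ M0 := by linarith
  obtain ⟨i3', hi3'⟩ : ∃ i : ℕ, M0 < (A : ℝ) ^ i := pow_unbounded_of_one_lt M0 hA1
  refine ⟨i2, max i2 i3', le_max_left _ _, h64, ?_⟩
  intro ρ _ β c a0 hρ
  have hlim := ThF_as_tendsto d
  filter_upwards [climb j0 ρ β c a0 hρ, eventually_ge_atTop 1, hlim.eventually_ge_atTop 1,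
    hlim.eventually_ge_atTop a0, hlim.eventually_ge_atTop M1, hlim.eventually_ge_atTop (128 / δ),
    hlim.eventually_ge_atTop (2 * (128 / δ) ^ 2 / q)] with N hcl hN has1 has0 hasM hasδ hasq
  intro S i0 i1 η k hi hη hη1 G j Y hj hY hYb
  have F := Gd_facts S G hΛ hA hN has1 has0
  obtain ⟨a, ha⟩ : ∃ a : ℝ, a = (A : ℝ) ^ k := ⟨_, rfl⟩
  obtain ⟨P, hP⟩ : ∃ P : ℝ, P = pr d ρ β (Λ * (A : ℝ) ^ (k + i1)) := ⟨_, rfl⟩
  rw [← ha] at F
  rw [← hP] at F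
  rw [← ha, ← hP] at hYb ⊢
  have hN1 : (1 : ℝ) ≤ N := by exact_mod_cast hN
  have hPp := F.Ppos
  have ha1 := F.one
  have ha0' : 0 < a := by linarith
  have hik : i0 ≤ k := G.ik
  have hi2k : i2 ≤ i0 := (le_max_left _ _).trans hi
  have hi3k : i3' ≤ i0 := (le_max_right _ _).trans hi
  -- the budget b
  obtain ⟨b, hb⟩ : ∃ b : ℝ, b = a / M0 := ⟨_, rfl⟩
  have hbpos : 0 < b := by rw [hb]; positivity
  have hba : b ≤ a := by
    rw [hb]
    exact div_le_self ha0'.le hM01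
  have hb0b : (A : ℝ) ^ (k - i0) ≤ b := by
    rw [hb, le_div_iff₀ (by linarith)]
    have h1 : M0 ≤ (A : ℝ) ^ i0 := hi3'.le.trans (pow_le_pow_right₀ hA1.le hi3k)
    calc (A : ℝ) ^ (k - i0) * M0 ≤ (A : ℝ) ^ (k - i0) * (A : ℝ) ^ i0 :=
          mul_le_mul_of_nonneg_left h1 (by positivity)
      _ = a := by rw [ha, ← pow_add]; congr 1; omega
  have ham : a ≤ am d N := F.ab1.trans F.b1m
  have hpow6 := ThF_pow (d := d) S.csm hN
  have hpow5 : (N : ℝ) ^ (5 * c) ≤ as d N := by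
    refine le_trans (Real.rpow_le_rpow_of_exponent_le hN1 ?_) hpow6
    have := S.cpos
    linarith
  have hpow0 : 0 ≤ (N : ℝ) ^ (5 * c) := by positivity
  have has4a : as d N ^ 4 ≤ a := F.as4.trans F.b0a
  have has2a : as d N ^ 2 ≤ a := by
    refine le_trans (pow_le_pow_right₀ has1 (by norm_num)) has4a
  have hpow5' : (N : ℝ) ^ (5 * c) ≤ δ / 128 * a := by
    have h1 : as d N * (128 / δ) ≤ a := by
      calc as d N * (128 / δ) ≤ as d N * as d N := mul_le_mul_of_nonneg_left hasδ (by linarith)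
        _ = as d N ^ 2 := by ring
        _ ≤ a := has2a
    have h2 : as d N ≤ δ / 128 * a := by
      have h3 : as d N * (128 / δ) * (δ / 128) = as d N := by field_simp
      have h4 : as d N * (128 / δ) * (δ / 128) ≤ a * (δ / 128) :=
        mul_le_mul_of_nonneg_right h1 (by positivity)
      linarith
    linarith
  have hpow5q : (N : ℝ) ^ (5 * c) ≤ q * (δ / 128) ^ 2 / 2 * a ^ 2 := by
    have h1 : as d N * (2 * (128 / δ) ^ 2 / q) ≤ a := by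
      calc as d N * (2 * (128 / δ) ^ 2 / q) ≤ as d N * as d N :=
            mul_le_mul_of_nonneg_left hasq (by linarith)
        _ = as d N ^ 2 := by ring
        _ ≤ a := has2a
    have h2 : as d N ≤ q * (δ / 128) ^ 2 / 2 * a := by
      have h3 : as d N * (2 * (128 / δ) ^ 2 / q) * (q * (δ / 128) ^ 2 / 2) = as d N := by field_simp
      have h4 := mul_le_mul_of_nonneg_right h1 (show 0 ≤ q * (δ / 128) ^ 2 / 2 by positivity)
      linarith
    have h5 : q * (δ / 128) ^ 2 / 2 * a ≤ q * (δ / 128) ^ 2 / 2 * a ^ 2 :=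
      mul_le_mul_of_nonneg_left (by nlinarith) (by positivity)
    linarith
  -- the mean
  obtain ⟨ζ, hζ⟩ : ∃ ζ : ℕ, ζ = j * Y := ⟨_, rfl⟩
  obtain ⟨E, hE⟩ : ∃ E : ℝ, E = Eb d ρ β c N a b ζ := ⟨_, rfl⟩
  have hprb : pr d ρ β b ≤ (1 + η) * P := F.up b hb0b (hba.trans F.ab1)
  have hprb0 : 0 ≤ pr d ρ β b := F.Ppos.le.trans (F.lo b hb0b (hba.trans F.ab1))
  have hbM : (b / a) ^ (3 / 4 : ℝ) = M0 ^ (-(3 / 4) : ℝ) := by
    have h1 : b / a = M0⁻¹ := by rw [hb]; field_simp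
    rw [h1, Real.inv_rpow (by linarith), Real.rpow_neg (by linarith)]
  have hEle : E ≤ (1 + η) * P * ζ + δ / 64 * a := by
    rw [hE]
    unfold Eb
    rw [hbM]
    have h1 : pr d ρ β b * ζ ≤ (1 + η) * P * ζ := mul_le_mul_of_nonneg_right hprb (Nat.cast_nonneg _)
    have h2 : 12 * a * M0 ^ (-(3 / 4) : ℝ) ≤ δ / 128 * a := by
      have := mul_le_mul_of_nonneg_right hM0c ha0'.le
      linarith
    linarith
  have hE0 : 0 ≤ E := by
    rw [hE]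
    unfold Eb
    have : 0 ≤ (b / a) ^ (3 / 4 : ℝ) := Real.rpow_nonneg (by positivity) _
    positivity
  have hPζ : P * ζ ≤ J * K4 * a := by
    have h1 : P * Y ≤ K4 * a := by
      have h2 := mul_le_mul_of_nonneg_left hYb hPp.le
      have h3 : P * (K4 * (a / P)) = K4 * a := by field_simp
      linarith
    have h4 : (j : ℝ) ≤ J := by exact_mod_cast hj
    have h5 : (ζ : ℝ) = j * Y := by rw [hζ]; push_cast; ring
    rw [h5]
    calc P * (j * Y) = j * (P * Y) := by ring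
      _ ≤ J * (K4 * a) := mul_le_mul h4 h1 (by positivity) (by positivity)
      _ = J * K4 * a := by ring
  have hECE : E ≤ CE * a := by
    rw [hCE]
    have h1 : (1 + η) * P * ζ ≤ 17 / 16 * (J * K4 * a) := by
      have h2 : (1 + η) * (P * ζ) ≤ 17 / 16 * (J * K4 * a) :=
        mul_le_mul (by linarith) hPζ (by positivity) (by norm_num)
      linarith
    have h3 : δ / 64 * a ≤ 13 * a := mul_le_mul_of_nonneg_right (by linarith) ha0'.le
    linarith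
  -- the time
  obtain ⟨tc, htc⟩ : ∃ tc : ℕ, tc = nn d ρ β ((A : ℝ) ^ (k - i2)) := ⟨_, rfl⟩
  rw [← htc]
  have hAi2 : (A : ℝ) ^ (k - i2) * (A : ℝ) ^ i2 = a := by
    rw [ha, ← pow_add]; congr 1; omega
  have hAi2p : 0 < (A : ℝ) ^ (k - i2) := by positivity
  have hpsb : ps d ρ β b ≤ 3 * M1 ^ (-e2 A) * ps d ρ β ((A : ℝ) ^ (k - i2)) := by
    have h1 := G.psi (k - i2) (by omega) (Nat.sub_le _ _) M1 hM11 hasM
    have h2 : (A : ℝ) ^ (k - i2) / M1 = b := by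
      rw [hb, hM0, ← hAi2]
      field_simp
    rwa [h2] at h1
  have hpstc : ps d ρ β ((A : ℝ) ^ (k - i2)) * a = tc * (A : ℝ) ^ i2 := by
    unfold ps
    rw [← htc, ← hAi2]
    field_simp
  have hM1p : 0 < M1 ^ e2 A := Real.rpow_pos_of_pos (by linarith) _
  have htime : 4 * ps d ρ β b * E ≤ q * tc := by
    have hps0 : 0 ≤ ps d ρ β ((A : ℝ) ^ (k - i2)) := by unfold ps; positivity
    have h1 : 4 * ps d ρ β b * E ≤ 4 * (3 * M1 ^ (-e2 A) * ps d ρ β ((A : ℝ) ^ (k - i2))) * (CE * a) := by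
      refine mul_le_mul (mul_le_mul_of_nonneg_left hpsb (by norm_num)) hECE hE0 ?_
      have : 0 ≤ M1 ^ (-e2 A) := Real.rpow_nonneg (by linarith) _
      positivity
    refine h1.trans ?_
    rw [Real.rpow_neg (by linarith)]
    have h2 : 4 * (3 * (M1 ^ e2 A)⁻¹ * ps d ρ β ((A : ℝ) ^ (k - i2))) * (CE * a) =
        12 * CE * (A : ℝ) ^ i2 / M1 ^ e2 A * tc := by
      have h3 : 4 * (3 * (M1 ^ e2 A)⁻¹ * ps d ρ β ((A : ℝ) ^ (k - i2))) * (CE * a) =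
        12 * CE * (M1 ^ e2 A)⁻¹ * (ps d ρ β ((A : ℝ) ^ (k - i2)) * a) := by ring
      rw [h3, hpstc]
      field_simp
    rw [h2]
    refine mul_le_mul_of_nonneg_right ?_ (Nat.cast_nonneg _)
    rw [div_le_iff₀ hM1p]
    rw [div_le_iff₀ hq] at hM1a
    linarith
  have hStc : SS d ρ β tc / q ≤ δ / 64 * a := by
    have h1 : SS d ρ β tc ≤ (A : ℝ) ^ (k - i2) := by
      rw [htc]
      refine SS_nn S hAi2p.le ?_
      refine le_trans ?_ ham
      rw [ha]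
      exact pow_le_pow_right₀ hA1.le (Nat.sub_le _ _)
    rw [div_le_iff₀ hq]
    refine h1.trans ?_
    rw [div_le_iff₀ hδq] at hi2
    have h2 : (A : ℝ) ^ (k - i2) * 64 ≤ a * (δ * q) := by
      calc (A : ℝ) ^ (k - i2) * 64 ≤ (A : ℝ) ^ (k - i2) * ((A : ℝ) ^ i2 * (δ * q)) :=
            mul_le_mul_of_nonneg_left hi2 hAi2p.le
        _ = a * (δ * q) := by rw [← mul_assoc, hAi2]
    linarith
  have hsq : 2 * Real.sqrt ((b * E + (N : ℝ) ^ (5 * c)) / q) ≤ δ / 64 * a := by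
    have h1 : Real.sqrt ((b * E + (N : ℝ) ^ (5 * c)) / q) ≤ δ / 128 * a := by
      rw [Real.sqrt_le_left (by positivity), div_le_iff₀ hq]
      have h2 : b * E ≤ (δ / 128) ^ 2 * q / 2 * a ^ 2 := by
        have h3 : b * E ≤ b * (CE * a) := mul_le_mul_of_nonneg_left hECE hbpos.le
        have h4 : b * (CE * a) = CE / M0 * a ^ 2 := by rw [hb]; ring
        have h5 : CE / M0 ≤ (δ / 128) ^ 2 * q / 2 := by
          rw [div_le_iff₀ (by linarith)]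
          have h6 : 2 * CE * (128 / δ) ^ 2 / q * ((δ / 128) ^ 2 * q / 2) = CE := by field_simp
          calc CE = 2 * CE * (128 / δ) ^ 2 / q * ((δ / 128) ^ 2 * q / 2) := h6.symm
            _ ≤ M0 * ((δ / 128) ^ 2 * q / 2) := mul_le_mul_of_nonneg_right hM0b (by positivity)
            _ = _ := by ring
        rw [h4] at h3
        exact h3.trans (mul_le_mul_of_nonneg_right h5 (sq_nonneg a))
      have h7 : (δ / 128 * a) ^ 2 * q = (δ / 128) ^ 2 * q / 2 * a ^ 2 + q * (δ / 128) ^ 2 / 2 * a ^ 2 := by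
        ring
      rw [h7]
      linarith
    linarith
  have hfin := hcl S a b ham (F.reg a F.b0a F.ab1) (F.a0b0.trans hb0b) hba j0 1 ζ tc q (Or.inl rfl)
    (by rw [hζ]; exact hY.mul_left j) hq (by rw [← hE]; exact htime)
  rw [← hE] at hfin
  refine le_trans (measureReal_mono ?_) hfin
  intro η' h h2
  apply h
  rw [one_mul] at h2
  rw [← hζ]
  refine Tle_mono h2 ?_
  linarith

end Pool.Agent.W_7d29a1_q
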