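import Pool.Agent.W_7d29a1_q.Bas

/-!
Row 601, section 10, step 4: windows with a success probability close to one.
-/

namespace Pool.Agent.W_7d29a1_q

open MeasureTheory ProbabilityTheory Filter Topology Pool.Agent.W_MP_7d29a1_pr
  Pool.Agent.W_7d29a1_h46 Pool.Agent.W_7d29a1_h46u Pool.Agent.W_7d29a1_h3

variable {d : ℕ} {ρ : Measure ℝ} {β : ℝ}

/-- The rows after the time `2 t` are independent of the event `A`. -/
theorem ThD_step [IsProbabilityMeasure ρ] {A : Set (Env d)} (hA : MeasurableSet A) {t : ℕ}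
    (hdep : ∀ η η' : Env d, (∀ p : ℕ × Site d, p.1 ≤ 2 * t → η p = η' p) → (η ∈ A ↔ η' ∈ A))
    {Z : Env d → ℝ} (hZ : Measurable Z) (hZd : DependsOn Z {p : ℕ × Site d | 1 ≤ p.1}) (x : Site d) :
    ∫ η, A.indicator (fun η => Z (sh (2 * t) x η)) η ∂(law d ρ) =
      (law d ρ).real A * ∫ η, Z η ∂(law d ρ) := by
  have h1 : (fun η : Env d => A.indicator (fun η => Z (sh (2 * t) x η)) η) =
      fun η => A.indicator (fun _ => (1 : ℝ)) η * Z (sh (2 * t) x η) := by
    funext η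
    by_cases h : η ∈ A
    · rw [Set.indicator_of_mem h, Set.indicator_of_mem h, one_mul]
    · rw [Set.indicator_of_notMem h, Set.indicator_of_notMem h, zero_mul]
  rw [h1, integral_indep {p : ℕ × Site d | p.1 ≤ 2 * t} (F := A.indicator fun _ => (1 : ℝ))
    (G := fun η => Z (sh (2 * t) x η)) (measurable_const.indicator hA)
    (hZ.comp (measurable_sh _ _)), integral_indicator_const _ hA, integral_sh _ _ hZ, smul_eq_mul, mul_one]
  · intro η η' h
    have h2 := hdep η η' fun p hp => h p hp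
    by_cases h3 : η ∈ A
    · rw [Set.indicator_of_mem h3, Set.indicator_of_mem (h2.1 h3)]
    · rw [Set.indicator_of_notMem h3, Set.indicator_of_notMem fun h4 => h3 (h2.2 h4)]
  · intro η η' h
    refine hZd fun p hp => ?_
    have hp' : 1 ≤ p.1 := hp
    refine h _ ?_
    show ¬ (p.1 + 2 * t ≤ 2 * t)
    omega

/-- `n` windows of the half time `h`, `m` successes with the displacements `D l, D (l + 1), ...` (price `x` each): the
additional cost is `Z` if the number `F` of the failures is at most `n - m`. -/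
def Wn (d : ℕ) (ρ : Measure ℝ) (β : ℝ) (h : ℕ) (x : ℝ) (D : ℕ → Site d) (n m l : ℕ) (E1 E2 : ℝ) : Prop :=
  ∃ Z F : Env d → ℝ, Measurable Z ∧ Measurable F ∧ DependsOn Z {p : ℕ × Site d | 1 ≤ p.1} ∧
    DependsOn F {p : ℕ × Site d | 1 ≤ p.1} ∧ (∀ η, 0 ≤ Z η) ∧ (∀ η, 0 ≤ F η) ∧
    Integrable Z (law d ρ) ∧ Integrable F (law d ρ) ∧ ∫ η, Z η ∂(law d ρ) ≤ E1 ∧
    ∫ η, F η ∂(law d ρ) ≤ E2 ∧
    ∀ η, F η + m ≤ n → Tle ρ β η (n * h) (∑ i ∈ Finset.range m, D (l + i)) (m * x + Z η)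

/-- The cost of waiting. -/
noncomputable def wt (ρ : Measure ℝ) (β : ℝ) (t : ℕ) (η : Env d) : ℝ :=
  max (-Real.log (Vp ρ β η (2 * t) 0)) 0

theorem wt_Tle [IsProbabilityMeasure ρ] (j0 : Fin d) (t : ℕ) (η : Env d) :
    Tle ρ β η t 0 (wt ρ β t η) := by
  unfold Tle wt
  have h1 : 0 < Vp ρ β η (2 * t) (0 : Site d) := Vp_pos j0 η (adm_zero t)
  have h2 := le_max_left (-Real.log (Vp ρ β η (2 * t) (0 : Site d))) 0
  have h3 : Real.exp (-(max (-Real.log (Vp ρ β η (2 * t) (0 : Site d))) 0)) ≤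
      Real.exp (Real.log (Vp ρ β η (2 * t) (0 : Site d))) := Real.exp_le_exp.2 (by linarith)
  rwa [Real.exp_log h1] at h3

theorem measurable_wt (t : ℕ) : Measurable (wt (d := d) ρ β t) := by
  unfold wt Vp
  exact (Real.measurable_log.comp (measurable_V _)).neg.max measurable_const

theorem dep_wt (t : ℕ) :
    DependsOn (wt (d := d) ρ β t) {p : ℕ × Site d | 1 ≤ p.1 ∧ p.1 ≤ 2 * t} := by
  intro η η' h
  have h1 : V ρ β η (toP (2 * t) (0 : Site d)) = V ρ β η' (toP (2 * t) (0 : Site d)) :=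
    dep_V (toP (2 * t) (0 : Site d)) h
  unfold wt Vp
  rw [h1]

variable [IsProbabilityMeasure ρ]

theorem Wn_zero (j0 : Fin d) (hρ : EM ρ) {h : ℕ} {x : ℝ} {D : ℕ → Site d} {n l K : ℕ} (hn : n ≤ K)
    {E1 E2 : ℝ} (h1 : SS d ρ β (K * h) ≤ E1) (h2 : 0 ≤ E2) : Wn d ρ β h x D n 0 l E1 E2 := by
  have h3 := wait_mean (β := β) j0 hρ (t := n * h) (n := K * h) (Nat.mul_le_mul_right h hn)
  refine ⟨wt ρ β (n * h), fun _ => 0, measurable_wt _, measurable_const, ?_, fun _ _ _ => rfl,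
    fun η => le_max_right _ _, fun _ => le_rfl, h3.1, integrable_zero _ _ _, h3.2.trans h1, by simpa using h2,
    fun η _ => ?_⟩
  · exact DependsOn.mono (fun p hp => hp.1) (dep_wt (ρ := ρ) (β := β) (n * h))
  · rw [Finset.range_zero, Finset.sum_empty]
    simpa using wt_Tle (ρ := ρ) (β := β) j0 (n * h) η

omit [IsProbabilityMeasure ρ] in
theorem Wn_none {h : ℕ} {x : ℝ} {D : ℕ → Site d} {m l : ℕ} {E1 E2 : ℝ} (h1 : 0 ≤ E1) (h2 : 0 ≤ E2) :
    Wn d ρ β h x D 0 (m + 1) l E1 E2 := by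
  refine ⟨fun _ => 0, fun _ => 0, measurable_const, measurable_const, fun _ _ _ => rfl,
    fun _ _ _ => rfl, fun _ => le_rfl, fun _ => le_rfl, integrable_zero _ _ _, integrable_zero _ _ _,
    by simpa using h1, by simpa using h2, fun η hη => ?_⟩
  exfalso
  push_cast at hη
  have : (0 : ℝ) ≤ m := Nat.cast_nonneg m
  linarith

/-- The waits of the failures (Cauchy-Schwarz). -/
theorem wait_fail (j0 : Fin d) (hρ : EM ρ) {h : ℕ} (hh : 1 ≤ h) {B : Set (Env d)} (hB : MeasurableSet B)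
    {q : ℝ} (hq : 0 < q) (hP : (law d ρ).real B ≤ q ^ 2) :
    ∫ η, B.indicator (wt ρ β h) η ∂(law d ρ) ≤ q * SS d ρ β h := by
  have hS : 0 < SS d ρ β h := zero_lt_one.trans_le (one_le_SS hh)
  obtain ⟨S, hSdef⟩ : ∃ S : ℝ, S = SS d ρ β h := ⟨_, rfl⟩
  have h1 : Integrable (fun η : Env d => wt ρ β h η ^ 2) (law d ρ) ∧
      ∫ η : Env d, wt ρ β h η ^ 2 ∂(law d ρ) ≤ S ^ 2 := by
    rw [hSdef]
    exact wait_sq (β := β) j0 hρ (t := h) (n := h) le_rfl
  have hm : Integrable (wt (d := d) ρ β h) (law d ρ) :=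
    (wait_mean (β := β) j0 hρ (t := h) (n := h) le_rfl).1
  rw [← hSdef] at hS ⊢
  have hpt : ∀ η : Env d, B.indicator (wt ρ β h) η ≤
      B.indicator (fun _ => S / q / 2) η + wt ρ β h η ^ 2 * (q / S / 2) := by
    intro η
    by_cases hη : η ∈ B
    · rw [Set.indicator_of_mem hη, Set.indicator_of_mem hη]
      have h2 : 0 ≤ (wt ρ β h η - S / q) ^ 2 * (q / S / 2) := by positivity
      have h3 : (wt ρ β h η - S / q) ^ 2 * (q / S / 2) =
          wt ρ β h η ^ 2 * (q / S / 2) - wt ρ β h η + S / q / 2 := by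
        field_simp
        ring
      linarith
    · rw [Set.indicator_of_notMem hη, Set.indicator_of_notMem hη]
      positivity
  have hi : Integrable (B.indicator (wt (d := d) ρ β h)) (law d ρ) := hm.indicator hB
  have hi2 : Integrable (fun η : Env d => B.indicator (fun _ => S / q / 2) η +
      wt ρ β h η ^ 2 * (q / S / 2)) (law d ρ) :=
    ((integrable_const _).indicator hB).add (h1.1.mul_const _)
  refine (integral_mono hi hi2 hpt).trans ?_
  rw [integral_add ((integrable_const _).indicator hB) (h1.1.mul_const _), integral_indicator_const _ hB,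
    integral_mul_const, smul_eq_mul]
  have h4 : (law d ρ).real B * (S / q / 2) ≤ q ^ 2 * (S / q / 2) :=
    mul_le_mul_of_nonneg_right hP (by positivity)
  have h5 : (∫ η : Env d, wt ρ β h η ^ 2 ∂(law d ρ)) * (q / S / 2) ≤ S ^ 2 * (q / S / 2) :=
    mul_le_mul_of_nonneg_right h1.2 (by positivity)
  have h6 : q ^ 2 * (S / q / 2) + S ^ 2 * (q / S / 2) = q * S := by
    field_simp
    ring
  linarith

omit [IsProbabilityMeasure ρ] in
private theorem ThD_int3 {f g k : Env d → ℝ} (hf : Integrable f (law d ρ)) (hg : Integrable g (law d ρ))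
    (hk : Integrable k (law d ρ)) : ∫ η, (f η + (g η + k η)) ∂(law d ρ) =
      ∫ η, f η ∂(law d ρ) + (∫ η, g η ∂(law d ρ) + ∫ η, k η ∂(law d ρ)) := by
  have hgk : Integrable (fun η => g η + k η) (law d ρ) := hg.add hk
  rw [integral_add hf hgk, integral_add hg hk]

/-- One window. -/
theorem Wn_succ (j0 : Fin d) (hρ : EM ρ) {h : ℕ} (hh : 1 ≤ h) {x : ℝ} {D : ℕ → Site d} {n m l : ℕ}
    {E1 E2 q : ℝ} (hq : 0 < q)
    (hD : (law d ρ).real {η : Env d | ¬ Tle ρ β η h (D l) x} ≤ q ^ 2)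
    (h1 : Wn d ρ β h x D n m (l + 1) E1 E2) (h2 : Wn d ρ β h x D n (m + 1) l E1 E2) :
    Wn d ρ β h x D (n + 1) (m + 1) l (E1 + q * SS d ρ β h) (E2 + q ^ 2) := by
  classical
  obtain ⟨Z1, F1, z1m, f1m, z1d, f1d, z10, f10, z1i, f1i, z1e, f1e, t1⟩ := h1
  obtain ⟨Z2, F2, z2m, f2m, z2d, f2d, z20, f20, z2i, f2i, z2e, f2e, t2⟩ := h2
  set A : Set (Env d) := {η | Tle ρ β η h (D l) x} with hAdef
  have hA : MeasurableSet A := measurableSet_Tle _ _ _
  have hAd : ∀ η η' : Env d, (∀ p : ℕ × Site d, 1 ≤ p.1 → p.1 ≤ 2 * h → η p = η' p) →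
      (η ∈ A ↔ η' ∈ A) := by
    intro η η' hη
    have h3 : Tle ρ β (sh (2 * 0) 0 η) h (D l) x ↔ Tle ρ β (sh (2 * 0) 0 η') h (D l) x :=
      dep_Tle fun p hp hp' => hη p (by omega) (by omega)
    rw [Nat.mul_zero, sh_zero, sh_zero] at h3
    exact h3
  have hAd1 : ∀ η η' : Env d, (∀ p : ℕ × Site d, p.1 ≤ 2 * h → η p = η' p) → (η ∈ A ↔ η' ∈ A) :=
    fun η η' hη => hAd η η' fun p _ hp => hη p hp
  have hAc1 : ∀ η η' : Env d, (∀ p : ℕ × Site d, p.1 ≤ 2 * h → η p = η' p) → (η ∈ Aᶜ ↔ η' ∈ Aᶜ) :=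
    fun η η' hη => not_congr (hAd1 η η' hη)
  have hPc : (law d ρ).real Aᶜ ≤ q ^ 2 := hD
  have hPA : (law d ρ).real A + (law d ρ).real Aᶜ = 1 := by
    rw [probReal_compl_eq_one_sub hA]
    ring
  have hP0 : 0 ≤ (law d ρ).real A := measureReal_nonneg
  have hPc0 : 0 ≤ (law d ρ).real Aᶜ := measureReal_nonneg
  have hsh : ∀ (Z : Env d → ℝ) (y : Site d), DependsOn Z {p : ℕ × Site d | 1 ≤ p.1} →
      DependsOn (fun η => Z (sh (2 * h) y η)) {p : ℕ × Site d | 1 ≤ p.1} := by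
    intro Z y hZ η η' hη
    refine hZ fun p hp => hη _ ?_
    have hp' : 1 ≤ p.1 := hp
    show 1 ≤ p.1 + 2 * h
    omega
  have hAd' : ∀ η η' : Env d, (∀ p ∈ {p : ℕ × Site d | 1 ≤ p.1}, η p = η' p) → (η ∈ A ↔ η' ∈ A) :=
    fun η η' hη => hAd η η' fun p hp _ => hη p hp
  have hi : ∀ (Z : Env d → ℝ) (y : Site d), Integrable Z (law d ρ) →
      Integrable (fun η => Z (sh (2 * h) y η)) (law d ρ) := fun Z y hZ =>
    (mp_sh (2 * h) y).integrable_comp_of_integrable hZ
  have hwi : Integrable (wt (d := d) ρ β h) (law d ρ) :=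
    (wait_mean (β := β) j0 hρ (t := h) (n := h) le_rfl).1
  have hw0 : ∀ η : Env d, 0 ≤ wt ρ β h η := fun η => le_max_right _ _
  refine ⟨fun η => A.indicator (fun η => Z1 (sh (2 * h) (D l) η)) η +
      (Aᶜ.indicator (wt ρ β h) η + Aᶜ.indicator (fun η => Z2 (sh (2 * h) 0 η)) η),
    fun η => A.indicator (fun η => F1 (sh (2 * h) (D l) η)) η +
      (Aᶜ.indicator (fun _ => 1) η + Aᶜ.indicator (fun η => F2 (sh (2 * h) 0 η)) η),
    ?_, ?_, ?_, ?_, ?_, ?_, ?_, ?_, ?_, ?_, ?_⟩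
  · exact ((z1m.comp (measurable_sh _ _)).indicator hA).add
      (((measurable_wt h).indicator hA.compl).add ((z2m.comp (measurable_sh _ _)).indicator hA.compl))
  · exact ((f1m.comp (measurable_sh _ _)).indicator hA).add
      ((measurable_const.indicator hA.compl).add ((f2m.comp (measurable_sh _ _)).indicator hA.compl))
  · intro η η' hη
    have h3 := hAd' η η' hη
    have h4 : Z1 (sh (2 * h) (D l) η) = Z1 (sh (2 * h) (D l) η') := hsh Z1 (D l) z1d hη
    have h5 : Z2 (sh (2 * h) 0 η) = Z2 (sh (2 * h) 0 η') := hsh Z2 0 z2d hη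
    have h6 : wt ρ β h η = wt ρ β h η' := dep_wt (ρ := ρ) (β := β) h fun p hp => hη p hp.1
    by_cases h7 : η ∈ A
    · have h8 := h3.1 h7
      simp only [Set.indicator_of_mem h7, Set.indicator_of_mem h8,
        Set.indicator_of_notMem (Set.notMem_compl_iff.2 h7),
        Set.indicator_of_notMem (Set.notMem_compl_iff.2 h8)]
      rw [h4]
    · have h8 : η' ∉ A := fun h9 => h7 (h3.2 h9)
      simp only [Set.indicator_of_notMem h7, Set.indicator_of_notMem h8,
        Set.indicator_of_mem (Set.mem_compl h7), Set.indicator_of_mem (Set.mem_compl h8)]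
      rw [h5, h6]
  · intro η η' hη
    have h3 := hAd' η η' hη
    have h4 : F1 (sh (2 * h) (D l) η) = F1 (sh (2 * h) (D l) η') := hsh F1 (D l) f1d hη
    have h5 : F2 (sh (2 * h) 0 η) = F2 (sh (2 * h) 0 η') := hsh F2 0 f2d hη
    by_cases h7 : η ∈ A
    · have h8 := h3.1 h7
      simp only [Set.indicator_of_mem h7, Set.indicator_of_mem h8,
        Set.indicator_of_notMem (Set.notMem_compl_iff.2 h7),
        Set.indicator_of_notMem (Set.notMem_compl_iff.2 h8)]
      rw [h4]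
    · have h8 : η' ∉ A := fun h9 => h7 (h3.2 h9)
      simp only [Set.indicator_of_notMem h7, Set.indicator_of_notMem h8,
        Set.indicator_of_mem (Set.mem_compl h7), Set.indicator_of_mem (Set.mem_compl h8)]
      rw [h5]
  · intro η
    exact add_nonneg (Set.indicator_nonneg (fun _ _ => z10 _) _)
      (add_nonneg (Set.indicator_nonneg (fun _ _ => hw0 _) _) (Set.indicator_nonneg (fun _ _ => z20 _) _))
  · intro η
    exact add_nonneg (Set.indicator_nonneg (fun _ _ => f10 _) _)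
      (add_nonneg (Set.indicator_nonneg (fun _ _ => zero_le_one) _)
        (Set.indicator_nonneg (fun _ _ => f20 _) _))
  · exact ((hi _ _ z1i).indicator hA).add ((hwi.indicator hA.compl).add ((hi _ _ z2i).indicator hA.compl))
  · exact ((hi _ _ f1i).indicator hA).add
      (((integrable_const _).indicator hA.compl).add ((hi _ _ f2i).indicator hA.compl))
  · refine (le_of_eq (ThD_int3 ((hi _ _ z1i).indicator hA) (hwi.indicator hA.compl)
      ((hi _ _ z2i).indicator hA.compl))).trans ?_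
    rw [ThD_step hA hAd1 z1m z1d, ThD_step hA.compl hAc1 z2m z2d]
    have h3 := wait_fail (ρ := ρ) (β := β) j0 hρ hh hA.compl hq hPc
    have h4 := mul_le_mul_of_nonneg_left z1e hP0
    have h5 := mul_le_mul_of_nonneg_left z2e hPc0
    have h6 : (law d ρ).real A * E1 + (law d ρ).real Aᶜ * E1 = E1 := by
      rw [← add_mul, hPA, one_mul]
    linarith
  · refine (le_of_eq (ThD_int3 ((hi _ _ f1i).indicator hA) ((integrable_const _).indicator hA.compl)
      ((hi _ _ f2i).indicator hA.compl))).trans ?_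
    rw [ThD_step hA hAd1 f1m f1d, ThD_step hA.compl hAc1 f2m f2d, integral_indicator_const _ hA.compl,
      smul_eq_mul, mul_one]
    have h4 := mul_le_mul_of_nonneg_left f1e hP0
    have h5 := mul_le_mul_of_nonneg_left f2e hPc0
    have h6 : (law d ρ).real A * E2 + (law d ρ).real Aᶜ * E2 = E2 := by
      rw [← add_mul, hPA, one_mul]
    linarith
  · intro η hη
    by_cases h7 : η ∈ A
    · simp only [Set.indicator_of_mem h7, Set.indicator_of_notMem (Set.notMem_compl_iff.2 h7), add_zero]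
        at hη ⊢
      have h8 := t1 (sh (2 * h) (D l) η) (by push_cast at hη ⊢; linarith)
      have h9 : Tle ρ β η h (D l) x := h7
      have h10 := Tle_add h9 h8
      have e1 : (n + 1) * h = h + n * h := by ring
      have e2 : ∑ i ∈ Finset.range (m + 1), D (l + i) = D l + ∑ i ∈ Finset.range m, D (l + 1 + i) := by
        rw [Finset.sum_range_succ', add_comm, Nat.add_zero]
        congr 1
        exact Finset.sum_congr rfl fun i _ => by rw [show l + (i + 1) = l + 1 + i by omega]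
      rw [e1, e2]
      refine Tle_mono h10 (le_of_eq ?_)
      push_cast
      ring
    · simp only [Set.indicator_of_notMem h7, Set.indicator_of_mem (Set.mem_compl h7), zero_add] at hη ⊢
      have h8 := t2 (sh (2 * h) 0 η) (by push_cast at hη ⊢; linarith)
      have h10 := Tle_add (wt_Tle (ρ := ρ) (β := β) j0 h η) h8
      rw [zero_add] at h10
      have e1 : (n + 1) * h = h + n * h := by ring
      rw [e1]
      refine Tle_mono h10 (le_of_eq ?_)
      ring

/-- All windows. -/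
theorem Wn_all (j0 : Fin d) (hρ : EM ρ) {h : ℕ} (hh : 1 ≤ h) {x : ℝ} {D : ℕ → Site d} {q : ℝ}
    (hq : 0 < q) (hD : ∀ i, (law d ρ).real {η : Env d | ¬ Tle ρ β η h (D i) x} ≤ q ^ 2) (K : ℕ) :
    ∀ (n : ℕ), n ≤ K → ∀ (m l : ℕ), Wn d ρ β h x D n m l (n * (q * SS d ρ β h) + SS d ρ β (K * h))
      (n * q ^ 2) := by
  have hS0 : 0 ≤ SS d ρ β h := SS_nonneg _
  have hK0 : 0 ≤ SS d ρ β (K * h) := SS_nonneg _
  intro n
  induction n with
  | zero =>
    intro _ m l
    rcases m with _ | m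
    · exact Wn_zero j0 hρ (Nat.zero_le K) (by simp) (by simp)
    · exact Wn_none (by simpa using hK0) (by simp)
  | succ n ih =>
    intro hn m l
    have hn' : n ≤ K := by omega
    rcases m with _ | m
    · refine Wn_zero j0 hρ hn ?_ (by positivity)
      have : 0 ≤ ((n + 1 : ℕ) : ℝ) * (q * SS d ρ β h) := by positivity
      linarith
    · have h3 := Wn_succ (ρ := ρ) (β := β) j0 hρ hh hq (hD l) (ih hn' m (l + 1)) (ih hn' (m + 1) l)
      have e1 : (n : ℝ) * (q * SS d ρ β h) + SS d ρ β (K * h) + q * SS d ρ β h =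
          ((n + 1 : ℕ) : ℝ) * (q * SS d ρ β h) + SS d ρ β (K * h) := by
        push_cast
        ring
      have e2 : (n : ℝ) * q ^ 2 + q ^ 2 = ((n + 1 : ℕ) : ℝ) * q ^ 2 := by
        push_cast
        ring
      rw [e1, e2] at h3
      exact h3

/-- `K` windows, `m` successes. -/
theorem th_windows (j0 : Fin d) (hρ : EM ρ) {h : ℕ} (hh : 1 ≤ h) {x : ℝ} {D : ℕ → Site d} {q : ℝ}
    (hq : 0 < q) (hD : ∀ i, (law d ρ).real {η : Env d | ¬ Tle ρ β η h (D i) x} ≤ q ^ 2) {K m : ℕ}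
    (hK : 1 ≤ K) (hm : (m : ℝ) + 8 * (K * q ^ 2) ≤ K) :
    (law d ρ).real {η : Env d | ¬ Tle ρ β η (K * h) (∑ i ∈ Finset.range m, D i)
      (m * x + 8 * (K * (q * SS d ρ β h) + SS d ρ β (K * h)))} ≤ 1 / 4 := by
  obtain ⟨Z, F, zm, fm, -, -, z0, f0, zi, fi, ze, fe, ht⟩ :=
    Wn_all (ρ := ρ) (β := β) j0 hρ hh hq hD K K le_rfl m 0
  have hKh : 1 ≤ K * h := Nat.mul_pos hK hh
  have hE : 0 < (K : ℝ) * (q * SS d ρ β h) + SS d ρ β (K * h) := by
    have h1 := one_le_SS (d := d) (ρ := ρ) (β := β) hKh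
    have h2 := SS_nonneg (d := d) (ρ := ρ) (β := β) h
    positivity
  have hK1 : (0 : ℝ) < K := by exact_mod_cast hK
  have hG : 0 < (K : ℝ) * q ^ 2 := by positivity
  have hmk : ∀ {G : Env d → ℝ} {E : ℝ}, (∀ η, 0 ≤ G η) → Integrable G (law d ρ) → 0 < E →
      ∫ η, G η ∂(law d ρ) ≤ E → (law d ρ).real {η | 8 * E ≤ G η} ≤ 1 / 8 := by
    intro G E hG0 hGi hE0 hGE
    have h1 := mul_meas_ge_le_integral_of_nonneg (Filter.Eventually.of_forall hG0) hGi (8 * E)
    have h2 : 8 * E * (law d ρ).real {η | 8 * E ≤ G η} ≤ E := h1.trans hGE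
    by_contra hc
    push Not at hc
    have h3 : 8 * E * (1 / 8) < 8 * E * (law d ρ).real {η | 8 * E ≤ G η} :=
      mul_lt_mul_of_pos_left hc (by positivity)
    linarith
  have hsub : {η : Env d | ¬ Tle ρ β η (K * h) (∑ i ∈ Finset.range m, D i)
      (m * x + 8 * (K * (q * SS d ρ β h) + SS d ρ β (K * h)))} ⊆
      {η | 8 * (K * (q * SS d ρ β h) + SS d ρ β (K * h)) ≤ Z η} ∪ {η | 8 * (K * q ^ 2) ≤ F η} := by
    intro η hη
    by_contra hc
    rw [Set.mem_union, not_or] at hc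
    obtain ⟨h1, h2⟩ := hc
    have h1' : Z η < 8 * (K * (q * SS d ρ β h) + SS d ρ β (K * h)) := not_le.1 h1
    have h2' : F η < 8 * (K * q ^ 2) := not_le.1 h2
    refine hη ?_
    have h3 := ht η (by linarith)
    simp only [Nat.zero_add] at h3
    exact Tle_mono h3 (by linarith)
  refine (measureReal_mono hsub).trans ((measureReal_union_le _ _).trans ?_)
  have h3 := hmk z0 zi hE ze
  have h4 := hmk f0 fi hG fe
  linarith

end Pool.Agent.W_7d29a1_q
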