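import Pool.Agent.W_7d29a1_q.TlA

/-!
Row 601, section 6 (tails): the exponential of the luck of a cell.
-/

namespace Pool.Agent.W_7d29a1_q

open MeasureTheory ProbabilityTheory Filter Topology Pool.Agent.W_MP_7d29a1_pr
  Pool.Agent.W_7d29a1_h46 Pool.Agent.W_7d29a1_h46u Pool.Agent.W_7d29a1_h3

variable {d : ℕ} {ρ : Measure ℝ} {β : ℝ}

theorem ln_add_mod (x y : Site d) : (ln (x + y) + (ln x + ln y)) % 2 = 0 :=
  (adm_add (m := ln x) (n := ln y) ⟨le_rfl, by omega⟩ ⟨le_rfl, by omega⟩).2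

theorem ln_sub_mod (x y : Site d) : (ln (x - y) + (ln x + ln y)) % 2 = 0 := by
  have h := ln_add_mod (x - y) y
  rw [sub_add_cancel] at h
  omega

/-- Indices: starting half time, final half time, starting point (relative), displacement. -/
noncomputable def JJ (d : ℕ) (r : ℝ) (h s0 : ℕ) : Finset (ℕ × ℕ × Site d × Site d) :=
  ((Finset.range (h + 1)) ×ˢ (Finset.range (h + 1)) ×ˢ boxF d ⌊r⌋₊ ×ˢ boxF d (2 * h)).filter
    fun i => s0 ≤ i.1 ∧ i.1 ≤ i.2.1 ∧ ln i.2.2.1 % 2 = 0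

theorem mem_JJ {r : ℝ} {h s0 s t : ℕ} {x z : Site d} :
    (s, t, x, z) ∈ JJ d r h s0 ↔
      (s ≤ h ∧ t ≤ h ∧ sn x ≤ ⌊r⌋₊ ∧ sn z ≤ 2 * h) ∧ s0 ≤ s ∧ s ≤ t ∧ ln x % 2 = 0 := by
  unfold JJ
  rw [Finset.mem_filter, Finset.mem_product, Finset.mem_product, Finset.mem_product,
    Finset.mem_range, Finset.mem_range, mem_boxF_iff, mem_boxF_iff, Nat.lt_succ_iff, Nat.lt_succ_iff]

/-- One term. -/
noncomputable def gt1 (ρ : Measure ℝ) (β θ γ : ℝ) (c : Site d) (η : Env d)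
    (i : ℕ × ℕ × Site d × Site d) : ℝ :=
  (Real.exp (θ * sn i.2.2.2) *
    Vp ρ β (sh (2 * i.1) (c + i.2.2.1) η) (2 * (i.2.1 - i.1)) i.2.2.2) ^ γ

theorem JJ_ne (r : ℝ) (h s0 : ℕ) : (Finset.insertNone (JJ d r h s0)).Nonempty :=
  ⟨none, Finset.none_mem_insertNone⟩

/-- `exp (γ Luck(c, s0))`: the maximum over the pieces in `[2 s0, 2 h]` which start in the cell. -/
noncomputable def Gf (ρ : Measure ℝ) (β θ γ r : ℝ) (h s0 : ℕ) (c : Site d) (η : Env d) : ℝ :=
  (Finset.insertNone (JJ d r h s0)).sup' (JJ_ne r h s0) fun o => o.elim 1 (gt1 ρ β θ γ c η)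

variable {θ γ r : ℝ} {h s0 : ℕ}

theorem gt1_nonneg (c : Site d) (η : Env d) (i : ℕ × ℕ × Site d × Site d) :
    0 ≤ gt1 ρ β θ γ c η i :=
  Real.rpow_nonneg (mul_nonneg (Real.exp_pos _).le (V_nonneg _ _)) _

theorem one_le_Gf (c : Site d) (η : Env d) : 1 ≤ Gf ρ β θ γ r h s0 c η :=
  Finset.le_sup' (fun o : Option (ℕ × ℕ × Site d × Site d) => o.elim 1 (gt1 ρ β θ γ c η))
    Finset.none_mem_insertNone

theorem gt1_le_Gf (c : Site d) (η : Env d) {i : ℕ × ℕ × Site d × Site d} (hi : i ∈ JJ d r h s0) :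
    gt1 ρ β θ γ c η i ≤ Gf ρ β θ γ r h s0 c η :=
  Finset.le_sup' (fun o : Option (ℕ × ℕ × Site d × Site d) => o.elim 1 (gt1 ρ β θ γ c η))
    (Finset.some_mem_insertNone.2 hi)

theorem Gf_le {c : Site d} {η : Env d} {B : ℝ} (hB : 1 ≤ B)
    (h1 : ∀ i ∈ JJ d r h s0, gt1 ρ β θ γ c η i ≤ B) : Gf ρ β θ γ r h s0 c η ≤ B := by
  refine Finset.sup'_le _ _ fun o ho => ?_
  rcases o with _ | i
  · exact hB
  · exact h1 i (Finset.some_mem_insertNone.1 ho)

theorem le_Gf (j0 : Fin d) (hγ : 0 < γ) {c : Site d} (η : Env d) {s t : ℕ}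
    (h0 : s0 ≤ s) (h1 : s ≤ t) (h2 : t ≤ h) {x : Site d} (hx : (sn (x - c) : ℝ) ≤ r)
    (he : ln (x - c) % 2 = 0) (z : Site d) :
    (Real.exp (θ * sn z) * Vp ρ β (sh (2 * s) x η) (2 * (t - s)) z) ^ γ ≤
      Gf ρ β θ γ r h s0 c η := by
  by_cases hz : sn z ≤ 2 * h
  · have h3 : (s, t, x - c, z) ∈ JJ d r h s0 := by
      rw [mem_JJ]
      exact ⟨⟨h1.trans h2, h2, Nat.le_floor hx, hz⟩, h0, h1, he⟩
    have h4 := gt1_le_Gf (ρ := ρ) (β := β) (θ := θ) (γ := γ) c η h3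
    unfold gt1 at h4
    simpa only [add_sub_cancel] using h4
  · have h3 : Vp ρ β (sh (2 * s) x η) (2 * (t - s)) z = 0 := by
      refine Vp_zero j0 _ fun h4 => hz ?_
      have h5 := sn_le_ln z
      have h6 := h4.1
      omega
    rw [h3, mul_zero, Real.zero_rpow hγ.ne']
    exact zero_le_one.trans (one_le_Gf c η)

theorem Gf_anti (c : Site d) (η : Env d) {s1 : ℕ} (hs : s0 ≤ s1) :
    Gf ρ β θ γ r h s1 c η ≤ Gf ρ β θ γ r h s0 c η := by
  refine Gf_le (one_le_Gf c η) fun i hi => gt1_le_Gf c η ?_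
  rw [show i = (i.1, i.2.1, i.2.2.1, i.2.2.2) from rfl, mem_JJ] at hi ⊢
  exact ⟨hi.1, hs.trans hi.2.1, hi.2.2⟩

theorem Gf_sh (c : Site d) (η : Env d) :
    Gf ρ β θ γ r h s0 c η = Gf ρ β θ γ r h s0 0 (sh 0 c η) := by
  have h1 : gt1 ρ β θ γ c η = gt1 ρ β θ γ 0 (sh 0 c η) := by
    funext i
    unfold gt1
    rw [sh_sh, add_zero, zero_add, add_comm c]
  unfold Gf
  rw [h1]

theorem measurable_gt1 (c : Site d) (i : ℕ × ℕ × Site d × Site d) :
    Measurable fun η : Env d => gt1 ρ β θ γ c η i := by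
  unfold gt1 Vp
  exact (((measurable_V _).comp (measurable_sh _ _)).const_mul _).pow_const _

theorem measurable_Gf (c : Site d) : Measurable fun η : Env d => Gf ρ β θ γ r h s0 c η := by
  unfold Gf
  have h1 := Finset.measurable_sup' (JJ_ne (d := d) r h s0)
    (f := fun (o : Option (ℕ × ℕ × Site d × Site d)) (η : Env d) =>
      o.elim 1 (gt1 ρ β θ γ c η)) (fun o _ => by
      rcases o with _ | i
      · exact measurable_const
      · exact measurable_gt1 c i)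
  convert h1 using 1
  funext η
  rw [Finset.sup'_apply]

theorem dep_Gf (c : Site d) :
    DependsOn (Gf (d := d) ρ β θ γ r h s0 c) {p : ℕ × Site d | 2 * s0 < p.1 ∧ p.1 ≤ 2 * h} := by
  intro η η' hη
  unfold Gf
  refine Finset.sup'_congr _ rfl fun o ho => ?_
  rcases o with _ | i
  · rfl
  · have hi := Finset.some_mem_insertNone.1 ho
    rw [show i = (i.1, i.2.1, i.2.2.1, i.2.2.2) from rfl, mem_JJ] at hi
    show gt1 ρ β θ γ c η i = gt1 ρ β θ γ c η' i
    unfold gt1 Vp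
    have h1 : V ρ β (sh (2 * i.1) (c + i.2.2.1) η) (toP (2 * (i.2.1 - i.1)) i.2.2.2) =
        V ρ β (sh (2 * i.1) (c + i.2.2.1) η') (toP (2 * (i.2.1 - i.1)) i.2.2.2) :=
      dep_V_sh (ρ := ρ) (β := β) (2 * i.1) (c + i.2.2.1) (toP (2 * (i.2.1 - i.1)) i.2.2.2)
        fun p hp => hη p (by
          have h2 := hp.1
          have h3 := hp.2
          show 2 * s0 < p.1 ∧ p.1 ≤ 2 * h
          omega)
    rw [h1]

variable [IsProbabilityMeasure ρ]

theorem integral_Gf_c (c : Site d) :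
    ∫ η : Env d, Gf ρ β θ γ r h s0 c η ∂(law d ρ) = ∫ η : Env d, Gf ρ β θ γ r h s0 0 η ∂(law d ρ) := by
  have h1 : (fun η : Env d => Gf ρ β θ γ r h s0 c η) =
      fun η => Gf ρ β θ γ r h s0 0 (sh 0 c η) := funext fun η => Gf_sh c η
  rw [h1]
  exact integral_sh 0 c (measurable_Gf 0)

/-- The weights are integrable. -/
theorem integrable_Vp (j0 : Fin d) (hρ : EM ρ) (t : ℕ) (x : Site d) (n : ℕ) (z : Site d) :
    Integrable (fun η : Env d => Vp ρ β (sh t x η) n z) (law d ρ) := by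
  have h0 : Integrable (fun η : Env d => Vp ρ β η n z) (law d ρ) := by
    by_cases hz : adm n z
    · have hne := (adm_iff j0).1 hz
      have h1 := ((concE hρ β hne).2 (-1) (by simp)).1
      have h2 : (fun η : Env d => Vp ρ β η n z) = fun η =>
          Real.exp (-gE ρ β (toP n z)) *
            Real.exp (-1 * (-Real.log (V ρ β η (toP n z)) - gE ρ β (toP n z))) := by
        funext η
        rw [← Real.exp_add]
        have h3 := Vp_pos (ρ := ρ) (β := β) j0 η hz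
        have h4 : -gE ρ β (toP n z) + -1 * (-Real.log (V ρ β η (toP n z)) - gE ρ β (toP n z)) =
            Real.log (Vp ρ β η n z) := by
          unfold Vp
          ring
        rw [h4, Real.exp_log h3]
      rw [h2]
      exact h1.const_mul _
    · have h1 : (fun η : Env d => Vp ρ β η n z) = fun _ => 0 :=
        funext fun η => Vp_zero j0 η hz
      rw [h1]
      exact integrable_zero _ _ _
  exact (mp_sh t x).integrable_comp_of_integrable h0

theorem integrable_Gf (j0 : Fin d) (hρ : EM ρ) (hγ : 0 < γ) (hγ1 : γ ≤ 1) (c : Site d) :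
    Integrable (fun η : Env d => Gf ρ β θ γ r h s0 c η) (law d ρ) := by
  have h1 : Integrable (fun η : Env d => 1 + ∑ i ∈ JJ d r h s0,
      (1 + Real.exp (θ * sn i.2.2.2) *
        Vp ρ β (sh (2 * i.1) (c + i.2.2.1) η) (2 * (i.2.1 - i.1)) i.2.2.2)) (law d ρ) := by
    refine (integrable_const _).add (integrable_finsetSum _ fun i _ => (integrable_const _).add ?_)
    exact (integrable_Vp j0 hρ _ _ _ _).const_mul _
  refine h1.mono (measurable_Gf c).aestronglyMeasurable (Filter.Eventually.of_forall fun η => ?_)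
  have h2 : ∀ i : ℕ × ℕ × Site d × Site d, 0 ≤ 1 + Real.exp (θ * sn i.2.2.2) *
        Vp ρ β (sh (2 * i.1) (c + i.2.2.1) η) (2 * (i.2.1 - i.1)) i.2.2.2 := fun i =>
    add_nonneg zero_le_one (mul_nonneg (Real.exp_pos _).le (V_nonneg _ _))
  have h3 : 0 ≤ ∑ i ∈ JJ d r h s0, (1 + Real.exp (θ * sn i.2.2.2) *
        Vp ρ β (sh (2 * i.1) (c + i.2.2.1) η) (2 * (i.2.1 - i.1)) i.2.2.2) :=
    Finset.sum_nonneg fun i _ => h2 i
  rw [Real.norm_of_nonneg (zero_le_one.trans (one_le_Gf c η)), Real.norm_of_nonneg (by linarith)]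
  refine Gf_le (by linarith) fun i hi => ?_
  have h4 : gt1 ρ β θ γ c η i ≤ 1 + Real.exp (θ * sn i.2.2.2) *
        Vp ρ β (sh (2 * i.1) (c + i.2.2.1) η) (2 * (i.2.1 - i.1)) i.2.2.2 := by
    unfold gt1
    set a : ℝ := Real.exp (θ * sn i.2.2.2) *
        Vp ρ β (sh (2 * i.1) (c + i.2.2.1) η) (2 * (i.2.1 - i.1)) i.2.2.2 with ha
    have ha0 : 0 ≤ a := mul_nonneg (Real.exp_pos _).le (V_nonneg _ _)
    rcases le_total a 1 with h5 | h5
    · have := Real.rpow_le_one ha0 h5 hγ.le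
      linarith
    · have h6 : a ^ γ ≤ a ^ (1 : ℝ) := Real.rpow_le_rpow_of_exponent_le h5 hγ1
      rw [Real.rpow_one] at h6
      linarith
  have h5 := Finset.single_le_sum (f := fun i : ℕ × ℕ × Site d × Site d =>
    1 + Real.exp (θ * sn i.2.2.2) *
      Vp ρ β (sh (2 * i.1) (c + i.2.2.1) η) (2 * (i.2.1 - i.1)) i.2.2.2) (fun i _ => h2 i) hi
  linarith

end Pool.Agent.W_7d29a1_q
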