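import Pool.Agent.W_7d29a1_q.TlA

/-!
Row 601, section 6 (tails): moments of the bound for two rows. TASK TlC.
-/

namespace Pool.Agent.W_7d29a1_q

open MeasureTheory ProbabilityTheory Filter Topology Pool.Agent.W_MP_7d29a1_pr
  Pool.Agent.W_7d29a1_h46 Pool.Agent.W_7d29a1_h46u Pool.Agent.W_7d29a1_h3

variable {ρ : Measure ℝ} [IsProbabilityMeasure ρ]

omit [IsProbabilityMeasure ρ] in
private theorem TlC_site (hρ : EM ρ) (β : ℝ) :
    Integrable (fun t : ℝ => Real.exp (2 * |β| * |t|)) ρ := by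
  refine Integrable.mono' ((hρ (2 * |β|)).add (hρ (-(2 * |β|))))
    (by fun_prop : Measurable fun t : ℝ => Real.exp (2 * |β| * |t|)).aestronglyMeasurable
    (Eventually.of_forall fun t => ?_)
  rw [Real.norm_eq_abs, abs_of_pos (Real.exp_pos _)]
  simp only [Pi.add_apply]
  rcases abs_cases t with ⟨h, -⟩ | ⟨h, -⟩
  · rw [h]
    exact le_add_of_nonneg_right (Real.exp_pos _).le
  · rw [h, show 2 * |β| * -t = -(2 * |β|) * t by ring]
    exact le_add_of_nonneg_left (Real.exp_pos _).le

private theorem TlC_eval (hρ : EM ρ) (d : ℕ) (β : ℝ) (p : ℕ × Site d) :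
    Integrable (fun η : Env d => Real.exp (2 * |β| * |η p|)) (law d ρ) ∧
    ∫ η : Env d, Real.exp (2 * |β| * |η p|) ∂(law d ρ) = ∫ t, Real.exp (2 * |β| * |t|) ∂ρ := by
  have hmp : MeasurePreserving (Function.eval p) (law d ρ) ρ :=
    measurePreserving_eval_infinitePi (fun _ : ℕ × Site d => ρ) p
  have hm : Measurable fun t : ℝ => Real.exp (2 * |β| * |t|) := by fun_prop
  constructor
  · exact hmp.integrable_comp_of_integrable (TlC_site hρ β)
  · have h1 := integral_map (μ := law d ρ) hmp.measurable.aemeasurable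
      (f := fun t : ℝ => Real.exp (2 * |β| * |t|)) hm.aestronglyMeasurable
    rw [hmp.map_eq] at h1
    exact h1.symm

private theorem TlC_one_le (hρ : EM ρ) (β : ℝ) : 1 ≤ ∫ t, Real.exp (2 * |β| * |t|) ∂ρ := by
  have h1 := integral_mono (μ := ρ) (integrable_const (1 : ℝ)) (TlC_site hρ β)
    (fun t => Real.one_le_exp (by positivity))
  simpa using h1

private theorem TlC_mean (hρ : EM ρ) (d : ℕ) (β : ℝ) (M t : ℕ) :
    Integrable (fun η : Env d => UU d β M t η) (law d ρ) ∧
    ∫ η : Env d, UU d β M t η ∂(law d ρ) =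
      (∫ t, Real.exp (2 * |β| * |t|) ∂ρ) * ((2 * (t : ℝ) + 1) * (2 * (M : ℝ) + 1) ^ d) := by
  unfold UU
  constructor
  · exact integrable_finsetSum _ fun i _ => integrable_finsetSum _ fun y _ =>
      (TlC_eval hρ d β (i, y)).1
  · rw [integral_finsetSum _ fun i _ => integrable_finsetSum _ fun y _ => (TlC_eval hρ d β (i, y)).1]
    have h1 : ∀ i ∈ Finset.range (2 * t + 1),
        ∫ η : Env d, (∑ y ∈ boxF d M, Real.exp (2 * |β| * |η (i, y)|)) ∂(law d ρ) =
          (2 * (M : ℝ) + 1) ^ d * ∫ t, Real.exp (2 * |β| * |t|) ∂ρ := by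
      intro i _
      rw [integral_finsetSum _ fun y _ => (TlC_eval hρ d β (i, y)).1]
      rw [Finset.sum_congr rfl fun y _ => (TlC_eval hρ d β (i, y)).2, Finset.sum_const, card_boxF,
        nsmul_eq_mul]
      push_cast
      ring
    rw [Finset.sum_congr rfl h1, Finset.sum_const, Finset.card_range, nsmul_eq_mul]
    push_cast
    ring

/-- Jensen (tangent line: `x ^ p ≤ 1 + p (x - 1)` with `x = UU / mean`), and
`E exp (2 |β| |η(i,y)|) ≤ ∫ exp (2 |β| t) + ∫ exp (- 2 |β| t)` for every site. -/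
theorem UU_moment (hρ : EM ρ) (d : ℕ) (β : ℝ) : ∃ Cu : ℝ, 1 ≤ Cu ∧ ∀ (M t : ℕ) (p : ℝ), 0 < p → p ≤ 1 →
    Integrable (fun η : Env d => UU d β M t η ^ p) (law d ρ) ∧
    ∫ η : Env d, UU d β M t η ^ p ∂(law d ρ) ≤
      (Cu * ((2 * (t : ℝ) + 1) * (2 * (M : ℝ) + 1) ^ d)) ^ p := by
  refine ⟨_, TlC_one_le hρ β, fun M t p hp hp1 => ?_⟩
  obtain ⟨hi, hm⟩ := TlC_mean hρ d β M t
  set m : ℝ := (∫ t, Real.exp (2 * |β| * |t|) ∂ρ) * ((2 * (t : ℝ) + 1) * (2 * (M : ℝ) + 1) ^ d) with hmdef
  have hm1 : 1 ≤ m := by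
    rw [← hm]
    have h1 := integral_mono (μ := law d ρ) (integrable_const (1 : ℝ)) hi
      (fun η => one_le_UU (d := d) (β := β) M t η)
    simpa using h1
  have hm0 : 0 < m := by linarith
  have hpi : Integrable (fun η : Env d => UU d β M t η ^ p) (law d ρ) := by
    refine Integrable.mono' hi ((measurable_UU M t).pow_const p).aestronglyMeasurable
      (Eventually.of_forall fun η => ?_)
    rw [Real.norm_eq_abs, abs_of_nonneg (Real.rpow_nonneg (UU_nonneg M t η) _)]
    have h1 := Real.rpow_le_rpow_of_exponent_le (one_le_UU (d := d) (β := β) M t η) hp1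
    rwa [Real.rpow_one] at h1
  refine ⟨hpi, ?_⟩
  have h2 : ∀ η : Env d, UU d β M t η ^ p ≤ m ^ p * (1 - p + p / m * UU d β M t η) := by
    intro η
    have h3 : UU d β M t η = m * (UU d β M t η / m) := by field_simp
    have h4 : (UU d β M t η / m) ^ p ≤ 1 + p * (UU d β M t η / m - 1) := by
      have h5 := rpow_one_add_le_one_add_mul_self
        (s := UU d β M t η / m - 1) (by
          have := div_nonneg (UU_nonneg (d := d) (β := β) M t η) hm0.le
          linarith) hp.le hp1
      rwa [show 1 + (UU d β M t η / m - 1) = UU d β M t η / m by ring] at h5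
    calc UU d β M t η ^ p = m ^ p * (UU d β M t η / m) ^ p := by
          rw [← Real.mul_rpow hm0.le (div_nonneg (UU_nonneg M t η) hm0.le), ← h3]
      _ ≤ m ^ p * (1 + p * (UU d β M t η / m - 1)) :=
          mul_le_mul_of_nonneg_left h4 (Real.rpow_nonneg hm0.le _)
      _ = m ^ p * (1 - p + p / m * UU d β M t η) := by ring
  calc ∫ η : Env d, UU d β M t η ^ p ∂(law d ρ)
      ≤ ∫ η : Env d, m ^ p * (1 - p + p / m * UU d β M t η) ∂(law d ρ) := by
        refine integral_mono hpi ?_ h2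
        exact ((integrable_const _).add (hi.const_mul _)).const_mul _
    _ = m ^ p * (1 - p + p / m * m) := by
        rw [integral_const_mul, integral_add (integrable_const _) (hi.const_mul _), integral_const_mul, hm]
        simp
    _ = m ^ p := by
        field_simp
        ring

/-- `UU ^ γ ≤ κ + UU ^ (2 γ) / κ` pointwise. -/
theorem UU_ind {d : ℕ} {β : ℝ} {M t : ℕ} {γ q κ : ℝ} (hγ : 0 < γ) (hγ1 : 2 * γ ≤ 1)
    (hI : Integrable (fun η : Env d => UU d β M t η ^ (2 * γ)) (law d ρ))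
    (hq : ∫ η : Env d, UU d β M t η ^ (2 * γ) ∂(law d ρ) ≤ q)
    {A : Set (Env d)} (hA : MeasurableSet A) (hκ : 0 < κ) :
    Integrable (fun η : Env d => UU d β M t η ^ γ) (law d ρ) ∧
    ∫ η in A, UU d β M t η ^ γ ∂(law d ρ) ≤ κ * (law d ρ).real A + q / κ := by
  have hI1 : Integrable (fun η : Env d => UU d β M t η ^ γ) (law d ρ) := by
    refine Integrable.mono' hI ((measurable_UU M t).pow_const γ).aestronglyMeasurable
      (Eventually.of_forall fun η => ?_)
    rw [Real.norm_eq_abs, abs_of_nonneg (Real.rpow_nonneg (UU_nonneg M t η) _)]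
    exact Real.rpow_le_rpow_of_exponent_le (one_le_UU (d := d) (β := β) M t η) (by linarith)
  refine ⟨hI1, ?_⟩
  have h2 : ∀ η : Env d, UU d β M t η ^ γ ≤ κ + κ⁻¹ * UU d β M t η ^ (2 * γ) := by
    intro η
    have h3 : UU d β M t η ^ (2 * γ) = UU d β M t η ^ γ * UU d β M t η ^ γ := by
      rw [← Real.rpow_add (by linarith [one_le_UU (d := d) (β := β) M t η])]
      congr 1
      ring
    rw [h3]
    set x := UU d β M t η ^ γ with hx
    have hx0 : 0 ≤ x := Real.rpow_nonneg (UU_nonneg M t η) _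
    rcases le_total x κ with h | h
    · have : 0 ≤ κ⁻¹ * (x * x) := by positivity
      linarith
    · have h4 : x ≤ κ⁻¹ * (x * x) := by
        rw [inv_mul_eq_div, le_div_iff₀ hκ]
        exact mul_le_mul_of_nonneg_left h hx0
      linarith
  calc ∫ η in A, UU d β M t η ^ γ ∂(law d ρ)
      ≤ ∫ η in A, (κ + κ⁻¹ * UU d β M t η ^ (2 * γ)) ∂(law d ρ) := by
        refine setIntegral_mono hI1.integrableOn ?_ h2
        exact ((integrable_const _).add (hI.const_mul _)).integrableOn
    _ = κ * (law d ρ).real A + κ⁻¹ * ∫ η in A, UU d β M t η ^ (2 * γ) ∂(law d ρ) := by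
        rw [integral_add (integrable_const _) (hI.const_mul _).integrableOn, integral_const_mul]
        simp [mul_comm]
    _ ≤ κ * (law d ρ).real A + q / κ := by
        have h3 : ∫ η in A, UU d β M t η ^ (2 * γ) ∂(law d ρ) ≤ q := by
          refine (setIntegral_le_integral hI (Eventually.of_forall fun η => ?_)).trans hq
          exact Real.rpow_nonneg (UU_nonneg M t η) _
        have h4 : κ⁻¹ * ∫ η in A, UU d β M t η ^ (2 * γ) ∂(law d ρ) ≤ κ⁻¹ * q :=
          mul_le_mul_of_nonneg_left h3 (by positivity)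
        have h5 : κ⁻¹ * q = q / κ := by
          rw [inv_mul_eq_div]
        linarith

end Pool.Agent.W_7d29a1_q
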