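import Pool.Agent.W_7d29a1_q.TlDA

/-!
Row 601, section 6 (tails): the pathwise recursion.
-/

namespace Pool.Agent.W_7d29a1_q

open MeasureTheory ProbabilityTheory Filter Topology Pool.Agent.W_MP_7d29a1_pr
  Pool.Agent.W_7d29a1_h46 Pool.Agent.W_7d29a1_h46u Pool.Agent.W_7d29a1_h3

variable {d : ℕ} {ρ : Measure ℝ} {β θ1 ℓ R1 r : ℝ}

/-- First exit of a piece before it is completed. -/
theorem TlD_exit (j0 : Fin d) {θ : ℝ} {h R : ℕ} (hθ : 0 ≤ θ) (hθ1 : θ ≤ θ1) (hℓ : 0 ≤ ℓ)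
    (hR : 1 ≤ R) (hR1 : (R : ℝ) + 1 ≤ R1) (η : Env d) {n u : ℕ} (hn : n ≤ h) (hu : u ≤ n)
    (z : Site d) (hpre : ∀ v : ℕ, 1 ≤ v → v ≤ u → ∀ q : Site d, Even (ln q) → (sn q : ℝ) ≤ R1 →
      ¬ Tle ρ β η v q (θ1 * sn q - ℓ)) :
    ∃ (v : ℕ) (q : Site d), v ≤ u ∧ sn q ≤ R + 1 ∧ Even (ln q) ∧
      ((vl ρ β θ η n z ≤ ((h : ℝ) + 1) * (4 * (h : ℝ) + 1) ^ d *
          (Real.exp (-((θ1 - θ) * R - ℓ)) * vl ρ β θ (sh (2 * v) q η) (n - v) (z - q))) ∨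
        (v = u ∧ vl ρ β θ η n z ≤ ((h : ℝ) + 1) * (4 * (h : ℝ) + 1) ^ d *
          (Real.exp ℓ * vl ρ β θ (sh (2 * v) q η) (n - v) (z - q)))) := by
  obtain ⟨v, q, h1, h2, h3, h4, h5⟩ := exit_even (ρ := ρ) (β := β) j0 η hu hR z
  have h6 := vl_mul (θ := θ) hθ h5
  have hq : (sn q : ℝ) ≤ R1 := by
    have : (sn q : ℝ) ≤ (R : ℝ) + 1 := by exact_mod_cast h2
    linarith
  have h7 : vl ρ β θ η v q ≤ Real.exp (-((θ1 - θ) * sn q - ℓ)) :=
    vl_prefix j0 hℓ fun hv => hpre v hv h1 q h4 hq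
  have h8 : 0 ≤ vl ρ β θ (sh (2 * v) q η) (n - v) (z - q) := vl_nonneg _ _ _
  have hK : ((u : ℝ) + 1) * (4 * (n : ℝ) + 1) ^ d ≤ ((h : ℝ) + 1) * (4 * (h : ℝ) + 1) ^ d := by
    have e1 : (n : ℝ) ≤ h := by exact_mod_cast hn
    have e2 : (u : ℝ) ≤ h := by exact_mod_cast hu.trans hn
    have e3 : (0 : ℝ) ≤ n := Nat.cast_nonneg n
    have e4 : (0 : ℝ) ≤ u := Nat.cast_nonneg u
    gcongr
  have hK0 : 0 ≤ ((u : ℝ) + 1) * (4 * (n : ℝ) + 1) ^ d := by positivity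
  have hmain : ∀ E : ℝ, Real.exp (-((θ1 - θ) * sn q - ℓ)) ≤ E →
      vl ρ β θ η n z ≤ ((h : ℝ) + 1) * (4 * (h : ℝ) + 1) ^ d *
        (E * vl ρ β θ (sh (2 * v) q η) (n - v) (z - q)) := by
    intro E hE
    have hE0 : 0 ≤ E := (Real.exp_pos _).le.trans hE
    refine h6.trans (mul_le_mul hK ?_ (mul_nonneg (vl_nonneg _ _ _) h8) (hK0.trans hK))
    exact mul_le_mul_of_nonneg_right (h7.trans hE) h8
  refine ⟨v, q, h1, h2, h4, ?_⟩
  rcases h3 with h3 | h3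
  · refine Or.inl (hmain _ ?_)
    rw [Real.exp_le_exp]
    have e1 : (R : ℝ) ≤ sn q := by exact_mod_cast h3
    have e2 := mul_le_mul_of_nonneg_left e1 (sub_nonneg.2 hθ1)
    linarith
  · refine Or.inr ⟨h3, hmain _ ?_⟩
    rw [Real.exp_le_exp]
    have e2 := mul_nonneg (sub_nonneg.2 hθ1) (Nat.cast_nonneg (sn q) : (0 : ℝ) ≤ sn q)
    linarith

/-- The three cases. -/
theorem TlD_cases (j0 : Fin d) {θ : ℝ} {h R M : ℕ} (hθ : 0 ≤ θ) (hθ1 : θ ≤ θ1) (hℓ : 0 ≤ ℓ)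
    (hR : 1 ≤ R) (hR1 : (R : ℝ) + 1 ≤ R1) (hM : r + R + 3 ≤ M) (η : Env d) {s t : ℕ}
    (hst : s ≤ t) (hth : t ≤ h) {x : Site d} (hx : (sn x : ℝ) ≤ r) (hxe : Even (ln x)) (z : Site d) :
    (vl ρ β θ (sh (2 * s) x η) (t - s) z ≤ KT d ρ β h θ * Real.exp ℓ) ∨
    (∃ (s' : ℕ) (p w : Site d), s' ≤ t ∧ (sn p : ℝ) ≤ r + R + 3 ∧ Even (ln p) ∧
      vl ρ β θ (sh (2 * s) x η) (t - s) z ≤ KT d ρ β h θ *
        (Real.exp (-((θ1 - θ) * R - ℓ)) * vl ρ β θ (sh (2 * s') p η) (t - s') w)) ∨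
    (∃ τ : ℕ, 1 ≤ τ ∧ τ ≤ h ∧ η ∈ Fs d ρ β θ1 ℓ R1 r τ ∧ ∃ (s' : ℕ) (p w : Site d), τ ≤ s' ∧
      s' ≤ t ∧ (sn p : ℝ) ≤ r + R + 3 ∧ Even (ln p) ∧
      vl ρ β θ (sh (2 * s) x η) (t - s) z ≤ KT d ρ β h θ *
        (Real.exp ℓ * UU d β M τ η * vl ρ β θ (sh (2 * s') p η) (t - s') w)) := by
  classical
  have hK1 := one_le_KT_aux (d := d) (ρ := ρ) (β := β) h hθ
  have hK0 : 0 ≤ ((h : ℝ) + 1) * (4 * (h : ℝ) + 1) ^ d := by positivity
  have hsum : ∀ q : Site d, Even (ln q) → Even (ln (x + q)) := by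
    intro q hq
    have h1 := ln_add_mod x q
    rw [Nat.even_iff] at hxe hq ⊢
    omega
  have hbig : ∀ q : Site d, sn q ≤ R + 1 → (sn (x + q) : ℝ) + 2 ≤ r + R + 3 := by
    intro q hq
    have h1 : (sn (x + q) : ℝ) ≤ sn x + sn q := by exact_mod_cast sn_add x q
    have h2 : (sn q : ℝ) ≤ (R : ℝ) + 1 := by exact_mod_cast hq
    linarith
  have hshift : ∀ (v : ℕ) (q : Site d), sh (2 * v) q (sh (2 * s) x η) = sh (2 * (s + v)) (x + q) η := by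
    intro v q
    rw [sh_sh]
    congr 1
    · omega
    · exact add_comm q x
  by_cases hex : ∃ t', s < t' ∧ t' ≤ t ∧ ∃ q : Site d, Even (ln q) ∧ (sn q : ℝ) ≤ R1 ∧
      Tle ρ β (sh (2 * s) x η) (t' - s) q (θ1 * sn q - ℓ)
  · obtain ⟨h1, h2, q0, h3, h4, h5⟩ := Nat.find_spec hex
    set t' := Nat.find hex with ht'
    have hmin : ∀ v : ℕ, 1 ≤ v → v ≤ t' - 1 - s → ∀ q : Site d, Even (ln q) → (sn q : ℝ) ≤ R1 →
        ¬ Tle ρ β (sh (2 * s) x η) v q (θ1 * sn q - ℓ) := by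
      intro v hv1 hv2 q hq1 hq2 hq3
      refine Nat.find_min hex (m := s + v) (by omega) ⟨by omega, by omega, q, hq1, hq2, ?_⟩
      rwa [Nat.add_sub_cancel_left]
    have hCp : η ∈ Cp d ρ β θ1 ℓ R1 r t' := by
      refine ⟨s, h1, x, x + q0, hx, hxe, hsum q0 h3, ?_, ?_⟩
      · rwa [add_sub_cancel_left]
      · rwa [add_sub_cancel_left]
    obtain ⟨τ, hτ1, hτ2, hτ3⟩ := exists_Fs hCp
    obtain ⟨v, q, g1, g2, g3, g4⟩ := TlD_exit (ρ := ρ) (β := β) (θ := θ) (h := h) j0 hθ hθ1 hℓ hR hR1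
      (sh (2 * s) x η) (n := t - s) (u := t' - 1 - s) (by omega) (by omega) z hmin
    rw [hshift] at g4
    have hts : t - s - v = t - (s + v) := by omega
    rw [hts] at g4
    rcases g4 with g4 | ⟨g4, g5⟩
    · refine Or.inr (Or.inl ⟨s + v, x + q, z - q, by omega, ?_, hsum q g3, g4.trans ?_⟩)
      · have := hbig q g2
        linarith
      · exact mul_le_mul_of_nonneg_right hK1 (mul_nonneg (Real.exp_pos _).le (vl_nonneg _ _ _))
    · have hsv : s + v = t' - 1 := by omega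
      rcases Nat.lt_or_ge τ t' with hlt | hge
      · refine Or.inr (Or.inr ⟨τ, hτ1, by omega, hτ3, s + v, x + q, z - q, by omega, by omega, ?_,
          hsum q g3, g5.trans ?_⟩)
        · have := hbig q g2
          linarith
        · refine mul_le_mul hK1 ?_ (mul_nonneg (Real.exp_pos _).le (vl_nonneg _ _ _)) (hK0.trans hK1)
          refine mul_le_mul_of_nonneg_right ?_ (vl_nonneg _ _ _)
          exact le_mul_of_one_le_right (Real.exp_pos _).le (one_le_UU _ _ _)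
      · have hτ : τ = t' := by omega
        rw [hsv] at g5
        obtain ⟨q2, k1, k2, k3⟩ := vl_two (ρ := ρ) (β := β) j0 hθ η (M := M) (τ := t')
          (n := t - (t' - 1)) (by omega) (by omega) (x + q) (z - q) (by
            have e1 := (hbig q g2).trans hM
            exact_mod_cast e1)
        refine Or.inr (Or.inr ⟨τ, hτ1, by omega, hτ3, t', q2 + (x + q), z - q - q2, by omega, by omega,
          ?_, ?_, g5.trans ?_⟩)
        · have e1 := hbig q g2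
          have e2 : (sn (q2 + (x + q)) : ℝ) ≤ sn q2 + sn (x + q) := by exact_mod_cast sn_add _ _
          have e3 : (sn q2 : ℝ) ≤ 2 := by exact_mod_cast k1
          linarith
        · have e1 := ln_add_mod q2 (x + q)
          have e2 := hsum q g3
          rw [Nat.even_iff] at e2 k2 ⊢
          omega
        · rw [hτ]
          have e1 : t - (t' - 1) - 1 = t - t' := by omega
          rw [e1] at k3
          have e2 := mul_le_mul_of_nonneg_left (mul_le_mul_of_nonneg_left k3 (Real.exp_pos ℓ).le) hK0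
          refine e2.trans (le_of_eq ?_)
          unfold KT
          ring
  · push Not at hex
    obtain ⟨v, q, g1, g2, g3, g4⟩ := TlD_exit (ρ := ρ) (β := β) (θ := θ) (h := h) j0 hθ hθ1 hℓ hR hR1
      (sh (2 * s) x η) (n := t - s) (u := t - s) (by omega) le_rfl z (by
        intro v hv1 hv2 q hq1 hq2 hq3
        refine hex (s + v) (by omega) (by omega) q hq1 hq2 ?_
        rwa [Nat.add_sub_cancel_left])
    rcases g4 with g4 | ⟨g4, g5⟩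
    · rw [hshift] at g4
      have hts : t - s - v = t - (s + v) := by omega
      rw [hts] at g4
      refine Or.inr (Or.inl ⟨s + v, x + q, z - q, by omega, ?_, hsum q g3, g4.trans ?_⟩)
      · have := hbig q g2
        linarith
      · exact mul_le_mul_of_nonneg_right hK1 (mul_nonneg (Real.exp_pos _).le (vl_nonneg _ _ _))
    · refine Or.inl (g5.trans ?_)
      rw [g4, Nat.sub_self]
      refine mul_le_mul hK1 ?_ (mul_nonneg (Real.exp_pos _).le (vl_nonneg _ _ _)) (hK0.trans hK1)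
      exact mul_le_of_le_one_right (Real.exp_pos _).le (vl_zero_le j0 _ _)

private theorem TlD_pow {a K E X G γ : ℝ} (hγ : 0 < γ) (ha : 0 ≤ a) (hK : 0 ≤ K) (hE : 0 ≤ E)
    (hX : 0 ≤ X) (h : a ≤ K * (E * X)) (hG : X ^ γ ≤ G) : a ^ γ ≤ K ^ γ * (E ^ γ * G) := by
  have h1 := Real.rpow_le_rpow ha h hγ.le
  rw [Real.mul_rpow hK (mul_nonneg hE hX), Real.mul_rpow hE hX] at h1
  refine h1.trans (mul_le_mul_of_nonneg_left ?_ (Real.rpow_nonneg hK _))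
  exact mul_le_mul_of_nonneg_left hG (Real.rpow_nonneg hE _)

/-- The pathwise recursion. -/
theorem Gf_rec (j0 : Fin d) {θ γ : ℝ} {h R f m M : ℕ} (hγ : 0 < γ) (hθ : 0 ≤ θ) (hθ1 : θ ≤ θ1)
    (hℓ : 0 ≤ ℓ) (hr : 0 ≤ r) (hR : 1 ≤ R) (hR1 : (R : ℝ) + 1 ≤ R1) (hM : r + R + 3 ≤ M)
    (hf : 1 ≤ f) (he : Even f) (hfr : (f : ℝ) ≤ r) (hm : (r + R + 3) / f + 1 ≤ m) (η : Env d) :
    Gf ρ β θ γ r h 0 0 η ≤ KT d ρ β h θ ^ γ * (Real.exp (γ * ℓ) +
      Real.exp (-(γ * ((θ1 - θ) * R - ℓ))) * ∑ k ∈ boxF d m, Gf ρ β θ γ r h 0 (f • k) η +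
      ∑ t ∈ Finset.Icc 1 h, (Fs d ρ β θ1 ℓ R1 r t).indicator
        (fun η => Real.exp (γ * ℓ) * UU d β M t η ^ γ *
          ∑ k ∈ boxF d m, Gf ρ β θ γ r h t (f • k) η) η) := by
  classical
  have hG0 : ∀ (s0 : ℕ) (c : Site d), 0 ≤ Gf ρ β θ γ r h s0 c η := fun s0 c =>
    zero_le_one.trans (one_le_Gf c η)
  have hS0 : ∀ s0 : ℕ, 0 ≤ ∑ k ∈ boxF d m, Gf ρ β θ γ r h s0 (f • k) η := fun s0 =>
    Finset.sum_nonneg fun k _ => hG0 s0 _
  have hK1 := one_le_KT (d := d) (ρ := ρ) (β := β) h hθ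
  have hK0 : 0 ≤ KT d ρ β h θ := zero_le_one.trans hK1
  have hKγ : 1 ≤ KT d ρ β h θ ^ γ := Real.one_le_rpow hK1 hγ.le
  have hind : ∀ t ∈ Finset.Icc 1 h, 0 ≤ (Fs d ρ β θ1 ℓ R1 r t).indicator
        (fun η => Real.exp (γ * ℓ) * UU d β M t η ^ γ *
          ∑ k ∈ boxF d m, Gf ρ β θ γ r h t (f • k) η) η := by
    intro t _
    refine Set.indicator_apply_nonneg fun _ => mul_nonneg (mul_nonneg (Real.exp_pos _).le
      (Real.rpow_nonneg (UU_nonneg _ _ _) _)) (hS0 t)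
  have hT3 := Finset.sum_nonneg hind
  have hT2 : 0 ≤ Real.exp (-(γ * ((θ1 - θ) * R - ℓ))) *
      ∑ k ∈ boxF d m, Gf ρ β θ γ r h 0 (f • k) η := mul_nonneg (Real.exp_pos _).le (hS0 0)
  have hexp : ∀ u : ℝ, Real.exp u ^ γ = Real.exp (γ * u) := by
    intro u
    rw [mul_comm, Real.exp_mul]
  have hcen : ∀ (s0 s' t : ℕ) (p w : Site d), s0 ≤ s' → s' ≤ t → t ≤ h → (sn p : ℝ) ≤ r + R + 3 →
      Even (ln p) → vl ρ β θ (sh (2 * s') p η) (t - s') w ^ γ ≤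
        ∑ k ∈ boxF d m, Gf ρ β θ γ r h s0 (f • k) η := by
    intro s0 s' t p w h1 h2 h3 h4 h5
    obtain ⟨k, hk, hk1, hk2⟩ := centre hf he h4 h5 hm
    refine le_trans ?_ (Finset.single_le_sum (f := fun k => Gf ρ β θ γ r h s0 (f • k) η)
      (fun k _ => hG0 s0 _) hk)
    exact le_Gf j0 hγ η h1 h2 h3 ((Nat.cast_le.2 hk1).trans hfr) hk2 w
  refine Gf_le ?_ fun i hi => ?_
  · have h1 : 1 ≤ Real.exp (γ * ℓ) := Real.one_le_exp (by positivity)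
    refine one_le_mul_of_one_le_of_one_le hKγ ?_
    linarith
  obtain ⟨s, t, x, z⟩ := i
  rw [mem_JJ] at hi
  obtain ⟨⟨-, i1, i2, -⟩, -, i3, i4⟩ := hi
  have hx : (sn x : ℝ) ≤ r := (Nat.cast_le.2 i2).trans (Nat.floor_le hr)
  have hxe : Even (ln x) := Nat.even_iff.2 i4
  have hgt : gt1 ρ β θ γ 0 η (s, t, x, z) = vl ρ β θ (sh (2 * s) x η) (t - s) z ^ γ := by
    unfold gt1 vl
    rw [zero_add]
  rw [hgt]
  have hv0 : 0 ≤ vl ρ β θ (sh (2 * s) x η) (t - s) z := vl_nonneg _ _ _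
  rcases TlD_cases (ρ := ρ) (β := β) (θ := θ) j0 hθ hθ1 hℓ hR hR1 hM η i3 i1 hx hxe z with
    h1 | ⟨s', p, w, h1, h2, h3, h4⟩ | ⟨τ, h1, h2, h3, s', p, w, h4, h5, h6, h7, h8⟩
  · have e1 := TlD_pow hγ hv0 hK0 (Real.exp_pos ℓ).le zero_le_one (G := 1) (by rwa [mul_one])
      (by rw [Real.one_rpow])
    rw [mul_one, hexp] at e1
    refine e1.trans (mul_le_mul_of_nonneg_left ?_ (zero_le_one.trans hKγ))
    linarith
  · have e1 := TlD_pow hγ hv0 hK0 (Real.exp_pos (-((θ1 - θ) * R - ℓ))).le (vl_nonneg _ _ _) h4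
      (hcen 0 s' t p w (Nat.zero_le _) h1 i1 h2 h3)
    rw [hexp, mul_neg] at e1
    refine e1.trans (mul_le_mul_of_nonneg_left ?_ (zero_le_one.trans hKγ))
    have := (Real.exp_pos (γ * ℓ)).le
    linarith
  · have hU0 := UU_nonneg (β := β) M τ η
    have e1 := TlD_pow hγ hv0 hK0 (mul_nonneg (Real.exp_pos ℓ).le hU0) (vl_nonneg _ _ _) h8
      (hcen τ s' t p w h4 h5 i1 h6 h7)
    rw [Real.mul_rpow (Real.exp_pos ℓ).le hU0, hexp] at e1
    refine e1.trans (mul_le_mul_of_nonneg_left ?_ (zero_le_one.trans hKγ))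
    have e2 := Finset.single_le_sum hind (Finset.mem_Icc.2 ⟨h1, h2⟩)
    rw [Set.indicator_of_mem h3] at e2
    have := (Real.exp_pos (γ * ℓ)).le
    linarith

end Pool.Agent.W_7d29a1_q
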