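import Pool.Agent.W_7d29a1_q.Mv

/-!
Row 601, the interface of the sections 4, 5, 6.
-/

namespace Pool.Agent.W_7d29a1_q

open MeasureTheory ProbabilityTheory Filter Topology Pool.Agent.W_MP_7d29a1_pr
  Pool.Agent.W_7d29a1_h46 Pool.Agent.W_7d29a1_h46u Pool.Agent.W_7d29a1_h3

/-- The event `V` of section 5: a lucky piece from the cell `{sn x ≤ r}` inside `[0, 2 h]`. -/
def VV (d : ℕ) (ρ : Measure ℝ) (β θ ℓ R r : ℝ) (h : ℕ) : Set (Env d) :=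
  {η | ∃ s t : ℕ, s < t ∧ t ≤ h ∧ ∃ x y : Site d, (sn x : ℝ) ≤ r ∧ Even (ln x) ∧ Even (ln y) ∧
    (sn (y - x) : ℝ) ≤ R ∧ Tle ρ β (sh (2 * s) x η) (t - s) (y - x) (θ * sn (y - x) - ℓ)}

/-- Section 4, Lemma 4, with the constant `ε'`. -/
def PointProp (d : ℕ) (ε' : ℝ) : Prop := 0 < ε' ∧ ε' ≤ 1 / 800 ∧
    ∀ (ρ : Measure ℝ) [IsProbabilityMeasure ρ] (β c a0 : ℝ), EM ρ → ∀ᶠ N : ℕ in atTop,
      Sc d ρ β c a0 N → ∀ a : ℝ, as d N ≤ a → a ≤ am d N → Rg d ρ β a0 (1 / 4) a →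
      (law d ρ).real {η : Env d | ∃ t ≤ nn d ρ β (ε' * a), ∃ y : Site d, Even (ln y) ∧
        (sn y : ℝ) ≤ WW d ρ β a ∧
        Tle ρ β η t y (7 / 8 * pr d ρ β a * sn y - a / 128)} ≤ 1 / 4

/-- Section 5, Lemma 5, with the constants `C`, `ε1`. -/
def FreeProp (d : ℕ) (C ε1 : ℝ) : Prop := 1 ≤ C ∧ 0 < ε1 ∧ ε1 ≤ 1 / 8 ∧
    ∀ (Λ : ℝ), 1 ≤ Λ → ∀ (ρ : Measure ℝ) [IsProbabilityMeasure ρ] (β c a0 : ℝ), EM ρ →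
    ∀ᶠ N : ℕ in atTop, Sc d ρ β c a0 N → ∀ a : ℝ, as d N ≤ a → Λ * a ≤ am d N →
      Rg d ρ β a0 (1 / 4) (Λ * a) →
      (law d ρ).real (VV d ρ β (7 / 8 * pr d ρ β (Λ * a)) (Λ * a / 64) (WW d ρ β (Λ * a) / 2 + 2)
        (ε1 * WW d ρ β (Λ * a)) (nn d ρ β a)) ≤ C / Λ

end Pool.Agent.W_7d29a1_q
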