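import Pool.Agent.W_7d29a1_q.TlB
import Pool.Agent.W_7d29a1_q.TlE
import Pool.Agent.W_7d29a1_q.VV

/-!
Row 601, section 6 (tails): the first completion of a lucky piece, tilted weights.
-/

namespace Pool.Agent.W_7d29a1_q

open MeasureTheory ProbabilityTheory Filter Topology Pool.Agent.W_MP_7d29a1_pr
  Pool.Agent.W_7d29a1_h46 Pool.Agent.W_7d29a1_h46u Pool.Agent.W_7d29a1_h3

variable {d : ℕ}

/-- Some piece which starts in the cell is completed (with the luck `ℓ`) at the half time `t`. -/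
def Cp (d : ℕ) (ρ : Measure ℝ) (β θ ℓ R r : ℝ) (t : ℕ) : Set (Env d) :=
  {η | ∃ s : ℕ, s < t ∧ ∃ x y : Site d, (sn x : ℝ) ≤ r ∧ Even (ln x) ∧ Even (ln y) ∧
    (sn (y - x) : ℝ) ≤ R ∧ Tle ρ β (sh (2 * s) x η) (t - s) (y - x) (θ * sn (y - x) - ℓ)}

/-- The first completion is at the half time `t`. -/
def Fs (d : ℕ) (ρ : Measure ℝ) (β θ ℓ R r : ℝ) (t : ℕ) : Set (Env d) :=
  {η | η ∈ Cp d ρ β θ ℓ R r t ∧ ∀ t' < t, η ∉ Cp d ρ β θ ℓ R r t'}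

variable {ρ : Measure ℝ} {β θ1 ℓ R1 r : ℝ}

theorem measurableSet_Cp [IsProbabilityMeasure ρ] (t : ℕ) :
    MeasurableSet (Cp d ρ β θ1 ℓ R1 r t) := by
  have h1 : Cp d ρ β θ1 ℓ R1 r t = ⋃ i : ℕ × Site d × Site d,
      {η : Env d | (i.1 < t ∧ (sn i.2.1 : ℝ) ≤ r ∧ Even (ln i.2.1) ∧ Even (ln i.2.2) ∧
        (sn (i.2.2 - i.2.1) : ℝ) ≤ R1) ∧
        Tle ρ β (sh (2 * i.1) i.2.1 η) (t - i.1) (i.2.2 - i.2.1)
          (θ1 * sn (i.2.2 - i.2.1) - ℓ)} := by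
    ext η
    rw [Set.mem_iUnion]
    constructor
    · rintro ⟨s, hs, x, y, h1, h2, h3, h4, h5⟩
      exact ⟨(s, x, y), ⟨hs, h1, h2, h3, h4⟩, h5⟩
    · rintro ⟨⟨s, x, y⟩, ⟨hs, h1, h2, h3, h4⟩, h5⟩
      exact ⟨s, hs, x, y, h1, h2, h3, h4, h5⟩
  rw [h1]
  refine MeasurableSet.iUnion fun i => ?_
  exact (MeasurableSet.const _).inter ((measurable_sh _ _) (measurableSet_Tle _ _ _))

theorem dep_Cp [IsProbabilityMeasure ρ] (t : ℕ) (η η' : Env d)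
    (h : ∀ p : ℕ × Site d, p.1 ≤ 2 * t → η p = η' p) :
    η ∈ Cp d ρ β θ1 ℓ R1 r t ↔ η' ∈ Cp d ρ β θ1 ℓ R1 r t := by
  have key : ∀ η η' : Env d, (∀ p : ℕ × Site d, p.1 ≤ 2 * t → η p = η' p) →
      η ∈ Cp d ρ β θ1 ℓ R1 r t → η' ∈ Cp d ρ β θ1 ℓ R1 r t := by
    rintro η η' h ⟨s, hs, x, y, h1, h2, h3, h4, h5⟩
    refine ⟨s, hs, x, y, h1, h2, h3, h4, ?_⟩
    exact (dep_Tle (fun p _ hp => h p (by omega))).1 h5
  exact ⟨key η η' h, key η' η fun p hp => (h p hp).symm⟩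

theorem measurableSet_Fs [IsProbabilityMeasure ρ] (t : ℕ) : MeasurableSet (Fs d ρ β θ1 ℓ R1 r t) := by
  have h1 : Fs d ρ β θ1 ℓ R1 r t = Cp d ρ β θ1 ℓ R1 r t \ ⋃ t' : ℕ, ⋃ _ : t' < t,
      Cp d ρ β θ1 ℓ R1 r t' := by
    ext η
    constructor
    · rintro ⟨h1, h2⟩
      refine ⟨h1, fun h3 => ?_⟩
      rw [Set.mem_iUnion] at h3
      obtain ⟨t', h3⟩ := h3
      rw [Set.mem_iUnion] at h3
      obtain ⟨h4, h5⟩ := h3
      exact h2 t' h4 h5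
    · rintro ⟨h1, h2⟩
      refine ⟨h1, fun t' ht' h3 => h2 ?_⟩
      exact Set.mem_iUnion.2 ⟨t', Set.mem_iUnion.2 ⟨ht', h3⟩⟩
  rw [h1]
  exact (measurableSet_Cp t).diff (MeasurableSet.iUnion fun t' => MeasurableSet.iUnion fun _ =>
    measurableSet_Cp t')

theorem dep_Fs [IsProbabilityMeasure ρ] (t : ℕ) (η η' : Env d)
    (h : ∀ p : ℕ × Site d, p.1 ≤ 2 * t → η p = η' p) :
    η ∈ Fs d ρ β θ1 ℓ R1 r t ↔ η' ∈ Fs d ρ β θ1 ℓ R1 r t := by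
  refine and_congr (dep_Cp t η η' h) (forall₂_congr fun t' ht' => not_congr ?_)
  exact dep_Cp t' η η' fun p hp => h p (by omega)

theorem Fs_disj {t t' : ℕ} (h : t ≠ t') :
    Disjoint (Fs d ρ β θ1 ℓ R1 r t) (Fs d ρ β θ1 ℓ R1 r t') := by
  rw [Set.disjoint_left]
  rintro η ⟨h1, h2⟩ ⟨h3, h4⟩
  rcases lt_or_gt_of_ne h with h5 | h5
  · exact h4 t h5 h1
  · exact h2 t' h5 h3

theorem Fs_sub {h t : ℕ} (ht : t ≤ h) : Fs d ρ β θ1 ℓ R1 r t ⊆ VV d ρ β θ1 ℓ R1 r h := by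
  rintro η ⟨⟨s, hs, x, y, h1, h2, h3, h4, h5⟩, -⟩
  exact ⟨s, t, hs, ht, x, y, h1, h2, h3, h4, h5⟩

/-- The first completion exists. -/
theorem exists_Fs {η : Env d} {t : ℕ} (h : η ∈ Cp d ρ β θ1 ℓ R1 r t) :
    ∃ τ, 1 ≤ τ ∧ τ ≤ t ∧ η ∈ Fs d ρ β θ1 ℓ R1 r τ := by
  classical
  have hex : ∃ t, η ∈ Cp d ρ β θ1 ℓ R1 r t := ⟨t, h⟩
  refine ⟨Nat.find hex, ?_, Nat.find_min' hex h, Nat.find_spec hex, fun t' ht' => Nat.find_min hex ht'⟩
  obtain ⟨s, hs, -⟩ := Nat.find_spec hex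
  exact (Nat.zero_le s).trans_lt hs

/-- The polynomial factor. -/
noncomputable def KT (d : ℕ) (ρ : Measure ℝ) (β : ℝ) (h : ℕ) (θ : ℝ) : ℝ :=
  ((h : ℝ) + 1) * (4 * (h : ℝ) + 1) ^ d * 5 ^ d * Real.exp (2 * θ) *
    (1 + Real.exp (-(2 * lam ρ β (0 : Vec d))) * (2 * (d : ℝ)) ^ 2)

/-- The weight tilted by `exp (θ sn z)`. -/
noncomputable def vl (ρ : Measure ℝ) (β θ : ℝ) (η : Env d) (n : ℕ) (z : Site d) : ℝ :=
  Real.exp (θ * sn z) * Vp ρ β η (2 * n) z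

variable {θ : ℝ}

theorem vl_nonneg (η : Env d) (n : ℕ) (z : Site d) : 0 ≤ vl ρ β θ η n z :=
  mul_nonneg (Real.exp_pos _).le (V_nonneg _ _)

theorem sn_zero' : sn (0 : Site d) = 0 := Nat.le_zero.1 (sn_le_iff.2 fun j => by simp)

theorem TlD_Vp0 (η : Env d) : Vp ρ β η 0 (0 : Site d) = 1 := by
  unfold Vp V toP ZT
  have hp : ∀ s : Fin 0 → Step d, pos s 0 = (0 : Site d) := by
    intro s
    unfold pos
    simp
  have he : emb (0 : Site d) = 0 := by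
    unfold emb
    ext j
    simp
  simp [hp, wgt, energy, he]

theorem vl_zero_le (j0 : Fin d) (η : Env d) (z : Site d) : vl ρ β θ η 0 z ≤ 1 := by
  unfold vl
  rw [Nat.mul_zero]
  by_cases hz : adm 0 z
  · have h1 : ln z = 0 := Nat.le_zero.1 hz.1
    have h2 : sn z = 0 := Nat.le_zero.1 ((sn_le_ln z).trans h1.le)
    have h3 : z = 0 := by
      funext j
      have h4 := sn_le_iff.1 h2.le j
      have h5 : |z j| = 0 := le_antisymm (by exact_mod_cast h4) (abs_nonneg _)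
      exact abs_eq_zero.1 h5
    rw [h3, TlD_Vp0, sn_zero']
    simp
  · rw [Vp_zero j0 η hz, mul_zero]
    exact zero_le_one

/-- The tilted weights of two parts. -/
theorem vl_mul (hθ : 0 ≤ θ) {K : ℝ} {η : Env d} {n v : ℕ} {z q : Site d}
    (h : Vp ρ β η (2 * n) z ≤
      K * (Vp ρ β η (2 * v) q * Vp ρ β (sh (2 * v) q η) (2 * (n - v)) (z - q))) :
    vl ρ β θ η n z ≤ K * (vl ρ β θ η v q * vl ρ β θ (sh (2 * v) q η) (n - v) (z - q)) := by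
  unfold vl
  have h1 : sn z ≤ sn q + sn (z - q) := by
    have := sn_add q (z - q)
    rwa [add_sub_cancel] at this
  have h2 : Real.exp (θ * sn z) ≤ Real.exp (θ * sn q) * Real.exp (θ * sn (z - q)) := by
    rw [← Real.exp_add, Real.exp_le_exp, ← mul_add]
    exact mul_le_mul_of_nonneg_left (by exact_mod_cast h1) hθ
  calc Real.exp (θ * sn z) * Vp ρ β η (2 * n) z
      ≤ (Real.exp (θ * sn q) * Real.exp (θ * sn (z - q))) *
        (K * (Vp ρ β η (2 * v) q * Vp ρ β (sh (2 * v) q η) (2 * (n - v)) (z - q))) :=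
        mul_le_mul h2 h (V_nonneg _ _) (by positivity)
    _ = _ := by ring

/-- A piece which is not completed. -/
theorem vl_prefix (j0 : Fin d) (hℓ : 0 ≤ ℓ) {η : Env d} {v : ℕ} {q : Site d}
    (h : 1 ≤ v → ¬ Tle ρ β η v q (θ1 * sn q - ℓ)) :
    vl ρ β θ η v q ≤ Real.exp (-((θ1 - θ) * sn q - ℓ)) := by
  rcases Nat.eq_zero_or_pos v with hv | hv
  · subst hv
    by_cases hz : q = 0
    · refine (vl_zero_le j0 η q).trans ?_
      rw [hz, sn_zero', Nat.cast_zero, mul_zero, zero_sub, neg_neg]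
      exact Real.one_le_exp hℓ
    · have h1 : ¬ adm 0 q := by
        intro h2
        have h3 : ln q = 0 := Nat.le_zero.1 h2.1
        have h4 : sn q = 0 := Nat.le_zero.1 ((sn_le_ln q).trans h3.le)
        refine hz ?_
        funext j
        have h5 := sn_le_iff.1 h4.le j
        have h6 : |q j| = 0 := le_antisymm (by exact_mod_cast h5) (abs_nonneg _)
        exact abs_eq_zero.1 h6
      unfold vl
      rw [Nat.mul_zero, Vp_zero j0 η h1, mul_zero]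
      exact (Real.exp_pos _).le
  · have h1 := h hv
    unfold Tle at h1
    rw [not_le] at h1
    unfold vl
    have h2 : Real.exp (θ * sn q) * Real.exp (-(θ1 * sn q - ℓ)) =
        Real.exp (-((θ1 - θ) * sn q - ℓ)) := by
      rw [← Real.exp_add]
      congr 1
      ring
    rw [← h2]
    exact mul_le_mul_of_nonneg_left h1.le (Real.exp_pos _).le

theorem one_le_KT_aux (h : ℕ) (hθ : 0 ≤ θ) :
    ((h : ℝ) + 1) * (4 * (h : ℝ) + 1) ^ d ≤ KT d ρ β h θ := by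
  unfold KT
  have h0 : (0 : ℝ) ≤ h := Nat.cast_nonneg h
  have h1 : 0 ≤ ((h : ℝ) + 1) * (4 * (h : ℝ) + 1) ^ d := by positivity
  have h2 : (1 : ℝ) ≤ 5 ^ d := one_le_pow₀ (by norm_num)
  have h3 : 1 ≤ Real.exp (2 * θ) := Real.one_le_exp (by positivity)
  have h4 : 1 ≤ 1 + Real.exp (-(2 * lam ρ β (0 : Vec d))) * (2 * (d : ℝ)) ^ 2 :=
    le_add_of_nonneg_right (by positivity)
  have h5 : 1 ≤ (5 : ℝ) ^ d * (Real.exp (2 * θ) *
      (1 + Real.exp (-(2 * lam ρ β (0 : Vec d))) * (2 * (d : ℝ)) ^ 2)) :=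
    one_le_mul_of_one_le_of_one_le h2 (one_le_mul_of_one_le_of_one_le h3 h4)
  calc ((h : ℝ) + 1) * (4 * (h : ℝ) + 1) ^ d
      = ((h : ℝ) + 1) * (4 * (h : ℝ) + 1) ^ d * 1 := (mul_one _).symm
    _ ≤ ((h : ℝ) + 1) * (4 * (h : ℝ) + 1) ^ d * ((5 : ℝ) ^ d * (Real.exp (2 * θ) *
      (1 + Real.exp (-(2 * lam ρ β (0 : Vec d))) * (2 * (d : ℝ)) ^ 2))) :=
        mul_le_mul_of_nonneg_left h5 h1
    _ = _ := by ring

theorem one_le_KT (h : ℕ) {θ : ℝ} (hθ : 0 ≤ θ) : 1 ≤ KT d ρ β h θ := by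
  refine le_trans ?_ (one_le_KT_aux h hθ)
  have h0 : (0 : ℝ) ≤ h := Nat.cast_nonneg h
  exact one_le_mul_of_one_le_of_one_le (by linarith) (one_le_pow₀ (by linarith))

/-- Two rows. -/
theorem vl_two (j0 : Fin d) (hθ : 0 ≤ θ) (η : Env d) {M τ n : ℕ} (hτ : 1 ≤ τ) (hn : 1 ≤ n)
    (x z : Site d) (hx : sn x + 2 ≤ M) : ∃ q : Site d, sn q ≤ 2 ∧ Even (ln q) ∧
      vl ρ β θ (sh (2 * (τ - 1)) x η) n z ≤ 5 ^ d * Real.exp (2 * θ) *
        (1 + Real.exp (-(2 * lam ρ β (0 : Vec d))) * (2 * (d : ℝ)) ^ 2) *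
        (UU d β M τ η * vl ρ β θ (sh (2 * τ) (q + x) η) (n - 1) (z - q)) := by
  obtain ⟨q, h1, h2, h3⟩ := two_split (ρ := ρ) (β := β) j0 (sh (2 * (τ - 1)) x η) hn z
  refine ⟨q, h1, h2, ?_⟩
  have h4 := vl_mul (θ := θ) hθ (v := 1) (K := 5 ^ d) h3
  have h5 : sh (2 * 1) q (sh (2 * (τ - 1)) x η) = sh (2 * τ) (q + x) η := by
    rw [sh_sh]
    congr 1
    omega
  rw [h5] at h4
  refine h4.trans ?_
  have h6 : vl ρ β θ (sh (2 * (τ - 1)) x η) 1 q ≤ Real.exp (2 * θ) *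
      ((1 + Real.exp (-(2 * lam ρ β (0 : Vec d))) * (2 * (d : ℝ)) ^ 2) * UU d β M τ η) := by
    unfold vl
    refine mul_le_mul ?_ ?_ (V_nonneg _ _) (Real.exp_pos _).le
    · rw [Real.exp_le_exp, mul_comm 2 θ]
      exact mul_le_mul_of_nonneg_left (by exact_mod_cast h1) hθ
    · refine (two_rows η hτ x q hx).trans ?_
      exact mul_le_mul_of_nonneg_right (by linarith) (UU_nonneg _ _ _)
  calc 5 ^ d * (vl ρ β θ (sh (2 * (τ - 1)) x η) 1 q * vl ρ β θ (sh (2 * τ) (q + x) η) (n - 1) (z - q))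
      ≤ 5 ^ d * ((Real.exp (2 * θ) *
      ((1 + Real.exp (-(2 * lam ρ β (0 : Vec d))) * (2 * (d : ℝ)) ^ 2) * UU d β M τ η)) *
        vl ρ β θ (sh (2 * τ) (q + x) η) (n - 1) (z - q)) :=
        mul_le_mul_of_nonneg_left (mul_le_mul_of_nonneg_right h6 (vl_nonneg _ _ _)) (by positivity)
    _ = _ := by ring

end Pool.Agent.W_7d29a1_q
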