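import Pool.Agent.W_7d29a1_q.TlC
import Pool.Agent.W_7d29a1_q.TlD

/-!
Row 601, section 6 (tails): the recursion for the mean. TASK TlF.
-/

namespace Pool.Agent.W_7d29a1_q

open MeasureTheory ProbabilityTheory Filter Topology Pool.Agent.W_MP_7d29a1_pr
  Pool.Agent.W_7d29a1_h46 Pool.Agent.W_7d29a1_h46u Pool.Agent.W_7d29a1_h3

variable {d : ℕ} {ρ : Measure ℝ} [IsProbabilityMeasure ρ] {β : ℝ}

private theorem TlF_prod (S : Set (ℕ × Site d)) {F G : Env d → ℝ} (hF : Measurable F)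
    (hG : Measurable G) (hFS : DependsOn F S) (hGS : DependsOn G Sᶜ) (hF0 : ∀ η, 0 ≤ F η)
    (hG1 : ∀ η, 1 ≤ G η) (hFi : Integrable F (law d ρ)) (hGi : Integrable G (law d ρ)) :
    Integrable (fun η => F η * G η) (law d ρ) ∧
    ∫ η, F η * G η ∂(law d ρ) = (∫ η, F η ∂(law d ρ)) * ∫ η, G η ∂(law d ρ) := by
  have h1 := integral_indep (ρ := ρ) S hF hG hFS hGS
  refine ⟨?_, h1⟩
  by_contra h2
  rw [integral_undef h2] at h1
  have h3 : 1 ≤ ∫ η, G η ∂(law d ρ) := by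
    have h4 := integral_mono (μ := law d ρ) (integrable_const (1 : ℝ)) hGi hG1
    simpa using h4
  have h4 : ∫ η, F η ∂(law d ρ) = 0 := by
    rcases mul_eq_zero.1 h1.symm with h5 | h5
    · exact h5
    · rw [h5] at h3
      linarith
  have h5 := (integral_eq_zero_iff_of_nonneg hF0 hFi).1 h4
  refine h2 ((integrable_zero (Env d) ℝ (law d ρ)).congr ?_)
  filter_upwards [h5] with η hη
  simp only [Pi.zero_apply] at hη ⊢
  rw [hη, zero_mul]

private theorem TlF_card (m : ℕ) : ((boxF d m).card : ℝ) = (2 * (m : ℝ) + 1) ^ d := by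
  rw [card_boxF]
  push_cast
  ring

/-- One term: `Gf · t` and the rows `≤ 2 t` are independent (`integral_indep` with the set of sites
`{p | p.1 ≤ 2 t}`, `dep_Gf`, `dep_UU`, `dep_Fs`), `integral_Gf_c`, `Gf_anti`. Integrability of a product
`F * G` of independent functions `F ≥ 0`, `G ≥ 1`: otherwise `∫ F * G = 0` (`integral_undef`), hence `∫ F = 0`
by `integral_indep`, `F = 0` a.e. -/
theorem mean_term (j0 : Fin d) (hρ : EM ρ) {θ θ1 ℓ R1 γ r : ℝ} {h t m f M : ℕ} (hγ : 0 < γ)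
    (hγ1 : γ ≤ 1) (hU : Integrable (fun η : Env d => UU d β M h η ^ γ) (law d ρ)) (ht : t ≤ h) :
    Integrable ((Fs d ρ β θ1 ℓ R1 r t).indicator (fun η => Real.exp (γ * ℓ) * UU d β M t η ^ γ *
          ∑ k ∈ boxF d m, Gf ρ β θ γ r h t (f • k) η)) (law d ρ) ∧
    ∫ η, (Fs d ρ β θ1 ℓ R1 r t).indicator (fun η => Real.exp (γ * ℓ) * UU d β M t η ^ γ *
          ∑ k ∈ boxF d m, Gf ρ β θ γ r h t (f • k) η) η ∂(law d ρ) ≤
      Real.exp (γ * ℓ) * (2 * (m : ℝ) + 1) ^ d * (∫ η, Gf ρ β θ γ r h 0 (0 : Site d) η ∂(law d ρ)) *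
        ∫ η in Fs d ρ β θ1 ℓ R1 r t, UU d β M h η ^ γ ∂(law d ρ) := by
  classical
  set A : Set (Env d) := Fs d ρ β θ1 ℓ R1 r t with hA
  have hAm : MeasurableSet A := measurableSet_Fs t
  set F : Env d → ℝ := A.indicator (fun η => UU d β M t η ^ γ) with hF
  have hUm : Measurable (fun η : Env d => UU d β M t η ^ γ) := (measurable_UU M t).pow_const γ
  have hFm : Measurable F := hUm.indicator hAm
  have hF0 : ∀ η, 0 ≤ F η := fun η =>
    Set.indicator_nonneg (fun η _ => Real.rpow_nonneg (UU_nonneg M t η) _) η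
  have hle : ∀ η : Env d, UU d β M t η ^ γ ≤ UU d β M h η ^ γ := fun η =>
    Real.rpow_le_rpow (UU_nonneg M t η) (UU_mono ht η) hγ.le
  have hUi : Integrable (fun η : Env d => UU d β M t η ^ γ) (law d ρ) := by
    refine Integrable.mono' hU hUm.aestronglyMeasurable (Eventually.of_forall fun η => ?_)
    rw [Real.norm_eq_abs, abs_of_nonneg (Real.rpow_nonneg (UU_nonneg M t η) _)]
    exact hle η
  have hFi : Integrable F (law d ρ) := hUi.indicator hAm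
  have hFS : DependsOn F {p : ℕ × Site d | p.1 ≤ 2 * t} := by
    intro η η' hη
    have h1 := dep_Fs (d := d) (ρ := ρ) (β := β) (θ1 := θ1) (ℓ := ℓ) (R1 := R1) (r := r) t η η'
      (fun p hp => hη p hp)
    have h2 := dep_UU (d := d) (β := β) M t hη
    rw [hF]
    by_cases h3 : η ∈ A
    · rw [Set.indicator_of_mem h3, Set.indicator_of_mem (h1.1 h3), h2]
    · rw [Set.indicator_of_notMem h3, Set.indicator_of_notMem (fun h4 => h3 (h1.2 h4))]
  have hGS : ∀ c : Site d, DependsOn (Gf (d := d) ρ β θ γ r h t c) {p : ℕ × Site d | p.1 ≤ 2 * t}ᶜ := by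
    intro c η η' hη
    refine dep_Gf c fun p hp => hη p ?_
    show ¬ p.1 ≤ 2 * t
    have := hp.1
    omega
  have hk : ∀ c : Site d, Integrable (fun η => F η * Gf ρ β θ γ r h t c η) (law d ρ) ∧
      ∫ η, F η * Gf ρ β θ γ r h t c η ∂(law d ρ) =
        (∫ η, F η ∂(law d ρ)) * ∫ η, Gf ρ β θ γ r h t c η ∂(law d ρ) := fun c =>
    TlF_prod (ρ := ρ) {p : ℕ × Site d | p.1 ≤ 2 * t} hFm (measurable_Gf c) hFS (hGS c) hF0
      (fun η => one_le_Gf c η) hFi (integrable_Gf j0 hρ hγ hγ1 c)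
  have hG0 : ∀ c : Site d, ∫ η, Gf ρ β θ γ r h t c η ∂(law d ρ) ≤
      ∫ η, Gf ρ β θ γ r h 0 (0 : Site d) η ∂(law d ρ) := by
    intro c
    rw [integral_Gf_c c]
    exact integral_mono (integrable_Gf j0 hρ hγ hγ1 0) (integrable_Gf j0 hρ hγ hγ1 0)
      (fun η => Gf_anti 0 η (Nat.zero_le t))
  have heq : (fun η => A.indicator (fun η => Real.exp (γ * ℓ) * UU d β M t η ^ γ *
          ∑ k ∈ boxF d m, Gf ρ β θ γ r h t (f • k) η) η) =
      fun η => Real.exp (γ * ℓ) * ∑ k ∈ boxF d m, F η * Gf ρ β θ γ r h t (f • k) η := by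
    funext η
    rw [← Finset.mul_sum, hF]
    by_cases h3 : η ∈ A
    · rw [Set.indicator_of_mem h3, Set.indicator_of_mem h3]
      ring
    · rw [Set.indicator_of_notMem h3, Set.indicator_of_notMem h3]
      ring
  have hsum : Integrable (fun η => ∑ k ∈ boxF d m, F η * Gf ρ β θ γ r h t (f • k) η) (law d ρ) :=
    integrable_finsetSum _ fun k _ => (hk _).1
  constructor
  · have h1 := hsum.const_mul (Real.exp (γ * ℓ))
    rw [← heq] at h1
    exact h1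
  · rw [heq, integral_const_mul, integral_finsetSum _ fun k _ => (hk _).1]
    have hFle : ∫ η, F η ∂(law d ρ) ≤ ∫ η in A, UU d β M h η ^ γ ∂(law d ρ) := by
      rw [hF, integral_indicator hAm]
      exact setIntegral_mono hUi.integrableOn hU.integrableOn hle
    have hFn : 0 ≤ ∫ η, F η ∂(law d ρ) := integral_nonneg hF0
    have hI0 : 0 ≤ ∫ η, Gf ρ β θ γ r h 0 (0 : Site d) η ∂(law d ρ) :=
      integral_nonneg fun η => zero_le_one.trans (one_le_Gf _ η)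
    have h2 : ∑ k ∈ boxF d m, ∫ η, F η * Gf ρ β θ γ r h t (f • k) η ∂(law d ρ) ≤
        ∑ _k ∈ boxF d m, (∫ η in A, UU d β M h η ^ γ ∂(law d ρ)) *
          ∫ η, Gf ρ β θ γ r h 0 (0 : Site d) η ∂(law d ρ) := by
      refine Finset.sum_le_sum fun k _ => ?_
      rw [(hk _).2]
      exact mul_le_mul hFle (hG0 _) (integral_nonneg fun η => zero_le_one.trans (one_le_Gf _ η))
        (hFn.trans hFle)
    rw [Finset.sum_const, nsmul_eq_mul, TlF_card] at h2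
    calc Real.exp (γ * ℓ) * ∑ k ∈ boxF d m, ∫ η, F η * Gf ρ β θ γ r h t (f • k) η ∂(law d ρ)
        ≤ Real.exp (γ * ℓ) * ((2 * (m : ℝ) + 1) ^ d * ((∫ η in A, UU d β M h η ^ γ ∂(law d ρ)) *
          ∫ η, Gf ρ β θ γ r h 0 (0 : Site d) η ∂(law d ρ))) :=
          mul_le_mul_of_nonneg_left h2 (Real.exp_pos _).le
      _ = _ := by ring

/-- The mean: integrate `Gf_rec`. `V0` is any measurable event which contains `Fs t` for `1 ≤ t ≤ h`. -/
theorem mean_rec (j0 : Fin d) (hρ : EM ρ) {θ θ1 ℓ R1 γ r : ℝ} {h R f m M : ℕ} (hγ : 0 < γ)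
    (hγ1 : γ ≤ 1) (hU : Integrable (fun η : Env d => UU d β M h η ^ γ) (law d ρ))
    (hθ : 0 ≤ θ) (hθ1 : θ ≤ θ1)
    (hℓ : 0 ≤ ℓ) (hr : 0 ≤ r) (hR : 1 ≤ R) (hR1 : (R : ℝ) + 1 ≤ R1) (hM : r + R + 3 ≤ M)
    (hf : 1 ≤ f) (he : Even f) (hfr : (f : ℝ) ≤ r) (hm : (r + R + 3) / f + 1 ≤ m) :
    ∫ η, Gf ρ β θ γ r h 0 (0 : Site d) η ∂(law d ρ) ≤ KT d ρ β h θ ^ γ * (Real.exp (γ * ℓ) +
      (Real.exp (-(γ * ((θ1 - θ) * R - ℓ))) + Real.exp (γ * ℓ) *
        ∫ η in (⋃ t ∈ Finset.Icc 1 h, Fs d ρ β θ1 ℓ R1 r t), UU d β M h η ^ γ ∂(law d ρ)) *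
      (2 * (m : ℝ) + 1) ^ d * ∫ η, Gf ρ β θ γ r h 0 (0 : Site d) η ∂(law d ρ)) := by
  classical
  have hKγ : 0 ≤ KT d ρ β h θ ^ γ :=
    Real.rpow_nonneg (zero_le_one.trans (one_le_KT h hθ)) _
  have hmt := fun t (ht : t ∈ Finset.Icc 1 h) =>
    mean_term (θ := θ) (θ1 := θ1) (ℓ := ℓ) (R1 := R1) (γ := γ) (r := r) (f := f) (m := m) j0 hρ hγ hγ1 hU
      (Finset.mem_Icc.1 ht).2
  have hGi : ∀ c : Site d, Integrable (fun η : Env d => Gf ρ β θ γ r h 0 c η) (law d ρ) := fun c =>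
    integrable_Gf j0 hρ hγ hγ1 c
  have hS1 : Integrable (fun η : Env d => ∑ k ∈ boxF d m, Gf ρ β θ γ r h 0 (f • k) η) (law d ρ) :=
    integrable_finsetSum _ fun k _ => hGi _
  have hS2 : Integrable (fun η : Env d => ∑ t ∈ Finset.Icc 1 h, (Fs d ρ β θ1 ℓ R1 r t).indicator
        (fun η => Real.exp (γ * ℓ) * UU d β M t η ^ γ *
          ∑ k ∈ boxF d m, Gf ρ β θ γ r h t (f • k) η) η) (law d ρ) :=
    integrable_finsetSum _ fun t ht => (hmt t ht).1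
  have h1 := integral_mono (μ := law d ρ) (hGi 0)
    ((((integrable_const (Real.exp (γ * ℓ))).add
      (hS1.const_mul (Real.exp (-(γ * ((θ1 - θ) * R - ℓ)))))).add hS2).const_mul (KT d ρ β h θ ^ γ))
    (fun η => Gf_rec (ρ := ρ) (β := β) (θ1 := θ1) (ℓ := ℓ) (R1 := R1) (r := r) j0 hγ hθ hθ1 hℓ hr hR hR1 hM
      hf he hfr hm η)
  refine h1.trans ?_
  rw [integral_const_mul]
  refine mul_le_mul_of_nonneg_left ?_ hKγ
  have e1 : ∫ η, (((fun _ : Env d => Real.exp (γ * ℓ)) + fun η => Real.exp (-(γ * ((θ1 - θ) * R - ℓ))) *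
        ∑ k ∈ boxF d m, Gf ρ β θ γ r h 0 (f • k) η) + fun η =>
        ∑ t ∈ Finset.Icc 1 h, (Fs d ρ β θ1 ℓ R1 r t).indicator
        (fun η => Real.exp (γ * ℓ) * UU d β M t η ^ γ *
          ∑ k ∈ boxF d m, Gf ρ β θ γ r h t (f • k) η) η) η ∂(law d ρ) =
      Real.exp (γ * ℓ) + Real.exp (-(γ * ((θ1 - θ) * R - ℓ))) *
        ∑ k ∈ boxF d m, ∫ η, Gf ρ β θ γ r h 0 (f • k) η ∂(law d ρ) +
      ∑ t ∈ Finset.Icc 1 h, ∫ η, (Fs d ρ β θ1 ℓ R1 r t).indicator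
        (fun η => Real.exp (γ * ℓ) * UU d β M t η ^ γ *
          ∑ k ∈ boxF d m, Gf ρ β θ γ r h t (f • k) η) η ∂(law d ρ) := by
    rw [integral_add' ((integrable_const _).add (hS1.const_mul _)) hS2,
      integral_add' (integrable_const _) (hS1.const_mul _), integral_const_mul,
      integral_finsetSum _ fun k _ => hGi _, integral_finsetSum _ fun t ht => (hmt t ht).1]
    simp
  refine (le_of_eq e1).trans ?_
  have e2 : ∑ k ∈ boxF d m, ∫ η, Gf ρ β θ γ r h 0 (f • k) η ∂(law d ρ) =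
      (2 * (m : ℝ) + 1) ^ d * ∫ η, Gf ρ β θ γ r h 0 (0 : Site d) η ∂(law d ρ) := by
    rw [Finset.sum_congr rfl fun k _ => integral_Gf_c (f • k), Finset.sum_const, nsmul_eq_mul, TlF_card]
  have e3 : ∫ η in (⋃ t ∈ Finset.Icc 1 h, Fs d ρ β θ1 ℓ R1 r t), UU d β M h η ^ γ ∂(law d ρ) =
      ∑ t ∈ Finset.Icc 1 h, ∫ η in Fs d ρ β θ1 ℓ R1 r t, UU d β M h η ^ γ ∂(law d ρ) :=
    integral_biUnion_finset _ (fun t _ => measurableSet_Fs t) (fun t _ t' _ htt => Fs_disj htt)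
      (fun t _ => hU.integrableOn)
  have e4 : ∑ t ∈ Finset.Icc 1 h, ∫ η, (Fs d ρ β θ1 ℓ R1 r t).indicator
        (fun η => Real.exp (γ * ℓ) * UU d β M t η ^ γ *
          ∑ k ∈ boxF d m, Gf ρ β θ γ r h t (f • k) η) η ∂(law d ρ) ≤
      Real.exp (γ * ℓ) * (2 * (m : ℝ) + 1) ^ d * (∫ η, Gf ρ β θ γ r h 0 (0 : Site d) η ∂(law d ρ)) *
        ∑ t ∈ Finset.Icc 1 h, ∫ η in Fs d ρ β θ1 ℓ R1 r t, UU d β M h η ^ γ ∂(law d ρ) := by
    rw [Finset.mul_sum]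
    exact Finset.sum_le_sum fun t ht => (hmt t ht).2
  rw [e2, e3]
  refine (add_le_add_right e4 _).trans (le_of_eq ?_)
  ring

end Pool.Agent.W_7d29a1_q
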